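import Pool.Agent.Lib.MP_524521_nt.RA.Defs

/-!
# The l1 norm of an integer polynomial is subadditive and submultiplicative
-/

namespace Pool.Agent.Lib.MP_524521_nt.RA

/-- the l1 norm may be computed over any finite set containing the support -/
theorem N1_eq_sum {m : ℕ} (p : G m) (S : Finset (Fin m →₀ ℕ)) (hS : p.support ⊆ S) :
    N1 p = ∑ d ∈ S, (p.coeff d).natAbs := by
  unfold N1
  refine Finset.sum_subset hS fun d _ hd => ?_
  rw [MvPolynomial.notMem_support_iff.mp hd]
  rfl

theorem N1_zero {m : ℕ} : N1 (0 : G m) = 0 := by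
  simp [N1]

theorem N1_add {m : ℕ} (p q : G m) : N1 (p + q) ≤ N1 p + N1 q := by
  classical
  rw [N1_eq_sum (p + q) (p.support ∪ q.support) MvPolynomial.support_add,
    N1_eq_sum p (p.support ∪ q.support) Finset.subset_union_left,
    N1_eq_sum q (p.support ∪ q.support) Finset.subset_union_right, ← Finset.sum_add_distrib]
  refine Finset.sum_le_sum fun d _ => ?_
  rw [MvPolynomial.coeff_add]
  exact Int.natAbs_add_le _ _

theorem N1_sum {m : ℕ} {ι : Type*} (s : Finset ι) (f : ι → G m) :
    N1 (∑ i ∈ s, f i) ≤ ∑ i ∈ s, N1 (f i) := by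
  classical
  induction s using Finset.induction_on with
  | empty => simp [N1_zero]
  | insert a s ha ih =>
      rw [Finset.sum_insert ha, Finset.sum_insert ha]
      exact (N1_add _ _).trans (by omega)

theorem N1_monomial {m : ℕ} (d : Fin m →₀ ℕ) (c : ℤ) :
    N1 (MvPolynomial.monomial d c : G m) = c.natAbs := by
  classical
  rw [N1_eq_sum _ {d} MvPolynomial.support_monomial_subset]
  simp

theorem N1_mul_monomial {m : ℕ} (p : G m) (d : Fin m →₀ ℕ) (c : ℤ) :
    N1 (p * MvPolynomial.monomial d c) ≤ N1 p * c.natAbs := by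
  classical
  have hsub : (p * MvPolynomial.monomial d c).support ⊆ p.support.image (fun e => e + d) := by
    intro e he
    by_contra hcon
    rw [MvPolynomial.mem_support_iff, MvPolynomial.coeff_mul_monomial'] at he
    split_ifs at he with hle
    · apply hcon
      rw [Finset.mem_image]
      refine ⟨e - d, ?_, tsub_add_cancel_of_le hle⟩
      rw [MvPolynomial.mem_support_iff]
      intro h0
      exact he (by rw [h0, zero_mul])
    · exact he rfl
  rw [N1_eq_sum _ _ hsub, Finset.sum_image (fun x _ y _ h => add_right_cancel h)]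
  unfold N1
  rw [Finset.sum_mul]
  refine Finset.sum_le_sum fun e _ => ?_
  rw [MvPolynomial.coeff_mul_monomial, Int.natAbs_mul]

theorem N1_mul {m : ℕ} (p q : G m) : N1 (p * q) ≤ N1 p * N1 q := by
  classical
  conv_lhs => rw [MvPolynomial.as_sum q, Finset.mul_sum]
  refine (N1_sum _ _).trans ?_
  have : N1 p * N1 q = ∑ d ∈ q.support, N1 p * (q.coeff d).natAbs := by
    rw [← Finset.mul_sum]; rfl
  rw [this]
  exact Finset.sum_le_sum fun d _ => N1_mul_monomial _ _ _

theorem N1_one {m : ℕ} : N1 (1 : G m) ≤ 1 := by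
  have : (1 : G m) = MvPolynomial.monomial 0 1 := rfl
  rw [this, N1_monomial]
  rfl

theorem N1_neg {m : ℕ} (p : G m) : N1 (-p) = N1 p := by
  unfold N1
  rw [MvPolynomial.support_neg]
  refine Finset.sum_congr rfl fun d _ => ?_
  rw [MvPolynomial.coeff_neg, Int.natAbs_neg]

theorem N1_prod {m : ℕ} {ι : Type*} (s : Finset ι) (f : ι → G m) :
    N1 (∏ i ∈ s, f i) ≤ ∏ i ∈ s, N1 (f i) := by
  classical
  induction s using Finset.induction_on with
  | empty => simpa using N1_one
  | insert a s ha ih =>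
      rw [Finset.prod_insert ha, Finset.prod_insert ha]
      exact (N1_mul _ _).trans (Nat.mul_le_mul_left _ ih)

theorem N1_pow {m : ℕ} (p : G m) (k : ℕ) : N1 (p ^ k) ≤ N1 p ^ k := by
  induction k with
  | zero => simpa using N1_one
  | succ k ih =>
      rw [pow_succ, pow_succ]
      exact (N1_mul _ _).trans (Nat.mul_le_mul_right _ ih)

/-- the l1 norm of a determinant -/
theorem N1_det_le {m : ℕ} {n : Type*} [Fintype n] [DecidableEq n] (M : Matrix n n (G m)) (Y : ℕ)
    (hM : ∀ i j, N1 (M i j) ≤ Y) :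
    N1 M.det ≤ (Fintype.card n).factorial * Y ^ Fintype.card n := by
  classical
  rw [Matrix.det_apply]
  refine (N1_sum _ _).trans ?_
  have : ∀ σ ∈ (Finset.univ : Finset (Equiv.Perm n)),
      N1 (Equiv.Perm.sign σ • ∏ i, M (σ i) i) ≤ Y ^ Fintype.card n := by
    intro σ _
    have h1 : N1 (Equiv.Perm.sign σ • ∏ i, M (σ i) i) = N1 (∏ i, M (σ i) i) := by
      rcases Int.units_eq_one_or (Equiv.Perm.sign σ) with h | h
      · rw [h, one_smul]
      · rw [h, Units.neg_smul, one_smul, N1_neg]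
    rw [h1]
    refine (N1_prod _ _).trans ?_
    refine (Finset.prod_le_prod' (fun i _ => hM (σ i) i)).trans ?_
    rw [Finset.prod_const, Finset.card_univ]
  refine (Finset.sum_le_sum this).trans ?_
  rw [Finset.sum_const, Finset.card_univ, Fintype.card_perm, smul_eq_mul]

/-- value of a polynomial at a point with coordinates of norm at most `Z` (`Z ≥ 1`) -/
theorem norm_aeval_le_N1 {m : ℕ} (p : G m) (x : Fin m → ℂ) (Z : ℝ) (hZ : 1 ≤ Z)
    (hx : ∀ j, ‖x j‖ ≤ Z) (D : ℕ) (hD : p.totalDegree ≤ D) :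
    ‖MvPolynomial.aeval x p‖ ≤ N1 p * Z ^ D := by
  classical
  rw [MvPolynomial.aeval_def, MvPolynomial.eval₂_eq]
  refine (norm_sum_le _ _).trans ?_
  have : ((N1 p : ℕ) : ℝ) * Z ^ D = ∑ d ∈ p.support, ((p.coeff d).natAbs : ℝ) * Z ^ D := by
    rw [← Finset.sum_mul]
    unfold N1
    push_cast
    rfl
  rw [this]
  refine Finset.sum_le_sum fun d hd => ?_
  rw [norm_mul, norm_prod]
  have h1 : ‖(algebraMap ℤ ℂ) (MvPolynomial.coeff d p)‖ = ((p.coeff d).natAbs : ℝ) := by
    simp [Nat.cast_natAbs]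
  rw [h1]
  refine mul_le_mul_of_nonneg_left ?_ (Nat.cast_nonneg _)
  have h2 : ∏ i ∈ d.support, ‖x i ^ d i‖ ≤ ∏ i ∈ d.support, Z ^ d i := by
    refine Finset.prod_le_prod (fun i _ => norm_nonneg _) fun i _ => ?_
    rw [norm_pow]
    exact pow_le_pow_left₀ (norm_nonneg _) (hx i) _
  refine h2.trans ?_
  rw [Finset.prod_pow_eq_pow_sum]
  refine pow_le_pow_right₀ hZ ?_
  exact (MvPolynomial.le_totalDegree hd).trans hD

end Pool.Agent.Lib.MP_524521_nt.RA
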