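import Pool.Agent.Lib.MP_524521_nt.RA.EvalDefs
import Pool.Agent.Lib.MP_524521_nt.RA.Norm

/-!
# Evaluation of `G m [X]` at `z, g_0(z), …, g_{m-1}(z)`: differentiability and bounds
-/

open Polynomial

namespace Pool.Agent.Lib.MP_524521_nt.RA

theorem evg_eq_sum {m : ℕ} (g : Fin m → ℂ → ℂ) (z : ℂ) (p : Polynomial (G m)) :
    evg g z p = ∑ k ∈ Finset.range (p.natDegree + 1),
      MvPolynomial.aeval (fun j => g j z) (p.coeff k) * z ^ k := by
  unfold evg
  rw [Polynomial.coe_eval₂RingHom, Polynomial.eval₂_eq_sum_range]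
  rfl

theorem differentiableOn_aeval {m : ℕ} (g : Fin m → ℂ → ℂ) (U : Set ℂ)
    (hg : ∀ j, DifferentiableOn ℂ (g j) U) (R : G m) :
    DifferentiableOn ℂ (fun z => MvPolynomial.aeval (fun j => g j z) R) U := by
  induction R using MvPolynomial.induction_on with
  | C a =>
      simp only [MvPolynomial.aeval_C]
      exact differentiableOn_const _
  | add p q hp hq =>
      simp only [map_add]
      exact hp.add hq
  | mul_X p j hp =>
      simp only [map_mul, MvPolynomial.aeval_X]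
      exact hp.mul (hg j)

theorem differentiableOn_evg {m : ℕ} (g : Fin m → ℂ → ℂ) (U : Set ℂ)
    (hg : ∀ j, DifferentiableOn ℂ (g j) U) (p : Polynomial (G m)) :
    DifferentiableOn ℂ (fun z => evg g z p) U := by
  have : (fun z => evg g z p) = fun z => ∑ k ∈ Finset.range (p.natDegree + 1),
      MvPolynomial.aeval (fun j => g j z) (p.coeff k) * z ^ k := by
    funext z; exact evg_eq_sum g z p
  rw [this]
  refine DifferentiableOn.fun_sum fun k _ => ?_
  exact (differentiableOn_aeval g U hg _).mul (by fun_prop)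

theorem norm_evg_le {m : ℕ} (g : Fin m → ℂ → ℂ) (z : ℂ) (Z R Y : ℝ) (hZ : 1 ≤ Z) (hR : 1 ≤ R)
    (hg : ∀ j, ‖g j z‖ ≤ Z) (hz : ‖z‖ ≤ R) (p : Polynomial (G m)) (A D : ℕ)
    (h1 : p.natDegree ≤ A) (h2 : ∀ k, (p.coeff k).totalDegree ≤ D)
    (h3 : ∀ k, (N1 (p.coeff k) : ℝ) ≤ Y) :
    ‖evg g z p‖ ≤ (A + 1) * Y * Z ^ D * R ^ A := by
  have hY0 : 0 ≤ Y := le_trans (Nat.cast_nonneg _) (h3 0)
  have hZ0 : 0 ≤ Z := by linarith
  have hR0 : 0 ≤ R := by linarith
  rw [evg_eq_sum]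
  refine (norm_sum_le _ _).trans ?_
  have hterm : ∀ k ∈ Finset.range (p.natDegree + 1),
      ‖MvPolynomial.aeval (fun j => g j z) (p.coeff k) * z ^ k‖ ≤ Y * Z ^ D * R ^ A := by
    intro k hk
    rw [norm_mul, norm_pow]
    have h4 := norm_aeval_le_N1 (p.coeff k) (fun j => g j z) Z hZ hg D (h2 k)
    have hk' := Finset.mem_range.mp hk
    have h5 : ‖z‖ ^ k ≤ R ^ A :=
      (pow_le_pow_left₀ (norm_nonneg _) hz k).trans (pow_le_pow_right₀ hR (by omega))
    calc ‖MvPolynomial.aeval (fun j => g j z) (p.coeff k)‖ * ‖z‖ ^ k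
        ≤ (N1 (p.coeff k) * Z ^ D) * R ^ A := by gcongr
      _ ≤ Y * Z ^ D * R ^ A := by
          gcongr
          exact h3 k
  refine (Finset.sum_le_sum hterm).trans ?_
  rw [Finset.sum_const, Finset.card_range, nsmul_eq_mul]
  have hc : ((p.natDegree + 1 : ℕ) : ℝ) ≤ A + 1 := by exact_mod_cast Nat.succ_le_succ h1
  calc ((p.natDegree + 1 : ℕ) : ℝ) * (Y * Z ^ D * R ^ A)
      ≤ (A + 1) * (Y * Z ^ D * R ^ A) := by gcongr
    _ = _ := by ring

/-- value at a natural number: specialise the variable first -/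
theorem evg_natCast {m : ℕ} (g : Fin m → ℂ → ℂ) (M : ℕ) (p : Polynomial (G m)) :
    evg g (M : ℂ) p = MvPolynomial.aeval (fun j => g j (M : ℂ)) (p.eval (M : G m)) := by
  unfold evg
  rw [Polynomial.coe_eval₂RingHom, Polynomial.eval₂_at_natCast]
  rfl

end Pool.Agent.Lib.MP_524521_nt.RA
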