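import Mathlib

/-! Definitions for the theorem on polynomial relations of `zeta(s), .., zeta(s+m-1)` at rational `s`
(paper proof: store file `MP_524521_h58_Arguments.md`). -/

open Polynomial

namespace Pool.Agent.Lib.MP_524521_nt.RA

/-- value of the monomial `θ` (a multiset of size `B`) at `x` -/
def mval {Γ : Type} {R : Type} [CommMonoid R] {B : ℕ} (x : Γ → R) (θ : Sym Γ B) : R :=
  (θ.1.map x).prod

/-- the row of coefficients of `(∑ γ, e γ * X γ) * X^θ` -/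
def row {Γ : Type} [Fintype Γ] [DecidableEq Γ] {R : Type} [AddCommMonoid R] (e : Γ → R)
    {B : ℕ} (θ : Sym Γ B) (α : Sym Γ (B + 1)) : R :=
  ∑ γ, if γ ::ₛ θ = α then e γ else 0

/-- `Θ` is free for `(s, c)` and degree `< A`: no nonzero polynomial
`∑ θ ∈ Θ, p θ (X) * c^θ`, `deg p θ < A`, vanishes at all points `(s i, c i)` -/
def Free {ι Γ : Type} (s : ι → ℚ) (c : ι → Γ → ℤ) (A : ℕ) {B : ℕ} (Θ : Finset (Sym Γ B)) : Prop :=
  ∀ p : Sym Γ B → ℚ[X], (∀ θ, (p θ).degree < A) → (∀ θ, θ ∉ Θ → p θ = 0) →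
    (∀ i, ∑ θ ∈ Θ, (p θ).eval (s i) * ((mval (c i) θ : ℤ) : ℚ) = 0) → p = 0

/-- the ring `ℤ[g_1..g_m]` -/
abbrev G (m : ℕ) := MvPolynomial (Fin m) ℤ

/-- l1 norm of the coefficients -/
noncomputable def N1 {m : ℕ} (R : G m) : ℕ := ∑ d ∈ R.support, (R.coeff d).natAbs

end Pool.Agent.Lib.MP_524521_nt.RA
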