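import Mathlib

/-! Linearly independent rows over a domain have a nonzero maximal minor. -/

namespace Pool.Agent.Lib.MP_524521_nt.RA

theorem exists_minor_field {K : Type} [Field K] {ι κ : Type} [Fintype ι] [DecidableEq ι]
    [Fintype κ] (v : ι → κ → K) (hv : LinearIndependent K v) :
    ∃ g : ι → κ, Function.Injective g ∧ (Matrix.of fun i j => v i (g j)).det ≠ 0 := by
  classical
  let A : Matrix ι κ K := Matrix.of v
  have hr : A.rank = Fintype.card ι := by
    apply LinearIndependent.rank_matrix
    exact hv
  have hspan : Submodule.span K (Set.range A.col) = ⊤ := by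
    apply Submodule.eq_top_of_finrank_eq
    rw [← Matrix.rank_eq_finrank_span_cols, hr]
    simp
  obtain ⟨κ', a, ha, hsp, hli⟩ := exists_linearIndependent' K A.col
  rw [hspan] at hsp
  have hb : ⊤ ≤ Submodule.span K (Set.range (A.col ∘ a)) := by rw [hsp]
  let b := Module.Basis.mk hli hb
  have : Fintype κ' := Fintype.ofInjective a ha
  have hcard : Fintype.card κ' = Fintype.card ι := by
    have h1 := Module.finrank_eq_card_basis b
    rw [← h1]; simp
  obtain ⟨e⟩ := Fintype.card_eq.1 hcard
  refine ⟨a ∘ e.symm, ha.comp e.symm.injective, ?_⟩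
  have hli2 : LinearIndependent K (A.col ∘ a ∘ e.symm) := by
    have := hli.comp e.symm e.symm.injective
    simpa [Function.comp_assoc] using this
  have hu : IsUnit (Matrix.of fun i j => v i ((a ∘ e.symm) j)) := by
    rw [← Matrix.linearIndependent_cols_iff_isUnit]
    exact hli2
  rw [Matrix.isUnit_iff_isUnit_det] at hu
  exact hu.ne_zero

theorem exists_minor {R : Type} [CommRing R] [IsDomain R] {ι κ : Type} [Fintype ι] [DecidableEq ι]
    [Fintype κ] (v : ι → κ → R) (hv : LinearIndependent R v) :
    ∃ g : ι → κ, Function.Injective g ∧ (Matrix.of fun i j => v i (g j)).det ≠ 0 := by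
  classical
  let K := FractionRing R
  let w : ι → κ → K := fun i j => algebraMap R K (v i j)
  have hw : LinearIndependent K w := by
    rw [← LinearIndependent.iff_fractionRing (R := R) (K := K)]
    let φ : (κ → R) →ₗ[R] (κ → K) := LinearMap.compLeft (Algebra.linearMap R K) κ
    have hφ : Function.Injective φ := by
      intro x y hxy
      funext j
      have := congrFun hxy j
      exact IsFractionRing.injective R K this
    have h2 := hv.map' φ (LinearMap.ker_eq_bot.2 hφ)
    exact h2
  obtain ⟨g, hg, hdet⟩ := exists_minor_field w hw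
  refine ⟨g, hg, fun h0 => hdet ?_⟩
  have : (Matrix.of fun i j => w i (g j)) = (algebraMap R K).mapMatrix (Matrix.of fun i j => v i (g j)) := by
    ext i j; rfl
  rw [this, ← RingHom.map_det, h0, map_zero]

end Pool.Agent.Lib.MP_524521_nt.RA
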