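import Mathlib
import Pool.Agent.Lib.MP_524521_nt.RA.Defs
import Pool.Agent.Lib.MP_524521_nt.RA.Minor

/-! Lower bound for a nonzero determinant of rational numbers, and independence of the functions
`s^a c^θ` on the good points. -/

open Polynomial

namespace Pool.Agent.Lib.MP_524521_nt.RA

theorem det_int_lower {R : Type} [Fintype R] [DecidableEq R] (M : Matrix R R ℚ) (d : R → ℕ)
    (hint : ∀ i j, ∃ z : ℤ, M i j * (d j : ℚ) = z) (hd : ∀ j, 1 ≤ d j) (h0 : M.det ≠ 0) :
    1 ≤ |((M.det : ℚ) : ℝ)| * ∏ j, (d j : ℝ) := by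
  choose z hz using hint
  have h1 : (Matrix.of fun i j => M i j * (d j : ℚ)).det = M.det * ∏ j, (d j : ℚ) := by
    have : (Matrix.of fun i j => M i j * (d j : ℚ)) = M * Matrix.diagonal (fun j => (d j : ℚ)) := by
      ext i j; rw [Matrix.mul_diagonal]; rfl
    rw [this, Matrix.det_mul, Matrix.det_diagonal]
  have h2 : (Matrix.of fun i j => M i j * (d j : ℚ)).det = (((Matrix.of z).det : ℤ) : ℚ) := by
    have : (Matrix.of fun i j => M i j * (d j : ℚ)) = (Int.castRingHom ℚ).mapMatrix (Matrix.of z) := by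
      ext i j; simp [hz]
    rw [this, ← RingHom.map_det]; rfl
  have h3 : M.det * ∏ j, (d j : ℚ) ≠ 0 := by
    apply mul_ne_zero h0
    rw [Finset.prod_ne_zero_iff]
    intro j _
    have := hd j
    have : (0:ℚ) < d j := by exact_mod_cast this
    exact this.ne'
  rw [← h1, h2] at h3
  have h4 : (Matrix.of z).det ≠ 0 := by
    intro h; apply h3; rw [h]; simp
  have h5 : (1:ℤ) ≤ |(Matrix.of z).det| := Int.one_le_abs h4
  have h6 : ((M.det : ℚ) : ℝ) * ∏ j, (d j : ℝ) = (((Matrix.of z).det : ℤ) : ℝ) := by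
    have := h1.symm.trans h2
    have h7 : (((M.det * ∏ j, (d j : ℚ) : ℚ)) : ℝ) = ((((Matrix.of z).det : ℤ) : ℚ) : ℝ) := by
      rw [this]
    rw [Rat.cast_mul, Rat.cast_prod, Rat.cast_intCast] at h7
    simpa only [Rat.cast_natCast] using h7
  have h8 : |((M.det : ℚ) : ℝ)| * ∏ j, (d j : ℝ) = |((M.det : ℚ) : ℝ) * ∏ j, (d j : ℝ)| := by
    rw [abs_mul, abs_of_nonneg (a := ∏ j, (d j : ℝ)) (Finset.prod_nonneg fun j _ => Nat.cast_nonneg (d j))]
  rw [h8, h6]
  exact_mod_cast h5

theorem indep_rows {ι Γ : Type} (s : ι → ℚ) (c : ι → Γ → ℤ) {B : ℕ} (A q : ℕ)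
    (Θ : Finset (Sym Γ B)) (hΘ : Free s c (A + q) Θ) (Bd : Finset ι) (hq : Bd.card ≤ q) :
    LinearIndependent ℚ (fun (x : Fin A × Θ) (i : {i : ι // i ∉ Bd}) =>
      (s i) ^ (x.1 : ℕ) * ((mval (c i) x.2.1 : ℤ) : ℚ)) := by
  classical
  rw [Fintype.linearIndependent_iff]
  intro g hg
  let Q : Θ → ℚ[X] := fun θ => ∑ a : Fin A, C (g (a, θ)) * X ^ (a : ℕ)
  let Z : ℚ[X] := ∏ b ∈ Bd, (X - C (s b))
  let p : Sym Γ B → ℚ[X] := fun θ => if h : θ ∈ Θ then Q ⟨θ, h⟩ * Z else 0
  have hZ0 : Z ≠ 0 := by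
    rw [Finset.prod_ne_zero_iff]
    intro b _
    exact X_sub_C_ne_zero _
  have hZd : Z.degree ≤ q := by
    have h1 : Z.natDegree = Bd.card := by
      simp only [Z]
      rw [natDegree_prod _ _ (fun b _ => X_sub_C_ne_zero _)]
      simp
    rw [degree_eq_natDegree hZ0, h1]
    exact_mod_cast hq
  have hQd : ∀ θ, (Q θ).degree < A := by
    intro θ
    apply (degree_lt_iff_coeff_zero _ _).2
    intro k hk
    simp only [Q, finsetSum_coeff, coeff_C_mul, coeff_X_pow]
    apply Finset.sum_eq_zero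
    intro a _
    rw [if_neg (by have := a.2; omega), mul_zero]
  have hp := hΘ p ?_ ?_ ?_
  · -- conclude
    rintro ⟨a, θ⟩
    have h1 : p θ.1 = 0 := by rw [hp]; rfl
    simp only [p, θ.2, dif_pos] at h1
    have h2 : Q θ = 0 := by
      rcases mul_eq_zero.1 h1 with h | h
      · exact h
      · exact absurd h hZ0
    have h3 : (Q θ).coeff (a : ℕ) = 0 := by rw [h2]; simp
    simp only [Q, finsetSum_coeff, coeff_C_mul, coeff_X_pow] at h3
    rw [Finset.sum_eq_single a] at h3
    · simpa using h3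
    · intro b _ hb
      rw [if_neg (fun h => hb (Fin.ext h.symm)), mul_zero]
    · intro h; exact absurd (Finset.mem_univ _) h
  · intro θ
    simp only [p]
    split_ifs with h
    · by_cases hQ : Q ⟨θ, h⟩ = 0
      · rw [hQ, zero_mul, degree_zero]; exact WithBot.bot_lt_coe _
      · rw [degree_mul]
        calc (Q ⟨θ, h⟩).degree + Z.degree ≤ (Q ⟨θ, h⟩).degree + (q : WithBot ℕ) := by gcongr
          _ < (A : WithBot ℕ) + (q : WithBot ℕ) := by
            apply WithBot.add_lt_add_right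
            · exact WithBot.coe_ne_bot
            · exact hQd _
          _ = ((A + q : ℕ) : WithBot ℕ) := by push_cast; rfl
    · rw [degree_zero]; exact WithBot.bot_lt_coe _
  · intro θ h
    simp only [p]
    rw [dif_neg h]
  · intro i
    have e1 : ∑ θ ∈ Θ, (p θ).eval (s i) * ((mval (c i) θ : ℤ) : ℚ) =
        (∑ θ : Θ, (Q θ).eval (s i) * ((mval (c i) θ.1 : ℤ) : ℚ)) * Z.eval (s i) := by
      rw [← Finset.sum_coe_sort Θ, Finset.sum_mul]
      refine Finset.sum_congr rfl fun θ _ => ?_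
      simp only [p, θ.2, dif_pos, eval_mul]
      ring
    rw [e1]
    by_cases hi : i ∈ Bd
    · have : Z.eval (s i) = 0 := by
        simp only [Z, eval_prod]
        apply Finset.prod_eq_zero hi
        simp
      rw [this, mul_zero]
    · have h1 := congrFun hg ⟨i, hi⟩
      simp only [Finset.sum_apply, Pi.smul_apply, smul_eq_mul, Pi.zero_apply] at h1
      have h2 : ∑ θ : Θ, (Q θ).eval (s i) * ((mval (c i) θ.1 : ℤ) : ℚ) = 0 := by
        rw [← h1, Fintype.sum_prod_type_right]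
        refine Finset.sum_congr rfl fun θ _ => ?_
        simp only [Q, eval_finsetSum, eval_mul, eval_C, eval_pow, eval_X, Finset.sum_mul]
        refine Finset.sum_congr rfl fun a _ => ?_
        ring
      rw [h2, zero_mul]

end Pool.Agent.Lib.MP_524521_nt.RA
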