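import Mathlib
import Pool.Agent.Lib.MP_524521_nt.RA.Defs

/-! Cramer representation of the solutions of a linear system. -/

namespace Pool.Agent.Lib.MP_524521_nt.RA

theorem mval_cons {Γ R : Type} [CommMonoid R] {B : ℕ} (x : Γ → R) (γ : Γ) (θ : Sym Γ B) :
    mval x (γ ::ₛ θ) = x γ * mval x θ := by
  simp [mval, Sym.coe_cons]

theorem row_pair {Γ R : Type} [Fintype Γ] [DecidableEq Γ] [CommSemiring R] {B : ℕ} (e x : Γ → R)
    (θ : Sym Γ B) : ∑ α, row e θ α * mval x α = (∑ γ, e γ * x γ) * mval x θ := by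
  unfold row
  simp only [Finset.sum_mul]
  rw [Finset.sum_comm]
  refine Finset.sum_congr rfl fun γ _ => ?_
  rw [Finset.sum_eq_single (γ ::ₛ θ)]
  · rw [if_pos rfl, mval_cons]; ring
  · intro β _ hβ
    rw [if_neg (fun h => hβ h.symm), zero_mul]
  · intro h; exact absurd (Finset.mem_univ _) h

section

variable {κ Sg R : Type} [Fintype κ] [DecidableEq κ] [Fintype Sg] [DecidableEq Sg] [CommRing R]

/-- the square matrix on the columns `g` -/
def sq (v : κ → Sg → R) (g : κ → Sg) : Matrix κ κ R := Matrix.of fun i j => v i (g j)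

open Classical in
/-- the coefficients of the representation -/
noncomputable def BB (v : κ → Sg → R) (g : κ → Sg) (α l : Sg) : R :=
  if h : ∃ ρ, g ρ = α then -∑ i, (sq v g).adjugate h.choose i * v i l
  else if α = l then (sq v g).det else 0

open Classical in
/-- the error term -/
noncomputable def Er (v : κ → Sg → R) (g : κ → Sg) (u : Sg → R) (α : Sg) : R :=
  if h : ∃ ρ, g ρ = α then ∑ i, (sq v g).adjugate h.choose i * ∑ β, v i β * u β else 0

open Classical in
theorem repr_eq (v : κ → Sg → R) (g : κ → Sg) (hg : Function.Injective g) (u : Sg → R) (α : Sg) :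
    (sq v g).det * u α =
      ∑ l ∈ Finset.univ.filter (fun l => l ∉ Set.range g), BB v g α l * u l + Er v g u α := by
  by_cases h : ∃ ρ, g ρ = α
  · have hBB : ∀ l, BB v g α l = -∑ i, (sq v g).adjugate h.choose i * v i l := by
      intro l; unfold BB; rw [dif_pos h]
    have hEr : Er v g u α = ∑ i, (sq v g).adjugate h.choose i * ∑ β, v i β * u β := by
      unfold Er; rw [dif_pos h]
    rw [hEr]
    simp only [hBB]
    set ρ := h.choose with hρ
    have hρα : g ρ = α := h.choose_spec
    have hsplit : ∀ i, ∑ β, v i β * u β =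
        ∑ j, v i (g j) * u (g j) + ∑ l ∈ Finset.univ.filter (fun l => l ∉ Set.range g), v i l * u l := by
      intro i
      have h1 : ∑ β, v i β * u β = ∑ β ∈ Finset.univ.filter (fun l => l ∈ Set.range g), v i β * u β +
          ∑ l ∈ Finset.univ.filter (fun l => l ∉ Set.range g), v i l * u l := by
        rw [Finset.sum_filter_add_sum_filter_not]
      rw [h1]
      congr 1
      have h2 : Finset.univ.filter (fun l => l ∈ Set.range g) = Finset.univ.image g := by
        ext l; simp
      rw [h2, Finset.sum_image (fun x _ y _ hxy => hg hxy)]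
    simp only [hsplit, mul_add, Finset.sum_add_distrib, neg_mul, Finset.sum_neg_distrib]
    have h3 : ∑ i, (sq v g).adjugate ρ i * ∑ j, v i (g j) * u (g j) = (sq v g).det * u α := by
      have h4 : ∀ j, ∑ i, (sq v g).adjugate ρ i * v i (g j) = if ρ = j then (sq v g).det else 0 := by
        intro j
        have := congrFun (congrFun (Matrix.adjugate_mul (sq v g)) ρ) j
        rw [Matrix.mul_apply] at this
        simp only [sq, Matrix.of_apply] at this ⊢
        rw [this, Matrix.smul_apply, Matrix.one_apply]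
        split_ifs <;> simp
      calc ∑ i, (sq v g).adjugate ρ i * ∑ j, v i (g j) * u (g j)
          = ∑ j, (∑ i, (sq v g).adjugate ρ i * v i (g j)) * u (g j) := by
            simp only [Finset.mul_sum, Finset.sum_mul]
            rw [Finset.sum_comm]
            refine Finset.sum_congr rfl fun j _ => Finset.sum_congr rfl fun i _ => ?_
            ring
        _ = (sq v g).det * u α := by
            simp only [h4, ite_mul, zero_mul]
            rw [Finset.sum_ite_eq]
            simp [hρα]
    rw [h3]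
    have h5 : ∑ l ∈ Finset.univ.filter (fun l => l ∉ Set.range g),
        (∑ i, (sq v g).adjugate ρ i * v i l) * u l =
        ∑ i, (sq v g).adjugate ρ i * ∑ l ∈ Finset.univ.filter (fun l => l ∉ Set.range g), v i l * u l := by
      simp only [Finset.mul_sum, Finset.sum_mul]
      rw [Finset.sum_comm]
      refine Finset.sum_congr rfl fun i _ => Finset.sum_congr rfl fun l _ => ?_
      ring
    rw [h5]
    ring
  · have hBB : ∀ l, BB v g α l = if α = l then (sq v g).det else 0 := by
      intro l; unfold BB; rw [dif_neg h]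
    have hEr : Er v g u α = 0 := by unfold Er; rw [dif_neg h]
    rw [hEr]
    simp only [hBB, ite_mul, zero_mul, add_zero]
    rw [Finset.sum_ite_eq, if_pos]
    simpa using h

omit [Fintype Sg] in
theorem map_BB {R' : Type} [CommRing R'] (f : R →+* R') (v : κ → Sg → R) (g : κ → Sg) (α l : Sg) :
    f (BB v g α l) = BB (fun i j => f (v i j)) g α l := by
  classical
  have hsq : sq (fun i j => f (v i j)) g = f.mapMatrix (sq v g) := by
    ext i j; rfl
  unfold BB
  split_ifs with h h2
  · rw [map_neg, map_sum]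
    congr 1
    refine Finset.sum_congr rfl fun i _ => ?_
    rw [map_mul, hsq, ← RingHom.map_adjugate]
    rfl
  · rw [hsq, ← RingHom.map_det]
  · rw [map_zero]

end

/-! bounds -/

section

variable {κ Sg : Type} [Fintype κ] [DecidableEq κ] [Fintype Sg] [DecidableEq Sg]

theorem norm_det_le {n : ℕ} {Y : ℝ} (hY : 1 ≤ Y) (hn : Fintype.card κ ≤ n) (M : Matrix κ κ ℂ)
    (hM : ∀ i j, ‖M i j‖ ≤ Y) : ‖M.det‖ ≤ n.factorial * Y ^ n := by
  have h := Matrix.det_le (A := M) (abv := NormedField.toAbsoluteValue ℂ) (x := Y)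
    (fun i j => hM i j)
  have h2 : ‖M.det‖ ≤ (Fintype.card κ).factorial • Y ^ Fintype.card κ := h
  rw [nsmul_eq_mul] at h2
  refine h2.trans ?_
  gcongr

theorem norm_adj_le {n : ℕ} {Y : ℝ} (hY : 1 ≤ Y) (hn : Fintype.card κ ≤ n) (M : Matrix κ κ ℂ)
    (hM : ∀ i j, ‖M i j‖ ≤ Y) (i j : κ) : ‖M.adjugate i j‖ ≤ n.factorial * Y ^ n := by
  rw [Matrix.adjugate_apply]
  apply norm_det_le hY hn
  intro a b
  rw [Matrix.updateRow_apply]
  split_ifs with h
  · by_cases hb : b = i
    · subst hb; simpa using hY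
    · rw [Pi.single_eq_of_ne hb]; simp; linarith
  · exact hM a b

theorem norm_BB_le {n : ℕ} {Y : ℝ} (hY : 1 ≤ Y) (hn : Fintype.card κ ≤ n) (v : κ → Sg → ℂ)
    (hv : ∀ i α, ‖v i α‖ ≤ Y) (g : κ → Sg) (α l : Sg) :
    ‖BB v g α l‖ ≤ (n + 1) * n.factorial * Y ^ (n + 1) := by
  classical
  have hsq : ∀ i j, ‖sq v g i j‖ ≤ Y := fun i j => hv i (g j)
  have hY0 : (0:ℝ) ≤ Y := by linarith
  unfold BB
  split_ifs with h h2
  · rw [norm_neg]
    refine (norm_sum_le _ _).trans ?_
    have : ∀ i ∈ Finset.univ, ‖(sq v g).adjugate h.choose i * v i l‖ ≤ n.factorial * Y ^ n * Y := by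
      intro i _
      rw [norm_mul]
      have h1 := norm_adj_le hY hn (sq v g) hsq h.choose i
      have h2 := hv i l
      have h0 : 0 ≤ (n.factorial : ℝ) * Y ^ n := by positivity
      exact mul_le_mul h1 h2 (norm_nonneg _) h0
    refine (Finset.sum_le_sum this).trans ?_
    rw [Finset.sum_const, nsmul_eq_mul, Finset.card_univ]
    have hc : (Fintype.card κ : ℝ) ≤ n + 1 := by
      have : (Fintype.card κ : ℝ) ≤ n := by exact_mod_cast hn
      linarith
    calc (Fintype.card κ : ℝ) * (n.factorial * Y ^ n * Y) ≤ (n + 1) * (n.factorial * Y ^ n * Y) := by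
          gcongr
      _ = (n + 1) * n.factorial * Y ^ (n + 1) := by ring
  · refine (norm_det_le hY hn (sq v g) hsq).trans ?_
    have h1 : (n.factorial : ℝ) * Y ^ n ≤ n.factorial * Y ^ (n + 1) := by
      gcongr
      omega
    have h2 : (n.factorial : ℝ) * Y ^ (n + 1) ≤ (n + 1) * (n.factorial * Y ^ (n + 1)) := by
      have : 0 ≤ (n.factorial : ℝ) * Y ^ (n + 1) := by positivity
      nlinarith [(Nat.cast_nonneg n : (0:ℝ) ≤ n)]
    linarith
  · rw [norm_zero]; positivity

theorem norm_Er_le {n : ℕ} {Y ξ : ℝ} (hY : 1 ≤ Y) (hn : Fintype.card κ ≤ n) (v : κ → Sg → ℂ)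
    (hv : ∀ i α, ‖v i α‖ ≤ Y) (g : κ → Sg) (u : Sg → ℂ) (hξ : 0 ≤ ξ)
    (hu : ∀ i, ‖∑ β, v i β * u β‖ ≤ ξ) (α : Sg) :
    ‖Er v g u α‖ ≤ n * n.factorial * Y ^ n * ξ := by
  classical
  have hsq : ∀ i j, ‖sq v g i j‖ ≤ Y := fun i j => hv i (g j)
  have hY0 : (0:ℝ) ≤ Y := by linarith
  unfold Er
  split_ifs with h
  · refine (norm_sum_le _ _).trans ?_
    have : ∀ i ∈ Finset.univ, ‖(sq v g).adjugate h.choose i * ∑ β, v i β * u β‖ ≤
        n.factorial * Y ^ n * ξ := by
      intro i _
      rw [norm_mul]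
      have h1 := norm_adj_le hY hn (sq v g) hsq h.choose i
      have h0 : 0 ≤ (n.factorial : ℝ) * Y ^ n := by positivity
      exact mul_le_mul h1 (hu i) (norm_nonneg _) h0
    refine (Finset.sum_le_sum this).trans ?_
    rw [Finset.sum_const, nsmul_eq_mul, Finset.card_univ]
    have hc : (Fintype.card κ : ℝ) ≤ n := by exact_mod_cast hn
    calc (Fintype.card κ : ℝ) * (n.factorial * Y ^ n * ξ) ≤ n * (n.factorial * Y ^ n * ξ) := by
          gcongr
      _ = n * n.factorial * Y ^ n * ξ := by ring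
  · rw [norm_zero]; positivity

end

end Pool.Agent.Lib.MP_524521_nt.RA
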