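import Mathlib
import Pool.Agent.Lib.MP_524521_nt.RA.Eval
import Pool.Agent.Lib.MP_524521_nt.RA.Repr
import Pool.Agent.Lib.MP_524521_nt.RA.Low

section
/-!
# Determinant of a sum of matrices of small rank (interpolation determinant bound)
-/
namespace Pool.Agent.Lib.MP_524521_nt.RA

open Finset

/-- A determinant with row bounds. -/
theorem norm_det_le_rows {n : Type*} [Fintype n] [DecidableEq n] (M : Matrix n n ℂ) (x : n → ℝ)
    (hx : ∀ i j, ‖M i j‖ ≤ x i) :
    ‖M.det‖ ≤ (Fintype.card n).factorial * ∏ i, x i := by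
  rw [Matrix.det_apply]
  calc ‖∑ σ : Equiv.Perm n, Equiv.Perm.sign σ • ∏ i, M (σ i) i‖
      ≤ ∑ σ : Equiv.Perm n, ‖Equiv.Perm.sign σ • ∏ i, M (σ i) i‖ := norm_sum_le _ _
    _ ≤ ∑ _σ : Equiv.Perm n, ∏ i, x i := by
        refine Finset.sum_le_sum fun σ _ => ?_
        have h1 : ‖Equiv.Perm.sign σ • ∏ i, M (σ i) i‖ = ‖∏ i, M (σ i) i‖ := by
          rcases Int.units_eq_one_or (Equiv.Perm.sign σ) with h | h <;> simp [h]
        rw [h1, norm_prod]
        calc ∏ i, ‖M (σ i) i‖ ≤ ∏ i, x (σ i) :=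
              Finset.prod_le_prod (fun i _ => norm_nonneg _) (fun i _ => hx _ _)
          _ = ∏ i, x i := Equiv.prod_comp σ x
    _ = (Fintype.card n).factorial * ∏ i, x i := by
        rw [Finset.sum_const, Finset.card_univ, Fintype.card_perm, nsmul_eq_mul]

/-- A function on `N` elements, each value taken at most `h` times, has sum at least
`∑_{j<N} ⌊j/h⌋`. -/
theorem sum_div_le_sum {ι : Type*} [Fintype ι] [DecidableEq ι] {h : ℕ} (hh : 0 < h) (r : ι → ℕ)
    (hr : ∀ k, (univ.filter fun i => r i = k).card ≤ h) :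
    ∑ j ∈ range (Fintype.card ι), j / h ≤ ∑ i, r i := by
  classical
  set N := Fintype.card ι with hN
  set R := N + ∑ i, r i with hR
  have h1 : ∀ i, r i = ∑ t ∈ range R, if t < r i then 1 else 0 := by
    intro i
    have hi : r i ≤ R := by
      have : r i ≤ ∑ i, r i := Finset.single_le_sum (f := r) (fun _ _ => Nat.zero_le _) (mem_univ i)
      omega
    rw [← Finset.sum_filter, Finset.sum_const, smul_eq_mul, mul_one]
    have : (range R).filter (fun t => t < r i) = range (r i) := by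
      ext t; simp only [mem_filter, mem_range]; omega
    rw [this, card_range]
  have h2 : ∀ j ∈ range N, j / h = ∑ t ∈ range R, if t < j / h then 1 else 0 := by
    intro j hj
    have hj' := mem_range.mp hj
    have hi : j / h ≤ R := by
      have : j / h ≤ j := Nat.div_le_self _ _
      omega
    rw [← Finset.sum_filter, Finset.sum_const, smul_eq_mul, mul_one]
    have : (range R).filter (fun t => t < j / h) = range (j / h) := by
      ext t; simp only [mem_filter, mem_range]; omega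
    rw [this, card_range]
  rw [Finset.sum_congr rfl h2, Finset.sum_comm]
  have h3 : ∑ i, r i = ∑ t ∈ range R, ∑ i, if t < r i then 1 else 0 := by
    rw [Finset.sum_comm]
    exact Finset.sum_congr rfl fun i _ => h1 i
  rw [h3]
  refine Finset.sum_le_sum fun t _ => ?_
  rw [← Finset.sum_filter, ← Finset.sum_filter, Finset.sum_const, Finset.sum_const, smul_eq_mul,
    smul_eq_mul, mul_one, mul_one]
  -- #{j < N : t < j/h} = N - (t+1) h, and #{i : r i ≤ t} ≤ (t+1) h
  have h4 : ((range N).filter (fun j => t < j / h)).card = N - (t + 1) * h := by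
    have : (range N).filter (fun j => t < j / h) = Finset.Ico ((t + 1) * h) N := by
      ext j
      simp only [mem_filter, mem_range, mem_Ico]
      have : t < j / h ↔ (t + 1) * h ≤ j := by
        rw [Nat.lt_iff_add_one_le, Nat.le_div_iff_mul_le hh]
      rw [this]; tauto
    rw [this, Nat.card_Ico]
  have h5 : (univ.filter fun i => r i ≤ t).card ≤ (t + 1) * h := by
    have : (univ.filter fun i => r i ≤ t) ⊆
        (range (t + 1)).biUnion (fun k => univ.filter fun i => r i = k) := by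
      intro i hi
      simp only [mem_filter, mem_univ, true_and, mem_biUnion, mem_range] at hi ⊢
      exact ⟨r i, by omega, rfl⟩
    refine (card_le_card this).trans (card_biUnion_le.trans ?_)
    calc ∑ k ∈ range (t + 1), (univ.filter fun i => r i = k).card ≤ ∑ _k ∈ range (t + 1), h :=
          Finset.sum_le_sum fun k _ => hr k
      _ = (t + 1) * h := by simp
  have h6 : (univ.filter fun i => r i ≤ t).card + (univ.filter fun i => t < r i).card = N := by
    have := Finset.card_filter_add_card_filter_not (s := (univ : Finset ι)) (fun i => r i ≤ t)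
    simp only [not_le] at this
    rw [this, card_univ]
  rw [h4]
  omega

/-- **Determinant of a sum of matrices of small rank.**  If `X_0, …, X_{L-1}` have rank `≤ h` and the
entries of `X_k` are at most `W θ^k` for `k ≤ L`, then the determinant of the sum is at most
`N! ((L+1) W)^N θ^{min(L, ∑_{j<N} ⌊j/h⌋)}`. -/
theorem norm_det_sum_le {N h L : ℕ} (hh : 0 < h) {W θ : ℝ} (hW : 0 ≤ W) (h0 : 0 ≤ θ) (h1 : θ ≤ 1)
    (X : ℕ → Matrix (Fin N) (Fin N) ℂ) (hr : ∀ k < L, (X k).rank ≤ h)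
    (hX : ∀ k ≤ L, ∀ i j, ‖X k i j‖ ≤ W * θ ^ k) :
    ‖(∑ k ∈ range (L + 1), X k).det‖ ≤
      N.factorial * ((L + 1) * W) ^ N * θ ^ (min L (∑ j ∈ range N, j / h)) := by
  classical
  have hdet : (∑ k ∈ range (L + 1), X k).det
      = ∑ r ∈ Fintype.piFinset (fun _ : Fin N => range (L + 1)),
          (Matrix.of fun i => X (r i) i).det := by
    have := (Matrix.detRowAlternating (n := Fin N) (R := ℂ)).toMultilinearMap.map_sum_finset
      (fun i k => X k i) (fun _ : Fin N => range (L + 1))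
    have e1 : (∑ k ∈ range (L + 1), X k) = (fun i => ∑ k ∈ range (L + 1), X k i) := by
      ext i j
      simp [Matrix.sum_apply, Finset.sum_apply]
    rw [e1]
    exact this
  rw [hdet]
  refine (norm_sum_le _ _).trans ?_
  have hterm : ∀ r ∈ Fintype.piFinset (fun _ : Fin N => range (L + 1)),
      ‖(Matrix.of fun i => X (r i) i).det‖ ≤
        N.factorial * W ^ N * θ ^ (min L (∑ j ∈ range N, j / h)) := by
    intro r hrm
    have hrL : ∀ i, r i ≤ L := by
      intro i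
      have := Fintype.mem_piFinset.mp hrm i
      have := mem_range.mp this
      omega
    by_cases hz : (Matrix.of fun i => X (r i) i).det = 0
    · rw [hz, norm_zero]; positivity
    -- general bound
    have hb : ‖(Matrix.of fun i => X (r i) i).det‖ ≤ N.factorial * ∏ i, (W * θ ^ (r i)) := by
      have := norm_det_le_rows (Matrix.of fun i => X (r i) i) (fun i => W * θ ^ (r i))
        (fun i j => by simpa using hX (r i) (hrL i) i j)
      simpa using this
    have hprod : ∏ i, (W * θ ^ (r i)) = W ^ N * θ ^ (∑ i, r i) := by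
      rw [Finset.prod_mul_distrib, Finset.prod_const, card_univ, Fintype.card_fin,
        Finset.prod_pow_eq_pow_sum]
    rw [hprod] at hb
    have hsum : min L (∑ j ∈ range N, j / h) ≤ ∑ i, r i := by
      by_cases hL : ∃ i, r i = L
      · obtain ⟨i, hi⟩ := hL
        have : r i ≤ ∑ i, r i := Finset.single_le_sum (f := r) (fun _ _ => Nat.zero_le _) (mem_univ i)
        exact (min_le_left _ _).trans (by omega)
      · push Not at hL
        refine (min_le_right _ _).trans ?_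
        have key := sum_div_le_sum (ι := Fin N) hh r ?_
        · simpa using key
        intro k
        by_contra hcon
        push Not at hcon
        -- `k < L`
        have hne : (univ.filter fun i => r i = k).Nonempty := by
          rw [← Finset.card_pos]; omega
        obtain ⟨i0, hi0⟩ := hne
        have hk : k < L := by
          have h' : r i0 = k := (mem_filter.mp hi0).2
          have h'' := hL i0
          have h''' := hrL i0
          omega
        have hli : LinearIndependent ℂ (fun i => (Matrix.of fun i => X (r i) i).row i) :=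
          Matrix.linearIndependent_rows_of_det_ne_zero hz
        set S : Finset (Fin N) := univ.filter fun i => r i = k with hS
        have hli2 : LinearIndependent ℂ (fun i : S => (Matrix.of fun i => X (r i) i).row i) :=
          hli.comp (fun i : S => (i : Fin N)) Subtype.coe_injective
        have hmem : ∀ i : S, (Matrix.of fun i => X (r i) i).row i ∈
            Submodule.span ℂ (Set.range (X k).row) := by
          intro i
          have hi : r i = k := (mem_filter.mp i.2).2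
          refine Submodule.subset_span ⟨i, ?_⟩
          funext j
          simp [Matrix.row, hi]
        have hcard : S.card ≤ Module.finrank ℂ (Submodule.span ℂ (Set.range (X k).row)) := by
          have hli3 : LinearIndependent ℂ (fun i : S =>
              (⟨(Matrix.of fun i => X (r i) i).row i, hmem i⟩ :
                Submodule.span ℂ (Set.range (X k).row))) := by
            refine LinearIndependent.of_comp (Submodule.subtype _) ?_
            exact hli2
          have := hli3.fintype_card_le_finrank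
          simpa using this
        rw [← Matrix.rank_eq_finrank_span_row] at hcard
        have := hr k hk
        omega
    calc ‖(Matrix.of fun i => X (r i) i).det‖ ≤ N.factorial * (W ^ N * θ ^ (∑ i, r i)) := hb
      _ ≤ N.factorial * (W ^ N * θ ^ (min L (∑ j ∈ range N, j / h))) := by
          gcongr ?_ * (?_ * ?_)
          exact pow_le_pow_of_le_one h0 h1 hsum
      _ = _ := by ring
  calc ∑ r ∈ Fintype.piFinset (fun _ : Fin N => range (L + 1)),
        ‖(Matrix.of fun i => X (r i) i).det‖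
      ≤ ∑ _r ∈ Fintype.piFinset (fun _ : Fin N => range (L + 1)),
        (N.factorial * W ^ N * θ ^ (min L (∑ j ∈ range N, j / h))) := Finset.sum_le_sum hterm
    _ = N.factorial * ((L + 1) * W) ^ N * θ ^ (min L (∑ j ∈ range N, j / h)) := by
        rw [Finset.sum_const, Fintype.card_piFinset]
        simp only [card_range, prod_const, card_univ, Fintype.card_fin, nsmul_eq_mul]
        push_cast
        rw [mul_pow]
        ring



/-- (M3) of the specification file of helper58 -/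
theorem det_bound {N K h : ℕ} (hh : 1 ≤ h) (q W : ℝ) (hq : 0 < q) (hq1 : q ≤ 1) (hW : 0 ≤ W)
    (x : Fin N → ℕ → Fin N → ℂ) (y : Fin N → Fin N → ℂ)
    (V : ℕ → Submodule ℂ (Fin N → ℂ)) (hV : ∀ k, Module.finrank ℂ (V k) ≤ h)
    (hxV : ∀ j k, x j k ∈ V k) (hx : ∀ j k i, ‖x j k i‖ ≤ W * q ^ k)
    (hy : ∀ j i, ‖y j i‖ ≤ W * q ^ K) (hK : (N / 2) * (N / (2 * h)) ≤ K) :
    ‖(Matrix.of (fun i j => (∑ k ∈ Finset.range K, x j k i) + y j i)).det‖ ≤
      N.factorial * ((K + 1 : ℝ) * W) ^ N * q ^ ((N / 2) * (N / (2 * h))) := by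
  classical
  set X : ℕ → Matrix (Fin N) (Fin N) ℂ := fun k =>
    Matrix.of fun j i => if k < K then x j k i else y j i with hXdef
  have hsum : (∑ k ∈ range (K + 1), X k) =
      (Matrix.of (fun i j => (∑ k ∈ Finset.range K, x j k i) + y j i)).transpose := by
    ext j i
    rw [Finset.sum_range_succ, Matrix.add_apply, Matrix.sum_apply]
    simp only [hXdef, Matrix.of_apply, Matrix.transpose_apply, lt_irrefl, if_false]
    congr 1
    refine Finset.sum_congr rfl fun k hk => ?_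
    rw [if_pos (mem_range.mp hk)]
  have hr : ∀ k < K, (X k).rank ≤ h := by
    intro k hk
    rw [Matrix.rank_eq_finrank_span_row]
    refine le_trans (Submodule.finrank_mono ?_) (hV k)
    rw [Submodule.span_le]
    rintro _ ⟨j, rfl⟩
    have : (X k).row j = x j k := by
      funext i
      simp [hXdef, Matrix.row, hk]
    rw [this]
    exact hxV j k
  have hXb : ∀ k ≤ K, ∀ i j, ‖X k i j‖ ≤ W * q ^ k := by
    intro k hk i j
    simp only [hXdef, Matrix.of_apply]
    split_ifs with hlt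
    · exact hx i k j
    · have : k = K := by omega
      subst this
      exact hy i j
  have hmain := norm_det_sum_le (N := N) (h := h) (L := K) hh hW hq.le hq1 X hr hXb
  rw [hsum, Matrix.det_transpose] at hmain
  refine hmain.trans ?_
  have hexp : (N / 2) * (N / (2 * h)) ≤ min K (∑ j ∈ range N, j / h) := by
    refine le_min hK ?_
    have h1 : ∑ j ∈ Finset.Ico (N - N / 2) N, j / h ≤ ∑ j ∈ range N, j / h := by
      refine Finset.sum_le_sum_of_subset_of_nonneg ?_ (fun _ _ _ => Nat.zero_le _)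
      intro j hj
      rw [mem_Ico] at hj
      exact mem_range.mpr hj.2
    refine le_trans ?_ h1
    have h2 : ∀ j ∈ Finset.Ico (N - N / 2) N, N / (2 * h) ≤ j / h := by
      intro j hj
      rw [mem_Ico] at hj
      rw [← Nat.div_div_eq_div_mul]
      exact Nat.div_le_div_right (by omega)
    calc (N / 2) * (N / (2 * h)) = ∑ _j ∈ Finset.Ico (N - N / 2) N, N / (2 * h) := by
          rw [Finset.sum_const, Nat.card_Ico, smul_eq_mul]
          congr 1
          omega
      _ ≤ _ := Finset.sum_le_sum h2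
  gcongr ?_ * ?_
  exact pow_le_pow_of_le_one hq.le hq1 hexp

end Pool.Agent.Lib.MP_524521_nt.RA
end

section
/-!
# Interpolation determinant of analytic vectors in a space of small dimension
-/
namespace Pool.Agent.Lib.MP_524521_nt.RA

open Finset

/-- Taylor coefficient bound and remainder for a bounded analytic function. -/
theorem taylor_bound {f : ℂ → ℂ} {s₀ : ℂ} {r ρ R' W : ℝ} (hr : 0 < r) (hρ : 2 * r ≤ ρ) (hR : ρ < R')
    (hf : DifferentiableOn ℂ f (Metric.ball s₀ R'))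
    (hb : ∀ z ∈ Metric.closedBall s₀ ρ, ‖f z‖ ≤ W) (K : ℕ) {z : ℂ} (hz : ‖z - s₀‖ ≤ r) :
    (∀ n : ℕ, ‖((n.factorial : ℂ)⁻¹ * iteratedDeriv n f s₀)‖ ≤ W / ρ ^ n) ∧
    ‖f z - ∑ n ∈ range K, (z - s₀) ^ n * ((n.factorial : ℂ)⁻¹ * iteratedDeriv n f s₀)‖ ≤
      2 * W * (r / ρ) ^ K := by
  have hρ0 : 0 < ρ := by linarith
  have hcoef : ∀ n : ℕ, ‖((n.factorial : ℂ)⁻¹ * iteratedDeriv n f s₀)‖ ≤ W / ρ ^ n := by
    intro n
    have hd : DiffContOnCl ℂ f (Metric.ball s₀ ρ) := by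
      refine DifferentiableOn.diffContOnCl ?_
      rw [closure_ball _ hρ0.ne']
      refine hf.mono ?_
      exact Metric.closedBall_subset_ball hR
    have h1 := Complex.norm_iteratedDeriv_le_of_forall_mem_sphere_norm_le n hρ0 hd
      (fun z hz => hb z (Metric.sphere_subset_closedBall hz))
    rw [norm_mul, norm_inv, Complex.norm_natCast]
    have hn : (0 : ℝ) < n.factorial := by exact_mod_cast Nat.factorial_pos n
    calc (n.factorial : ℝ)⁻¹ * ‖iteratedDeriv n f s₀‖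
        ≤ (n.factorial : ℝ)⁻¹ * (n.factorial * W / ρ ^ n) := by gcongr
      _ = W / ρ ^ n := by field_simp
  refine ⟨hcoef, ?_⟩
  have hW : 0 ≤ W := le_trans (norm_nonneg _) (hb s₀ (Metric.mem_closedBall_self hρ0.le))
  have hzb : z ∈ Metric.ball s₀ R' := by
    rw [Metric.mem_ball, dist_eq_norm]; linarith
  have hsum' : HasSum (fun n : ℕ => (z - s₀) ^ n * ((n.factorial : ℂ)⁻¹ * iteratedDeriv n f s₀))
      (f z) := by
    have hsum := Complex.hasSum_taylorSeries_on_ball hf hzb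
    have e : (fun n : ℕ => (z - s₀) ^ n * ((n.factorial : ℂ)⁻¹ * iteratedDeriv n f s₀)) =
        fun n : ℕ => (n.factorial : ℂ)⁻¹ • (z - s₀) ^ n • iteratedDeriv n f s₀ := by
      funext n
      rw [smul_eq_mul, smul_eq_mul]
      ring
    rw [e]
    exact hsum
  have hq0 : 0 ≤ r / ρ := by positivity
  have hq1 : r / ρ ≤ 1 / 2 := by
    rw [div_le_div_iff₀ hρ0 (by norm_num)]; linarith
  have hterm : ∀ n : ℕ, ‖(z - s₀) ^ n * ((n.factorial : ℂ)⁻¹ * iteratedDeriv n f s₀)‖ ≤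
      W * (r / ρ) ^ n := by
    intro n
    rw [norm_mul, norm_pow]
    calc ‖z - s₀‖ ^ n * ‖((n.factorial : ℂ)⁻¹ * iteratedDeriv n f s₀)‖
        ≤ r ^ n * (W / ρ ^ n) := by
          gcongr
          exact hcoef n
      _ = W * (r / ρ) ^ n := by rw [div_pow]; field_simp
  have htail := hsum'.summable.sum_add_tsum_nat_add K
  rw [hsum'.tsum_eq] at htail
  have e1 : f z - ∑ n ∈ range K, (z - s₀) ^ n * ((n.factorial : ℂ)⁻¹ * iteratedDeriv n f s₀) =
      ∑' n : ℕ, (z - s₀) ^ (n + K) * (((n + K).factorial : ℂ)⁻¹ * iteratedDeriv (n + K) f s₀) := by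
    rw [← htail]; ring
  rw [e1]
  have hgeo : HasSum (fun n : ℕ => W * (r / ρ) ^ K * (r / ρ) ^ n)
      (W * (r / ρ) ^ K * (1 - r / ρ)⁻¹) :=
    (hasSum_geometric_of_lt_one hq0 (by linarith)).mul_left _
  refine (tsum_of_norm_bounded hgeo ?_).trans ?_
  · intro n
    refine (hterm (n + K)).trans (le_of_eq ?_)
    rw [pow_add]; ring
  · have h2 : (1 - r / ρ)⁻¹ ≤ 2 := by
      rw [inv_le_comm₀ (by linarith) (by norm_num)]
      linarith
    calc W * (r / ρ) ^ K * (1 - r / ρ)⁻¹ ≤ W * (r / ρ) ^ K * 2 := by gcongr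
      _ = 2 * W * (r / ρ) ^ K := by ring

/-- **Interpolation determinant.**  Row `j` is a combination `∑_l u_{jl} w_l(s_j)` of `h` analytic
vectors, up to a small error; the points are within `r` of `s₀`. -/
theorem interp_det {N K h : ℕ} (hh : 1 ≤ h) (s₀ : ℂ) {r ρ R' W₀ : ℝ} (hr : 0 < r) (hρ : 2 * r ≤ ρ)
    (hR : ρ < R') (hW₀ : 0 ≤ W₀) (w : Fin h → Fin N → ℂ → ℂ)
    (hw : ∀ l i, DifferentiableOn ℂ (w l i) (Metric.ball s₀ R'))
    (hwb : ∀ l i, ∀ z ∈ Metric.closedBall s₀ ρ, ‖w l i z‖ ≤ W₀)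
    (u : Fin N → Fin h → ℂ) (hu : ∀ j l, ‖u j l‖ ≤ 1) (s : Fin N → ℂ) (hs : ∀ j, ‖s j - s₀‖ ≤ r)
    (err : Fin N → Fin N → ℂ) (herr : ∀ j i, ‖err j i‖ ≤ W₀ * (r / ρ) ^ K)
    (hK : (N / 2) * (N / (2 * h)) ≤ K) :
    ‖(Matrix.of (fun i j => (∑ l, u j l * w l i (s j)) + err j i)).det‖ ≤
      N.factorial * ((K + 1 : ℝ) * ((2 * h + 1) * W₀)) ^ N *
        (r / ρ) ^ ((N / 2) * (N / (2 * h))) := by
  classical
  have hρ0 : 0 < ρ := by linarith
  have hq0 : 0 < r / ρ := by positivity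
  have hq1 : r / ρ ≤ 1 := by
    rw [div_le_one hρ0]; linarith
  set t : ℕ → Fin h → Fin N → ℂ := fun k l i =>
    ((k.factorial : ℂ)⁻¹ * iteratedDeriv k (w l i) s₀) with ht
  set x : Fin N → ℕ → Fin N → ℂ := fun j k i => ∑ l, (u j l * (s j - s₀) ^ k) * t k l i with hx
  set y : Fin N → Fin N → ℂ := fun j i =>
    (∑ l, u j l * (w l i (s j) - ∑ k ∈ range K, (s j - s₀) ^ k * t k l i)) + err j i with hy
  have hmat : (Matrix.of (fun i j => (∑ l, u j l * w l i (s j)) + err j i)) =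
      (Matrix.of (fun i j => (∑ k ∈ Finset.range K, x j k i) + y j i)) := by
    ext i j
    simp only [Matrix.of_apply, hx, hy]
    rw [Finset.sum_comm, ← add_assoc, ← Finset.sum_add_distrib]
    congr 1
    refine Finset.sum_congr rfl fun l _ => ?_
    rw [mul_sub, Finset.mul_sum]
    have : ∑ k ∈ range K, u j l * (s j - s₀) ^ k * t k l i =
        ∑ k ∈ range K, u j l * ((s j - s₀) ^ k * t k l i) :=
      Finset.sum_congr rfl fun k _ => by ring
    rw [this]
    ring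
  rw [hmat]
  have hh0 : (0 : ℝ) ≤ h := Nat.cast_nonneg h
  refine det_bound hh (r / ρ) ((2 * h + 1) * W₀) hq0 hq1 (by positivity) x y
    (fun k => Submodule.span ℂ (Set.range (t k))) ?_ ?_ ?_ ?_ hK
  · intro k
    have := finrank_range_le_card (R := ℂ) (b := t k)
    rw [Fintype.card_fin] at this
    exact this
  · intro j k
    have : x j k = ∑ l, (u j l * (s j - s₀) ^ k) • t k l := by
      funext i
      simp [hx, Finset.sum_apply]
    rw [this]
    exact Submodule.sum_mem _ fun l _ => Submodule.smul_mem _ _ (Submodule.subset_span ⟨l, rfl⟩)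
  · intro j k i
    simp only [hx]
    refine (norm_sum_le _ _).trans ?_
    have : ∀ l ∈ (univ : Finset (Fin h)), ‖u j l * (s j - s₀) ^ k * t k l i‖ ≤
        W₀ * (r / ρ) ^ k := by
      intro l _
      rw [norm_mul, norm_mul, norm_pow]
      have h1 := (taylor_bound hr hρ hR (hw l i) (hwb l i) K (hs j)).1 k
      calc ‖u j l‖ * ‖s j - s₀‖ ^ k * ‖t k l i‖ ≤ 1 * r ^ k * (W₀ / ρ ^ k) := by
            gcongr
            · exact hu j l
            · exact hs j
        _ = W₀ * (r / ρ) ^ k := by rw [div_pow]; field_simp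
    refine (Finset.sum_le_sum this).trans ?_
    rw [Finset.sum_const, Finset.card_univ, Fintype.card_fin, nsmul_eq_mul]
    have hp : 0 ≤ W₀ * (r / ρ) ^ k := by positivity
    nlinarith [mul_nonneg hh0 hp]
  · intro j i
    simp only [hy]
    refine (norm_add_le _ _).trans ?_
    have : ∀ l ∈ (univ : Finset (Fin h)),
        ‖u j l * (w l i (s j) - ∑ k ∈ range K, (s j - s₀) ^ k * t k l i)‖ ≤
        2 * W₀ * (r / ρ) ^ K := by
      intro l _
      rw [norm_mul]
      have h1 := (taylor_bound hr hρ hR (hw l i) (hwb l i) K (hs j)).2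
      calc ‖u j l‖ * ‖w l i (s j) - ∑ k ∈ range K, (s j - s₀) ^ k * t k l i‖
          ≤ 1 * (2 * W₀ * (r / ρ) ^ K) := by
            gcongr
            exact hu j l
        _ = _ := one_mul _
    have h3 := (norm_sum_le _ _).trans (Finset.sum_le_sum this)
    rw [Finset.sum_const, Finset.card_univ, Fintype.card_fin, nsmul_eq_mul] at h3
    have h4 := herr j i
    calc _ ≤ h * (2 * W₀ * (r / ρ) ^ K) + W₀ * (r / ρ) ^ K := add_le_add h3 h4
      _ = (2 * h + 1) * W₀ * (r / ρ) ^ K := by ring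

end Pool.Agent.Lib.MP_524521_nt.RA
end

section
/-! The interpolation determinant at one level. -/
open Polynomial

namespace Pool.Agent.Lib.MP_524521_nt.RA

/-- bound for the entries of the rows -/
noncomputable def Ent (A D : ℕ) (Y Z₀ R : ℝ) : ℝ := (A + 1) * Y * Z₀ ^ D * R ^ A

theorem one_le_Ent (A D : ℕ) {Y Z₀ R : ℝ} (hY : 1 ≤ Y) (hZ : 1 ≤ Z₀) (hR : 1 ≤ R) :
    1 ≤ Ent A D Y Z₀ R := by
  unfold Ent
  have h1 : (1:ℝ) ≤ A + 1 := by linarith [(Nat.cast_nonneg A : (0:ℝ) ≤ A)]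
  have h2 : (1:ℝ) ≤ (A + 1) * Y := one_le_mul_of_one_le_of_one_le h1 hY
  have h3 : (1:ℝ) ≤ (A + 1) * Y * Z₀ ^ D := one_le_mul_of_one_le_of_one_le h2 (one_le_pow₀ hZ)
  exact one_le_mul_of_one_le_of_one_le h3 (one_le_pow₀ hR)

open Classical in
theorem core_ineq {m : ℕ} (g : Fin m → ℂ → ℂ) {s₀ : ℂ} {r ρ R' Z₀ R : ℝ} (hr : 0 < r)
    (hρ : 2 * r ≤ ρ) (hR' : ρ < R')
    (hg : ∀ j, DifferentiableOn ℂ (g j) (Metric.ball s₀ R')) (hZ : 1 ≤ Z₀)
    (hgb : ∀ z ∈ Metric.closedBall s₀ ρ, ∀ j, ‖g j z‖ ≤ Z₀)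
    (hR : 1 ≤ R) (hzR : ∀ z ∈ Metric.closedBall s₀ ρ, ‖z‖ ≤ R)
    {κ Sg : Type} [Fintype κ] [DecidableEq κ] [Fintype Sg] [DecidableEq Sg]
    (v : κ → Sg → Polynomial (G m)) (gs : κ → Sg) (hgs : Function.Injective gs)
    {n A D : ℕ} {Y : ℝ} (hn : Fintype.card κ ≤ n) (hv1 : ∀ i α, (v i α).natDegree ≤ A)
    (hv2 : ∀ i α k, ((v i α).coeff k).totalDegree ≤ D)
    (hv3 : ∀ i α k, (N1 ((v i α).coeff k) : ℝ) ≤ Y) (hY : 1 ≤ Y)
    {N A' T Hc : ℕ} (t : Fin N → ℚ) (ht : ∀ j, ‖((t j : ℚ) : ℂ) - s₀‖ ≤ r)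
    (htd : ∀ j, (t j).den ≤ T)
    (C : Fin N → Sg → ℤ) (cm : Fin N → ℕ) (hcm : ∀ j, 1 ≤ cm j) (hcmH : ∀ j, cm j ≤ Hc)
    (hC : ∀ j α, (C j α).natAbs ≤ cm j)
    {ξ : ℝ} (hξ0 : 0 ≤ ξ)
    (hξ : ∀ j i, ‖∑ β, evg g (t j) (v i β) * ((C j β : ℂ) / cm j)‖ ≤ ξ)
    {δ : ℝ} (hδ0 : 0 < δ) (hδ : ∀ j, δ ≤ ‖evg g (t j) (sq v gs).det‖)
    (a : Fin N → ℕ) (ha : ∀ i, a i < A') (θ : Fin N → Sg)
    (hdet : (Matrix.of fun i j => (t j) ^ (a i) * (C j (θ i) : ℚ)).det ≠ 0)
    {h : ℕ} (hh : 1 ≤ h) (hhc : (Finset.univ.filter (fun l => l ∉ Set.range gs)).card = h)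
    {K : ℕ} (hK : (N / 2) * (N / (2 * h)) ≤ K) (hξK : ξ ≤ (r / ρ) ^ K) :
    (δ / (Hc * T ^ A')) ^ N ≤ N.factorial * ((K + 1 : ℝ) * ((2 * h + 1) *
      (R ^ A' * ((n + 1) * n.factorial * Ent A D Y Z₀ R ^ (n + 1))))) ^ N *
        (r / ρ) ^ ((N / 2) * (N / (2 * h))) := by
  have hE1 := one_le_Ent A D hY hZ hR
  set E := Ent A D Y Z₀ R with hE
  set W₀ := R ^ A' * ((n + 1) * n.factorial * E ^ (n + 1)) with hW₀
  have hρ0 : 0 < ρ := by linarith
  have hE0 : 0 < E := by linarith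
  have hR0 : 0 < R := by linarith
  have hW₀0 : 0 ≤ W₀ := by positivity
  -- evaluated rows
  have hent : ∀ z ∈ Metric.closedBall s₀ ρ, ∀ i α, ‖evg g z (v i α)‖ ≤ E := by
    intro z hz i α
    exact norm_evg_le g z Z₀ R Y hZ hR (hgb z hz) (hzR z hz) (v i α) A D (hv1 i α) (hv2 i α)
      (hv3 i α)
  have htb : ∀ j, ((t j : ℚ) : ℂ) ∈ Metric.closedBall s₀ ρ := by
    intro j
    rw [Metric.mem_closedBall, dist_eq_norm]
    exact (ht j).trans (by linarith)
  have hpow : ∀ z ∈ Metric.closedBall s₀ ρ, ∀ i, ‖z ^ a i‖ ≤ R ^ A' := by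
    intro z hz i
    rw [norm_pow]
    calc ‖z‖ ^ a i ≤ R ^ a i := by gcongr; exact hzR z hz
      _ ≤ R ^ A' := pow_le_pow_right₀ hR (ha i).le
  have hsqdet : ∀ z, evg g z (sq v gs).det = (sq (fun i j => evg g z (v i j)) gs).det := by
    intro z
    rw [RingHom.map_det]; rfl
  -- lower bound
  set Mq : Matrix (Fin N) (Fin N) ℚ := Matrix.of fun i j => (t j) ^ (a i) * (C j (θ i) : ℚ) with hMq
  set X : Matrix (Fin N) (Fin N) ℂ := Matrix.of fun i j =>
    evg g (t j) (sq v gs).det * (((t j : ℚ) : ℂ) ^ (a i) * ((C j (θ i) : ℂ) / cm j)) with hX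
  have hXdet : X.det = ((Mq.det : ℚ) : ℂ) * ∏ j, (evg g (t j) (sq v gs).det / cm j) := by
    have h1 : X = (Mq.map (fun q : ℚ => (q : ℂ))) *
        Matrix.diagonal (fun j => evg g (t j) (sq v gs).det / cm j) := by
      ext i j
      rw [Matrix.mul_diagonal]
      simp only [hX, hMq, Matrix.of_apply, Matrix.map_apply]
      push_cast
      ring
    rw [h1, Matrix.det_mul, Matrix.det_diagonal]
    congr 1
    have h2 : (Mq.map (fun q : ℚ => (q : ℂ))) = (Rat.castHom ℂ).mapMatrix Mq := by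
      ext i j; rfl
    rw [h2, ← RingHom.map_det]; rfl
  have hTpos : ∀ j, 1 ≤ (t j).den := fun j => (t j).den_pos
  have hlowM := det_int_lower Mq (fun j => (t j).den ^ A') (by
    intro i j
    refine ⟨(t j).num ^ (a i) * (t j).den ^ (A' - a i) * C j (θ i), ?_⟩
    have hd : ((t j).den : ℚ) ≠ 0 := by exact_mod_cast (t j).den_ne_zero
    have hq : (t j) * (t j).den = (t j).num := Rat.mul_den_eq_num (t j)
    have he : ((t j).den : ℚ) ^ A' = (t j).den ^ (a i) * (t j).den ^ (A' - a i) := by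
      rw [← pow_add]; congr 1; have := ha i; omega
    simp only [hMq, Matrix.of_apply]
    push_cast
    rw [he, ← hq, mul_pow]
    ring) (fun j => Nat.one_le_pow _ _ (hTpos j)) hdet
  have hTpos' : N = 0 ∨ 1 ≤ T := by
    rcases Nat.eq_zero_or_pos N with h | h
    · left; exact h
    · right; exact (hTpos ⟨0, h⟩).trans (htd ⟨0, h⟩)
  have hHpos' : N = 0 ∨ 1 ≤ Hc := by
    rcases Nat.eq_zero_or_pos N with h | h
    · left; exact h
    · right; exact (hcm ⟨0, h⟩).trans (hcmH ⟨0, h⟩)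
  have hlow : (δ / (Hc * T ^ A')) ^ N ≤ ‖X.det‖ := by
    rcases Nat.eq_zero_or_pos N with h0 | h0
    · subst h0
      simp [Matrix.det_fin_zero]
    · have hT1 : (1:ℝ) ≤ T := by
        rcases hTpos' with h | h
        · omega
        · exact_mod_cast h
      have hH1 : (1:ℝ) ≤ Hc := by
        rcases hHpos' with h | h
        · omega
        · exact_mod_cast h
      rw [hXdet, norm_mul]
      have e1 : ‖((Mq.det : ℚ) : ℂ)‖ = |((Mq.det : ℚ) : ℝ)| := by
        rw [← Complex.ofReal_ratCast, Complex.norm_real, Real.norm_eq_abs]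
      rw [e1, norm_prod]
      have e2 : (T:ℝ) ^ (A' * N) * |((Mq.det : ℚ) : ℝ)| ≥ 1 := by
        have h3 : ∏ j, (((t j).den ^ A' : ℕ) : ℝ) ≤ (T:ℝ) ^ (A' * N) := by
          calc ∏ j, (((t j).den ^ A' : ℕ) : ℝ) ≤ ∏ _j : Fin N, (T:ℝ) ^ A' := by
                apply Finset.prod_le_prod
                · intro j _; positivity
                · intro j _
                  push_cast
                  gcongr
                  exact_mod_cast htd j
            _ = (T:ℝ) ^ (A' * N) := by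
                rw [Finset.prod_const, Finset.card_univ, Fintype.card_fin, ← pow_mul]
        calc (1:ℝ) ≤ |((Mq.det : ℚ) : ℝ)| * ∏ j, (((t j).den ^ A' : ℕ) : ℝ) := hlowM
          _ ≤ |((Mq.det : ℚ) : ℝ)| * (T:ℝ) ^ (A' * N) := by gcongr
          _ = (T:ℝ) ^ (A' * N) * |((Mq.det : ℚ) : ℝ)| := by ring
      have e3 : (δ / Hc) ^ N ≤ ∏ j, ‖evg g (t j) (sq v gs).det / cm j‖ := by
        calc (δ / Hc) ^ N = ∏ _j : Fin N, (δ / Hc) := by
              rw [Finset.prod_const, Finset.card_univ, Fintype.card_fin]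
          _ ≤ ∏ j, ‖evg g (t j) (sq v gs).det / cm j‖ := by
              apply Finset.prod_le_prod
              · intro j _; positivity
              · intro j _
                rw [norm_div, Complex.norm_natCast]
                have hc0 : (0:ℝ) < cm j := by exact_mod_cast hcm j
                have hc1 : (cm j : ℝ) ≤ Hc := by exact_mod_cast hcmH j
                exact div_le_div₀ (norm_nonneg _) (hδ j) hc0 hc1
      have hTp : (0:ℝ) < (T:ℝ) ^ (A' * N) := by positivity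
      calc (δ / (Hc * T ^ A')) ^ N = (δ / Hc) ^ N * ((T:ℝ) ^ (A' * N))⁻¹ := by
            rw [pow_mul, ← div_div, div_pow (δ / Hc), div_eq_mul_inv]
        _ ≤ (∏ j, ‖evg g (t j) (sq v gs).det / cm j‖) * |((Mq.det : ℚ) : ℝ)| := by
            apply mul_le_mul e3 _ (by positivity) (by positivity)
            rw [inv_le_iff_one_le_mul₀ hTp]
            linarith [mul_comm (T ^ (A' * N) : ℝ) |((Mq.det : ℚ) : ℝ)|]
        _ = |((Mq.det : ℚ) : ℝ)| * ∏ j, ‖evg g (t j) (sq v gs).det / cm j‖ := by ring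
  refine hlow.trans ?_
  -- upper bound
  set L := Finset.univ.filter (fun l : Sg => l ∉ Set.range gs) with hL
  have e : Fin h ≃ L := (Fintype.equivFinOfCardEq (by rw [Fintype.card_coe]; exact hhc)).symm
  let u : Fin N → Fin h → ℂ := fun j l => (C j (e l) : ℂ) / cm j
  let w : Fin h → Fin N → ℂ → ℂ := fun l i z => z ^ a i * evg g z (BB v gs (θ i) (e l))
  let err : Fin N → Fin N → ℂ := fun j i => ((t j : ℚ) : ℂ) ^ a i *
    Er (fun i β => evg g (t j) (v i β)) gs (fun β => (C j β : ℂ) / cm j) (θ i)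
  have hXeq : X = Matrix.of (fun i j => (∑ l, u j l * w l i (t j)) + err j i) := by
    ext i j
    simp only [hX, Matrix.of_apply, u, w, err]
    have h1 := repr_eq (fun i β => evg g (t j) (v i β)) gs hgs (fun β => (C j β : ℂ) / cm j) (θ i)
    rw [← hsqdet] at h1
    have h2 : evg g (t j) (sq v gs).det * (((t j : ℚ) : ℂ) ^ (a i) * ((C j (θ i) : ℂ) / cm j)) =
        ((t j : ℚ) : ℂ) ^ (a i) * (evg g (t j) (sq v gs).det * ((C j (θ i) : ℂ) / cm j)) := by ring
    rw [h2, h1, mul_add]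
    congr 1
    rw [← Finset.sum_coe_sort, Finset.mul_sum]
    rw [← Equiv.sum_comp e]
    refine Finset.sum_congr rfl fun l _ => ?_
    rw [← map_BB]
    ring
  rw [hXeq]
  have hBBb : ∀ z ∈ Metric.closedBall s₀ ρ, ∀ α l, ‖evg g z (BB v gs α l)‖ ≤
      (n + 1) * n.factorial * E ^ (n + 1) := by
    intro z hz α l
    rw [map_BB]
    exact norm_BB_le hE1 hn _ (hent z hz) gs α l
  refine interp_det hh s₀ hr hρ hR' hW₀0 w ?_ ?_ u ?_ (fun j => ((t j : ℚ) : ℂ)) ht err ?_ hK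
  · intro l i
    apply DifferentiableOn.mul
    · exact (differentiable_id.pow _).differentiableOn
    · exact differentiableOn_evg g _ hg _
  · intro l i z hz
    simp only [w]
    rw [norm_mul, hW₀]
    exact mul_le_mul (hpow z hz i) (hBBb z hz _ _) (norm_nonneg _) (by positivity)
  · intro j l
    simp only [u]
    rw [norm_div, Complex.norm_natCast, Complex.norm_intCast]
    have hc0 : (0:ℝ) < cm j := by exact_mod_cast hcm j
    rw [div_le_one hc0]
    have := hC j (e l)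
    have h2 : ((C j (e l)).natAbs : ℝ) ≤ cm j := by exact_mod_cast this
    rwa [Nat.cast_natAbs, Int.cast_abs] at h2
  · intro j i
    simp only [err]
    rw [norm_mul]
    have h1 := norm_Er_le hE1 hn (fun i β => evg g (t j) (v i β)) (hent _ (htb j)) gs
      (fun β => (C j β : ℂ) / cm j) hξ0 (hξ j) (θ i)
    have h2 : (n : ℝ) * n.factorial * E ^ n * ξ ≤ (n + 1) * n.factorial * E ^ (n + 1) * ξ := by
      have hn0 : (0:ℝ) ≤ n := Nat.cast_nonneg n
      have h3 : (n : ℝ) * n.factorial ≤ (n + 1) * n.factorial := by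
        have : (0:ℝ) ≤ n.factorial := Nat.cast_nonneg _
        nlinarith
      have h4 : E ^ n ≤ E ^ (n + 1) := pow_le_pow_right₀ hE1 (by omega)
      gcongr
    calc ‖((t j : ℚ) : ℂ) ^ a i‖ * ‖Er (fun i β => evg g (t j) (v i β)) gs
          (fun β => (C j β : ℂ) / cm j) (θ i)‖
        ≤ R ^ A' * ((n + 1) * n.factorial * E ^ (n + 1) * ξ) :=
          mul_le_mul (hpow _ (htb j) i) (h1.trans h2) (norm_nonneg _) (by positivity)
      _ = W₀ * ξ := by rw [hW₀]; ring
      _ ≤ W₀ * (r / ρ) ^ K := by gcongr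

end Pool.Agent.Lib.MP_524521_nt.RA
end

section
/-! Bounds for the quantities at one level. -/
open Polynomial

namespace Pool.Agent.Lib.MP_524521_nt.RA

theorem exp_growth (η : ℝ) (hη : 0 < η) (p : ℕ) : ∃ B₀ : ℕ, ((B₀ : ℝ) + 1) ^ p < (1 + η) ^ B₀ := by
  have h1 : (1 : ℝ) < 1 + η := by linarith
  have h2 := tendsto_pow_const_div_const_pow_of_one_lt p h1
  have h3 : (0 : ℝ) < 1 / (1 + η) := by positivity
  have h4 := (h2.eventually (gt_mem_nhds h3)).and (Filter.eventually_ge_atTop 1)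
  obtain ⟨n, hn, hn1⟩ := h4.exists
  refine ⟨n - 1, ?_⟩
  obtain ⟨k, rfl⟩ : ∃ k, n = k + 1 := ⟨n - 1, by omega⟩
  simp only [Nat.add_sub_cancel]
  rw [div_lt_div_iff₀ (by positivity) (by positivity), one_mul, pow_succ (1 + η) k] at hn
  push_cast at hn
  exact lt_of_mul_lt_mul_right hn (by positivity)

/-- RA/Cost.lean: every quantity at a level is at most `(e A Lg)^e` (`Ent` is in RA/Core.lean) -/
theorem level_costs (n D Cz B₀ cΓ : ℕ) (cx Z₀ R : ℝ) (hn : 1 ≤ n) (hCz : 1 ≤ Cz) (hcx : 1 ≤ cx)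
    (hZ : 1 ≤ Z₀) (hR : 1 ≤ R) : ∃ (e : ℕ) (cy ch : ℝ), 1 ≤ e ∧ 0 ≤ cy ∧ 0 ≤ ch ∧
    ∀ (A T : ℕ) (Lg : ℝ), 1 ≤ A → 1 ≤ T → 1 ≤ Lg → Real.log T ≤ Lg →
    ∀ Y hz : ℝ, Y = Real.exp (cy * (A * Lg) ^ 2) → hz = ch * (A * Lg) ^ 2 →
      1 ≤ Y ∧ Real.exp (cx * (A * Lg) ^ 2) ≤ Y ∧ (cΓ : ℝ) ≤ Y ∧ 1 ≤ hz ∧
      n.factorial * ((A + 1) * Y) ^ n ≤ Real.exp hz ∧
      (n + 2 : ℝ) + Cz * (n * A + hz) ^ Cz * Real.log (2 / (1 / (T : ℝ) ^ 2)) +
        Cz * (n * A + hz) ^ Cz + B₀ * Lg +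
        Real.log ((2 * n + 1) * ((n + 1) * n.factorial * Ent A D Y Z₀ R ^ (n + 1))) ≤
          ((e : ℝ) * A * Lg) ^ e := by
  set cy : ℝ := cx + cΓ with hcy
  have hcΓ0 : (0 : ℝ) ≤ cΓ := Nat.cast_nonneg _
  have hcy0 : 1 ≤ cy := by rw [hcy]; linarith
  set ch : ℝ := (n : ℝ) ^ 2 + n + n * cy + 1 with hch
  have hn0 : (0 : ℝ) ≤ n := Nat.cast_nonneg _
  have hncy : 0 ≤ (n : ℝ) * cy := by positivity
  have hch1 : 1 ≤ ch := by
    have := sq_nonneg (n : ℝ)
    rw [hch]
    linarith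
  -- the constants of the terms
  set K3 : ℝ := Cz * (n + ch) ^ Cz with hK3
  set K5 : ℝ := (2 * n + 1) + (n + 1) + (n : ℝ) ^ 2 + (n + 1) * (1 + cy + D * Z₀ + R) with hK5
  have hK30 : 0 ≤ K3 := by positivity
  have hK50 : 0 ≤ K5 := by positivity
  have hB00 : (0 : ℝ) ≤ B₀ := Nat.cast_nonneg _
  set K : ℝ := (n + 2) + 3 * K3 + K3 + B₀ + K5 with hK
  have hK0 : 0 ≤ K := by positivity
  clear_value cy ch K3 K5 K
  refine ⟨⌈K⌉₊ + 2 * Cz + 2, cy, ch, by omega, by linarith, by linarith, ?_⟩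
  intro A T Lg hA hT hLg hlT Y hz hY hhz
  have hAR : (1 : ℝ) ≤ A := by exact_mod_cast hA
  have hTR : (1 : ℝ) ≤ T := by exact_mod_cast hT
  set X : ℝ := A * Lg with hX
  have hX1 : 1 ≤ X := one_le_mul_of_one_le_of_one_le hAR hLg
  have hAX : (A : ℝ) ≤ X := by rw [hX]; nlinarith
  have hLX : Lg ≤ X := by rw [hX]; nlinarith
  have hX2 : X ≤ X ^ 2 := by nlinarith
  have hX21 : 1 ≤ X ^ 2 := by nlinarith
  have hY1 : 1 ≤ Y := by
    rw [hY]
    apply Real.one_le_exp
    positivity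
  have hAX2 : (A : ℝ) ≤ X ^ 2 := hAX.trans hX2
  have hfact : ((n.factorial : ℕ) : ℝ) ≤ Real.exp ((n : ℝ) ^ 2) := by
    have h1 : ((n.factorial : ℕ) : ℝ) ≤ (n : ℝ) ^ n := by exact_mod_cast Nat.factorial_le_pow n
    have h2 : (n : ℝ) ≤ Real.exp n := by
      have := Real.add_one_le_exp (n : ℝ)
      linarith
    have h3 : (n : ℝ) ^ n ≤ (Real.exp n) ^ n := pow_le_pow_left₀ hn0 h2 _
    rw [← Real.exp_nat_mul] at h3
    have h4 : (n : ℝ) * n = (n : ℝ) ^ 2 := by ring
    rw [h4] at h3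
    exact h1.trans h3
  have hA1 : (A : ℝ) + 1 ≤ Real.exp (X ^ 2) := by
    refine (Real.add_one_le_exp _).trans ?_
    exact Real.exp_le_exp.2 hAX2
  refine ⟨hY1, ?_, ?_, ?_, ?_, ?_⟩
  · rw [hY]
    apply Real.exp_le_exp.2
    apply mul_le_mul_of_nonneg_right _ (by positivity)
    rw [hcy]
    linarith
  · rw [hY]
    have h1 : (cΓ : ℝ) ≤ Real.exp cΓ := by
      have := Real.add_one_le_exp (cΓ : ℝ)
      linarith
    refine h1.trans (Real.exp_le_exp.2 ?_)
    have : (cΓ : ℝ) ≤ cy := by rw [hcy]; linarith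
    exact this.trans (le_mul_of_one_le_right (by positivity) hX21)
  · rw [hhz]
    exact one_le_mul_of_one_le_of_one_le hch1 hX21
  · have h1 : ((A : ℝ) + 1) * Y ≤ Real.exp (X ^ 2 + cy * X ^ 2) := by
      rw [Real.exp_add, hY]
      exact mul_le_mul_of_nonneg_right hA1 (by positivity)
    have h2 : (((A : ℝ) + 1) * Y) ^ n ≤ Real.exp (n * (X ^ 2 + cy * X ^ 2)) := by
      rw [Real.exp_nat_mul]
      apply pow_le_pow_left₀ _ h1
      positivity
    calc (n.factorial : ℝ) * ((A + 1) * Y) ^ n ≤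
        Real.exp ((n : ℝ) ^ 2) * Real.exp (n * (X ^ 2 + cy * X ^ 2)) :=
          mul_le_mul hfact h2 (by positivity) (by positivity)
      _ = Real.exp ((n : ℝ) ^ 2 + n * (X ^ 2 + cy * X ^ 2)) := by rw [← Real.exp_add]
      _ ≤ Real.exp hz := by
          apply Real.exp_le_exp.2
          have g1 : (n : ℝ) ^ 2 * 1 ≤ (n : ℝ) ^ 2 * X ^ 2 :=
            mul_le_mul_of_nonneg_left hX21 (sq_nonneg (n : ℝ))
          have g2 : ch * X ^ 2 = (n : ℝ) ^ 2 * X ^ 2 + n * (X ^ 2 + cy * X ^ 2) + X ^ 2 := by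
            rw [hch]
            ring
          rw [hhz, g2]
          linarith
  · -- the sum
    have hnAhz : n * A + hz ≤ (n + ch) * X ^ 2 := by
      have g1 := mul_le_mul_of_nonneg_left hAX2 hn0
      have g2 : (n + ch) * X ^ 2 = n * X ^ 2 + ch * X ^ 2 := add_mul _ _ _
      rw [hhz, g2]
      exact add_le_add g1 le_rfl
    have hnAhz0 : 0 ≤ n * A + hz := by
      rw [hhz]
      positivity
    have hpow : (n * A + hz) ^ Cz ≤ (n + ch) ^ Cz * X ^ (2 * Cz) := by
      rw [pow_mul, ← mul_pow]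
      exact pow_le_pow_left₀ hnAhz0 hnAhz _
    have ht3 : Cz * (n * A + hz) ^ Cz ≤ K3 * X ^ (2 * Cz) := by
      rw [hK3, mul_assoc]
      exact mul_le_mul_of_nonneg_left hpow (Nat.cast_nonneg _)
    have hlog : Real.log (2 / (1 / (T : ℝ) ^ 2)) ≤ 3 * X := by
      have h1 : (2 : ℝ) / (1 / (T : ℝ) ^ 2) = 2 * (T : ℝ) ^ 2 := by field_simp
      rw [h1, Real.log_mul (by norm_num) (by positivity), Real.log_pow]
      push_cast
      have h2 : Real.log 2 ≤ 1 := by
        have := Real.log_le_sub_one_of_pos (show (0 : ℝ) < 2 by norm_num)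
        linarith
      linarith
    have hlog0 : 0 ≤ Real.log (2 / (1 / (T : ℝ) ^ 2)) := by
      apply Real.log_nonneg
      have h1 : (2 : ℝ) / (1 / (T : ℝ) ^ 2) = 2 * (T : ℝ) ^ 2 := by field_simp
      rw [h1]
      have := one_le_pow₀ hTR (n := 2)
      linarith
    set P : ℝ := X ^ (2 * Cz + 2) with hP
    have hXP : ∀ k, k ≤ 2 * Cz + 2 → X ^ k ≤ P := fun k hk => pow_le_pow_right₀ hX1 hk
    have hP1 : 1 ≤ P := one_le_pow₀ hX1
    have t1 : (n + 2 : ℝ) ≤ (n + 2) * P := le_mul_of_one_le_right (by positivity) hP1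
    have t2 : Cz * (n * A + hz) ^ Cz * Real.log (2 / (1 / (T : ℝ) ^ 2)) ≤ 3 * K3 * P := by
      calc Cz * (n * A + hz) ^ Cz * Real.log (2 / (1 / (T : ℝ) ^ 2)) ≤
          (K3 * X ^ (2 * Cz)) * (3 * X) := mul_le_mul ht3 hlog hlog0 (by positivity)
        _ = 3 * K3 * X ^ (2 * Cz + 1) := by ring
        _ ≤ 3 * K3 * P := by
            apply mul_le_mul_of_nonneg_left (hXP _ (by omega)) (by positivity)
    have t3 : Cz * (n * A + hz) ^ Cz ≤ K3 * P :=
      ht3.trans (mul_le_mul_of_nonneg_left (hXP _ (by omega)) hK30)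
    have t4 : B₀ * Lg ≤ B₀ * P := by
      apply mul_le_mul_of_nonneg_left _ hB00
      have := hXP 1 (by omega)
      rw [pow_one] at this
      linarith
    have hEpos : 0 < Ent A D Y Z₀ R := lt_of_lt_of_le one_pos (one_le_Ent A D hY1 hZ hR)
    have t5 : Real.log ((2 * n + 1) * ((n + 1) * n.factorial * Ent A D Y Z₀ R ^ (n + 1))) ≤
        K5 * P := by
      have hf0 : (0 : ℝ) < n.factorial := by exact_mod_cast Nat.factorial_pos n
      rw [Real.log_mul (by positivity) (by positivity), Real.log_mul (by positivity)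
        (by positivity), Real.log_mul (by positivity) (by positivity), Real.log_pow]
      have l1 : Real.log (2 * n + 1) ≤ 2 * n + 1 := by
        have := Real.log_le_sub_one_of_pos (show (0 : ℝ) < 2 * n + 1 by positivity)
        linarith
      have l2 : Real.log (n + 1) ≤ n + 1 := by
        have := Real.log_le_sub_one_of_pos (show (0 : ℝ) < (n : ℝ) + 1 by positivity)
        linarith
      have l3 : Real.log (n.factorial : ℝ) ≤ (n : ℝ) ^ 2 := by
        rw [Real.log_le_iff_le_exp hf0]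
        exact hfact
      have l4 : Real.log (Ent A D Y Z₀ R) ≤ (1 + cy + D * Z₀ + R) * X ^ 2 := by
        unfold Ent
        rw [Real.log_mul (by positivity) (by positivity), Real.log_mul (by positivity)
          (by positivity), Real.log_mul (by positivity) (by positivity), Real.log_pow,
          Real.log_pow, hY, Real.log_exp]
        have e1 : Real.log ((A : ℝ) + 1) ≤ X ^ 2 := by
          have := Real.log_le_sub_one_of_pos (show (0 : ℝ) < (A : ℝ) + 1 by positivity)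
          linarith
        have e2 : Real.log Z₀ ≤ Z₀ := by
          have := Real.log_le_sub_one_of_pos (show (0 : ℝ) < Z₀ by linarith)
          linarith
        have e3 : Real.log R ≤ R := by
          have := Real.log_le_sub_one_of_pos (show (0 : ℝ) < R by linarith)
          linarith
        have e4 : (D : ℝ) * Real.log Z₀ ≤ D * Z₀ * X ^ 2 := by
          have h1 : (D : ℝ) * Real.log Z₀ ≤ D * Z₀ :=
            mul_le_mul_of_nonneg_left e2 (Nat.cast_nonneg _)
          have h2 : 0 ≤ (D : ℝ) * Z₀ := by positivity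
          have h3 : (D : ℝ) * Z₀ * 1 ≤ D * Z₀ * X ^ 2 := mul_le_mul_of_nonneg_left hX21 h2
          linarith
        have e5 : (A : ℝ) * Real.log R ≤ R * X ^ 2 := by
          have h1 : (A : ℝ) * Real.log R ≤ A * R :=
            mul_le_mul_of_nonneg_left e3 (Nat.cast_nonneg _)
          have h2 : (A : ℝ) * R ≤ X ^ 2 * R := mul_le_mul_of_nonneg_right hAX2 (by linarith)
          linarith
        have e6 : (1 + cy + D * Z₀ + R) * X ^ 2 = X ^ 2 + cy * X ^ 2 + D * Z₀ * X ^ 2 + R * X ^ 2 := by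
          ring
        rw [e6]
        exact add_le_add (add_le_add (add_le_add e1 le_rfl) e4) e5
      have hX2P : X ^ 2 ≤ P := hXP 2 (by omega)
      have l5 : ((n + 1 : ℕ) : ℝ) * Real.log (Ent A D Y Z₀ R) ≤
          (n + 1) * (1 + cy + D * Z₀ + R) * P := by
        push_cast
        have h1 : (1 + cy + D * Z₀ + R) * X ^ 2 ≤ (1 + cy + D * Z₀ + R) * P :=
          mul_le_mul_of_nonneg_left hX2P (by positivity)
        have h2 := mul_le_mul_of_nonneg_left (l4.trans h1) (show (0 : ℝ) ≤ (n : ℝ) + 1 by positivity)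
        linarith
      have h6 : (2 * (n : ℝ) + 1) + (n + 1) + (n : ℝ) ^ 2 ≤
          ((2 * (n : ℝ) + 1) + (n + 1) + (n : ℝ) ^ 2) * P := by
        exact le_mul_of_one_le_right (by positivity) hP1
      have h7 : K5 * P = ((2 * (n : ℝ) + 1) + (n + 1) + (n : ℝ) ^ 2) * P +
          (n + 1) * (1 + cy + D * Z₀ + R) * P := by
        rw [hK5]
        ring
      rw [h7]
      linarith
    have hsum : (n + 2 : ℝ) + Cz * (n * A + hz) ^ Cz * Real.log (2 / (1 / (T : ℝ) ^ 2)) +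
        Cz * (n * A + hz) ^ Cz + B₀ * Lg +
        Real.log ((2 * n + 1) * ((n + 1) * n.factorial * Ent A D Y Z₀ R ^ (n + 1))) ≤ K * P := by
      have g1 : K * P = (n + 2) * P + 3 * K3 * P + K3 * P + B₀ * P + K5 * P := by
        rw [hK]
        ring
      rw [g1]
      exact add_le_add (add_le_add (add_le_add (add_le_add t1 t2) t3) t4) t5
    refine hsum.trans ?_
    set e : ℕ := ⌈K⌉₊ + 2 * Cz + 2 with he
    have heR : (1 : ℝ) ≤ e := by
      have : 1 ≤ e := by omega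
      exact_mod_cast this
    have hKe : K ≤ (e : ℝ) := by
      have h1 := Nat.le_ceil K
      have h2 : ⌈K⌉₊ ≤ e := by omega
      have h3 : ((⌈K⌉₊ : ℕ) : ℝ) ≤ (e : ℝ) := by exact_mod_cast h2
      linarith
    have h7 : (e : ℝ) ≤ (e : ℝ) ^ e := le_self_pow₀ heR (by omega)
    have h8 : P ≤ X ^ e := pow_le_pow_right₀ hX1 (by omega)
    rw [mul_assoc, ← hX, mul_pow]
    exact mul_le_mul (hKe.trans h7) h8 (by positivity) (by positivity)

end Pool.Agent.Lib.MP_524521_nt.RA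
end

section
/-! Costs at one level, polylog version (helper27). -/
namespace Pool.Agent.Lib.MP_524521_nt.RA

/-- polynomially bounded in `A`, `w` -/
def PB (f : ℕ → ℕ → ℝ) : Prop :=
  ∃ e : ℕ, 1 ≤ e ∧ ∀ A w : ℕ, 1 ≤ A → 1 ≤ w → 0 ≤ f A w ∧ f A w ≤ ((e : ℝ) * A * w) ^ e

namespace PB

theorem const {c : ℝ} (hc : 0 ≤ c) : PB fun _ _ => c := by
  refine ⟨⌈c⌉₊ + 1, by omega, fun A w hA hw => ⟨hc, ?_⟩⟩
  have hA' : (1:ℝ) ≤ A := by exact_mod_cast hA
  have hw' : (1:ℝ) ≤ w := by exact_mod_cast hw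
  have h1 : c ≤ ((⌈c⌉₊ + 1 : ℕ) : ℝ) := by
    push_cast
    linarith [Nat.le_ceil c]
  have h0 : (1:ℝ) ≤ ((⌈c⌉₊ + 1 : ℕ) : ℝ) := by
    push_cast
    linarith [(Nat.cast_nonneg ⌈c⌉₊ : (0:ℝ) ≤ _)]
  have h2 : ((⌈c⌉₊ + 1 : ℕ) : ℝ) ≤ ((⌈c⌉₊ + 1 : ℕ) : ℝ) * A * w := by
    calc ((⌈c⌉₊ + 1 : ℕ) : ℝ) = ((⌈c⌉₊ + 1 : ℕ) : ℝ) * 1 * 1 := by ring
      _ ≤ ((⌈c⌉₊ + 1 : ℕ) : ℝ) * A * w := by gcongr
  have h3 : (1:ℝ) ≤ ((⌈c⌉₊ + 1 : ℕ) : ℝ) * A * w := h0.trans h2
  calc c ≤ ((⌈c⌉₊ + 1 : ℕ) : ℝ) * A * w := h1.trans h2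
    _ = (((⌈c⌉₊ + 1 : ℕ) : ℝ) * A * w) ^ 1 := (pow_one _).symm
    _ ≤ (((⌈c⌉₊ + 1 : ℕ) : ℝ) * A * w) ^ (⌈c⌉₊ + 1) := pow_le_pow_right₀ h3 (by omega)

theorem varA : PB fun A _ => (A : ℝ) := by
  refine ⟨1, le_refl _, fun A w hA hw => ⟨Nat.cast_nonneg _, ?_⟩⟩
  have hA' : (1:ℝ) ≤ A := by exact_mod_cast hA
  have hw' : (1:ℝ) ≤ w := by exact_mod_cast hw
  rw [pow_one, Nat.cast_one, one_mul]
  nlinarith

theorem varw : PB fun _ w => (w : ℝ) := by
  refine ⟨1, le_refl _, fun A w hA hw => ⟨Nat.cast_nonneg _, ?_⟩⟩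
  have hA' : (1:ℝ) ≤ A := by exact_mod_cast hA
  have hw' : (1:ℝ) ≤ w := by exact_mod_cast hw
  rw [pow_one, Nat.cast_one, one_mul]
  nlinarith

theorem aux {e₁ e₂ A w : ℕ} (h1 : 1 ≤ e₁) (h2 : 1 ≤ e₂) (hA : 1 ≤ A) (hw : 1 ≤ w) :
    (2:ℝ) ≤ ((e₁ + e₂ : ℕ) : ℝ) * A * w ∧ ((e₁ : ℝ) * A * w) ≤ ((e₁ + e₂ : ℕ) : ℝ) * A * w ∧
      ((e₂ : ℝ) * A * w) ≤ ((e₁ + e₂ : ℕ) : ℝ) * A * w := by
  have hA' : (1:ℝ) ≤ A := by exact_mod_cast hA
  have hw' : (1:ℝ) ≤ w := by exact_mod_cast hw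
  have h1' : (1:ℝ) ≤ e₁ := by exact_mod_cast h1
  have h2' : (1:ℝ) ≤ e₂ := by exact_mod_cast h2
  push_cast
  have hX : (1:ℝ) ≤ (A : ℝ) * w := one_le_mul_of_one_le_of_one_le hA' hw'
  refine ⟨?_, ?_, ?_⟩
  · rw [mul_assoc]; nlinarith
  · rw [mul_assoc, mul_assoc]; nlinarith
  · rw [mul_assoc, mul_assoc]; nlinarith

theorem add {f g : ℕ → ℕ → ℝ} (hf : PB f) (hg : PB g) : PB fun A w => f A w + g A w := by
  obtain ⟨e₁, h1, hf⟩ := hf
  obtain ⟨e₂, h2, hg⟩ := hg
  refine ⟨e₁ + e₂, by omega, fun A w hA hw => ⟨add_nonneg (hf A w hA hw).1 (hg A w hA hw).1, ?_⟩⟩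
  obtain ⟨a1, a2, a3⟩ := aux h1 h2 hA hw
  set X := ((e₁ + e₂ : ℕ) : ℝ) * A * w with hX
  have b1 : f A w ≤ X ^ e₁ := (hf A w hA hw).2.trans (by gcongr)
  have b2 : g A w ≤ X ^ e₂ := (hg A w hA hw).2.trans (by gcongr)
  have c1 : (2:ℝ) ≤ X ^ e₁ := by
    calc (2:ℝ) ≤ X := a1
      _ = X ^ 1 := (pow_one _).symm
      _ ≤ X ^ e₁ := pow_le_pow_right₀ (by linarith) h1
  have c2 : (2:ℝ) ≤ X ^ e₂ := by
    calc (2:ℝ) ≤ X := a1
      _ = X ^ 1 := (pow_one _).symm
      _ ≤ X ^ e₂ := pow_le_pow_right₀ (by linarith) h2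
  rw [pow_add]
  nlinarith

theorem mul {f g : ℕ → ℕ → ℝ} (hf : PB f) (hg : PB g) : PB fun A w => f A w * g A w := by
  obtain ⟨e₁, h1, hf⟩ := hf
  obtain ⟨e₂, h2, hg⟩ := hg
  refine ⟨e₁ + e₂, by omega, fun A w hA hw => ⟨mul_nonneg (hf A w hA hw).1 (hg A w hA hw).1, ?_⟩⟩
  obtain ⟨a1, a2, a3⟩ := aux h1 h2 hA hw
  set X := ((e₁ + e₂ : ℕ) : ℝ) * A * w with hX
  have b1 : f A w ≤ X ^ e₁ := (hf A w hA hw).2.trans (by gcongr)
  have b2 : g A w ≤ X ^ e₂ := (hg A w hA hw).2.trans (by gcongr)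
  rw [pow_add]
  exact mul_le_mul b1 b2 (hg A w hA hw).1 (by positivity)

theorem pow {f : ℕ → ℕ → ℝ} (hf : PB f) (k : ℕ) : PB fun A w => f A w ^ k := by
  induction k with
  | zero => simpa using const (zero_le_one' ℝ)
  | succ k ih => simpa only [pow_succ] using ih.mul hf

end PB

theorem log_le_self' {x : ℝ} (hx : 1 ≤ x) : Real.log x ≤ x := by
  linarith [Real.log_le_sub_one_of_pos (by linarith : (0:ℝ) < x)]

theorem log_fact_le (n : ℕ) : Real.log (n.factorial : ℝ) ≤ (n : ℝ) ^ 2 := by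
  rcases Nat.eq_zero_or_pos n with h | h
  · subst h; simp
  have h1 : (n.factorial : ℝ) ≤ (n : ℝ) ^ n := by exact_mod_cast Nat.factorial_le_pow n
  have h2 : (0:ℝ) < n.factorial := by exact_mod_cast Nat.factorial_pos n
  have hn : (1:ℝ) ≤ n := by exact_mod_cast h
  calc Real.log (n.factorial : ℝ) ≤ Real.log ((n : ℝ) ^ n) := Real.log_le_log h2 h1
    _ = n * Real.log n := Real.log_pow _ _
    _ ≤ n * n := by gcongr; exact log_le_self' hn
    _ = (n : ℝ) ^ 2 := by ring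

theorem le_hz_aux {n a w b q LY hz : ℝ} (hn : 1 ≤ n) (ha : 1 ≤ a) (hw : 0 ≤ w) (hb : 0 ≤ b)
    (hq : 0 ≤ q) (e1 : LY = (a * n) ^ 2 + a * n * (a * (b + w) + w ^ 4 * w) + q)
    (e2 : hz = n ^ 2 + n * (a + 1 + LY) + 1) : w ≤ hz := by
  have h1 : 0 ≤ w ^ 4 * w := by positivity
  have h2 : w ≤ a * (b + w) + w ^ 4 * w := by
    have : w ≤ a * w := le_mul_of_one_le_left hw ha
    have : 0 ≤ a * b := by positivity
    linarith [mul_add a b w]
  have h3 : (1:ℝ) ≤ a * n := one_le_mul_of_one_le_of_one_le ha hn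
  have h4 : w ≤ a * n * (a * (b + w) + w ^ 4 * w) :=
    h2.trans (le_mul_of_one_le_left (by linarith) h3)
  have h5 : w ≤ LY := by
    rw [e1]
    have := sq_nonneg (a * n)
    linarith
  have h6 : LY ≤ n * (a + 1 + LY) := by
    have h7 : a + 1 + LY ≤ n * (a + 1 + LY) := le_mul_of_one_le_left (by linarith) hn
    linarith
  rw [e2]
  have := sq_nonneg n
  linarith

/-- every quantity at a level is polynomially bounded -/
theorem level_costs2 (p D Cz bb : ℕ) (Z₀ R : ℝ) (hCz : 1 ≤ Cz) (hbb : 1 ≤ bb) (hZ : 1 ≤ Z₀)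
    (hR : 1 ≤ R) : ∃ e : ℕ, 1 ≤ e ∧ ∀ (A T H w : ℕ), 1 ≤ A → 1 ≤ T → 1 ≤ H → 1 ≤ w →
    Real.log T ≤ w → Real.log H ≤ w → ∀ nn A' : ℕ, nn = (w ^ 4 + 1) ^ p → A' = nn * A + 1 →
    ∃ Y hz : ℝ, 1 ≤ Y ∧
      (((A' * nn).factorial * ((bb * T) ^ A' * H ^ (w ^ 4)) ^ (A' * nn) : ℕ) : ℝ) ≤ Y ∧
      (p : ℝ) ≤ Y ∧ 1 ≤ hz ∧ Real.log T ≤ hz ∧ nn.factorial * ((A' + 1) * Y) ^ nn ≤ Real.exp hz ∧
      ((nn : ℝ) + 2) + (Cz * ((nn * A' : ℕ) + (nn * D : ℕ) + hz)) ^ Cz *
          Real.log (2 / (1 / (T : ℝ) ^ 2)) +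
        (Cz * ((nn * A' : ℕ) + (nn * D : ℕ) + hz)) ^ Cz + (w : ℝ) ^ 4 * w + nn * A +
        Real.log ((2 * nn + 1) * ((nn + 1) * nn.factorial * Ent A' D Y Z₀ R ^ (nn + 1))) ≤
          ((e : ℝ) * A * w) ^ e := by
  -- the functions
  set fn : ℕ → ℕ → ℝ := fun _ w => ((w : ℝ) ^ 4 + 1) ^ p with hfn
  set fA : ℕ → ℕ → ℝ := fun A w => fn A w * A + 1 with hfA
  set fY : ℕ → ℕ → ℝ := fun A w => (fA A w * fn A w) ^ 2 +
    fA A w * fn A w * (fA A w * ((bb : ℝ) + w) + (w : ℝ) ^ 4 * w) + p with hfY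
  set fh : ℕ → ℕ → ℝ := fun A w => fn A w ^ 2 + fn A w * (fA A w + 1 + fY A w) + 1 with hfh
  set fz : ℕ → ℕ → ℝ := fun A w => ((Cz : ℝ) * (fn A w * fA A w + fn A w * D + fh A w)) ^ Cz with hfz
  set fl : ℕ → ℕ → ℝ := fun A w => (2 * fn A w + 1) + (fn A w + 1) + fn A w ^ 2 +
    (fn A w + 1) * (fA A w + 1 + fY A w + D * Z₀ + fA A w * R) with hfl
  set ft : ℕ → ℕ → ℝ := fun A w => (fn A w + 2) + fz A w * (1 + 2 * (w : ℝ)) + fz A w + (w : ℝ) ^ 4 * w +
    fn A w * A + fl A w with hft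
  have c : ∀ r : ℝ, 0 ≤ r → PB fun _ _ => r := fun r hr => PB.const hr
  have Pn : PB fn := ((PB.varw.pow 4).add (c 1 (by norm_num))).pow p
  have PA : PB fA := (Pn.mul PB.varA).add (c 1 (by norm_num))
  have PY : PB fY := ((((PA.mul Pn).pow 2).add ((PA.mul Pn).mul ((PA.mul ((c bb (by positivity)).add PB.varw)).add
    ((PB.varw.pow 4).mul PB.varw)))).add (c p (by positivity)))
  have Ph : PB fh := ((Pn.pow 2).add (Pn.mul ((PA.add (c 1 (by norm_num))).add PY))).add (c 1 (by norm_num))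
  have Pz : PB fz := ((c Cz (by positivity)).mul (((Pn.mul PA).add (Pn.mul (c D (by positivity)))).add Ph)).pow Cz
  have Pl : PB fl := (((((c 2 (by norm_num)).mul Pn).add (c 1 (by norm_num))).add (Pn.add (c 1 (by norm_num)))).add
    (Pn.pow 2)).add ((Pn.add (c 1 (by norm_num))).mul ((((PA.add (c 1 (by norm_num))).add PY).add
      (c (D * Z₀) (by positivity))).add (PA.mul (c R (by positivity)))))
  have Pt : PB ft := ((((((Pn.add (c 2 (by norm_num))).add (Pz.mul ((c 1 (by norm_num)).add ((c 2 (by norm_num)).mul PB.varw)))).add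
    Pz).add ((PB.varw.pow 4).mul PB.varw)).add (Pn.mul PB.varA)).add Pl)
  obtain ⟨e, he, hP⟩ := Pt
  refine ⟨e, he, ?_⟩
  intro A T H w hA hT hH hw hlT hlH nn A' hnn hA'
  have hA1 : (1:ℝ) ≤ A := by exact_mod_cast hA
  have hw1 : (1:ℝ) ≤ w := by exact_mod_cast hw
  have hT1 : (1:ℝ) ≤ T := by exact_mod_cast hT
  have hH1 : (1:ℝ) ≤ H := by exact_mod_cast hH
  have hbb1 : (1:ℝ) ≤ bb := by exact_mod_cast hbb
  have en : (nn : ℝ) = fn A w := by rw [hnn, hfn]; push_cast; ring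
  have eA : (A' : ℝ) = fA A w := by rw [hA', hfA]; push_cast; rw [en]
  have hn1 : (1:ℝ) ≤ nn := by
    have : 1 ≤ nn := by rw [hnn]; exact Nat.one_le_pow _ _ (by positivity)
    exact_mod_cast this
  have hA'1 : (1:ℝ) ≤ A' := by
    have : 1 ≤ A' := by omega
    exact_mod_cast this
  set LY : ℝ := fY A w with hLY
  have hLYe : LY = ((A' : ℝ) * nn) ^ 2 + (A' : ℝ) * nn * (A' * ((bb : ℝ) + w) + (w : ℝ) ^ 4 * w) + p := by
    rw [hLY, hfY]; simp only [en, eA]
  have hLYp : (p : ℝ) ≤ LY := by rw [hLYe]; nlinarith [sq_nonneg ((A' : ℝ) * nn), (by positivity : (0:ℝ) ≤ (A' : ℝ) * nn * (A' * ((bb : ℝ) + w) + (w : ℝ) ^ 4 * w))]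
  have hLY0 : 0 ≤ LY := le_trans (by positivity) hLYp
  set hz : ℝ := fh A w with hhz
  have hhze : hz = (nn : ℝ) ^ 2 + nn * (A' + 1 + LY) + 1 := by
    rw [hhz, hfh]; simp only [en, eA, ← hLY]
  have hhz1 : 1 ≤ hz := by rw [hhze]; nlinarith [sq_nonneg (nn : ℝ), (by positivity : (0:ℝ) ≤ (nn : ℝ) * (A' + 1 + LY))]
  have hY1 : 1 ≤ Real.exp LY := Real.one_le_exp hLY0
  have hhzT : Real.log T ≤ hz :=
    hlT.trans (le_hz_aux hn1 hA'1 (by linarith) (by linarith) (Nat.cast_nonneg _) hLYe hhze)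
  refine ⟨Real.exp LY, hz, hY1, ?_, ?_, hhz1, hhzT, ?_, ?_⟩
  · -- the coefficients
    have hpos : (0:ℝ) < (((A' * nn).factorial * ((bb * T) ^ A' * H ^ (w ^ 4)) ^ (A' * nn) : ℕ) : ℝ) := by
      have : 0 < (A' * nn).factorial * ((bb * T) ^ A' * H ^ (w ^ 4)) ^ (A' * nn) := by
        have := Nat.factorial_pos (A' * nn)
        positivity
      exact_mod_cast this
    rw [← Real.log_le_iff_le_exp hpos]
    push_cast
    rw [Real.log_mul (by positivity) (by positivity), Real.log_pow, Real.log_mul (by positivity) (by positivity),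
      Real.log_pow, Real.log_pow, Real.log_mul (by positivity) (by positivity)]
    have h1 := log_fact_le (A' * nn)
    push_cast at h1
    have h2 : Real.log (bb : ℝ) ≤ bb := log_le_self' hbb1
    push_cast
    rw [hLYe]
    have h3 : (A' : ℝ) * nn * (A' * (Real.log bb + Real.log T) + (w : ℝ) ^ 4 * Real.log H) ≤
        (A' : ℝ) * nn * (A' * ((bb : ℝ) + w) + (w : ℝ) ^ 4 * w) := by gcongr
    have h4 : (0:ℝ) ≤ p := Nat.cast_nonneg _
    linarith
  · calc (p : ℝ) ≤ LY := hLYp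
      _ ≤ LY + 1 := by linarith
      _ ≤ Real.exp LY := Real.add_one_le_exp LY
  · have hpos : (0:ℝ) < (nn.factorial : ℝ) * (((A' : ℝ) + 1) * Real.exp LY) ^ nn := by positivity
    rw [← Real.log_le_iff_le_exp hpos]
    rw [Real.log_mul (by positivity) (by positivity), Real.log_pow, Real.log_mul (by positivity) (by positivity), Real.log_exp]
    have h1 := log_fact_le nn
    have h2 : Real.log ((A' : ℝ) + 1) ≤ A' + 1 := log_le_self' (by linarith)
    rw [hhze]
    have h3 : (nn : ℝ) * (Real.log ((A' : ℝ) + 1) + LY) ≤ nn * (A' + 1 + LY) := by gcongr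
    linarith
  · refine le_trans ?_ (hP A w hA hw).2
    have hlogT : Real.log (2 / (1 / (T : ℝ) ^ 2)) ≤ 1 + 2 * (w : ℝ) := by
      have h1 : (2 : ℝ) / (1 / (T : ℝ) ^ 2) = 2 * (T : ℝ) ^ 2 := by field_simp
      rw [h1, Real.log_mul (by norm_num) (by positivity), Real.log_pow]
      have h2 : Real.log 2 ≤ 1 := by
        have := Real.log_two_lt_d9
        linarith
      push_cast
      linarith
    have hz0 : fz A w = (Cz * (((nn * A' : ℕ) : ℝ) + ((nn * D : ℕ) : ℝ) + hz)) ^ Cz := by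
      rw [hfz]; push_cast; simp only [en, eA, ← hhz]
    have hlog : Real.log ((2 * nn + 1) * ((nn + 1) * nn.factorial * Ent A' D (Real.exp LY) Z₀ R ^ (nn + 1))) ≤ fl A w := by
      have hE : 0 < Ent A' D (Real.exp LY) Z₀ R := lt_of_lt_of_le one_pos (one_le_Ent A' D hY1 hZ hR)
      have hfac : (0:ℝ) < nn.factorial := by exact_mod_cast Nat.factorial_pos nn
      rw [Real.log_mul (by positivity) (by positivity), Real.log_mul (by positivity) (by positivity),
        Real.log_mul (by positivity) (by positivity), Real.log_pow]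
      have hEl : Real.log (Ent A' D (Real.exp LY) Z₀ R) ≤ A' + 1 + LY + D * Z₀ + A' * R := by
        unfold Ent
        rw [Real.log_mul (by positivity) (by positivity), Real.log_mul (by positivity) (by positivity),
          Real.log_mul (by positivity) (by positivity), Real.log_exp, Real.log_pow, Real.log_pow]
        have h1 : Real.log ((A' : ℝ) + 1) ≤ A' + 1 := log_le_self' (by linarith)
        have h2 : (D : ℝ) * Real.log Z₀ ≤ D * Z₀ := by gcongr; exact log_le_self' hZ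
        have h3 : (A' : ℝ) * Real.log R ≤ A' * R := by gcongr; exact log_le_self' hR
        linarith
      have h1 : Real.log (2 * (nn : ℝ) + 1) ≤ 2 * nn + 1 := log_le_self' (by linarith)
      have h2 : Real.log ((nn : ℝ) + 1) ≤ nn + 1 := log_le_self' (by linarith)
      have h3 := log_fact_le nn
      have h4 : ((nn : ℝ) + 1) * Real.log (Ent A' D (Real.exp LY) Z₀ R) ≤
          (nn + 1) * (A' + 1 + LY + D * Z₀ + A' * R) := by gcongr
      have h5 : fl A w = (2 * (nn : ℝ) + 1) + (nn + 1) + (nn : ℝ) ^ 2 + (nn + 1) * (A' + 1 + LY + D * Z₀ + A' * R) := by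
        rw [hfl]; simp only [en, eA, ← hLY]
      rw [h5]
      push_cast
      linarith
    have hzn : 0 ≤ fz A w := by rw [hz0]; positivity
    have h6 : fz A w * Real.log (2 / (1 / (T : ℝ) ^ 2)) ≤ fz A w * (1 + 2 * (w : ℝ)) := by gcongr
    rw [← hz0]
    have h7 : ft A w = ((nn : ℝ) + 2) + fz A w * (1 + 2 * (w : ℝ)) + fz A w + (w : ℝ) ^ 4 * w + nn * A + fl A w := by
      rw [hft]; simp only [en]
    rw [h7]
    linarith

end Pool.Agent.Lib.MP_524521_nt.RA
end
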