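import Mathlib
import Pool.Agent.Lib.MP_524521_nt.RA.Defs

/-! Evaluation of elements of `G m [X]` at `X = z`, `g_j = g_j(z)`; the zero estimate property. -/

open Polynomial

namespace Pool.Agent.Lib.MP_524521_nt.RA

/-- evaluation at `X = z`, `g_j = g_j(z)` -/
noncomputable def evg {m : ℕ} (g : Fin m → ℂ → ℂ) (z : ℂ) : Polynomial (G m) →+* ℂ :=
  Polynomial.eval₂RingHom (MvPolynomial.aeval (fun j => g j z) : G m →ₐ[ℤ] ℂ).toRingHom z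

/-- the zero estimate property of the functions `g` on `[a, b]` -/
def ZProp {m : ℕ} (g : Fin m → ℂ → ℂ) (a b : ℝ) : Prop :=
  ∀ E : ℕ, ∃ C : ℕ, 1 ≤ C ∧ ∀ (A : ℕ) (h δ : ℝ), 1 ≤ A → 1 ≤ h → 0 < δ → δ ≤ 1 →
    ∀ p : Polynomial (G m), p ≠ 0 → p.natDegree ≤ A → (∀ k, (p.coeff k).totalDegree ≤ E) →
    (∀ k, (N1 (p.coeff k) : ℝ) ≤ Real.exp h) →
    ∀ Q : Finset ℝ, (∀ x ∈ Q, a ≤ x ∧ x ≤ b) → (∀ x ∈ Q, ∀ y ∈ Q, x ≠ y → δ ≤ |x - y|) →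
    (∀ x ∈ Q, ‖evg g x p‖ ≤ Real.exp (-(C * (A + h) ^ C * Real.log (2 / δ)))) →
    (Q.card : ℝ) ≤ C * (A + h) ^ C

/-- `zeta(z + j)`, `j < m` -/
noncomputable def zt (m : ℕ) (j : Fin m) (z : ℂ) : ℂ := riemannZeta (z + (j : ℕ))

end Pool.Agent.Lib.MP_524521_nt.RA
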