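import Mathlib

/-! The Hurwitz zeta values `zeta(k, z) = sum_n 1 / (z + n)^k`, elementary analysis. -/

namespace Pool.Agent.Lib.MP_524521_nt.RA

/-- the Hurwitz zeta value `zeta(k, z) = sum_n 1 / (z + n)^k` -/
noncomputable def hz (k : ℕ) (z : ℂ) : ℂ := ∑' n : ℕ, 1 / (z + n) ^ k

/-- the family `zeta(2, z), .., zeta(m+1, z)` -/
noncomputable def ht (m : ℕ) (j : Fin m) (z : ℂ) : ℂ := hz ((j : ℕ) + 2) z

/-- the sum without its first term -/
noncomputable def hzs (k : ℕ) (z : ℂ) : ℂ := ∑' n : ℕ, 1 / (z + ((n + 1 : ℕ) : ℂ)) ^ k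

lemma summable_hzs_bound (k : ℕ) (hk : 2 ≤ k) :
    Summable (fun n : ℕ => 1 / (((n + 1 : ℕ) : ℝ)) ^ k) :=
  (summable_nat_add_iff (f := fun n : ℕ => 1 / ((n : ℝ)) ^ k) 1).2
    (Real.summable_one_div_nat_pow.2 (by omega))

lemma norm_add_nat_ge {z : ℂ} (hz : 0 < z.re) (n : ℕ) : (n : ℝ) ≤ ‖z + (n : ℂ)‖ := by
  have h1 : (z + (n : ℂ)).re ≤ ‖z + (n : ℂ)‖ := Complex.re_le_norm _
  simp only [Complex.add_re, Complex.natCast_re] at h1
  linarith

lemma hzs_term_bound (k : ℕ) (n : ℕ) (z : ℂ) (hz : 0 < z.re) :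
    ‖1 / (z + ((n + 1 : ℕ) : ℂ)) ^ k‖ ≤ 1 / (((n + 1 : ℕ) : ℝ)) ^ k := by
  rw [norm_div, norm_pow, norm_one]
  apply one_div_le_one_div_of_le (by positivity)
  exact pow_le_pow_left₀ (by positivity) (norm_add_nat_ge hz (n + 1)) _

lemma hzs_summable (k : ℕ) (hk : 2 ≤ k) (z : ℂ) (hz : 0 < z.re) :
    Summable (fun n : ℕ => 1 / (z + ((n + 1 : ℕ) : ℂ)) ^ k) :=
  Summable.of_norm_bounded (summable_hzs_bound k hk) (fun n => hzs_term_bound k n z hz)

lemma hz_summable (k : ℕ) (hk : 2 ≤ k) (z : ℂ) (hz : 0 < z.re) :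
    Summable (fun n : ℕ => 1 / (z + (n : ℂ)) ^ k) :=
  (summable_nat_add_iff (f := fun n : ℕ => 1 / (z + (n : ℂ)) ^ k) 1).1 (hzs_summable k hk z hz)

lemma hz_split (k : ℕ) (hk : 2 ≤ k) (z : ℂ) (h : 0 < z.re) : hz k z = 1 / z ^ k + hzs k z := by
  rw [hz, (hz_summable k hk z h).tsum_eq_zero_add, hzs]
  simp

lemma hzs_diff (k : ℕ) (hk : 2 ≤ k) : DifferentiableOn ℂ (hzs k) {z | 0 < z.re} := by
  apply Complex.differentiableOn_tsum_of_summable_norm (summable_hzs_bound k hk)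
  · intro n z hz
    have hne : z + ((n + 1 : ℕ) : ℂ) ≠ 0 := by
      intro h0
      have := norm_add_nat_ge hz (n + 1)
      rw [h0, norm_zero] at this
      push_cast at this
      linarith [(n.cast_nonneg : (0 : ℝ) ≤ n)]
    apply DifferentiableAt.differentiableWithinAt
    exact DifferentiableAt.fun_div (differentiableAt_const _)
      ((differentiableAt_id.add_const _).pow _) (pow_ne_zero _ hne)
  · exact isOpen_lt continuous_const Complex.continuous_re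
  · intro n z hz
    exact hzs_term_bound k n z hz

theorem hz_diff (k : ℕ) (hk : 2 ≤ k) : DifferentiableOn ℂ (hz k) {z | 0 < z.re} := by
  have h1 : DifferentiableOn ℂ (fun z => 1 / z ^ k + hzs k z) {z | 0 < z.re} := by
    apply DifferentiableOn.fun_add _ (hzs_diff k hk)
    intro z hz
    have hne : z ≠ 0 := by
      rintro rfl
      exact lt_irrefl (0 : ℝ) hz
    apply DifferentiableAt.differentiableWithinAt
    exact DifferentiableAt.fun_div (differentiableAt_const _)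
      (differentiableAt_id.pow _) (pow_ne_zero _ hne)
  exact h1.congr (fun z hz => hz_split k hk z hz)

lemma hzs_norm_le (k : ℕ) (hk : 2 ≤ k) (z : ℂ) (hz : 0 < z.re) :
    ‖hzs k z‖ ≤ ∑' n : ℕ, 1 / (((n + 1 : ℕ) : ℝ)) ^ k :=
  tsum_of_norm_bounded (summable_hzs_bound k hk).hasSum (fun n => hzs_term_bound k n z hz)

lemma hz_norm_le (k : ℕ) (hk : 2 ≤ k) (sig : ℝ) (hsig : 0 < sig) (z : ℂ) (hz' : sig ≤ z.re) :
    ‖hz k z‖ ≤ 1 / sig ^ k + ∑' n : ℕ, 1 / (((n + 1 : ℕ) : ℝ)) ^ k := by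
  have h0 : 0 < z.re := lt_of_lt_of_le hsig hz'
  rw [hz_split k hk z h0]
  refine (norm_add_le _ _).trans (add_le_add ?_ (hzs_norm_le k hk z h0))
  rw [norm_div, norm_pow, norm_one]
  apply one_div_le_one_div_of_le (by positivity)
  apply pow_le_pow_left₀ hsig.le
  exact hz'.trans (Complex.re_le_norm _)

theorem ht_bdd (m : ℕ) (sig : ℝ) (h : 0 < sig) :
    ∃ Z : ℝ, 1 ≤ Z ∧ ∀ z : ℂ, sig ≤ z.re → ∀ j, ‖ht m j z‖ ≤ Z := by
  set f : Fin m → ℝ := fun j => 1 / sig ^ ((j : ℕ) + 2) +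
    ∑' n : ℕ, 1 / (((n + 1 : ℕ) : ℝ)) ^ ((j : ℕ) + 2) with hf
  have hf0 : ∀ j, 0 ≤ f j := by
    intro j
    have : 0 ≤ ∑' n : ℕ, 1 / (((n + 1 : ℕ) : ℝ)) ^ ((j : ℕ) + 2) :=
      tsum_nonneg (fun n => by positivity)
    have h2 : 0 ≤ 1 / sig ^ ((j : ℕ) + 2) := by positivity
    simp only [hf]
    linarith
  refine ⟨1 + ∑ j, f j, ?_, ?_⟩
  · have := Finset.sum_nonneg (fun j (_ : j ∈ Finset.univ) => hf0 j)
    linarith
  · intro z hz j
    have h1 : ‖ht m j z‖ ≤ f j := hz_norm_le _ (by omega) sig h z hz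
    have h2 : f j ≤ ∑ j, f j := Finset.single_le_sum (fun j _ => hf0 j) (Finset.mem_univ j)
    linarith

theorem hz_add_one (k : ℕ) (hk : 2 ≤ k) (z : ℂ) (h : 0 < z.re) :
    hz k (z + 1) = hz k z - 1 / z ^ k := by
  rw [hz_split k hk z h, add_sub_cancel_left, hz, hzs]
  congr 1
  funext n
  push_cast
  ring_nf

theorem hz_real (k : ℕ) (x : ℝ) : hz k x = ((∑' n : ℕ, 1 / (x + n) ^ k : ℝ) : ℂ) := by
  rw [hz, Complex.ofReal_tsum]
  congr 1
  funext n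
  push_cast
  rfl

end Pool.Agent.Lib.MP_524521_nt.RA
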