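import Mathlib
import Pool.Agent.Lib.MP_524521_nt.RA.Norm

/-!
# Invariance under the shift

`TT τ x` acts on polynomials in `g_0, .., g_(m-1)` over a field `K` by `τ` on the coefficients and
by `g_k ↦ g_k - x^-(k+2)`.  Under two hypotheses on `(K, τ)` its only fixed points are constants
(`inv_const`).  The second half verifies the two hypotheses for `K = ℚ(X)` and the shift
`X ↦ X + 1` (`sh_fix`, `sh_pole`).
-/

open Polynomial
open scoped nonZeroDivisors

namespace Pool.Agent.Lib.MP_524521_nt.RA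

noncomputable def TT {m : ℕ} {K : Type} [Field K] (τ : K →+* K) (x : K) :
    MvPolynomial (Fin m) K →+* MvPolynomial (Fin m) K :=
  MvPolynomial.eval₂Hom ((MvPolynomial.C : K →+* MvPolynomial (Fin m) K).comp τ)
    (fun k => MvPolynomial.X k - MvPolynomial.C (x⁻¹ ^ ((k : ℕ) + 2)))

section inv

variable {m : ℕ} {K : Type} [Field K] (τ : K →+* K) (x : K)

theorem TT_C (a : K) : TT (m := m) τ x (MvPolynomial.C a) = MvPolynomial.C (τ a) := by
  simp [TT]

theorem TT_X (k : Fin m) :
    TT τ x (MvPolynomial.X k) = MvPolynomial.X k - MvPolynomial.C (x⁻¹ ^ ((k : ℕ) + 2)) := by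
  simp [TT]

theorem pderiv_TT (k : Fin m) (U : MvPolynomial (Fin m) K) :
    MvPolynomial.pderiv k (TT τ x U) = TT τ x (MvPolynomial.pderiv k U) := by
  classical
  induction U using MvPolynomial.induction_on with
  | C a => rw [TT_C, MvPolynomial.pderiv_C, MvPolynomial.pderiv_C, map_zero]
  | add p q hp hq => rw [map_add, map_add, hp, hq, map_add, map_add]
  | mul_X p j hp =>
    have h1 : MvPolynomial.pderiv k (TT τ x (MvPolynomial.X j)) =
        TT τ x (MvPolynomial.pderiv k (MvPolynomial.X j)) := by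
      rw [TT_X, map_sub, MvPolynomial.pderiv_C, sub_zero, MvPolynomial.pderiv_X]
      by_cases h : j = k
      · subst h
        rw [Pi.single_eq_same, map_one]
      · rw [Pi.single_eq_of_ne' (Ne.symm h), map_zero]
    rw [map_mul, MvPolynomial.pderiv_mul, hp, h1, MvPolynomial.pderiv_mul, map_add, map_mul,
      map_mul]

theorem eq_C_of_coeff {U : MvPolynomial (Fin m) K}
    (h : ∀ d : Fin m →₀ ℕ, 0 < d.degree → U.coeff d = 0) :
    U = MvPolynomial.C (U.coeff 0) := by
  classical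
  ext d
  rw [MvPolynomial.coeff_C]
  split_ifs with hd
  · rw [← hd]
  · refine h d (Nat.pos_of_ne_zero fun h0 => hd ?_)
    exact ((Finsupp.degree_eq_zero_iff d).mp h0).symm

theorem eq_C_of_pderiv [CharZero K] {U : MvPolynomial (Fin m) K}
    (h : ∀ k, MvPolynomial.pderiv k U = 0) : U = MvPolynomial.C (U.coeff 0) := by
  classical
  refine eq_C_of_coeff fun d hd => ?_
  have hne : d ≠ 0 := by
    rintro rfl
    simp at hd
  obtain ⟨k, hk⟩ := Finsupp.ne_iff.mp hne
  have hk' : d k ≠ 0 := hk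
  have h1 := MvPolynomial.coeff_pderiv (i := k) U (d - Finsupp.single k 1)
  rw [h k, MvPolynomial.coeff_zero] at h1
  have h2 : d - Finsupp.single k 1 + Finsupp.single k 1 = d := by
    refine tsub_add_cancel_of_le ?_
    rw [Finsupp.single_le_iff]
    omega
  rw [h2] at h1
  rcases mul_eq_zero.mp h1.symm with h3 | h3
  · exact h3
  · exfalso
    have : (((d - Finsupp.single k 1 : Fin m →₀ ℕ) k + 1 : ℕ) : K) = 0 := by
      push_cast
      exact h3
    exact Nat.cast_ne_zero.mpr (Nat.succ_ne_zero _) this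

theorem inv_const [CharZero K]
    (hI : ∀ u, τ u = u → ∃ q : ℚ, u = (q : K))
    (hP : ∀ (a : Fin m → ℚ) (u : K), τ u - u = ∑ k, (a k : K) * (x⁻¹) ^ ((k : ℕ) + 2) → a = 0)
    (U : MvPolynomial (Fin m) K) (hU : TT τ x U = U) : ∃ u, U = MvPolynomial.C u := by
  classical
  have key : ∀ (n : ℕ) (U : MvPolynomial (Fin m) K),
      (∀ d : Fin m →₀ ℕ, n < d.degree → U.coeff d = 0) → TT τ x U = U →
      ∃ u, U = MvPolynomial.C u := by
    intro n
    induction n with
    | zero => exact fun U h _ => ⟨_, eq_C_of_coeff h⟩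
    | succ n ih =>
      intro U h hU
      have h1 : ∀ k, ∃ q : ℚ, MvPolynomial.pderiv k U = MvPolynomial.C (q : K) := by
        intro k
        have h2 : TT τ x (MvPolynomial.pderiv k U) = MvPolynomial.pderiv k U := by
          rw [← pderiv_TT, hU]
        obtain ⟨a, ha⟩ := ih (MvPolynomial.pderiv k U) (fun d hd => by
          rw [MvPolynomial.coeff_pderiv, h _ (by
            rw [map_add, Finsupp.degree_single]
            omega), zero_mul]) h2
        rw [ha, TT_C] at h2
        obtain ⟨q, hq⟩ := hI a (MvPolynomial.C_injective _ _ h2)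
        exact ⟨q, by rw [ha, hq]⟩
      choose q hq using h1
      set V := U - ∑ k, MvPolynomial.C (q k : K) * MvPolynomial.X k with hV
      have h3 : ∀ k, MvPolynomial.pderiv k V = 0 := by
        intro k
        rw [hV, map_sub, hq, map_sum, Finset.sum_eq_single k]
        · rw [MvPolynomial.pderiv_C_mul, MvPolynomial.pderiv_X_self, mul_one, sub_self]
        · intro j _ hj
          rw [MvPolynomial.pderiv_C_mul, MvPolynomial.pderiv_X_of_ne hj, mul_zero]
        · intro hk
          exact absurd (Finset.mem_univ k) hk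
      have h4 := eq_C_of_pderiv h3
      set u := V.coeff 0 with hu
      have h5 : U = ∑ k, MvPolynomial.C (q k : K) * MvPolynomial.X k + MvPolynomial.C u := by
        rw [← h4, hV]
        ring
      have h6 : τ u - u = ∑ k, (q k : K) * (x⁻¹) ^ ((k : ℕ) + 2) := by
        have h7 := hU
        rw [h5, map_add, map_sum, TT_C] at h7
        have h8 : ∀ k : Fin m, TT τ x (MvPolynomial.C (q k : K) * MvPolynomial.X k) =
            MvPolynomial.C (q k : K) * MvPolynomial.X k -
              MvPolynomial.C ((q k : K) * (x⁻¹) ^ ((k : ℕ) + 2)) := by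
          intro k
          rw [map_mul, TT_C, TT_X, map_ratCast, mul_sub, MvPolynomial.C_mul (a := (q k : K))]
        rw [Finset.sum_congr rfl fun k _ => h8 k, Finset.sum_sub_distrib, ← map_sum] at h7
        apply MvPolynomial.C_injective (Fin m) K
        rw [MvPolynomial.C_sub]
        linear_combination h7
      have h9 := hP q u h6
      refine ⟨u, ?_⟩
      rw [h5, h9]
      simp
  obtain ⟨n, hn⟩ : ∃ n, ∀ d : Fin m →₀ ℕ, n < d.degree → U.coeff d = 0 := by
    refine ⟨U.support.sup fun d => d.degree, fun d hd => ?_⟩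
    by_contra hc
    have h1 : d.degree ≤ U.support.sup fun d => d.degree :=
      Finset.le_sup (f := fun d : Fin m →₀ ℕ => d.degree) (MvPolynomial.mem_support_iff.mpr hc)
    omega
  exact key n U hn hU

end inv

noncomputable def phi : ℤ[X] →+* RatFunc ℚ :=
  (algebraMap ℚ[X] (RatFunc ℚ)).comp (Polynomial.mapRingHom (Int.castRingHom ℚ))

theorem compX_inj : Function.Injective (Polynomial.compRingHom (X + 1 : ℚ[X])) := by
  rw [injective_iff_map_eq_zero]
  intro p hp
  have h : p.comp (X + 1) = 0 := hp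
  by_contra h0
  rcases Polynomial.comp_eq_zero_iff.mp h with h1 | ⟨_, h1⟩
  · exact h0 h1
  · have h2 : (X + 1 : ℚ[X]).natDegree = 0 := by rw [h1]; simp
    have h3 : (X + 1 : ℚ[X]).natDegree = 1 := by
      have := Polynomial.natDegree_X_add_C (1 : ℚ)
      simpa using this
    omega

theorem compX_le : ℚ[X]⁰ ≤ ℚ[X]⁰.comap (Polynomial.compRingHom (X + 1 : ℚ[X])) :=
  nonZeroDivisors_le_comap_nonZeroDivisors_of_injective _ compX_inj

noncomputable def sh : RatFunc ℚ →+* RatFunc ℚ :=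
  RatFunc.mapRingHom (Polynomial.compRingHom (X + 1 : ℚ[X])) compX_le

theorem phi_injective : Function.Injective phi := by
  refine (RatFunc.algebraMap_injective ℚ).comp ?_
  exact Polynomial.map_injective _ Int.cast_injective

theorem phi_X : phi X = RatFunc.X := by
  simp [phi]

theorem sh_div (p q : ℚ[X]) :
    sh (algebraMap ℚ[X] (RatFunc ℚ) p / algebraMap ℚ[X] (RatFunc ℚ) q) =
      algebraMap ℚ[X] (RatFunc ℚ) (p.comp (X + 1)) /
        algebraMap ℚ[X] (RatFunc ℚ) (q.comp (X + 1)) := by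
  rw [sh, RatFunc.coe_mapRingHom_eq_coe_map, RatFunc.map_apply_div]
  rfl

theorem sh_algebraMap (p : ℚ[X]) :
    sh (algebraMap ℚ[X] (RatFunc ℚ) p) = algebraMap ℚ[X] (RatFunc ℚ) (p.comp (X + 1)) := by
  have h := sh_div p 1
  simpa using h

theorem sh_phi (p : ℤ[X]) : sh (phi p) = phi (p.comp (X + 1)) := by
  rw [phi, RingHom.comp_apply, sh_algebraMap, RingHom.comp_apply]
  congr 1
  simp [Polynomial.map_comp]

theorem algC (q : ℚ) : algebraMap ℚ[X] (RatFunc ℚ) (C q) = (q : RatFunc ℚ) := by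
  rw [RatFunc.algebraMap_C]
  exact map_ratCast (RatFunc.C : ℚ →+* RatFunc ℚ) q

/-- a rational function as a quotient of coprime polynomials -/
theorem exists_PQ (u : RatFunc ℚ) : ∃ P Q : ℚ[X], Q ≠ 0 ∧ IsCoprime P Q ∧
    u = algebraMap ℚ[X] (RatFunc ℚ) P / algebraMap ℚ[X] (RatFunc ℚ) Q :=
  ⟨u.num, u.denom, u.denom_ne_zero, u.isCoprime_num_denom, (u.num_div_denom).symm⟩

theorem sh_fix (u : RatFunc ℚ) (h : sh u = u) : ∃ q : ℚ, u = (q : RatFunc ℚ) := by
  obtain ⟨P, Q, hQ, -, rfl⟩ := exists_PQ u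
  have hQ' : Q.comp (X + 1) ≠ 0 := fun h0 => hQ (compX_inj (by simpa using h0))
  have hA := RatFunc.algebraMap_ne_zero hQ
  have hA' := RatFunc.algebraMap_ne_zero hQ'
  rw [sh_div, div_eq_div_iff hA' hA, ← map_mul, ← map_mul] at h
  have h1 : P.comp (X + 1) * Q = P * Q.comp (X + 1) := RatFunc.algebraMap_injective ℚ h
  have h2 : ∀ n : ℕ, P.eval ((n : ℚ) + 1) * Q.eval (n : ℚ) = P.eval (n : ℚ) * Q.eval ((n : ℚ) + 1) := by
    intro n
    have := congrArg (Polynomial.eval (n : ℚ)) h1
    simpa [Polynomial.eval_comp] using this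
  -- `Q` has no zero beyond `N`
  obtain ⟨N, hN⟩ : ∃ N : ℕ, ∀ n : ℕ, N ≤ n → Q.eval (n : ℚ) ≠ 0 := by
    have hfin : {n : ℕ | Q.eval (n : ℚ) = 0}.Finite := by
      refine Set.Finite.of_injOn (f := fun n : ℕ => (n : ℚ)) (t := {x : ℚ | Q.IsRoot x}) ?_
        (fun a _ b _ hab => Nat.cast_injective hab) (Polynomial.finite_setOfPred_isRoot hQ)
      intro n hn
      exact hn
    obtain ⟨B, hB⟩ := hfin.bddAbove
    exact ⟨B + 1, fun n hn h0 => by
      have := hB (show n ∈ {n : ℕ | Q.eval (n : ℚ) = 0} from h0)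
      omega⟩
  set c : ℚ := P.eval (N : ℚ) / Q.eval (N : ℚ) with hc
  have h3 : ∀ n : ℕ, P.eval (((N + n : ℕ)) : ℚ) = c * Q.eval (((N + n : ℕ)) : ℚ) := by
    intro n
    induction n with
    | zero =>
      rw [hc, add_zero]
      field_simp [hN N le_rfl]
    | succ n ih =>
      have h4 := h2 (N + n)
      have h5 := hN (N + n) (by omega)
      rw [ih] at h4
      have h6 : (((N + (n + 1) : ℕ)) : ℚ) = ((N + n : ℕ) : ℚ) + 1 := by push_cast; ring
      rw [h6]
      have h7 : (P.eval (((N + n : ℕ) : ℚ) + 1) - c * Q.eval (((N + n : ℕ) : ℚ) + 1)) *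
          Q.eval ((N + n : ℕ) : ℚ) = 0 := by
        linear_combination h4
      rcases mul_eq_zero.mp h7 with h8 | h8
      · linarith
      · exact absurd h8 h5
  have h8 : P - C c * Q = 0 := by
    by_contra hne
    have hfin := Polynomial.finite_setOfPred_isRoot hne
    refine (Set.infinite_of_injective_forall_mem (f := fun n : ℕ => ((N + n : ℕ) : ℚ))
      (s := {x : ℚ | (P - C c * Q).IsRoot x}) ?_ ?_) hfin
    · intro a b hab
      have : ((N + a : ℕ) : ℚ) = ((N + b : ℕ) : ℚ) := hab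
      have := Nat.cast_injective this
      omega
    · intro n
      show (P - C c * Q).eval _ = 0
      rw [Polynomial.eval_sub, Polynomial.eval_mul, Polynomial.eval_C, h3 n, sub_self]
  refine ⟨c, ?_⟩
  rw [sub_eq_zero.mp h8, map_mul, mul_div_assoc, div_self hA, mul_one, algC]

theorem sh_pole {m : ℕ} (a : Fin m → ℚ) (u : RatFunc ℚ)
    (h : sh u - u = ∑ k, (a k : RatFunc ℚ) * (RatFunc.X⁻¹) ^ ((k : ℕ) + 2)) : a = 0 := by
  classical
  by_contra hne
  obtain ⟨k1, hk1⟩ := Function.ne_iff.mp hne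
  -- the last non-zero coefficient
  obtain ⟨k0, hk0, hmax⟩ := Finset.exists_max_image (Finset.univ.filter fun k => a k ≠ 0)
    (fun k => (k : ℕ)) ⟨k1, by simpa using hk1⟩
  have hk0' : a k0 ≠ 0 := (Finset.mem_filter.mp hk0).2
  have hbig : ∀ k : Fin m, (k0 : ℕ) < k → a k = 0 := by
    intro k hk
    by_contra hc
    have := hmax k (Finset.mem_filter.mpr ⟨Finset.mem_univ _, hc⟩)
    omega
  obtain ⟨P, Q, hQ, hcop, rfl⟩ := exists_PQ u
  have hQ' : Q.comp (X + 1) ≠ 0 := fun h0 => hQ (compX_inj (by simpa using h0))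
  have hA := RatFunc.algebraMap_ne_zero hQ
  have hA' := RatFunc.algebraMap_ne_zero hQ'
  have hX : (RatFunc.X : RatFunc ℚ) ≠ 0 := RatFunc.X_ne_zero
  set W : ℚ[X] := ∑ k, C (a k) * X ^ ((k0 : ℕ) - (k : ℕ)) with hW
  have hWm : (RatFunc.X : RatFunc ℚ) ^ ((k0 : ℕ) + 2) *
      (∑ k, (a k : RatFunc ℚ) * (RatFunc.X⁻¹) ^ ((k : ℕ) + 2)) =
      algebraMap ℚ[X] (RatFunc ℚ) W := by
    rw [hW, map_sum, Finset.mul_sum]
    refine Finset.sum_congr rfl fun k _ => ?_
    rw [map_mul, map_pow, RatFunc.algebraMap_X, algC]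
    by_cases hk : (k0 : ℕ) < k
    · rw [hbig k hk]
      simp
    · have h1 : (k0 : ℕ) + 2 = ((k0 : ℕ) - (k : ℕ)) + ((k : ℕ) + 2) := by omega
      rw [h1, pow_add, inv_pow]
      have h2 : (RatFunc.X : RatFunc ℚ) ^ ((k : ℕ) + 2) ≠ 0 := pow_ne_zero _ hX
      field_simp
  have hid : X ^ ((k0 : ℕ) + 2) * (P.comp (X + 1) * Q - P * Q.comp (X + 1)) =
      W * (Q * Q.comp (X + 1)) := by
    apply RatFunc.algebraMap_injective ℚ
    rw [sh_div] at h
    rw [map_mul, map_mul, ← hWm, ← h, map_pow, RatFunc.algebraMap_X, map_sub, map_mul, map_mul,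
      map_mul]
    field_simp
  have hev : ∀ y : ℚ, y ^ ((k0 : ℕ) + 2) * (P.eval (y + 1) * Q.eval y - P.eval y * Q.eval (y + 1)) =
      W.eval y * (Q.eval y * Q.eval (y + 1)) := by
    intro y
    have := congrArg (Polynomial.eval y) hid
    simpa [Polynomial.eval_comp] using this
  have hW0 : W.eval 0 = a k0 := by
    rw [hW, Polynomial.eval_finsetSum, Finset.sum_eq_single k0]
    · simp
    · intro k _ hk
      rcases lt_trichotomy (k : ℕ) (k0 : ℕ) with h1 | h1 | h1
      · rw [Polynomial.eval_mul, Polynomial.eval_pow, Polynomial.eval_X,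
          zero_pow (by omega), mul_zero]
      · exact absurd (Fin.ext h1) hk
      · rw [hbig k h1]
        simp
    · intro hk
      exact absurd (Finset.mem_univ k0) hk
  have hcoz : ∀ y : ℚ, Q.eval y = 0 → P.eval y ≠ 0 := by
    intro y hy hPy
    obtain ⟨r, s, hrs⟩ := hcop
    have := congrArg (Polynomial.eval y) hrs
    simp [hy, hPy] at this
  -- integer roots
  have hfin : {n : ℤ | Q.eval (n : ℚ) = 0}.Finite := by
    refine Set.Finite.of_injOn (f := fun n : ℤ => (n : ℚ)) (t := {x : ℚ | Q.IsRoot x}) ?_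
      (fun a _ b _ hab => Int.cast_injective hab) (Polynomial.finite_setOfPred_isRoot hQ)
    intro n hn
    exact hn
  have hroot : ({n : ℤ | Q.eval (n : ℚ) = 0}).Nonempty := by
    have h0 := hev 0
    rw [zero_pow (by omega), zero_mul, hW0, zero_add] at h0
    rcases mul_eq_zero.mp h0.symm with h1 | h1
    · exact absurd h1 hk0'
    · rcases mul_eq_zero.mp h1 with h2 | h2
      · exact ⟨0, by simpa using h2⟩
      · exact ⟨1, by simpa using h2⟩
  obtain ⟨M, hM, hMmax⟩ := Set.exists_max_image _ (fun n : ℤ => n) hfin hroot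
  obtain ⟨μ, hμ, hμmin⟩ := Set.exists_min_image _ (fun n : ℤ => n) hfin hroot
  have hM0 : M = 0 := by
    have h1 := hev (M : ℚ)
    have h2 : Q.eval (M : ℚ) = 0 := hM
    have h3 : Q.eval ((M : ℚ) + 1) ≠ 0 := by
      intro h4
      have := hMmax (M + 1) (by
        show Q.eval ((M + 1 : ℤ) : ℚ) = 0
        push_cast
        exact h4)
      simp at this
    rw [h2] at h1
    have h5 : (M : ℚ) ^ ((k0 : ℕ) + 2) * (P.eval (M : ℚ) * Q.eval ((M : ℚ) + 1)) = 0 := by
      linear_combination -h1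
    rcases mul_eq_zero.mp h5 with h6 | h6
    · exact_mod_cast pow_eq_zero_iff (by omega) |>.mp h6
    · rcases mul_eq_zero.mp h6 with h7 | h7
      · exact absurd h7 (hcoz _ h2)
      · exact absurd h7 h3
  have hμ1 : μ = 1 := by
    have h1 := hev ((μ - 1 : ℤ) : ℚ)
    have h2 : Q.eval (μ : ℚ) = 0 := hμ
    have hs : ((μ - 1 : ℤ) : ℚ) + 1 = (μ : ℚ) := by push_cast; ring
    have h3 : Q.eval ((μ - 1 : ℤ) : ℚ) ≠ 0 := by
      intro h4
      have := hμmin (μ - 1) h4
      simp at this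
    rw [hs, h2] at h1
    have h5 : ((μ - 1 : ℤ) : ℚ) ^ ((k0 : ℕ) + 2) * (P.eval (μ : ℚ) * Q.eval ((μ - 1 : ℤ) : ℚ)) = 0 := by
      linear_combination h1
    rcases mul_eq_zero.mp h5 with h6 | h6
    · have h7 : ((μ - 1 : ℤ) : ℚ) = 0 := pow_eq_zero_iff (by omega) |>.mp h6
      have h8 : μ - 1 = 0 := by exact_mod_cast h7
      omega
    · rcases mul_eq_zero.mp h6 with h7 | h7
      · exact absurd h7 (hcoz _ h2)
      · exact absurd h7 h3
  have h1 : μ ≤ M := hMmax μ hμ
  omega

end Pool.Agent.Lib.MP_524521_nt.RA
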