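import Mathlib
import Pool.Agent.Lib.MP_524521_nt.RA.Norm
import Pool.Agent.Lib.MP_524521_nt.RA.EvalDefs
import Pool.Agent.Lib.MP_524521_nt.RA.Hurwitz
import Pool.Agent.Lib.MP_524521_nt.RA.ShiftInv

/-!
# Elimination by shifts

`R` is a polynomial in `g_k` over `ℤ[X]`; the functions satisfy `g_k(x+1) = g_k(x) - x^-(k+2)`.
From the values `R(x), R(x+1), ..` one gets a nonzero integer polynomial in `x`.
-/

open Polynomial

namespace Pool.Agent.Lib.MP_524521_nt.RA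

open MonomialOrder (degLex)
open scoped MonomialOrder

/-- polynomials in `g_1..g_m` over `ℤ[X]` -/
abbrev Gx (m : ℕ) := MvPolynomial (Fin m) ℤ[X]

variable {m : ℕ}

/-- all coefficients have degree `≤ A` in `X` -/
def DB (A : ℕ) (R : Gx m) : Prop := ∀ γ, (R.coeff γ).natDegree ≤ A

/-- value at `X = y` -/
noncomputable def sp (y : ℤ) : Gx m →+* G m := MvPolynomial.map (Polynomial.evalRingHom y)

/-- complex value -/
noncomputable def ev (z : ℂ) (g : Fin m → ℂ) : Gx m →+* ℂ :=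
  MvPolynomial.eval₂Hom (Polynomial.eval₂RingHom (Int.castRingHom ℂ) z) g

/-! ### degrees in `X` -/

theorem DB.mono {A B : ℕ} {R : Gx m} (h : DB A R) (hAB : A ≤ B) : DB B R :=
  fun γ => (h γ).trans hAB

theorem DB_C (p : ℤ[X]) : DB p.natDegree (MvPolynomial.C p : Gx m) := by
  classical
  intro γ
  rw [MvPolynomial.coeff_C]
  split_ifs <;> simp

theorem DB.add {A : ℕ} {R S : Gx m} (h : DB A R) (h' : DB A S) : DB A (R + S) := by
  intro γ
  rw [MvPolynomial.coeff_add]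
  exact (natDegree_add_le _ _).trans (max_le (h γ) (h' γ))

theorem DB.sub {A : ℕ} {R S : Gx m} (h : DB A R) (h' : DB A S) : DB A (R - S) := by
  intro γ
  rw [MvPolynomial.coeff_sub]
  exact (natDegree_sub_le _ _).trans (max_le (h γ) (h' γ))

theorem DB.mul {A B : ℕ} {R S : Gx m} (h : DB A R) (h' : DB B S) : DB (A + B) (R * S) := by
  classical
  intro γ
  rw [MvPolynomial.coeff_mul]
  refine natDegree_sum_le_of_forall_le _ _ fun x _ => ?_
  exact natDegree_mul_le.trans (Nat.add_le_add (h _) (h' _))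

theorem DB.sum {A : ℕ} {ι : Type*} (s : Finset ι) (f : ι → Gx m) (h : ∀ i ∈ s, DB A (f i)) :
    DB A (∑ i ∈ s, f i) := by
  intro γ
  rw [MvPolynomial.coeff_sum]
  exact natDegree_sum_le_of_forall_le _ _ fun i hi => h i hi γ

theorem DB.one : DB 0 (1 : Gx m) := by
  have := DB_C (m := m) (1 : ℤ[X])
  simpa using this

theorem DB.pow {A : ℕ} {R : Gx m} (h : DB A R) (n : ℕ) : DB (n * A) (R ^ n) := by
  induction n with
  | zero => simpa using DB.one
  | succ n ih =>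
    rw [pow_succ, Nat.succ_mul]
    exact ih.mul h

theorem DB.prod {ι : Type*} (s : Finset ι) (f : ι → Gx m) (A : ι → ℕ)
    (h : ∀ i ∈ s, DB (A i) (f i)) : DB (∑ i ∈ s, A i) (∏ i ∈ s, f i) := by
  classical
  induction s using Finset.induction_on with
  | empty => simpa using DB.one
  | insert a s ha ih =>
    rw [Finset.sum_insert ha, Finset.prod_insert ha]
    exact (h a (Finset.mem_insert_self a s)).mul (ih fun i hi => h i (Finset.mem_insert_of_mem hi))

/-! ### the shift -/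

/-- `X^(k+2) g_k - 1` -/
noncomputable def fc (k : Fin m) : Gx m :=
  MvPolynomial.C (X ^ ((k : ℕ) + 2)) * MvPolynomial.X k - MvPolynomial.C 1

/-- the weight of a monomial -/
def wt (γ : Fin m →₀ ℕ) : ℕ := ∑ k, γ k * ((k : ℕ) + 2)

/-- the product of the `fc k` -/
noncomputable def fp (γ : Fin m →₀ ℕ) : Gx m := ∏ k, fc k ^ γ k

/-- `X^L` times the shift of `R` -/
noncomputable def sE (L : ℕ) (R : Gx m) : Gx m :=
  ∑ γ ∈ R.support, MvPolynomial.C (X ^ (L - wt γ) * (R.coeff γ).comp (X + 1)) * fp γ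

theorem DB_fc (k : Fin m) : DB ((k : ℕ) + 2) (fc k) := by
  unfold fc
  refine DB.sub ?_ ?_
  · intro γ
    rw [MvPolynomial.coeff_C_mul, MvPolynomial.coeff_X]
    split_ifs <;> simp
  · exact (DB_C 1).mono (by simp)

theorem DB_fp (γ : Fin m →₀ ℕ) : DB (wt γ) (fp γ) :=
  DB.prod _ _ _ fun k _ => (DB_fc k).pow _

theorem DB_sE {A L : ℕ} {R : Gx m} (h : DB A R) (hL : ∀ γ ∈ R.support, wt γ ≤ L) :
    DB (A + L) (sE L R) := by
  refine DB.sum _ _ fun γ hγ => ?_
  refine (((DB_C _).mul (DB_fp γ)).mono ?_)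
  have h1 : ((X : ℤ[X]) ^ (L - wt γ) * (R.coeff γ).comp (X + 1)).natDegree ≤ (L - wt γ) + A := by
    refine natDegree_mul_le.trans (Nat.add_le_add (natDegree_X_pow_le _) ?_)
    refine natDegree_comp_le.trans ?_
    have : ((X : ℤ[X]) + 1).natDegree = 1 := by
      rw [show (1 : ℤ[X]) = C 1 by simp]
      exact natDegree_X_add_C 1
    rw [this, mul_one]
    exact h γ
  have := hL γ hγ
  omega

/-! ### values -/

theorem ev_C (z : ℂ) (g : Fin m → ℂ) (p : ℤ[X]) : ev z g (MvPolynomial.C p) = aeval z p := by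
  unfold ev
  rw [MvPolynomial.eval₂Hom_C]
  rfl

theorem ev_X (z : ℂ) (g : Fin m → ℂ) (k : Fin m) : ev z g (MvPolynomial.X k) = g k := by
  unfold ev
  rw [MvPolynomial.eval₂Hom_X']

theorem ev_eq (z : ℂ) (g : Fin m → ℂ) (R : Gx m) :
    ev z g R = ∑ γ ∈ R.support, aeval z (R.coeff γ) * ∏ k, g k ^ γ k := by
  unfold ev
  rw [MvPolynomial.coe_eval₂Hom, MvPolynomial.eval₂_eq']
  rfl

theorem ev_fp (z : ℂ) (g : Fin m → ℂ) (hz : z ≠ 0) (γ : Fin m →₀ ℕ) :
    ev z g (fp γ) = z ^ wt γ * ∏ k, (g k - (z⁻¹) ^ ((k : ℕ) + 2)) ^ γ k := by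
  unfold fp wt
  rw [map_prod, ← Finset.prod_pow_eq_pow_sum, ← Finset.prod_mul_distrib]
  refine Finset.prod_congr rfl fun k _ => ?_
  rw [map_pow]
  have : ev z g (fc k) = z ^ ((k : ℕ) + 2) * (g k - (z⁻¹) ^ ((k : ℕ) + 2)) := by
    unfold fc
    rw [map_sub, map_mul, ev_C, ev_X, ev_C]
    simp only [map_pow, aeval_X, map_one]
    rw [mul_sub, ← mul_pow, mul_inv_cancel₀ hz, one_pow]
  rw [this, mul_pow, ← pow_mul, mul_comm (γ k)]

theorem ev_sE {L : ℕ} {R : Gx m} (hL : ∀ γ ∈ R.support, wt γ ≤ L) (z : ℂ) (g : Fin m → ℂ)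
    (hz : z ≠ 0) :
    ev z g (sE L R) = z ^ L * ev (z + 1) (fun k => g k - (z⁻¹) ^ ((k : ℕ) + 2)) R := by
  unfold sE
  rw [map_sum, ev_eq (z + 1), Finset.mul_sum]
  refine Finset.sum_congr rfl fun γ hγ => ?_
  rw [map_mul, ev_C, ev_fp z g hz, map_mul, map_pow, aeval_X]
  have h1 : aeval z ((R.coeff γ).comp (X + 1)) = aeval (z + 1) (R.coeff γ) := by
    rw [aeval_comp]
    simp
  rw [h1]
  have h2 : z ^ L = z ^ (L - wt γ) * z ^ wt γ := by
    rw [← pow_add, Nat.sub_add_cancel (hL γ hγ)]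
  rw [h2]
  ring

/-! ### l1 norms -/

theorem N1_C (c : ℤ) : N1 (MvPolynomial.C c : G m) = c.natAbs := N1_monomial 0 c

theorem N1_sp_fc (y : ℕ) (k : Fin m) : N1 (sp (y : ℤ) (fc k)) ≤ (y + 1) ^ ((k : ℕ) + 2) := by
  unfold fc sp
  rw [map_sub, map_mul, MvPolynomial.map_C, MvPolynomial.map_X, MvPolynomial.map_C, sub_eq_add_neg]
  refine (N1_add _ _).trans ?_
  have h1 : N1 (MvPolynomial.C ((evalRingHom (y : ℤ)) (X ^ ((k : ℕ) + 2))) *
      (MvPolynomial.X k : G m)) ≤ y ^ ((k : ℕ) + 2) := by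
    refine (N1_mul _ _).trans ?_
    rw [N1_C]
    have h2 : N1 (MvPolynomial.X k : G m) = 1 := by
      have := N1_monomial (m := m) (Finsupp.single k 1) 1
      simpa [MvPolynomial.X] using this
    rw [h2, mul_one]
    simp [Int.natAbs_pow]
  have h3 : N1 (-(MvPolynomial.C ((evalRingHom (y : ℤ)) 1) : G m)) ≤ 1 := by
    rw [← MvPolynomial.C_neg, N1_C]
    simp
  have h4 : y ^ ((k : ℕ) + 2) + 1 ≤ (y + 1) ^ ((k : ℕ) + 2) := by
    have := Nat.pow_le_pow_left (Nat.lt_succ_self y).le ((k : ℕ) + 1)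
    calc y ^ ((k : ℕ) + 2) + 1 ≤ (y + 1) ^ ((k : ℕ) + 1) * y + (y + 1) ^ ((k : ℕ) + 1) := by
          refine Nat.add_le_add ?_ (Nat.one_le_pow _ _ (Nat.succ_pos y))
          rw [pow_succ y]
          exact Nat.mul_le_mul_right y this
      _ = (y + 1) ^ ((k : ℕ) + 2) := by ring
  omega

theorem N1_sp_fp (y : ℕ) (γ : Fin m →₀ ℕ) : N1 (sp (y : ℤ) (fp γ)) ≤ (y + 1) ^ wt γ := by
  unfold fp wt
  rw [map_prod]
  refine (N1_prod _ _).trans ?_
  rw [← Finset.prod_pow_eq_pow_sum]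
  refine Finset.prod_le_prod' fun k _ => ?_
  rw [map_pow]
  refine (N1_pow _ _).trans ?_
  rw [mul_comm, pow_mul]
  exact Nat.pow_le_pow_left (N1_sp_fc y k) _

theorem N1_sp_C (y : ℤ) (p : ℤ[X]) : N1 (sp y (MvPolynomial.C p : Gx m)) = (p.eval y).natAbs := by
  unfold sp
  rw [MvPolynomial.map_C, N1_C]
  rfl

theorem coeff_sp (y : ℤ) (R : Gx m) (γ : Fin m →₀ ℕ) :
    (sp y R).coeff γ = (R.coeff γ).eval y := by
  unfold sp
  rw [MvPolynomial.coeff_map]
  rfl

theorem N1_sp_eq (y : ℤ) (R : Gx m) :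
    N1 (sp y R) = ∑ γ ∈ R.support, ((R.coeff γ).eval y).natAbs := by
  rw [N1_eq_sum (sp y R) R.support (MvPolynomial.support_map_subset _ _)]
  exact Finset.sum_congr rfl fun γ _ => by rw [coeff_sp]

theorem natAbs_le_N1 (y : ℤ) (R : Gx m) (γ : Fin m →₀ ℕ) :
    ((R.coeff γ).eval y).natAbs ≤ N1 (sp y R) := by
  by_cases h : γ ∈ R.support
  · rw [N1_sp_eq]
    exact Finset.single_le_sum (f := fun γ => ((R.coeff γ).eval y).natAbs) (fun _ _ => Nat.zero_le _) h
  · rw [MvPolynomial.notMem_support_iff.1 h]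
    simp

theorem N1_sp_sE {L : ℕ} {R : Gx m} (hL : ∀ γ ∈ R.support, wt γ ≤ L) (y : ℕ) :
    N1 (sp (y : ℤ) (sE L R)) ≤ (y + 1) ^ L * N1 (sp ((y : ℤ) + 1) R) := by
  unfold sE
  rw [map_sum, N1_sp_eq, Finset.mul_sum]
  refine (N1_sum _ _).trans (Finset.sum_le_sum fun γ hγ => ?_)
  rw [map_mul]
  refine (N1_mul _ _).trans ?_
  rw [N1_sp_C]
  refine (Nat.mul_le_mul_left _ (N1_sp_fp y γ)).trans ?_
  rw [eval_mul, eval_pow, eval_X, eval_comp, Int.natAbs_mul, Int.natAbs_pow, Int.natAbs_natCast]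
  simp only [eval_add, eval_X, eval_one]
  have h2 : (y + 1) ^ L = (y + 1) ^ (L - wt γ) * (y + 1) ^ wt γ := by
    rw [← pow_add, Nat.sub_add_cancel (hL γ hγ)]
  rw [h2]
  have h3 : y ^ (L - wt γ) ≤ (y + 1) ^ (L - wt γ) := Nat.pow_le_pow_left (Nat.le_succ y) _
  calc y ^ (L - wt γ) * (eval ((y : ℤ) + 1) (R.coeff γ)).natAbs * (y + 1) ^ wt γ
      ≤ (y + 1) ^ (L - wt γ) * (eval ((y : ℤ) + 1) (R.coeff γ)).natAbs * (y + 1) ^ wt γ := by gcongr
    _ = _ := by ring

/-! ### leading monomials -/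

theorem degree_fc (k : Fin m) : degLex.degree (fc k) = Finsupp.single k 1 ∧
    degLex.leadingCoeff (fc k) = X ^ ((k : ℕ) + 2) := by
  have h1 : (MvPolynomial.C (X ^ ((k : ℕ) + 2)) * MvPolynomial.X k : Gx m) =
      MvPolynomial.monomial (Finsupp.single k 1) (X ^ ((k : ℕ) + 2)) := by
    rw [MvPolynomial.X, MvPolynomial.C_mul_monomial, mul_one]
  have h2 : ((X : ℤ[X]) ^ ((k : ℕ) + 2)) ≠ 0 := pow_ne_zero _ X_ne_zero
  have h3 : degLex.degree (MvPolynomial.C (X ^ ((k : ℕ) + 2)) * MvPolynomial.X k : Gx m) =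
      Finsupp.single k 1 := by
    classical
    rw [h1, MonomialOrder.degree_monomial, if_neg h2]
  have h4 : degLex.degree (MvPolynomial.C 1 : Gx m) ≺[degLex]
      degLex.degree (MvPolynomial.C (X ^ ((k : ℕ) + 2)) * MvPolynomial.X k : Gx m) := by
    rw [h3, MonomialOrder.degree_C, map_zero, MonomialOrder.toSyn_lt_iff_ne_zero]
    simp
  unfold fc
  rw [MonomialOrder.degree_sub_of_lt h4, MonomialOrder.leadingCoeff_sub_of_lt h4, h3, h1,
    MonomialOrder.leadingCoeff_monomial]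
  exact ⟨rfl, rfl⟩

theorem degree_fp (γ : Fin m →₀ ℕ) : degLex.degree (fp γ) = γ ∧
    degLex.leadingCoeff (fp γ) = X ^ wt γ := by
  have h0 : ∀ k : Fin m, fc k ≠ 0 := by
    intro k h
    have := (degree_fc k).2
    rw [h, MonomialOrder.leadingCoeff_zero] at this
    exact pow_ne_zero _ X_ne_zero this.symm
  constructor
  · unfold fp
    rw [MonomialOrder.degree_prod fun k _ => pow_ne_zero _ (h0 k)]
    simp_rw [MonomialOrder.degree_pow, (degree_fc _).1]
    ext i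
    simp
  · unfold fp wt
    rw [MonomialOrder.leadingCoeff_prod_of_regular]
    · rw [← Finset.prod_pow_eq_pow_sum]
      refine Finset.prod_congr rfl fun k _ => ?_
      rw [MonomialOrder.leadingCoeff_pow, (degree_fc k).2, ← pow_mul, mul_comm]
    · intro k _
      exact IsRegular.of_ne_zero (by
        rw [MonomialOrder.leadingCoeff_pow, (degree_fc k).2]
        exact pow_ne_zero _ (pow_ne_zero _ X_ne_zero))

/-- the leading coefficient -/
noncomputable def lc (R : Gx m) : ℤ[X] := degLex.leadingCoeff R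

theorem le_of_mem {R : Gx m} {γ : Fin m →₀ ℕ} (h : γ ∈ R.support) :
    γ ≼[degLex] degLex.degree R := MonomialOrder.le_degree h

theorem degree_sE_le {L : ℕ} (R : Gx m) : degLex.degree (sE L R) ≼[degLex] degLex.degree R := by
  unfold sE
  refine MonomialOrder.degree_sum_le.trans (Finset.sup_le fun γ hγ => ?_)
  refine MonomialOrder.degree_mul_le.trans ?_
  rw [MonomialOrder.degree_C, zero_add, (degree_fp γ).1]
  exact le_of_mem hγ

theorem coeff_sE {L : ℕ} {R : Gx m} (hR : R ≠ 0) (hL : ∀ γ ∈ R.support, wt γ ≤ L) :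
    (sE L R).coeff (degLex.degree R) = X ^ L * (lc R).comp (X + 1) := by
  classical
  have h0 : degLex.degree R ∈ R.support := (MonomialOrder.degree_mem_support_iff (m := degLex) R).2 hR
  unfold sE
  rw [MvPolynomial.coeff_sum, Finset.sum_eq_single_of_mem _ h0]
  · rw [MvPolynomial.coeff_C_mul]
    have h1 : (fp (degLex.degree R)).coeff (degLex.degree R) = X ^ wt (degLex.degree R) := by
      have := (degree_fp (degLex.degree R)).2
      unfold MonomialOrder.leadingCoeff at this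
      rwa [(degree_fp (degLex.degree R)).1] at this
    rw [h1]
    unfold lc MonomialOrder.leadingCoeff
    have h2 : (X : ℤ[X]) ^ L = X ^ (L - wt (degLex.degree R)) * X ^ wt (degLex.degree R) := by
      rw [← pow_add, Nat.sub_add_cancel (hL _ h0)]
    rw [h2]
    ring
  · intro γ hγ hne
    rw [MvPolynomial.coeff_C_mul]
    have h1 : (fp γ).coeff (degLex.degree R) = 0 := by
      refine MonomialOrder.coeff_eq_zero_of_lt (m := degLex) ?_
      rw [(degree_fp γ).1]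
      exact lt_of_le_of_ne (le_of_mem hγ) fun h => hne (degLex.toSyn.injective h)
    rw [h1, mul_zero]

/-- one step of the elimination -/
noncomputable def red (L : ℕ) (R : Gx m) : Gx m :=
  MvPolynomial.C (lc R) * sE L R - MvPolynomial.C (X ^ L * (lc R).comp (X + 1)) * R

theorem degree_red_lt {L : ℕ} {R : Gx m} (hR : R ≠ 0) (hL : ∀ γ ∈ R.support, wt γ ≤ L)
    (h : red L R ≠ 0) : degLex.degree (red L R) ≺[degLex] degLex.degree R := by
  have h1 : degLex.degree (red L R) ≼[degLex] degLex.degree R := by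
    unfold red
    refine MonomialOrder.degree_sub_le.trans (sup_le ?_ ?_)
    · refine MonomialOrder.degree_mul_le.trans ?_
      rw [MonomialOrder.degree_C, zero_add]
      exact degree_sE_le R
    · refine MonomialOrder.degree_mul_le.trans ?_
      rw [MonomialOrder.degree_C, zero_add]
  refine lt_of_le_of_ne h1 fun he => ?_
  have he' := degLex.toSyn.injective he
  have h2 : (red L R).coeff (degLex.degree (red L R)) ≠ 0 :=
    (MonomialOrder.coeff_degree_ne_zero_iff (m := degLex)).2 h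
  rw [he'] at h2
  apply h2
  unfold red
  rw [MvPolynomial.coeff_sub, MvPolynomial.coeff_C_mul, MvPolynomial.coeff_C_mul, coeff_sE hR hL]
  change lc R * (X ^ L * (lc R).comp (X + 1)) - X ^ L * (lc R).comp (X + 1) * lc R = 0
  ring

theorem totalDegree_le_of_degree_lt {R S : Gx m} (h : degLex.degree S ≺[degLex] degLex.degree R) :
    S.totalDegree ≤ R.totalDegree := MvPolynomial.degLex_totalDegree_monotone h.le

theorem ev_red {L : ℕ} {R : Gx m} (hL : ∀ γ ∈ R.support, wt γ ≤ L) (z : ℂ) (g : Fin m → ℂ)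
    (hz : z ≠ 0) :
    ev z g (red L R) = aeval z (lc R) * (z ^ L * ev (z + 1) (fun k => g k - (z⁻¹) ^ ((k : ℕ) + 2)) R) -
      z ^ L * aeval (z + 1) (lc R) * ev z g R := by
  unfold red
  rw [map_sub, map_mul, map_mul, ev_C, ev_C, ev_sE hL z g hz, map_mul, map_pow, aeval_X]
  have h1 : aeval z ((lc R).comp (X + 1)) = aeval (z + 1) (lc R) := by
    rw [aeval_comp]
    simp
  rw [h1]

theorem lc_natDegree {A : ℕ} {R : Gx m} (h : DB A R) : (lc R).natDegree ≤ A := h _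

theorem DB_red {A L : ℕ} {R : Gx m} (h : DB A R) (hL : ∀ γ ∈ R.support, wt γ ≤ L) :
    DB (2 * A + L) (red L R) := by
  unfold red
  refine DB.sub ?_ ?_
  · refine (((DB_C _).mul (DB_sE h hL)).mono ?_)
    have := lc_natDegree h
    omega
  · refine (((DB_C _).mul h).mono ?_)
    have h1 : ((X : ℤ[X]) ^ L * (lc R).comp (X + 1)).natDegree ≤ L + A := by
      refine natDegree_mul_le.trans (Nat.add_le_add (natDegree_X_pow_le _) ?_)
      refine natDegree_comp_le.trans ?_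
      have : ((X : ℤ[X]) + 1).natDegree = 1 := by
        rw [show (1 : ℤ[X]) = C 1 by simp]
        exact natDegree_X_add_C 1
      rw [this, mul_one]
      exact lc_natDegree h
    omega

theorem lc_eval_le (y : ℤ) (R : Gx m) : ((lc R).eval y).natAbs ≤ N1 (sp y R) := natAbs_le_N1 y R _

theorem N1_red {L : ℕ} {R : Gx m} (hL : ∀ γ ∈ R.support, wt γ ≤ L) (y N : ℕ)
    (h1 : N1 (sp (y : ℤ) R) ≤ N) (h2 : N1 (sp ((y : ℤ) + 1) R) ≤ N) :
    N1 (sp (y : ℤ) (red L R)) ≤ 2 * (y + 1) ^ L * N ^ 2 := by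
  unfold red
  rw [map_sub, sub_eq_add_neg, map_mul, map_mul]
  refine (N1_add _ _).trans ?_
  rw [N1_neg]
  have h3 := N1_mul (sp (y : ℤ) (MvPolynomial.C (lc R))) (sp (y : ℤ) (sE L R))
  have h4 := N1_mul (sp (y : ℤ) (MvPolynomial.C (X ^ L * (lc R).comp (X + 1)))) (sp (y : ℤ) R)
  rw [N1_sp_C] at h3 h4
  rw [eval_mul, eval_pow, eval_X, eval_comp, Int.natAbs_mul, Int.natAbs_pow, Int.natAbs_natCast] at h4
  simp only [eval_add, eval_X, eval_one] at h4
  have h5 := N1_sp_sE hL y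
  have h6 : ((lc R).eval (y : ℤ)).natAbs ≤ N := (lc_eval_le _ _).trans h1
  have h7 : ((lc R).eval ((y : ℤ) + 1)).natAbs ≤ N := (lc_eval_le _ _).trans h2
  have h8 : y ^ L ≤ (y + 1) ^ L := Nat.pow_le_pow_left (Nat.le_succ y) _
  calc N1 (sp (y : ℤ) (MvPolynomial.C (lc R)) * sp (y : ℤ) (sE L R)) +
        N1 (sp (y : ℤ) (MvPolynomial.C (X ^ L * (lc R).comp (X + 1))) * sp (y : ℤ) R)
      ≤ ((lc R).eval (y : ℤ)).natAbs * N1 (sp (y : ℤ) (sE L R)) +
        y ^ L * ((lc R).eval ((y : ℤ) + 1)).natAbs * N1 (sp (y : ℤ) R) := Nat.add_le_add h3 h4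
    _ ≤ N * ((y + 1) ^ L * N) + (y + 1) ^ L * N * N := by
        refine Nat.add_le_add (Nat.mul_le_mul h6 (h5.trans (Nat.mul_le_mul_left _ h2))) ?_
        exact Nat.mul_le_mul (Nat.mul_le_mul h8 h7) h1
    _ = _ := by ring

/-! ### the final step of the elimination -/

theorem map_fc (k : Fin m) : MvPolynomial.map phi (fc k) =
    MvPolynomial.C (RatFunc.X ^ ((k : ℕ) + 2)) *
      (MvPolynomial.X k - MvPolynomial.C ((RatFunc.X⁻¹) ^ ((k : ℕ) + 2))) := by
  unfold fc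
  rw [map_sub, map_mul, MvPolynomial.map_C, MvPolynomial.map_X, MvPolynomial.map_C, map_pow, phi_X,
    mul_sub, ← MvPolynomial.C_mul, ← mul_pow, mul_inv_cancel₀ RatFunc.X_ne_zero, one_pow, map_one]

theorem map_fp (γ : Fin m →₀ ℕ) : MvPolynomial.map phi (fp γ) =
    MvPolynomial.C (RatFunc.X ^ wt γ) *
      ∏ k : Fin m, (MvPolynomial.X k - MvPolynomial.C ((RatFunc.X⁻¹) ^ ((k : ℕ) + 2))) ^ γ k := by
  unfold fp wt
  rw [map_prod, ← Finset.prod_pow_eq_pow_sum, map_prod, ← Finset.prod_mul_distrib]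
  refine Finset.prod_congr rfl fun k _ => ?_
  rw [map_pow, map_fc, mul_pow, ← map_pow, ← pow_mul, mul_comm (γ k)]

theorem map_sE {L : ℕ} {R : Gx m} (hL : ∀ γ ∈ R.support, wt γ ≤ L) :
    MvPolynomial.map phi (sE L R) =
      MvPolynomial.C (RatFunc.X ^ L) * TT sh RatFunc.X (MvPolynomial.map phi R) := by
  have h1 : TT sh RatFunc.X (MvPolynomial.map phi R) = ∑ γ ∈ R.support,
      MvPolynomial.C (sh (phi (R.coeff γ))) *
        ∏ k : Fin m, (MvPolynomial.X k - MvPolynomial.C ((RatFunc.X⁻¹) ^ ((k : ℕ) + 2))) ^ γ k := by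
    unfold TT
    rw [MvPolynomial.coe_eval₂Hom, MvPolynomial.eval₂_map, MvPolynomial.eval₂_eq']
    rfl
  rw [h1, Finset.mul_sum]
  unfold sE
  rw [map_sum]
  refine Finset.sum_congr rfl fun γ hγ => ?_
  rw [map_mul, MvPolynomial.map_C, map_fp, map_mul, map_pow, phi_X, sh_phi]
  have h2 : (RatFunc.X : RatFunc ℚ) ^ L = RatFunc.X ^ (L - wt γ) * RatFunc.X ^ wt γ := by
    rw [← pow_add, Nat.sub_add_cancel (hL γ hγ)]
  rw [h2, map_mul, map_mul]
  ring

theorem eq_C_of_red_eq_zero {L : ℕ} {R : Gx m} (hR : R ≠ 0) (hL : ∀ γ ∈ R.support, wt γ ≤ L)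
    (h : red L R = 0) : R = MvPolynomial.C (lc R) := by
  have hlc : lc R ≠ 0 := (MonomialOrder.leadingCoeff_ne_zero_iff (m := degLex)).2 hR
  have hp : phi (lc R) ≠ 0 := fun h => hlc (phi_injective (h.trans (map_zero phi).symm))
  have hps : sh (phi (lc R)) ≠ 0 := fun h => hp (sh.injective (h.trans (map_zero sh).symm))
  have hx : (RatFunc.X : RatFunc ℚ) ^ L ≠ 0 := pow_ne_zero _ RatFunc.X_ne_zero
  have h1 : MvPolynomial.C (phi (lc R)) * (MvPolynomial.C (RatFunc.X ^ L) *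
      TT sh RatFunc.X (MvPolynomial.map phi R)) =
      MvPolynomial.C (RatFunc.X ^ L * sh (phi (lc R))) * MvPolynomial.map phi R := by
    have := congrArg (MvPolynomial.map phi) h
    unfold red at this
    rw [map_sub, map_zero, sub_eq_zero, map_mul, map_mul, map_sE hL, MvPolynomial.map_C,
      MvPolynomial.map_C, map_mul phi, map_pow phi, phi_X, ← sh_phi] at this
    exact this
  have h2 : MvPolynomial.C (phi (lc R)) * TT sh RatFunc.X (MvPolynomial.map phi R) =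
      MvPolynomial.C (sh (phi (lc R))) * MvPolynomial.map phi R := by
    have h3 : (MvPolynomial.C (RatFunc.X ^ L) : MvPolynomial (Fin m) (RatFunc ℚ)) ≠ 0 := by
      rw [Ne, MvPolynomial.C_eq_zero]
      exact hx
    refine mul_left_cancel₀ h3 ?_
    rw [map_mul] at h1
    linear_combination h1
  have hU : TT sh RatFunc.X (MvPolynomial.C (phi (lc R))⁻¹ * MvPolynomial.map phi R) =
      MvPolynomial.C (phi (lc R))⁻¹ * MvPolynomial.map phi R := by
    have h3 : TT sh RatFunc.X (MvPolynomial.C (phi (lc R))⁻¹ : MvPolynomial (Fin m) (RatFunc ℚ)) =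
        MvPolynomial.C (sh (phi (lc R)))⁻¹ := by
      unfold TT
      rw [MvPolynomial.eval₂Hom_C, RingHom.comp_apply, map_inv₀]
    rw [map_mul, h3]
    have h4 : (MvPolynomial.C (phi (lc R)) : MvPolynomial (Fin m) (RatFunc ℚ)) ≠ 0 := by
      rw [Ne, MvPolynomial.C_eq_zero]
      exact hp
    refine mul_left_cancel₀ h4 ?_
    have h5 : (MvPolynomial.C (phi (lc R)) : MvPolynomial (Fin m) (RatFunc ℚ)) *
        MvPolynomial.C (phi (lc R))⁻¹ = 1 := by
      rw [← MvPolynomial.C_mul, mul_inv_cancel₀ hp, MvPolynomial.C_1]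
    have h6 : (MvPolynomial.C (sh (phi (lc R)))⁻¹ : MvPolynomial (Fin m) (RatFunc ℚ)) *
        MvPolynomial.C (sh (phi (lc R))) = 1 := by
      rw [← MvPolynomial.C_mul, inv_mul_cancel₀ hps, MvPolynomial.C_1]
    linear_combination MvPolynomial.C (sh (phi (lc R)))⁻¹ * h2 -
      MvPolynomial.map phi R * h5 + MvPolynomial.map phi R * h6
  obtain ⟨u, hu⟩ := inv_const sh RatFunc.X sh_fix (fun a u h => sh_pole a u h) _ hU
  have h7 : MvPolynomial.map phi R = MvPolynomial.C (phi (lc R) * u) := by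
    rw [MvPolynomial.C_mul, ← hu, ← mul_assoc, ← MvPolynomial.C_mul, mul_inv_cancel₀ hp,
      MvPolynomial.C_1, one_mul]
  have h8 : R = MvPolynomial.C (R.coeff 0) := by
    classical
    ext1 γ
    rw [MvPolynomial.coeff_C]
    split_ifs with h
    · rw [h]
    · apply phi_injective
      rw [← MvPolynomial.coeff_map, h7, MvPolynomial.coeff_C, if_neg h, map_zero]
  have h9 : lc R = R.coeff 0 := by
    unfold lc
    rw [h8]
    simp
  rw [h9]
  exact h8

/-! ### the induction -/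

/-- the functional equation at the positive integers -/
def FE (g : Fin m → ℂ → ℂ) : Prop :=
  ∀ k, ∀ n : ℕ, 1 ≤ n → g k ((n : ℂ) + 1) = g k n - ((n : ℂ)⁻¹) ^ ((k : ℕ) + 2)

/-- monomials of degree `≤ E` -/
noncomputable def mons (m E : ℕ) : Finset (Fin m →₀ ℕ) :=
  (Finsupp.finite_of_degree_le (σ := Fin m) E).toFinset

theorem mem_mons {E : ℕ} {δ : Fin m →₀ ℕ} : δ ∈ mons m E ↔ δ.degree ≤ E := by
  simp [mons]

open Classical in
/-- number of monomials of degree `≤ E` below the leading monomial -/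
noncomputable def rkx (E : ℕ) (R : Gx m) : ℕ :=
  ((mons m E).filter (fun δ => δ ≺[degLex] degLex.degree R)).card

theorem rkx_lt {E : ℕ} {R S : Gx m} (h : degLex.degree S ≺[degLex] degLex.degree R)
    (hS : S.totalDegree ≤ E) : rkx E S < rkx E R := by
  classical
  unfold rkx
  refine Finset.card_lt_card ?_
  rw [Finset.ssubset_iff_of_subset]
  · refine ⟨degLex.degree S, ?_, ?_⟩
    · rw [Finset.mem_filter, mem_mons, MvPolynomial.degree_degLexDegree]
      exact ⟨hS, h⟩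
    · rw [Finset.mem_filter]
      rintro ⟨_, h'⟩
      exact lt_irrefl _ h'
  · intro δ hδ
    rw [Finset.mem_filter] at hδ ⊢
    exact ⟨hδ.1, hδ.2.trans h⟩

theorem wt_le {E : ℕ} {R : Gx m} (hR : R.totalDegree ≤ E) : ∀ γ ∈ R.support, wt γ ≤ (m + 1) * E := by
  intro γ hγ
  have h1 : γ.degree ≤ E := (MvPolynomial.le_totalDegree hγ).trans hR
  unfold wt
  calc ∑ k, γ k * ((k : ℕ) + 2) ≤ ∑ k, γ k * (m + 1) := by
        refine Finset.sum_le_sum fun k _ => Nat.mul_le_mul_left _ ?_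
        have := k.2
        omega
    _ = (∑ k, γ k) * (m + 1) := by rw [Finset.sum_mul]
    _ ≤ (m + 1) * E := by
        rw [mul_comm]
        refine Nat.mul_le_mul_left _ ?_
        rwa [← Finsupp.degree_eq_sum]

theorem aeval_nat (y : ℕ) (p : ℤ[X]) : aeval (y : ℂ) p = ((p.eval (y : ℤ) : ℤ) : ℂ) := by
  have h : ((y : ℤ) : ℂ) = (y : ℂ) := by push_cast; rfl
  rw [← h, aeval_def, eval₂_at_intCast]
  simp

theorem elim_ind (m E n : ℕ) : ∃ c : ℕ, 1 ≤ c ∧ ∀ (A : ℕ) (R : Gx m), R ≠ 0 → R.totalDegree ≤ E →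
    rkx E R ≤ n → DB A R → ∃ p : ℤ[X], p ≠ 0 ∧ p.natDegree ≤ c * (A + 1) ∧
      ∀ g, FE g → ∀ (M N : ℕ) (B : ℝ), 1 ≤ M → 1 ≤ N →
        (∀ i ≤ c, N1 (sp ((M + i : ℕ) : ℤ) R) ≤ N) →
        (∀ i ≤ c, ‖ev ((M + i : ℕ) : ℂ) (fun k => g k ((M + i : ℕ) : ℂ)) R‖ ≤ B) →
        ((p.eval (M : ℤ)).natAbs : ℝ) ≤ (((M + c) * N : ℕ) : ℝ) ^ c * B := by
  obtain ⟨L, hLdef⟩ : ∃ L, L = (m + 1) * E := ⟨_, rfl⟩
  have hwt : ∀ {R : Gx m}, R.totalDegree ≤ E → ∀ γ ∈ R.support, wt γ ≤ L := by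
    intro R hR
    rw [hLdef]
    exact wt_le hR
  -- the case in which one step gives zero
  have key : ∀ (c : ℕ), 1 ≤ c → ∀ (A : ℕ) (R : Gx m), R ≠ 0 → R.totalDegree ≤ E →
      red L R = 0 → DB A R → ∃ p : ℤ[X], p ≠ 0 ∧ p.natDegree ≤ c * (A + 1) ∧
      ∀ g, FE g → ∀ (M N : ℕ) (B : ℝ), 1 ≤ M → 1 ≤ N →
        (∀ i ≤ c, N1 (sp ((M + i : ℕ) : ℤ) R) ≤ N) →
        (∀ i ≤ c, ‖ev ((M + i : ℕ) : ℂ) (fun k => g k ((M + i : ℕ) : ℂ)) R‖ ≤ B) →
        ((p.eval (M : ℤ)).natAbs : ℝ) ≤ (((M + c) * N : ℕ) : ℝ) ^ c * B := by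
    intro c hc A R hR hE h0 hA
    have h1 := eq_C_of_red_eq_zero hR (hwt hE) h0
    refine ⟨lc R, (MonomialOrder.leadingCoeff_ne_zero_iff (m := degLex)).2 hR, ?_, ?_⟩
    · refine (lc_natDegree hA).trans ?_
      calc A ≤ 1 * (A + 1) := by omega
        _ ≤ c * (A + 1) := Nat.mul_le_mul_right _ hc
    · intro g _ M N B hM hN _ hB
      have h2 := hB 0 (Nat.zero_le c)
      rw [add_zero, h1, ev_C, aeval_nat] at h2
      have h3 : ((lc R).eval (M : ℤ)).natAbs ≤ B := by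
        rwa [Complex.norm_intCast, ← Int.cast_abs, Int.abs_eq_natAbs, Int.cast_natCast] at h2
      have h4 : (1 : ℝ) ≤ (((M + c) * N : ℕ) : ℝ) ^ c := by
        refine one_le_pow₀ ?_
        exact_mod_cast Nat.mul_pos (by omega) (by omega)
      have h5 : 0 ≤ B := le_trans (Nat.cast_nonneg _) h3
      nlinarith
  induction n with
  | zero =>
    refine ⟨1, le_rfl, fun A R hR hE hrk hA => ?_⟩
    by_cases h0 : red L R = 0
    · exact key 1 le_rfl A R hR hE h0 hA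
    · exfalso
      have h1 := degree_red_lt hR (hwt hE) h0
      have h2 := rkx_lt h1 ((totalDegree_le_of_degree_lt h1).trans hE)
      omega
  | succ n ih =>
    obtain ⟨c', hc', ih⟩ := ih
    obtain ⟨c, hc⟩ : ∃ c, c = (c' + 1) * (L + 2) + 2 := ⟨_, rfl⟩
    have hcc : c' + 1 ≤ c := by
      rw [hc]
      nlinarith [Nat.zero_le (c' * L)]
    refine ⟨c, by omega, fun A R hR hE hrk hA => ?_⟩
    by_cases h0 : red L R = 0
    · exact key _ (by omega) A R hR hE h0 hA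
    have h1 := degree_red_lt hR (hwt hE) h0
    have h2 := (totalDegree_le_of_degree_lt h1).trans hE
    have h3 := rkx_lt h1 h2
    obtain ⟨p, hp0, hpd, hp⟩ := ih (2 * A + L) (red L R) h0 h2 (by omega) (DB_red hA (hwt hE))
    refine ⟨p, hp0, hpd.trans ?_, ?_⟩
    · rw [hc]
      nlinarith [Nat.zero_le (A * L * c'), Nat.zero_le (L * c'), Nat.zero_le (A * c'),
        Nat.zero_le (A * L)]
    intro g hg M N B hM hN hNb hB
    have hB0 : 0 ≤ B := (norm_nonneg _).trans (hB 0 (Nat.zero_le _))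
    have h4 : ∀ i ≤ c', N1 (sp ((M + i : ℕ) : ℤ) (red L R)) ≤ 2 * (M + c) ^ L * N ^ 2 := by
      intro i hi
      have h5 := hNb i (by omega)
      have h6 := hNb (i + 1) (by omega)
      have h7 : (((M + (i + 1) : ℕ)) : ℤ) = ((M + i : ℕ) : ℤ) + 1 := by push_cast; ring
      rw [h7] at h6
      refine (N1_red (hwt hE) (M + i) N h5 h6).trans ?_
      exact Nat.mul_le_mul_right _ (Nat.mul_le_mul_left _ (Nat.pow_le_pow_left (by omega) L))
    have h5 : ∀ i ≤ c', ‖ev ((M + i : ℕ) : ℂ) (fun k => g k ((M + i : ℕ) : ℂ)) (red L R)‖ ≤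
        2 * ((M + c : ℕ) : ℝ) ^ L * N * B := by
      intro i hi
      have hz : ((M + i : ℕ) : ℂ) ≠ 0 := by
        exact_mod_cast (by omega : M + i ≠ 0)
      rw [ev_red (hwt hE) _ _ hz]
      have h6 : (fun k => g k ((M + i : ℕ) : ℂ) - (((M + i : ℕ) : ℂ)⁻¹) ^ ((k : ℕ) + 2)) =
          fun k => g k ((M + (i + 1) : ℕ) : ℂ) := by
        funext k
        rw [← hg k (M + i) (by omega)]
        push_cast
        ring_nf
      have h7 : ((M + i : ℕ) : ℂ) + 1 = ((M + (i + 1) : ℕ) : ℂ) := by push_cast; ring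
      rw [h6, h7, aeval_nat, aeval_nat]
      have h8 : ‖(((lc R).eval (((M + i : ℕ)) : ℤ) : ℤ) : ℂ)‖ ≤ N := by
        rw [Complex.norm_intCast, ← Int.cast_abs, Int.abs_eq_natAbs, Int.cast_natCast]
        exact_mod_cast (lc_eval_le _ _).trans (hNb i (by omega))
      have h9 : ‖(((lc R).eval (((M + (i + 1) : ℕ)) : ℤ) : ℤ) : ℂ)‖ ≤ N := by
        rw [Complex.norm_intCast, ← Int.cast_abs, Int.abs_eq_natAbs, Int.cast_natCast]
        exact_mod_cast (lc_eval_le _ _).trans (hNb (i + 1) (by omega))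
      have h10 : ‖((M + i : ℕ) : ℂ) ^ L‖ ≤ ((M + c : ℕ) : ℝ) ^ L := by
        rw [norm_pow, Complex.norm_natCast]
        gcongr
        omega
      have h11 := hB i (by omega)
      have h12 := hB (i + 1) (by omega)
      have h13 : (0 : ℝ) ≤ ((M + c : ℕ) : ℝ) ^ L := by positivity
      have h14 : (0 : ℝ) ≤ N := Nat.cast_nonneg _
      refine (norm_sub_le _ _).trans ?_
      rw [norm_mul, norm_mul, norm_mul, norm_mul]
      calc _ ≤ (N : ℝ) * (((M + c : ℕ) : ℝ) ^ L * B) + ((M + c : ℕ) : ℝ) ^ L * N * B := by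
            gcongr
        _ = _ := by ring
    have h6 := hp g hg M (2 * (M + c) ^ L * N ^ 2) (2 * ((M + c : ℕ) : ℝ) ^ L * N * B) hM
      (Nat.mul_pos (Nat.mul_pos two_pos (pow_pos (by omega) _)) (pow_pos (by omega) _)) h4 h5
    refine h6.trans ?_
    have hY : (1 : ℝ) ≤ (((M + c) * N : ℕ) : ℝ) := by
      exact_mod_cast Nat.mul_pos (by omega) (by omega)
    have hN1 : (1 : ℝ) ≤ (N : ℝ) := by exact_mod_cast hN
    have hMc : (2 : ℝ) ≤ ((M + c : ℕ) : ℝ) := by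
      exact_mod_cast (by omega : 2 ≤ M + c)
    have h7 : (((M + c') * (2 * (M + c) ^ L * N ^ 2) : ℕ) : ℝ) ≤ (((M + c) * N : ℕ) : ℝ) ^ (L + 2) := by
      have h8 : (M + c') * (2 * (M + c) ^ L * N ^ 2) ≤ ((M + c) * N) ^ (L + 2) := by
        calc (M + c') * (2 * (M + c) ^ L * N ^ 2)
            ≤ (M + c) * ((M + c) * (M + c) ^ L * N ^ 2) := by
              gcongr <;> omega
          _ ≤ (M + c) * ((M + c) * (M + c) ^ L * N ^ (L + 2)) := by
              gcongr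
              omega
          _ = ((M + c) * N) ^ (L + 2) := by
              rw [mul_pow, pow_succ' (M + c) (L + 1), pow_succ' (M + c) L]
              simp only [mul_assoc]
      exact_mod_cast h8
    have h8 : 2 * ((M + c : ℕ) : ℝ) ^ L * N * B ≤ (((M + c) * N : ℕ) : ℝ) ^ (L + 1) * B := by
      have h9 : 2 * ((M + c : ℕ) : ℝ) ^ L * N ≤ (((M + c) * N : ℕ) : ℝ) ^ (L + 1) := by
        calc 2 * ((M + c : ℕ) : ℝ) ^ L * N ≤ ((M + c : ℕ) : ℝ) * ((M + c : ℕ) : ℝ) ^ L * N ^ (L + 1) := by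
              have : (N : ℝ) ≤ (N : ℝ) ^ (L + 1) := le_self_pow₀ hN1 (by omega)
              gcongr
          _ = (((M + c) * N : ℕ) : ℝ) ^ (L + 1) := by
              rw [Nat.cast_mul, mul_pow, pow_succ' ((M + c : ℕ) : ℝ) L]
      exact mul_le_mul_of_nonneg_right h9 hB0
    calc (((M + c') * (2 * (M + c) ^ L * N ^ 2) : ℕ) : ℝ) ^ c' * (2 * ((M + c : ℕ) : ℝ) ^ L * N * B)
        ≤ ((((M + c) * N : ℕ) : ℝ) ^ (L + 2)) ^ c' * ((((M + c) * N : ℕ) : ℝ) ^ (L + 1) * B) := by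
          gcongr
      _ = (((M + c) * N : ℕ) : ℝ) ^ ((L + 2) * c' + (L + 1)) * B := by
          rw [← pow_mul, ← mul_assoc, ← pow_add]
      _ ≤ (((M + c) * N : ℕ) : ℝ) ^ c * B := by
          refine mul_le_mul_of_nonneg_right (pow_le_pow_right₀ hY ?_) hB0
          rw [hc]
          nlinarith

/-! ### conversion from `(G m)[X]` -/

/-- `(G m)[X] → Gx m` -/
noncomputable def cv : Polynomial (G m) →+* Gx m :=
  Polynomial.eval₂RingHom (MvPolynomial.map (Polynomial.C : ℤ →+* ℤ[X])) (MvPolynomial.C X)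

theorem coeff_cv (p : Polynomial (G m)) (γ : Fin m →₀ ℕ) (k : ℕ) :
    ((cv p).coeff γ).coeff k = (p.coeff k).coeff γ := by
  classical
  induction p using Polynomial.induction_on' with
  | add p q hp hq =>
    rw [map_add, MvPolynomial.coeff_add, Polynomial.coeff_add, hp, hq, Polynomial.coeff_add,
      MvPolynomial.coeff_add]
  | monomial n a =>
    unfold cv
    rw [coe_eval₂RingHom, eval₂_monomial, ← map_pow, mul_comm, MvPolynomial.coeff_C_mul,
      MvPolynomial.coeff_map, coeff_monomial, mul_comm, coeff_C_mul, coeff_X_pow]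
    by_cases h : n = k
    · subst h
      simp
    · rw [if_neg h, if_neg (Ne.symm h)]
      simp

theorem cv_ne_zero {p : Polynomial (G m)} (h : p ≠ 0) : cv p ≠ 0 := by
  intro h0
  apply h
  ext k γ
  rw [← coeff_cv, h0]
  simp

theorem DB_cv {p : Polynomial (G m)} {A : ℕ} (h : p.natDegree ≤ A) : DB A (cv p) := by
  intro γ
  rw [natDegree_le_iff_coeff_eq_zero]
  intro k hk
  rw [coeff_cv, coeff_eq_zero_of_natDegree_lt (lt_of_le_of_lt h hk)]
  simp

theorem totalDegree_cv {p : Polynomial (G m)} {E : ℕ} (h : ∀ k, (p.coeff k).totalDegree ≤ E) :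
    (cv p).totalDegree ≤ E := by
  unfold MvPolynomial.totalDegree
  refine Finset.sup_le fun γ hγ => ?_
  rw [MvPolynomial.mem_support_iff] at hγ
  obtain ⟨k, hk⟩ : ∃ k, ((cv p).coeff γ).coeff k ≠ 0 := by
    by_contra hcon
    push Not at hcon
    exact hγ (Polynomial.ext fun k => by simpa using hcon k)
  rw [coeff_cv] at hk
  exact (MvPolynomial.le_totalDegree (MvPolynomial.mem_support_iff.2 hk)).trans (h k)

theorem sp_cv (y : ℤ) (p : Polynomial (G m)) : sp y (cv p) = p.eval (y : G m) := by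
  have h : (sp y).comp (cv : Polynomial (G m) →+* Gx m) = Polynomial.evalRingHom (y : G m) := by
    refine Polynomial.ringHom_ext ?_ ?_
    · intro a
      unfold sp cv
      rw [RingHom.comp_apply, coe_eval₂RingHom, eval₂_C, coe_evalRingHom, eval_C,
        MvPolynomial.map_map]
      have h1 : (Polynomial.evalRingHom y).comp (Polynomial.C : ℤ →+* ℤ[X]) = RingHom.id ℤ :=
        RingHom.ext_int _ _
      rw [h1, MvPolynomial.map_id]
    · unfold sp cv
      rw [RingHom.comp_apply, coe_eval₂RingHom, eval₂_X, coe_evalRingHom, eval_X,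
        MvPolynomial.map_C, coe_evalRingHom, eval_X]
      simp
  exact congrArg (fun f => f p) h

theorem ev_cv (g : Fin m → ℂ → ℂ) (z : ℂ) (p : Polynomial (G m)) :
    ev z (fun k => g k z) (cv p) = evg g z p := by
  have h : (ev z (fun k => g k z)).comp (cv : Polynomial (G m) →+* Gx m) = evg g z := by
    refine Polynomial.ringHom_ext ?_ ?_
    · intro a
      unfold ev cv evg
      rw [RingHom.comp_apply, coe_eval₂RingHom, eval₂_C, coe_eval₂RingHom, eval₂_C,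
        MvPolynomial.coe_eval₂Hom, MvPolynomial.eval₂_map]
      have h1 : (Polynomial.eval₂RingHom (Int.castRingHom ℂ) z).comp (Polynomial.C : ℤ →+* ℤ[X]) =
          algebraMap ℤ ℂ := RingHom.ext_int _ _
      rw [h1]
      rfl
    · unfold ev cv evg
      rw [RingHom.comp_apply, coe_eval₂RingHom, eval₂_X, coe_eval₂RingHom, eval₂_X,
        MvPolynomial.eval₂Hom_C, coe_eval₂RingHom, eval₂_X]
  exact congrArg (fun f => f p) h

/-- a nonzero polynomial of degree `≤ d` has a non-root among `m₀, .., m₀ + d` -/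
theorem exists_not_root (p : ℤ[X]) (hp : p ≠ 0) (d m₀ : ℕ) (hd : p.natDegree ≤ d) :
    ∃ M : ℕ, m₀ ≤ M ∧ M ≤ m₀ + d ∧ p.eval (M : ℤ) ≠ 0 := by
  classical
  by_contra hcon
  push Not at hcon
  have h1 : (Finset.Icc m₀ (m₀ + d)).image (fun M : ℕ => (M : ℤ)) ⊆ p.roots.toFinset := by
    intro x hx
    obtain ⟨M, hM, rfl⟩ := Finset.mem_image.1 hx
    rw [Finset.mem_Icc] at hM
    rw [Multiset.mem_toFinset, mem_roots hp]
    exact hcon M hM.1 hM.2
  have h2 := Finset.card_le_card h1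
  rw [Finset.card_image_of_injective _ Nat.cast_injective, Nat.card_Icc] at h2
  have h3 := (Multiset.toFinset_card_le p.roots).trans (card_roots' p)
  omega

theorem elim_lower_FE (m E : ℕ) : ∃ c : ℕ, 1 ≤ c ∧ ∀ g : Fin m → ℂ → ℂ, FE g →
    ∀ (A m₀ : ℕ) (p : Polynomial (G m)), 1 ≤ m₀ → p ≠ 0 → p.natDegree ≤ A →
    (∀ k, (p.coeff k).totalDegree ≤ E) → ∃ M : ℕ, m₀ ≤ M ∧ M ≤ m₀ + c * (A + 1) ∧
      ∀ N : ℕ, 1 ≤ N → (∀ i ≤ c, N1 (p.eval (((M + i : ℕ) : ℤ) : G m)) ≤ N) →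
        ∃ i ≤ c, 1 / ((((M + c) * N : ℕ) : ℝ) ^ c) ≤ ‖evg g ((M + i : ℕ) : ℂ) p‖ := by
  obtain ⟨c, hc, h⟩ := elim_ind m E (mons m E).card
  refine ⟨c, hc, fun g hg A m₀ p hm₀ hp hA hE => ?_⟩
  obtain ⟨q, hq0, hqd, hq⟩ := h A (cv p) (cv_ne_zero hp) (totalDegree_cv hE)
    (Finset.card_filter_le _ _) (DB_cv hA)
  obtain ⟨M, hM1, hM2, hM3⟩ := exists_not_root q hq0 _ m₀ hqd
  refine ⟨M, hM1, hM2, fun N hN hNb => ?_⟩
  by_contra hcon
  push Not at hcon
  set Y : ℝ := (((M + c) * N : ℕ) : ℝ) ^ c with hY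
  have hYpos : 0 < Y := by
    rw [hY]
    refine pow_pos ?_ _
    exact_mod_cast Nat.mul_pos (by omega) (by omega)
  -- the largest of the values is smaller than 1 / Y
  obtain ⟨B, hB1, hB2⟩ : ∃ B : ℝ, B < 1 / Y ∧ ∀ i ≤ c, ‖evg g ((M + i : ℕ) : ℂ) p‖ ≤ B := by
    obtain ⟨i₀, hi₀, hmax⟩ := Finset.exists_max_image (Finset.range (c + 1))
      (fun i => ‖evg g ((M + i : ℕ) : ℂ) p‖) ⟨0, by simp⟩
    refine ⟨_, hcon i₀ (by simpa [Nat.lt_succ_iff] using hi₀), fun i hi => ?_⟩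
    exact hmax i (by simpa [Nat.lt_succ_iff] using hi)
  have h1 := hq g hg M N B (by omega) hN (fun i hi => by rw [sp_cv]; exact hNb i hi)
    (fun i hi => by rw [ev_cv]; exact hB2 i hi)
  have h2 : (1 : ℝ) ≤ ((q.eval (M : ℤ)).natAbs : ℝ) := by
    exact_mod_cast Int.natAbs_pos.2 hM3
  have h3 : Y * B < 1 := by
    calc Y * B < Y * (1 / Y) := mul_lt_mul_of_pos_left hB1 hYpos
      _ = 1 := mul_one_div_cancel hYpos.ne'
  linarith

theorem FE_ht (m : ℕ) : FE (ht m) := by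
  intro k n hn
  have h1 : (0 : ℝ) < ((n : ℂ)).re := by
    rw [Complex.natCast_re]
    exact_mod_cast hn
  have h2 := hz_add_one ((k : ℕ) + 2) (by omega) (n : ℂ) h1
  unfold ht
  rw [h2, one_div, inv_pow]

theorem elim_lower (m E : ℕ) : ∃ c : ℕ, 1 ≤ c ∧
    ∀ (A m₀ : ℕ) (p : Polynomial (G m)), 1 ≤ m₀ → p ≠ 0 → p.natDegree ≤ A →
    (∀ k, (p.coeff k).totalDegree ≤ E) → ∃ M : ℕ, m₀ ≤ M ∧ M ≤ m₀ + c * (A + 1) ∧
      ∀ N : ℕ, 1 ≤ N → (∀ i ≤ c, N1 (p.eval (((M + i : ℕ) : ℤ) : G m)) ≤ N) →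
        ∃ i ≤ c, 1 / ((((M + c) * N : ℕ) : ℝ) ^ c) ≤ ‖evg (ht m) ((M + i : ℕ) : ℂ) p‖ := by
  obtain ⟨c, hc, h⟩ := elim_lower_FE m E
  exact ⟨c, hc, h (ht m) (FE_ht m)⟩

end Pool.Agent.Lib.MP_524521_nt.RA
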