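import Mathlib
import Pool.Agent.Lib.MP_524521_nt.RA.Elim

/-!
# From `[1, b + 1]` to `(0, b]`

`ζ(k, x) = ζ(k, x + 1) + x^(-k)`.
-/

open MvPolynomial

namespace Pool.Agent.Lib.MP_524521_nt.RA

variable {m : ℕ}

/-- the variable `g_k` translated by `(q / a)^(k+2)`, with cleared denominators -/
noncomputable def tf (a q : ℕ) (k : Fin m) : G m :=
  C ((a : ℤ) ^ ((k : ℕ) + 2)) * X k + C ((q : ℤ) ^ ((k : ℕ) + 2))

/-- translation by `(q / a)^(k+2)` with cleared denominators -/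
noncomputable def trn (a q w : ℕ) (P : G m) : G m :=
  ∑ γ ∈ P.support, C (P.coeff γ * (a : ℤ) ^ (w - wt γ)) * ∏ k, tf a q k ^ γ k

theorem aeval_tf {a q : ℕ} (ha : a ≠ 0) (y : Fin m → ℂ) (k : Fin m) :
    aeval y (tf a q k) = (a : ℂ) ^ ((k : ℕ) + 2) * (y k + ((q : ℂ) / a) ^ ((k : ℕ) + 2)) := by
  have ha' : (a : ℂ) ≠ 0 := Nat.cast_ne_zero.2 ha
  unfold tf
  rw [map_add, map_mul, aeval_C, aeval_X, aeval_C]
  simp only [map_pow, eq_intCast, Int.cast_natCast]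
  rw [mul_add, div_pow, mul_div_cancel₀]
  exact pow_ne_zero _ ha'

theorem aeval_trn {a q w : ℕ} (ha : a ≠ 0) {P : G m} (hw : ∀ γ ∈ P.support, wt γ ≤ w)
    (y : Fin m → ℂ) :
    aeval y (trn a q w P) = (a : ℂ) ^ w * aeval (fun k => y k + ((q : ℂ) / a) ^ ((k : ℕ) + 2)) P := by
  have h2 : ∀ γ : Fin m →₀ ℕ, aeval y (∏ k, tf a q k ^ γ k : G m) =
      (a : ℂ) ^ wt γ * ∏ k, (y k + ((q : ℂ) / a) ^ ((k : ℕ) + 2)) ^ γ k := by
    intro γ
    unfold wt
    rw [map_prod, ← Finset.prod_pow_eq_pow_sum, ← Finset.prod_mul_distrib]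
    refine Finset.prod_congr rfl fun k _ => ?_
    rw [map_pow, aeval_tf ha, mul_pow, ← pow_mul, mul_comm (γ k)]
  unfold trn
  rw [map_sum, aeval_def (fun k => y k + ((q : ℂ) / a) ^ ((k : ℕ) + 2)) P, eval₂_eq', Finset.mul_sum]
  refine Finset.sum_congr rfl fun γ hγ => ?_
  rw [map_mul, h2, aeval_C, map_mul, map_pow]
  have h3 : (a : ℂ) ^ w = (a : ℂ) ^ (w - wt γ) * (a : ℂ) ^ wt γ := by
    rw [← pow_add, Nat.sub_add_cancel (hw γ hγ)]
  rw [h3]
  simp only [eq_intCast, Int.cast_natCast]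
  ring

theorem N1_tf (a q : ℕ) (k : Fin m) : N1 (tf a q k) ≤ (a + q) ^ ((k : ℕ) + 2) := by
  unfold tf
  refine (N1_add _ _).trans ?_
  have h2 : N1 (X k : G m) = 1 := by
    have := N1_monomial (m := m) (Finsupp.single k 1) 1
    simpa [X] using this
  have h3 := N1_mul (C ((a : ℤ) ^ ((k : ℕ) + 2)) : G m) (X k)
  rw [h2, mul_one, N1_C, Int.natAbs_pow, Int.natAbs_natCast] at h3
  rw [N1_C, Int.natAbs_pow, Int.natAbs_natCast]
  refine (Nat.add_le_add_right h3 _).trans ?_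
  have h5 : a ^ ((k : ℕ) + 1) ≤ (a + q) ^ ((k : ℕ) + 1) := Nat.pow_le_pow_left (by omega) _
  have h6 : q ^ ((k : ℕ) + 1) ≤ (a + q) ^ ((k : ℕ) + 1) := Nat.pow_le_pow_left (by omega) _
  rw [pow_succ a, pow_succ q, pow_succ (a + q), Nat.mul_add]
  exact Nat.add_le_add (Nat.mul_le_mul_right _ h5) (Nat.mul_le_mul_right _ h6)

theorem totalDegree_tf (a q : ℕ) (k : Fin m) : (tf a q k).totalDegree ≤ 1 := by
  unfold tf
  refine (totalDegree_add _ _).trans (max_le ?_ ?_)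
  · refine (totalDegree_mul _ _).trans ?_
    rw [totalDegree_C, zero_add, totalDegree_X]
  · rw [totalDegree_C]
    exact Nat.zero_le _

theorem N1_trn {a q w : ℕ} {P : G m} (hw : ∀ γ ∈ P.support, wt γ ≤ w) :
    N1 (trn a q w P) ≤ N1 P * (a + q) ^ w := by
  have h4 : ∀ γ : Fin m →₀ ℕ, N1 (∏ k, tf a q k ^ γ k : G m) ≤ (a + q) ^ wt γ := by
    intro γ
    refine (N1_prod _ _).trans ?_
    unfold wt
    rw [← Finset.prod_pow_eq_pow_sum]
    refine Finset.prod_le_prod' fun k _ => ?_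
    refine (N1_pow _ _).trans ?_
    rw [mul_comm, pow_mul]
    exact Nat.pow_le_pow_left (N1_tf a q k) _
  unfold trn
  refine (N1_sum _ _).trans ?_
  have h0 : N1 P = ∑ γ ∈ P.support, (P.coeff γ).natAbs := rfl
  rw [h0, Finset.sum_mul]
  refine Finset.sum_le_sum fun γ hγ => ?_
  refine (N1_mul _ _).trans ?_
  rw [N1_C, Int.natAbs_mul, Int.natAbs_pow, Int.natAbs_natCast]
  calc (P.coeff γ).natAbs * a ^ (w - wt γ) * N1 (∏ k, tf a q k ^ γ k)
      ≤ (P.coeff γ).natAbs * (a + q) ^ (w - wt γ) * (a + q) ^ wt γ :=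
        Nat.mul_le_mul (Nat.mul_le_mul_left _ (Nat.pow_le_pow_left (by omega) _)) (h4 γ)
    _ = (P.coeff γ).natAbs * (a + q) ^ w := by
        rw [mul_assoc, ← pow_add, Nat.sub_add_cancel (hw γ hγ)]

theorem totalDegree_trn {a q w D : ℕ} {P : G m} (hP : P.totalDegree ≤ D) :
    (trn a q w P).totalDegree ≤ D := by
  unfold trn
  refine (totalDegree_finsetSum _ _).trans (Finset.sup_le fun γ hγ => ?_)
  refine (totalDegree_mul _ _).trans ?_
  rw [totalDegree_C, zero_add]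
  refine (totalDegree_finsetProd _ _).trans ?_
  have h1 : ∀ k : Fin m, (tf a q k ^ γ k).totalDegree ≤ γ k := by
    intro k
    refine (totalDegree_pow _ _).trans ?_
    calc _ ≤ γ k * 1 := Nat.mul_le_mul_left _ (totalDegree_tf a q k)
      _ = γ k := mul_one _
  refine (Finset.sum_le_sum fun k _ => h1 k).trans ?_
  rw [← Finsupp.degree_eq_sum]
  exact (le_totalDegree hγ).trans hP

theorem trn_ne_zero {a q w : ℕ} (ha : a ≠ 0) {P : G m} (hP : P ≠ 0)
    (hw : ∀ γ ∈ P.support, wt γ ≤ w) : trn a q w P ≠ 0 := by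
  intro h0
  apply hP
  have ha' : (a : ℂ) ^ w ≠ 0 := pow_ne_zero _ (Nat.cast_ne_zero.2 ha)
  have h1 : MvPolynomial.map (algebraMap ℤ ℂ) P = 0 := by
    refine MvPolynomial.funext fun x => ?_
    have h2 := aeval_trn (q := q) ha hw (fun k => x k - ((q : ℂ) / a) ^ ((k : ℕ) + 2))
    rw [h0, map_zero] at h2
    rcases mul_eq_zero.1 h2.symm with h3 | h3
    · exact absurd h3 ha'
    · rw [map_zero, eval_map, ← aeval_def]
      simpa using h3
  exact (map_injective _ (algebraMap ℤ ℂ).injective_int) (by rw [h1, map_zero])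

/-! ### constants -/

/-- the coefficients are bounded by the l1 norm -/
theorem natAbs_coeff_le (P : G m) (d : Fin m →₀ ℕ) : (P.coeff d).natAbs ≤ N1 P := by
  by_cases h : d ∈ P.support
  · exact Finset.single_le_sum (f := fun d => (P.coeff d).natAbs) (fun _ _ => Nat.zero_le _) h
  · rw [notMem_support_iff.1 h]
    exact Nat.zero_le _

theorem N1_le_card {D H : ℕ} {P : G m} (hP : P.totalDegree ≤ D) (hH : ∀ d, (P.coeff d).natAbs ≤ H) :
    N1 P ≤ (mons m D).card * H := by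
  have hsub : P.support ⊆ mons m D := by
    intro d hd
    rw [mem_mons]
    exact (le_totalDegree hd).trans hP
  rw [N1_eq_sum P _ hsub]
  refine (Finset.sum_le_sum fun d _ => hH d).trans ?_
  rw [Finset.sum_const, smul_eq_mul]

theorem one_le_card_mons (m D : ℕ) : 1 ≤ (mons m D).card := by
  refine Finset.card_pos.2 ⟨0, ?_⟩
  rw [mem_mons]
  simp

theorem wt_le' {D : ℕ} {P : G m} (hP : P.totalDegree ≤ D) : ∀ γ ∈ P.support, wt γ ≤ (m + 1) * D := by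
  intro γ hγ
  have h1 : γ.degree ≤ D := (le_totalDegree hγ).trans hP
  unfold wt
  calc ∑ k, γ k * ((k : ℕ) + 2) ≤ ∑ k, γ k * (m + 1) := by
        refine Finset.sum_le_sum fun k _ => Nat.mul_le_mul_left _ ?_
        have := k.2
        omega
    _ = (∑ k, γ k) * (m + 1) := by rw [Finset.sum_mul]
    _ ≤ (m + 1) * D := by
        rw [mul_comm]
        refine Nat.mul_le_mul_left _ ?_
        rwa [← Finsupp.degree_eq_sum]

/-- the local statement for the functions `ht m` on `[1, b + 1]` -/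
def LocHt (m D b : ℕ) (ε : ℝ) (C : ℕ) : Prop :=
  ∀ T H : ℕ, 2 ≤ T → 2 ≤ H → ∀ (t : ℝ) (S : Finset ℚ),
    (∀ s ∈ S, (1 : ℝ) ≤ s ∧ (s : ℝ) ≤ (b : ℝ) + 1 ∧ |(s : ℝ) - t| ≤ (T : ℝ) ^ (-ε) ∧ s.den ≤ T ∧
      ∃ P : G m, P ≠ 0 ∧ P.totalDegree ≤ D ∧ (∀ d, (P.coeff d).natAbs ≤ H) ∧
        ‖MvPolynomial.aeval (fun j => ht m j (s : ℂ)) P‖ < Real.exp (-(C * Real.log (T * H)) ^ C)) →
    (S.card : ℝ) ≤ (C * Real.log (T * H)) ^ C

theorem ht_add_one (m : ℕ) (k : Fin m) (x : ℚ) (hx : 0 < x) :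
    ht m k ((x : ℂ) + 1) + ((x.den : ℂ) / (x.num.toNat : ℂ)) ^ ((k : ℕ) + 2) = ht m k x := by
  have h1 : (0 : ℝ) < ((x : ℂ)).re := by
    rw [Complex.ratCast_re]
    exact_mod_cast hx
  have h2 := hz_add_one ((k : ℕ) + 2) (by omega) (x : ℂ) h1
  have h3 : ((x.num.toNat : ℕ) : ℂ) = (x.num : ℂ) := by
    have : ((x.num.toNat : ℕ) : ℤ) = x.num := Int.toNat_of_nonneg (Rat.num_pos.2 hx).le
    exact_mod_cast congrArg (fun z : ℤ => (z : ℂ)) this
  have h4 : (x : ℂ) = (x.num : ℂ) / (x.den : ℂ) := by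
    exact_mod_cast congrArg (fun z : ℚ => (z : ℂ)) (Rat.num_div_den x).symm
  have h5 : ((x.den : ℂ) / (x.num.toNat : ℂ)) ^ ((k : ℕ) + 2) = 1 / (x : ℂ) ^ ((k : ℕ) + 2) := by
    rw [h3, one_div, ← inv_pow]
    congr 1
    rw [h4, inv_div]
  unfold ht
  rw [h2, h5]
  ring

theorem half (m D b : ℕ) (hb : 1 ≤ b) (ε : ℝ) (C₀ : ℕ) (hC₀ : 1 ≤ C₀) (h : LocHt m D b ε C₀) :
    ∃ C : ℕ, ∀ T H : ℕ, 2 ≤ T → 2 ≤ H → ∀ (t : ℝ) (S : Finset ℚ),
    (∀ x ∈ S, 0 < x ∧ (x : ℝ) ≤ b ∧ |(x : ℝ) - t| ≤ (T : ℝ) ^ (-ε) ∧ x.den ≤ T ∧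
      ∃ P : G m, P ≠ 0 ∧ P.totalDegree ≤ D ∧ (∀ d, (P.coeff d).natAbs ≤ H) ∧
        ‖MvPolynomial.aeval (fun j => ht m j (x : ℂ)) P‖ < Real.exp (-Real.log (T * H) ^ C)) →
    (S.card : ℝ) ≤ Real.log (T * H) ^ C := by
  classical
  obtain ⟨w, hw⟩ : ∃ w, w = (m + 1) * D := ⟨_, rfl⟩
  obtain ⟨ν, hν⟩ : ∃ ν, ν = (mons m D).card := ⟨_, rfl⟩
  obtain ⟨c₁, hc₁⟩ : ∃ c₁, c₁ = w + 1 + ν + w * (b + 1) := ⟨_, rfl⟩
  have hν1 : 1 ≤ ν := hν ▸ one_le_card_mons m D
  obtain ⟨C₂, hC₂⟩ := pow_unbounded_of_one_lt (2 * ((C₀ : ℝ) * c₁) ^ C₀) (by norm_num : (1 : ℝ) < 1.3)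
  refine ⟨C₀ + C₂, fun T H hT hH t S hS => ?_⟩
  -- `ℓ = log (T H)`
  obtain ⟨ℓ, hℓ⟩ : ∃ ℓ, ℓ = Real.log (T * H) := ⟨_, rfl⟩
  have hT' : (2 : ℝ) ≤ T := by exact_mod_cast hT
  have hH' : (2 : ℝ) ≤ H := by exact_mod_cast hH
  have hℓ1 : 1.3 ≤ ℓ := by
    have h1 : Real.log 4 ≤ ℓ := by
      rw [hℓ]
      exact Real.log_le_log (by norm_num) (by nlinarith)
    have h2 : Real.log 4 = 2 * Real.log 2 := by
      rw [show (4 : ℝ) = 2 ^ 2 by norm_num, Real.log_pow]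
      norm_num
    have := Real.log_two_gt_d9
    linarith
  have hℓT : Real.log T ≤ ℓ := by
    rw [hℓ]
    exact Real.log_le_log (by linarith) (by nlinarith)
  have hlogT : 0 ≤ Real.log T := Real.log_nonneg (by linarith)
  -- the new height
  obtain ⟨H', hH'def⟩ : ∃ H', H' = ν * H * ((b + 1) * T) ^ w := ⟨_, rfl⟩
  have hbT : 1 ≤ ((b + 1) * T) ^ w := Nat.one_le_pow _ _ (Nat.mul_pos (by omega) (by omega))
  have hH2 : 2 ≤ H' := by
    rw [hH'def]
    calc 2 ≤ H := hH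
      _ = 1 * H * 1 := by ring
      _ ≤ ν * H * ((b + 1) * T) ^ w := Nat.mul_le_mul (Nat.mul_le_mul_right _ hν1) hbT
  have hlogbT : Real.log (((b + 1) * T : ℕ) : ℝ) ≤ (b + 1) + Real.log T := by
    rw [Nat.cast_mul, Real.log_mul (by positivity) (by linarith)]
    have := Real.log_le_self (x := ((b + 1 : ℕ) : ℝ)) (by positivity)
    push_cast at this ⊢
    linarith
  have hlog : Real.log (T * H') ≤ c₁ * ℓ := by
    have e1 : (T : ℝ) * H' = (T * H : ℝ) * ν * (((b + 1) * T : ℕ) : ℝ) ^ w := by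
      rw [hH'def]
      push_cast
      ring
    have hνpos : (0 : ℝ) < ν := by exact_mod_cast hν1
    have hbTpos : (0 : ℝ) < (((b + 1) * T : ℕ) : ℝ) := by
      exact_mod_cast Nat.mul_pos (by omega) (by omega)
    rw [e1, Real.log_mul (by positivity) (by positivity), Real.log_mul (by positivity) hνpos.ne',
      Real.log_pow, ← hℓ]
    have h1 := Real.log_le_self (x := (ν : ℝ)) hνpos.le
    have h2 : (w : ℝ) * Real.log (((b + 1) * T : ℕ) : ℝ) ≤ w * ((b + 1) + ℓ) :=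
      mul_le_mul_of_nonneg_left (hlogbT.trans (by linarith)) (Nat.cast_nonneg _)
    have h3 : (c₁ : ℝ) = w + 1 + ν + w * (b + 1) := by
      rw [hc₁]
      push_cast
      ring
    rw [h3]
    have h4 : (0 : ℝ) ≤ w * (b + 1) * (ℓ - 1) :=
      mul_nonneg (by positivity) (by linarith)
    have h5 : (0 : ℝ) ≤ ν * (ℓ - 1) := mul_nonneg hνpos.le (by linarith)
    nlinarith
  have hlog0 : 0 ≤ Real.log (T * H') := Real.log_nonneg (by
    have : (2 : ℝ) ≤ H' := by exact_mod_cast hH2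
    nlinarith)
  have hc₁1 : (1 : ℝ) ≤ c₁ := by
    rw [hc₁]
    push_cast
    have : (0 : ℝ) ≤ w * (b + 1) := by positivity
    have : (0 : ℝ) ≤ w := by positivity
    have : (0 : ℝ) ≤ ν := by positivity
    linarith
  have hC₀' : (1 : ℝ) ≤ C₀ := by exact_mod_cast hC₀
  have hbase : c₁ * ℓ ≤ C₀ * c₁ * ℓ := by nlinarith [mul_nonneg (by linarith : (0:ℝ) ≤ c₁) (by linarith : (0:ℝ) ≤ ℓ)]
  have hbig : 2 * (C₀ * c₁ * ℓ) ^ C₀ ≤ ℓ ^ (C₀ + C₂) := by
    have h1 : (1.3 : ℝ) ^ C₂ ≤ ℓ ^ C₂ := pow_le_pow_left₀ (by norm_num) hℓ1 _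
    calc 2 * (C₀ * c₁ * ℓ) ^ C₀ = (2 * ((C₀ : ℝ) * c₁) ^ C₀) * ℓ ^ C₀ := by
          rw [mul_pow]
          ring
      _ ≤ ℓ ^ C₂ * ℓ ^ C₀ := by
          refine mul_le_mul_of_nonneg_right (hC₂.le.trans h1) (by positivity)
      _ = ℓ ^ (C₀ + C₂) := by
          rw [← pow_add, add_comm]
  have hself : c₁ * ℓ ≤ (C₀ * c₁ * ℓ) ^ C₀ := by
    have h1 : (1 : ℝ) ≤ C₀ * c₁ * ℓ := by nlinarith
    exact hbase.trans (le_self_pow₀ h1 (by omega))
  have hpow : (C₀ * Real.log (T * H')) ^ C₀ ≤ (C₀ * c₁ * ℓ) ^ C₀ := by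
    refine pow_le_pow_left₀ (by positivity) ?_ _
    rw [mul_assoc]
    exact mul_le_mul_of_nonneg_left hlog (by positivity)
  -- the translated points
  have hkey := h T H' hT hH2 (t + 1) (S.image fun x => x + 1) ?_
  · rw [Finset.card_image_of_injective _ (add_left_injective 1)] at hkey
    refine hkey.trans (hpow.trans ?_)
    rw [← hℓ]
    have : (0 : ℝ) ≤ (C₀ * c₁ * ℓ) ^ C₀ := by positivity
    linarith
  intro s hs
  obtain ⟨x, hx, rfl⟩ := Finset.mem_image.1 hs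
  obtain ⟨hx0, hxb, hxt, hxT, P, hP0, hPD, hPH, hPs⟩ := hS x hx
  have hden : (x + 1).den = x.den := by
    simp
  have hnum : 0 < x.num := Rat.num_pos.2 hx0
  obtain ⟨a, ha⟩ : ∃ a, a = x.num.toNat := ⟨_, rfl⟩
  have ha0 : a ≠ 0 := by omega
  have haZ : (a : ℤ) = x.num := by omega
  have hab : a ≤ b * x.den := by
    have h1 : (x : ℝ) * x.den = a := by
      have h2 : x * x.den = x.num := Rat.mul_den_eq_num x
      have h3 : ((x * x.den : ℚ) : ℝ) = ((x.num : ℚ) : ℝ) := by rw [h2]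
      push_cast at h3
      rw [h3]
      exact_mod_cast congrArg (fun z : ℤ => (z : ℝ)) haZ.symm
    have h2 : (x : ℝ) * x.den ≤ b * x.den := mul_le_mul_of_nonneg_right hxb (Nat.cast_nonneg _)
    rw [h1] at h2
    exact_mod_cast h2
  have haT : a ≤ b * T := hab.trans (Nat.mul_le_mul_left _ hxT)
  have hsum : a + x.den ≤ (b + 1) * T := by
    rw [Nat.add_mul, one_mul]
    exact Nat.add_le_add haT hxT
  have hwP : ∀ γ ∈ P.support, wt γ ≤ w := by
    rw [hw]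
    exact wt_le' hPD
  refine ⟨?_, ?_, ?_, ?_, trn a x.den w P, trn_ne_zero ha0 hP0 hwP, totalDegree_trn hPD, ?_, ?_⟩
  · push_cast
    have : (0 : ℝ) < x := by exact_mod_cast hx0
    linarith
  · push_cast
    linarith
  · push_cast
    rwa [add_sub_add_right_eq_sub]
  · rw [hden]
    exact hxT
  · intro d
    refine (natAbs_coeff_le _ d).trans ((N1_trn hwP).trans ?_)
    rw [hH'def, hν]
    exact Nat.mul_le_mul (N1_le_card hPD hPH) (Nat.pow_le_pow_left hsum _)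
  · have h1 : aeval (fun j => ht m j (((x + 1 : ℚ)) : ℂ)) (trn a x.den w P) =
        (a : ℂ) ^ w * aeval (fun j => ht m j (x : ℂ)) P := by
      rw [aeval_trn ha0 hwP]
      congr 2
      congr 1
      funext k
      rw [ha, ← ht_add_one m k x hx0]
      push_cast
      rfl
    rw [h1, norm_mul, norm_pow, Complex.norm_natCast]
    have h2 : (a : ℝ) ^ w ≤ Real.exp (c₁ * ℓ) := by
      have h3 : (a : ℝ) ≤ (((b + 1) * T : ℕ) : ℝ) := by
        exact_mod_cast haT.trans (Nat.mul_le_mul_right _ (by omega))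
      have hbTpos : (0 : ℝ) < (((b + 1) * T : ℕ) : ℝ) := by
        exact_mod_cast Nat.mul_pos (by omega) (by omega)
      calc (a : ℝ) ^ w ≤ (((b + 1) * T : ℕ) : ℝ) ^ w := pow_le_pow_left₀ (Nat.cast_nonneg _) h3 _
        _ = Real.exp (w * Real.log (((b + 1) * T : ℕ) : ℝ)) := by
            rw [Real.exp_nat_mul, Real.exp_log hbTpos]
        _ ≤ Real.exp (c₁ * ℓ) := by
            refine Real.exp_le_exp.2 ?_
            have h4 : (w : ℝ) * Real.log (((b + 1) * T : ℕ) : ℝ) ≤ w * ((b + 1) + ℓ) :=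
              mul_le_mul_of_nonneg_left (hlogbT.trans (by linarith)) (Nat.cast_nonneg _)
            have h5 : (c₁ : ℝ) = w + 1 + ν + w * (b + 1) := by
              rw [hc₁]
              push_cast
              ring
            rw [h5]
            have h6 : (0 : ℝ) ≤ w * (b + 1) * (ℓ - 1) := mul_nonneg (by positivity) (by linarith)
            have h7 : (0 : ℝ) ≤ ν * ℓ := mul_nonneg (by positivity) (by linarith)
            nlinarith
    calc (a : ℝ) ^ w * ‖aeval (fun j => ht m j (x : ℂ)) P‖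
        < Real.exp (c₁ * ℓ) * Real.exp (-ℓ ^ (C₀ + C₂)) := by
          have h3 : ‖aeval (fun j => ht m j (x : ℂ)) P‖ < Real.exp (-ℓ ^ (C₀ + C₂)) := by
            rw [hℓ]
            exact hPs
          exact mul_lt_mul_of_le_of_lt_of_nonneg_of_pos h2 h3 (norm_nonneg _) (Real.exp_pos _)
      _ = Real.exp (c₁ * ℓ - ℓ ^ (C₀ + C₂)) := by rw [← Real.exp_add]; ring_nf
      _ ≤ Real.exp (-(C₀ * Real.log (T * H')) ^ C₀) := by
          refine Real.exp_le_exp.2 ?_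
          linarith

end Pool.Agent.Lib.MP_524521_nt.RA
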