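import Mathlib
import Pool.Agent.Lib.MP_524521_nt.RA.Minor

/-! Linear algebra over a domain for the key lemma. -/

namespace Pool.Agent.Lib.MP_524521_nt.RA

theorem li_of_minor {R : Type} [CommRing R] [IsDomain R] {ι κ : Type} [Fintype ι] [DecidableEq ι]
    (v : ι → κ → R) (g : ι → κ) (hdet : (Matrix.of fun i j => v i (g j)).det ≠ 0) :
    LinearIndependent R v := by
  rw [Fintype.linearIndependent_iff]
  intro a ha i
  have h1 : Matrix.vecMul a (Matrix.of fun i j => v i (g j)) = 0 := by
    funext j
    have := congrFun ha (g j)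
    simpa [Matrix.vecMul, dotProduct, Finset.sum_apply] using this
  exact congrFun (Matrix.eq_zero_of_vecMul_eq_zero hdet h1) i

/-- Cramer's rule for a dependent row -/
theorem cramer_rel {R : Type} [CommRing R] [IsDomain R] {ι κ : Type} [Fintype ι] [DecidableEq ι]
    (v : ι → κ → R) (w : κ → R) (g : ι → κ)
    (hdet : (Matrix.of fun i j => v i (g j)).det ≠ 0) (a : ι → R) (b : R) (hb : b ≠ 0)
    (hab : b • w + ∑ i, a i • v i = 0) :
    (Matrix.of fun i j => v i (g j)).det • w =
      ∑ i, ((Matrix.of fun i j => v i (g j)).updateRow i (fun j => w (g j))).det • v i := by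
  set M : Matrix ι ι R := Matrix.of fun i j => v i (g j) with hM
  set x : ι → R := fun i => (M.updateRow i (fun j => w (g j))).det with hx
  have hx' : x = Matrix.cramer M.transpose (fun j => w (g j)) := by
    funext i
    rw [Matrix.cramer_transpose_apply]
  have h1 : Matrix.vecMul x M = M.det • (fun j => w (g j)) := by
    rw [hx', ← Matrix.mulVec_transpose, Matrix.mulVec_cramer, Matrix.det_transpose]
  have h2 : Matrix.vecMul (fun i => b * x i + M.det * a i) M = 0 := by
    have e1 : (fun i => b * x i + M.det * a i) = b • x + M.det • a := by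
      funext i; simp
    have e2 : Matrix.vecMul a M = - (b • fun j => w (g j)) := by
      funext j
      have := congrFun hab (g j)
      simp only [Pi.add_apply, Pi.smul_apply, smul_eq_mul, Finset.sum_apply, Pi.zero_apply] at this
      simp only [Matrix.vecMul, dotProduct, hM, Matrix.of_apply, Pi.neg_apply, Pi.smul_apply,
        smul_eq_mul]
      linear_combination this
    rw [e1, Matrix.add_vecMul, Matrix.smul_vecMul, Matrix.smul_vecMul, h1, e2]
    funext j
    simp only [Pi.add_apply, Pi.smul_apply, smul_eq_mul, Pi.neg_apply, Pi.zero_apply]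
    ring
  have h3 := Matrix.eq_zero_of_vecMul_eq_zero hdet h2
  have h4 : b • (M.det • w - ∑ i, x i • v i) = 0 := by
    have e3 : b • (M.det • w - ∑ i, x i • v i) =
        M.det • (b • w + ∑ i, a i • v i) - ∑ i, (b * x i + M.det * a i) • v i := by
      rw [smul_add, smul_sub, smul_smul, smul_smul, mul_comm b, Finset.smul_sum, Finset.smul_sum,
        add_sub_assoc, ← Finset.sum_sub_distrib, sub_eq_add_neg, ← Finset.sum_neg_distrib]
      congr 1
      refine Finset.sum_congr rfl fun i _ => ?_
      rw [smul_smul, smul_smul, ← sub_smul, ← neg_smul]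
      congr 1
      ring
    rw [e3, hab, smul_zero, zero_sub, neg_eq_zero]
    refine Finset.sum_eq_zero fun i _ => ?_
    have := congrFun h3 i
    simp only [Pi.zero_apply] at this
    rw [this, zero_smul]
  have h5 : M.det • w - ∑ i, x i • v i = 0 := by
    rcases smul_eq_zero.1 h4 with h | h
    · exact absurd h hb
    · exact h
  exact sub_eq_zero.1 h5

theorem indep_iff {R : Type} [CommRing R] [IsDomain R] {r : ℕ} {τ κ : Type} [DecidableEq τ]
    (P : Fin r → κ → R) (l : τ → κ → R) (Θ : Finset τ) :
    LinearIndependent R (Sum.elim P (fun θ : Θ => l θ.1)) ↔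
      ∀ (y : Fin r → R) (x : τ → R), (∑ θ ∈ Θ, x θ • l θ) + (∑ k, y k • P k) = 0 →
        (∀ k, y k = 0) ∧ ∀ θ ∈ Θ, x θ = 0 := by
  rw [Fintype.linearIndependent_iff]
  constructor
  · intro h y x hxy
    have h1 := h (Sum.elim y (fun θ : Θ => x θ.1)) (by
      rw [Fintype.sum_sum_type]
      simp only [Sum.elim_inl, Sum.elim_inr]
      rw [Finset.sum_coe_sort Θ (fun θ => x θ • l θ), add_comm]
      exact hxy)
    exact ⟨fun k => h1 (Sum.inl k), fun θ hθ => h1 (Sum.inr ⟨θ, hθ⟩)⟩
  · intro h a ha
    have h1 := h (fun k => a (Sum.inl k)) (fun θ => if hθ : θ ∈ Θ then a (Sum.inr ⟨θ, hθ⟩) else 0) (by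
      rw [Fintype.sum_sum_type] at ha
      simp only [Sum.elim_inl, Sum.elim_inr] at ha
      rw [← Finset.sum_coe_sort Θ, add_comm]
      rw [← ha]
      congr 1
      refine Finset.sum_congr rfl fun θ _ => ?_
      rw [dif_pos θ.2])
    rintro (k | θ)
    · exact h1.1 k
    · have := h1.2 θ.1 θ.2
      rwa [dif_pos θ.2] at this

open Polynomial in
/-- degree of a determinant -/
theorem natDegree_det_le {R : Type} [CommRing R] {ι : Type} [Fintype ι] [DecidableEq ι]
    (M : Matrix ι ι R[X]) (A : ℕ) (h : ∀ i j, (M i j).natDegree ≤ A) :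
    M.det.natDegree ≤ Fintype.card ι * A := by
  rw [Matrix.det_apply]
  refine Polynomial.natDegree_sum_le_of_forall_le _ _ fun σ _ => ?_
  refine (Polynomial.natDegree_smul_le _ _).trans ?_
  refine (Polynomial.natDegree_prod_le _ _).trans ?_
  refine (Finset.sum_le_card_nsmul _ _ A fun i _ => h _ _).trans ?_
  simp

end Pool.Agent.Lib.MP_524521_nt.RA
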