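import Mathlib
import Pool.Agent.Lib.MP_524521_nt.RA.Defs
import Pool.Agent.Lib.MP_524521_nt.RA.Cramer

/-! The key lemma (1c): relations `P` and the rows `l_θ`, `θ ∈ Θ₁` free, are independent. -/

open Polynomial

namespace Pool.Agent.Lib.MP_524521_nt.RA

/-- evaluation of the first variable at `t` -/
noncomputable def evQ {m : ℕ} (t : ℚ) : Polynomial (G m) →+* MvPolynomial (Fin m) ℚ :=
  Polynomial.eval₂RingHom (MvPolynomial.map (Int.castRingHom ℚ)) (MvPolynomial.C t)

/-- the coefficient of the monomial `d`, a polynomial in the first variable -/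
noncomputable def cp {m : ℕ} (N : ℕ) (d : Fin m →₀ ℕ) (x : Polynomial (G m)) : ℚ[X] :=
  ∑ n ∈ Finset.range N, Polynomial.monomial n ((MvPolynomial.coeff d (x.coeff n) : ℤ) : ℚ)

theorem coeff_mul_C' {m : ℕ} (d : Fin m →₀ ℕ) (p : MvPolynomial (Fin m) ℚ) (a : ℚ) :
    MvPolynomial.coeff d (p * MvPolynomial.C a) = MvPolynomial.coeff d p * a := by
  rw [mul_comm, MvPolynomial.coeff_C_mul, mul_comm]

theorem coeff_ev {m : ℕ} (N : ℕ) (d : Fin m →₀ ℕ) (x : Polynomial (G m)) (hx : x.natDegree < N)
    (t : ℚ) : MvPolynomial.coeff d (evQ t x) = (cp N d x).eval t := by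
  have h1 : evQ t x = ∑ n ∈ Finset.range N,
      MvPolynomial.map (Int.castRingHom ℚ) (x.coeff n) * MvPolynomial.C t ^ n := by
    rw [evQ, Polynomial.coe_eval₂RingHom, Polynomial.eval₂_eq_sum_range' _ hx]
  rw [h1, MvPolynomial.coeff_sum, cp, Polynomial.eval_finsetSum]
  refine Finset.sum_congr rfl fun n _ => ?_
  rw [← map_pow, coeff_mul_C', MvPolynomial.coeff_map, Polynomial.eval_monomial]
  simp

theorem cp_degree {m : ℕ} (N : ℕ) (d : Fin m →₀ ℕ) (x : Polynomial (G m)) :
    (cp N d x).degree < N := by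
  rw [← Polynomial.mem_degreeLT]
  refine Submodule.sum_mem _ fun n hn => ?_
  rw [Polynomial.mem_degreeLT]
  refine (Polynomial.degree_monomial_le _ _).trans_lt ?_
  exact_mod_cast Finset.mem_range.1 hn

theorem cp_coeff {m : ℕ} (N : ℕ) (d : Fin m →₀ ℕ) (x : Polynomial (G m)) (n : ℕ) (hn : n < N) :
    (cp N d x).coeff n = ((MvPolynomial.coeff d (x.coeff n) : ℤ) : ℚ) := by
  rw [cp, Polynomial.finsetSum_coeff, Finset.sum_eq_single n]
  · simp
  · intro k _ hk
    rw [Polynomial.coeff_monomial, if_neg hk]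
  · intro h
    exact absurd (Finset.mem_range.2 hn) h

theorem eq_zero_of_cp {m : ℕ} (N : ℕ) (x : Polynomial (G m)) (hx : x.natDegree < N)
    (h : ∀ d, cp N d x = 0) : x = 0 := by
  ext n d
  rcases lt_or_ge n N with hn | hn
  · have h1 := cp_coeff N d x n hn
    rw [h d, Polynomial.coeff_zero] at h1
    have h2 : MvPolynomial.coeff d (x.coeff n) = 0 := by exact_mod_cast h1.symm
    rw [h2]; simp
  · rw [Polynomial.coeff_eq_zero_of_natDegree_lt (lt_of_lt_of_le hx hn)]
    simp

theorem mval_cons {Γ : Type} {R : Type} [CommMonoid R] {B : ℕ} (x : Γ → R) (γ : Γ) (θ : Sym Γ B) :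
    mval x (γ ::ₛ θ) = x γ * mval x θ := by
  unfold mval
  have : (γ ::ₛ θ).1 = γ ::ₘ θ.1 := rfl
  rw [this, Multiset.map_cons, Multiset.prod_cons]

/-- the form `L` with the coefficients `c` -/
noncomputable def LL {m : ℕ} {Γ : Type} [Fintype Γ] (ex : Γ → (Fin m →₀ ℕ)) (c : Γ → ℤ) :
    MvPolynomial (Fin m) ℚ := ∑ γ, MvPolynomial.monomial (ex γ) ((c γ : ℤ) : ℚ)

theorem LL_ne_zero {m : ℕ} {Γ : Type} [Fintype Γ] (ex : Γ → (Fin m →₀ ℕ))
    (hex : Function.Injective ex) (c : Γ → ℤ) (hc : c ≠ 0) : LL ex c ≠ 0 := by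
  classical
  obtain ⟨γ, hγ⟩ := Function.ne_iff.1 hc
  intro h
  apply hγ
  have h1 : MvPolynomial.coeff (ex γ) (LL ex c) = ((c γ : ℤ) : ℚ) := by
    rw [LL, MvPolynomial.coeff_sum, Finset.sum_eq_single γ]
    · simp
    · intro γ' _ hne
      rw [MvPolynomial.coeff_monomial, if_neg (fun e => hne (hex e))]
    · intro h; exact absurd (Finset.mem_univ _) h
  rw [h, MvPolynomial.coeff_zero] at h1
  have : c γ = 0 := by exact_mod_cast h1.symm
  simpa using this

theorem evQ_C {m : ℕ} (t : ℚ) (x : G m) :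
    evQ t (Polynomial.C x) = MvPolynomial.map (Int.castRingHom ℚ) x := by
  rw [evQ, Polynomial.coe_eval₂RingHom, Polynomial.eval₂_C]

theorem pair_row {m : ℕ} {Γ : Type} [Fintype Γ] [DecidableEq Γ] (ex : Γ → (Fin m →₀ ℕ))
    (c : Γ → ℤ) {B : ℕ} (θ : Sym Γ B) (t : ℚ) :
    ∑ α : Sym Γ (B + 1), evQ t (Polynomial.C (row (fun γ =>
      (MvPolynomial.monomial (ex γ) (1 : ℤ) : G m)) θ α)) *
        MvPolynomial.C ((mval c α : ℤ) : ℚ) =
      LL ex c * MvPolynomial.C ((mval c θ : ℤ) : ℚ) := by
  have h1 : ∀ α : Sym Γ (B + 1), evQ t (Polynomial.C (row (fun γ =>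
      (MvPolynomial.monomial (ex γ) (1 : ℤ) : G m)) θ α)) *
        MvPolynomial.C ((mval c α : ℤ) : ℚ) =
      ∑ γ, if γ ::ₛ θ = α then MvPolynomial.monomial (ex γ) (1 : ℚ) *
        MvPolynomial.C ((mval c α : ℤ) : ℚ) else 0 := by
    intro α
    rw [evQ_C, row, map_sum, Finset.sum_mul]
    refine Finset.sum_congr rfl fun γ _ => ?_
    split_ifs with h
    · rw [MvPolynomial.map_monomial]
      simp
    · simp
  rw [Finset.sum_congr rfl fun α _ => h1 α, Finset.sum_comm, LL, Finset.sum_mul]
  refine Finset.sum_congr rfl fun γ _ => ?_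
  rw [Finset.sum_ite_eq, if_pos (Finset.mem_univ _), mval_cons]
  push_cast
  rw [map_mul, ← mul_assoc]
  congr 1
  rw [mul_comm, MvPolynomial.C_mul_monomial, mul_one]

theorem ev_map {m : ℕ} (t : ℚ) (p : ℤ[X]) :
    evQ (m := m) t (p.map (algebraMap ℤ (G m))) = MvPolynomial.C (aeval t p : ℚ) := by
  rw [evQ, Polynomial.coe_eval₂RingHom, Polynomial.eval₂_map]
  have h1 : (MvPolynomial.C (aeval t p : ℚ) : MvPolynomial (Fin m) ℚ) =
      MvPolynomial.C (Polynomial.eval₂ (Int.castRingHom ℚ) t p) := by
    rw [Polynomial.aeval_def]; rfl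
  rw [h1, Polynomial.hom_eval₂]
  congr 1
  exact RingHom.ext_int _ _

theorem pair_P {m : ℕ} {Γ : Type} [Fintype Γ] [DecidableEq Γ] (c : Γ → ℤ) {B : ℕ} (t : ℚ)
    (P : Sym Γ B → ℤ[X]) (hP : ∑ α, (aeval t (P α) : ℚ) * ((mval c α : ℤ) : ℚ) = 0) :
    ∑ α : Sym Γ B, evQ (m := m) t ((P α).map (algebraMap ℤ (G m))) *
      MvPolynomial.C ((mval c α : ℤ) : ℚ) = 0 := by
  have h1 : ∀ α : Sym Γ B, evQ (m := m) t ((P α).map (algebraMap ℤ (G m))) *
      MvPolynomial.C ((mval c α : ℤ) : ℚ) =
      MvPolynomial.C ((aeval t (P α) : ℚ) * ((mval c α : ℤ) : ℚ)) := by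
    intro α
    rw [ev_map, map_mul]
  rw [Finset.sum_congr rfl fun α _ => h1 α, ← map_sum, hP, map_zero]

/-- (M1c) the key lemma -/
theorem key_indep (m : ℕ) {Γ : Type} [Fintype Γ] [DecidableEq Γ] (ex : Γ → (Fin m →₀ ℕ))
    (hex : Function.Injective ex) {ι : Type} [Fintype ι] (s : ι → ℚ)
    (c : ι → Γ → ℤ) (hc : ∀ i, c i ≠ 0) (A A' B r : ℕ)
    (P : Fin r → Sym Γ (B + 1) → ℤ[X]) (hP : ∀ j α, (P j α).degree < A)
    (hPv : ∀ j i, ∑ α, (aeval (s i) (P j α) : ℚ) * ((mval (c i) α : ℤ) : ℚ) = 0)
    (hPi : LinearIndependent ℤ[X] P) (Θ₁ : Finset (Sym Γ B)) (hΘ : Free s c A' Θ₁)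
    (hA : Fintype.card (Sym Γ (B + 1)) * A < A') :
    LinearIndependent (Polynomial (G m)) (Sum.elim
        (fun (j : Fin r) (α : Sym Γ (B + 1)) => (P j α).map (algebraMap ℤ (G m)))
        (fun (θ : Θ₁) (α : Sym Γ (B + 1)) =>
          Polynomial.C (row (fun γ => (MvPolynomial.monomial (ex γ) (1 : ℤ) : G m)) θ.1 α))) := by
  classical
  obtain ⟨P', hP'⟩ : ∃ P' : Fin r → Sym Γ (B + 1) → Polynomial (G m),
      P' = fun j α => (P j α).map (algebraMap ℤ (G m)) := ⟨_, rfl⟩
  obtain ⟨l, hl⟩ : ∃ l : Sym Γ B → Sym Γ (B + 1) → Polynomial (G m),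
      l = fun θ α => Polynomial.C (row (fun γ =>
        (MvPolynomial.monomial (ex γ) (1 : ℤ) : G m)) θ α) := ⟨_, rfl⟩
  have hPdeg : ∀ j α, (P' j α).natDegree ≤ A := by
    intro j α
    rw [hP']
    refine (Polynomial.natDegree_map_le).trans ?_
    exact Polynomial.natDegree_le_of_degree_le (hP j α).le
  have hldeg : ∀ θ α, (l θ α).natDegree ≤ A := by
    intro θ α
    rw [hl]
    simp only [Polynomial.natDegree_C]
    exact Nat.zero_le _
  have main : ∀ Θ' : Finset (Sym Γ B), Θ' ⊆ Θ₁ →
      LinearIndependent (Polynomial (G m)) (Sum.elim P' (fun θ : Θ' => l θ.1)) := by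
    intro Θ'
    induction Θ' using Finset.induction_on with
    | empty =>
      intro _
      obtain ⟨g, hg, hdet⟩ := exists_minor P hPi
      have hli : LinearIndependent (Polynomial (G m)) P' := by
        refine li_of_minor P' g ?_
        have h1 : (Matrix.of fun i j => P' i (g j)) =
            (Polynomial.mapRingHom (algebraMap ℤ (G m))).mapMatrix
              (Matrix.of fun i j => P i (g j)) := by
          ext i j : 1
          rw [hP']; rfl
        rw [h1, ← RingHom.map_det]
        intro h0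
        apply hdet
        have hinj : Function.Injective (Polynomial.mapRingHom (algebraMap ℤ (G m))) := by
          rw [Polynomial.coe_mapRingHom]
          apply Polynomial.map_injective
          intro a b hab
          have : (MvPolynomial.C a : G m) = MvPolynomial.C b := by
            simpa [MvPolynomial.algebraMap_eq] using hab
          exact MvPolynomial.C_injective _ _ this
        apply hinj
        rw [h0, map_zero]
      rw [indep_iff]
      intro y x hxy
      rw [Finset.sum_empty, zero_add] at hxy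
      exact ⟨(Fintype.linearIndependent_iff.1 hli) y hxy, by simp⟩
    | insert θ0 Θ' h0 ih =>
      intro hsub
      have hθ0 : θ0 ∈ Θ₁ := hsub (Finset.mem_insert_self _ _)
      have hΘ' : Θ' ⊆ Θ₁ := fun θ hθ => hsub (Finset.mem_insert_of_mem hθ)
      have ih' := ih hΘ'
      obtain ⟨g, hg, hdet⟩ := exists_minor _ ih'
      rw [indep_iff]
      intro y x hxy
      rw [Finset.sum_insert h0] at hxy
      have hx0 : x θ0 = 0 := by
        by_contra hne
        have rel := cramer_rel (Sum.elim P' (fun θ : Θ' => l θ.1)) (l θ0) g hdet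
          (Sum.elim y (fun θ : Θ' => x θ.1)) (x θ0) hne (by
            rw [Fintype.sum_sum_type]
            simp only [Sum.elim_inl, Sum.elim_inr]
            rw [Finset.sum_coe_sort Θ' (fun θ => x θ • l θ), ← hxy]
            abel)
        obtain ⟨M, hM⟩ : ∃ M : Matrix (Fin r ⊕ Θ') (Fin r ⊕ Θ') (Polynomial (G m)),
          M = Matrix.of fun i j => (Sum.elim P' (fun θ : Θ' => l θ.1)) i (g j) := ⟨_, rfl⟩
        rw [← hM] at rel hdet
        have hcard : Fintype.card (Fin r ⊕ Θ') ≤ Fintype.card (Sym Γ (B + 1)) :=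
          Fintype.card_le_of_injective g hg
        have hMdeg : ∀ i j, (M i j).natDegree ≤ A := by
          intro i j
          rw [hM]
          rcases i with k | θ
          · exact hPdeg _ _
          · exact hldeg _ _
        have hbound : Fintype.card (Fin r ⊕ Θ') * A < A' :=
          lt_of_le_of_lt (Nat.mul_le_mul_right _ hcard) hA
        have hμdeg : M.det.natDegree < A' :=
          lt_of_le_of_lt (natDegree_det_le M A hMdeg) hbound
        obtain ⟨z, hz⟩ : ∃ z : Fin r ⊕ Θ' → Polynomial (G m),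
          z = fun i => (M.updateRow i (fun j => l θ0 (g j))).det := ⟨_, rfl⟩
        have hzdeg : ∀ i, (z i).natDegree < A' := by
          intro i
          rw [hz]
          refine lt_of_le_of_lt (natDegree_det_le _ A ?_) hbound
          intro i' j
          rw [Matrix.updateRow_apply]
          split_ifs
          · exact hldeg _ _
          · exact hMdeg _ _
        have rel' : ∀ α, M.det * l θ0 α = ∑ k, z (Sum.inl k) * P' k α +
            ∑ θ : Θ', z (Sum.inr θ) * l θ.1 α := by
          intro α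
          have := congrFun rel α
          rw [Fintype.sum_sum_type] at this
          simp only [Pi.smul_apply, smul_eq_mul, Pi.add_apply, Finset.sum_apply, Sum.elim_inl,
            Sum.elim_inr] at this
          rw [this, hz]
        -- evaluation at the points
        have hpt : ∀ i, evQ (s i) M.det * MvPolynomial.C ((mval (c i) θ0 : ℤ) : ℚ) -
            ∑ θ : Θ', evQ (s i) (z (Sum.inr θ)) * MvPolynomial.C ((mval (c i) θ.1 : ℤ) : ℚ) = 0 := by
          intro i
          have hL := LL_ne_zero ex hex (c i) (hc i)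
          have e1 : ∀ θ : Sym Γ B, ∑ α : Sym Γ (B + 1), evQ (s i) (l θ α) *
              MvPolynomial.C ((mval (c i) α : ℤ) : ℚ) =
              LL ex (c i) * MvPolynomial.C ((mval (c i) θ : ℤ) : ℚ) := by
            intro θ
            rw [hl]
            exact pair_row ex (c i) θ (s i)
          have e2 : ∀ k, ∑ α : Sym Γ (B + 1), evQ (s i) (P' k α) *
              MvPolynomial.C ((mval (c i) α : ℤ) : ℚ) = 0 := by
            intro k
            rw [hP']
            exact pair_P (c i) (s i) (P k) (hPv k i)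
          have e3 : ∑ α : Sym Γ (B + 1), evQ (s i) (M.det * l θ0 α) *
              MvPolynomial.C ((mval (c i) α : ℤ) : ℚ) =
              ∑ α : Sym Γ (B + 1), evQ (s i) (∑ k, z (Sum.inl k) * P' k α +
                ∑ θ : Θ', z (Sum.inr θ) * l θ.1 α) *
              MvPolynomial.C ((mval (c i) α : ℤ) : ℚ) :=
            Finset.sum_congr rfl fun α _ => by rw [rel']
          have e4 : ∑ α : Sym Γ (B + 1), evQ (s i) (M.det * l θ0 α) *
              MvPolynomial.C ((mval (c i) α : ℤ) : ℚ) =
              evQ (s i) M.det * (LL ex (c i) * MvPolynomial.C ((mval (c i) θ0 : ℤ) : ℚ)) := by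
            rw [← e1, Finset.mul_sum]
            refine Finset.sum_congr rfl fun α _ => ?_
            rw [map_mul, mul_assoc]
          have e5 : ∑ α : Sym Γ (B + 1), evQ (s i) (∑ k, z (Sum.inl k) * P' k α +
                ∑ θ : Θ', z (Sum.inr θ) * l θ.1 α) *
              MvPolynomial.C ((mval (c i) α : ℤ) : ℚ) =
              ∑ θ : Θ', evQ (s i) (z (Sum.inr θ)) *
                (LL ex (c i) * MvPolynomial.C ((mval (c i) θ.1 : ℤ) : ℚ)) := by
            have f1 : ∀ α : Sym Γ (B + 1), evQ (s i) (∑ k, z (Sum.inl k) * P' k α +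
                ∑ θ : Θ', z (Sum.inr θ) * l θ.1 α) *
                MvPolynomial.C ((mval (c i) α : ℤ) : ℚ) =
                (∑ k, evQ (s i) (z (Sum.inl k)) * (evQ (s i) (P' k α) *
                  MvPolynomial.C ((mval (c i) α : ℤ) : ℚ))) +
                ∑ θ : Θ', evQ (s i) (z (Sum.inr θ)) * (evQ (s i) (l θ.1 α) *
                  MvPolynomial.C ((mval (c i) α : ℤ) : ℚ)) := by
              intro α
              rw [map_add, map_sum, map_sum, add_mul, Finset.sum_mul, Finset.sum_mul]
              congr 1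
              · refine Finset.sum_congr rfl fun k _ => ?_
                rw [map_mul, mul_assoc]
              · refine Finset.sum_congr rfl fun k _ => ?_
                rw [map_mul, mul_assoc]
            rw [Finset.sum_congr rfl fun α _ => f1 α, Finset.sum_add_distrib, Finset.sum_comm]
            have f2 : ∑ k, ∑ α : Sym Γ (B + 1), evQ (s i) (z (Sum.inl k)) * (evQ (s i) (P' k α) *
                  MvPolynomial.C ((mval (c i) α : ℤ) : ℚ)) = 0 := by
              refine Finset.sum_eq_zero fun k _ => ?_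
              rw [← Finset.mul_sum, e2, mul_zero]
            rw [f2, zero_add, Finset.sum_comm]
            refine Finset.sum_congr rfl fun θ _ => ?_
            rw [← Finset.mul_sum, e1]
          have e6 : LL ex (c i) * (evQ (s i) M.det * MvPolynomial.C ((mval (c i) θ0 : ℤ) : ℚ) -
            ∑ θ : Θ', evQ (s i) (z (Sum.inr θ)) * MvPolynomial.C ((mval (c i) θ.1 : ℤ) : ℚ)) = 0 := by
            rw [mul_sub, Finset.mul_sum]
            have g1 : LL ex (c i) * (evQ (s i) M.det * MvPolynomial.C ((mval (c i) θ0 : ℤ) : ℚ)) =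
                evQ (s i) M.det * (LL ex (c i) * MvPolynomial.C ((mval (c i) θ0 : ℤ) : ℚ)) := by
              ring
            have g2 : ∑ θ : Θ', LL ex (c i) * (evQ (s i) (z (Sum.inr θ)) *
                MvPolynomial.C ((mval (c i) θ.1 : ℤ) : ℚ)) =
                ∑ θ : Θ', evQ (s i) (z (Sum.inr θ)) *
                (LL ex (c i) * MvPolynomial.C ((mval (c i) θ.1 : ℤ) : ℚ)) :=
              Finset.sum_congr rfl fun θ _ => by ring
            rw [g1, g2, ← e4, ← e5, e3, sub_self]
          rcases mul_eq_zero.1 e6 with h | h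
          · exact absurd h hL
          · exact h
        -- the coefficients
        apply hdet
        refine eq_zero_of_cp A' M.det hμdeg fun d => ?_
        have hp := hΘ (fun θ => if θ = θ0 then cp A' d M.det else
            if h : θ ∈ Θ' then -cp A' d (z (Sum.inr ⟨θ, h⟩)) else 0) ?_ ?_ ?_
        · have := congrFun hp θ0
          simpa using this
        · intro θ
          split_ifs
          · exact cp_degree _ _ _
          · rw [Polynomial.degree_neg]
            exact cp_degree _ _ _
          · rw [Polynomial.degree_zero]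
            exact WithBot.bot_lt_coe _
        · intro θ hθ
          have h1 : θ ≠ θ0 := fun e => hθ (e ▸ hθ0)
          have h2 : θ ∉ Θ' := fun e => hθ (hΘ' e)
          simp [h1, h2]
        · intro i
          have h1 := congrArg (MvPolynomial.coeff d) (hpt i)
          rw [MvPolynomial.coeff_sub, coeff_mul_C', MvPolynomial.coeff_sum,
            MvPolynomial.coeff_zero, coeff_ev A' d _ hμdeg] at h1
          have h2 : ∑ θ : Θ', MvPolynomial.coeff d (evQ (s i) (z (Sum.inr θ)) *
              MvPolynomial.C ((mval (c i) θ.1 : ℤ) : ℚ)) =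
              ∑ θ : Θ', (cp A' d (z (Sum.inr θ))).eval (s i) * ((mval (c i) θ.1 : ℤ) : ℚ) :=
            Finset.sum_congr rfl fun θ _ => by
              rw [coeff_mul_C', coeff_ev A' d _ (hzdeg _)]
          rw [h2] at h1
          rw [← Finset.sum_subset hsub, Finset.sum_insert h0, if_pos rfl, ← Finset.sum_coe_sort Θ',
            ← h1, sub_eq_add_neg, ← Finset.sum_neg_distrib]
          · congr 1
            refine Finset.sum_congr rfl fun θ _ => ?_
            have hne' : θ.1 ≠ θ0 := fun e => h0 (e ▸ θ.2)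
            rw [if_neg hne', dif_pos θ.2]
            simp
          · intro θ _ hθ
            have h1 : θ ≠ θ0 := fun e => hθ (e ▸ Finset.mem_insert_self _ _)
            have h2 : θ ∉ Θ' := fun e => hθ (Finset.mem_insert_of_mem e)
            simp [h1, h2]
      rw [hx0, zero_smul, zero_add] at hxy
      have h1 := (indep_iff P' l Θ').1 ih' y x hxy
      refine ⟨h1.1, ?_⟩
      intro θ hθ
      rcases Finset.mem_insert.1 hθ with rfl | hθ
      · exact hx0
      · exact h1.2 θ hθ
  have h := main Θ₁ (Finset.Subset.refl _)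
  rw [hP', hl] at h
  exact h

end Pool.Agent.Lib.MP_524521_nt.RA
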