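import Mathlib
import Pool.Agent.Lib.MP_524521_nt.RA.Defs

/-!
# The span of the relations and the Hilbert function
-/

open Polynomial

namespace Pool.Agent.Lib.MP_524521_nt.RA

variable {Γ : Type} [Fintype Γ] [DecidableEq Γ] {ι : Type} [Fintype ι]

/-- the `Q(X)`-span of the relations of degree `< A` in `X` and `B` in `c` -/
noncomputable def RelK (s : ι → ℚ) (c : ι → Γ → ℤ) (A B : ℕ) :
    Submodule (RatFunc ℚ) (Sym Γ B → RatFunc ℚ) :=
  Submodule.span (RatFunc ℚ) {v | ∃ p : Sym Γ B → ℚ[X], (∀ α, (p α).degree < A) ∧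
    (∀ i, ∑ α, (p α).eval (s i) * ((mval (c i) α : ℤ) : ℚ) = 0) ∧
    v = fun α => algebraMap ℚ[X] (RatFunc ℚ) (p α)}

/-- number of monomials of degree `B` minus the rank of the relations -/
noncomputable def fH (s : ι → ℚ) (c : ι → Γ → ℤ) (A B : ℕ) : ℕ :=
  Fintype.card (Sym Γ B) - Module.finrank (RatFunc ℚ) (RelK s c A B)

end Pool.Agent.Lib.MP_524521_nt.RA
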