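import Mathlib
import Pool.Agent.Lib.MP_524521_nt.RA.RelDefs
import Pool.Agent.Lib.MP_524521_nt.RA.Key

/-!
# Multiplication by linear forms, in coordinates indexed by the monomials
-/

open Polynomial

namespace Pool.Agent.Lib.MP_524521_nt.RA

section

variable {Γ : Type} [Fintype Γ] [DecidableEq Γ] {R R' : Type} [CommRing R] [CommRing R']

/-- multiplication by the linear form with the coefficients `l` -/
def mulL (l : Γ → R) (B : ℕ) : (Sym Γ B → R) →ₗ[R] (Sym Γ (B + 1) → R) where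
  toFun v := fun α => ∑ θ, v θ * row l θ α
  map_add' v v' := by
    funext α
    simp only [Pi.add_apply, add_mul, Finset.sum_add_distrib]
  map_smul' a v := by
    funext α
    simp only [Pi.smul_apply, smul_eq_mul, Finset.mul_sum, RingHom.id_apply]
    exact Finset.sum_congr rfl fun θ _ => mul_assoc _ _ _

theorem mulL_apply (l : Γ → R) (B : ℕ) (v : Sym Γ B → R) (α : Sym Γ (B + 1)) :
    mulL l B v α = ∑ θ, v θ * row l θ α := rfl

theorem mulL_single (l : Γ → R) (B : ℕ) (θ : Sym Γ B) :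
    mulL l B (Pi.single θ 1) = row l θ := by
  funext α
  rw [mulL_apply, Finset.sum_eq_single θ]
  · rw [Pi.single_eq_same, one_mul]
  · intro b _ hb
    rw [Pi.single_eq_of_ne hb, zero_mul]
  · intro h
    exact absurd (Finset.mem_univ _) h

theorem row_map (f : R →+* R') (l : Γ → R) {B : ℕ} (θ : Sym Γ B) (α : Sym Γ (B + 1)) :
    row (fun γ => f (l γ)) θ α = f (row l θ α) := by
  unfold row
  rw [map_sum]
  refine Finset.sum_congr rfl fun γ _ => ?_
  split_ifs
  · rfl
  · rw [map_zero]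

theorem map_mulL (f : R →+* R') (l : Γ → R) (B : ℕ) (v : Sym Γ B → R) :
    mulL (fun γ => f (l γ)) B (fun θ => f (v θ)) = fun α => f (mulL l B v α) := by
  funext α
  rw [mulL_apply, mulL_apply, map_sum]
  refine Finset.sum_congr rfl fun θ _ => ?_
  rw [map_mul, row_map]

theorem pair_mulL (l c : Γ → R) (B : ℕ) (v : Sym Γ B → R) :
    ∑ α, mulL l B v α * mval c α = (∑ γ, l γ * c γ) * ∑ θ, v θ * mval c θ := by
  have h1 : ∀ θ : Sym Γ B, ∑ α, row l θ α * mval c α = (∑ γ, l γ * c γ) * mval c θ := by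
    intro θ
    unfold row
    simp only [Finset.sum_mul]
    rw [Finset.sum_comm]
    refine Finset.sum_congr rfl fun γ _ => ?_
    rw [Finset.sum_eq_single (γ ::ₛ θ)]
    · rw [if_pos rfl, mval_cons]; ring
    · intro β _ hβ
      rw [if_neg (fun h => hβ h.symm), zero_mul]
    · intro h; exact absurd (Finset.mem_univ _) h
  have h3 : ∀ α, mulL l B v α * mval c α = ∑ θ, v θ * row l θ α * mval c α := fun α => by
    rw [mulL_apply, Finset.sum_mul]
  rw [Finset.sum_congr rfl fun α _ => h3 α, Finset.sum_comm, Finset.mul_sum]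
  refine Finset.sum_congr rfl fun θ _ => ?_
  have h2 := h1 θ
  calc ∑ α, v θ * row l θ α * mval c α = v θ * ∑ α, row l θ α * mval c α := by
        rw [Finset.mul_sum]
        exact Finset.sum_congr rfl fun α _ => mul_assoc _ _ _
    _ = _ := by rw [h2]; ring

/-- multiplication by `j` linear forms, from degree `B` to degree `Δ = B + j` -/
noncomputable def Phi (L : ℕ → Γ → R) (Δ : ℕ) :
    ∀ (j B : ℕ), B + j = Δ → ((Sym Γ B → R) →ₗ[R] (Sym Γ Δ → R))
  | 0, B, h => Eq.rec (motive := fun D _ => (Sym Γ B → R) →ₗ[R] (Sym Γ D → R)) LinearMap.id h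
  | j + 1, B, h => (Phi L Δ j (B + 1) (by omega)).comp (mulL (L j) B)

theorem Phi_zero (L : ℕ → Γ → R) (B : ℕ) (v : Sym Γ B → R) : Phi L B 0 B rfl v = v := rfl

theorem Phi_succ (L : ℕ → Γ → R) (Δ j B : ℕ) (h : B + (j + 1) = Δ) (h' : B + 1 + j = Δ) :
    Phi L Δ (j + 1) B h = (Phi L Δ j (B + 1) h').comp (mulL (L j) B) := rfl

theorem map_Phi (f : R →+* R') (L : ℕ → Γ → R) (Δ : ℕ) : ∀ (j B : ℕ) (h : B + j = Δ)
    (v : Sym Γ B → R),
    Phi (fun i γ => f (L i γ)) Δ j B h (fun θ => f (v θ)) = fun α => f (Phi L Δ j B h v α) := by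
  intro j
  induction j with
  | zero =>
    intro B h v
    obtain rfl := h
    rfl
  | succ j ih =>
    intro B h v
    rw [Phi_succ _ _ _ _ h (by omega), Phi_succ _ _ _ _ h (by omega), LinearMap.comp_apply,
      LinearMap.comp_apply, map_mulL, ih]

theorem pair_Phi (L : ℕ → Γ → R) (c : Γ → R) (Δ : ℕ) : ∀ (j B : ℕ) (h : B + j = Δ)
    (v : Sym Γ B → R),
    ∑ α, Phi L Δ j B h v α * mval c α =
      (∏ i ∈ Finset.range j, ∑ γ, L i γ * c γ) * ∑ θ, v θ * mval c θ := by
  intro j
  induction j with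
  | zero =>
    intro B h v
    obtain rfl := h
    rw [Finset.prod_range_zero, one_mul]
    rfl
  | succ j ih =>
    intro B h v
    rw [Phi_succ _ _ _ _ h (by omega), LinearMap.comp_apply, ih, pair_mulL,
      Finset.prod_range_succ, mul_assoc]

/-- degrees -/
theorem mulL_degree {A : ℕ} (l : Γ → R) (B : ℕ) (v : Sym Γ B → R[X])
    (hv : ∀ θ, (v θ).degree < A) (α : Sym Γ (B + 1)) :
    (mulL (fun γ => (C (l γ) : R[X])) B v α).degree < A := by
  rw [mulL_apply, ← mem_degreeLT]
  refine Submodule.sum_mem _ fun θ _ => ?_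
  rw [show row (fun γ => (C (l γ) : R[X])) θ α = C (row l θ α) from row_map C l θ α, mul_comm,
    ← smul_eq_C_mul]
  exact Submodule.smul_mem _ _ (mem_degreeLT.2 (hv θ))

theorem Phi_degree {A : ℕ} (L : ℕ → Γ → R) (Δ : ℕ) : ∀ (j B : ℕ) (h : B + j = Δ)
    (v : Sym Γ B → R[X]), (∀ θ, (v θ).degree < A) → ∀ α,
    (Phi (fun i γ => (C (L i γ) : R[X])) Δ j B h v α).degree < A := by
  intro j
  induction j with
  | zero =>
    intro B h v hv α
    obtain rfl := h
    exact hv α
  | succ j ih =>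
    intro B h v hv α
    rw [Phi_succ _ _ _ _ h (by omega), LinearMap.comp_apply]
    exact ih _ _ _ (fun β => mulL_degree _ _ _ hv β) α

end

end Pool.Agent.Lib.MP_524521_nt.RA
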