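import Mathlib
import Pool.Agent.Lib.MP_524521_nt.RA.Defs
import Pool.Agent.Lib.MP_524521_nt.RA.Key
import Pool.Agent.Lib.MP_524521_nt.RA.Cramer
import Pool.Agent.Lib.MP_524521_nt.RA.MulPhi
import Pool.Agent.Lib.MP_524521_nt.RA.ShiftInv
import Pool.Agent.Lib.MP_524521_nt.RA.RelDefs

section
/-!
# Levels, and rational numbers with bounded denominator
-/
namespace Pool.Agent.Lib.MP_524521_nt.RA

/-- the levels of the degree in `s` -/
noncomputable def lev (n e : ℕ) (Lg : ℝ) : ℕ → ℕ
  | 0 => 1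
  | k + 1 => n * ⌈((e : ℝ) * lev n e Lg k * Lg) ^ e⌉₊ + n * lev n e Lg k + 1

theorem lev_bound (n e k : ℕ) : ∃ C : ℕ, 1 ≤ C ∧ ∀ Lg : ℝ, 1 ≤ Lg →
    (lev n e Lg k : ℝ) ≤ (C * Lg) ^ C := by
  induction k with
  | zero =>
    refine ⟨1, le_rfl, fun Lg hLg => ?_⟩
    simp only [lev, Nat.cast_one, one_mul, pow_one]
    exact hLg
  | succ k ih =>
    obtain ⟨C, hC, hb⟩ := ih
    set K : ℕ := n * e ^ e + 2 * n + 1 with hK
    set E : ℕ := (C + 1) * e + C with hE
    refine ⟨K + C + E + 1, by omega, fun Lg hLg => ?_⟩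
    have hx := hb Lg hLg
    set x : ℝ := (lev n e Lg k : ℝ) with hxdef
    have hx0 : 0 ≤ x := Nat.cast_nonneg _
    have hC1 : (1 : ℝ) ≤ C := by exact_mod_cast hC
    set y : ℝ := C * Lg with hy
    have hy1 : 1 ≤ y := by rw [hy]; nlinarith
    have hLy : Lg ≤ y := by rw [hy]; nlinarith
    have hceil : ((⌈((e : ℝ) * x * Lg) ^ e⌉₊ : ℕ) : ℝ) ≤ ((e : ℝ) * x * Lg) ^ e + 1 := by
      have h0 : 0 ≤ ((e : ℝ) * x * Lg) ^ e := by positivity
      exact (Nat.ceil_lt_add_one h0).le
    have h1 : ((e : ℝ) * x * Lg) ^ e ≤ (e : ℝ) ^ e * y ^ ((C + 1) * e) := by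
      have h2 : (e : ℝ) * x * Lg ≤ e * y ^ (C + 1) := by
        calc (e : ℝ) * x * Lg = e * (x * Lg) := by ring
          _ ≤ e * (y ^ C * y) := by
            apply mul_le_mul_of_nonneg_left _ (Nat.cast_nonneg _)
            exact mul_le_mul hx hLy (by linarith) (by positivity)
          _ = e * y ^ (C + 1) := by ring
      calc ((e : ℝ) * x * Lg) ^ e ≤ (e * y ^ (C + 1)) ^ e :=
            pow_le_pow_left₀ (by positivity) h2 _
        _ = (e : ℝ) ^ e * y ^ ((C + 1) * e) := by rw [mul_pow, ← pow_mul]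
    have hyE1 : y ^ ((C + 1) * e) ≤ y ^ E := pow_le_pow_right₀ hy1 (by rw [hE]; omega)
    have hyE2 : y ^ C ≤ y ^ E := pow_le_pow_right₀ hy1 (by rw [hE]; omega)
    have hyE3 : 1 ≤ y ^ E := one_le_pow₀ hy1
    have hn0 : (0 : ℝ) ≤ n := Nat.cast_nonneg _
    have hee : (0 : ℝ) ≤ (e : ℝ) ^ e := by positivity
    have h3 : ((lev n e Lg (k + 1) : ℕ) : ℝ) ≤ K * y ^ E := by
      have h4 : ((lev n e Lg (k + 1) : ℕ) : ℝ) =
          n * ((⌈((e : ℝ) * x * Lg) ^ e⌉₊ : ℕ) : ℝ) + n * x + 1 := by
        simp only [lev]; push_cast; rfl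
      rw [h4]
      have h5 : (n : ℝ) * ((⌈((e : ℝ) * x * Lg) ^ e⌉₊ : ℕ) : ℝ) ≤
          n * ((e : ℝ) ^ e * y ^ E + y ^ E) := by
        apply mul_le_mul_of_nonneg_left _ hn0
        refine hceil.trans ?_
        have := h1.trans (mul_le_mul_of_nonneg_left hyE1 hee)
        linarith
      have h6 : (n : ℝ) * x ≤ n * y ^ E := mul_le_mul_of_nonneg_left (hx.trans hyE2) hn0
      have h7 : (K : ℝ) = n * (e : ℝ) ^ e + 2 * n + 1 := by rw [hK]; push_cast; ring
      rw [h7]
      nlinarith
    refine h3.trans ?_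
    set C' : ℕ := K + C + E + 1 with hC'
    have hC'1 : (1 : ℝ) ≤ C' := by exact_mod_cast (by omega : 1 ≤ C')
    have hz1 : (1 : ℝ) ≤ C' * Lg := by nlinarith
    have hz2 : (K : ℝ) ≤ C' * Lg := by
      have : (K : ℝ) ≤ C' := by exact_mod_cast (by omega : K ≤ C')
      nlinarith
    have hz3 : y ≤ C' * Lg := by
      have : (C : ℝ) ≤ C' := by exact_mod_cast (by omega : C ≤ C')
      rw [hy]; nlinarith
    calc (K : ℝ) * y ^ E ≤ (C' * Lg) * (C' * Lg) ^ E :=
          mul_le_mul hz2 (pow_le_pow_left₀ (by linarith) hz3 _) (by positivity) (by linarith)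
      _ = (C' * Lg) ^ (E + 1) := by ring
      _ ≤ (C' * Lg) ^ C' := pow_le_pow_right₀ hz1 (by omega)

/-- the rationals with denominator `≤ T` in an interval are finitely many -/
theorem rat_finite (a b : ℝ) (T : ℕ) : {s : ℚ | a ≤ s ∧ s ≤ b ∧ s.den ≤ T}.Finite := by
  obtain ⟨M, hM⟩ := exists_nat_ge ((|a| + |b|) * T)
  have hfin : ((Set.Icc (-(M : ℤ)) (M : ℤ)) ×ˢ (Set.Icc 0 T)).Finite :=
    (Set.finite_Icc _ _).prod (Set.finite_Icc _ _)
  refine (hfin.image (fun p : ℤ × ℕ => (p.1 : ℚ) / p.2)).subset ?_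
  rintro s ⟨h1, h2, h3⟩
  refine ⟨(s.num, s.den), ⟨?_, ⟨Nat.zero_le _, h3⟩⟩, by simpa using Rat.num_div_den s⟩
  have hs : |(s : ℝ)| ≤ |a| + |b| := by
    rw [abs_le]
    constructor
    · have := neg_abs_le a; have := abs_nonneg b; linarith
    · have := le_abs_self b; have := abs_nonneg a; linarith
  have hden : (0 : ℝ) < s.den := by exact_mod_cast s.den_pos
  have hnum : ((s.num : ℤ) : ℝ) = s * s.den := by
    have := Rat.mul_den_eq_num s
    exact_mod_cast this.symm
  have hT : ((s.den : ℕ) : ℝ) ≤ T := by exact_mod_cast h3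
  have h4 : |((s.num : ℤ) : ℝ)| ≤ M := by
    rw [hnum, abs_mul, abs_of_pos hden]
    calc |(s : ℝ)| * s.den ≤ (|a| + |b|) * T :=
          mul_le_mul hs hT hden.le (by positivity)
      _ ≤ M := hM
  rw [abs_le] at h4
  constructor
  · have := h4.1; exact_mod_cast this
  · have := h4.2; exact_mod_cast this

theorem rat_card (a b : ℝ) (T : ℕ) : ∃ C : ℕ, ∀ S : Finset ℚ,
    (∀ s ∈ S, a ≤ s ∧ s ≤ b ∧ s.den ≤ T) → S.card ≤ C := by
  classical
  refine ⟨(rat_finite a b T).toFinset.card, fun S hS => Finset.card_le_card fun s hs => ?_⟩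
  rw [Set.Finite.mem_toFinset]
  exact hS s hs

theorem rat_sep (x y : ℚ) (T : ℕ) (hx : x.den ≤ T) (hy : y.den ≤ T) (h : x ≠ y) :
    1 / (T : ℝ) ^ 2 ≤ |(x : ℝ) - y| := by
  have hxd : (0 : ℝ) < x.den := by exact_mod_cast x.den_pos
  have hyd : (0 : ℝ) < y.den := by exact_mod_cast y.den_pos
  have hxn : ((x.num : ℤ) : ℝ) = x * x.den := by exact_mod_cast (Rat.mul_den_eq_num x).symm
  have hyn : ((y.num : ℤ) : ℝ) = y * y.den := by exact_mod_cast (Rat.mul_den_eq_num y).symm
  set N : ℤ := x.num * y.den - y.num * x.den with hN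
  have hNr : (N : ℝ) = (x - y) * (x.den * y.den) := by
    rw [hN]; push_cast; rw [hxn, hyn]; ring
  have hN0 : N ≠ 0 := by
    intro h0
    rw [h0] at hNr
    have h1 : ((x : ℝ) - y) * (x.den * y.den) = 0 := by rw [← hNr]; simp
    rcases mul_eq_zero.1 h1 with h2 | h2
    · apply h
      have : (x : ℝ) = y := by linarith
      exact_mod_cast this
    · have : (0 : ℝ) < x.den * y.den := by positivity
      linarith
  have hN1 : (1 : ℝ) ≤ |(N : ℝ)| := by
    have := Int.one_le_abs hN0
    exact_mod_cast this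
  have hprod : (x.den : ℝ) * y.den ≤ (T : ℝ) ^ 2 := by
    have h1 : (x.den : ℝ) ≤ T := by exact_mod_cast hx
    have h2 : (y.den : ℝ) ≤ T := by exact_mod_cast hy
    nlinarith
  have hpos : (0 : ℝ) < x.den * y.den := by positivity
  rw [hNr, abs_mul, abs_of_pos hpos] at hN1
  have hT2 : (0 : ℝ) < (T : ℝ) ^ 2 := lt_of_lt_of_le hpos hprod
  rw [div_le_iff₀ hT2]
  calc (1 : ℝ) ≤ |(x : ℝ) - y| * (x.den * y.den) := hN1
    _ ≤ |(x : ℝ) - y| * (T : ℝ) ^ 2 := mul_le_mul_of_nonneg_left hprod (abs_nonneg _)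

/-- bound for `XB` -/
theorem XB_bound (n B₀ : ℕ) (b' : ℝ) (hb' : 1 ≤ b') : ∃ c : ℝ, 1 ≤ c ∧ ∀ (A T' H : ℕ) (Lg : ℝ),
    1 ≤ A → 1 ≤ T' → 1 ≤ H → 1 ≤ Lg → Real.log T' ≤ b' * Lg → Real.log H ≤ Lg →
    (((A * n).factorial * (T' ^ A * H ^ B₀) ^ (A * n) : ℕ) : ℝ) ≤ Real.exp (c * (A * Lg) ^ 2) := by
  have hn0 : (0 : ℝ) ≤ n := Nat.cast_nonneg _
  have hB0 : (0 : ℝ) ≤ B₀ := Nat.cast_nonneg _
  refine ⟨1 + n ^ 2 + n * (b' + B₀), ?_, ?_⟩
  · have : 0 ≤ (n : ℝ) ^ 2 + n * (b' + B₀) := by positivity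
    linarith
  intro A T' H Lg hA hT' hH hLg hT hHl
  have hA1 : (1 : ℝ) ≤ A := by exact_mod_cast hA
  have h1 : (((A * n).factorial : ℕ) : ℝ) ≤ Real.exp ((A * n) * (A * n)) := by
    have h2 : (((A * n).factorial : ℕ) : ℝ) ≤ ((A * n : ℕ) : ℝ) ^ (A * n) := by
      exact_mod_cast Nat.factorial_le_pow _
    refine h2.trans ?_
    have h3 : ((A * n : ℕ) : ℝ) ≤ Real.exp ((A * n : ℕ) : ℝ) := by
      have := Real.add_one_le_exp ((A * n : ℕ) : ℝ)
      linarith
    calc ((A * n : ℕ) : ℝ) ^ (A * n) ≤ Real.exp ((A * n : ℕ) : ℝ) ^ (A * n) :=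
          pow_le_pow_left₀ (Nat.cast_nonneg _) h3 _
      _ = Real.exp ((A * n) * (A * n)) := by
          rw [← Real.exp_nat_mul]; push_cast; ring_nf
  have h4 : (T' : ℝ) ≤ Real.exp (b' * Lg) := by
    have : (0 : ℝ) < T' := by exact_mod_cast hT'
    rw [← Real.log_le_iff_le_exp this]; exact hT
  have h5 : (H : ℝ) ≤ Real.exp Lg := by
    have : (0 : ℝ) < H := by exact_mod_cast hH
    rw [← Real.log_le_iff_le_exp this]; exact hHl
  have h6 : ((T' : ℝ) ^ A * (H : ℝ) ^ B₀) ≤ Real.exp (A * (b' * Lg) + B₀ * Lg) := by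
    rw [Real.exp_add]
    apply mul_le_mul
    · calc (T' : ℝ) ^ A ≤ Real.exp (b' * Lg) ^ A := pow_le_pow_left₀ (Nat.cast_nonneg _) h4 _
        _ = Real.exp (A * (b' * Lg)) := by rw [← Real.exp_nat_mul]
    · calc (H : ℝ) ^ B₀ ≤ Real.exp Lg ^ B₀ := pow_le_pow_left₀ (Nat.cast_nonneg _) h5 _
        _ = Real.exp (B₀ * Lg) := by rw [← Real.exp_nat_mul]
    · positivity
    · positivity
  have h7 : ((T' : ℝ) ^ A * (H : ℝ) ^ B₀) ^ (A * n) ≤
      Real.exp ((A * n) * (A * (b' * Lg) + B₀ * Lg)) := by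
    calc ((T' : ℝ) ^ A * (H : ℝ) ^ B₀) ^ (A * n) ≤
          Real.exp (A * (b' * Lg) + B₀ * Lg) ^ (A * n) := pow_le_pow_left₀ (by positivity) h6 _
      _ = Real.exp ((A * n) * (A * (b' * Lg) + B₀ * Lg)) := by
          rw [← Real.exp_nat_mul]; push_cast; ring_nf
  push_cast
  calc (((A * n).factorial : ℕ) : ℝ) * ((T' : ℝ) ^ A * (H : ℝ) ^ B₀) ^ (A * n)
      ≤ Real.exp ((A * n) * (A * n)) * Real.exp ((A * n) * (A * (b' * Lg) + B₀ * Lg)) :=
        mul_le_mul h1 h7 (by positivity) (Real.exp_pos _).le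
    _ = Real.exp ((A * n) * (A * n) + (A * n) * (A * (b' * Lg) + B₀ * Lg)) := by
        rw [Real.exp_add]
    _ ≤ Real.exp ((1 + n ^ 2 + n * (b' + B₀)) * (A * Lg) ^ 2) := by
        apply Real.exp_le_exp.2
        have hA2 : (A : ℝ) ≤ A ^ 2 := by nlinarith
        have hL2 : Lg ≤ Lg ^ 2 := by nlinarith
        have hL3 : 1 ≤ Lg ^ 2 := by nlinarith
        have e1 : (A * n : ℝ) * (A * n) ≤ n ^ 2 * (A * Lg) ^ 2 := by
          have : (A * n : ℝ) * (A * n) = n ^ 2 * A ^ 2 * 1 := by ring
          rw [this, mul_pow, ← mul_assoc]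
          exact mul_le_mul_of_nonneg_left hL3 (by positivity)
        have e2 : (A * n : ℝ) * (A * (b' * Lg)) ≤ n * b' * (A * Lg) ^ 2 := by
          have : (A * n : ℝ) * (A * (b' * Lg)) = n * b' * (A ^ 2 * Lg) := by ring
          rw [this, mul_pow]
          apply mul_le_mul_of_nonneg_left _ (by positivity)
          exact mul_le_mul_of_nonneg_left hL2 (by positivity)
        have e3 : (A * n : ℝ) * (B₀ * Lg) ≤ n * B₀ * (A * Lg) ^ 2 := by
          have : (A * n : ℝ) * (B₀ * Lg) = n * B₀ * (A * Lg) := by ring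
          rw [this, mul_pow]
          apply mul_le_mul_of_nonneg_left _ (by positivity)
          exact mul_le_mul hA2 hL2 (by linarith) (by positivity)
        have e4 : 0 ≤ ((A : ℝ) * Lg) ^ 2 := by positivity
        nlinarith

end Pool.Agent.Lib.MP_524521_nt.RA
end

section
/-!
# Kernels of integer matrices

The kernel of an integer matrix is spanned by integer vectors whose entries are minors.
-/
namespace Pool.Agent.Lib.MP_524521_nt.RA

/-- Linearly independent vectors over a field have a nonzero minor of full size. -/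
theorem exists_minorK {K : Type*} [Field K] {ι κ : Type} [Fintype ι] [DecidableEq ι] [Fintype κ]
    (u : ι → κ → K) (hu : LinearIndependent K u) :
    ∃ a : ι → κ, Function.Injective a ∧ (Matrix.of fun k l => u k (a l)).det ≠ 0 := by
  classical
  set M : Matrix ι κ K := Matrix.of u with hM
  have hrk : M.rank = Fintype.card ι := LinearIndependent.rank_matrix (M := M) hu
  obtain ⟨κ', a', ha', hspan, hli⟩ := exists_linearIndependent' K (M.transpose.row)
  have : Finite κ' := Finite.of_injective a' ha'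
  let _ : Fintype κ' := Fintype.ofFinite κ'
  have h1 : Module.finrank K (Submodule.span K (Set.range (M.transpose.row ∘ a'))) =
      Fintype.card κ' := finrank_span_eq_card hli
  have h2 : Module.finrank K (Submodule.span K (Set.range (M.transpose.row))) =
      Fintype.card ι := by
    rw [← Matrix.rank_eq_finrank_span_row, Matrix.rank_transpose, hrk]
  have h3 : Fintype.card ι = Fintype.card κ' := by rw [← h1, hspan, h2]
  let e : ι ≃ κ' := Fintype.equivOfCardEq h3
  refine ⟨a' ∘ e, ha'.comp e.injective, ?_⟩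
  have h4 : LinearIndependent K (Matrix.of fun k l => u k ((a' ∘ e) l)).transpose.row := by
    have := hli.comp e e.injective
    exact this
  have h5 := (Matrix.linearIndependent_rows_iff_isUnit.1 h4)
  rw [Matrix.isUnit_iff_isUnit_det, Matrix.det_transpose] at h5
  exact h5.ne_zero

/-- (M1a) The kernel of an integer matrix is spanned by small integer vectors. -/
theorem kernel_span {ι κ : Type} [Fintype ι] [Fintype κ] [DecidableEq κ] (E : Matrix ι κ ℤ) (Y : ℕ)
    (hY : 1 ≤ Y) (hE : ∀ i j, (E i j).natAbs ≤ Y) :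
    ∃ F : Set (κ → ℤ), F.Finite ∧ (∀ v ∈ F, (∀ j, (v j).natAbs ≤
        (Fintype.card κ).factorial * Y ^ Fintype.card κ) ∧ E.mulVec v = 0) ∧
      ∀ x : κ → ℚ, (E.map (Int.cast : ℤ → ℚ)).mulVec x = 0 →
        x ∈ Submodule.span ℚ ((fun v : κ → ℤ => fun j => (v j : ℚ)) '' F) := by
  classical
  set v : κ → (ι → ℚ) := fun j i => (E i j : ℚ) with hv
  obtain ⟨κ', a, ha, hspan, hli⟩ := exists_linearIndependent' ℚ v
  have : Finite κ' := Finite.of_injective a ha
  let _ : Fintype κ' := Fintype.ofFinite κ'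
  obtain ⟨b, -, hdet⟩ := exists_minorK (v ∘ a) hli
  set M : Matrix κ' κ' ℤ := Matrix.of fun l k => E (b l) (a k) with hM
  have hMQ : (M.map (Int.cast : ℤ → ℚ)).det ≠ 0 := by
    have : (Matrix.of fun k l => (v ∘ a) k (b l)) = (M.map (Int.cast : ℤ → ℚ)).transpose := by
      ext k l; rfl
    rwa [this, Matrix.det_transpose] at hdet
  have hcast : (M.map (Int.cast : ℤ → ℚ)).det = (M.det : ℚ) := by
    have := (Int.castRingHom ℚ).map_det M
    simpa using this.symm
  set D : ℤ := M.det with hD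
  have hD0 : (D : ℚ) ≠ 0 := by rwa [hcast] at hMQ
  set cr : κ → κ' → ℤ := fun j => M.cramer (fun l => E (b l) j) with hcr
  set w : κ → κ → ℤ := fun j x => (Pi.single j D : κ → ℤ) x -
    ∑ k, (Pi.single (a k) (cr j k) : κ → ℤ) x with hw
  have hcard : Fintype.card κ' ≤ Fintype.card κ := Fintype.card_le_of_injective a ha
  have hbound : ∀ N : Matrix κ' κ' ℤ, (∀ i j, (N i j).natAbs ≤ Y) →
      N.det.natAbs ≤ (Fintype.card κ).factorial * Y ^ Fintype.card κ := by
    intro N hN
    have h1 := Matrix.det_le (A := N) (abv := AbsoluteValue.abs) (x := (Y : ℤ)) (by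
      intro i j
      have := hN i j
      simp only [AbsoluteValue.abs_apply]
      rw [Int.abs_eq_natAbs]; exact_mod_cast this)
    simp only [AbsoluteValue.abs_apply, nsmul_eq_mul, Int.abs_eq_natAbs] at h1
    have h2 : N.det.natAbs ≤ (Fintype.card κ').factorial * Y ^ Fintype.card κ' := by
      exact_mod_cast h1
    exact h2.trans (Nat.mul_le_mul (Nat.factorial_le hcard) (Nat.pow_le_pow_right hY hcard))
  have hDb : D.natAbs ≤ (Fintype.card κ).factorial * Y ^ Fintype.card κ :=
    hbound M fun i j => hE _ _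
  have hcrb : ∀ j k, (cr j k).natAbs ≤ (Fintype.card κ).factorial * Y ^ Fintype.card κ := by
    intro j k
    rw [hcr]; simp only [Matrix.cramer_apply]
    refine hbound _ fun i l => ?_
    rw [Matrix.updateCol_apply]
    split_ifs
    · exact hE _ _
    · exact hE _ _
  -- values outside the range
  have hwout : ∀ j x, x ∉ Set.range a → w j x = (Pi.single j D : κ → ℤ) x := by
    intro j x hx
    rw [hw]; simp only
    rw [Finset.sum_eq_zero, sub_zero]
    intro k _
    exact Pi.single_eq_of_ne (fun h => hx ⟨k, h.symm⟩) _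
  have hwin : ∀ j k, j ∉ Set.range a → w j (a k) = - cr j k := by
    intro j k hj
    rw [hw]; simp only
    rw [Pi.single_eq_of_ne (fun h => hj ⟨k, h⟩), zero_sub, Finset.sum_eq_single k]
    · rw [Pi.single_eq_same]
    · intro l _ hl
      exact Pi.single_eq_of_ne (fun h => hl (ha h).symm) _
    · simp
  -- the vectors are in the kernel
  have hker : ∀ j, E.mulVec (w j) = 0 := by
    intro j
    have hmem : v j ∈ Submodule.span ℚ (Set.range (v ∘ a)) := by
      rw [hspan]; exact Submodule.subset_span ⟨j, rfl⟩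
    obtain ⟨lam, hlam⟩ := (Submodule.mem_span_range_iff_exists_fun ℚ).1 hmem
    have hlam' : ∀ i, ∑ k, lam k * (E i (a k) : ℚ) = (E i j : ℚ) := by
      intro i
      have := congrFun hlam i
      simpa [hv, Finset.sum_apply, smul_eq_mul] using this
    have h1 : (M.map (Int.cast : ℤ → ℚ)).mulVec (fun k => (cr j k : ℚ) - D * lam k) = 0 := by
      ext l
      have h2 := congrFun (Matrix.mulVec_cramer M (fun l => E (b l) j)) l
      simp only [Matrix.mulVec, dotProduct, Pi.smul_apply, smul_eq_mul, Matrix.map_apply,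
        Pi.zero_apply] at h2 ⊢
      have h3 : (∑ k, (M l k : ℚ) * (cr j k : ℚ)) = D * (E (b l) j : ℚ) := by
        exact_mod_cast h2
      have h4 := hlam' (b l)
      simp only [mul_sub, Finset.sum_sub_distrib]
      rw [h3, ← h4, Finset.mul_sum, sub_eq_zero]
      refine Finset.sum_congr rfl fun k _ => ?_
      rw [hM]; simp only [Matrix.of_apply]; ring
    have h5 := Matrix.eq_zero_of_mulVec_eq_zero hMQ h1
    have h6 : ∀ k, (cr j k : ℚ) = D * lam k := fun k => by
      have := congrFun h5 k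
      simpa [sub_eq_zero] using this
    ext i
    have h7 : (E.mulVec (w j) i) = D * E i j - ∑ k, E i (a k) * cr j k := by
      simp only [Matrix.mulVec, dotProduct, hw, mul_sub, Finset.sum_sub_distrib]
      congr 1
      · rw [Finset.sum_eq_single j]
        · rw [Pi.single_eq_same]; ring
        · intro x _ hx; rw [Pi.single_eq_of_ne hx]; ring
        · simp
      · simp only [Finset.mul_sum]
        rw [Finset.sum_comm]
        refine Finset.sum_congr rfl fun k _ => ?_
        rw [Finset.sum_eq_single (a k)]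
        · rw [Pi.single_eq_same]
        · intro x _ hx; rw [Pi.single_eq_of_ne hx]; ring
        · simp
    have h8 : ((E.mulVec (w j) i : ℤ) : ℚ) = 0 := by
      rw [h7]; push_cast
      rw [← hlam' i, Finset.mul_sum, ← Finset.sum_sub_distrib]
      refine Finset.sum_eq_zero fun k _ => ?_
      rw [h6 k]; ring
    exact_mod_cast h8
  refine ⟨w '' {j | j ∉ Set.range a}, (Set.toFinite _).image _, ?_, ?_⟩
  · rintro _ ⟨j, hj, rfl⟩
    refine ⟨fun x => ?_, hker j⟩
    by_cases hx : x ∈ Set.range a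
    · obtain ⟨k, rfl⟩ := hx
      rw [hwin j k hj, Int.natAbs_neg]; exact hcrb j k
    · rw [hwout j x hx]
      by_cases hxj : x = j
      · subst hxj; rw [Pi.single_eq_same]; exact hDb
      · rw [Pi.single_eq_of_ne hxj]; simp
  · intro x hx
    set y : κ → ℚ := x - ∑ j ∈ Finset.univ.filter (fun j => j ∉ Set.range a),
      (x j / D) • (fun t => (w j t : ℚ)) with hy
    have hyker : ∀ i, ∑ t, (E i t : ℚ) * y t = 0 := by
      intro i
      have h1 : ∑ t, (E i t : ℚ) * x t = 0 := by
        have := congrFun hx i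
        simpa [Matrix.mulVec, dotProduct] using this
      have h2 : ∀ j, ∑ t, (E i t : ℚ) * (w j t : ℚ) = 0 := by
        intro j
        have := congrFun (hker j) i
        simp only [Matrix.mulVec, dotProduct, Pi.zero_apply] at this
        exact_mod_cast this
      simp only [hy, Pi.sub_apply, Finset.sum_apply, Pi.smul_apply, smul_eq_mul, mul_sub,
        Finset.sum_sub_distrib, h1, zero_sub, neg_eq_zero, Finset.mul_sum]
      rw [Finset.sum_comm]
      refine Finset.sum_eq_zero fun j _ => ?_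
      have h3 := h2 j
      calc ∑ t, (E i t : ℚ) * (x j / D * (w j t : ℚ))
          = (x j / D) * ∑ t, (E i t : ℚ) * (w j t : ℚ) := by
            rw [Finset.mul_sum]; refine Finset.sum_congr rfl fun t _ => ?_; ring
        _ = 0 := by rw [h3, mul_zero]
    have hyout : ∀ t, t ∉ Set.range a → y t = 0 := by
      intro t ht
      simp only [hy, Pi.sub_apply, Finset.sum_apply, Pi.smul_apply, smul_eq_mul]
      rw [Finset.sum_eq_single t]
      · rw [hwout t t ht, Pi.single_eq_same]; field_simp; ring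
      · intro j _ hj
        rw [hwout j t ht, Pi.single_eq_of_ne (Ne.symm hj)]; simp
      · intro h; exact absurd (Finset.mem_filter.2 ⟨Finset.mem_univ t, ht⟩) h
    have hy0 : y = 0 := by
      have h1 : ∑ k, y (a k) • (v ∘ a) k = 0 := by
        rw [Fintype.sum_of_injective a ha (fun k => y (a k) • (v ∘ a) k) (fun t => y t • v t)
          (fun t ht => by rw [hyout t ht, zero_smul]) (fun k => rfl)]
        ext i
        simp only [Finset.sum_apply, Pi.smul_apply, smul_eq_mul, Pi.zero_apply, hv]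
        rw [← hyker i]
        refine Finset.sum_congr rfl fun t _ => ?_
        ring
      have h2 := Fintype.linearIndependent_iff.1 hli _ h1
      ext t
      by_cases ht : t ∈ Set.range a
      · obtain ⟨k, rfl⟩ := ht; exact h2 k
      · exact hyout t ht
    have hxe : x = ∑ j ∈ Finset.univ.filter (fun j => j ∉ Set.range a),
      (x j / D) • (fun t => (w j t : ℚ)) := by
      rw [hy] at hy0
      exact sub_eq_zero.1 hy0
    rw [hxe]
    refine Submodule.sum_mem _ fun j hj => Submodule.smul_mem _ _ (Submodule.subset_span ?_)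
    exact ⟨w j, ⟨j, (Finset.mem_filter.1 hj).2, rfl⟩, rfl⟩

end Pool.Agent.Lib.MP_524521_nt.RA
end

section
/-!
# Relations of bounded degree, and a free complementary set of monomials
-/
open Polynomial

namespace Pool.Agent.Lib.MP_524521_nt.RA

/-- the polynomials with given coefficients -/
noncomputable def pol {R : Type} [Semiring R] {κ : Type} {A : ℕ} (x : κ × Fin A → R) (α : κ) : R[X] :=
  ∑ a : Fin A, C (x (α, a)) * X ^ (a : ℕ)

theorem pol_degree {R : Type} [Semiring R] {κ : Type} {A : ℕ} (x : κ × Fin A → R) (α : κ) :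
    (pol x α).degree < A := degree_sum_fin_lt _

theorem pol_coeff {R : Type} [Semiring R] {κ : Type} {A : ℕ} (x : κ × Fin A → R) (α : κ)
    (n : ℕ) : (pol x α).coeff n = if h : n < A then x (α, ⟨n, h⟩) else 0 := by
  unfold pol
  rw [finsetSum_coeff]
  simp only [coeff_C_mul, coeff_X_pow, mul_ite, mul_one, mul_zero]
  split_ifs with h
  · rw [Finset.sum_eq_single ⟨n, h⟩]
    · simp
    · intro b _ hb
      rw [if_neg]
      intro h'
      exact hb (Fin.ext h'.symm)
    · simp
  · refine Finset.sum_eq_zero fun b _ => ?_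
    rw [if_neg]
    intro h'
    exact h (h' ▸ b.2)

theorem pol_map {κ : Type} {A : ℕ} (v : κ × Fin A → ℤ) (α : κ) :
    (pol v α).map (Int.castRingHom ℚ) = pol (fun y => (v y : ℚ)) α := by
  ext n
  rw [coeff_map, pol_coeff, pol_coeff]
  split_ifs <;> simp

theorem natAbs_mval_le {Γ : Type} {B : ℕ} (x : Γ → ℤ) (H : ℕ) (hx : ∀ γ, (x γ).natAbs ≤ H)
    (θ : Sym Γ B) : (mval x θ).natAbs ≤ H ^ B := by
  have key : ∀ m : Multiset Γ, ((m.map x).prod).natAbs ≤ H ^ Multiset.card m := by
    intro m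
    induction m using Multiset.induction_on with
    | empty => simp
    | cons a m ih =>
      rw [Multiset.map_cons, Multiset.prod_cons, Int.natAbs_mul, Multiset.card_cons, pow_succ,
        mul_comm]
      exact Nat.mul_le_mul ih (hx a)
  have := key θ.1
  rwa [show Multiset.card θ.1 = B from θ.2] at this

/-- (M1b) Relations of degree `< A` in `s` and degree `B` in `c`, with a free complementary
set. -/
theorem relation_data {Γ : Type} [Fintype Γ] [DecidableEq Γ] {ι : Type} [Fintype ι] (s : ι → ℚ)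
    (c : ι → Γ → ℤ) (A B T' H : ℕ) (hA : 1 ≤ A) (hT' : 1 ≤ T') (hH : 1 ≤ H)
    (hs1 : ∀ i, (s i).num.natAbs ≤ T') (hs2 : ∀ i, (s i).den ≤ T')
    (hc1 : ∀ i γ, (c i γ).natAbs ≤ H) :
    ∃ (r : ℕ) (P : Fin r → Sym Γ B → ℤ[X]) (Θ : Finset (Sym Γ B)),
      (∀ j α, (P j α).degree < A) ∧
      (∀ j α n, ((P j α).coeff n).natAbs ≤
        (A * Fintype.card (Sym Γ B)).factorial * (T' ^ A * H ^ B) ^ (A * Fintype.card (Sym Γ B))) ∧
      (∀ j i, ∑ α, (aeval (s i) (P j α) : ℚ) * ((mval (c i) α : ℤ) : ℚ) = 0) ∧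
      LinearIndependent ℤ[X] P ∧ Θ.card + r = Fintype.card (Sym Γ B) ∧ Free s c A Θ := by
  classical
  set E : Matrix ι (Sym Γ B × Fin A) ℤ := fun i x =>
    (s i).num ^ (x.2 : ℕ) * ((s i).den : ℤ) ^ (A - 1 - (x.2 : ℕ)) * mval (c i) x.1 with hE
  have hEb : ∀ i x, (E i x).natAbs ≤ T' ^ A * H ^ B := by
    intro i x
    rw [hE]; simp only [Int.natAbs_mul, Int.natAbs_pow, Int.natAbs_natCast]
    refine Nat.mul_le_mul ?_ (natAbs_mval_le _ H (hc1 i) _)
    have hx : (x.2 : ℕ) < A := x.2.2
    calc (s i).num.natAbs ^ (x.2 : ℕ) * (s i).den ^ (A - 1 - (x.2 : ℕ))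
        ≤ T' ^ (x.2 : ℕ) * T' ^ (A - 1 - (x.2 : ℕ)) :=
          Nat.mul_le_mul (Nat.pow_le_pow_left (hs1 i) _) (Nat.pow_le_pow_left (hs2 i) _)
      _ = T' ^ (A - 1) := by rw [← pow_add]; congr 1; omega
      _ ≤ T' ^ A := Nat.pow_le_pow_right hT' (Nat.sub_le _ _)
  have hY : 1 ≤ T' ^ A * H ^ B := Nat.mul_pos (pow_pos hT' _) (pow_pos hH _)
  obtain ⟨F, hFfin, hF, hspan⟩ := kernel_span E (T' ^ A * H ^ B) hY hEb
  have hcard : Fintype.card (Sym Γ B × Fin A) = A * Fintype.card (Sym Γ B) := by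
    rw [Fintype.card_prod, Fintype.card_fin, mul_comm]
  rw [hcard] at hF
  -- evaluation
  have hev : ∀ (x : Sym Γ B × Fin A → ℚ) (i : ι),
      ∑ y, (E i y : ℚ) * x y = ((s i).den : ℚ) ^ (A - 1) *
        ∑ α, (pol x α).eval (s i) * ((mval (c i) α : ℤ) : ℚ) := by
    intro x i
    have hden : ((s i).den : ℚ) ≠ 0 := by exact_mod_cast (s i).den_nz
    rw [Fintype.sum_prod_type, Finset.mul_sum]
    refine Finset.sum_congr rfl fun α _ => ?_
    unfold pol
    rw [eval_finsetSum, Finset.sum_mul, Finset.mul_sum]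
    refine Finset.sum_congr rfl fun a _ => ?_
    simp only [eval_mul, eval_C, eval_pow, eval_X, hE]
    push_cast
    have h1 : ((s i).den : ℚ) ^ (A - 1) * (s i) ^ (a : ℕ) =
        ((s i).num : ℚ) ^ (a : ℕ) * ((s i).den : ℚ) ^ (A - 1 - (a : ℕ)) := by
      have ha : (a : ℕ) ≤ A - 1 := by have := a.2; omega
      have h2 : ((s i).num : ℚ) = (s i) * (s i).den := (Rat.mul_den_eq_num (s i)).symm
      rw [h2, mul_pow]
      have h3 : ((s i).den : ℚ) ^ (A - 1) =
          ((s i).den : ℚ) ^ (a : ℕ) * ((s i).den : ℚ) ^ (A - 1 - (a : ℕ)) := by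
        rw [← pow_add]; congr 1; omega
      rw [h3]; ring
    rw [← h1]; ring
  let K := FractionRing ℚ[X]
  let φ : ℚ[X] →+* K := algebraMap ℚ[X] K
  have hφ : Function.Injective φ := IsFractionRing.injective ℚ[X] K
  set V : (Sym Γ B × Fin A → ℚ) → (Sym Γ B → K) := fun x α => φ (pol x α) with hV
  set U : F → (Sym Γ B → K) := fun v => V (fun y => ((v.1 y : ℤ) : ℚ)) with hU
  obtain ⟨κ', a', ha', hspanU, hli⟩ := exists_linearIndependent' K U
  have : Finite F := hFfin.to_subtype
  have : Finite κ' := Finite.of_injective a' ha'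
  let _ : Fintype κ' := Fintype.ofFinite κ'
  let e : Fin (Fintype.card κ') ≃ κ' := (Fintype.equivFin κ').symm
  have hli' : LinearIndependent K (U ∘ a' ∘ e) := hli.comp e e.injective
  obtain ⟨π, hπ, hdet⟩ := exists_minorK (U ∘ a' ∘ e) hli'
  refine ⟨Fintype.card κ', fun j => pol (a' (e j)).1, (Finset.univ.image π)ᶜ, ?_, ?_, ?_, ?_, ?_,
    ?_⟩
  · intro j α; exact pol_degree _ _
  · intro j α n
    rw [pol_coeff]
    split_ifs with h
    · exact (hF _ (a' (e j)).2).1 _
    · simp
  · intro j i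
    have h1 := (hF _ (a' (e j)).2).2
    have h2 := congrFun h1 i
    simp only [Matrix.mulVec, dotProduct, Pi.zero_apply] at h2
    have h3 : ∑ y, (E i y : ℚ) * ((((a' (e j)).1 y : ℤ)) : ℚ) = 0 := by exact_mod_cast h2
    rw [hev] at h3
    have hden : ((s i).den : ℚ) ^ (A - 1) ≠ 0 :=
      pow_ne_zero _ (by exact_mod_cast (s i).den_nz)
    have h4 := (mul_eq_zero.1 h3).resolve_left hden
    rw [← h4]
    refine Finset.sum_congr rfl fun α _ => ?_
    congr 1
    rw [← pol_map, eval_map, aeval_def]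
    rfl
  · rw [Fintype.linearIndependent_iff]
    intro g hg k
    let ψ : ℤ[X] →+* K := φ.comp (mapRingHom (Int.castRingHom ℚ))
    have hψ : Function.Injective ψ :=
      hφ.comp (map_injective _ (RingHom.injective_int (Int.castRingHom ℚ)))
    have h1 : ∑ j, ψ (g j) • (U ∘ a' ∘ e) j = 0 := by
      ext α
      have h2 := congrArg ψ (congrFun hg α)
      simp only [Finset.sum_apply, Pi.smul_apply, smul_eq_mul, Pi.zero_apply, map_sum, map_mul,
        map_zero] at h2 ⊢
      rw [← h2]
      refine Finset.sum_congr rfl fun j _ => ?_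
      congr 1
      simp only [hU, hV, Function.comp_apply, ψ, RingHom.comp_apply, coe_mapRingHom]
      rw [pol_map]
    have h3 := Fintype.linearIndependent_iff.1 hli' _ h1 k
    exact hψ (by rw [h3, map_zero])
  · rw [Finset.card_compl, Finset.card_image_of_injective _ hπ, Finset.card_univ,
      Fintype.card_fin]
    have : Fintype.card κ' ≤ Fintype.card (Sym Γ B) := by
      have := Fintype.card_le_of_injective π hπ
      simpa using this
    omega
  · intro p hdeg hsupp hvan
    set x : Sym Γ B × Fin A → ℚ := fun y => (p y.1).coeff (y.2 : ℕ) with hx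
    have hpol : ∀ α, pol x α = p α := by
      intro α
      ext n
      rw [pol_coeff]
      split_ifs with h
      · rfl
      · symm
        apply coeff_eq_zero_of_degree_lt
        exact (hdeg α).trans_le (by exact_mod_cast not_lt.1 h)
    have hker : (E.map (Int.cast : ℤ → ℚ)).mulVec x = 0 := by
      ext i
      simp only [Matrix.mulVec, dotProduct, Matrix.map_apply, Pi.zero_apply]
      rw [hev]
      have h1 := hvan i
      have h2 : ∑ α, (pol x α).eval (s i) * ((mval (c i) α : ℤ) : ℚ) = 0 := by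
        rw [← h1]
        symm
        refine Finset.sum_subset_zero_on_sdiff (Finset.subset_univ _) ?_ ?_
        · intro α hα
          rw [hpol, hsupp α (Finset.mem_sdiff.1 hα).2]; simp
        · intro α _
          rw [hpol]
      rw [h2, mul_zero]
    have hmem := hspan x hker
    have hVmem : V x ∈ Submodule.span K (Set.range U) := by
      refine Submodule.span_induction (p := fun z _ => V z ∈ Submodule.span K (Set.range U))
        ?_ ?_ ?_ ?_ hmem
      · rintro _ ⟨v, hv, rfl⟩
        exact Submodule.subset_span ⟨⟨v, hv⟩, rfl⟩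
      · have : V 0 = 0 := by
          ext α; simp [hV, pol]
        rw [this]; exact Submodule.zero_mem _
      · intro y z _ _ hy hz
        have : V (y + z) = V y + V z := by
          ext α
          simp only [hV, pol, Pi.add_apply, ← map_add]
          congr 1
          rw [← Finset.sum_add_distrib]
          refine Finset.sum_congr rfl fun a _ => ?_
          rw [C_add]; ring
        rw [this]; exact Submodule.add_mem _ hy hz
      · intro q y _ hy
        have : V (q • y) = φ (C q) • V y := by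
          ext α
          simp only [hV, pol, Pi.smul_apply, smul_eq_mul, ← map_mul]
          congr 1
          rw [Finset.mul_sum]
          refine Finset.sum_congr rfl fun a _ => ?_
          rw [C_mul]; ring
        rw [this]; exact Submodule.smul_mem _ _ hy
    rw [← hspanU] at hVmem
    have hVmem' : V x ∈ Submodule.span K (Set.range (U ∘ a' ∘ e)) := by
      have : Set.range (U ∘ a' ∘ e) = Set.range (U ∘ a') := by
        rw [← Function.comp_assoc, Set.range_comp (U ∘ a') e, e.surjective.range_eq,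
          Set.image_univ]
      rw [this]; exact hVmem
    obtain ⟨lam, hlam⟩ := (Submodule.mem_span_range_iff_exists_fun K).1 hVmem'
    have hlam0 : lam = 0 := by
      apply Matrix.eq_zero_of_vecMul_eq_zero hdet
      ext l
      have h1 := congrFun hlam (π l)
      simp only [Finset.sum_apply, Pi.smul_apply, smul_eq_mul] at h1
      simp only [Matrix.vecMul, dotProduct, Matrix.of_apply, Pi.zero_apply]
      rw [h1]
      simp only [hV]
      rw [hpol, hsupp (π l), map_zero]
      simp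
    have hVx : V x = 0 := by
      rw [← hlam, hlam0]; simp
    ext1 α
    apply hφ
    rw [← hpol]
    have := congrFun hVx α
    simpa [hV] using this

end Pool.Agent.Lib.MP_524521_nt.RA
end

section
/-!
# The algebraic part: relations and free sets of monomials of almost the same size
-/
open Polynomial

namespace Pool.Agent.Lib.MP_524521_nt.RA

/-- bound for the coefficients of the relations -/
def XB (n A T' H B₀ : ℕ) : ℕ := (A * n).factorial * (T' ^ A * H ^ B₀) ^ (A * n)

/-- the number of monomials -/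
theorem card_sym_le {Γ : Type} [Fintype Γ] [DecidableEq Γ] {B B₀ : ℕ} (h : B ≤ B₀) :
    Fintype.card (Sym Γ B) ≤ (B₀ + 1) ^ Fintype.card Γ := by
  have hcount : ∀ (θ : Sym Γ B) (γ : Γ), θ.1.count γ < B₀ + 1 := by
    intro θ γ
    have h1 := Multiset.count_le_card γ θ.1
    rw [show Multiset.card θ.1 = B from θ.2] at h1
    omega
  have hinj : Function.Injective (fun (θ : Sym Γ B) (γ : Γ) =>
      (⟨θ.1.count γ, hcount θ γ⟩ : Fin (B₀ + 1))) := by
    intro θ θ' hh
    apply Subtype.ext
    apply Multiset.ext.2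
    intro γ
    have := congrFun hh γ
    exact congrArg Fin.val this
  have := Fintype.card_le_of_injective _ hinj
  rwa [Fintype.card_fun, Fintype.card_fin] at this

theorem free_mono {ι Γ : Type} {s : ι → ℚ} {c : ι → Γ → ℤ} {A A' : ℕ} {B : ℕ}
    {Θ : Finset (Sym Γ B)} (h : A ≤ A') (hf : Free s c A' Θ) : Free s c A Θ :=
  fun p hp h1 h2 => hf p (fun θ => (hp θ).trans_le (by exact_mod_cast h)) h1 h2

/-- (M1) -/
theorem algebra_main (m : ℕ) {Γ : Type} [Fintype Γ] [DecidableEq Γ] (ex : Γ → (Fin m →₀ ℕ))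
    (hex : Function.Injective ex) {ι : Type} [Fintype ι] (s : ι → ℚ) (hs : Function.Injective s)
    (c : ι → Γ → ℤ) (hc : ∀ i, c i ≠ 0) (η : ℝ) (hη : 0 < η) (B₀ : ℕ)
    (hB : ((B₀ : ℝ) + 1) ^ Fintype.card Γ < (1 + η) ^ B₀) (A A'' : ℕ → ℕ) (hA0 : 1 ≤ A 0)
    (hA : ∀ k, (B₀ + 1) ^ Fintype.card Γ * A k < A (k + 1))
    (hA'' : ∀ k, (B₀ + 1) ^ Fintype.card Γ * A'' k < A (k + 1))
    (hcard : A B₀ ≤ Fintype.card ι) (T' H : ℕ) (hT' : 1 ≤ T') (hH : 1 ≤ H)
    (hs1 : ∀ i, (s i).num.natAbs ≤ T') (hs2 : ∀ i, (s i).den ≤ T')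
    (hc1 : ∀ i γ, (c i γ).natAbs ≤ H) :
    ∃ k < B₀, ∃ B, B + 1 = B₀ - k ∧ ∃ (r : ℕ) (P : Fin r → Sym Γ (B + 1) → ℤ[X])
      (Θ₁ : Finset (Sym Γ B)) (Θ₂ : Finset (Sym Γ (B + 1))),
      (∀ j α, (P j α).degree < A k) ∧
      (∀ j α n, ((P j α).coeff n).natAbs ≤ XB ((B₀ + 1) ^ Fintype.card Γ) (A k) T' H B₀) ∧
      (∀ j i, ∑ α, (aeval (s i) (P j α) : ℚ) * ((mval (c i) α : ℤ) : ℚ) = 0) ∧
      0 < Θ₁.card ∧ Θ₁.card ≤ Θ₂.card ∧ Free s c (A'' k) Θ₂ ∧
      LinearIndependent (Polynomial (G m)) (Sum.elim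
        (fun (j : Fin r) (α : Sym Γ (B + 1)) => (P j α).map (algebraMap ℤ (G m)))
        (fun (θ : Θ₁) (α : Sym Γ (B + 1)) =>
          Polynomial.C (row (fun γ => (MvPolynomial.monomial (ex γ) (1 : ℤ) : G m)) θ.1 α))) ∧
      (Fintype.card (Sym Γ (B + 1)) : ℝ) - r - Θ₁.card ≤ η * Θ₁.card := by
  classical
  set n := (B₀ + 1) ^ Fintype.card Γ with hn
  have hApos : ∀ k, 1 ≤ A k := by
    intro k
    cases k with
    | zero => exact hA0
    | succ k => have := hA k; omega
  have hd : ∀ (a b : ℕ), 1 ≤ a → ∃ (r : ℕ) (P : Fin r → Sym Γ b → ℤ[X]) (Θ : Finset (Sym Γ b)),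
      (∀ j α, (P j α).degree < a) ∧
      (∀ j α n, ((P j α).coeff n).natAbs ≤
        (a * Fintype.card (Sym Γ b)).factorial *
          (T' ^ a * H ^ b) ^ (a * Fintype.card (Sym Γ b))) ∧
      (∀ j i, ∑ α, (aeval (s i) (P j α) : ℚ) * ((mval (c i) α : ℤ) : ℚ) = 0) ∧
      LinearIndependent ℤ[X] P ∧ Θ.card + r = Fintype.card (Sym Γ b) ∧ Free s c a Θ :=
    fun a b ha => relation_data s c a b T' H ha hT' hH hs1 hs2 hc1
  choose r P Θ h1 h2 h3 h4 h5 h6 using hd
  -- the key inequality
  have hkey : ∀ (a a' b : ℕ) (ha : 1 ≤ a) (ha' : 1 ≤ a'), b < B₀ → n * a < a' →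
      LinearIndependent (Polynomial (G m)) (Sum.elim
        (fun (j : Fin (r a (b + 1) ha)) (α : Sym Γ (b + 1)) =>
          (P a (b + 1) ha j α).map (algebraMap ℤ (G m)))
        (fun (θ : Θ a' b ha') (α : Sym Γ (b + 1)) =>
          Polynomial.C (row (fun γ => (MvPolynomial.monomial (ex γ) (1 : ℤ) : G m)) θ.1 α))) := by
    intro a a' b ha ha' hb hlt
    refine key_indep m ex hex s c hc a a' b _ _ (h1 a (b + 1) ha) (h3 a (b + 1) ha)
      (h4 a (b + 1) ha) _ (h6 a' b ha') (lt_of_le_of_lt ?_ hlt)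
    exact Nat.mul_le_mul_right _ (card_sym_le (by omega))
  have hle : ∀ (a a' b : ℕ) (ha : 1 ≤ a) (ha' : 1 ≤ a'), b < B₀ → n * a < a' →
      (Θ a' b ha').card ≤ (Θ a (b + 1) ha).card := by
    intro a a' b ha ha' hb hlt
    have h7 := (hkey a a' b ha ha' hb hlt).fintype_card_le_finrank
    rw [Module.finrank_fintype_fun_eq_card, Fintype.card_sum, Fintype.card_fin,
      Fintype.card_coe] at h7
    have h8 := h5 a (b + 1) ha
    omega
  set L : ℕ → ℕ := fun b => A (B₀ - b) with hL
  have hLpos : ∀ b, 1 ≤ L b := fun b => hApos _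
  have hLlt : ∀ b, b < B₀ → n * L (b + 1) < L b := by
    intro b hb
    have := hA (B₀ - (b + 1))
    rw [show B₀ - (b + 1) + 1 = B₀ - b by omega] at this
    exact this
  set f : ℕ → ℕ := fun b => (Θ (L b) b (hLpos b)).card with hf
  have hfmono : ∀ b, b < B₀ → f b ≤ f (b + 1) := fun b hb =>
    hle (L (b + 1)) (L b) b (hLpos _) (hLpos _) hb (hLlt b hb)
  -- the last step
  have hf0 : f 0 = 1 := by
    have hc0 : Fintype.card (Sym Γ 0) = 1 := by
      rw [Fintype.card_eq_one_iff]
      exact ⟨Sym.nil, fun y => Sym.eq_nil_of_card_zero y⟩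
    have h7 := h5 (L 0) 0 (hLpos 0)
    rw [hc0] at h7
    have h8 : r (L 0) 0 (hLpos 0) = 0 := by
      by_contra hne
      have hr : 0 < r (L 0) 0 (hLpos 0) := Nat.pos_of_ne_zero hne
      set p := P (L 0) 0 (hLpos 0) ⟨0, hr⟩ Sym.nil with hp
      have hp0 : p ≠ 0 := by
        intro hz
        have h9 := (h4 (L 0) 0 (hLpos 0)).ne_zero ⟨0, hr⟩
        apply h9
        ext1 α
        rw [Sym.eq_nil_of_card_zero α]
        exact hz
      have hroot : ∀ i, aeval (s i) p = (0 : ℚ) := by
        intro i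
        have h9 := h3 (L 0) 0 (hLpos 0) ⟨0, hr⟩ i
        have h10 : (Finset.univ : Finset (Sym Γ 0)) = {Sym.nil} := by
          ext α
          rw [Sym.eq_nil_of_card_zero α]
          simp only [Finset.mem_univ, Finset.mem_singleton]
        rw [h10, Finset.sum_singleton] at h9
        have h11 : mval (c i) (Sym.nil : Sym Γ 0) = 1 := by
          simp [mval, Sym.nil]
        rw [h11] at h9
        simpa using h9
      set q : ℚ[X] := p.map (Int.castRingHom ℚ) with hq
      have hq0 : q ≠ 0 := (Polynomial.map_ne_zero_iff (RingHom.injective_int _)).2 hp0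
      have hcardroots : Fintype.card ι ≤ q.natDegree := by
        have h12 : (Finset.univ.image s) ⊆ q.roots.toFinset := by
          intro x hx
          obtain ⟨i, -, rfl⟩ := Finset.mem_image.1 hx
          rw [Multiset.mem_toFinset, mem_roots hq0, IsRoot.def, hq, eval_map]
          have := hroot i
          rwa [aeval_def] at this
        calc Fintype.card ι = (Finset.univ.image s).card := by
              rw [Finset.card_image_of_injective _ hs, Finset.card_univ]
          _ ≤ q.roots.toFinset.card := Finset.card_le_card h12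
          _ ≤ Multiset.card q.roots := Multiset.toFinset_card_le _
          _ ≤ q.natDegree := card_roots' _
      have hdeg : q.natDegree < L 0 := by
        have h13 : p.degree < L 0 := h1 (L 0) 0 (hLpos 0) ⟨0, hr⟩ Sym.nil
        have h14 : q.degree = p.degree :=
          degree_map_eq_of_injective (RingHom.injective_int _) p
        rw [← h14, degree_eq_natDegree hq0] at h13
        exact_mod_cast h13
      have h15 : L 0 = A B₀ := by simp [hL]
      omega
    rw [hf]; simp only; omega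
  have hf1 : ∀ b, b ≤ B₀ → 1 ≤ f b := by
    intro b
    induction b with
    | zero => intro _; rw [hf0]
    | succ b ih => intro hb; exact (ih (by omega)).trans (hfmono b (by omega))
  have hftop : f B₀ ≤ n := by
    refine le_trans ?_ (card_sym_le (Γ := Γ) (le_refl B₀))
    have := h5 (L B₀) B₀ (hLpos B₀)
    rw [hf]; simp only; omega
  -- pigeonhole
  have hex2 : ∃ b < B₀, (f (b + 1) : ℝ) ≤ (1 + η) * f b := by
    by_contra hno
    push Not at hno
    have h7 : ∀ b, b ≤ B₀ → (1 + η) ^ b ≤ (f b : ℝ) := by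
      intro b
      induction b with
      | zero => intro _; rw [hf0]; simp
      | succ b ih =>
        intro hb
        have h8 := hno b (by omega)
        have h9 := ih (by omega)
        calc (1 + η) ^ (b + 1) = (1 + η) * (1 + η) ^ b := by ring
          _ ≤ (1 + η) * f b := mul_le_mul_of_nonneg_left h9 (by linarith)
          _ ≤ f (b + 1) := h8.le
    have h10 := h7 B₀ le_rfl
    have h11 : (f B₀ : ℝ) ≤ ((B₀ : ℝ) + 1) ^ Fintype.card Γ := by
      have : (f B₀ : ℝ) ≤ (n : ℝ) := by exact_mod_cast hftop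
      rw [hn] at this; push_cast at this; exact this
    linarith
  obtain ⟨b, hb, hfb⟩ := hex2
  have hk1 : B₀ - (b + 1) < B₀ := by omega
  have hL1 : L (b + 1) = A (B₀ - (b + 1)) := rfl
  set a2 := max (A'' (B₀ - (b + 1))) 1 with ha2
  have ha2pos : 1 ≤ a2 := le_max_right _ _
  have ha2lt : n * a2 < L b := by
    rcases le_total (A'' (B₀ - (b + 1))) 1 with h7 | h7
    · rw [ha2, max_eq_right h7]
      calc n * 1 ≤ n * L (b + 1) := Nat.mul_le_mul_left _ (hLpos _)
        _ < L b := hLlt b hb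
    · rw [ha2, max_eq_left h7]
      have := hA'' (B₀ - (b + 1))
      rw [show B₀ - (b + 1) + 1 = B₀ - b by omega] at this
      exact this
  refine ⟨B₀ - (b + 1), hk1, b, by omega, r (L (b + 1)) (b + 1) (hLpos _),
    P (L (b + 1)) (b + 1) (hLpos _), Θ (L b) b (hLpos _), Θ a2 (b + 1) ha2pos,
    h1 _ _ _, ?_, h3 _ _ _, hf1 b hb.le, hle a2 (L b) b ha2pos (hLpos _) hb ha2lt,
    free_mono (le_max_left _ _) (h6 a2 (b + 1) ha2pos),
    hkey (L (b + 1)) (L b) b (hLpos _) (hLpos _) hb (hLlt b hb), ?_⟩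
  · intro j α k
    refine (h2 (L (b + 1)) (b + 1) (hLpos _) j α k).trans ?_
    have hcs : Fintype.card (Sym Γ (b + 1)) ≤ n := card_sym_le (by omega)
    have h7 : L (b + 1) * Fintype.card (Sym Γ (b + 1)) ≤ L (b + 1) * n :=
      Nat.mul_le_mul_left _ hcs
    unfold XB
    refine Nat.mul_le_mul (Nat.factorial_le h7) ?_
    have h8 : T' ^ L (b + 1) * H ^ (b + 1) ≤ T' ^ L (b + 1) * H ^ B₀ :=
      Nat.mul_le_mul_left _ (Nat.pow_le_pow_right hH (by omega))
    refine (Nat.pow_le_pow_left h8 _).trans (Nat.pow_le_pow_right ?_ h7)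
    exact Nat.mul_pos (pow_pos hT' _) (pow_pos hH _)
  · have h7 := h5 (L (b + 1)) (b + 1) (hLpos _)
    have h8 : (Fintype.card (Sym Γ (b + 1)) : ℝ) =
        f (b + 1) + r (L (b + 1)) (b + 1) (hLpos _) := by
      rw [hf]; simp only; exact_mod_cast h7.symm
    rw [h8]
    have h9 : ((Θ (L b) b (hLpos b)).card : ℝ) = f b := rfl
    rw [h9]
    linarith

end Pool.Agent.Lib.MP_524521_nt.RA
end

section
/-!
# Kernels of matrices of polynomials

The kernel of a matrix of polynomials is spanned, over a field containing them, by vectors of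
polynomials whose degree is at most the number of rows times the degree of the entries.
-/
namespace Pool.Agent.Lib.MP_524521_nt.RA

open Polynomial

theorem kernel_span_R {D K : Type} [CommRing D] [IsDomain D] [Field K] (φ : D[X] →+* K)
    (hφ : Function.Injective φ) {ι κ : Type} [Fintype ι] [Fintype κ]
    [DecidableEq κ] (E : Matrix ι κ D[X]) (N : ℕ) (hE : ∀ i j, (E i j).natDegree ≤ N)
    (x : κ → K) (hx : ∀ i, ∑ j, φ (E i j) * x j = 0) :
    x ∈ Submodule.span K {v : κ → K | ∃ w : κ → D[X],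
      (∀ j, (w j).natDegree ≤ Fintype.card ι * N) ∧ (∀ i, ∑ j, E i j * w j = 0) ∧
      v = fun j => φ (w j)} := by
  classical
  set v : κ → (ι → K) := fun j i => φ (E i j) with hv
  obtain ⟨κ', a, ha, hspan, hli⟩ := exists_linearIndependent' K v
  have : Finite κ' := Finite.of_injective a ha
  let _ : Fintype κ' := Fintype.ofFinite κ'
  obtain ⟨b, hb, hdet⟩ := exists_minorK (v ∘ a) hli
  set M : Matrix κ' κ' D[X] := Matrix.of fun l k => E (b l) (a k) with hM
  have hMK : (M.map φ).det ≠ 0 := by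
    have : (Matrix.of fun k l => (v ∘ a) k (b l)) = (M.map φ).transpose := by
      ext k l; rfl
    rwa [this, Matrix.det_transpose] at hdet
  have hcast : (M.map φ).det = φ M.det := by
    rw [RingHom.map_det]
    rfl
  set d0 : D[X] := M.det with hd0
  have hD0 : φ d0 ≠ 0 := by rwa [hcast] at hMK
  set cr : κ → κ' → D[X] := fun j => M.cramer (fun l => E (b l) j) with hcr
  set w : κ → κ → D[X] := fun j x => (Pi.single j d0 : κ → D[X]) x -
    ∑ k, (Pi.single (a k) (cr j k) : κ → D[X]) x with hw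
  have hcard : Fintype.card κ' ≤ Fintype.card ι := Fintype.card_le_of_injective b hb
  have hbound : ∀ P : Matrix κ' κ' D[X], (∀ i j, (P i j).natDegree ≤ N) →
      P.det.natDegree ≤ Fintype.card ι * N := fun P hP =>
    (natDegree_det_le P N hP).trans (Nat.mul_le_mul_right _ hcard)
  have hDb : d0.natDegree ≤ Fintype.card ι * N := hbound M fun i j => hE _ _
  have hcrb : ∀ j k, (cr j k).natDegree ≤ Fintype.card ι * N := by
    intro j k
    rw [hcr]; simp only [Matrix.cramer_apply]
    refine hbound _ fun i l => ?_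
    rw [Matrix.updateCol_apply]
    split_ifs
    · exact hE _ _
    · exact hE _ _
  -- values outside the range
  have hwout : ∀ j x, x ∉ Set.range a → w j x = (Pi.single j d0 : κ → D[X]) x := by
    intro j x hx
    rw [hw]; simp only
    rw [Finset.sum_eq_zero, sub_zero]
    intro k _
    exact Pi.single_eq_of_ne (fun h => hx ⟨k, h.symm⟩) _
  have hwin : ∀ j k, j ∉ Set.range a → w j (a k) = - cr j k := by
    intro j k hj
    rw [hw]; simp only
    rw [Pi.single_eq_of_ne (fun h => hj ⟨k, h⟩), zero_sub, Finset.sum_eq_single k]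
    · rw [Pi.single_eq_same]
    · intro l _ hl
      exact Pi.single_eq_of_ne (fun h => hl (ha h).symm) _
    · simp
  -- the vectors are in the kernel
  have hker : ∀ j i, ∑ t, E i t * w j t = 0 := by
    intro j i
    have hmem : v j ∈ Submodule.span K (Set.range (v ∘ a)) := by
      rw [hspan]; exact Submodule.subset_span ⟨j, rfl⟩
    obtain ⟨lam, hlam⟩ := (Submodule.mem_span_range_iff_exists_fun K).1 hmem
    have hlam' : ∀ i, ∑ k, lam k * φ (E i (a k)) = φ (E i j) := by
      intro i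
      have := congrFun hlam i
      simpa [hv, Finset.sum_apply, smul_eq_mul] using this
    have h1 : (M.map φ).mulVec (fun k => φ (cr j k) - φ d0 * lam k) = 0 := by
      ext l
      have h2 := congrFun (Matrix.mulVec_cramer M (fun l => E (b l) j)) l
      simp only [Matrix.mulVec, dotProduct, Pi.smul_apply, smul_eq_mul, Matrix.map_apply,
        Pi.zero_apply] at h2 ⊢
      have h3 : (∑ k, φ (M l k) * φ (cr j k)) = φ d0 * φ (E (b l) j) := by
        rw [← map_mul, ← h2, map_sum]
        exact Finset.sum_congr rfl fun k _ => (map_mul φ _ _).symm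
      have h4 := hlam' (b l)
      simp only [mul_sub, Finset.sum_sub_distrib]
      rw [h3, ← h4, Finset.mul_sum, sub_eq_zero]
      refine Finset.sum_congr rfl fun k _ => ?_
      rw [hM]; simp only [Matrix.of_apply]; ring
    have h5 := Matrix.eq_zero_of_mulVec_eq_zero hMK h1
    have h6 : ∀ k, φ (cr j k) = φ d0 * lam k := fun k => by
      have := congrFun h5 k
      simpa [sub_eq_zero] using this
    have h7 : (∑ t, E i t * w j t) = d0 * E i j - ∑ k, E i (a k) * cr j k := by
      simp only [hw, mul_sub, Finset.sum_sub_distrib]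
      congr 1
      · rw [Finset.sum_eq_single j]
        · rw [Pi.single_eq_same]; ring
        · intro x _ hx; rw [Pi.single_eq_of_ne hx]; ring
        · simp
      · simp only [Finset.mul_sum]
        rw [Finset.sum_comm]
        refine Finset.sum_congr rfl fun k _ => ?_
        rw [Finset.sum_eq_single (a k)]
        · rw [Pi.single_eq_same]
        · intro x _ hx; rw [Pi.single_eq_of_ne hx]; ring
        · simp
    apply hφ
    rw [h7, map_zero, map_sub, map_mul, map_sum, ← hlam' i, Finset.mul_sum,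
      ← Finset.sum_sub_distrib]
    refine Finset.sum_eq_zero fun k _ => ?_
    rw [map_mul, h6 k]; ring
  set y : κ → K := x - ∑ j ∈ Finset.univ.filter (fun j => j ∉ Set.range a),
    (x j / φ d0) • (fun t => φ (w j t)) with hy
  have hyker : ∀ i, ∑ t, φ (E i t) * y t = 0 := by
    intro i
    have h2 : ∀ j, ∑ t, φ (E i t) * φ (w j t) = 0 := by
      intro j
      have := congrArg φ (hker j i)
      rw [map_sum, map_zero] at this
      rw [← this]
      exact Finset.sum_congr rfl fun t _ => (map_mul φ _ _).symm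
    simp only [hy, Pi.sub_apply, Finset.sum_apply, Pi.smul_apply, smul_eq_mul, mul_sub,
      Finset.sum_sub_distrib, hx i, zero_sub, neg_eq_zero, Finset.mul_sum]
    rw [Finset.sum_comm]
    refine Finset.sum_eq_zero fun j _ => ?_
    have h3 := h2 j
    calc ∑ t, φ (E i t) * (x j / φ d0 * φ (w j t))
        = (x j / φ d0) * ∑ t, φ (E i t) * φ (w j t) := by
          rw [Finset.mul_sum]; refine Finset.sum_congr rfl fun t _ => ?_; ring
      _ = 0 := by rw [h3, mul_zero]
  have hyout : ∀ t, t ∉ Set.range a → y t = 0 := by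
    intro t ht
    simp only [hy, Pi.sub_apply, Finset.sum_apply, Pi.smul_apply, smul_eq_mul]
    rw [Finset.sum_eq_single t]
    · rw [hwout t t ht, Pi.single_eq_same]; field_simp; ring
    · intro j _ hj
      rw [hwout j t ht, Pi.single_eq_of_ne (Ne.symm hj)]; simp
    · intro h; exact absurd (Finset.mem_filter.2 ⟨Finset.mem_univ t, ht⟩) h
  have hy0 : y = 0 := by
    have h1 : ∑ k, y (a k) • (v ∘ a) k = 0 := by
      rw [Fintype.sum_of_injective a ha (fun k => y (a k) • (v ∘ a) k) (fun t => y t • v t)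
        (fun t ht => by rw [hyout t ht, zero_smul]) (fun k => rfl)]
      ext i
      simp only [Finset.sum_apply, Pi.smul_apply, smul_eq_mul, Pi.zero_apply, hv]
      rw [← hyker i]
      refine Finset.sum_congr rfl fun t _ => ?_
      ring
    have h2 := Fintype.linearIndependent_iff.1 hli _ h1
    ext t
    by_cases ht : t ∈ Set.range a
    · obtain ⟨k, rfl⟩ := ht; exact h2 k
    · exact hyout t ht
  have hxe : x = ∑ j ∈ Finset.univ.filter (fun j => j ∉ Set.range a),
    (x j / φ d0) • (fun t => φ (w j t)) := by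
    rw [hy] at hy0
    exact sub_eq_zero.1 hy0
  rw [hxe]
  refine Submodule.sum_mem _ fun j hj => Submodule.smul_mem _ _ (Submodule.subset_span ?_)
  refine ⟨w j, fun t => ?_, fun i => hker j i, rfl⟩
  have hj' := (Finset.mem_filter.1 hj).2
  by_cases ht : t ∈ Set.range a
  · obtain ⟨k, rfl⟩ := ht
    rw [hwin j k hj', natDegree_neg]; exact hcrb j k
  · rw [hwout j t ht]
    by_cases htj : t = j
    · subst htj; rw [Pi.single_eq_same]; exact hDb
    · rw [Pi.single_eq_of_ne htj]; simp

end Pool.Agent.Lib.MP_524521_nt.RA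
end

section
/-!
# The spans of the relations over the field of fractions of `ℚ[g^(0), g^(1), ..][X]`

`kernel_le`: if `L_1 .. L_j v` is in the span of the relations of degree `< A`, then `v` is in the
span of the relations of degree `< A'`, as soon as `A' > n A`.
-/
open Polynomial

namespace Pool.Agent.Lib.MP_524521_nt.RA

/-- infinitely many copies of the variables -/
abbrev DD (m : ℕ) := MvPolynomial (ℕ × Fin m) ℚ

/-- the big field -/
abbrev FF (m : ℕ) := FractionRing (DD m)[X]

noncomputable def jF (m : ℕ) : (DD m)[X] →+* FF m := algebraMap _ _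

theorem jF_inj (m : ℕ) : Function.Injective (jF m) := IsFractionRing.injective _ _

noncomputable def jC (m : ℕ) : ℚ[X] →+* (DD m)[X] := mapRingHom MvPolynomial.C

theorem jC_inj (m : ℕ) : Function.Injective (jC m) :=
  Polynomial.map_injective _ (MvPolynomial.C_injective _ _)

noncomputable def emb (m : ℕ) : ℚ[X] →+* FF m := (jF m).comp (jC m)

theorem emb_inj (m : ℕ) : Function.Injective (emb m) := (jF_inj m).comp (jC_inj m)

noncomputable def kap (m : ℕ) : RatFunc ℚ →+* FF m :=
  IsFractionRing.lift (A := ℚ[X]) (K := RatFunc ℚ) (emb_inj m)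

theorem kap_algebraMap (m : ℕ) (p : ℚ[X]) :
    kap m (algebraMap ℚ[X] (RatFunc ℚ) p) = emb m p :=
  IsFractionRing.lift_algebraMap _ _

section cq

variable {m : ℕ}

/-- the coefficient of the monomial `μ`, a polynomial in `X` -/
noncomputable def cq (μ : (ℕ × Fin m) →₀ ℕ) (x : (DD m)[X]) : ℚ[X] :=
  ∑ n ∈ x.support, Polynomial.monomial n (MvPolynomial.coeff μ (x.coeff n))

theorem cq_coeff (μ : (ℕ × Fin m) →₀ ℕ) (x : (DD m)[X]) (n : ℕ) :
    (cq μ x).coeff n = MvPolynomial.coeff μ (x.coeff n) := by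
  rw [cq, Polynomial.finsetSum_coeff]
  simp only [Polynomial.coeff_monomial]
  rw [Finset.sum_ite_eq' x.support n]
  split_ifs with h
  · rfl
  · rw [Polynomial.notMem_support_iff.mp h, MvPolynomial.coeff_zero]

theorem cq_degree {A : ℕ} (μ : (ℕ × Fin m) →₀ ℕ) (x : (DD m)[X]) (hx : x.degree < A) :
    (cq μ x).degree < A := by
  rw [Polynomial.degree_lt_iff_coeff_zero] at hx ⊢
  intro n hn
  rw [cq_coeff, hx n hn, MvPolynomial.coeff_zero]

theorem cq_eval (μ : (ℕ × Fin m) →₀ ℕ) (x : (DD m)[X]) (t : ℚ) :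
    (cq μ x).eval t = MvPolynomial.coeff μ (x.eval (MvPolynomial.C t)) := by
  have h1 : (cq μ x).natDegree < x.natDegree + 1 := by
    rw [Nat.lt_succ_iff, Polynomial.natDegree_le_iff_coeff_eq_zero]
    intro n hn
    rw [cq_coeff, Polynomial.coeff_eq_zero_of_natDegree_lt hn, MvPolynomial.coeff_zero]
  rw [Polynomial.eval_eq_sum_range' h1, Polynomial.eval_eq_sum_range, MvPolynomial.coeff_sum]
  refine Finset.sum_congr rfl fun n _ => ?_
  rw [cq_coeff, ← map_pow, mul_comm (x.coeff n), MvPolynomial.coeff_C_mul, mul_comm]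

theorem sum_cq (x : (DD m)[X]) (S : Finset ((ℕ × Fin m) →₀ ℕ))
    (hS : ∀ n, (x.coeff n).support ⊆ S) :
    x = ∑ μ ∈ S, C (MvPolynomial.monomial μ (1 : ℚ)) * jC m (cq μ x) := by
  classical
  apply Polynomial.ext
  intro n
  apply MvPolynomial.ext
  intro ν
  rw [Polynomial.finsetSum_coeff, MvPolynomial.coeff_sum]
  have h1 : ∀ μ, MvPolynomial.coeff ν
      ((C (MvPolynomial.monomial μ (1 : ℚ)) * jC m (cq μ x)).coeff n) =
      if μ = ν then MvPolynomial.coeff μ (x.coeff n) else 0 := by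
    intro μ
    rw [Polynomial.coeff_C_mul, jC, Polynomial.coe_mapRingHom, Polynomial.coeff_map, cq_coeff,
      mul_comm, MvPolynomial.C_mul_monomial, mul_one, MvPolynomial.coeff_monomial]
  rw [Finset.sum_congr rfl fun μ _ => h1 μ, Finset.sum_ite_eq' S ν]
  split_ifs with h
  · rfl
  · by_contra hne
    exact h (hS n (MvPolynomial.mem_support_iff.mpr hne))

end cq

section KF

variable {m : ℕ} {Γ : Type} [Fintype Γ] [DecidableEq Γ] {ι : Type}

/-- the span of the relations over the big field -/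
noncomputable def KF (m : ℕ) (s : ι → ℚ) (c : ι → Γ → ℤ) (A B : ℕ) :
    Submodule (FF m) (Sym Γ B → FF m) :=
  Submodule.span (FF m) {v | ∃ p : Sym Γ B → ℚ[X], (∀ α, (p α).degree < A) ∧
    (∀ i, ∑ α, (p α).eval (s i) * ((mval (c i) α : ℤ) : ℚ) = 0) ∧
    v = fun α => emb m (p α)}

/-- a relation with coefficients in the variables `g` is a combination of relations -/
theorem coef_mem (s : ι → ℚ) (c : ι → Γ → ℤ) (A B : ℕ) (w : Sym Γ B → (DD m)[X])
    (hdeg : ∀ α, (w α).degree < A)
    (hv : ∀ i, ∑ α, (w α).eval (MvPolynomial.C (s i)) *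
      MvPolynomial.C ((mval (c i) α : ℤ) : ℚ) = 0) :
    (fun α => jF m (w α)) ∈ KF m s c A B := by
  classical
  set S : Finset ((ℕ × Fin m) →₀ ℕ) :=
    Finset.univ.biUnion fun α => (w α).support.biUnion fun n => ((w α).coeff n).support with hS
  have hSα : ∀ α n, ((w α).coeff n).support ⊆ S := by
    intro α n μ hμ
    rw [hS, Finset.mem_biUnion]
    refine ⟨α, Finset.mem_univ _, ?_⟩
    rw [Finset.mem_biUnion]
    refine ⟨n, ?_, hμ⟩
    rw [Polynomial.mem_support_iff]
    intro h0
    rw [h0] at hμ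
    simp at hμ
  have h1 : (fun α => jF m (w α)) =
      ∑ μ ∈ S, jF m (C (MvPolynomial.monomial μ (1 : ℚ))) • fun α => emb m (cq μ (w α)) := by
    funext α
    rw [Finset.sum_apply]
    conv_lhs => rw [sum_cq (w α) S (hSα α), map_sum]
    refine Finset.sum_congr rfl fun μ _ => ?_
    rw [map_mul, Pi.smul_apply, smul_eq_mul]
    rfl
  rw [h1]
  refine Submodule.sum_mem _ fun μ _ => Submodule.smul_mem _ _ (Submodule.subset_span ?_)
  refine ⟨fun α => cq μ (w α), fun α => cq_degree μ _ (hdeg α), fun i => ?_, rfl⟩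
  have h2 := congrArg (MvPolynomial.coeff μ) (hv i)
  rw [MvPolynomial.coeff_sum, MvPolynomial.coeff_zero] at h2
  rw [← h2]
  refine Finset.sum_congr rfl fun α _ => ?_
  rw [cq_eval, mul_comm _ (MvPolynomial.C _), MvPolynomial.coeff_C_mul, mul_comm]

/-- the linear form of the copy `j` -/
noncomputable def Lf (ex : Γ → (Fin m →₀ ℕ)) (j : ℕ) (γ : Γ) : DD m :=
  MvPolynomial.rename (fun i : Fin m => (j, i)) (MvPolynomial.monomial (ex γ) (1 : ℚ))

theorem Lf_pair_ne (ex : Γ → (Fin m →₀ ℕ)) (hex : Function.Injective ex) (c : Γ → ℤ)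
    (hc : c ≠ 0) (j : ℕ) :
    ∑ γ, Lf ex j γ * MvPolynomial.C ((c γ : ℤ) : ℚ) ≠ 0 := by
  have h1 : ∑ γ, Lf ex j γ * MvPolynomial.C ((c γ : ℤ) : ℚ) =
      MvPolynomial.rename (fun i : Fin m => (j, i)) (LL ex c) := by
    rw [LL, map_sum]
    refine Finset.sum_congr rfl fun γ _ => ?_
    have h2 : (MvPolynomial.monomial (ex γ) ((c γ : ℤ) : ℚ) : MvPolynomial (Fin m) ℚ) =
        MvPolynomial.monomial (ex γ) 1 * MvPolynomial.C ((c γ : ℤ) : ℚ) := by
      rw [mul_comm, MvPolynomial.C_mul_monomial, mul_one]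
    rw [h2, map_mul, MvPolynomial.rename_C]
    rfl
  rw [h1]
  intro h0
  apply LL_ne_zero ex hex c hc
  apply MvPolynomial.rename_injective (fun i : Fin m => (j, i))
    (fun a b h => (Prod.mk.injEq _ _ _ _ ▸ h : _ ∧ _).2)
  rw [h0, map_zero]

theorem mval_C {R : Type} [CommRing R] (f : ℚ →+* R) (c : Γ → ℤ) {B : ℕ} (α : Sym Γ B) :
    mval (fun γ => f ((c γ : ℤ) : ℚ)) α = f ((mval c α : ℤ) : ℚ) := by
  unfold mval
  have h := map_multiset_prod (f.comp (Int.castRingHom ℚ)) (α.1.map c)
  rw [Multiset.map_map] at h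
  exact h.symm

/-- the value of `L_1 .. L_j v` at a point -/
theorem eval_Phi (ex : Γ → (Fin m →₀ ℕ)) (c : Γ → ℤ) (t : ℚ) (Δ j B : ℕ) (h : B + j = Δ)
    (v : Sym Γ B → (DD m)[X]) :
    ∑ α, (Phi (fun i γ => (C (Lf ex i γ) : (DD m)[X])) Δ j B h v α).eval (MvPolynomial.C t) *
      MvPolynomial.C ((mval c α : ℤ) : ℚ) =
      (∏ i ∈ Finset.range j, ∑ γ, Lf ex i γ * MvPolynomial.C ((c γ : ℤ) : ℚ)) *
        ∑ θ, (v θ).eval (MvPolynomial.C t) * MvPolynomial.C ((mval c θ : ℤ) : ℚ) := by
  have h1 := map_Phi (Polynomial.evalRingHom (MvPolynomial.C t : DD m))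
    (fun i γ => (C (Lf ex i γ) : (DD m)[X])) Δ j B h v
  have h2 : (fun (i : ℕ) (γ : Γ) => (Polynomial.evalRingHom (MvPolynomial.C t : DD m))
      (C (Lf ex i γ) : (DD m)[X])) = Lf ex := by
    funext i γ
    rw [Polynomial.coe_evalRingHom, Polynomial.eval_C]
  rw [h2] at h1
  have h3 := pair_Phi (Lf ex) (fun γ => (MvPolynomial.C ((c γ : ℤ) : ℚ) : DD m)) Δ j B h
    (fun θ => (Polynomial.evalRingHom (MvPolynomial.C t : DD m)) (v θ))
  rw [h1] at h3
  have h4 : ∀ {b : ℕ} (α : Sym Γ b), mval (fun γ => (MvPolynomial.C ((c γ : ℤ) : ℚ) : DD m)) α =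
      MvPolynomial.C ((mval c α : ℤ) : ℚ) := fun α => mval_C MvPolynomial.C c α
  simp only [h4, Polynomial.coe_evalRingHom] at h3
  exact h3

/-- the composite multiplication over the big field -/
noncomputable def PhiF (ex : Γ → (Fin m →₀ ℕ)) (Δ j B : ℕ) (h : B + j = Δ) :
    (Sym Γ B → FF m) →ₗ[FF m] (Sym Γ Δ → FF m) :=
  Phi (fun i γ => jF m (C (Lf ex i γ))) Δ j B h

theorem PhiF_map (ex : Γ → (Fin m →₀ ℕ)) (Δ j B : ℕ) (h : B + j = Δ)
    (v : Sym Γ B → (DD m)[X]) :
    PhiF ex Δ j B h (fun θ => jF m (v θ)) =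
      fun α => jF m (Phi (fun i γ => (C (Lf ex i γ) : (DD m)[X])) Δ j B h v α) :=
  map_Phi (jF m) _ Δ j B h v

theorem eval_jC (p : ℚ[X]) (t : ℚ) :
    (jC m p).eval (MvPolynomial.C t) = MvPolynomial.C (p.eval t) := by
  rw [jC, Polynomial.coe_mapRingHom, Polynomial.eval_map, Polynomial.eval₂_at_apply]

theorem jC_degree {A : ℕ} (p : ℚ[X]) (hp : p.degree < A) : (jC m p).degree < A :=
  (Polynomial.degree_map_le).trans_lt hp

/-- multiplication maps relations to relations -/
theorem KF_le_comap (ex : Γ → (Fin m →₀ ℕ)) (s : ι → ℚ) (c : ι → Γ → ℤ) (A Δ j B : ℕ)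
    (h : B + j = Δ) : KF m s c A B ≤ (KF m s c A Δ).comap (PhiF ex Δ j B h) := by
  rw [KF, Submodule.span_le]
  rintro v ⟨p, hp1, hp2, rfl⟩
  show PhiF ex Δ j B h (fun α => jF m (jC m (p α))) ∈ KF m s c A Δ
  rw [PhiF_map]
  refine coef_mem s c A Δ _ (fun α => Phi_degree _ _ _ _ _ _ (fun θ => jC_degree _ (hp1 θ)) α)
    fun i => ?_
  rw [eval_Phi]
  have h1 : ∑ θ, (jC m (p θ)).eval (MvPolynomial.C (s i)) *
      MvPolynomial.C ((mval (c i) θ : ℤ) : ℚ) = (0 : DD m) := by
    rw [← map_zero (MvPolynomial.C : ℚ →+* DD m), ← hp2 i, map_sum]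
    refine Finset.sum_congr rfl fun θ _ => ?_
    rw [eval_jC, map_mul]
  rw [h1, mul_zero]

/-- the kernel of the multiplication -/
theorem comap_le_KF (ex : Γ → (Fin m →₀ ℕ)) (hex : Function.Injective ex) (s : ι → ℚ)
    (c : ι → Γ → ℤ) (hc : ∀ i, c i ≠ 0) (A A' Δ j B : ℕ) (h : B + j = Δ)
    (hA' : Fintype.card (Sym Γ Δ) * A < A') :
    (KF m s c A Δ).comap (PhiF ex Δ j B h) ≤ KF m s c A' B := by
  classical
  intro v hv
  rw [Submodule.mem_comap, KF, Submodule.mem_span_set'] at hv
  obtain ⟨n, y, g, hg⟩ := hv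
  choose p hp1 hp2 hp3 using fun l => (g l).2
  set E : Matrix (Sym Γ Δ) (Sym Γ B ⊕ Fin n) (DD m)[X] := fun α x =>
    Sum.elim (fun θ => Phi (fun i γ => (C (Lf ex i γ) : (DD m)[X])) Δ j B h (Pi.single θ 1) α)
      (fun l => -jC m (p l α)) x with hE
  have hEdeg : ∀ α x, (E α x).natDegree ≤ A := by
    intro α x
    rcases x with θ | l
    · -- constants
      have h1 : (E α (Sum.inl θ)).degree < (1 : ℕ) :=
        Phi_degree (A := 1) _ _ _ _ _ _ (fun β => by
          by_cases hβ : β = θ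
          · subst hβ
            rw [Pi.single_eq_same, Polynomial.degree_one]
            exact_mod_cast Nat.one_pos
          · rw [Pi.single_eq_of_ne hβ, Polynomial.degree_zero]
            exact WithBot.bot_lt_coe _) α
      have h2 : (E α (Sum.inl θ)).natDegree = 0 := by
        by_cases h0 : E α (Sum.inl θ) = 0
        · rw [h0, Polynomial.natDegree_zero]
        · rw [Polynomial.degree_eq_natDegree h0] at h1
          have : (E α (Sum.inl θ)).natDegree < 1 := by exact_mod_cast h1
          omega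
      omega
    · have h1 : (E α (Sum.inr l)).natDegree ≤ A := by
        show (-jC m (p l α)).natDegree ≤ A
        rw [Polynomial.natDegree_neg]
        exact Polynomial.natDegree_le_of_degree_le (jC_degree _ (hp1 l α)).le
      exact h1
  have hEx : ∀ α, ∑ x, jF m (E α x) * (Sum.elim v y : Sym Γ B ⊕ Fin n → FF m) x = 0 := by
    intro α
    rw [Fintype.sum_sum_type]
    simp only [Sum.elim_inl, Sum.elim_inr]
    have h1 : PhiF ex Δ j B h v α = ∑ θ, jF m (E α (Sum.inl θ)) * v θ := by
      have h2 : v = ∑ θ, v θ • fun β => jF m ((Pi.single θ 1 : Sym Γ B → (DD m)[X]) β) := by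
        funext β
        rw [Finset.sum_apply, Finset.sum_eq_single β]
        · rw [Pi.smul_apply, Pi.single_eq_same, map_one, smul_eq_mul, mul_one]
        · intro θ _ hθ
          rw [Pi.smul_apply, Pi.single_eq_of_ne (Ne.symm hθ), map_zero, smul_zero]
        · intro hh
          exact absurd (Finset.mem_univ _) hh
      conv_lhs => rw [h2]
      rw [map_sum, Finset.sum_apply]
      refine Finset.sum_congr rfl fun θ _ => ?_
      rw [map_smul, PhiF_map, Pi.smul_apply, smul_eq_mul, mul_comm]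
      rfl
    rw [← h1, ← hg, Finset.sum_apply, ← Finset.sum_add_distrib]
    refine Finset.sum_eq_zero fun l _ => ?_
    rw [Pi.smul_apply, smul_eq_mul, hp3 l]
    show y l * emb m (p l α) + jF m (-jC m (p l α)) * y l = 0
    rw [map_neg]
    show y l * jF m (jC m (p l α)) + -jF m (jC m (p l α)) * y l = 0
    ring
  have hx := kernel_span_R (jF m) (jF_inj m) E A hEdeg (Sum.elim v y) hEx
  -- projection to the first component
  set π : (Sym Γ B ⊕ Fin n → FF m) →ₗ[FF m] (Sym Γ B → FF m) :=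
    LinearMap.funLeft (FF m) (FF m) Sum.inl with hπ
  have hle : Submodule.span (FF m) {x : Sym Γ B ⊕ Fin n → FF m | ∃ w : Sym Γ B ⊕ Fin n → (DD m)[X],
      (∀ x, (w x).natDegree ≤ Fintype.card (Sym Γ Δ) * A) ∧ (∀ α, ∑ x, E α x * w x = 0) ∧
      x = fun x => jF m (w x)} ≤ (KF m s c A' B).comap π := by
    rw [Submodule.span_le]
    rintro _ ⟨w, hw1, hw2, rfl⟩
    show (fun θ => jF m (w (Sum.inl θ))) ∈ KF m s c A' B
    refine coef_mem s c A' B _ (fun θ => ?_) fun i => ?_
    · refine lt_of_le_of_lt Polynomial.degree_le_natDegree ?_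
      exact_mod_cast lt_of_le_of_lt (hw1 _) hA'
    · have h1 := eval_Phi ex (c i) (s i) Δ j B h (fun θ => w (Sum.inl θ))
      have h2 : ∀ α, Phi (fun i γ => (C (Lf ex i γ) : (DD m)[X])) Δ j B h
          (fun θ => w (Sum.inl θ)) α = ∑ l, w (Sum.inr l) * jC m (p l α) := by
        intro α
        have h3 := hw2 α
        rw [Fintype.sum_sum_type] at h3
        have h4 : Phi (fun i γ => (C (Lf ex i γ) : (DD m)[X])) Δ j B h
            (fun θ => w (Sum.inl θ)) α = ∑ θ, E α (Sum.inl θ) * w (Sum.inl θ) := by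
          have h5 : (fun θ => w (Sum.inl θ)) = ∑ θ : Sym Γ B, w (Sum.inl θ) •
              (Pi.single θ 1 : Sym Γ B → (DD m)[X]) := by
            funext β
            rw [Finset.sum_apply, Finset.sum_eq_single β]
            · rw [Pi.smul_apply, Pi.single_eq_same, smul_eq_mul, mul_one]
            · intro θ _ hθ
              rw [Pi.smul_apply, Pi.single_eq_of_ne (Ne.symm hθ), smul_zero]
            · intro hh
              exact absurd (Finset.mem_univ _) hh
          conv_lhs => rw [h5]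
          rw [map_sum, Finset.sum_apply]
          refine Finset.sum_congr rfl fun θ _ => ?_
          rw [map_smul, Pi.smul_apply, smul_eq_mul, mul_comm]
          rfl
        rw [h4]
        have h6 : ∑ l : Fin n, E α (Sum.inr l) * w (Sum.inr l) =
            -∑ l, w (Sum.inr l) * jC m (p l α) := by
          rw [← Finset.sum_neg_distrib]
          refine Finset.sum_congr rfl fun l _ => ?_
          show -jC m (p l α) * w (Sum.inr l) = _
          ring
        rw [h6] at h3
        linear_combination h3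
      have h7 : ∑ α, (Phi (fun i γ => (C (Lf ex i γ) : (DD m)[X])) Δ j B h
          (fun θ => w (Sum.inl θ)) α).eval (MvPolynomial.C (s i)) *
          MvPolynomial.C ((mval (c i) α : ℤ) : ℚ) = (0 : DD m) := by
        have h8 : ∀ α, (Phi (fun i γ => (C (Lf ex i γ) : (DD m)[X])) Δ j B h
            (fun θ => w (Sum.inl θ)) α).eval (MvPolynomial.C (s i)) *
            MvPolynomial.C ((mval (c i) α : ℤ) : ℚ) =
            ∑ l, (w (Sum.inr l)).eval (MvPolynomial.C (s i)) *
              MvPolynomial.C ((p l α).eval (s i) * ((mval (c i) α : ℤ) : ℚ)) := by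
          intro α
          rw [h2, Polynomial.eval_finsetSum, Finset.sum_mul]
          refine Finset.sum_congr rfl fun l _ => ?_
          rw [Polynomial.eval_mul, eval_jC, map_mul, mul_assoc]
        rw [Finset.sum_congr rfl fun α _ => h8 α, Finset.sum_comm]
        refine Finset.sum_eq_zero fun l _ => ?_
        rw [← Finset.mul_sum, ← map_sum, hp2 l i, map_zero, mul_zero]
      rw [h7] at h1
      rcases mul_eq_zero.mp h1.symm with h9 | h9
      · exfalso
        rw [Finset.prod_eq_zero_iff] at h9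
        obtain ⟨i', -, h10⟩ := h9
        exact Lf_pair_ne ex hex (c i) (hc i) i' h10
      · exact h9
  have hfin := hle hx
  exact hfin

end KF

end Pool.Agent.Lib.MP_524521_nt.RA
end

section
/-!
# The ranks `a_j` of the multiplication by `L_1 .. L_j`
-/
open Polynomial

namespace Pool.Agent.Lib.MP_524521_nt.RA

section linalg

variable {k K : Type} [Field k] [Field K]

theorem span_map (φ : k →+* K) {κ : Type} (S : Set (κ → k)) (v : κ → k)
    (hv : v ∈ Submodule.span k S) :
    (fun i => φ (v i)) ∈ Submodule.span K ((fun v : κ → k => fun i => φ (v i)) '' S) := by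
  induction hv using Submodule.span_induction with
  | mem x hx => exact Submodule.subset_span ⟨x, hx, rfl⟩
  | zero =>
    have : (fun i => φ ((0 : κ → k) i)) = 0 := by
      funext i
      simp
    rw [this]
    exact Submodule.zero_mem _
  | add x y _ _ hx hy =>
    have : (fun i => φ ((x + y) i)) = (fun i => φ (x i)) + fun i => φ (y i) := by
      funext i
      simp
    rw [this]
    exact Submodule.add_mem _ hx hy
  | smul a x _ hx =>
    have : (fun i => φ ((a • x) i)) = φ a • fun i => φ (x i) := by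
      funext i
      simp
    rw [this]
    exact Submodule.smul_mem _ _ hx

theorem li_map (φ : k →+* K) {ι κ : Type} [Fintype ι] [DecidableEq ι] [Fintype κ]
    (u : ι → κ → k) (hu : LinearIndependent k u) :
    LinearIndependent K (fun i j => φ (u i j)) := by
  obtain ⟨g, -, hdet⟩ := exists_minorK u hu
  refine li_of_minor _ g ?_
  have h1 : (Matrix.of fun i j => φ (u i (g j))) =
      φ.mapMatrix (Matrix.of fun i j => u i (g j)) := by
    ext i j
    rfl
  rw [h1, ← RingHom.map_det]
  exact (map_ne_zero φ).mpr hdet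

/-- the rank does not change under a field extension -/
theorem finrank_span_map (φ : k →+* K) {κ : Type} [Fintype κ] (S : Set (κ → k)) :
    Module.finrank K (Submodule.span K ((fun v : κ → k => fun i => φ (v i)) '' S)) =
      Module.finrank k (Submodule.span k S) := by
  classical
  obtain ⟨b, hbS, hspan, hli⟩ := exists_linearIndependent k S
  have hfin : Finite b := hli.finite
  let _ : Fintype b := Fintype.ofFinite b
  have h1 : Module.finrank k (Submodule.span k S) = Fintype.card b := by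
    rw [← hspan]
    have := finrank_span_eq_card hli
    rwa [Subtype.range_coe] at this
  have hli' := li_map φ (fun x : b => (x : κ → k)) hli
  have h2 := finrank_span_eq_card hli'
  rw [h1, ← h2]
  have h3 : Set.range (fun (x : b) (j : κ) => φ ((x : κ → k) j)) =
      (fun v : κ → k => fun i => φ (v i)) '' b := by
    ext v
    constructor
    · rintro ⟨x, rfl⟩
      exact ⟨x.1, x.2, rfl⟩
    · rintro ⟨x, hx, rfl⟩
      exact ⟨⟨x, hx⟩, rfl⟩
  have h4 : Submodule.span K ((fun v : κ → k => fun i => φ (v i)) '' S) =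
      Submodule.span K ((fun v : κ → k => fun i => φ (v i)) '' b) := by
    apply le_antisymm
    · rw [Submodule.span_le]
      rintro _ ⟨v, hv, rfl⟩
      have hv' : v ∈ Submodule.span k b := by
        rw [hspan]
        exact Submodule.subset_span hv
      exact span_map φ b v hv'
    · exact Submodule.span_mono (Set.image_mono hbS)
  rw [h3, h4]

theorem finrank_map_add_ker {V Q : Type} [AddCommGroup V] [Module K V] [FiniteDimensional K V]
    [AddCommGroup Q] [Module K Q] (f : V →ₗ[K] Q) (S : Submodule K V)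
    (hS : LinearMap.ker f ≤ S) :
    Module.finrank K (S.map f) + Module.finrank K (LinearMap.ker f) = Module.finrank K S := by
  have h1 := LinearMap.finrank_range_add_finrank_ker (f.domRestrict S)
  rw [LinearMap.range_domRestrict, LinearMap.ker_domRestrict] at h1
  rw [← h1]
  congr 1
  exact (LinearEquiv.finrank_eq (Submodule.comapSubtypeEquivOfLe hS)).symm

end linalg

section ranks

variable {m : ℕ} {Γ : Type} [Fintype Γ] [DecidableEq Γ] {ι : Type}

theorem KF_eq (s : ι → ℚ) (c : ι → Γ → ℤ) (A B : ℕ) :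
    KF m s c A B = Submodule.span (FF m) ((fun v : Sym Γ B → RatFunc ℚ => fun i => kap m (v i)) ''
      {v | ∃ p : Sym Γ B → ℚ[X], (∀ α, (p α).degree < A) ∧
        (∀ i, ∑ α, (p α).eval (s i) * ((mval (c i) α : ℤ) : ℚ) = 0) ∧
        v = fun α => algebraMap ℚ[X] (RatFunc ℚ) (p α)}) := by
  rw [KF]
  congr 1
  ext v
  constructor
  · rintro ⟨p, h1, h2, rfl⟩
    refine ⟨fun α => algebraMap ℚ[X] (RatFunc ℚ) (p α), ⟨p, h1, h2, rfl⟩, ?_⟩
    funext α
    exact kap_algebraMap m (p α)
  · rintro ⟨_, ⟨p, h1, h2, rfl⟩, rfl⟩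
    refine ⟨p, h1, h2, ?_⟩
    funext α
    exact kap_algebraMap m (p α)

theorem fH_add (s : ι → ℚ) (c : ι → Γ → ℤ) (A B : ℕ) :
    fH s c A B + Module.finrank (FF m) (KF m s c A B) = Fintype.card (Sym Γ B) := by
  have h1 : Module.finrank (FF m) (KF m s c A B) =
      Module.finrank (RatFunc ℚ) (RelK s c A B) := by
    rw [KF_eq, finrank_span_map]
    rfl
  have h2 : Module.finrank (RatFunc ℚ) (RelK s c A B) ≤ Fintype.card (Sym Γ B) := by
    have := Submodule.finrank_le (RelK s c A B)
    rwa [Module.finrank_fintype_fun_eq_card] at this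
  rw [h1, fH]
  omega

/-- the map `L_1 .. L_j` modulo the relations -/
noncomputable def fq (ex : Γ → (Fin m →₀ ℕ)) (s : ι → ℚ) (c : ι → Γ → ℤ) (A Δ j B : ℕ)
    (h : B + j = Δ) : (Sym Γ B → FF m) →ₗ[FF m] ((Sym Γ Δ → FF m) ⧸ KF m s c A Δ) :=
  (KF m s c A Δ).mkQ.comp (PhiF ex Δ j B h)

/-- the rank -/
noncomputable def rk (ex : Γ → (Fin m →₀ ℕ)) (s : ι → ℚ) (c : ι → Γ → ℤ) (A Δ j B : ℕ)
    (h : B + j = Δ) : ℕ :=
  Module.finrank (FF m) (LinearMap.range (fq ex s c A Δ j B h))

theorem ker_fq (ex : Γ → (Fin m →₀ ℕ)) (s : ι → ℚ) (c : ι → Γ → ℤ) (A Δ j B : ℕ)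
    (h : B + j = Δ) :
    LinearMap.ker (fq ex s c A Δ j B h) = (KF m s c A Δ).comap (PhiF ex Δ j B h) := by
  rw [fq, LinearMap.ker_comp, Submodule.ker_mkQ]

theorem rk_add (ex : Γ → (Fin m →₀ ℕ)) (s : ι → ℚ) (c : ι → Γ → ℤ) (A Δ j B : ℕ)
    (h : B + j = Δ) :
    rk ex s c A Δ j B h + Module.finrank (FF m) (LinearMap.ker (fq ex s c A Δ j B h)) =
      Fintype.card (Sym Γ B) := by
  rw [rk, LinearMap.finrank_range_add_finrank_ker, Module.finrank_fintype_fun_eq_card]

theorem fq_succ (ex : Γ → (Fin m →₀ ℕ)) (s : ι → ℚ) (c : ι → Γ → ℤ) (A Δ j B : ℕ)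
    (h : B + (j + 1) = Δ) (h' : B + 1 + j = Δ) :
    fq ex s c A Δ (j + 1) B h =
      (fq ex s c A Δ j (B + 1) h').comp (mulL (fun γ => jF m (C (Lf ex j γ))) B) := rfl

theorem rk_succ_le (ex : Γ → (Fin m →₀ ℕ)) (s : ι → ℚ) (c : ι → Γ → ℤ) (A Δ j B : ℕ)
    (h : B + (j + 1) = Δ) (h' : B + 1 + j = Δ) :
    rk ex s c A Δ (j + 1) B h ≤ rk ex s c A Δ j (B + 1) h' := by
  rw [rk, rk, fq_succ ex s c A Δ j B h h']
  exact Submodule.finrank_mono (LinearMap.range_comp_le_range _ _)

/-- the ring map from `(G m)[X]` with the variables of the copy `j` -/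
noncomputable def psi (m j : ℕ) : (G m)[X] →+* FF m :=
  (jF m).comp (Polynomial.mapRingHom
    ((MvPolynomial.rename (fun i : Fin m => (j, i))).toRingHom.comp
      (MvPolynomial.map (Int.castRingHom ℚ) : G m →+* MvPolynomial (Fin m) ℚ)))

theorem psi_inj (m j : ℕ) : Function.Injective (psi m j) := by
  have h1 : Function.Injective (MvPolynomial.rename (R := ℚ) (fun i : Fin m => (j, i))) :=
    MvPolynomial.rename_injective (fun i : Fin m => (j, i))
      (fun a b h => (Prod.mk.injEq _ _ _ _ ▸ h : _ ∧ _).2)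
  have h2 : Function.Injective
      (MvPolynomial.map (Int.castRingHom ℚ) : G m →+* MvPolynomial (Fin m) ℚ) :=
    MvPolynomial.map_injective _ (RingHom.injective_int _)
  exact (jF_inj m).comp (Polynomial.map_injective _ (h1.comp h2))

theorem psi_map (m j : ℕ) (p : ℤ[X]) :
    psi m j (p.map (algebraMap ℤ (G m))) = emb m (p.map (Int.castRingHom ℚ)) := by
  have : (psi m j).comp (Polynomial.mapRingHom (algebraMap ℤ (G m))) =
      (emb m).comp (Polynomial.mapRingHom (Int.castRingHom ℚ)) := by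
    apply Polynomial.ringHom_ext
    · intro a
      simp [psi, emb, jC]
    · simp [psi, emb, jC]
  exact congrArg (fun f : ℤ[X] →+* FF m => f p) this

theorem psi_row (ex : Γ → (Fin m →₀ ℕ)) (j : ℕ) {B : ℕ} (θ : Sym Γ B) (α : Sym Γ (B + 1)) :
    psi m j (C (row (fun γ => (MvPolynomial.monomial (ex γ) (1 : ℤ) : G m)) θ α)) =
      row (fun γ => jF m (C (Lf ex j γ))) θ α := by
  have h1 : psi m j (C (row (fun γ => (MvPolynomial.monomial (ex γ) (1 : ℤ) : G m)) θ α)) =
      row (fun γ => psi m j (C (MvPolynomial.monomial (ex γ) (1 : ℤ) : G m))) θ α :=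
    (row_map ((psi m j).comp C) (fun γ => (MvPolynomial.monomial (ex γ) (1 : ℤ) : G m)) θ α).symm
  rw [h1]
  congr 1
  funext γ
  simp [psi, Lf]

/-- a maximal independent set of rows `L c^θ` -/
theorem exists_theta {K : Type} [Field K] {r : ℕ} {τ κ : Type} [Fintype τ] [DecidableEq τ]
    [Fintype κ] (P : Fin r → κ → K) (l : τ → κ → K) (hP : LinearIndependent K P) :
    ∃ Θ : Finset τ, LinearIndependent K (Sum.elim P (fun θ : Θ => l θ.1)) ∧
      Module.finrank K (Submodule.span K (Set.range P) ⊔ Submodule.span K (Set.range l) :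
        Submodule K (κ → K)) = r + Θ.card := by
  classical
  have hne : (Finset.univ.filter fun Θ : Finset τ =>
      LinearIndependent K (Sum.elim P (fun θ : Θ => l θ.1))).Nonempty := by
    refine ⟨∅, ?_⟩
    rw [Finset.mem_filter]
    refine ⟨Finset.mem_univ _, ?_⟩
    rw [indep_iff]
    intro y x hxy
    rw [Finset.sum_empty, zero_add] at hxy
    exact ⟨(Fintype.linearIndependent_iff.1 hP) y hxy, by simp⟩
  obtain ⟨Θ, hΘ, hmax⟩ := Finset.exists_max_image _ Finset.card hne
  rw [Finset.mem_filter] at hΘ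
  have hli := hΘ.2
  refine ⟨Θ, hli, ?_⟩
  have hmem : ∀ θ, l θ ∈ Submodule.span K (Set.range (Sum.elim P (fun θ : Θ => l θ.1))) := by
    intro θ0
    by_contra hno
    have hθ0 : θ0 ∉ Θ := fun h => hno (Submodule.subset_span ⟨Sum.inr ⟨θ0, h⟩, rfl⟩)
    have hins : LinearIndependent K (Sum.elim P (fun θ : (insert θ0 Θ : Finset τ) => l θ.1)) := by
      rw [indep_iff]
      intro y x hxy
      rw [Finset.sum_insert hθ0] at hxy
      have hx0 : x θ0 = 0 := by
        by_contra hx
        apply hno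
        have h1 : l θ0 = -(x θ0)⁻¹ • ((∑ θ ∈ Θ, x θ • l θ) + ∑ k, y k • P k) := by
          have h2 : x θ0 • l θ0 = -((∑ θ ∈ Θ, x θ • l θ) + ∑ k, y k • P k) := by
            rw [← sub_eq_zero, sub_neg_eq_add, ← add_assoc]
            exact hxy
          rw [neg_smul, ← smul_neg, ← h2, smul_smul, inv_mul_cancel₀ hx, one_smul]
        rw [h1]
        refine Submodule.smul_mem _ _ (Submodule.add_mem _ ?_ ?_)
        · exact Submodule.sum_mem _ fun θ hθ => Submodule.smul_mem _ _
            (Submodule.subset_span ⟨Sum.inr ⟨θ, hθ⟩, rfl⟩)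
        · exact Submodule.sum_mem _ fun k _ => Submodule.smul_mem _ _
            (Submodule.subset_span ⟨Sum.inl k, rfl⟩)
      rw [hx0, zero_smul, zero_add] at hxy
      have h1 := (indep_iff P l Θ).1 hli y x hxy
      refine ⟨h1.1, fun θ hθ => ?_⟩
      rcases Finset.mem_insert.1 hθ with rfl | hθ
      · exact hx0
      · exact h1.2 θ hθ
    have h2 := hmax (insert θ0 Θ) (Finset.mem_filter.mpr ⟨Finset.mem_univ _, hins⟩)
    rw [Finset.card_insert_of_notMem hθ0] at h2
    omega
  have hspan : (Submodule.span K (Set.range P) ⊔ Submodule.span K (Set.range l) :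
      Submodule K (κ → K)) = Submodule.span K (Set.range (Sum.elim P (fun θ : Θ => l θ.1))) := by
    apply le_antisymm
    · refine sup_le ?_ ?_
      · rw [Submodule.span_le]
        rintro _ ⟨k, rfl⟩
        exact Submodule.subset_span ⟨Sum.inl k, rfl⟩
      · rw [Submodule.span_le]
        rintro _ ⟨θ, rfl⟩
        exact hmem θ
    · rw [Submodule.span_le]
      rintro _ ⟨k | θ, rfl⟩
      · exact Submodule.mem_sup_left (Submodule.subset_span ⟨k, rfl⟩)
      · exact Submodule.mem_sup_right (Submodule.subset_span ⟨θ.1, rfl⟩)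
  rw [hspan, finrank_span_eq_card hli]
  simp

/-- (P2) the ranks `a_j` of the multiplication by `L_1 .. L_j` -/
theorem ranks (m : ℕ) (ex : Γ → (Fin m →₀ ℕ)) (hex : Function.Injective ex) (s : ι → ℚ)
    (c : ι → Γ → ℤ) (hc : ∀ i, c i ≠ 0) (A Δ : ℕ) :
    ∃ a : ℕ → ℕ, (∀ j, a (j + 1) ≤ a j) ∧ a 0 ≤ Fintype.card (Sym Γ Δ) ∧
      (∀ j ≤ Δ, a j ≤ fH s c A (Δ - j)) ∧
      ∀ A', Fintype.card (Sym Γ Δ) * A < A' →
        (∀ j ≤ Δ, fH s c A' (Δ - j) ≤ a j) ∧
        ∀ j B, j + (B + 1) = Δ → ∀ (r : ℕ) (P : Fin r → Sym Γ (B + 1) → ℤ[X]),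
          LinearIndependent ℤ[X] P →
          Submodule.span (RatFunc ℚ) (Set.range fun j => fun α => phi (P j α)) =
            RelK s c A' (B + 1) →
          ∃ Θ₁ : Finset (Sym Γ B), LinearIndependent (Polynomial (G m)) (Sum.elim
              (fun (j : Fin r) (α : Sym Γ (B + 1)) => (P j α).map (algebraMap ℤ (G m)))
              (fun (θ : Θ₁) (α : Sym Γ (B + 1)) =>
                Polynomial.C (row (fun γ => (MvPolynomial.monomial (ex γ) (1 : ℤ) : G m)) θ.1 α))) ∧
            Fintype.card (Sym Γ (B + 1)) + a (j + 1) ≤ r + Θ₁.card + a j := by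
  classical
  set a : ℕ → ℕ := fun j => if h : j ≤ Δ then rk ex s c A Δ j (Δ - j) (by omega) else 0 with ha
  have ha' : ∀ j B (h : B + j = Δ), a j = rk ex s c A Δ j B h := by
    intro j B h
    obtain rfl : B = Δ - j := by omega
    rw [ha]
    simp only
    rw [dif_pos (by omega)]
  refine ⟨a, fun j => ?_, ?_, fun j hj => ?_, fun A' hA' => ⟨fun j hj => ?_, ?_⟩⟩
  · by_cases hj : j + 1 ≤ Δ
    · rw [ha' (j + 1) (Δ - (j + 1)) (by omega), ha' j (Δ - (j + 1) + 1) (by omega)]
      exact rk_succ_le ex s c A Δ j _ _ _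
    · have : a (j + 1) = 0 := by
        rw [ha]
        simp only
        rw [dif_neg hj]
      rw [this]
      exact Nat.zero_le _
  · rw [ha' 0 Δ (by omega)]
    have := rk_add ex s c A Δ 0 Δ (by omega)
    omega
  · rw [ha' j (Δ - j) (by omega)]
    have h1 := rk_add ex s c A Δ j (Δ - j) (by omega)
    have h2 := fH_add (m := m) s c A (Δ - j)
    have h3 : Module.finrank (FF m) (KF m s c A (Δ - j)) ≤
        Module.finrank (FF m) (LinearMap.ker (fq ex s c A Δ j (Δ - j) (by omega))) := by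
      rw [ker_fq]
      exact Submodule.finrank_mono (KF_le_comap ex s c A Δ j (Δ - j) (by omega))
    omega
  · rw [ha' j (Δ - j) (by omega)]
    have h1 := rk_add ex s c A Δ j (Δ - j) (by omega)
    have h2 := fH_add (m := m) s c A' (Δ - j)
    have h3 : Module.finrank (FF m) (LinearMap.ker (fq ex s c A Δ j (Δ - j) (by omega))) ≤
        Module.finrank (FF m) (KF m s c A' (Δ - j)) := by
      rw [ker_fq]
      exact Submodule.finrank_mono (comap_le_KF ex hex s c hc A A' Δ j (Δ - j) (by omega) hA')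
    omega
  · intro j B hjB r P hPi hspan
    have hB1 : B + 1 + j = Δ := by omega
    have hB2 : B + (j + 1) = Δ := by omega
    rw [ha' j (B + 1) hB1, ha' (j + 1) B hB2]
    -- the relations over the big field
    set P' : Fin r → Sym Γ (B + 1) → FF m :=
      fun k α => emb m ((P k α).map (Int.castRingHom ℚ)) with hP'
    have hP'i : LinearIndependent (FF m) P' := by
      obtain ⟨g, -, hdet⟩ := exists_minor P hPi
      refine li_of_minor _ g ?_
      have h1 : (Matrix.of fun i j => P' i (g j)) =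
          ((emb m).comp (Polynomial.mapRingHom (Int.castRingHom ℚ))).mapMatrix
            (Matrix.of fun i j => P i (g j)) := by
        ext i j
        rfl
      rw [h1, ← RingHom.map_det]
      intro h0
      apply hdet
      apply (emb_inj m).comp (Polynomial.map_injective _ (RingHom.injective_int (Int.castRingHom ℚ)))
      rw [show ((emb m) ∘ Polynomial.map (Int.castRingHom ℚ))
        (Matrix.of fun i j => P i (g j)).det = ((emb m).comp
          (Polynomial.mapRingHom (Int.castRingHom ℚ))) (Matrix.of fun i j => P i (g j)).det from rfl,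
        h0]
      simp
    set l : Sym Γ B → Sym Γ (B + 1) → FF m := fun θ => row (fun γ => jF m (C (Lf ex j γ))) θ
      with hl
    obtain ⟨Θ, hΘ, hdim⟩ := exists_theta P' l hP'i
    refine ⟨Θ, ?_, ?_⟩
    · rw [indep_iff (fun (j : Fin r) (α : Sym Γ (B + 1)) => (P j α).map (algebraMap ℤ (G m)))
        (fun (θ : Sym Γ B) (α : Sym Γ (B + 1)) =>
          Polynomial.C (row (fun γ => (MvPolynomial.monomial (ex γ) (1 : ℤ) : G m)) θ α)) Θ]
      intro y x hxy
      have h1 := (indep_iff P' l Θ).1 hΘ (fun k => psi m j (y k)) (fun θ => psi m j (x θ)) (by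
        funext α
        have h2 := congrArg (psi m j) (congrFun hxy α)
        simp only [Pi.add_apply, Finset.sum_apply, Pi.smul_apply, smul_eq_mul, map_add, map_sum,
          map_mul, Pi.zero_apply, map_zero, psi_map, psi_row] at h2 ⊢
        exact h2)
      refine ⟨fun k => ?_, fun θ hθ => ?_⟩
      · apply psi_inj m j
        rw [h1.1 k, map_zero]
      · apply psi_inj m j
        rw [h1.2 θ hθ, map_zero]
    · set S : Submodule (FF m) (Sym Γ (B + 1) → FF m) :=
        Submodule.span (FF m) (Set.range P') ⊔ Submodule.span (FF m) (Set.range l) with hS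
      -- the kernel is contained in `S`
      have hker : LinearMap.ker (fq ex s c A Δ j (B + 1) hB1) ≤ S := by
        rw [ker_fq]
        refine (comap_le_KF ex hex s c hc A A' Δ j (B + 1) hB1 hA').trans ?_
        refine le_trans ?_ le_sup_left
        rw [KF_eq, Submodule.span_le]
        rintro _ ⟨v, hv, rfl⟩
        have hv' : v ∈ Submodule.span (RatFunc ℚ)
            (Set.range fun j => fun α => phi (P j α)) := by
          rw [hspan]
          exact Submodule.subset_span hv
        have h1 := span_map (kap m) _ v hv'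
        refine Submodule.span_mono ?_ h1
        rintro _ ⟨_, ⟨k, rfl⟩, rfl⟩
        refine ⟨k, ?_⟩
        funext α
        exact (kap_algebraMap m _).symm
      have h1 := finrank_map_add_ker (fq ex s c A Δ j (B + 1) hB1) S hker
      have h2 : rk ex s c A Δ (j + 1) B hB2 ≤
          Module.finrank (FF m) (S.map (fq ex s c A Δ j (B + 1) hB1)) := by
        rw [rk, fq_succ ex s c A Δ j B hB2 hB1]
        apply Submodule.finrank_mono
        rw [LinearMap.range_comp]
        apply Submodule.map_mono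
        refine le_trans ?_ le_sup_right
        rintro _ ⟨v, rfl⟩
        have h3 : mulL (fun γ => jF m (C (Lf ex j γ))) B v = ∑ θ, v θ • l θ := by
          funext α
          rw [mulL_apply, Finset.sum_apply]
          rfl
        rw [h3]
        exact Submodule.sum_mem _ fun θ _ => Submodule.smul_mem _ _
          (Submodule.subset_span ⟨θ, rfl⟩)
      have h3 := rk_add ex s c A Δ j (B + 1) hB1
      omega

end ranks

end Pool.Agent.Lib.MP_524521_nt.RA
end

section
/-!
# The Hilbert function of the points, and the relations with their span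
-/
open Polynomial

namespace Pool.Agent.Lib.MP_524521_nt.RA

variable {Γ : Type} [Fintype Γ] [DecidableEq Γ] {ι : Type} [Fintype ι]

omit [Fintype ι] in
theorem RelK_mono (s : ι → ℚ) (c : ι → Γ → ℤ) {A A' : ℕ} (h : A ≤ A') (B : ℕ) :
    RelK s c A B ≤ RelK s c A' B := by
  refine Submodule.span_mono ?_
  rintro v ⟨p, hp, h1, h2⟩
  exact ⟨p, fun α => (hp α).trans_le (by exact_mod_cast h), h1, h2⟩

omit [Fintype ι] in
theorem fH_anti (s : ι → ℚ) (c : ι → Γ → ℤ) {A A' : ℕ} (h : A ≤ A') (B : ℕ) :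
    fH s c A' B ≤ fH s c A B :=
  Nat.sub_le_sub_left (Submodule.finrank_mono (RelK_mono s c h B)) _

omit [Fintype ι] in
theorem finrank_RelK_le (s : ι → ℚ) (c : ι → Γ → ℤ) (A B : ℕ) :
    Module.finrank (RatFunc ℚ) (RelK s c A B) ≤ Fintype.card (Sym Γ B) := by
  have h1 := Submodule.finrank_le (RelK s c A B)
  rwa [Module.finrank_fintype_fun_eq_card] at h1

omit [Fintype Γ] [DecidableEq Γ] in
/-- a nonzero vector has a nonzero monomial -/
theorem exists_mval_ne_zero (x : Γ → ℤ) (hx : x ≠ 0) (B : ℕ) : ∃ α : Sym Γ B, mval x α ≠ 0 := by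
  obtain ⟨γ, hγ⟩ := Function.ne_iff.1 hx
  refine ⟨Sym.replicate B γ, ?_⟩
  have h1 : mval x (Sym.replicate B γ) = x γ ^ B := by
    change ((Multiset.replicate B γ).map x).prod = _
    rw [Multiset.map_replicate, Multiset.prod_replicate]
  rw [h1]
  exact pow_ne_zero _ hγ

theorem natDegree_det_le_card {κ : Type} [Fintype κ] [DecidableEq κ] (M : Matrix κ κ ℚ[X]) (A : ℕ)
    (hM : ∀ i j, (M i j).natDegree ≤ A) : M.det.natDegree ≤ Fintype.card κ * A := by
  rw [Matrix.det_apply']
  refine natDegree_sum_le_of_forall_le _ _ fun σ _ => ?_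
  have h1 : (((Equiv.Perm.sign σ : ℤ) : ℚ[X])).natDegree = 0 := natDegree_intCast _
  refine natDegree_mul_le.trans ?_
  rw [h1, zero_add]
  refine (natDegree_prod_le _ _).trans ?_
  refine (Finset.sum_le_sum fun i _ => hM (σ i) i).trans ?_
  rw [Finset.sum_const, Finset.card_univ, smul_eq_mul]

theorem fH_pos (s : ι → ℚ) (hs : Function.Injective s) (c : ι → Γ → ℤ) (hc : ∀ i, c i ≠ 0) (A B : ℕ)
    (h : Fintype.card (Sym Γ B) * A < Fintype.card ι) : 1 ≤ fH s c A B := by
  classical
  by_contra hcon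
  have hle := finrank_RelK_le s c A B
  have hfr : Module.finrank (RatFunc ℚ) (RelK s c A B) = Fintype.card (Sym Γ B) := by
    unfold fH at hcon
    omega
  let K := RatFunc ℚ
  let φ : ℚ[X] →+* K := algebraMap ℚ[X] K
  have hφ : Function.Injective φ := IsFractionRing.injective ℚ[X] K
  let S₀ : Set (Sym Γ B → K) := {v | ∃ p : Sym Γ B → ℚ[X], (∀ α, (p α).degree < A) ∧
    (∀ i, ∑ α, (p α).eval (s i) * ((mval (c i) α : ℤ) : ℚ) = 0) ∧ v = fun α => φ (p α)}
  obtain ⟨κ, a, ha, hspan, hli⟩ := exists_linearIndependent' K (fun v : S₀ => (v : Sym Γ B → K))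
  have : Finite κ := hli.finite
  let _ : Fintype κ := Fintype.ofFinite κ
  have hspan' : Submodule.span K (Set.range ((fun v : S₀ => (v : Sym Γ B → K)) ∘ a)) =
      RelK s c A B := by
    rw [hspan, Subtype.range_coe]
    rfl
  have hcardκ : Fintype.card κ = Fintype.card (Sym Γ B) := by
    rw [← hfr, ← hspan', finrank_span_eq_card hli]
  obtain ⟨e⟩ : Nonempty (Sym Γ B ≃ κ) := Fintype.card_eq.1 hcardκ.symm
  choose p hp1 hp2 hp3 using fun θ : Sym Γ B => (a (e θ)).2
  set M : Matrix (Sym Γ B) (Sym Γ B) ℚ[X] := Matrix.of fun θ α => p θ α with hM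
  have hli2 : LinearIndependent K (fun θ : Sym Γ B => fun α => φ (p θ α)) := by
    have h1 := hli.comp e e.injective
    have h2 : (((fun v : S₀ => (v : Sym Γ B → K)) ∘ a) ∘ e) =
        fun θ : Sym Γ B => fun α => φ (p θ α) := by
      funext θ
      exact hp3 θ
    rwa [h2] at h1
  have hdet : M.det ≠ 0 := by
    intro h0
    have h1 : (M.map φ).det = 0 := by
      rw [← RingHom.mapMatrix_apply, ← RingHom.map_det, h0, map_zero]
    have h2 := Matrix.linearIndependent_rows_iff_isUnit (A := M.map φ)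
    have h3 : IsUnit (M.map φ) := h2.1 hli2
    rw [Matrix.isUnit_iff_isUnit_det, h1] at h3
    exact not_isUnit_zero h3
  apply hdet
  refine eq_zero_of_natDegree_lt_card_of_eval_eq_zero M.det hs ?_ ?_
  · intro i
    have h1 : (M.map (evalRingHom (s i))).det = 0 := by
      rw [← Matrix.exists_mulVec_eq_zero_iff]
      refine ⟨fun α => ((mval (c i) α : ℤ) : ℚ), ?_, ?_⟩
      · obtain ⟨α, hα⟩ := exists_mval_ne_zero (c i) (hc i) B
        intro h2
        apply hα
        have h3 : ((mval (c i) α : ℤ) : ℚ) = 0 := congrFun h2 α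
        exact_mod_cast h3
      · ext θ
        simpa [Matrix.mulVec, dotProduct, hM] using hp2 θ i
    rw [← RingHom.mapMatrix_apply, ← RingHom.map_det] at h1
    exact h1
  · refine lt_of_le_of_lt (natDegree_det_le_card M A fun θ α => ?_) h
    by_cases h0 : p θ α = 0
    · simp [hM, h0]
    · have := hp1 θ α
      rw [hM, Matrix.of_apply]
      exact ((natDegree_lt_iff_degree_lt h0).2 this).le

/-- `relation_data` with the span and the exact size of the free set -/
theorem relation_data2 (s : ι → ℚ) (c : ι → Γ → ℤ) (A B T' H : ℕ) (hA : 1 ≤ A) (hT' : 1 ≤ T')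
    (hH : 1 ≤ H) (hs1 : ∀ i, (s i).num.natAbs ≤ T') (hs2 : ∀ i, (s i).den ≤ T')
    (hc1 : ∀ i γ, (c i γ).natAbs ≤ H) :
    ∃ (r : ℕ) (P : Fin r → Sym Γ B → ℤ[X]) (Θ : Finset (Sym Γ B)),
      (∀ j α, (P j α).degree < A) ∧
      (∀ j α n, ((P j α).coeff n).natAbs ≤
        (A * Fintype.card (Sym Γ B)).factorial * (T' ^ A * H ^ B) ^ (A * Fintype.card (Sym Γ B))) ∧
      (∀ j i, ∑ α, (aeval (s i) (P j α) : ℚ) * ((mval (c i) α : ℤ) : ℚ) = 0) ∧
      LinearIndependent ℤ[X] P ∧ Free s c A Θ ∧ Θ.card = fH s c A B ∧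
      r + fH s c A B = Fintype.card (Sym Γ B) ∧
      Submodule.span (RatFunc ℚ) (Set.range fun j => fun α => phi (P j α)) = RelK s c A B := by
  classical
  set E : Matrix ι (Sym Γ B × Fin A) ℤ := fun i x =>
    (s i).num ^ (x.2 : ℕ) * ((s i).den : ℤ) ^ (A - 1 - (x.2 : ℕ)) * mval (c i) x.1 with hE
  have hEb : ∀ i x, (E i x).natAbs ≤ T' ^ A * H ^ B := by
    intro i x
    rw [hE]; simp only [Int.natAbs_mul, Int.natAbs_pow, Int.natAbs_natCast]
    refine Nat.mul_le_mul ?_ (natAbs_mval_le _ H (hc1 i) _)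
    have hx : (x.2 : ℕ) < A := x.2.2
    calc (s i).num.natAbs ^ (x.2 : ℕ) * (s i).den ^ (A - 1 - (x.2 : ℕ))
        ≤ T' ^ (x.2 : ℕ) * T' ^ (A - 1 - (x.2 : ℕ)) :=
          Nat.mul_le_mul (Nat.pow_le_pow_left (hs1 i) _) (Nat.pow_le_pow_left (hs2 i) _)
      _ = T' ^ (A - 1) := by rw [← pow_add]; congr 1; omega
      _ ≤ T' ^ A := Nat.pow_le_pow_right hT' (Nat.sub_le _ _)
  have hY : 1 ≤ T' ^ A * H ^ B := Nat.mul_pos (pow_pos hT' _) (pow_pos hH _)
  obtain ⟨F, hFfin, hF, hspan⟩ := kernel_span E (T' ^ A * H ^ B) hY hEb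
  have hcard : Fintype.card (Sym Γ B × Fin A) = A * Fintype.card (Sym Γ B) := by
    rw [Fintype.card_prod, Fintype.card_fin, mul_comm]
  rw [hcard] at hF
  -- evaluation
  have hev : ∀ (x : Sym Γ B × Fin A → ℚ) (i : ι),
      ∑ y, (E i y : ℚ) * x y = ((s i).den : ℚ) ^ (A - 1) *
        ∑ α, (pol x α).eval (s i) * ((mval (c i) α : ℤ) : ℚ) := by
    intro x i
    have hden : ((s i).den : ℚ) ≠ 0 := by exact_mod_cast (s i).den_nz
    rw [Fintype.sum_prod_type, Finset.mul_sum]
    refine Finset.sum_congr rfl fun α _ => ?_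
    unfold pol
    rw [eval_finsetSum, Finset.sum_mul, Finset.mul_sum]
    refine Finset.sum_congr rfl fun a _ => ?_
    simp only [eval_mul, eval_C, eval_pow, eval_X, hE]
    push_cast
    have h1 : ((s i).den : ℚ) ^ (A - 1) * (s i) ^ (a : ℕ) =
        ((s i).num : ℚ) ^ (a : ℕ) * ((s i).den : ℚ) ^ (A - 1 - (a : ℕ)) := by
      have ha : (a : ℕ) ≤ A - 1 := by have := a.2; omega
      have h2 : ((s i).num : ℚ) = (s i) * (s i).den := (Rat.mul_den_eq_num (s i)).symm
      rw [h2, mul_pow]
      have h3 : ((s i).den : ℚ) ^ (A - 1) =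
          ((s i).den : ℚ) ^ (a : ℕ) * ((s i).den : ℚ) ^ (A - 1 - (a : ℕ)) := by
        rw [← pow_add]; congr 1; omega
      rw [h3]; ring
    rw [← h1]; ring
  let K := RatFunc ℚ
  let φ : ℚ[X] →+* K := algebraMap ℚ[X] K
  have hφ : Function.Injective φ := IsFractionRing.injective ℚ[X] K
  set V : (Sym Γ B × Fin A → ℚ) → (Sym Γ B → K) := fun x α => φ (pol x α) with hV
  set U : F → (Sym Γ B → K) := fun v => V (fun y => ((v.1 y : ℤ) : ℚ)) with hU
  obtain ⟨κ', a', ha', hspanU, hli⟩ := exists_linearIndependent' K U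
  have : Finite F := hFfin.to_subtype
  have : Finite κ' := Finite.of_injective a' ha'
  let _ : Fintype κ' := Fintype.ofFinite κ'
  let e : Fin (Fintype.card κ') ≃ κ' := (Fintype.equivFin κ').symm
  have hli' : LinearIndependent K (U ∘ a' ∘ e) := hli.comp e e.injective
  obtain ⟨π, hπ, hdet⟩ := exists_minorK (U ∘ a' ∘ e) hli'
  -- all relations are in the span
  have hall : ∀ p : Sym Γ B → ℚ[X], (∀ α, (p α).degree < A) →
      (∀ i, ∑ α, (p α).eval (s i) * ((mval (c i) α : ℤ) : ℚ) = 0) →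
      (fun α => φ (p α)) ∈ Submodule.span K (Set.range (U ∘ a' ∘ e)) := by
    intro p hdeg hvan
    set x : Sym Γ B × Fin A → ℚ := fun y => (p y.1).coeff (y.2 : ℕ) with hx
    have hpol : ∀ α, pol x α = p α := by
      intro α
      ext n
      rw [pol_coeff]
      split_ifs with h
      · rfl
      · symm
        apply coeff_eq_zero_of_degree_lt
        exact (hdeg α).trans_le (by exact_mod_cast not_lt.1 h)
    have hker : (E.map (Int.cast : ℤ → ℚ)).mulVec x = 0 := by
      ext i
      simp only [Matrix.mulVec, dotProduct, Matrix.map_apply, Pi.zero_apply]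
      rw [hev]
      have h2 : ∑ α, (pol x α).eval (s i) * ((mval (c i) α : ℤ) : ℚ) = 0 := by
        rw [← hvan i]
        exact Finset.sum_congr rfl fun α _ => by rw [hpol]
      rw [h2, mul_zero]
    have hmem := hspan x hker
    have hVmem : V x ∈ Submodule.span K (Set.range U) := by
      refine Submodule.span_induction (p := fun z _ => V z ∈ Submodule.span K (Set.range U))
        ?_ ?_ ?_ ?_ hmem
      · rintro _ ⟨v, hv, rfl⟩
        exact Submodule.subset_span ⟨⟨v, hv⟩, rfl⟩
      · have : V 0 = 0 := by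
          ext α; simp [hV, pol]
        rw [this]; exact Submodule.zero_mem _
      · intro y z _ _ hy hz
        have : V (y + z) = V y + V z := by
          ext α
          simp only [hV, pol, Pi.add_apply, ← map_add]
          congr 1
          rw [← Finset.sum_add_distrib]
          refine Finset.sum_congr rfl fun a _ => ?_
          rw [C_add]; ring
        rw [this]; exact Submodule.add_mem _ hy hz
      · intro q y _ hy
        have : V (q • y) = φ (C q) • V y := by
          ext α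
          simp only [hV, pol, Pi.smul_apply, smul_eq_mul, ← map_mul]
          congr 1
          rw [Finset.mul_sum]
          refine Finset.sum_congr rfl fun a _ => ?_
          rw [C_mul]; ring
        rw [this]; exact Submodule.smul_mem _ _ hy
    rw [← hspanU] at hVmem
    have hVmem' : V x ∈ Submodule.span K (Set.range (U ∘ a' ∘ e)) := by
      have : Set.range (U ∘ a' ∘ e) = Set.range (U ∘ a') := by
        rw [← Function.comp_assoc, Set.range_comp (U ∘ a') e, e.surjective.range_eq,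
          Set.image_univ]
      rw [this]; exact hVmem
    have hVx : V x = fun α => φ (p α) := by
      funext α
      simp only [hV]
      rw [hpol]
    rw [← hVx]
    exact hVmem'
  have hphi : ∀ j, (fun α => phi (pol (a' (e j)).1 α)) = (U ∘ a' ∘ e) j := by
    intro j
    funext α
    simp only [hU, hV, Function.comp_apply, phi, RingHom.comp_apply, coe_mapRingHom]
    rw [pol_map]
  have hrel : ∀ j i, ∑ α, (aeval (s i) (pol (a' (e j)).1 α) : ℚ) *
      ((mval (c i) α : ℤ) : ℚ) = 0 := by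
    intro j i
    have h1 := (hF _ (a' (e j)).2).2
    have h2 := congrFun h1 i
    simp only [Matrix.mulVec, dotProduct, Pi.zero_apply] at h2
    have h3 : ∑ y, (E i y : ℚ) * ((((a' (e j)).1 y : ℤ)) : ℚ) = 0 := by exact_mod_cast h2
    rw [hev] at h3
    have hden : ((s i).den : ℚ) ^ (A - 1) ≠ 0 :=
      pow_ne_zero _ (by exact_mod_cast (s i).den_nz)
    have h4 := (mul_eq_zero.1 h3).resolve_left hden
    rw [← h4]
    refine Finset.sum_congr rfl fun α _ => ?_
    congr 1
    rw [← pol_map, eval_map, aeval_def]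
    rfl
  have hspanK : Submodule.span K (Set.range (U ∘ a' ∘ e)) = RelK s c A B := by
    apply le_antisymm
    · rw [Submodule.span_le]
      rintro _ ⟨j, rfl⟩
      refine Submodule.subset_span ⟨fun α => (pol (a' (e j)).1 α).map (Int.castRingHom ℚ), ?_, ?_,
        ?_⟩
      · intro α
        exact degree_map_le.trans_lt (pol_degree _ _)
      · intro i
        rw [← hrel j i]
        refine Finset.sum_congr rfl fun α _ => ?_
        rw [eval_map, aeval_def]
        rfl
      · rw [← hphi j]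
        rfl
    · rw [RelK, Submodule.span_le]
      rintro v ⟨p, hp1, hp2, rfl⟩
      exact hall p hp1 hp2
  have hfr : Module.finrank (RatFunc ℚ) (RelK s c A B) = Fintype.card κ' := by
    rw [← hspanK]
    have := finrank_span_eq_card hli'
    rw [this, Fintype.card_fin]
  have hcl : Fintype.card κ' ≤ Fintype.card (Sym Γ B) := by
    have := Fintype.card_le_of_injective π hπ
    simpa using this
  refine ⟨Fintype.card κ', fun j => pol (a' (e j)).1, (Finset.univ.image π)ᶜ, ?_, ?_, hrel, ?_,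
    ?_, ?_, ?_, ?_⟩
  · intro j α; exact pol_degree _ _
  · intro j α n
    rw [pol_coeff]
    split_ifs with h
    · exact (hF _ (a' (e j)).2).1 _
    · simp
  · rw [Fintype.linearIndependent_iff]
    intro g hg k
    have h1 : ∑ j, phi (g j) • (U ∘ a' ∘ e) j = 0 := by
      ext α
      have h2 := congrArg phi (congrFun hg α)
      simp only [Finset.sum_apply, Pi.smul_apply, smul_eq_mul, Pi.zero_apply, map_sum, map_mul,
        map_zero] at h2 ⊢
      rw [← h2]
      refine Finset.sum_congr rfl fun j _ => ?_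
      congr 1
      rw [← hphi j]
    have h3 := Fintype.linearIndependent_iff.1 hli' _ h1 k
    exact phi_injective (by rw [h3, map_zero])
  · intro p hdeg hsupp hvan
    have hVmem' := hall p hdeg (fun i => by
      rw [← hvan i]
      symm
      refine Finset.sum_subset_zero_on_sdiff (Finset.subset_univ _) ?_ (fun α _ => rfl)
      intro α hα
      rw [hsupp α (Finset.mem_sdiff.1 hα).2]; simp)
    obtain ⟨lam, hlam⟩ := (Submodule.mem_span_range_iff_exists_fun K).1 hVmem'
    have hlam0 : lam = 0 := by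
      apply Matrix.eq_zero_of_vecMul_eq_zero hdet
      ext l
      have h1 := congrFun hlam (π l)
      simp only [Finset.sum_apply, Pi.smul_apply, smul_eq_mul] at h1
      simp only [Matrix.vecMul, dotProduct, Matrix.of_apply, Pi.zero_apply]
      rw [h1]
      rw [hsupp (π l), map_zero]
      simp
    have hVx : (fun α => φ (p α)) = 0 := by
      rw [← hlam, hlam0]; simp
    ext1 α
    apply hφ
    have := congrFun hVx α
    simpa using this
  · rw [Finset.card_compl, Finset.card_image_of_injective _ hπ, Finset.card_univ,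
      Fintype.card_fin, fH, hfr]
  · rw [fH, hfr]
    omega
  · rw [← hspanK]
    congr 1
    ext v
    simp only [Set.mem_range]
    constructor
    · rintro ⟨j, rfl⟩
      exact ⟨j, (hphi j).symm⟩
    · rintro ⟨j, rfl⟩
      exact ⟨j, hphi j⟩

end Pool.Agent.Lib.MP_524521_nt.RA
end

section
/-!
# The algebraic part of the polylog version

Pigeonhole over the ranks `a_j` and over a constant number of levels.
-/
open Polynomial

namespace Pool.Agent.Lib.MP_524521_nt.RA

/-- a sequence `a 0 ≥ a 1 ≥ ..` with `a Δ ≥ 1` has few `j < Δ` with `a j > (1 + η) a (j + 1)` -/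
theorem few_bad (a : ℕ → ℕ) (Δ : ℕ) (hΔ : 1 ≤ a Δ) (hanti : ∀ j, a (j + 1) ≤ a j) (η : ℝ)
    (hη : 0 < η) :
    (1 + η) ^ ((Finset.range Δ).filter fun j => (1 + η) * a (j + 1) < a j).card ≤ a 0 := by
  have key : ∀ d ≤ Δ, (1 + η) ^ ((Finset.range d).filter fun j => (1 + η) * a (j + 1) < a j).card *
      a d ≤ a 0 := by
    intro d hd
    induction d with
    | zero => simp
    | succ d ih =>
      have ih' := ih (by omega)
      rw [Finset.range_add_one, Finset.filter_insert]
      split_ifs with h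
      · rw [Finset.card_insert_of_notMem (by simp), pow_succ]
        have h1 : (0 : ℝ) ≤ (1 + η) ^ ((Finset.range d).filter
            fun j => (1 + η) * a (j + 1) < a j).card := by positivity
        calc _ = (1 + η) ^ ((Finset.range d).filter fun j => (1 + η) * a (j + 1) < a j).card *
              ((1 + η) * a (d + 1)) := by ring
          _ ≤ (1 + η) ^ ((Finset.range d).filter fun j => (1 + η) * a (j + 1) < a j).card * a d :=
              mul_le_mul_of_nonneg_left h.le h1
          _ ≤ _ := ih'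
      · have h1 : (0 : ℝ) ≤ (1 + η) ^ ((Finset.range d).filter
            fun j => (1 + η) * a (j + 1) < a j).card := by positivity
        have h2 : (a (d + 1) : ℝ) ≤ a d := by exact_mod_cast hanti d
        exact (mul_le_mul_of_nonneg_left h2 h1).trans ih'
  have h := key Δ le_rfl
  have h1 : (0 : ℝ) ≤ (1 + η) ^ ((Finset.range Δ).filter
      fun j => (1 + η) * a (j + 1) < a j).card := by positivity
  have h2 : (1 : ℝ) ≤ a Δ := by exact_mod_cast hΔ
  nlinarith

/-- a common good index -/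
theorem common_good (J Δ nn : ℕ) (a : ℕ → ℕ → ℕ) (η : ℝ) (hη : 0 < η)
    (h0 : ∀ k < J, a k 0 ≤ nn) (h1 : ∀ k < J, 1 ≤ a k Δ) (hanti : ∀ k < J, ∀ j, a k (j + 1) ≤ a k j)
    (hΔ : (nn : ℝ) ^ J < (1 + η) ^ Δ) :
    ∃ j < Δ, ∀ k < J, (a k j : ℝ) ≤ (1 + η) * a k (j + 1) := by
  classical
  by_contra hcon
  push Not at hcon
  -- every `j < Δ` is bad for some `k`
  have hsub : Finset.range Δ ⊆ (Finset.range J).biUnion fun k =>
      (Finset.range Δ).filter fun j => (1 + η) * a k (j + 1) < a k j := by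
    intro j hj
    rw [Finset.mem_range] at hj
    obtain ⟨k, hk, hkj⟩ := hcon j hj
    rw [Finset.mem_biUnion]
    exact ⟨k, Finset.mem_range.2 hk, Finset.mem_filter.2 ⟨Finset.mem_range.2 hj, hkj⟩⟩
  have hcard := (Finset.card_le_card hsub).trans Finset.card_biUnion_le
  rw [Finset.card_range] at hcard
  have h2 : (1 + η) ^ Δ ≤ (nn : ℝ) ^ J := by
    calc (1 + η) ^ Δ ≤ (1 + η) ^ (∑ k ∈ Finset.range J,
          ((Finset.range Δ).filter fun j => (1 + η) * a k (j + 1) < a k j).card) :=
          pow_le_pow_right₀ (by linarith) hcard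
      _ = ∏ k ∈ Finset.range J, (1 + η) ^
          ((Finset.range Δ).filter fun j => (1 + η) * a k (j + 1) < a k j).card := by
          rw [Finset.prod_pow_eq_pow_sum]
      _ ≤ ∏ _k ∈ Finset.range J, (nn : ℝ) := by
          refine Finset.prod_le_prod (fun k _ => by positivity) fun k hk => ?_
          rw [Finset.mem_range] at hk
          refine (few_bad (a k) Δ (h1 k hk) (hanti k hk) η hη).trans ?_
          exact_mod_cast h0 k hk
      _ = (nn : ℝ) ^ J := by simp
  linarith

variable {Γ : Type} [Fintype Γ] [DecidableEq Γ] {ι : Type} [Fintype ι]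

theorem algebra_poly (m : ℕ) (ex : Γ → (Fin m →₀ ℕ)) (hex : Function.Injective ex) (s : ι → ℚ)
    (hs : Function.Injective s) (c : ι → Γ → ℤ) (hc : ∀ i, c i ≠ 0) (η θ : ℝ) (hη : 0 < η)
    (hθ : 0 < θ) (Δ J nn : ℕ) (hnn : ∀ B ≤ Δ, Fintype.card (Sym Γ B) ≤ nn)
    (hJ : θ ^ J * nn < 1) (hΔ : (nn : ℝ) ^ J < (1 + η) ^ Δ) (A A' A'' : ℕ → ℕ)
    (hAm : ∀ k, A k ≤ A (k + 1)) (hA' : ∀ k, nn * A k < A' k) (hA'2 : ∀ k, A' k ≤ A (k + 1))
    (hA'' : ∀ k, A'' k ≤ A (k + 1)) (hA''1 : ∀ k, 1 ≤ A'' k) (hcard : nn * A J < Fintype.card ι)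
    (T' H : ℕ) (hT' : 1 ≤ T') (hH : 1 ≤ H)
    (hs1 : ∀ i, (s i).num.natAbs ≤ T') (hs2 : ∀ i, (s i).den ≤ T')
    (hc1 : ∀ i γ, (c i γ).natAbs ≤ H) :
    ∃ k < J, ∃ B, B + 1 ≤ Δ ∧ ∃ (r : ℕ) (P : Fin r → Sym Γ (B + 1) → ℤ[X])
      (Θ₁ : Finset (Sym Γ B)) (Θ₂ : Finset (Sym Γ (B + 1))),
      (∀ j α, (P j α).degree < A' k) ∧
      (∀ j α n, ((P j α).coeff n).natAbs ≤ (A' k * nn).factorial *
        (T' ^ A' k * H ^ Δ) ^ (A' k * nn)) ∧
      (∀ j i, ∑ α, (aeval (s i) (P j α) : ℚ) * ((mval (c i) α : ℤ) : ℚ) = 0) ∧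
      0 < Θ₂.card ∧ Free s c (A'' k) Θ₂ ∧
      LinearIndependent (Polynomial (G m)) (Sum.elim
        (fun (j : Fin r) (α : Sym Γ (B + 1)) => (P j α).map (algebraMap ℤ (G m)))
        (fun (θ : Θ₁) (α : Sym Γ (B + 1)) =>
          Polynomial.C (row (fun γ => (MvPolynomial.monomial (ex γ) (1 : ℤ) : G m)) θ.1 α))) ∧
      (Fintype.card (Sym Γ (B + 1)) : ℝ) - r - Θ₁.card ≤ (η / θ) * Θ₂.card := by
  classical
  have hAmono : Monotone A := monotone_nat_of_le_succ hAm
  have hcard1 : ∀ B ≤ Δ, Fintype.card (Sym Γ B) * A J < Fintype.card ι := fun B hB =>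
    lt_of_le_of_lt (Nat.mul_le_mul_right _ (hnn B hB)) hcard
  have hpos : ∀ B ≤ Δ, ∀ E ≤ A J, 1 ≤ fH s c E B := fun B hB E hE =>
    (fH_pos s hs c hc (A J) B (hcard1 B hB)).trans (fH_anti s c hE B)
  -- the ranks
  choose a ha1 ha2 ha3 ha4 using fun k => ranks m ex hex s c hc (A k) Δ
  have hA'lt : ∀ k, Fintype.card (Sym Γ Δ) * A k < A' k := fun k =>
    lt_of_le_of_lt (Nat.mul_le_mul_right _ (hnn Δ le_rfl)) (hA' k)
  have hA'J : ∀ k < J, A' k ≤ A J := fun k hk => (hA'2 k).trans (hAmono (by omega))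
  obtain ⟨j, hjΔ, hj⟩ := common_good J Δ nn a η hη (fun k _ => (ha2 k).trans (hnn Δ le_rfl))
    (fun k hk => (hpos 0 (Nat.zero_le _) (A' k) (hA'J k hk)).trans (by
      have := (ha4 k (A' k) (hA'lt k)).1 Δ le_rfl
      rwa [Nat.sub_self] at this))
    (fun k _ => ha1 k) hΔ
  obtain ⟨B, hB⟩ : ∃ B, j + (B + 1) = Δ := ⟨Δ - j - 1, by omega⟩
  have hBΔ : B + 1 ≤ Δ := by omega
  have hBj : Δ - j = B + 1 := by omega
  -- the level
  obtain ⟨k, hkJ, hk⟩ : ∃ k < J, θ * fH s c (A k) (B + 1) ≤ fH s c (A'' k) (B + 1) := by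
    by_contra hcon
    push Not at hcon
    have h1 : ∀ k ≤ J, (fH s c (A k) (B + 1) : ℝ) ≤ θ ^ k * nn := by
      intro k hk
      induction k with
      | zero =>
        rw [pow_zero, one_mul]
        have : fH s c (A 0) (B + 1) ≤ nn := (Nat.sub_le _ _).trans (hnn _ hBΔ)
        exact_mod_cast this
      | succ k ih =>
        have h2 := (hcon k (by omega)).le
        have h3 : (fH s c (A (k + 1)) (B + 1) : ℝ) ≤ fH s c (A'' k) (B + 1) := by
          exact_mod_cast fH_anti s c (hA'' k) (B + 1)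
        calc (fH s c (A (k + 1)) (B + 1) : ℝ) ≤ θ * fH s c (A k) (B + 1) := h3.trans h2
          _ ≤ θ * (θ ^ k * nn) := mul_le_mul_of_nonneg_left (ih (by omega)) hθ.le
          _ = θ ^ (k + 1) * nn := by ring
    have h2 := h1 J le_rfl
    have h3 : (1 : ℝ) ≤ fH s c (A J) (B + 1) := by exact_mod_cast hpos (B + 1) hBΔ (A J) le_rfl
    linarith
  have hA'1 : 1 ≤ A' k := by
    have := hA' k
    omega
  obtain ⟨r, P, Θ, hP1, hP2, hP3, hP4, hP5, hP6, hP7, hP8⟩ :=
    relation_data2 s c (A' k) (B + 1) T' H hA'1 hT' hH hs1 hs2 hc1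
  obtain ⟨r₂, P₂, Θ₂, hQ1, hQ2, hQ3, hQ4, hQ5, hQ6, hQ7, hQ8⟩ :=
    relation_data2 s c (A'' k) (B + 1) T' H (hA''1 k) hT' hH hs1 hs2 hc1
  obtain ⟨Θ₁, hΘ₁, hcount⟩ := (ha4 k (A' k) (hA'lt k)).2 j B hB r P hP4 hP8
  have hA''J : A'' k ≤ A J := (hA'' k).trans (hAmono (by omega))
  refine ⟨k, hkJ, B, hBΔ, r, P, Θ₁, Θ₂, hP1, ?_, hP3, ?_, hQ5, hΘ₁, ?_⟩
  · intro i α n
    refine (hP2 i α n).trans ?_
    have h1 : A' k * Fintype.card (Sym Γ (B + 1)) ≤ A' k * nn := Nat.mul_le_mul_left _ (hnn _ hBΔ)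
    have h2 : T' ^ A' k * H ^ (B + 1) ≤ T' ^ A' k * H ^ Δ :=
      Nat.mul_le_mul_left _ (Nat.pow_le_pow_right hH hBΔ)
    have h3 : 1 ≤ T' ^ A' k * H ^ Δ := Nat.mul_pos (pow_pos hT' _) (pow_pos hH _)
    refine Nat.mul_le_mul (Nat.factorial_le h1) ?_
    exact (Nat.pow_le_pow_left h2 _).trans (Nat.pow_le_pow_right h3 h1)
  · rw [hQ6]
    exact hpos (B + 1) hBΔ (A'' k) hA''J
  · have h1 : (Fintype.card (Sym Γ (B + 1)) : ℝ) + a k (j + 1) ≤ r + Θ₁.card + a k j := by
      exact_mod_cast hcount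
    have h2 := hj k hkJ
    have h3 : (a k (j + 1) : ℝ) ≤ fH s c (A k) (B + 1) := by
      have := (ha1 k j).trans (ha3 k j (by omega))
      rw [hBj] at this
      exact_mod_cast this
    have h4 : (fH s c (A k) (B + 1) : ℝ) ≤ fH s c (A'' k) (B + 1) / θ := by
      rw [le_div_iff₀ hθ, mul_comm]
      exact hk
    rw [hQ6]
    calc (Fintype.card (Sym Γ (B + 1)) : ℝ) - r - Θ₁.card ≤ a k j - a k (j + 1) := by linarith
      _ ≤ η * a k (j + 1) := by linarith
      _ ≤ η * (fH s c (A'' k) (B + 1) / θ) :=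
          mul_le_mul_of_nonneg_left (h3.trans h4) hη.le
      _ = η / θ * fH s c (A'' k) (B + 1) := by ring

end Pool.Agent.Lib.MP_524521_nt.RA
end
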