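import Pool.Agent.Lib.MP_524521_nt.RA.Norm

/-!
# Degree and l1 norm of the coefficients of a determinant over `G m [X]`
-/

open Polynomial

namespace Pool.Agent.Lib.MP_524521_nt.RA

theorem coeff_mul_bounds {m : ℕ} (p q : Polynomial (G m)) (A d e : ℕ) (X Y : ℝ) (hX : 0 ≤ X)
    (hq : q.natDegree ≤ A) (h1 : ∀ k, (p.coeff k).totalDegree ≤ d)
    (h2 : ∀ k, (q.coeff k).totalDegree ≤ e) (h3 : ∀ k, (N1 (p.coeff k) : ℝ) ≤ X)
    (h4 : ∀ k, (N1 (q.coeff k) : ℝ) ≤ Y) :
    (∀ k, ((p * q).coeff k).totalDegree ≤ d + e) ∧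
      ∀ k, (N1 ((p * q).coeff k) : ℝ) ≤ X * ((A + 1) * Y) := by
  classical
  have hY : 0 ≤ Y := le_trans (Nat.cast_nonneg _) (h4 0)
  refine ⟨fun k => ?_, fun k => ?_⟩
  · rw [Polynomial.coeff_mul]
    refine (MvPolynomial.totalDegree_finsetSum _ _).trans ?_
    refine Finset.sup_le fun x _ => ?_
    exact (MvPolynomial.totalDegree_mul _ _).trans (Nat.add_le_add (h1 _) (h2 _))
  · rw [Polynomial.coeff_mul]
    have hs : (N1 (∑ x ∈ Finset.HasAntidiagonal.antidiagonal k, p.coeff x.1 * q.coeff x.2) : ℝ) ≤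
        ∑ x ∈ Finset.HasAntidiagonal.antidiagonal k, (N1 (p.coeff x.1 * q.coeff x.2) : ℝ) := by
      exact_mod_cast N1_sum _ _
    refine hs.trans ?_
    have hterm : ∀ x ∈ Finset.HasAntidiagonal.antidiagonal k, (N1 (p.coeff x.1 * q.coeff x.2) : ℝ) ≤
        if x.2 ≤ A then X * Y else 0 := by
      intro x _
      split_ifs with h
      · calc (N1 (p.coeff x.1 * q.coeff x.2) : ℝ)
            ≤ (N1 (p.coeff x.1) : ℝ) * (N1 (q.coeff x.2) : ℝ) := by exact_mod_cast N1_mul _ _
          _ ≤ X * Y := mul_le_mul (h3 _) (h4 _) (Nat.cast_nonneg _) hX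
      · have : q.coeff x.2 = 0 := Polynomial.coeff_eq_zero_of_natDegree_lt (by omega)
        rw [this, mul_zero, N1_zero]
        simp
    refine (Finset.sum_le_sum hterm).trans ?_
    rw [← Finset.sum_filter, Finset.sum_const, nsmul_eq_mul]
    have hcard : ((Finset.HasAntidiagonal.antidiagonal k).filter fun x => x.2 ≤ A).card ≤ A + 1 := by
      calc ((Finset.HasAntidiagonal.antidiagonal k).filter fun x => x.2 ≤ A).card
          ≤ (Finset.range (A + 1)).card := by
            refine Finset.card_le_card_of_injOn (fun x => x.2) ?_ ?_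
            · intro x hx
              have := (Finset.mem_filter.mp hx).2
              simp only [Finset.coe_range, Set.mem_Iio]
              omega
            · intro x hx y hy hxy
              have hx' := Finset.HasAntidiagonal.mem_antidiagonal.mp (Finset.mem_filter.mp hx).1
              have hy' := Finset.HasAntidiagonal.mem_antidiagonal.mp (Finset.mem_filter.mp hy).1
              have hxy' : x.2 = y.2 := hxy
              ext <;> omega
        _ = A + 1 := Finset.card_range _
    have hcard' : (((Finset.HasAntidiagonal.antidiagonal k).filter fun x => x.2 ≤ A).card : ℝ) ≤ A + 1 := by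
      exact_mod_cast hcard
    calc (((Finset.HasAntidiagonal.antidiagonal k).filter fun x => x.2 ≤ A).card : ℝ) * (X * Y)
        ≤ (A + 1) * (X * Y) := mul_le_mul_of_nonneg_right hcard' (by positivity)
      _ = _ := by ring

theorem coeff_prod_bounds {m : ℕ} {ι : Type*} (s : Finset ι) (f : ι → Polynomial (G m))
    (A D : ℕ) (Y : ℝ) (hY : 0 ≤ Y) (h1 : ∀ i, (f i).natDegree ≤ A)
    (h2 : ∀ i k, ((f i).coeff k).totalDegree ≤ D) (h3 : ∀ i k, (N1 ((f i).coeff k) : ℝ) ≤ Y) :
    (∀ k, ((∏ i ∈ s, f i).coeff k).totalDegree ≤ s.card * D) ∧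
      ∀ k, (N1 ((∏ i ∈ s, f i).coeff k) : ℝ) ≤ ((A + 1) * Y) ^ s.card := by
  classical
  induction s using Finset.induction_on with
  | empty =>
      simp only [Finset.prod_empty, Finset.card_empty, zero_mul, pow_zero]
      refine ⟨fun k => ?_, fun k => ?_⟩
      · rw [Polynomial.coeff_one]
        split_ifs <;> simp
      · rw [Polynomial.coeff_one]
        split_ifs
        · have := N1_one (m := m)
          exact_mod_cast this
        · rw [N1_zero]; simp
  | insert a s ha ih =>
      rw [Finset.prod_insert ha, Finset.card_insert_of_notMem ha, mul_comm (f a)]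
      have := coeff_mul_bounds (∏ i ∈ s, f i) (f a) A (s.card * D) D (((A + 1) * Y) ^ s.card) Y
        (by positivity) (h1 a) ih.1 (h2 a) ih.2 (h3 a)
      refine ⟨fun k => ?_, fun k => ?_⟩
      · refine (this.1 k).trans (le_of_eq ?_)
        ring
      · refine (this.2 k).trans (le_of_eq ?_)
        ring

/-- RA/NormX.lean -/
theorem det_coeff_bounds {m : ℕ} {κ : Type} [Fintype κ] [DecidableEq κ]
    (E : Matrix κ κ (Polynomial (G m))) (n A D : ℕ) (Y : ℝ) (hY : 1 ≤ Y) (hn : Fintype.card κ ≤ n)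
    (h1 : ∀ i j, (E i j).natDegree ≤ A) (h2 : ∀ i j k, ((E i j).coeff k).totalDegree ≤ D)
    (h3 : ∀ i j k, (N1 ((E i j).coeff k) : ℝ) ≤ Y) :
    E.det.natDegree ≤ n * A ∧ (∀ k, (E.det.coeff k).totalDegree ≤ n * D) ∧
      (∀ k, (N1 (E.det.coeff k) : ℝ) ≤ n.factorial * ((A + 1) * Y) ^ n) := by
  classical
  have hY0 : 0 ≤ Y := by linarith
  have hprod : ∀ σ : Equiv.Perm κ,
      (∀ k, ((∏ i, E (σ i) i).coeff k).totalDegree ≤ Fintype.card κ * D) ∧
      ∀ k, (N1 ((∏ i, E (σ i) i).coeff k) : ℝ) ≤ ((A + 1) * Y) ^ Fintype.card κ := fun σ => by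
    have := coeff_prod_bounds (Finset.univ : Finset κ) (fun i => E (σ i) i) A D Y hY0
      (fun i => h1 _ _) (fun i => h2 _ _) (fun i => h3 _ _)
    rwa [Finset.card_univ] at this
  refine ⟨?_, fun k => ?_, fun k => ?_⟩
  · rw [Matrix.det_apply]
    refine Polynomial.natDegree_sum_le_of_forall_le _ _ fun σ _ => ?_
    have h4 : (Equiv.Perm.sign σ • ∏ i, E (σ i) i).natDegree ≤ (∏ i, E (σ i) i).natDegree := by
      rcases Int.units_eq_one_or (Equiv.Perm.sign σ) with h | h
      · rw [h, one_smul]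
      · rw [h, Units.neg_smul, one_smul, Polynomial.natDegree_neg]
    refine h4.trans ((Polynomial.natDegree_prod_le _ _).trans ?_)
    refine (Finset.sum_le_sum fun i _ => h1 (σ i) i).trans ?_
    rw [Finset.sum_const, Finset.card_univ, smul_eq_mul]
    exact Nat.mul_le_mul_right _ hn
  · rw [Matrix.det_apply, Polynomial.finsetSum_coeff]
    refine (MvPolynomial.totalDegree_finsetSum _ _).trans ?_
    refine Finset.sup_le fun σ _ => ?_
    have h4 : ((Equiv.Perm.sign σ • ∏ i, E (σ i) i).coeff k).totalDegree ≤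
        ((∏ i, E (σ i) i).coeff k).totalDegree := by
      rcases Int.units_eq_one_or (Equiv.Perm.sign σ) with h | h
      · rw [h, one_smul]
      · rw [h, Units.neg_smul, one_smul, Polynomial.coeff_neg, MvPolynomial.totalDegree_neg]
    exact h4.trans (((hprod σ).1 k).trans (Nat.mul_le_mul_right _ hn))
  · rw [Matrix.det_apply, Polynomial.finsetSum_coeff]
    have hs : (N1 (∑ σ : Equiv.Perm κ, (Equiv.Perm.sign σ • ∏ i, E (σ i) i).coeff k) : ℝ) ≤
        ∑ σ : Equiv.Perm κ, (N1 ((Equiv.Perm.sign σ • ∏ i, E (σ i) i).coeff k) : ℝ) := by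
      exact_mod_cast N1_sum _ _
    refine hs.trans ?_
    have hterm : ∀ σ ∈ (Finset.univ : Finset (Equiv.Perm κ)),
        (N1 ((Equiv.Perm.sign σ • ∏ i, E (σ i) i).coeff k) : ℝ) ≤
        ((A + 1) * Y) ^ Fintype.card κ := by
      intro σ _
      have h4 : N1 ((Equiv.Perm.sign σ • ∏ i, E (σ i) i).coeff k) =
          N1 ((∏ i, E (σ i) i).coeff k) := by
        rcases Int.units_eq_one_or (Equiv.Perm.sign σ) with h | h
        · rw [h, one_smul]
        · rw [h, Units.neg_smul, one_smul, Polynomial.coeff_neg, N1_neg]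
      rw [h4]
      exact (hprod σ).2 k
    refine (Finset.sum_le_sum hterm).trans ?_
    rw [Finset.sum_const, Finset.card_univ, Fintype.card_perm, nsmul_eq_mul]
    have hb : (1 : ℝ) ≤ (A + 1) * Y := by
      have : (0 : ℝ) ≤ A := Nat.cast_nonneg _
      nlinarith
    have h5 : ((Fintype.card κ).factorial : ℝ) ≤ n.factorial := by
      exact_mod_cast Nat.factorial_le hn
    exact mul_le_mul h5 (pow_le_pow_right₀ hb hn) (by positivity) (by positivity)

end Pool.Agent.Lib.MP_524521_nt.RA
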