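import Mathlib
import Pool.Agent.Lib.MP_524521_nt.RA.EvalDefs
import Pool.Agent.Lib.MP_524521_nt.RA.Repr
import Pool.Agent.Lib.MP_524521_nt.RA.Norm

/-! The rows `P_j` and `l_θ` and their values. -/

open Polynomial

namespace Pool.Agent.Lib.MP_524521_nt.RA

/-- the rows of the matrix: the relations `P_j` and the rows of `L c^θ` -/
noncomputable def vrow {m : ℕ} {Γ : Type} [Fintype Γ] [DecidableEq Γ] (ex : Γ → (Fin m →₀ ℕ))
    {B r : ℕ} (P : Fin r → Sym Γ (B + 1) → ℤ[X]) (Θ₁ : Finset (Sym Γ B)) :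
    Fin r ⊕ Θ₁ → Sym Γ (B + 1) → Polynomial (G m) :=
  Sum.elim
    (fun (j : Fin r) (α : Sym Γ (B + 1)) => (P j α).map (algebraMap ℤ (G m)))
    (fun (θ : Θ₁) (α : Sym Γ (B + 1)) =>
      Polynomial.C (row (fun γ => (MvPolynomial.monomial (ex γ) (1 : ℤ) : G m)) θ.1 α))

section

variable {m : ℕ} {Γ : Type} [Fintype Γ] [DecidableEq Γ] (ex : Γ → (Fin m →₀ ℕ))
    {B r : ℕ} (P : Fin r → Sym Γ (B + 1) → ℤ[X]) (Θ₁ : Finset (Sym Γ B))

theorem vrow_natDegree {A : ℕ} (hP : ∀ j α, (P j α).degree < A) (i : Fin r ⊕ Θ₁)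
    (α : Sym Γ (B + 1)) : (vrow ex P Θ₁ i α).natDegree ≤ A := by
  rcases i with j | θ
  · refine (Polynomial.natDegree_map_le).trans ?_
    by_cases h0 : P j α = 0
    · rw [h0]; simp
    · have := hP j α
      rw [degree_eq_natDegree h0] at this
      exact (by exact_mod_cast this.le)
  · simp [vrow]

theorem totalDegree_row {D : ℕ} (hex : ∀ γ, (ex γ).degree ≤ D) (θ : Sym Γ B)
    (α : Sym Γ (B + 1)) :
    (row (fun γ => (MvPolynomial.monomial (ex γ) (1 : ℤ) : G m)) θ α).totalDegree ≤ D := by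
  unfold row
  refine (MvPolynomial.totalDegree_finsetSum _ _).trans ?_
  apply Finset.sup_le
  intro γ _
  split_ifs
  · refine (MvPolynomial.totalDegree_monomial_le _ _).trans ?_
    exact hex γ
  · rw [MvPolynomial.totalDegree_zero]; omega

theorem vrow_totalDegree {D : ℕ} (hex : ∀ γ, (ex γ).degree ≤ D) (i : Fin r ⊕ Θ₁)
    (α : Sym Γ (B + 1)) (k : ℕ) : ((vrow ex P Θ₁ i α).coeff k).totalDegree ≤ D := by
  rcases i with j | θ
  · simp only [vrow, Sum.elim_inl, coeff_map]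
    have : (algebraMap ℤ (G m)) ((P j α).coeff k) = MvPolynomial.C ((P j α).coeff k) := rfl
    rw [this, MvPolynomial.totalDegree_C]
    omega
  · simp only [vrow, Sum.elim_inr, coeff_C]
    split_ifs
    · exact totalDegree_row ex hex _ _
    · simp

theorem N1_row (θ : Sym Γ B) (α : Sym Γ (B + 1)) :
    N1 (row (fun γ => (MvPolynomial.monomial (ex γ) (1 : ℤ) : G m)) θ α) ≤ Fintype.card Γ := by
  unfold row
  refine (N1_sum _ _).trans ?_
  have : ∀ γ ∈ (Finset.univ : Finset Γ),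
      N1 (if γ ::ₛ θ = α then (MvPolynomial.monomial (ex γ) (1 : ℤ) : G m) else 0) ≤ 1 := by
    intro γ _
    split_ifs
    · rw [N1_monomial]; simp
    · rw [N1_zero]; omega
  refine (Finset.sum_le_sum this).trans ?_
  simp

theorem vrow_N1 {X : ℕ} {Y : ℝ} (hP : ∀ j α n, ((P j α).coeff n).natAbs ≤ X) (hX : (X : ℝ) ≤ Y)
    (hY : (Fintype.card Γ : ℝ) ≤ Y) (i : Fin r ⊕ Θ₁)
    (α : Sym Γ (B + 1)) (k : ℕ) : (N1 ((vrow ex P Θ₁ i α).coeff k) : ℝ) ≤ Y := by
  rcases i with j | θ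
  · simp only [vrow, Sum.elim_inl, coeff_map]
    have : (algebraMap ℤ (G m)) ((P j α).coeff k) = MvPolynomial.monomial 0 ((P j α).coeff k) := rfl
    rw [this, N1_monomial]
    refine le_trans ?_ hX
    exact_mod_cast hP j α k
  · simp only [vrow, Sum.elim_inr, coeff_C]
    split_ifs
    · refine le_trans ?_ hY
      exact_mod_cast N1_row ex θ.1 α
    · rw [N1_zero]
      refine le_trans ?_ hY
      push_cast
      positivity

theorem mval_map {Γ' R S : Type} [CommMonoid R] [CommMonoid S] {b : ℕ} (f : R →* S) (x : Γ' → R)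
    (θ : Sym Γ' b) : f (mval x θ) = mval (fun γ => f (x γ)) θ := by
  unfold mval
  rw [map_multiset_prod, Multiset.map_map]
  rfl

theorem evg_C (g : Fin m → ℂ → ℂ) (z : ℂ) (R : G m) :
    evg g z (Polynomial.C R) = MvPolynomial.aeval (fun j => g j z) R := by
  simp [evg]

theorem evg_map (g : Fin m → ℂ → ℂ) (z : ℂ) (p : ℤ[X]) :
    evg g z (p.map (algebraMap ℤ (G m))) = aeval z p := by
  have : (evg g z).comp (Polynomial.mapRingHom (algebraMap ℤ (G m))) =
      (aeval z : ℤ[X] →ₐ[ℤ] ℂ).toRingHom := by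
    apply Polynomial.ringHom_ext
    · intro a
      simp [evg]
    · simp [evg]
  exact congrArg (fun f : ℤ[X] →+* ℂ => f p) this

/-- the sum over the relation rows vanishes -/
theorem sum_vrow_inl (g : Fin m → ℂ → ℂ) (s : ℚ) (c : Γ → ℤ) (cm : ℂ) (j : Fin r)
    (h : ∑ α, (aeval s (P j α) : ℚ) * ((mval c α : ℤ) : ℚ) = 0) :
    ∑ β, evg g (s : ℂ) (vrow ex P Θ₁ (Sum.inl j) β) * (((mval c β : ℤ) : ℂ) / cm) = 0 := by
  have h1 : ∑ β, evg g (s : ℂ) (vrow ex P Θ₁ (Sum.inl j) β) * (((mval c β : ℤ) : ℂ) / cm) =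
      (((∑ α, (aeval s (P j α) : ℚ) * ((mval c α : ℤ) : ℚ) : ℚ)) : ℂ) / cm := by
    push_cast
    rw [Finset.sum_div]
    refine Finset.sum_congr rfl fun β _ => ?_
    simp only [vrow, Sum.elim_inl]
    rw [evg_map]
    have h2 : ((aeval s (P j β) : ℚ) : ℂ) = aeval (s : ℂ) (P j β) := by
      have := Polynomial.aeval_algebraMap_apply ℂ s (P j β)
      simpa using this.symm
    rw [h2]
    ring
  rw [h1, h]; simp

theorem sum_vrow_inr (g : Fin m → ℂ → ℂ) (z : ℂ) (c : Γ → ℤ) (cm : ℂ) (θ : Θ₁) :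
    ∑ β, evg g z (vrow ex P Θ₁ (Sum.inr θ) β) * (((mval c β : ℤ) : ℂ) / cm) =
      (∑ γ, MvPolynomial.aeval (fun j => g j z) (MvPolynomial.monomial (ex γ) (1 : ℤ) : G m) *
        (c γ : ℂ)) * (((mval c θ.1 : ℤ) : ℂ) / cm) := by
  have h1 : ∀ β : Sym Γ (B + 1), evg g z (vrow ex P Θ₁ (Sum.inr θ) β) =
      row (fun γ => MvPolynomial.aeval (fun j => g j z)
        (MvPolynomial.monomial (ex γ) (1 : ℤ) : G m)) θ.1 β := by
    intro β
    simp only [vrow, Sum.elim_inr]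
    rw [evg_C]
    unfold row
    rw [map_sum]
    refine Finset.sum_congr rfl fun γ _ => ?_
    split_ifs <;> simp
  have h2 : ∀ β : Sym Γ (B + 1), ((mval c β : ℤ) : ℂ) = mval (fun γ => (c γ : ℂ)) β := by
    intro β
    exact mval_map (Int.castRingHom ℂ : ℤ →* ℂ) c β
  have h2' : ((mval c θ.1 : ℤ) : ℂ) = mval (fun γ => (c γ : ℂ)) θ.1 :=
    mval_map (Int.castRingHom ℂ : ℤ →* ℂ) c θ.1
  simp only [h1, h2, h2']
  have h3 := row_pair (fun γ => MvPolynomial.aeval (fun j => g j z)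
        (MvPolynomial.monomial (ex γ) (1 : ℤ) : G m)) (fun γ => (c γ : ℂ)) θ.1
  rw [← mul_div_assoc, ← h3, Finset.sum_div]
  refine Finset.sum_congr rfl fun β _ => ?_
  ring

end

/-- the evaluation of a polynomial of bounded degree as a sum over a set of exponents -/
theorem aeval_eq_sum {m : ℕ} {Γ : Type} [Fintype Γ] (ex : Γ → (Fin m →₀ ℕ))
    (hinj : Function.Injective ex) (P : G m) (hP : ∀ d ∈ P.support, ∃ γ, ex γ = d)
    (x : Fin m → ℂ) :
    MvPolynomial.aeval x P = ∑ γ, MvPolynomial.aeval x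
      (MvPolynomial.monomial (ex γ) (1 : ℤ) : G m) * ((P.coeff (ex γ) : ℤ) : ℂ) := by
  classical
  have h1 : P = ∑ γ, MvPolynomial.monomial (ex γ) (P.coeff (ex γ)) := by
    ext d
    rw [MvPolynomial.coeff_sum]
    simp only [MvPolynomial.coeff_monomial]
    by_cases hd : ∃ γ, ex γ = d
    · obtain ⟨γ, rfl⟩ := hd
      rw [Finset.sum_eq_single γ]
      · simp
      · intro γ' _ hne
        rw [if_neg (fun h => hne (hinj h))]
      · intro h; exact absurd (Finset.mem_univ _) h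
    · rw [Finset.sum_eq_zero]
      · by_contra hne
        exact hd (hP d (MvPolynomial.mem_support_iff.2 hne))
      · intro γ _
        rw [if_neg (fun h => hd ⟨γ, h⟩)]
  conv_lhs => rw [h1]
  rw [map_sum]
  refine Finset.sum_congr rfl fun γ _ => ?_
  have h2 : (MvPolynomial.monomial (ex γ) (P.coeff (ex γ)) : G m) =
      MvPolynomial.monomial (ex γ) 1 * MvPolynomial.C (P.coeff (ex γ)) := by
    rw [mul_comm, MvPolynomial.C_mul_monomial, mul_one]
  rw [h2, map_mul, MvPolynomial.aeval_C]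
  rfl

end Pool.Agent.Lib.MP_524521_nt.RA
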