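import Mathlib
import Pool.Agent.Lib.MP_524521_nt.RA.Cost2
import Pool.Agent.Lib.MP_524521_nt.RA.Rows
import Pool.Agent.Lib.MP_524521_nt.RA.AlgPoly
import Pool.Agent.Lib.MP_524521_nt.RA.NormX

section
/-! The final numerical contradiction. -/
namespace Pool.Agent.Lib.MP_524521_nt.RA

/-- RA/Num.lean : the final numeric contradiction (log LHS <= N log N + N log(K+1) + N A l - K e l,
K >= 21 N A / e, log RHS >= -3 N A l) -/
theorem num_contra {A h1 h' N K n : ℕ} {l ε η Hc W δ q : ℝ} (hN : N = A * h1)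
    (hK : K = (N / 2) * (N / (2 * h'))) (h1pos : 1 ≤ h1) (h1n : h1 ≤ n) (hh1 : 1 ≤ h')
    (hh' : (h' : ℝ) ≤ η * h1) (hε : 0 < ε) (hε1 : ε ≤ 1) (hη : η = ε / 128) (hl : 10 ≤ l)
    (hnA : n + 2 ≤ A) (hq : 0 < q) (hq1 : q ≤ Real.exp (-(ε * l))) (hW : 0 < W)
    (hW1 : (2 * h' + 1) * W ≤ Real.exp (A * l)) (hδ : Real.exp (-(A * l)) ≤ δ)
    (hHc : 1 ≤ Hc) (hHc1 : Hc ≤ Real.exp (A * l)) :
    N.factorial * ((K + 1 : ℝ) * ((2 * h' + 1) * W)) ^ N * q ^ K <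
      (δ / (Hc * Real.exp (A * l))) ^ N := by
  have hA3 : 3 ≤ A := by omega
  have hAN : A ≤ N := by rw [hN]; exact Nat.le_mul_of_pos_right _ h1pos
  have hN3 : 3 ≤ N := hA3.trans hAN
  have hAR : (3 : ℝ) ≤ A := by exact_mod_cast hA3
  have hNR : (3 : ℝ) ≤ N := by exact_mod_cast hN3
  have hh'R : (1 : ℝ) ≤ h' := by exact_mod_cast hh1
  have h1R : (1 : ℝ) ≤ h1 := by exact_mod_cast h1pos
  have hNA2 : N ≤ A ^ 2 := by
    rw [hN, pow_two]
    exact Nat.mul_le_mul_left _ (by omega)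
  -- lower bound for `K`
  have hf1 : (N : ℝ) / 3 ≤ ((N / 2 : ℕ) : ℝ) := by
    have : N ≤ 3 * (N / 2) := by omega
    have h2 : (N : ℝ) ≤ 3 * ((N / 2 : ℕ) : ℝ) := by exact_mod_cast this
    linarith
  have hNh : 64 * (A : ℝ) / ε ≤ (N : ℝ) / (2 * h') := by
    rw [div_le_div_iff₀ hε (by positivity), hN]
    push_cast
    have h2 : (h' : ℝ) * 128 ≤ ε * h1 := by
      rw [hη] at hh'
      linarith
    have hA0 : (0 : ℝ) ≤ A := by positivity
    nlinarith [mul_le_mul_of_nonneg_left h2 hA0]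
  have hf2 : 63 * (A : ℝ) / ε ≤ ((N / (2 * h') : ℕ) : ℝ) := by
    have h2 : (N : ℝ) / (2 * h') < ((N / (2 * h') : ℕ) : ℝ) + 1 := by
      have := Nat.lt_floor_add_one ((N : ℝ) / ((2 * h' : ℕ) : ℝ))
      rw [Nat.floor_div_eq_div] at this
      push_cast at this
      exact this
    have h3 : 1 ≤ (A : ℝ) / ε := by
      rw [le_div_iff₀ hε]
      linarith
    have h4 : 64 * (A : ℝ) / ε = 63 * (A : ℝ) / ε + (A : ℝ) / ε := by ring
    linarith
  have hKlow : 21 * (N : ℝ) * A / ε ≤ K := by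
    rw [hK]
    push_cast
    have h2 : (N : ℝ) / 3 * (63 * (A : ℝ) / ε) ≤
        ((N / 2 : ℕ) : ℝ) * ((N / (2 * h') : ℕ) : ℝ) := by
      apply mul_le_mul hf1 hf2 (by positivity) (by positivity)
    have h3 : (N : ℝ) / 3 * (63 * (A : ℝ) / ε) = 21 * (N : ℝ) * A / ε := by ring
    linarith
  have hKup : K + 1 ≤ A ^ 4 := by
    have h2 : K ≤ (N / 2) * (N / 2) := by
      rw [hK]
      apply Nat.mul_le_mul_left
      exact Nat.div_le_div_left (by omega) (by norm_num)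
    have h3 : (N / 2) * (N / 2) + 1 ≤ N * N := by
      have : N / 2 + 1 ≤ N := by omega
      nlinarith [Nat.zero_le (N / 2)]
    have h4 : N * N ≤ A ^ 2 * A ^ 2 := Nat.mul_le_mul hNA2 hNA2
    have h5 : A ^ 2 * A ^ 2 = A ^ 4 := by ring
    omega
  -- exponentials
  have hAe : (A : ℝ) ≤ Real.exp A := by
    have := Real.add_one_le_exp (A : ℝ)
    linarith
  have hNe : (N : ℝ) ≤ Real.exp (2 * A) := by
    have h2 : (N : ℝ) ≤ (A : ℝ) ^ 2 := by exact_mod_cast hNA2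
    have h3 : (A : ℝ) ^ 2 ≤ (Real.exp A) ^ 2 := pow_le_pow_left₀ (by positivity) hAe _
    rw [← Real.exp_nat_mul] at h3
    push_cast at h3
    linarith
  have hKe : (K : ℝ) + 1 ≤ Real.exp (4 * A) := by
    have h2 : (K : ℝ) + 1 ≤ (A : ℝ) ^ 4 := by exact_mod_cast hKup
    have h3 : (A : ℝ) ^ 4 ≤ (Real.exp A) ^ 4 := pow_le_pow_left₀ (by positivity) hAe _
    rw [← Real.exp_nat_mul] at h3
    push_cast at h3
    linarith
  have hqK : q ^ K ≤ (Real.exp (-(21 * A * l))) ^ N := by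
    calc q ^ K ≤ (Real.exp (-(ε * l))) ^ K := pow_le_pow_left₀ hq.le hq1 _
      _ = Real.exp (-(K * (ε * l))) := by
          rw [← Real.exp_nat_mul]
          ring_nf
      _ ≤ Real.exp (-(N * (21 * A * l))) := by
          apply Real.exp_le_exp.2
          apply neg_le_neg
          have hεl : 0 ≤ ε * l := by positivity
          have h2 := mul_le_mul_of_nonneg_right hKlow hεl
          have h3 : 21 * (N : ℝ) * A / ε * (ε * l) = N * (21 * A * l) := by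
            field_simp
          linarith
      _ = (Real.exp (-(21 * A * l))) ^ N := by
          rw [← Real.exp_nat_mul]
          ring_nf
  have hfact : ((N.factorial : ℕ) : ℝ) ≤ (N : ℝ) ^ N := by
    exact_mod_cast Nat.factorial_le_pow N
  have hl0 : (0 : ℝ) < l := by linarith
  have hKpos : (0 : ℝ) ≤ (K : ℝ) + 1 := by positivity
  have hWpos : 0 ≤ (2 * (h' : ℝ) + 1) * W := by positivity
  have hstep : (K + 1 : ℝ) * ((2 * h' + 1) * W) ≤ Real.exp (4 * A) * Real.exp (A * l) :=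
    mul_le_mul hKe hW1 hWpos (by positivity)
  have hLHS : N.factorial * ((K + 1 : ℝ) * ((2 * h' + 1) * W)) ^ N * q ^ K ≤
      (Real.exp (2 * A) * (Real.exp (4 * A) * Real.exp (A * l)) * Real.exp (-(21 * A * l))) ^ N := by
    rw [mul_pow (Real.exp (2 * A) * (Real.exp (4 * A) * Real.exp (A * l))),
      mul_pow (Real.exp (2 * A))]
    apply mul_le_mul _ hqK (by positivity) (by positivity)
    apply mul_le_mul _ _ (by positivity) (by positivity)
    · exact hfact.trans (pow_le_pow_left₀ (by positivity) hNe _)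
    · exact pow_le_pow_left₀ (mul_nonneg hKpos hWpos) hstep _
  have hRHS : (Real.exp (-(A * l)) / (Real.exp (A * l) * Real.exp (A * l))) ^ N ≤
      (δ / (Hc * Real.exp (A * l))) ^ N := by
    apply pow_le_pow_left₀ (by positivity)
    apply div_le_div₀ _ hδ (by positivity) _
    · exact (Real.exp_pos _).le.trans hδ
    · exact mul_le_mul_of_nonneg_right hHc1 (by positivity)
  refine lt_of_le_of_lt hLHS (lt_of_lt_of_le ?_ hRHS)
  apply pow_lt_pow_left₀ _ (by positivity) (by omega)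
  rw [← Real.exp_add, ← Real.exp_add, ← Real.exp_add, ← Real.exp_add, ← Real.exp_sub]
  apply Real.exp_lt_exp.2
  have hAl : (A : ℝ) * 10 ≤ A * l := mul_le_mul_of_nonneg_left hl (by positivity)
  nlinarith

end Pool.Agent.Lib.MP_524521_nt.RA
end

section
/-! The contradiction at one level. -/
open Polynomial

namespace Pool.Agent.Lib.MP_524521_nt.RA

theorem mval_replicate {Γ R : Type} [CommMonoid R] {B : ℕ} (x : Γ → R) (γ : Γ) :
    mval x (Sym.replicate B γ) = x γ ^ B := by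
  simp [mval, Sym.coe_replicate]

open Classical in
theorem level_false {m : ℕ} (g : Fin m → ℂ → ℂ) {s₀ : ℂ} {r ρ R' Z₀ R : ℝ} (hr : 0 < r)
    (hρ : 2 * r ≤ ρ) (hR' : ρ < R')
    (hg : ∀ j, DifferentiableOn ℂ (g j) (Metric.ball s₀ R')) (hZ : 1 ≤ Z₀)
    (hgb : ∀ z ∈ Metric.closedBall s₀ ρ, ∀ j, ‖g j z‖ ≤ Z₀)
    (hR : 1 ≤ R) (hzR : ∀ z ∈ Metric.closedBall s₀ ρ, ‖z‖ ≤ R)
    {Γ : Type} [Fintype Γ] [DecidableEq Γ] (ex : Γ → (Fin m →₀ ℕ)) {D : ℕ}
    (hex : ∀ γ, (ex γ).degree ≤ D)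
    {ι : Type} [Fintype ι] (s : ι → ℚ) {T H : ℕ} (hT : 1 ≤ T)
    (hsr : ∀ i, ‖((s i : ℚ) : ℂ) - s₀‖ ≤ r) (hsd : ∀ i, (s i).den ≤ T)
    (c : ι → Γ → ℤ) (M : ι → ℕ) (hM1 : ∀ i, 1 ≤ M i) (hMH : ∀ i, M i ≤ H)
    (hMc : ∀ i γ, (c i γ).natAbs ≤ M i) (hMex : ∀ i, ∃ γ, (c i γ).natAbs = M i)
    {ξ : ℝ} (hξ0 : 0 ≤ ξ)
    (hξ : ∀ i, ‖∑ γ, MvPolynomial.aeval (fun j => g j (s i))
      (MvPolynomial.monomial (ex γ) (1 : ℤ) : G m) * (c i γ : ℂ)‖ ≤ ξ)
    {B r' A X : ℕ} {Y : ℝ} (P : Fin r' → Sym Γ (B + 1) → ℤ[X]) (hP : ∀ j α, (P j α).degree < A)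
    (hPc : ∀ j α n, ((P j α).coeff n).natAbs ≤ X) (hXY : (X : ℝ) ≤ Y) (hY : 1 ≤ Y)
    (hΓY : (Fintype.card Γ : ℝ) ≤ Y)
    (hPv : ∀ j i, ∑ α, (aeval (s i) (P j α) : ℚ) * ((mval (c i) α : ℤ) : ℚ) = 0)
    (Θ₁ : Finset (Sym Γ B)) (Θ₂ : Finset (Sym Γ (B + 1))) (h1pos : 0 < Θ₁.card)
    (h12 : Θ₁.card ≤ Θ₂.card) {A' qb : ℕ} (hfree : Free s c (A' + qb) Θ₂)
    (gs : Fin r' ⊕ Θ₁ → Sym Γ (B + 1)) (hgs : Function.Injective gs)
    (bad : Finset ι) (hbadc : bad.card ≤ qb) {δ : ℝ} (hδ0 : 0 < δ)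
    (hbad : ∀ i, i ∉ bad → δ ≤ ‖evg g (s i) (sq (vrow ex P Θ₁) gs).det‖)
    (hgood : ∃ i, i ∉ bad) {n : ℕ} (hn : Fintype.card (Sym Γ (B + 1)) ≤ n)
    {ε η l : ℝ} (hε : 0 < ε) (hε1 : ε ≤ 1) (hη : η = ε / 128)
    (hh' : ((Finset.univ.filter (fun x => x ∉ Set.range gs)).card : ℝ) ≤ η * Θ₁.card)
    (hl : l = Real.log T) (hl10 : 10 ≤ l) (I1 : n + 2 ≤ A') (I2 : Real.exp (-(A' * l)) ≤ δ)
    (I3 : (H : ℝ) ^ (B + 1) ≤ Real.exp (A' * l))
    (I4 : (2 * n + 1) * (R ^ A' * ((n + 1) * n.factorial * Ent A D Y Z₀ R ^ (n + 1))) ≤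
      Real.exp (A' * l))
    (I5 : r / ρ ≤ Real.exp (-(ε * l))) (I6 : ξ ≤ (r / ρ) ^ ((A' * n) ^ 2))
    (I7 : ((n + 1) * n.factorial * Ent A D Y Z₀ R ^ (n + 1)) * ξ < δ) : False := by
  set v := vrow ex P Θ₁ with hv
  have hcardκ : Fintype.card (Fin r' ⊕ Θ₁) ≤ n :=
    (Fintype.card_le_of_injective gs hgs).trans hn
  have hv1 : ∀ i α, (v i α).natDegree ≤ A := fun i α => vrow_natDegree ex P Θ₁ hP i α
  have hv2 : ∀ i α k, ((v i α).coeff k).totalDegree ≤ D :=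
    fun i α k => vrow_totalDegree ex P Θ₁ hex i α k
  have hv3 : ∀ i α k, (N1 ((v i α).coeff k) : ℝ) ≤ Y :=
    fun i α k => vrow_N1 ex P Θ₁ hPc hXY hΓY i α k
  have hE1 := one_le_Ent A D hY hZ hR
  set E := Ent A D Y Z₀ R with hE
  have hρ0 : 0 < ρ := by linarith
  have hball : ∀ i, ((s i : ℚ) : ℂ) ∈ Metric.closedBall s₀ ρ := by
    intro i
    rw [Metric.mem_closedBall, dist_eq_norm]
    exact (hsr i).trans (by linarith)
  have hMpos : ∀ i, (0:ℝ) < (M i : ℝ) ^ (B + 1) := fun i => by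
    have : (0:ℝ) < M i := by exact_mod_cast hM1 i
    positivity
  have hmv : ∀ i (α : Sym Γ (B + 1)), (mval (c i) α).natAbs ≤ M i ^ (B + 1) :=
    fun i α => natAbs_mval_le (c i) (M i) (hMc i) α
  have hξrow : ∀ i (k : Fin r' ⊕ Θ₁), ‖∑ β, evg g (s i) (v k β) *
      (((mval (c i) β : ℤ) : ℂ) / ((M i ^ (B + 1) : ℕ) : ℂ))‖ ≤ ξ := by
    intro i k
    rcases k with j | θ
    · rw [hv, sum_vrow_inl ex P Θ₁ g (s i) (c i) _ j (hPv j i), norm_zero]
      exact hξ0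
    · rw [hv, sum_vrow_inr ex P Θ₁ g (s i) (c i) _ θ, norm_mul]
      have h1 : ‖((mval (c i) θ.1 : ℤ) : ℂ) / ((M i ^ (B + 1) : ℕ) : ℂ)‖ ≤ 1 := by
        rw [norm_div, Complex.norm_natCast, Complex.norm_intCast, div_le_one (by
          push_cast; exact hMpos i)]
        have h2 : (mval (c i) θ.1).natAbs ≤ M i ^ B := natAbs_mval_le (c i) (M i) (hMc i) θ.1
        have h3 : M i ^ B ≤ M i ^ (B + 1) := Nat.pow_le_pow_right (hM1 i) (by omega)
        have h4 : ((mval (c i) θ.1).natAbs : ℝ) ≤ ((M i ^ (B + 1) : ℕ) : ℝ) := by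
          exact_mod_cast h2.trans h3
        rwa [Nat.cast_natAbs, Int.cast_abs] at h4
      calc ‖∑ γ, MvPolynomial.aeval (fun j => g j (s i))
            (MvPolynomial.monomial (ex γ) (1 : ℤ) : G m) * (c i γ : ℂ)‖ *
            ‖((mval (c i) θ.1 : ℤ) : ℂ) / ((M i ^ (B + 1) : ℕ) : ℂ)‖ ≤ ξ * 1 :=
            mul_le_mul (hξ i) h1 (norm_nonneg _) hξ0
        _ = ξ := mul_one ξ
  set F := Finset.univ.filter (fun x : Sym Γ (B + 1) => x ∉ Set.range gs) with hF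
  rcases Nat.eq_zero_or_pos F.card with h0 | hpos
  · -- all columns are pivot columns
    obtain ⟨i, hi⟩ := hgood
    obtain ⟨γ, hγ⟩ := hMex i
    have hFe : F = ∅ := Finset.card_eq_zero.1 h0
    have hrep := repr_eq (fun k β => evg g (s i) (v k β)) gs hgs
      (fun β => ((mval (c i) β : ℤ) : ℂ) / ((M i ^ (B + 1) : ℕ) : ℂ)) (Sym.replicate (B + 1) γ)
    have hsq : evg g (s i) (sq v gs).det = (sq (fun k β => evg g (s i) (v k β)) gs).det := by
      rw [RingHom.map_det]; rfl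
    rw [← hF, hFe, Finset.sum_empty, zero_add, ← hsq] at hrep
    have hu1 : ‖((mval (c i) (Sym.replicate (B + 1) γ) : ℤ) : ℂ) / ((M i ^ (B + 1) : ℕ) : ℂ)‖ = 1 := by
      rw [norm_div, Complex.norm_natCast, Complex.norm_intCast, mval_replicate]
      push_cast
      rw [abs_pow]
      have h5 : |((c i γ : ℤ) : ℝ)| = M i := by
        rw [← hγ, Nat.cast_natAbs, Int.cast_abs]
      rw [h5]
      exact div_self (hMpos i).ne'
    have hEr := norm_Er_le hE1 hcardκ (fun k β => evg g (s i) (v k β))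
      (fun k β => norm_evg_le g _ Z₀ R Y hZ hR (hgb _ (hball i)) (hzR _ (hball i)) (v k β) A D
        (hv1 k β) (hv2 k β) (hv3 k β)) gs
      (fun β => ((mval (c i) β : ℤ) : ℂ) / ((M i ^ (B + 1) : ℕ) : ℂ)) hξ0 (hξrow i)
      (Sym.replicate (B + 1) γ)
    have h6 := congrArg norm hrep
    rw [norm_mul, hu1, mul_one] at h6
    have h7 := hbad i hi
    rw [h6] at h7
    have h8 : (n : ℝ) * n.factorial * E ^ n * ξ ≤ ((n + 1) * n.factorial * E ^ (n + 1)) * ξ := by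
      have hn0 : (0:ℝ) ≤ n := Nat.cast_nonneg n
      have h3 : (n : ℝ) * n.factorial ≤ (n + 1) * n.factorial := by
        have : (0:ℝ) ≤ n.factorial := Nat.cast_nonneg _
        nlinarith
      have h4 : E ^ n ≤ E ^ (n + 1) := pow_le_pow_right₀ hE1 (by omega)
      have hE0 : 0 ≤ E := by linarith
      gcongr
    linarith
  · -- determinant
    obtain ⟨Θ₃, hΘ₃s, hΘ₃c⟩ := Finset.exists_subset_card_eq h12
    have hfree3 : Free s c (A' + qb) Θ₃ := by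
      intro p hp hp0 hpv
      apply hfree p hp
      · intro θ hθ; exact hp0 θ (fun h => hθ (hΘ₃s h))
      · intro i
        rw [← hpv i]
        symm
        apply Finset.sum_subset hΘ₃s
        intro θ _ hθ
        rw [hp0 θ hθ]; simp
    have hind := indep_rows s c A' qb Θ₃ hfree3 bad hbadc
    obtain ⟨pts, hptsinj, hdet⟩ := exists_minor_field _ hind
    set N := A' * Θ₁.card with hN
    have hcardN : Fintype.card (Fin A' × Θ₃) = N := by
      rw [Fintype.card_prod, Fintype.card_fin, Fintype.card_coe, hΘ₃c]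
    let e0 : Fin N ≃ Fin A' × Θ₃ := (Fintype.equivFinOfCardEq hcardN).symm
    have hdet2 : (Matrix.of fun i j => (s (pts (e0 j)).1) ^ (((e0 i).1 : Fin A') : ℕ) *
        (((mval (c (pts (e0 j)).1) (e0 i).2.1 : ℤ)) : ℚ)).det ≠ 0 := by
      have h9 : (Matrix.of fun i j => (s (pts (e0 j)).1) ^ (((e0 i).1 : Fin A') : ℕ) *
        (((mval (c (pts (e0 j)).1) (e0 i).2.1 : ℤ)) : ℚ)) =
        (Matrix.of fun (i j : Fin A' × Θ₃) => (s (pts j).1) ^ ((i.1 : Fin A') : ℕ) *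
          (((mval (c (pts j).1) i.2.1 : ℤ)) : ℚ)).submatrix e0 e0 := by
        ext i j; rfl
      rw [h9, Matrix.det_submatrix_equiv_self]
      exact hdet
    have hh1n : Θ₁.card ≤ n := by
      have : Θ₁.card ≤ Fintype.card (Fin r' ⊕ Θ₁) := by
        rw [Fintype.card_sum, Fintype.card_coe]; omega
      exact this.trans hcardκ
    have hFn : F.card ≤ n := (Finset.card_le_univ F).trans hn
    set K := (N / 2) * (N / (2 * F.card)) with hK
    have hKle : K ≤ (A' * n) ^ 2 := by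
      have hNn : N ≤ A' * n := Nat.mul_le_mul_left A' hh1n
      have h10 : N / 2 ≤ A' * n := (Nat.div_le_self _ _).trans hNn
      have h11 : N / (2 * F.card) ≤ A' * n := (Nat.div_le_self _ _).trans hNn
      rw [hK, pow_two]
      exact Nat.mul_le_mul h10 h11
    have hq0 : 0 < r / ρ := by positivity
    have hq1 : r / ρ ≤ 1 := by rw [div_le_one hρ0]; linarith
    have hξK : ξ ≤ (r / ρ) ^ K :=
      I6.trans (pow_le_pow_of_le_one hq0.le hq1 hKle)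
    have hineq := core_ineq g hr hρ hR' hg hZ hgb hR hzR v gs hgs hcardκ hv1 hv2 hv3 hY
      (N := N) (A' := A') (T := T) (Hc := H ^ (B + 1)) (fun j => s (pts (e0 j)).1)
      (fun j => hsr _) (fun j => hsd _) (fun j α => mval (c (pts (e0 j)).1) α)
      (fun j => M (pts (e0 j)).1 ^ (B + 1)) (fun j => Nat.one_le_pow _ _ (hM1 _))
      (fun j => Nat.pow_le_pow_left (hMH _) _) (fun j α => hmv _ α) hξ0
      (fun j k => hξrow _ k) hδ0 (fun j => hbad _ (pts (e0 j)).2)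
      (fun i => ((e0 i).1 : ℕ)) (fun i => (e0 i).1.2) (fun i => (e0 i).2.1) hdet2
      (h := F.card) hpos (by rw [hF]) (K := K) le_rfl hξK
    have hTpow : (T : ℝ) ^ A' = Real.exp (A' * l) := by
      have hT0 : (0:ℝ) < T := by exact_mod_cast hT
      rw [hl, mul_comm, Real.exp_mul, Real.exp_log hT0, Real.rpow_natCast]
    have hW0 : 0 < R ^ A' * ((n + 1) * n.factorial * E ^ (n + 1)) := by
      have hR0 : 0 < R := by linarith
      have hE0 : 0 < E := by linarith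
      have : (0:ℝ) < n.factorial := by exact_mod_cast Nat.factorial_pos n
      positivity
    have hnum := num_contra (A := A') (h1 := Θ₁.card) (h' := F.card) (N := N) (K := K) (n := n)
      (l := l) (ε := ε) (η := η) (Hc := (H : ℝ) ^ (B + 1))
      (W := R ^ A' * ((n + 1) * n.factorial * E ^ (n + 1))) (δ := δ) (q := r / ρ)
      hN hK h1pos hh1n hpos hh' hε hε1 hη hl10 I1 hq0 I5 hW0
      (by
        refine le_trans ?_ I4
        have : (F.card : ℝ) ≤ n := by exact_mod_cast hFn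
        gcongr) I2
      (by
        have hH1 : 1 ≤ H := by
          obtain ⟨i, _⟩ := hgood
          exact (hM1 i).trans (hMH i)
        exact one_le_pow₀ (by exact_mod_cast hH1)) I3
    rw [hTpow] at hineq
    push_cast at hineq
    exact absurd hineq (not_le.2 hnum)

end Pool.Agent.Lib.MP_524521_nt.RA
end

section
/-! The local theorem. -/
open Polynomial

namespace Pool.Agent.Lib.MP_524521_nt.RA

/-- exponents of degree `≤ D` -/
abbrev Gam (m D : ℕ) : Type := {d : Fin m →₀ ℕ // d.degree ≤ D}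

noncomputable instance (m D : ℕ) : Fintype (Gam m D) :=
  (Finsupp.finite_of_degree_le D : {d : Fin m →₀ ℕ | d.degree ≤ D}.Finite).fintype

theorem lev_pos (n e : ℕ) (Lg : ℝ) (k : ℕ) : 1 ≤ lev n e Lg k := by
  cases k with
  | zero => simp [lev]
  | succ k => simp only [lev]; omega

theorem lev_mono (n e : ℕ) (hn : 1 ≤ n) (Lg : ℝ) : Monotone (lev n e Lg) := by
  apply monotone_nat_of_le_succ
  intro k
  simp only [lev]
  have : 1 * lev n e Lg k ≤ n * lev n e Lg k := Nat.mul_le_mul_right _ hn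
  omega

theorem pow_le_pow_aux {Cl C : ℕ} {Lg : ℝ} (h1 : 1 ≤ Cl) (h2 : Cl ≤ C) (hLg : 1 ≤ Lg) :
    ((Cl : ℝ) * Lg) ^ Cl ≤ ((C : ℝ) * Lg) ^ C := by
  have hc1 : (1:ℝ) ≤ Cl := by exact_mod_cast h1
  have hc2 : (Cl:ℝ) ≤ C := by exact_mod_cast h2
  have hb : 1 ≤ (C : ℝ) * Lg := by nlinarith
  calc ((Cl : ℝ) * Lg) ^ Cl ≤ ((C : ℝ) * Lg) ^ Cl := by gcongr
    _ ≤ ((C : ℝ) * Lg) ^ C := pow_le_pow_right₀ hb h2

theorem num_bound {a b : ℝ} {bb T : ℕ} {i : ℚ} (h1 : a ≤ i) (h2 : (i : ℝ) ≤ b)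
    (hbbr : |a| + |b| + 1 ≤ (bb : ℝ)) (h3 : i.den ≤ T) : i.num.natAbs ≤ bb * T := by
  have h4 : |(i : ℝ)| ≤ |a| + |b| := by
    rw [abs_le]
    constructor
    · have := neg_abs_le a
      have := abs_nonneg b
      linarith
    · have := le_abs_self b
      have := abs_nonneg a
      linarith
  have h5 : ((i.num.natAbs : ℕ) : ℝ) = |(i : ℝ)| * i.den := by
    have h6 : ((i.num : ℤ) : ℝ) = (i : ℝ) * i.den := by
      exact_mod_cast (Rat.mul_den_eq_num i).symm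
    rw [Nat.cast_natAbs, Int.cast_abs, h6, abs_mul, Nat.abs_cast]
  have h7 : ((i.den : ℕ) : ℝ) ≤ T := by exact_mod_cast h3
  have h8 : ((i.num.natAbs : ℕ) : ℝ) ≤ ((bb * T : ℕ) : ℝ) := by
    rw [h5]; push_cast
    have := abs_nonneg (i : ℝ)
    have h9 : (0:ℝ) ≤ i.den := Nat.cast_nonneg _
    apply mul_le_mul _ h7 h9 (by linarith)
    linarith
  exact_mod_cast h8

open Classical in
theorem card_compl_range {κ Sg : Type} [Fintype κ] [Fintype Sg] (gs : κ → Sg)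
    (hgs : Function.Injective gs) :
    ((Finset.univ.filter (fun x => x ∉ Set.range gs)).card : ℝ) =
      Fintype.card Sg - Fintype.card κ := by
  have h1 : Finset.univ.filter (fun x => x ∉ Set.range gs) =
      Finset.univ \ (Finset.univ.image gs) := by
    ext x; simp
  rw [h1, Finset.card_sdiff_of_subset (Finset.subset_univ _),
    Finset.card_image_of_injective _ hgs, Finset.card_univ, Finset.card_univ, Nat.cast_sub]
  exact Fintype.card_le_of_injective gs hgs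

theorem exists_max {Γ : Type} [Fintype Γ] [Nonempty Γ] (c : Γ → ℤ) (hc : c ≠ 0) (H : ℕ)
    (hcH : ∀ γ, (c γ).natAbs ≤ H) : ∃ Mi : ℕ, 1 ≤ Mi ∧ Mi ≤ H ∧ (∀ γ, (c γ).natAbs ≤ Mi) ∧
      ∃ γ, (c γ).natAbs = Mi := by
  obtain ⟨γ, _, hγ⟩ := Finset.exists_max_image Finset.univ (fun γ => (c γ).natAbs)
    Finset.univ_nonempty
  refine ⟨(c γ).natAbs, ?_, hcH γ, fun γ' => hγ γ' (Finset.mem_univ _), γ, rfl⟩
  by_contra h
  apply hc
  funext γ'
  have := hγ γ' (Finset.mem_univ _)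
  have h0 : (c γ').natAbs = 0 := by omega
  simpa using h0

theorem norm_center {a b ρ : ℝ} {s0 : ℚ} (h3 : a ≤ s0) (h4 : (s0 : ℝ) ≤ b) {z : ℂ}
    (hz : z ∈ Metric.closedBall ((s0 : ℚ) : ℂ) ρ) : ‖z‖ ≤ |a| + |b| + ρ + 1 := by
  rw [Metric.mem_closedBall, dist_eq_norm] at hz
  have h1 : ‖z‖ ≤ ‖z - ((s0 : ℚ) : ℂ)‖ + ‖((s0 : ℚ) : ℂ)‖ := by
    have := norm_add_le (z - ((s0 : ℚ) : ℂ)) ((s0 : ℚ) : ℂ)
    simpa using this
  have h2 : ‖((s0 : ℚ) : ℂ)‖ ≤ |a| + |b| := by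
    rw [← Complex.ofReal_ratCast, Complex.norm_real, Real.norm_eq_abs, abs_le]
    constructor
    · have := neg_abs_le a
      have := abs_nonneg b
      linarith
    · have := le_abs_self b
      have := abs_nonneg a
      linarith
  linarith

instance (m D : ℕ) : Nonempty (Gam m D) := ⟨⟨0, by simp⟩⟩

theorem rho_facts {ε ρ l : ℝ} {T : ℕ} (hε : 0 < ε) (hε1 : ε ≤ 1) (hρ : 0 < ρ) (hρ1 : ρ ≤ 1)
    (hl0 : 0 ≤ l) (hk : (2 / ε) * Real.log (4 / ρ) ≤ l) (hT : (T : ℝ) = Real.exp l) :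
    0 < 2 * (T : ℝ) ^ (-ε) ∧ 2 * (T : ℝ) ^ (-ε) / ρ ≤ Real.exp (-(ε / 2 * l)) ∧
      2 * (2 * (T : ℝ) ^ (-ε)) ≤ ρ ∧ Real.exp (-l) ≤ 2 * (T : ℝ) ^ (-ε) / ρ := by
  have hTε : (T : ℝ) ^ (-ε) = Real.exp (-(ε * l)) := by
    rw [hT, ← Real.exp_mul]; congr 1; ring
  have hkey : Real.log (4 / ρ) ≤ (ε / 2) * l := by
    calc Real.log (4 / ρ) = (ε / 2) * ((2 / ε) * Real.log (4 / ρ)) := by field_simp
      _ ≤ (ε / 2) * l := by gcongr
  have hkey2 : (4 / ρ) * Real.exp (-((ε / 2) * l)) ≤ 1 := by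
    rw [← Real.exp_log (show 0 < 4 / ρ by positivity), ← Real.exp_add]
    rw [Real.exp_le_one_iff]; linarith
  rw [hTε]
  refine ⟨by positivity, ?_, ?_, ?_⟩
  · have h1 : 2 * Real.exp (-(ε * l)) / ρ =
        ((2 / ρ) * Real.exp (-((ε / 2) * l))) * Real.exp (-((ε / 2) * l)) := by
      rw [mul_assoc, ← Real.exp_add]
      rw [show -(ε / 2 * l) + -(ε / 2 * l) = -(ε * l) by ring]
      ring
    rw [h1]
    have h2 : (2 / ρ) * Real.exp (-((ε / 2) * l)) ≤ 1 := by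
      refine le_trans ?_ hkey2
      gcongr; norm_num
    calc ((2 / ρ) * Real.exp (-((ε / 2) * l))) * Real.exp (-((ε / 2) * l))
        ≤ 1 * Real.exp (-((ε / 2) * l)) := by gcongr
      _ = Real.exp (-(ε / 2 * l)) := one_mul _
  · have h1 : 2 * (2 * Real.exp (-(ε * l))) = ρ * ((4 / ρ) * Real.exp (-(ε * l))) := by
      field_simp; ring
    rw [h1]
    have h2 : (4 / ρ) * Real.exp (-(ε * l)) ≤ 1 := by
      refine le_trans ?_ hkey2
      gcongr
      have : 0 ≤ ε * l := by positivity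
      linarith
    nlinarith
  · rw [le_div_iff₀ hρ]
    have h1 : Real.exp (-l) ≤ Real.exp (-(ε * l)) := by
      apply Real.exp_le_exp.2
      nlinarith
    have h2 : 0 < Real.exp (-l) := Real.exp_pos _
    nlinarith [Real.exp_pos (-(ε * l))]

theorem I6_fact {Cl C A' n : ℕ} {Lg l q : ℝ} (hCl : 1 ≤ Cl) (hC : 2 * Cl + 1 ≤ C) (hLg : 1 ≤ Lg)
    (hl0 : 0 ≤ l) (hl : l ≤ Lg) (hlev : ((A' * n : ℕ) : ℝ) ≤ (Cl * Lg) ^ Cl)
    (hlow : Real.exp (-l) ≤ q) :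
    Real.exp (-(C * Lg) ^ C) ≤ q ^ ((A' * n) ^ 2) := by
  have hCl1 : (1:ℝ) ≤ Cl := by exact_mod_cast hCl
  have hCr : (Cl : ℝ) ≤ C := by exact_mod_cast (by omega : Cl ≤ C)
  have hCL1 : 1 ≤ (C : ℝ) * Lg := by nlinarith
  have h1 : Real.exp (-l) ^ ((A' * n) ^ 2) ≤ q ^ ((A' * n) ^ 2) := by
    gcongr
  refine le_trans ?_ h1
  rw [← Real.exp_nat_mul]
  apply Real.exp_le_exp.2
  have h2 : (((A' * n) ^ 2 : ℕ) : ℝ) * l ≤ (C * Lg) ^ C := by
    have h3 : (((A' * n) ^ 2 : ℕ) : ℝ) ≤ ((Cl * Lg) ^ Cl) ^ 2 := by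
      rw [Nat.cast_pow]
      gcongr
    have h4 : (1:ℝ) ≤ Cl * Lg := by nlinarith
    calc (((A' * n) ^ 2 : ℕ) : ℝ) * l ≤ ((Cl * Lg) ^ Cl) ^ 2 * (Cl * Lg) := by
          apply mul_le_mul h3 _ hl0 (by positivity)
          nlinarith
      _ = (Cl * Lg) ^ (2 * Cl + 1) := by rw [← pow_mul, ← pow_succ]; congr 1; ring
      _ ≤ (C * Lg) ^ (2 * Cl + 1) := by
          gcongr
      _ ≤ (C * Lg) ^ C := pow_le_pow_right₀ hCL1 hC
  linarith

theorem I7_fact {W1 st d0 X A' : ℝ} {n : ℝ} (hn : 1 ≤ n) (hW1 : 1 ≤ W1)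
    (hexp : Real.exp st = (2 * n + 1) * W1) (h1 : st + d0 < A') (h2 : A' ≤ X) :
    W1 * Real.exp (-X) < Real.exp (-d0) := by
  have h3 : W1 ≤ Real.exp st := by rw [hexp]; nlinarith
  have h4 : W1 * Real.exp (-X) ≤ Real.exp st * Real.exp (-X) := by
    have : 0 < Real.exp (-X) := Real.exp_pos _
    gcongr
  refine lt_of_le_of_lt h4 ?_
  rw [← Real.exp_add]
  apply Real.exp_lt_exp.2
  linarith

theorem I4_fact {R W1 st l : ℝ} {n : ℝ} {A' : ℕ} (hR : 0 < R)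
    (hexp : Real.exp st = (2 * n + 1) * W1) (h1 : Real.log R + 1 ≤ l) (h2 : st ≤ A') :
    (2 * n + 1) * (R ^ A' * W1) ≤ Real.exp (A' * l) := by
  have h3 : (2 * n + 1) * (R ^ A' * W1) = Real.exp (A' * Real.log R) * Real.exp st := by
    rw [hexp, Real.exp_nat_mul, Real.exp_log hR]; ring
  rw [h3, ← Real.exp_add]
  apply Real.exp_le_exp.2
  have h4 : (A' : ℝ) * Real.log R + A' ≤ A' * l := by
    have : (0:ℝ) ≤ A' := Nat.cast_nonneg _
    nlinarith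
  linarith

theorem I3_fact {H B B₀ A' : ℕ} {Lg l : ℝ} (hH : 1 ≤ H) (hB : B + 1 ≤ B₀) (hHL : Real.log H ≤ Lg)
    (h1 : B₀ * Lg ≤ A') (hl : 1 ≤ l) : (H : ℝ) ^ (B + 1) ≤ Real.exp (A' * l) := by
  have hH0 : (0:ℝ) < H := by exact_mod_cast hH
  have hlogH0 : 0 ≤ Real.log H := Real.log_nonneg (by exact_mod_cast hH)
  have h2 : (H : ℝ) ^ (B + 1) = Real.exp ((B + 1 : ℕ) * Real.log H) := by
    rw [Real.exp_nat_mul, Real.exp_log hH0]
  rw [h2]
  apply Real.exp_le_exp.2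
  have h3 : ((B + 1 : ℕ) : ℝ) ≤ B₀ := by exact_mod_cast hB
  have h4 : ((B + 1 : ℕ) : ℝ) * Real.log H ≤ B₀ * Lg := by gcongr
  have h5 : (0:ℝ) ≤ A' := Nat.cast_nonneg _
  nlinarith

theorem norm_ratCast_sub (x y : ℚ) : ‖((x : ℚ) : ℂ) - ((y : ℚ) : ℂ)‖ = |(x : ℝ) - y| := by
  rw [← Complex.ofReal_ratCast, ← Complex.ofReal_ratCast, ← Complex.ofReal_sub,
    Complex.norm_real, Real.norm_eq_abs]

open Classical in
theorem interval_bound {m : ℕ} (g : Fin m → ℂ → ℂ) {a b ρ Z₀ : ℝ} (hab : a ≤ b) (hρ : 0 < ρ)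
    (hρ1 : ρ ≤ 1) (hZ₀ : 1 ≤ Z₀)
    (hg : ∀ x : ℝ, a ≤ x → x ≤ b → ∀ j, DifferentiableOn ℂ (g j) (Metric.ball (x : ℂ) (2 * ρ)))
    (hgb : ∀ x : ℝ, a ≤ x → x ≤ b → ∀ z ∈ Metric.closedBall (x : ℂ) ρ, ∀ j, ‖g j z‖ ≤ Z₀)
    (hZ : ZProp g a b) (D : ℕ) {ε : ℝ} (hε : 0 < ε) (hε1 : ε ≤ 1) :
    ∃ C : ℕ, 1 ≤ C ∧ ∀ (T H : ℕ) (Lg : ℝ), 1 ≤ H → 1 ≤ Lg → (C : ℝ) ≤ Real.log T →
      Real.log T ≤ Lg → Real.log H ≤ Lg → ∀ S : Finset ℚ,
      (∀ s ∈ S, a ≤ s ∧ s ≤ b ∧ s.den ≤ T ∧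
        ∃ P : G m, P ≠ 0 ∧ P.totalDegree ≤ D ∧ (∀ d, (P.coeff d).natAbs ≤ H) ∧
          ‖MvPolynomial.aeval (fun j => g j s) P‖ < Real.exp (-(C * Lg) ^ C)) →
      (∀ s ∈ S, ∀ s' ∈ S, |(s : ℝ) - s'| ≤ 2 * (T : ℝ) ^ (-ε)) →
      (S.card : ℝ) ≤ (C * Lg) ^ C := by
  set pΓ := Fintype.card (Gam m D) with hpΓ
  set ε' := ε / 2 with hε'
  set η := ε' / 128 with hη
  have hε'0 : 0 < ε' := by positivity
  have hε'1 : ε' ≤ 1 := by rw [hε']; linarith
  have hη0 : 0 < η := by positivity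
  obtain ⟨B₀, hB₀⟩ := exp_growth η hη0 pΓ
  set n := (B₀ + 1) ^ pΓ with hn
  have hn1 : 1 ≤ n := Nat.one_le_pow _ _ (by omega)
  obtain ⟨Cz, hCz, hZ'⟩ := hZ (n * D)
  set bb := ⌈|a| + |b| + 1⌉₊ with hbb
  have hbbr : |a| + |b| + 1 ≤ (bb : ℝ) := Nat.le_ceil _
  have hbb1 : (1:ℝ) ≤ bb := by
    have h1 := abs_nonneg a
    have h2 := abs_nonneg b
    linarith
  have hbb1' : 1 ≤ bb := by exact_mod_cast hbb1
  obtain ⟨cx, hcx, hXB⟩ := XB_bound n B₀ (Real.log bb + 1) (by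
    have := Real.log_nonneg hbb1; linarith)
  set R := |a| + |b| + ρ + 1 with hR
  have hR1 : 1 ≤ R := by
    have h1 := abs_nonneg a
    have h2 := abs_nonneg b
    rw [hR]; linarith
  obtain ⟨e, cy, ch, he, hcy, hch, hcost⟩ := level_costs n D Cz B₀ pΓ cx Z₀ R hn1 hCz hcx hZ₀ hR1
  obtain ⟨Cl, hCl, hlev⟩ := lev_bound n e B₀
  set c0 := ⌈11 + Real.log R + (2 / ε) * Real.log (4 / ρ)⌉₊ with hc0
  have hc0r : 11 + Real.log R + (2 / ε) * Real.log (4 / ρ) ≤ (c0 : ℝ) := Nat.le_ceil _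
  have hlogR : 0 ≤ Real.log R := Real.log_nonneg hR1
  have h4ρ : 1 ≤ 4 / ρ := by rw [le_div_iff₀ hρ]; linarith
  have hlog4 : 0 ≤ Real.log (4 / ρ) := Real.log_nonneg h4ρ
  have h2ε : 0 ≤ (2 / ε) * Real.log (4 / ρ) := by positivity
  refine ⟨2 * Cl + 3 + c0, by omega, ?_⟩
  set C := 2 * Cl + 3 + c0 with hC
  intro T H Lg hH hLg hTC hTL hHL S hS hSd
  by_contra hcon
  push Not at hcon
  set l := Real.log T with hl
  have hCr : (C : ℝ) = 2 * Cl + 3 + c0 := by rw [hC]; push_cast; ring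
  have hCl1 : (1:ℝ) ≤ Cl := by exact_mod_cast hCl
  have hl11 : 11 + Real.log R + (2 / ε) * Real.log (4 / ρ) ≤ l := by
    have : (c0 : ℝ) ≤ C := by rw [hCr]; linarith
    linarith
  have hl1 : 1 ≤ l := by linarith
  have hl10 : 10 ≤ l := by linarith
  have hT1 : 1 ≤ T := by
    rcases Nat.eq_zero_or_pos T with h | h
    · exfalso
      rw [hl, h] at hl1
      simp at hl1
      linarith
    · exact h
  have hTr : (1:ℝ) ≤ T := by exact_mod_cast hT1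
  have hT0 : (0:ℝ) < T := by linarith
  have hTexp : (T : ℝ) = Real.exp l := by rw [hl, Real.exp_log hT0]
  have hCL1 : (1:ℝ) ≤ C * Lg := by
    have : (1:ℝ) ≤ C := by rw [hCr]; linarith [(Nat.cast_nonneg c0 : (0:ℝ) ≤ c0)]
    nlinarith
  have hCC : (1:ℝ) ≤ (C * Lg) ^ C := one_le_pow₀ hCL1
  -- the data of the points
  have hex1 : ∀ i : S, ∃ P : G m, P ≠ 0 ∧ P.totalDegree ≤ D ∧ (∀ d, (P.coeff d).natAbs ≤ H) ∧
      ‖MvPolynomial.aeval (fun j => g j ((i : ℚ) : ℂ)) P‖ < Real.exp (-(C * Lg) ^ C) :=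
    fun i => (hS i.1 i.2).2.2.2
  choose P hP0 hPD hPH hPv using hex1
  let c : S → Gam m D → ℤ := fun i γ => (P i).coeff γ.1
  have hdeg : ∀ i : S, ∀ d ∈ (P i).support, d.degree ≤ D := by
    intro i d hd
    have h1 := MvPolynomial.le_totalDegree hd
    exact le_trans h1 (hPD i)
  have hc : ∀ i, c i ≠ 0 := by
    intro i h0
    obtain ⟨d, hd⟩ := MvPolynomial.ne_zero_iff.1 (hP0 i)
    have h1 := congrFun h0 ⟨d, hdeg i d (MvPolynomial.mem_support_iff.2 hd)⟩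
    exact hd h1
  have hcH : ∀ i γ, (c i γ).natAbs ≤ H := fun i γ => hPH i _
  have hcardS : Fintype.card S = S.card := Fintype.card_coe S
  have hlevB : (lev n e Lg B₀ : ℝ) ≤ (Cl * Lg) ^ Cl := hlev Lg hLg
  have hClC : Cl ≤ C := by omega
  have hcard : lev n e Lg B₀ ≤ Fintype.card S := by
    rw [hcardS]
    have h1 := pow_le_pow_aux hCl hClC hLg
    have : (lev n e Lg B₀ : ℝ) ≤ S.card := by linarith
    exact_mod_cast this
  have hnum : ∀ i : S, (i : ℚ).num.natAbs ≤ bb * T := fun i =>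
    num_bound (hS i.1 i.2).1 (hS i.1 i.2).2.1 hbbr (hS i.1 i.2).2.2.1
  have hden : ∀ i : S, (i : ℚ).den ≤ bb * T := by
    intro i
    have h3 := (hS i.1 i.2).2.2.1
    calc (i : ℚ).den ≤ 1 * T := by omega
      _ ≤ bb * T := Nat.mul_le_mul_right _ hbb1'
  obtain ⟨k, hk, B, hB, r', Pp, Θ₁, Θ₂, hPpd, hPpc, hPpv, h1pos, h12, hfree, hli, hη'⟩ :=
    algebra_main m (fun γ : Gam m D => γ.1) Subtype.val_injective (fun i : S => (i : ℚ))
      Subtype.val_injective c hc η hη0 B₀ hB₀ (lev n e Lg)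
      (fun k => ⌈((e : ℝ) * lev n e Lg k * Lg) ^ e⌉₊) (lev_pos n e Lg 0)
      (fun k => by simp only [lev]; rw [← hpΓ, ← hn]; omega)
      (fun k => by simp only [lev]; rw [← hpΓ, ← hn]; omega) hcard (bb * T) H
      (by have := Nat.mul_le_mul hbb1' hT1; omega) hH hnum hden hcH
  set A := lev n e Lg k with hA
  have hA1 : 1 ≤ A := lev_pos n e Lg k
  set A'' := ⌈((e : ℝ) * A * Lg) ^ e⌉₊ with hA''
  have hlevk : n * A'' + n * A + 1 ≤ lev n e Lg B₀ := by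
    have h1 : lev n e Lg (k + 1) = n * A'' + n * A + 1 := by simp only [lev]; rw [hA'', hA]
    rw [← h1]
    exact lev_mono n e hn1 Lg (by omega)
  obtain ⟨hY1, hXY, hΓY, hz1, hdetY, hsum⟩ := hcost A T Lg hA1 hT1 hLg hTL _ _ rfl rfl
  set Y := Real.exp (cy * (A * Lg) ^ 2) with hY
  set hz := ch * (A * Lg) ^ 2 with hhz
  have hXBY : ((XB n A (bb * T) H B₀ : ℕ) : ℝ) ≤ Y := by
    refine le_trans ?_ hXY
    apply hXB A (bb * T) H Lg hA1 (by have := Nat.mul_le_mul hbb1' hT1; omega) hH hLg _ hHL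
    push_cast
    rw [Real.log_mul (by linarith) (by linarith)]
    have := Real.log_nonneg hbb1
    nlinarith
  obtain ⟨gs, hgs, hdet⟩ := exists_minor _ hli
  set v := vrow (fun γ : Gam m D => γ.1) Pp Θ₁ with hv
  have hdet' : (sq v gs).det ≠ 0 := hdet
  have hSymn : Fintype.card (Sym (Gam m D) (B + 1)) ≤ n := card_sym_le (by omega)
  have hcardκ : Fintype.card (Fin r' ⊕ Θ₁) ≤ n :=
    (Fintype.card_le_of_injective gs hgs).trans hSymn
  obtain ⟨hd1, hd2, hd3⟩ := det_coeff_bounds (sq v gs) n A D Y hY1 hcardκ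
    (fun i j => vrow_natDegree _ Pp Θ₁ hPpd i (gs j))
    (fun i j k => vrow_totalDegree _ Pp Θ₁ (fun γ => γ.2) i (gs j) k)
    (fun i j k => vrow_N1 _ Pp Θ₁ hPpc hXBY hΓY i (gs j) k)
  set δz := 1 / (T : ℝ) ^ 2 with hδz
  have hδz0 : 0 < δz := by positivity
  have hδz1 : δz ≤ 1 := by
    rw [hδz, div_le_one (by positivity)]
    exact one_le_pow₀ hTr
  set d0 := (Cz : ℝ) * (n * A + hz) ^ Cz * Real.log (2 / δz) with hd0
  set thr := Real.exp (-d0) with hthr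
  set bad : Finset S := Finset.univ.filter
    (fun i => ‖evg g ((i : ℚ) : ℂ) (sq v gs).det‖ ≤ thr) with hbad
  have hq0 : (bad.card : ℝ) ≤ Cz * (n * A + hz) ^ Cz := by
    have hinj : Function.Injective (fun i : S => (((i : ℚ)) : ℝ)) :=
      fun x y hxy => Subtype.ext (Rat.cast_injective (α := ℝ) hxy)
    have h1 := hZ' (n * A) hz δz (by have := Nat.mul_le_mul hn1 hA1; omega) hz1 hδz0 hδz1
      (sq v gs).det hdet' hd1 hd2 (fun k => (hd3 k).trans hdetY)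
      (bad.image (fun i : S => (((i : ℚ)) : ℝ))) ?_ ?_ ?_
    · rw [Finset.card_image_of_injective _ hinj] at h1
      push_cast at h1
      exact h1
    · intro x hx
      obtain ⟨i, _, rfl⟩ := Finset.mem_image.1 hx
      exact ⟨(hS i.1 i.2).1, (hS i.1 i.2).2.1⟩
    · intro x hx y hy hxy
      obtain ⟨i, _, rfl⟩ := Finset.mem_image.1 hx
      obtain ⟨j, _, rfl⟩ := Finset.mem_image.1 hy
      apply rat_sep _ _ T (hS i.1 i.2).2.2.1 (hS j.1 j.2).2.2.1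
      intro h; apply hxy; rw [h]
    · intro x hx
      obtain ⟨i, hi, rfl⟩ := Finset.mem_image.1 hx
      rw [Complex.ofReal_ratCast]
      have h2 := (Finset.mem_filter.1 hi).2
      rw [hthr, hd0] at h2
      push_cast
      exact h2
  set st := Real.log ((2 * n + 1) * ((n + 1) * n.factorial * Ent A D Y Z₀ R ^ (n + 1))) with hst
  have hE1 := one_le_Ent A D hY1 hZ₀ hR1
  set E := Ent A D Y Z₀ R with hE
  set W1 := ((n:ℝ) + 1) * n.factorial * E ^ (n + 1) with hW1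
  have hnr : (1:ℝ) ≤ n := by exact_mod_cast hn1
  have hW11 : 1 ≤ W1 := by
    have h1 : (1:ℝ) ≤ n.factorial := by exact_mod_cast Nat.factorial_pos n
    have h2 : (1:ℝ) ≤ E ^ (n + 1) := one_le_pow₀ hE1
    rw [hW1]
    exact one_le_mul_of_one_le_of_one_le (one_le_mul_of_one_le_of_one_le (by linarith) h1) h2
  have h2nW : 1 ≤ (2 * (n:ℝ) + 1) * W1 := one_le_mul_of_one_le_of_one_le (by linarith) hW11
  have hst0 : 0 ≤ st := Real.log_nonneg h2nW
  have hexpst : Real.exp st = (2 * (n:ℝ) + 1) * W1 := Real.exp_log (by linarith)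
  have hlog2δ : 0 ≤ Real.log (2 / δz) := by
    apply Real.log_nonneg
    rw [le_div_iff₀ hδz0]; linarith
  have hz0 : 0 ≤ hz := by linarith
  have hd00 : 0 ≤ d0 := by
    rw [hd0]
    have : (0:ℝ) ≤ n * A + hz := by positivity
    positivity
  have hqb0 : (0:ℝ) ≤ Cz * (n * A + hz) ^ Cz := by
    have : (0:ℝ) ≤ n * A + hz := by positivity
    positivity
  have hBL0 : (0:ℝ) ≤ B₀ * Lg := by positivity
  have hA''r : ((e : ℝ) * A * Lg) ^ e ≤ A'' := Nat.le_ceil _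
  have hqA : bad.card ≤ A'' := by
    have : (bad.card : ℝ) ≤ A'' := by linarith
    exact_mod_cast this
  set A' := A'' - bad.card with hA'
  have hA'r : (A' : ℝ) = A'' - bad.card := by rw [hA', Nat.cast_sub hqA]
  have hA'big : (n + 2 : ℝ) + d0 + B₀ * Lg + st ≤ A' := by rw [hA'r]; linarith
  have hA'0 : (0:ℝ) ≤ A' := Nat.cast_nonneg _
  have hA'l : (A' : ℝ) ≤ A' * l := by nlinarith
  have hlevA' : ((A' * n : ℕ) : ℝ) ≤ (Cl * Lg) ^ Cl := by
    have h1 : A' * n ≤ lev n e Lg B₀ := by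
      have h2 : A' * n ≤ A'' * n := Nat.mul_le_mul_right _ (by omega)
      have h3 : A'' * n = n * A'' := Nat.mul_comm _ _
      omega
    have h4 : ((A' * n : ℕ) : ℝ) ≤ (lev n e Lg B₀ : ℝ) := by exact_mod_cast h1
    linarith
  -- one center
  have hSne : 0 < S.card := by
    have : (0:ℝ) < S.card := by linarith
    exact_mod_cast this
  obtain ⟨s0, hs0⟩ := Finset.card_pos.1 hSne
  obtain ⟨hr0, hrρ, h2rρ, hrρlow⟩ := rho_facts hε hε1 hρ hρ1 (by linarith : (0:ℝ) ≤ l)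
    (by linarith) hTexp
  set r := 2 * (T : ℝ) ^ (-ε) with hr
  set ξ := Real.exp (-(C * Lg) ^ C) with hξ
  have hM : ∀ i : S, ∃ Mi : ℕ, 1 ≤ Mi ∧ Mi ≤ H ∧ (∀ γ, (c i γ).natAbs ≤ Mi) ∧
      ∃ γ, (c i γ).natAbs = Mi := fun i => exists_max (c i) (hc i) H (hcH i)
  choose M hM1 hMH hMc hMex using hM
  refine level_false g (s₀ := ((s0 : ℚ) : ℂ)) (r := r) (ρ := ρ) (R' := 2 * ρ) (Z₀ := Z₀) (R := R)
    hr0 h2rρ (by linarith) ?_ hZ₀ ?_ hR1 ?_ (fun γ : Gam m D => γ.1) (D := D) (fun γ => γ.2)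
    (fun i : S => (i : ℚ)) (T := T) (H := H) hT1 ?_ (fun i => (hS i.1 i.2).2.2.1) c M hM1 hMH hMc
    hMex (ξ := ξ) (Real.exp_pos _).le ?_ (A := A) (X := XB n A (bb * T) H B₀) (Y := Y) Pp hPpd
    hPpc hXBY hY1 hΓY hPpv Θ₁ Θ₂ h1pos h12 (A' := A') (qb := bad.card)
    (by rw [hA', Nat.sub_add_cancel hqA]; exact hfree) gs hgs bad le_rfl (δ := thr)
    (Real.exp_pos _) ?_ ?_ (n := n) hSymn (ε := ε') (η := η) (l := l) hε'0 hε'1 hη ?_ hl hl10
    ?_ ?_ ?_ ?_ hrρ ?_ ?_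
  · -- differentiable
    have h := hg (s0 : ℝ) (hS s0 hs0).1 (hS s0 hs0).2.1
    rw [Complex.ofReal_ratCast] at h
    exact h
  · have h := hgb (s0 : ℝ) (hS s0 hs0).1 (hS s0 hs0).2.1
    rw [Complex.ofReal_ratCast] at h
    exact h
  · intro z hz'
    exact norm_center (hS s0 hs0).1 (hS s0 hs0).2.1 hz'
  · intro i
    have h := hSd i.1 i.2 s0 hs0
    rw [norm_ratCast_sub]
    exact h
  · intro i
    have h1 := aeval_eq_sum (fun γ : Gam m D => γ.1) Subtype.val_injective (P i)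
      (fun d hd => ⟨⟨d, hdeg i d hd⟩, rfl⟩) (fun j => g j ((i : ℚ) : ℂ))
    have h2 : ∑ γ : Gam m D, MvPolynomial.aeval (fun j => g j ((i : ℚ) : ℂ))
        (MvPolynomial.monomial γ.1 (1 : ℤ) : G m) * (c i γ : ℂ) =
        MvPolynomial.aeval (fun j => g j ((i : ℚ) : ℂ)) (P i) := h1.symm
    rw [h2]
    exact (hPv i).le
  · intro i hi
    have h1 : ¬ ‖evg g ((i : ℚ) : ℂ) (sq v gs).det‖ ≤ thr := by
      intro h
      exact hi (Finset.mem_filter.2 ⟨Finset.mem_univ _, h⟩)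
    exact (not_le.1 h1).le
  · have h1 : bad.card < (Finset.univ : Finset S).card := by
      rw [Finset.card_univ]
      have h2 : A'' ≤ n * A'' := Nat.le_mul_of_pos_left _ hn1
      omega
    obtain ⟨i, _, hi⟩ := Finset.exists_mem_notMem_of_card_lt_card h1
    exact ⟨i, hi⟩
  · -- hh'
    have e1 := card_compl_range gs hgs
    rw [Fintype.card_sum, Fintype.card_fin, Fintype.card_coe, Nat.cast_add] at e1
    have e2 : (Fintype.card (Sym (Gam m D) (B + 1)) : ℝ) - (r' + Θ₁.card) ≤ η * Θ₁.card := by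
      linarith
    rw [← e1] at e2
    convert e2
  · -- I1
    have : ((n + 2 : ℕ) : ℝ) ≤ A' := by push_cast; linarith
    exact_mod_cast this
  · -- I2
    rw [hthr]
    apply Real.exp_le_exp.2
    linarith
  · -- I3
    have hBB : B + 1 ≤ B₀ := by omega
    exact I3_fact hH hBB hHL (by linarith) hl1
  · -- I4
    exact I4_fact (by linarith) hexpst (by linarith) (by linarith)
  · -- I6
    exact I6_fact hCl (by omega) hLg (by linarith) hTL hlevA' hrρlow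
  · -- I7
    refine I7_fact hnr hW11 hexpst (A' := (A' : ℝ)) (by linarith) ?_
    have h4 : A' ≤ A' * n := Nat.le_mul_of_pos_right _ hn1
    have h5 : (A' : ℝ) ≤ ((A' * n : ℕ) : ℝ) := by exact_mod_cast h4
    have h6 : ((Cl : ℝ) * Lg) ^ Cl ≤ (C * Lg) ^ C := pow_le_pow_aux hCl hClC hLg
    linarith

theorem local_theorem {m : ℕ} (g : Fin m → ℂ → ℂ) {a b ρ Z₀ : ℝ} (hab : a ≤ b) (hρ : 0 < ρ)
    (hZ₀ : 1 ≤ Z₀)
    (hg : ∀ x : ℝ, a ≤ x → x ≤ b → ∀ j, DifferentiableOn ℂ (g j) (Metric.ball (x : ℂ) (2 * ρ)))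
    (hgb : ∀ x : ℝ, a ≤ x → x ≤ b → ∀ z ∈ Metric.closedBall (x : ℂ) ρ, ∀ j, ‖g j z‖ ≤ Z₀)
    (hZ : ZProp g a b) (D : ℕ) {ε : ℝ} (hε : 0 < ε) :
    ∃ C : ℕ, 1 ≤ C ∧ ∀ T H : ℕ, 2 ≤ T → 2 ≤ H → ∀ (t : ℝ) (S : Finset ℚ),
      (∀ s ∈ S, a ≤ s ∧ s ≤ b ∧ |(s : ℝ) - t| ≤ (T : ℝ) ^ (-ε) ∧ s.den ≤ T ∧
        ∃ P : G m, P ≠ 0 ∧ P.totalDegree ≤ D ∧ (∀ d, (P.coeff d).natAbs ≤ H) ∧
          ‖MvPolynomial.aeval (fun j => g j s) P‖ < Real.exp (-(C * Real.log (T * H)) ^ C)) →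
      (S.card : ℝ) ≤ (C * Real.log (T * H)) ^ C := by
  classical
  obtain ⟨C₁, hC₁, h₁⟩ := interval_bound g hab (lt_min hρ one_pos) (min_le_right ρ 1) hZ₀
    (fun x h1 h2 j => (hg x h1 h2 j).mono (Metric.ball_subset_ball (by
      have := min_le_left ρ 1; linarith)))
    (fun x h1 h2 z hz j => hgb x h1 h2 z
      (Metric.closedBall_subset_closedBall (min_le_left ρ 1) hz) j) hZ D
    (lt_min hε one_pos) (min_le_right ε 1)
  obtain ⟨C₂, hC₂⟩ := rat_card a b ⌈Real.exp C₁⌉₊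
  refine ⟨C₁ + C₂, by omega, ?_⟩
  intro T H hT hH t S hS
  have hTr : (2:ℝ) ≤ T := by exact_mod_cast hT
  have hHr : (2:ℝ) ≤ H := by exact_mod_cast hH
  have hlogT : 0 ≤ Real.log T := Real.log_nonneg (by linarith)
  have hlogH : 0 ≤ Real.log H := Real.log_nonneg (by linarith)
  have hLg : Real.log (T * H) = Real.log T + Real.log H :=
    Real.log_mul (by linarith) (by linarith)
  have hLg1 : 1 ≤ Real.log (T * H) := by
    have h4 : (4:ℝ) ≤ T * H := by nlinarith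
    have h5 : Real.log 4 ≤ Real.log (T * H) := Real.log_le_log (by norm_num) h4
    have h6 : Real.log 4 = 2 * Real.log 2 := by
      rw [show (4:ℝ) = 2 ^ 2 by norm_num, Real.log_pow]; norm_num
    have := Real.log_two_gt_d9
    linarith
  set Lg := Real.log (T * H) with hLgdef
  have hC1r : (1:ℝ) ≤ C₁ := by exact_mod_cast hC₁
  have hC2r : (0:ℝ) ≤ C₂ := Nat.cast_nonneg _
  have hmono : ((C₁ : ℝ) * Lg) ^ C₁ ≤ (((C₁ + C₂ : ℕ) : ℝ) * Lg) ^ (C₁ + C₂) :=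
    pow_le_pow_aux hC₁ (by omega) hLg1
  by_cases hTC : (C₁ : ℝ) ≤ Real.log T
  · refine (h₁ T H Lg (by omega) hLg1 hTC (by linarith) (by linarith) S ?_ ?_).trans hmono
    · intro s hs
      obtain ⟨h1, h2, _, h4, P, h5, h6, h7, h8⟩ := hS s hs
      refine ⟨h1, h2, h4, P, h5, h6, h7, h8.trans_le ?_⟩
      apply Real.exp_le_exp.2
      linarith
    · intro s hs s' hs'
      have e1 := (hS s hs).2.2.1
      have e2 := (hS s' hs').2.2.1
      have e3 : (T : ℝ) ^ (-ε) ≤ (T : ℝ) ^ (-(min ε 1)) := by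
        apply Real.rpow_le_rpow_of_exponent_le (by linarith)
        have := min_le_left ε 1
        linarith
      have e4 : |(s : ℝ) - s'| ≤ |(s : ℝ) - t| + |(s' : ℝ) - t| := by
        have := abs_sub_le (s : ℝ) t s'
        rwa [abs_sub_comm t (s' : ℝ)] at this
      linarith
  · push Not at hTC
    have hTle : T ≤ ⌈Real.exp C₁⌉₊ := by
      have h1 : (T : ℝ) < Real.exp C₁ := by
        rwa [← Real.log_lt_iff_lt_exp (by linarith)]
      have h2 : (T : ℝ) ≤ ⌈Real.exp C₁⌉₊ := h1.le.trans (Nat.le_ceil _)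
      exact_mod_cast h2
    have h3 : S.card ≤ C₂ := hC₂ S fun s hs =>
      ⟨(hS s hs).1, (hS s hs).2.1, (hS s hs).2.2.2.1.trans hTle⟩
    have h4 : (S.card : ℝ) ≤ C₂ := by exact_mod_cast h3
    have h5 : ((C₁ + C₂ : ℕ) : ℝ) * Lg ≤ (((C₁ + C₂ : ℕ) : ℝ) * Lg) ^ (C₁ + C₂) := by
      apply le_self_pow₀
      · push_cast; nlinarith
      · omega
    have h6 : (C₂ : ℝ) ≤ ((C₁ + C₂ : ℕ) : ℝ) * Lg := by
      push_cast; nlinarith
    linarith

end Pool.Agent.Lib.MP_524521_nt.RA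
end

section
/-! The contradiction at one level, with the sizes of the two free sets decoupled
(`level_false` of `Level.lean` with `Θ₂ := Θ₂`). -/
open Polynomial

namespace Pool.Agent.Lib.MP_524521_nt.RA

open Classical in
theorem level_false2 {m : ℕ} (g : Fin m → ℂ → ℂ) {s₀ : ℂ} {r ρ R' Z₀ R : ℝ} (hr : 0 < r)
    (hρ : 2 * r ≤ ρ) (hR' : ρ < R')
    (hg : ∀ j, DifferentiableOn ℂ (g j) (Metric.ball s₀ R')) (hZ : 1 ≤ Z₀)
    (hgb : ∀ z ∈ Metric.closedBall s₀ ρ, ∀ j, ‖g j z‖ ≤ Z₀)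
    (hR : 1 ≤ R) (hzR : ∀ z ∈ Metric.closedBall s₀ ρ, ‖z‖ ≤ R)
    {Γ : Type} [Fintype Γ] [DecidableEq Γ] (ex : Γ → (Fin m →₀ ℕ)) {D : ℕ}
    (hex : ∀ γ, (ex γ).degree ≤ D)
    {ι : Type} [Fintype ι] (s : ι → ℚ) {T H : ℕ} (hT : 1 ≤ T)
    (hsr : ∀ i, ‖((s i : ℚ) : ℂ) - s₀‖ ≤ r) (hsd : ∀ i, (s i).den ≤ T)
    (c : ι → Γ → ℤ) (M : ι → ℕ) (hM1 : ∀ i, 1 ≤ M i) (hMH : ∀ i, M i ≤ H)
    (hMc : ∀ i γ, (c i γ).natAbs ≤ M i) (hMex : ∀ i, ∃ γ, (c i γ).natAbs = M i)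
    {ξ : ℝ} (hξ0 : 0 ≤ ξ)
    (hξ : ∀ i, ‖∑ γ, MvPolynomial.aeval (fun j => g j (s i))
      (MvPolynomial.monomial (ex γ) (1 : ℤ) : G m) * (c i γ : ℂ)‖ ≤ ξ)
    {B r' A X : ℕ} {Y : ℝ} (P : Fin r' → Sym Γ (B + 1) → ℤ[X]) (hP : ∀ j α, (P j α).degree < A)
    (hPc : ∀ j α n, ((P j α).coeff n).natAbs ≤ X) (hXY : (X : ℝ) ≤ Y) (hY : 1 ≤ Y)
    (hΓY : (Fintype.card Γ : ℝ) ≤ Y)
    (hPv : ∀ j i, ∑ α, (aeval (s i) (P j α) : ℚ) * ((mval (c i) α : ℤ) : ℚ) = 0)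
    (Θ₁ : Finset (Sym Γ B)) (Θ₂ : Finset (Sym Γ (B + 1))) (h1pos : 0 < Θ₂.card)
    {A' qb : ℕ} (hfree : Free s c (A' + qb) Θ₂)
    (gs : Fin r' ⊕ Θ₁ → Sym Γ (B + 1)) (hgs : Function.Injective gs)
    (bad : Finset ι) (hbadc : bad.card ≤ qb) {δ : ℝ} (hδ0 : 0 < δ)
    (hbad : ∀ i, i ∉ bad → δ ≤ ‖evg g (s i) (sq (vrow ex P Θ₁) gs).det‖)
    (hgood : ∃ i, i ∉ bad) {n : ℕ} (hn : Fintype.card (Sym Γ (B + 1)) ≤ n)
    {ε η l : ℝ} (hε : 0 < ε) (hε1 : ε ≤ 1) (hη : η = ε / 128)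
    (hh' : ((Finset.univ.filter (fun x => x ∉ Set.range gs)).card : ℝ) ≤ η * Θ₂.card)
    (hl : l = Real.log T) (hl10 : 10 ≤ l) (I1 : n + 2 ≤ A') (I2 : Real.exp (-(A' * l)) ≤ δ)
    (I3 : (H : ℝ) ^ (B + 1) ≤ Real.exp (A' * l))
    (I4 : (2 * n + 1) * (R ^ A' * ((n + 1) * n.factorial * Ent A D Y Z₀ R ^ (n + 1))) ≤
      Real.exp (A' * l))
    (I5 : r / ρ ≤ Real.exp (-(ε * l))) (I6 : ξ ≤ (r / ρ) ^ ((A' * n) ^ 2))
    (I7 : ((n + 1) * n.factorial * Ent A D Y Z₀ R ^ (n + 1)) * ξ < δ) : False := by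
  set v := vrow ex P Θ₁ with hv
  have hcardκ : Fintype.card (Fin r' ⊕ Θ₁) ≤ n :=
    (Fintype.card_le_of_injective gs hgs).trans hn
  have hv1 : ∀ i α, (v i α).natDegree ≤ A := fun i α => vrow_natDegree ex P Θ₁ hP i α
  have hv2 : ∀ i α k, ((v i α).coeff k).totalDegree ≤ D :=
    fun i α k => vrow_totalDegree ex P Θ₁ hex i α k
  have hv3 : ∀ i α k, (N1 ((v i α).coeff k) : ℝ) ≤ Y :=
    fun i α k => vrow_N1 ex P Θ₁ hPc hXY hΓY i α k
  have hE1 := one_le_Ent A D hY hZ hR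
  set E := Ent A D Y Z₀ R with hE
  have hρ0 : 0 < ρ := by linarith
  have hball : ∀ i, ((s i : ℚ) : ℂ) ∈ Metric.closedBall s₀ ρ := by
    intro i
    rw [Metric.mem_closedBall, dist_eq_norm]
    exact (hsr i).trans (by linarith)
  have hMpos : ∀ i, (0:ℝ) < (M i : ℝ) ^ (B + 1) := fun i => by
    have : (0:ℝ) < M i := by exact_mod_cast hM1 i
    positivity
  have hmv : ∀ i (α : Sym Γ (B + 1)), (mval (c i) α).natAbs ≤ M i ^ (B + 1) :=
    fun i α => natAbs_mval_le (c i) (M i) (hMc i) α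
  have hξrow : ∀ i (k : Fin r' ⊕ Θ₁), ‖∑ β, evg g (s i) (v k β) *
      (((mval (c i) β : ℤ) : ℂ) / ((M i ^ (B + 1) : ℕ) : ℂ))‖ ≤ ξ := by
    intro i k
    rcases k with j | θ
    · rw [hv, sum_vrow_inl ex P Θ₁ g (s i) (c i) _ j (hPv j i), norm_zero]
      exact hξ0
    · rw [hv, sum_vrow_inr ex P Θ₁ g (s i) (c i) _ θ, norm_mul]
      have h1 : ‖((mval (c i) θ.1 : ℤ) : ℂ) / ((M i ^ (B + 1) : ℕ) : ℂ)‖ ≤ 1 := by
        rw [norm_div, Complex.norm_natCast, Complex.norm_intCast, div_le_one (by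
          push_cast; exact hMpos i)]
        have h2 : (mval (c i) θ.1).natAbs ≤ M i ^ B := natAbs_mval_le (c i) (M i) (hMc i) θ.1
        have h3 : M i ^ B ≤ M i ^ (B + 1) := Nat.pow_le_pow_right (hM1 i) (by omega)
        have h4 : ((mval (c i) θ.1).natAbs : ℝ) ≤ ((M i ^ (B + 1) : ℕ) : ℝ) := by
          exact_mod_cast h2.trans h3
        rwa [Nat.cast_natAbs, Int.cast_abs] at h4
      calc ‖∑ γ, MvPolynomial.aeval (fun j => g j (s i))
            (MvPolynomial.monomial (ex γ) (1 : ℤ) : G m) * (c i γ : ℂ)‖ *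
            ‖((mval (c i) θ.1 : ℤ) : ℂ) / ((M i ^ (B + 1) : ℕ) : ℂ)‖ ≤ ξ * 1 :=
            mul_le_mul (hξ i) h1 (norm_nonneg _) hξ0
        _ = ξ := mul_one ξ
  set F := Finset.univ.filter (fun x : Sym Γ (B + 1) => x ∉ Set.range gs) with hF
  rcases Nat.eq_zero_or_pos F.card with h0 | hpos
  · -- all columns are pivot columns
    obtain ⟨i, hi⟩ := hgood
    obtain ⟨γ, hγ⟩ := hMex i
    have hFe : F = ∅ := Finset.card_eq_zero.1 h0
    have hrep := repr_eq (fun k β => evg g (s i) (v k β)) gs hgs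
      (fun β => ((mval (c i) β : ℤ) : ℂ) / ((M i ^ (B + 1) : ℕ) : ℂ)) (Sym.replicate (B + 1) γ)
    have hsq : evg g (s i) (sq v gs).det = (sq (fun k β => evg g (s i) (v k β)) gs).det := by
      rw [RingHom.map_det]; rfl
    rw [← hF, hFe, Finset.sum_empty, zero_add, ← hsq] at hrep
    have hu1 : ‖((mval (c i) (Sym.replicate (B + 1) γ) : ℤ) : ℂ) / ((M i ^ (B + 1) : ℕ) : ℂ)‖ = 1 := by
      rw [norm_div, Complex.norm_natCast, Complex.norm_intCast, mval_replicate]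
      push_cast
      rw [abs_pow]
      have h5 : |((c i γ : ℤ) : ℝ)| = M i := by
        rw [← hγ, Nat.cast_natAbs, Int.cast_abs]
      rw [h5]
      exact div_self (hMpos i).ne'
    have hEr := norm_Er_le hE1 hcardκ (fun k β => evg g (s i) (v k β))
      (fun k β => norm_evg_le g _ Z₀ R Y hZ hR (hgb _ (hball i)) (hzR _ (hball i)) (v k β) A D
        (hv1 k β) (hv2 k β) (hv3 k β)) gs
      (fun β => ((mval (c i) β : ℤ) : ℂ) / ((M i ^ (B + 1) : ℕ) : ℂ)) hξ0 (hξrow i)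
      (Sym.replicate (B + 1) γ)
    have h6 := congrArg norm hrep
    rw [norm_mul, hu1, mul_one] at h6
    have h7 := hbad i hi
    rw [h6] at h7
    have h8 : (n : ℝ) * n.factorial * E ^ n * ξ ≤ ((n + 1) * n.factorial * E ^ (n + 1)) * ξ := by
      have hn0 : (0:ℝ) ≤ n := Nat.cast_nonneg n
      have h3 : (n : ℝ) * n.factorial ≤ (n + 1) * n.factorial := by
        have : (0:ℝ) ≤ n.factorial := Nat.cast_nonneg _
        nlinarith
      have h4 : E ^ n ≤ E ^ (n + 1) := pow_le_pow_right₀ hE1 (by omega)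
      have hE0 : 0 ≤ E := by linarith
      gcongr
    linarith
  · -- determinant
    have hind := indep_rows s c A' qb Θ₂ hfree bad hbadc
    obtain ⟨pts, hptsinj, hdet⟩ := exists_minor_field _ hind
    set N := A' * Θ₂.card with hN
    have hcardN : Fintype.card (Fin A' × Θ₂) = N := by
      rw [Fintype.card_prod, Fintype.card_fin, Fintype.card_coe]
    let e0 : Fin N ≃ Fin A' × Θ₂ := (Fintype.equivFinOfCardEq hcardN).symm
    have hdet2 : (Matrix.of fun i j => (s (pts (e0 j)).1) ^ (((e0 i).1 : Fin A') : ℕ) *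
        (((mval (c (pts (e0 j)).1) (e0 i).2.1 : ℤ)) : ℚ)).det ≠ 0 := by
      have h9 : (Matrix.of fun i j => (s (pts (e0 j)).1) ^ (((e0 i).1 : Fin A') : ℕ) *
        (((mval (c (pts (e0 j)).1) (e0 i).2.1 : ℤ)) : ℚ)) =
        (Matrix.of fun (i j : Fin A' × Θ₂) => (s (pts j).1) ^ ((i.1 : Fin A') : ℕ) *
          (((mval (c (pts j).1) i.2.1 : ℤ)) : ℚ)).submatrix e0 e0 := by
        ext i j; rfl
      rw [h9, Matrix.det_submatrix_equiv_self]
      exact hdet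
    have hh1n : Θ₂.card ≤ n := (Finset.card_le_univ Θ₂).trans hn
    have hFn : F.card ≤ n := (Finset.card_le_univ F).trans hn
    set K := (N / 2) * (N / (2 * F.card)) with hK
    have hKle : K ≤ (A' * n) ^ 2 := by
      have hNn : N ≤ A' * n := Nat.mul_le_mul_left A' hh1n
      have h10 : N / 2 ≤ A' * n := (Nat.div_le_self _ _).trans hNn
      have h11 : N / (2 * F.card) ≤ A' * n := (Nat.div_le_self _ _).trans hNn
      rw [hK, pow_two]
      exact Nat.mul_le_mul h10 h11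
    have hq0 : 0 < r / ρ := by positivity
    have hq1 : r / ρ ≤ 1 := by rw [div_le_one hρ0]; linarith
    have hξK : ξ ≤ (r / ρ) ^ K :=
      I6.trans (pow_le_pow_of_le_one hq0.le hq1 hKle)
    have hineq := core_ineq g hr hρ hR' hg hZ hgb hR hzR v gs hgs hcardκ hv1 hv2 hv3 hY
      (N := N) (A' := A') (T := T) (Hc := H ^ (B + 1)) (fun j => s (pts (e0 j)).1)
      (fun j => hsr _) (fun j => hsd _) (fun j α => mval (c (pts (e0 j)).1) α)
      (fun j => M (pts (e0 j)).1 ^ (B + 1)) (fun j => Nat.one_le_pow _ _ (hM1 _))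
      (fun j => Nat.pow_le_pow_left (hMH _) _) (fun j α => hmv _ α) hξ0
      (fun j k => hξrow _ k) hδ0 (fun j => hbad _ (pts (e0 j)).2)
      (fun i => ((e0 i).1 : ℕ)) (fun i => (e0 i).1.2) (fun i => (e0 i).2.1) hdet2
      (h := F.card) hpos (by rw [hF]) (K := K) le_rfl hξK
    have hTpow : (T : ℝ) ^ A' = Real.exp (A' * l) := by
      have hT0 : (0:ℝ) < T := by exact_mod_cast hT
      rw [hl, mul_comm, Real.exp_mul, Real.exp_log hT0, Real.rpow_natCast]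
    have hW0 : 0 < R ^ A' * ((n + 1) * n.factorial * E ^ (n + 1)) := by
      have hR0 : 0 < R := by linarith
      have hE0 : 0 < E := by linarith
      have : (0:ℝ) < n.factorial := by exact_mod_cast Nat.factorial_pos n
      positivity
    have hnum := num_contra (A := A') (h1 := Θ₂.card) (h' := F.card) (N := N) (K := K) (n := n)
      (l := l) (ε := ε) (η := η) (Hc := (H : ℝ) ^ (B + 1))
      (W := R ^ A' * ((n + 1) * n.factorial * E ^ (n + 1))) (δ := δ) (q := r / ρ)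
      hN hK h1pos hh1n hpos hh' hε hε1 hη hl10 I1 hq0 I5 hW0
      (by
        refine le_trans ?_ I4
        have : (F.card : ℝ) ≤ n := by exact_mod_cast hFn
        gcongr) I2
      (by
        have hH1 : 1 ≤ H := by
          obtain ⟨i, _⟩ := hgood
          exact (hM1 i).trans (hMH i)
        exact one_le_pow₀ (by exact_mod_cast hH1)) I3
    rw [hTpow] at hineq
    push_cast at hineq
    exact absurd hineq (not_le.2 hnum)

end Pool.Agent.Lib.MP_524521_nt.RA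
end
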