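import Mathlib
import Pool.Agent.Lib.MP_524521_nt.RA.EvalDefs

/-! The zero estimate, uniform in the degree in `g`. -/

open Polynomial

namespace Pool.Agent.Lib.MP_524521_nt.RA

/-- the zero estimate, uniform in the degree `E` -/
def ZU {m : ℕ} (g : Fin m → ℂ → ℂ) (a b : ℝ) : Prop :=
  ∃ C : ℕ, 1 ≤ C ∧ ∀ (A E : ℕ) (h δ : ℝ), 1 ≤ A → 1 ≤ h → 0 < δ → δ ≤ 1 →
    ∀ p : Polynomial (G m), p ≠ 0 → p.natDegree ≤ A → (∀ k, (p.coeff k).totalDegree ≤ E) →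
    (∀ k, (N1 (p.coeff k) : ℝ) ≤ Real.exp h) →
    ∀ Q : Finset ℝ, (∀ x ∈ Q, a ≤ x ∧ x ≤ b) → (∀ x ∈ Q, ∀ y ∈ Q, x ≠ y → δ ≤ |x - y|) →
    (∀ x ∈ Q, ‖evg g x p‖ ≤ Real.exp (-((C * (A + E + h)) ^ C * Real.log (2 / δ)))) →
    (Q.card : ℝ) ≤ (C * (A + E + h)) ^ C

/-- the zero estimate with an explicit constant `C` and a lower bound `h₀` for the height `h` -/
def ZUC {m : ℕ} (g : Fin m → ℂ → ℂ) (a b : ℝ) (C : ℕ) (h₀ : ℝ) : Prop :=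
  ∀ (A E : ℕ) (h δ : ℝ), 1 ≤ A → 1 ≤ h → h₀ ≤ h → 0 < δ → δ ≤ 1 →
    ∀ p : Polynomial (G m), p ≠ 0 → p.natDegree ≤ A → (∀ k, (p.coeff k).totalDegree ≤ E) →
    (∀ k, (N1 (p.coeff k) : ℝ) ≤ Real.exp h) →
    ∀ Q : Finset ℝ, (∀ x ∈ Q, a ≤ x ∧ x ≤ b) → (∀ x ∈ Q, ∀ y ∈ Q, x ≠ y → δ ≤ |x - y|) →
    (∀ x ∈ Q, ‖evg g x p‖ ≤ Real.exp (-((C * (A + E + h)) ^ C * Real.log (2 / δ)))) →
    (Q.card : ℝ) ≤ (C * (A + E + h)) ^ C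

end Pool.Agent.Lib.MP_524521_nt.RA
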