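import Mathlib
import Pool.Agent.Lib.MP_524521_nt.RA.Norm
import Pool.Agent.Lib.MP_524521_nt.RA.Eval
import Pool.Agent.Lib.MP_524521_nt.RA.Hurwitz
import Pool.Agent.Lib.MP_524521_nt.RA.Elim
import Pool.Agent.Lib.MP_524521_nt.RA.Level2
import Pool.Agent.Lib.MP_524521_nt.RA.Half
import Pool.Agent.Lib.MP_524521_nt.RA.Cost2
import Pool.Agent.Lib.MP_524521_nt.RA.ZUDef

section
/-! Module M2c of the theorem on polynomial relations of `zeta(s), .., zeta(s+m-1)` at rational `s`
(paper proof: store file `MP_524521_h58_Arguments.md`): an analytic function which is bounded on a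
disc and not too small at its centre is not too small at one of many separated points. -/
open Complex Metric ComplexConjugate

namespace Pool.Agent.Lib.MP_524521_nt.RA

/-- modulus of the Blaschke denominator on the circle -/
lemma norm_blaschke_den {c x z : ℂ} {R : ℝ} (hz : ‖z - c‖ = R) :
    ‖((R : ℂ) ^ 2 - conj (x - c) * (z - c))‖ = R * ‖z - x‖ := by
  have h1 : ((R : ℂ) ^ 2 - conj (x - c) * (z - c)) = (z - c) * conj (z - x) := by
    have h2 : ((R : ℂ) ^ 2) = (z - c) * conj (z - c) := by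
      rw [Complex.mul_conj, Complex.normSq_eq_norm_sq, hz]
      push_cast
      ring
    rw [h2]
    simp only [map_sub]
    ring
  rw [h1, norm_mul, RCLike.norm_conj, hz]

/-- Schwarz lemma with finitely many zeros. -/
lemma blaschke {c : ℂ} {R K : ℝ} (hR : 0 < R) {U : Set ℂ} (hU : IsOpen U)
    (hUB : closedBall c R ⊆ U) (Z : Finset ℂ) :
    (∀ x ∈ Z, x ∈ ball c R) → ∀ F : ℂ → ℂ, DifferentiableOn ℂ F U →
    (∀ z, ‖z - c‖ = R → ‖F z‖ ≤ K) → (∀ x ∈ Z, F x = 0) →
    ‖F c‖ ≤ K * ∏ x ∈ Z, (‖x - c‖ / R) := by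
  classical
  induction Z using Finset.induction_on with
  | empty =>
    intro _ F hF hK _
    simp only [Finset.prod_empty, mul_one]
    have hd : DiffContOnCl ℂ F (ball c R) := by
      apply DifferentiableOn.diffContOnCl
      refine hF.mono ?_
      rw [closure_ball c hR.ne']
      exact hUB
    refine Complex.norm_le_of_forall_mem_frontier_norm_le isBounded_ball hd ?_
      (subset_closure (mem_ball_self hR))
    intro z hz
    apply hK
    rw [frontier_ball c hR.ne'] at hz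
    simpa [mem_sphere, dist_eq_norm] using hz
  | insert x Z hx ih =>
    intro hZ F hF hK hF0
    have hxb : x ∈ ball c R := hZ x (Finset.mem_insert_self _ _)
    have hxU : U ∈ nhds x := hU.mem_nhds (hUB (ball_subset_closedBall hxb))
    have hFx : F x = 0 := hF0 x (Finset.mem_insert_self _ _)
    set G : ℂ → ℂ := fun z => dslope F x z * (((R : ℂ) ^ 2 - conj (x - c) * (z - c)) / R) with hG
    have hGd : DifferentiableOn ℂ G U := by
      have h1 : DifferentiableOn ℂ (dslope F x) U := (Complex.differentiableOn_dslope hxU).2 hF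
      have h2 : DifferentiableOn ℂ
          (fun z : ℂ => ((R : ℂ) ^ 2 - conj (x - c) * (z - c)) / R) U := by
        have : Differentiable ℂ (fun z : ℂ => ((R : ℂ) ^ 2 - conj (x - c) * (z - c)) / R) := by
          fun_prop
        exact this.differentiableOn
      exact h1.mul h2
    have hfac : ∀ z, z ≠ x → dslope F x z = F z / (z - x) := by
      intro z hz
      rw [dslope_of_ne _ hz, slope_def_field, hFx, sub_zero]
    have hRc : (R : ℂ) ≠ 0 := by exact_mod_cast hR.ne'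
    have hGK : ∀ z, ‖z - c‖ = R → ‖G z‖ ≤ K := by
      intro z hz
      have hzx : z ≠ x := by
        rintro rfl
        rw [mem_ball, dist_eq_norm, hz] at hxb
        exact lt_irrefl _ hxb
      have hzx' : 0 < ‖z - x‖ := norm_pos_iff.2 (sub_ne_zero.2 hzx)
      have h1 : ‖G z‖ = ‖F z‖ := by
        simp only [hG]
        rw [norm_mul, hfac z hzx, norm_div, norm_div, norm_blaschke_den hz, Complex.norm_real,
          Real.norm_of_nonneg hR.le]
        field_simp
      rw [h1]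
      exact hK z hz
    have hG0 : ∀ y ∈ Z, G y = 0 := by
      intro y hy
      have hyx : y ≠ x := by
        rintro rfl
        exact hx hy
      simp only [hG]
      rw [hfac y hyx, hF0 y (Finset.mem_insert_of_mem hy)]
      simp
    have hmain := ih (fun y hy => hZ y (Finset.mem_insert_of_mem hy)) G hGd hGK hG0
    rw [Finset.prod_insert hx]
    by_cases hxc : x = c
    · subst hxc
      rw [hFx]
      simp
    · have hcx : c ≠ x := fun h => hxc h.symm
      have hcx' : 0 < ‖x - c‖ := norm_pos_iff.2 (sub_ne_zero.2 hxc)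
      have h1 : ‖F c‖ = ‖G c‖ * (‖x - c‖ / R) := by
        simp only [hG]
        rw [norm_mul, hfac c hcx]
        simp only [sub_self, mul_zero, sub_zero]
        rw [norm_div, norm_sub_rev c x, norm_div, norm_pow, Complex.norm_real,
          Real.norm_of_nonneg hR.le]
        field_simp
      rw [h1]
      calc ‖G c‖ * (‖x - c‖ / R) ≤ (K * ∏ x ∈ Z, (‖x - c‖ / R)) * (‖x - c‖ / R) := by
            apply mul_le_mul_of_nonneg_right hmain
            positivity
        _ = K * (‖x - c‖ / R * ∏ x ∈ Z, (‖x - c‖ / R)) := by ring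

/-- (M2c) few points with small values -/
theorem few_small {a b M Λ τ δ : ℝ} (ha : 1 < a) (hab : a ≤ b) (hM : b + 1 ≤ M) (hΛ : 1 ≤ Λ)
    (f : ℂ → ℂ) (hf : DifferentiableOn ℂ f {z | 1 < z.re})
    (hsup : ∀ z ∈ Metric.closedBall (M : ℂ) (M - (1 + a) / 2), ‖f z‖ ≤ Real.exp Λ)
    (hlow : Real.exp (-Λ) ≤ ‖f M‖) (hτ : 0 < τ) (hτ1 : τ ≤ 1)
    (Q : Finset ℝ) (hQ : ∀ x ∈ Q, a ≤ x ∧ x ≤ b)
    (hQτ : ∀ x ∈ Q, ∀ y ∈ Q, x ≠ y → τ ≤ |x - y|)
    (hq : 2 * M * (2 * Λ + 1) / (a - 1) ≤ Q.card)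
    (hδ : δ < Real.exp (-Λ) * (τ / (2 * M)) ^ Q.card / (4 * Q.card)) :
    ∃ x ∈ Q, δ ≤ ‖f x‖ := by
  classical
  by_contra hcon
  push Not at hcon
  set R : ℝ := M - (1 + a) / 2 with hRdef
  have hMpos : 0 < M := by linarith
  have hM1 : 1 ≤ M := by linarith
  have hR : 0 < R := by rw [hRdef]; linarith
  have hRM : R ≤ M := by rw [hRdef]; linarith
  have ha1 : 0 < a - 1 := by linarith
  have hqpos : 0 < Q.card := by
    have : 0 < 2 * M * (2 * Λ + 1) / (a - 1) := by positivity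
    have h2 : (0 : ℝ) < Q.card := lt_of_lt_of_le this hq
    exact_mod_cast h2
  have hqpos' : (0 : ℝ) < Q.card := by exact_mod_cast hqpos
  -- interpolation
  set E : ℂ → ℂ := fun z => ∑ x ∈ Q, f x * ∏ l ∈ Q.erase x, ((z - l) / ((x : ℂ) - l)) with hE
  have hEbound : ∀ z : ℂ, ‖z - M‖ ≤ R → ‖E z‖ ≤ Real.exp (-Λ) / 4 := by
    intro z hz
    have hterm : ∀ x ∈ Q, ‖f x * ∏ l ∈ Q.erase x, ((z - l) / ((x : ℂ) - l))‖ ≤
        δ * (2 * M / τ) ^ (Q.card - 1) := by
      intro x hx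
      rw [norm_mul]
      have h1 : ‖∏ l ∈ Q.erase x, ((z - l) / ((x : ℂ) - l))‖ ≤ (2 * M / τ) ^ (Q.card - 1) := by
        rw [norm_prod, ← Finset.card_erase_of_mem hx, ← Finset.prod_const]
        apply Finset.prod_le_prod
        · intro l _
          exact norm_nonneg _
        intro l hl
        rw [Finset.mem_erase] at hl
        rw [norm_div]
        have hl2 := hQ l hl.2
        have h3 : ‖z - l‖ ≤ 2 * M := by
          calc ‖z - l‖ = ‖(z - M) + ((M : ℂ) - l)‖ := by ring_nf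
            _ ≤ ‖z - M‖ + ‖(M : ℂ) - l‖ := norm_add_le _ _
            _ ≤ R + (M - l) := by
                apply add_le_add hz
                rw [← Complex.ofReal_sub, Complex.norm_real, Real.norm_of_nonneg]
                linarith [hl2.2]
            _ ≤ 2 * M := by linarith [hl2.1]
        have h4 : τ ≤ ‖(x : ℂ) - l‖ := by
          rw [← Complex.ofReal_sub, Complex.norm_real, Real.norm_eq_abs]
          exact hQτ x hx l hl.2 (fun h => hl.1 h.symm)
        exact div_le_div₀ (by positivity) h3 hτ h4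
      exact mul_le_mul (hcon x hx).le h1 (norm_nonneg _)
        (le_trans (norm_nonneg _) (hcon x hx).le)
    have hsum : ‖E z‖ ≤ Q.card * (δ * (2 * M / τ) ^ (Q.card - 1)) := by
      simp only [hE]
      refine (norm_sum_le _ _).trans ?_
      refine (Finset.sum_le_card_nsmul _ _ _ hterm).trans ?_
      rw [nsmul_eq_mul]
    refine hsum.trans ?_
    have hpow : (0 : ℝ) < (2 * M / τ) ^ (Q.card - 1) := by positivity
    have h5 : (Q.card : ℝ) * (δ * (2 * M / τ) ^ (Q.card - 1)) ≤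
        Q.card * ((Real.exp (-Λ) * (τ / (2 * M)) ^ Q.card / (4 * Q.card)) *
          (2 * M / τ) ^ (Q.card - 1)) := by
      apply mul_le_mul_of_nonneg_left _ hqpos'.le
      apply mul_le_mul_of_nonneg_right hδ.le hpow.le
    refine h5.trans ?_
    have h6 : (τ / (2 * M)) ^ Q.card * (2 * M / τ) ^ (Q.card - 1) = τ / (2 * M) := by
      obtain ⟨k, hk⟩ : ∃ k, Q.card = k + 1 := ⟨Q.card - 1, by omega⟩
      rw [hk, Nat.add_sub_cancel, pow_succ, mul_right_comm, ← mul_pow]
      have : τ / (2 * M) * (2 * M / τ) = 1 := by field_simp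
      rw [this, one_pow, one_mul]
    have h7 : (Q.card : ℝ) * ((Real.exp (-Λ) * (τ / (2 * M)) ^ Q.card / (4 * Q.card)) *
          (2 * M / τ) ^ (Q.card - 1)) = Real.exp (-Λ) / 4 * (τ / (2 * M)) := by
      calc (Q.card : ℝ) * ((Real.exp (-Λ) * (τ / (2 * M)) ^ Q.card / (4 * Q.card)) *
          (2 * M / τ) ^ (Q.card - 1)) = ((Q.card : ℝ) / Q.card) * (Real.exp (-Λ) / 4 *
          ((τ / (2 * M)) ^ Q.card * (2 * M / τ) ^ (Q.card - 1))) := by ring
        _ = _ := by rw [h6, div_self hqpos'.ne', one_mul]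
    rw [h7]
    have h8 : τ / (2 * M) ≤ 1 := by
      rw [div_le_one (by positivity)]
      linarith
    have h9 : 0 ≤ Real.exp (-Λ) / 4 := by positivity
    nlinarith
  set F : ℂ → ℂ := fun z => f z - E z with hFdef
  have hEd : Differentiable ℂ E := by
    simp only [hE]
    apply Differentiable.fun_sum
    intro x _
    apply Differentiable.const_mul
    apply Differentiable.fun_finsetProd
    intro l _
    exact (differentiable_id.sub_const _).div_const _
  have hFd : DifferentiableOn ℂ F {z | 1 < z.re} := hf.sub hEd.differentiableOn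
  have hU : IsOpen {z : ℂ | 1 < z.re} := isOpen_lt continuous_const Complex.continuous_re
  have hUB : closedBall (M : ℂ) R ⊆ {z : ℂ | 1 < z.re} := by
    intro z hz
    rw [mem_closedBall, dist_eq_norm] at hz
    have h1 : |(z - M).re| ≤ R := (Complex.abs_re_le_norm _).trans hz
    rw [Complex.sub_re, Complex.ofReal_re] at h1
    have h2 := (abs_le.1 h1).1
    show 1 < z.re
    have h3 : R = M - (1 + a) / 2 := hRdef
    linarith
  have hFK : ∀ z, ‖z - (M : ℂ)‖ = R → ‖F z‖ ≤ Real.exp Λ + Real.exp (-Λ) / 4 := by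
    intro z hz
    refine (norm_sub_le _ _).trans ?_
    apply add_le_add
    · apply hsup
      rw [mem_closedBall, dist_eq_norm, hz]
    · exact hEbound z hz.le
  have hEx : ∀ x ∈ Q, E x = f x := by
    intro x hx
    simp only [hE]
    rw [Finset.sum_eq_single x]
    · rw [Finset.prod_eq_one, mul_one]
      intro l hl
      rw [Finset.mem_erase] at hl
      apply div_self
      rw [sub_ne_zero]
      intro h
      exact hl.1 (by exact_mod_cast h.symm)
    · intro y hy hyx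
      have : ∏ l ∈ Q.erase y, (((x : ℂ) - l) / ((y : ℂ) - l)) = 0 := by
        apply Finset.prod_eq_zero (i := x)
        · rw [Finset.mem_erase]
          exact ⟨fun h => hyx h.symm, hx⟩
        · simp
      rw [this, mul_zero]
    · intro h
      exact absurd hx h
  have hinj : Set.InjOn (fun x : ℝ => (x : ℂ)) Q := by
    intro x _ y _ h
    exact Complex.ofReal_injective h
  have hB := blaschke (c := (M : ℂ)) hR hU hUB (Q.image (fun x : ℝ => (x : ℂ))) (by
      intro z hz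
      rw [Finset.mem_image] at hz
      obtain ⟨x, hx, rfl⟩ := hz
      rw [mem_ball, dist_eq_norm, ← Complex.ofReal_sub, Complex.norm_real, Real.norm_eq_abs,
        abs_lt]
      have h3 : R = M - (1 + a) / 2 := hRdef
      constructor <;> linarith [(hQ x hx).1, (hQ x hx).2]) F hFd hFK (by
      intro z hz
      rw [Finset.mem_image] at hz
      obtain ⟨x, hx, rfl⟩ := hz
      simp only [hFdef]
      rw [hEx x hx, sub_self])
  rw [Finset.prod_image hinj] at hB
  have hprod : ∏ x ∈ Q, (‖(x : ℂ) - M‖ / R) ≤ Real.exp (-(2 * Λ + 1)) := by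
    have h1 : ∏ x ∈ Q, (‖(x : ℂ) - M‖ / R) ≤ (Real.exp (-((a - 1) / (2 * M)))) ^ Q.card := by
      rw [← Finset.prod_const]
      apply Finset.prod_le_prod
      · intro x hx
        positivity
      · intro x hx
        rw [← Complex.ofReal_sub, Complex.norm_real, Real.norm_eq_abs, abs_sub_comm,
          abs_of_nonneg (by linarith [(hQ x hx).2])]
        have h3 : R = M - (1 + a) / 2 := hRdef
        have h2 : (M - x) / R ≤ 1 - (a - 1) / (2 * M) := by
          have h4 : (M - x) / R ≤ 1 - (a - 1) / (2 * R) := by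
            rw [div_le_iff₀ hR]
            have : (1 - (a - 1) / (2 * R)) * R = R - (a - 1) / 2 := by field_simp
            rw [this]
            linarith [(hQ x hx).1]
          have h5 : (a - 1) / (2 * M) ≤ (a - 1) / (2 * R) := by
            apply div_le_div_of_nonneg_left ha1.le (by positivity)
            linarith
          linarith
        refine h2.trans ?_
        have := Real.add_one_le_exp (-((a - 1) / (2 * M)))
        linarith
    refine h1.trans ?_
    rw [← Real.exp_nat_mul]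
    apply Real.exp_le_exp.2
    have h6 : 2 * Λ + 1 ≤ Q.card * ((a - 1) / (2 * M)) := by
      rw [div_le_iff₀ ha1] at hq
      rw [mul_div_assoc']
      rw [le_div_iff₀ (by positivity)]
      linarith
    linarith
  have hfM : Real.exp (-Λ) ≤ ‖F M‖ + Real.exp (-Λ) / 4 := by
    have h1 : ‖f M‖ ≤ ‖F M‖ + ‖E M‖ := by
      have : f M = F M + E M := by simp [hFdef]
      rw [this]
      exact norm_add_le _ _
    have h2 : ‖E M‖ ≤ Real.exp (-Λ) / 4 := hEbound M (by simpa using hR.le)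
    linarith
  have hB2 : ‖F M‖ ≤ (Real.exp Λ + Real.exp (-Λ) / 4) * Real.exp (-(2 * Λ + 1)) := by
    refine hB.trans ?_
    apply mul_le_mul_of_nonneg_left hprod
    positivity
  have h10 : (Real.exp Λ + Real.exp (-Λ) / 4) * Real.exp (-(2 * Λ + 1)) ≤
      5 / 4 * (Real.exp (-Λ) * Real.exp (-1)) := by
    have e1 : Real.exp Λ * Real.exp (-(2 * Λ + 1)) = Real.exp (-Λ) * Real.exp (-1) := by
      rw [← Real.exp_add, ← Real.exp_add]
      ring_nf
    have e2 : Real.exp (-(2 * Λ + 1)) ≤ Real.exp (-1) := by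
      apply Real.exp_le_exp.2
      linarith
    have e3 : 0 < Real.exp (-Λ) := Real.exp_pos _
    nlinarith
  have h11 : Real.exp (-1) < 2 / 5 := by
    have h12 : (5 : ℝ) / 2 < Real.exp 1 := by
      have := Real.exp_one_gt_d9
      linarith
    rw [Real.exp_neg]
    rw [inv_lt_comm₀ (Real.exp_pos _) (by norm_num)]
    norm_num
    linarith
  have e3 : 0 < Real.exp (-Λ) := Real.exp_pos _
  nlinarith

end Pool.Agent.Lib.MP_524521_nt.RA
end

section
/-!
# The zero estimate property of the Hurwitz zeta functions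
-/
open Polynomial

namespace Pool.Agent.Lib.MP_524521_nt.RA

theorem N1_eval_int_le {m : ℕ} (p : Polynomial (G m)) (A Y n : ℕ) (hn : 1 ≤ n) (h1 : p.natDegree ≤ A)
    (h2 : ∀ k, N1 (p.coeff k) ≤ Y) :
    N1 (p.eval (((n : ℕ) : ℤ) : G m)) ≤ (A + 1) * Y * n ^ A := by
  have hcast : (((n : ℕ) : ℤ) : G m) = MvPolynomial.monomial 0 ((n : ℕ) : ℤ) :=
    (eq_intCast (MvPolynomial.C : ℤ →+* G m) ((n : ℕ) : ℤ)).symm
  have hN : N1 (((n : ℕ) : ℤ) : G m) ≤ n := by
    rw [hcast, N1_monomial]; simp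
  rw [eval_eq_sum_range' (Nat.lt_succ_of_le h1)]
  refine (N1_sum _ _).trans ?_
  calc ∑ k ∈ Finset.range (A + 1), N1 (p.coeff k * (((n : ℕ) : ℤ) : G m) ^ k)
      ≤ ∑ _k ∈ Finset.range (A + 1), Y * n ^ A := by
        refine Finset.sum_le_sum fun k hk => ?_
        refine (N1_mul _ _).trans (Nat.mul_le_mul (h2 k) ?_)
        refine (N1_pow _ _).trans ((Nat.pow_le_pow_left hN k).trans ?_)
        exact Nat.pow_le_pow_right hn (Nat.lt_succ_iff.1 (Finset.mem_range.1 hk))
    _ = (A + 1) * Y * n ^ A := by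
        rw [Finset.sum_const, Finset.card_range, smul_eq_mul]; ring

theorem zprop_ht (m : ℕ) (a b : ℝ) (ha : 0 < a) (hab : a ≤ b) : ZProp (ht m) a b := by
  classical
  intro E
  obtain ⟨c, hc, hel⟩ := elim_lower m E
  obtain ⟨Z, hZ, hbdd⟩ := ht_bdd m (a / 2) (by linarith)
  set m0 : ℕ := ⌈b⌉₊ + 3 with hm0
  have hc0 : (1 : ℝ) ≤ c := by exact_mod_cast hc
  set K : ℝ := m0 + 2 * c with hK
  have hK1 : 1 ≤ K := by rw [hK]; have : (0 : ℝ) ≤ m0 := Nat.cast_nonneg _; linarith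
  set L : ℝ := c * (K + 1) + 2 * K + 8 + E * Z with hL
  have hEZ : 0 ≤ (E : ℝ) * Z := by positivity
  have hL1 : 1 ≤ L := by
    have : 0 ≤ c * (K + 1) := by positivity
    rw [hL]; linarith
  set q0 : ℝ := 6 * (K + 1) * L / a + 2 with hq0
  have hq0' : 0 ≤ 6 * (K + 1) * L / a := by positivity
  have hq01 : 1 ≤ q0 := by rw [hq0]; linarith
  obtain ⟨C, hC⟩ := exists_nat_ge (2 * L + q0 * (2 * K + 4) + 8 * q0 + 8)
  have hC8 : (8 : ℝ) ≤ C := by
    have : 0 ≤ q0 * (2 * K + 4) := by positivity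
    linarith
  have hC4 : 4 ≤ C := by
    have : (4 : ℝ) ≤ C := by linarith
    exact_mod_cast this
  refine ⟨C, by omega, ?_⟩
  intro A h δ hA hh hδ hδ1 p hp hpA hpE hpN Q hQ hQδ hQs
  set S : ℝ := A + h with hS
  have hA1 : (1 : ℝ) ≤ A := by exact_mod_cast hA
  have hS2 : 2 ≤ S := by rw [hS]; linarith
  obtain ⟨M, hM1, hM2, hMN⟩ := hel A m0 p (by omega) hp hpA hpE
  set Y : ℕ := ⌈Real.exp h⌉₊ with hY
  have hY1 : 1 ≤ Y := by
    rw [hY, Nat.one_le_ceil_iff]; exact Real.exp_pos _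
  have hYc : ∀ k, N1 (p.coeff k) ≤ Y := by
    intro k
    have h1 := (hpN k).trans (Nat.le_ceil (Real.exp h))
    exact_mod_cast h1
  have hYe : (Y : ℝ) ≤ Real.exp (h + 1) := by
    have h1 : (Y : ℝ) ≤ Real.exp h + 1 := (Nat.ceil_lt_add_one (Real.exp_pos h).le).le
    have h2 : 1 ≤ Real.exp h := Real.one_le_exp (by linarith)
    have h3 : (2 : ℝ) ≤ Real.exp 1 := by
      have := Real.add_one_le_exp (1 : ℝ); linarith
    rw [Real.exp_add]
    have h4 : Real.exp h * 2 ≤ Real.exp h * Real.exp 1 :=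
      mul_le_mul_of_nonneg_left h3 (Real.exp_pos h).le
    linarith
  set Mc : ℕ := M + c with hMc
  have hMcR : (Mc : ℝ) ≤ K * S := by
    have h1 : (Mc : ℝ) ≤ m0 + c * (A + 1) + c := by
      rw [hMc]; push_cast
      have : (M : ℝ) ≤ m0 + c * (A + 1) := by exact_mod_cast hM2
      linarith
    have h2 : (0 : ℝ) ≤ m0 := Nat.cast_nonneg _
    have h3 : (m0 : ℝ) + c * (A + 1) + c ≤ K * (A + 1) := by
      have h3a : 0 ≤ (m0 : ℝ) * A := by positivity
      have h3b : 0 ≤ (c : ℝ) * A := by positivity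
      have h3c : (m0 + 2 * (c : ℝ)) * (A + 1) = m0 * A + m0 + 2 * (c * A) + 2 * c := by ring
      rw [hK, h3c]
      linarith
    have h4 : K * ((A : ℝ) + 1) ≤ K * S := by
      apply mul_le_mul_of_nonneg_left _ (by linarith)
      rw [hS]; linarith
    linarith
  have hMc1 : 1 ≤ Mc := by omega
  set N : ℕ := (A + 1) * Y * Mc ^ A with hN
  have hN1 : 1 ≤ N := by
    rw [hN]; exact Nat.mul_pos (Nat.mul_pos (by omega) hY1) (pow_pos hMc1 _)
  obtain ⟨i, hi, hlow⟩ := hMN N hN1 (by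
    intro i hi
    refine (N1_eval_int_le p A Y (M + i) (by omega) hpA hYc).trans ?_
    rw [hN]
    exact Nat.mul_le_mul_left _ (Nat.pow_le_pow_left (by omega) _))
  set Λ : ℝ := L * S ^ 2 with hΛ
  have hS4 : 1 ≤ S ^ 2 := by nlinarith
  have hΛ1 : 1 ≤ Λ := by rw [hΛ]; exact one_le_mul_of_one_le_of_one_le hL1 hS4
  -- lower bound at the integer
  have hlow2 : Real.exp (-Λ) ≤ ‖evg (ht m) ((M + i : ℕ) : ℂ) p‖ := by
    refine le_trans ?_ hlow
    have h1 : (((M + c) * N : ℕ) : ℝ) ≤ Real.exp ((K + 1) * S ^ 2) := by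
      rw [← hMc, hN]; push_cast
      have e1 : (Mc : ℝ) ≤ Real.exp (K * S) :=
        hMcR.trans (by have := Real.add_one_le_exp (K * S); linarith)
      have e2 : ((A : ℝ) + 1) ≤ Real.exp A := Real.add_one_le_exp _
      have e3 : (Mc : ℝ) ^ A ≤ Real.exp (A * (K * S)) := by
        calc (Mc : ℝ) ^ A ≤ Real.exp (K * S) ^ A := pow_le_pow_left₀ (Nat.cast_nonneg _) e1 _
          _ = Real.exp (A * (K * S)) := by rw [← Real.exp_nat_mul]
      calc (Mc : ℝ) * (((A : ℝ) + 1) * Y * (Mc : ℝ) ^ A)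
          ≤ Real.exp (K * S) * (Real.exp A * Real.exp (h + 1) * Real.exp (A * (K * S))) := by
            gcongr
        _ = Real.exp (K * S + (A + (h + 1) + A * (K * S))) := by
            rw [← Real.exp_add, ← Real.exp_add, ← Real.exp_add]
        _ ≤ Real.exp ((K + 1) * S ^ 2) := by
            apply Real.exp_le_exp.2
            have e4 : (A : ℝ) + 1 ≤ S := by rw [hS]; linarith
            have e5 : K * S * (A + 1) ≤ K * S * S :=
              mul_le_mul_of_nonneg_left e4 (by positivity)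
            have e6 : (A : ℝ) + (h + 1) = S + 1 := by rw [hS]; ring
            have e7 : S + 1 ≤ S ^ 2 := by nlinarith
            have e8 : K * S + A * (K * S) = K * S * (A + 1) := by ring
            have e9 : (K + 1) * S ^ 2 = K * S * S + S ^ 2 := by ring
            rw [e9]
            linarith
    have h2 : (((M + c) * N : ℕ) : ℝ) ^ c ≤ Real.exp Λ := by
      calc (((M + c) * N : ℕ) : ℝ) ^ c ≤ Real.exp ((K + 1) * S ^ 2) ^ c :=
            pow_le_pow_left₀ (Nat.cast_nonneg _) h1 _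
        _ = Real.exp (c * ((K + 1) * S ^ 2)) := by rw [← Real.exp_nat_mul]
        _ ≤ Real.exp Λ := by
            apply Real.exp_le_exp.2
            rw [hΛ, ← mul_assoc]
            apply mul_le_mul_of_nonneg_right _ (by positivity)
            rw [hL]; linarith
    have h3 : (0 : ℝ) < (((M + c) * N : ℕ) : ℝ) ^ c := by
      have : 0 < (M + c) * N := Nat.mul_pos (by omega) hN1
      positivity
    rw [Real.exp_neg, ← one_div]
    exact one_div_le_one_div_of_le h3 h2
  -- the disc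
  set M₁ : ℝ := ((M + i : ℕ) : ℝ) + 1 with hM₁
  have hMib : b + 1 ≤ ((M + i : ℕ) : ℝ) := by
    have h1 : b ≤ ⌈b⌉₊ := Nat.le_ceil b
    have h2 : ((⌈b⌉₊ + 3 : ℕ) : ℝ) ≤ ((M + i : ℕ) : ℝ) := by exact_mod_cast (by omega)
    push_cast at h2 ⊢
    linarith
  have hM₁S : M₁ ≤ (K + 1) * S := by
    have h1 : ((M + i : ℕ) : ℝ) ≤ Mc := by exact_mod_cast (by omega)
    rw [hM₁, add_mul]; linarith
  have hM₁1 : 1 ≤ M₁ := by
    rw [hM₁]; have : (0 : ℝ) ≤ ((M + i : ℕ) : ℝ) := Nat.cast_nonneg _; linarith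
  set f : ℂ → ℂ := fun z => evg (ht m) (z - 1) p with hf
  have hfd : DifferentiableOn ℂ f {z | 1 < z.re} := by
    have h1 : DifferentiableOn ℂ (fun z => evg (ht m) z p) {z | 0 < z.re} :=
      differentiableOn_evg (ht m) _ (fun j => hz_diff _ (by omega)) p
    have h2 : DifferentiableOn ℂ (fun z : ℂ => z - 1) {z | 1 < z.re} :=
      (differentiable_id.sub_const 1).differentiableOn
    exact h1.comp h2 (fun z hz => by
      simp only [Set.mem_ofPred_eq, Complex.sub_re, Complex.one_re] at hz ⊢; linarith)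
  have hsup : ∀ z ∈ Metric.closedBall (M₁ : ℂ) (M₁ - (1 + (a + 1)) / 2), ‖f z‖ ≤ Real.exp Λ := by
    intro z hz
    rw [Metric.mem_closedBall, dist_eq_norm] at hz
    have hre : a / 2 ≤ (z - 1).re := by
      have h1 : |(z - M₁).re| ≤ ‖z - M₁‖ := Complex.abs_re_le_norm _
      have h2 := neg_abs_le (z - M₁).re
      simp only [Complex.sub_re, Complex.ofReal_re, Complex.one_re] at h1 h2 ⊢
      linarith
    have hnm : ‖z - 1‖ ≤ 2 * M₁ := by
      have h1 : ‖z - 1‖ ≤ ‖z - M₁‖ + ‖(M₁ : ℂ) - 1‖ := by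
        have : z - 1 = (z - M₁) + ((M₁ : ℂ) - 1) := by ring
        rw [this]; exact norm_add_le _ _
      have h2 : ‖(M₁ : ℂ) - 1‖ = M₁ - 1 := by
        have : (M₁ : ℂ) - 1 = ((M₁ - 1 : ℝ) : ℂ) := by push_cast; ring
        rw [this, Complex.norm_real, Real.norm_of_nonneg (by linarith)]
      rw [h2] at h1
      linarith
    have h3 := norm_evg_le (ht m) (z - 1) Z (2 * M₁) (Real.exp h) hZ (by linarith)
      (fun j => hbdd _ hre j) hnm p A E hpA hpE hpN
    refine h3.trans ?_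
    have e1 : ((A : ℝ) + 1) ≤ Real.exp A := Real.add_one_le_exp _
    have e2 : Z ^ E ≤ Real.exp (E * Z) := by
      calc Z ^ E ≤ Real.exp Z ^ E :=
            pow_le_pow_left₀ (by linarith) (by have := Real.add_one_le_exp Z; linarith) _
        _ = Real.exp (E * Z) := by rw [← Real.exp_nat_mul]
    have e3 : (2 * M₁) ^ A ≤ Real.exp (A * (2 * (K + 1) * S)) := by
      calc (2 * M₁) ^ A ≤ Real.exp (2 * (K + 1) * S) ^ A := by
            apply pow_le_pow_left₀ (by linarith)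
            have := Real.add_one_le_exp (2 * (K + 1) * S)
            nlinarith
        _ = Real.exp (A * (2 * (K + 1) * S)) := by rw [← Real.exp_nat_mul]
    calc ((A : ℝ) + 1) * Real.exp h * Z ^ E * (2 * M₁) ^ A
        ≤ Real.exp A * Real.exp h * Real.exp (E * Z) * Real.exp (A * (2 * (K + 1) * S)) := by
          gcongr
      _ = Real.exp (A + h + E * Z + A * (2 * (K + 1) * S)) := by
          rw [← Real.exp_add, ← Real.exp_add, ← Real.exp_add]
      _ ≤ Real.exp Λ := by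
          apply Real.exp_le_exp.2
          have e4 : (A : ℝ) ≤ S := by rw [hS]; linarith
          have e5 : (A : ℝ) * (2 * (K + 1) * S) ≤ S * (2 * (K + 1) * S) :=
            mul_le_mul_of_nonneg_right e4 (by positivity)
          have e6 : (A : ℝ) + h = S := hS.symm
          have e7 : S ≤ S ^ 2 := by nlinarith
          have e8 : (E : ℝ) * Z * 1 ≤ E * Z * S ^ 2 := mul_le_mul_of_nonneg_left hS4 hEZ
          have e9 : 0 ≤ c * (K + 1) * S ^ 2 := by positivity
          have e10 : S * (2 * (K + 1) * S) = 2 * K * S ^ 2 + 2 * S ^ 2 := by ring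
          have e11 : (c * (K + 1) + 2 * K + 8 + E * Z) * S ^ 2 =
              c * (K + 1) * S ^ 2 + 2 * K * S ^ 2 + 8 * S ^ 2 + E * Z * S ^ 2 := by ring
          rw [hΛ, hL, e6, e11]
          linarith
  have hlow3 : Real.exp (-Λ) ≤ ‖f M₁‖ := by
    have : (M₁ : ℂ) - 1 = ((M + i : ℕ) : ℂ) := by rw [hM₁]; push_cast; ring
    rw [hf]; simp only; rw [this]; exact hlow2
  -- the number of points
  by_contra hcard
  push Not at hcard
  set q : ℕ := ⌈2 * M₁ * (2 * Λ + 1) / a⌉₊ with hq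
  have hS0 : 0 ≤ S := by linarith
  have hΛ0 : 0 ≤ Λ := by linarith
  have hqle : (q : ℝ) ≤ q0 * S ^ 3 := by
    have h1 : (q : ℝ) ≤ 2 * M₁ * (2 * Λ + 1) / a + 1 :=
      (Nat.ceil_lt_add_one (by positivity)).le
    have h2 : 2 * M₁ * (2 * Λ + 1) ≤ 6 * (K + 1) * L * S ^ 3 := by
      calc 2 * M₁ * (2 * Λ + 1) ≤ 2 * ((K + 1) * S) * (3 * Λ) := by
            apply mul_le_mul _ (by linarith) (by linarith) (by positivity)
            linarith
        _ = 6 * (K + 1) * L * S ^ 3 := by rw [hΛ]; ring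
    have h3 : 2 * M₁ * (2 * Λ + 1) / a ≤ 6 * (K + 1) * L * S ^ 3 / a :=
      div_le_div_of_nonneg_right h2 ha.le
    have h4 : 6 * (K + 1) * L * S ^ 3 / a = 6 * (K + 1) * L / a * S ^ 3 := by ring
    have h5 : 1 ≤ S ^ 3 := one_le_pow₀ (by linarith)
    rw [hq0, add_mul]
    linarith
  have hq1 : 1 ≤ q := by
    rw [hq, Nat.one_le_ceil_iff]; positivity
  have hSC : S ^ 4 ≤ S ^ C := pow_le_pow_right₀ (by linarith) hC4
  have hS34 : S ^ 3 ≤ S ^ 4 := pow_le_pow_right₀ (by linarith) (by norm_num)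
  have hSC0 : 0 < S ^ C := by positivity
  have hqC : (q : ℝ) ≤ C * S ^ C := by
    have h1 : q0 ≤ C := by
      have : 0 ≤ q0 * (2 * K + 4) := by positivity
      linarith
    calc (q : ℝ) ≤ q0 * S ^ 3 := hqle
      _ ≤ C * S ^ C := mul_le_mul h1 (hS34.trans hSC) (by positivity) (by positivity)
  have hqQ : q ≤ Q.card := by
    have : (q : ℝ) < Q.card := lt_of_le_of_lt hqC hcard
    exact_mod_cast this.le
  obtain ⟨Q₁, hQ₁, hQ₁c⟩ := Finset.exists_subset_card_eq hqQ
  set Q₂ : Finset ℝ := Q₁.image (fun x => x + 1) with hQ₂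
  have hQ₂c : Q₂.card = q := by
    rw [hQ₂, Finset.card_image_of_injective _ (fun x y h => by simpa using h), hQ₁c]
  set ℓ : ℝ := Real.log (2 / δ) with hℓ
  have hℓ1 : 1 ≤ 2 * ℓ := by
    have h1 : Real.log 2 ≤ ℓ := by
      rw [hℓ]; apply Real.log_le_log (by norm_num)
      rw [le_div_iff₀ hδ]; linarith
    have := Real.log_two_gt_d9
    linarith
  set κ : ℝ := Real.exp (-(C * S ^ C * ℓ)) with hκ
  -- the upper bound in `few_small`
  have hU : κ < Real.exp (-Λ) * (δ / (2 * M₁)) ^ q / (4 * q) := by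
    have hq0r : (0 : ℝ) < q := by exact_mod_cast hq1
    have hδM : 0 < δ / (2 * M₁) := by positivity
    have hlogδ : Real.log (δ / (2 * M₁)) = -(ℓ + Real.log M₁) := by
      rw [hℓ, Real.log_div hδ.ne' (by positivity), Real.log_div (by norm_num) hδ.ne',
        Real.log_mul (by norm_num) (by linarith)]
      ring
    have h1 : (δ / (2 * M₁)) ^ q = Real.exp (-(q * (ℓ + Real.log M₁))) := by
      rw [← Real.exp_log hδM, ← Real.exp_nat_mul, hlogδ]
      congr 1; ring
    have h2 : (4 : ℝ) * q < Real.exp (4 * q) := by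
      have := Real.add_one_le_exp (4 * (q : ℝ)); linarith
    have h3 : Real.exp (-(4 * (q : ℝ))) < 1 / (4 * q) := by
      rw [Real.exp_neg, ← one_div]
      exact one_div_lt_one_div_of_lt (by positivity) h2
    have hlogM : Real.log M₁ ≤ M₁ := by
      have := Real.log_le_sub_one_of_pos (by linarith : 0 < M₁); linarith
    have h4 : Λ + q * (ℓ + Real.log M₁) + 4 * q ≤ C * S ^ C * ℓ := by
      have e1 : Real.log M₁ ≤ 2 * (K + 1) * S * ℓ := by
        have : M₁ ≤ (K + 1) * S * (2 * ℓ) := by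
          calc M₁ ≤ (K + 1) * S * 1 := by linarith
            _ ≤ (K + 1) * S * (2 * ℓ) := mul_le_mul_of_nonneg_left hℓ1 (by positivity)
        linarith
      have hℓ0 : 0 ≤ ℓ := by linarith
      have e2 : ℓ + Real.log M₁ ≤ (2 * K + 4) * S * ℓ - ℓ * S := by
        have e2a : 0 ≤ ℓ * (S - 1) := mul_nonneg hℓ0 (by linarith)
        have e2b : (2 * K + 4) * S * ℓ - ℓ * S = 2 * (K + 1) * S * ℓ + ℓ * (S - 1) + ℓ := by ring
        rw [e2b]
        linarith
      have e3 : (q : ℝ) * (ℓ + Real.log M₁) ≤ q0 * S ^ 3 * ((2 * K + 4) * S * ℓ) := by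
        apply mul_le_mul hqle _ _ (by positivity)
        · have : 0 ≤ ℓ * S := by positivity
          linarith
        · have : 0 ≤ Real.log M₁ := Real.log_nonneg hM₁1
          linarith
      have e4 : Λ ≤ 2 * L * S ^ 4 * ℓ := by
        rw [hΛ]
        have : S ^ 2 ≤ S ^ 4 := pow_le_pow_right₀ (by linarith) (by norm_num)
        calc L * S ^ 2 ≤ L * S ^ 4 * 1 := by
              rw [mul_one]; exact mul_le_mul_of_nonneg_left this (by linarith)
          _ ≤ L * S ^ 4 * (2 * ℓ) := mul_le_mul_of_nonneg_left hℓ1 (by positivity)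
          _ = 2 * L * S ^ 4 * ℓ := by ring
      have e5 : 4 * (q : ℝ) ≤ 8 * q0 * S ^ 4 * ℓ := by
        calc 4 * (q : ℝ) ≤ 4 * (q0 * S ^ 4) * 1 := by
              rw [mul_one]
              have := mul_le_mul_of_nonneg_left hS34 (by linarith : 0 ≤ q0)
              linarith
          _ ≤ 4 * (q0 * S ^ 4) * (2 * ℓ) := mul_le_mul_of_nonneg_left hℓ1 (by positivity)
          _ = 8 * q0 * S ^ 4 * ℓ := by ring
      have e6 : (2 * L + q0 * (2 * K + 4) + 8 * q0) * (S ^ 4 * ℓ) ≤ C * (S ^ C * ℓ) := by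
        apply mul_le_mul (by linarith) _ (by positivity) (by positivity)
        exact mul_le_mul_of_nonneg_right hSC hℓ0
      have e7 : (2 * L + q0 * (2 * K + 4) + 8 * q0) * (S ^ 4 * ℓ) = 2 * L * S ^ 4 * ℓ +
          q0 * S ^ 3 * ((2 * K + 4) * S * ℓ) + 8 * q0 * S ^ 4 * ℓ := by ring
      have e8 : C * (S ^ C * ℓ) = C * S ^ C * ℓ := by ring
      rw [e7, e8] at e6
      linarith
    calc κ ≤ Real.exp (-(Λ + q * (ℓ + Real.log M₁) + 4 * q)) := by
          rw [hκ]; apply Real.exp_le_exp.2; linarith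
      _ = Real.exp (-Λ) * Real.exp (-(q * (ℓ + Real.log M₁))) * Real.exp (-(4 * (q : ℝ))) := by
          rw [← Real.exp_add, ← Real.exp_add]; ring_nf
      _ < Real.exp (-Λ) * Real.exp (-(q * (ℓ + Real.log M₁))) * (1 / (4 * q)) :=
          mul_lt_mul_of_pos_left h3 (by positivity)
      _ = Real.exp (-Λ) * (δ / (2 * M₁)) ^ q / (4 * q) := by rw [h1]; ring
  obtain ⟨δ', hδ'1, hδ'2⟩ := exists_between hU
  obtain ⟨x, hx, hxδ⟩ := few_small (a := a + 1) (b := b + 1) (M := M₁) (Λ := Λ) (τ := δ)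
    (δ := δ') (by linarith) (by linarith) (by rw [hM₁]; linarith) hΛ1 f hfd
    (by simpa [add_comm] using hsup) hlow3 hδ hδ1 Q₂ (by
      intro x hx
      obtain ⟨y, hy, rfl⟩ := Finset.mem_image.1 hx
      have := hQ y (hQ₁ hy)
      constructor <;> linarith [this.1, this.2]) (by
      intro x hx y hy hxy
      obtain ⟨x', hx', rfl⟩ := Finset.mem_image.1 hx
      obtain ⟨y', hy', rfl⟩ := Finset.mem_image.1 hy
      have h1 := hQδ x' (hQ₁ hx') y' (hQ₁ hy') (fun h => hxy (by rw [h]))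
      have : x' + 1 - (y' + 1) = x' - y' := by ring
      rw [this]; exact h1) (by
      rw [hQ₂c, add_sub_cancel_right, hq]
      exact Nat.le_ceil _) (by rw [hQ₂c]; exact hδ'2)
  obtain ⟨y, hy, rfl⟩ := Finset.mem_image.1 hx
  have h1 := hQs y (hQ₁ hy)
  have h2 : f ((y + 1 : ℝ) : ℂ) = evg (ht m) y p := by
    rw [hf]; simp only; congr 2; push_cast; ring
  rw [h2] at hxδ
  linarith

end Pool.Agent.Lib.MP_524521_nt.RA
end

section
/-!
# The local theorem for the Hurwitz zeta functions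
-/
open Polynomial

namespace Pool.Agent.Lib.MP_524521_nt.RA

/-- the real Hurwitz zeta value -/
noncomputable def hzr (k : ℕ) (x : ℝ) : ℝ := ∑' n : ℕ, 1 / ((n : ℝ) + x) ^ k

theorem hz_eq_hzr (k : ℕ) (x : ℝ) : hz k x = (hzr k x : ℂ) := by
  rw [hz_real, hzr]
  congr 2
  funext n
  rw [add_comm]

theorem aeval_ht_eq {m : ℕ} (x : ℝ) (P : G m) :
    MvPolynomial.aeval (fun j => ht m j x) P =
      ((MvPolynomial.aeval (fun j : Fin m => hzr (j + 2) x) P : ℝ) : ℂ) := by
  have h1 : (fun j => ht m j x) = fun j : Fin m => Complex.ofRealHom (hzr (j + 2) x) := by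
    funext j; exact hz_eq_hzr _ _
  rw [h1, MvPolynomial.aeval_def, MvPolynomial.aeval_def]
  have h2 := MvPolynomial.hom_eval₂ P (algebraMap ℤ ℝ) Complex.ofRealHom
    (fun j : Fin m => hzr (j + 2) x)
  rw [Complex.ofRealHom_eq_coe] at h2
  rw [h2]
  congr 1

theorem norm_aeval_ht_eq {m : ℕ} (x : ℝ) (P : G m) :
    ‖MvPolynomial.aeval (fun j => ht m j x) P‖ =
      |MvPolynomial.aeval (fun j : Fin m => hzr (j + 2) x) P| := by
  rw [aeval_ht_eq, Complex.norm_real, Real.norm_eq_abs]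

theorem local_ht (m D : ℕ) (a b : ℝ) (ha : 0 < a) (hab : a ≤ b) {ε : ℝ} (hε : 0 < ε) :
    ∃ C : ℕ, 1 ≤ C ∧ ∀ T H : ℕ, 2 ≤ T → 2 ≤ H → ∀ (t : ℝ) (S : Finset ℚ),
      (∀ s ∈ S, a ≤ s ∧ s ≤ b ∧ |(s : ℝ) - t| ≤ (T : ℝ) ^ (-ε) ∧ s.den ≤ T ∧
        ∃ P : G m, P ≠ 0 ∧ P.totalDegree ≤ D ∧ (∀ d, (P.coeff d).natAbs ≤ H) ∧
          |MvPolynomial.aeval (fun j : Fin m => hzr (j + 2) s) P| <
            Real.exp (-(C * Real.log (T * H)) ^ C)) →
      (S.card : ℝ) ≤ (C * Real.log (T * H)) ^ C := by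
  obtain ⟨Z₀, hZ₀, hbd⟩ := ht_bdd m (a / 2) (by linarith)
  obtain ⟨C, hC, h⟩ := local_theorem (ht m) (ρ := a / 4) hab (by linarith) hZ₀
    (fun x hx _ j => (hz_diff _ (by omega)).mono (fun z hz => by
      rw [Metric.mem_ball, dist_eq_norm] at hz
      have h1 : |(z - x).re| ≤ ‖z - x‖ := Complex.abs_re_le_norm _
      have h2 := neg_abs_le (z - x).re
      simp only [Complex.sub_re, Complex.ofReal_re] at h1 h2
      show 0 < z.re
      linarith))
    (fun x hx _ z hz j => hbd z (by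
      rw [Metric.mem_closedBall, dist_eq_norm] at hz
      have h1 : |(z - x).re| ≤ ‖z - x‖ := Complex.abs_re_le_norm _
      have h2 := neg_abs_le (z - x).re
      simp only [Complex.sub_re, Complex.ofReal_re] at h1 h2
      linarith) j)
    (zprop_ht m a b ha hab) D hε
  refine ⟨C, hC, fun T H hT hH t S hS => h T H hT hH t S fun s hs => ?_⟩
  obtain ⟨h1, h2, h3, h4, P, hP, hPD, hPH, hPs⟩ := hS s hs
  refine ⟨h1, h2, h3, h4, P, hP, hPD, hPH, ?_⟩
  have h5 := norm_aeval_ht_eq (m := m) (s : ℝ) P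
  rw [Complex.ofReal_ratCast] at h5
  rw [h5]
  exact hPs

theorem locHt (m D b : ℕ) {ε : ℝ} (hε : 0 < ε) : ∃ C : ℕ, 1 ≤ C ∧ LocHt m D b ε C := by
  have hb : (1 : ℝ) ≤ (b : ℝ) + 1 := by
    have : (0 : ℝ) ≤ b := Nat.cast_nonneg _
    linarith
  obtain ⟨C, hC, h⟩ := local_ht m D 1 ((b : ℝ) + 1) one_pos hb hε
  refine ⟨C, hC, fun T H hT hH t S hS => h T H hT hH t S fun s hs => ?_⟩
  obtain ⟨h1, h2, h3, h4, P, hP, hPD, hPH, hPs⟩ := hS s hs
  refine ⟨h1, h2, h3, h4, P, hP, hPD, hPH, ?_⟩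
  have h5 := norm_aeval_ht_eq (m := m) (s : ℝ) P
  rw [Complex.ofReal_ratCast] at h5
  rw [← h5]
  exact hPs

/-- the local theorem for all rationals of `(0, b]` in an interval of length `2 T^(-ε)` -/
theorem final_ht (m D : ℕ) (b ε : ℝ) (hε : 0 < ε) :
    ∃ C : ℕ, ∀ T H : ℕ, 2 ≤ T → 2 ≤ H → ∀ t : ℝ,
      {x : ℚ | 0 < x ∧ (x : ℝ) ≤ b ∧ x.den ≤ T ∧ |(x : ℝ) - t| ≤ (T : ℝ) ^ (-ε) ∧
        ∃ P : MvPolynomial (Fin m) ℤ, P ≠ 0 ∧ P.totalDegree ≤ D ∧ (∀ e, |P.coeff e| ≤ H) ∧
          |MvPolynomial.aeval (fun j : Fin m => hzr (j + 2) x) P| <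
            Real.exp (-Real.log (T * H) ^ C)}.encard ≤
      (⌊Real.log (T * H) ^ C⌋₊ : ℕ∞) := by
  classical
  obtain ⟨C₀, hC₀, h0⟩ := locHt m D (max ⌈b⌉₊ 1) hε
  obtain ⟨C, hC⟩ := half m D (max ⌈b⌉₊ 1) (le_max_right _ _) ε C₀ hC₀ h0
  refine ⟨C, fun T H hT hH t => ?_⟩
  by_contra hcon
  push Not at hcon
  obtain ⟨s, hs, hsc⟩ := Set.exists_subset_encard_eq (Order.add_one_le_of_lt hcon)
  have hsc : s.encard = ((⌊Real.log (T * H) ^ C⌋₊ + 1 : ℕ) : ℕ∞) := by
    rw [hsc]; push_cast; rfl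
  have hfin : s.Finite := Set.finite_of_encard_eq_coe hsc
  have h2 := hC T H hT hH t hfin.toFinset (by
    intro x hx
    obtain ⟨h1, h2, h3, h4, P, hP, hPD, hPH, hPs⟩ := hs (hfin.mem_toFinset.1 hx)
    refine ⟨h1, h2.trans ?_, h4, h3, P, hP, hPD, fun d => ?_, ?_⟩
    · exact (Nat.le_ceil b).trans (by exact_mod_cast le_max_left _ _)
    · have := hPH d
      rw [Int.abs_eq_natAbs] at this
      exact_mod_cast this
    · have h5 := norm_aeval_ht_eq (m := m) (x : ℝ) P
      rw [Complex.ofReal_ratCast] at h5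
      rw [h5]
      exact hPs)
  have h3 : hfin.toFinset.card = ⌊Real.log (T * H) ^ C⌋₊ + 1 := by
    rw [hfin.encard_eq_coe_toFinset_card] at hsc
    exact_mod_cast hsc
  rw [h3] at h2
  have h4 := Nat.le_floor h2
  omega

end Pool.Agent.Lib.MP_524521_nt.RA
end

section
/-!
# The number part of the uniform zero estimate (helper27)

`low_U_of`: from the lower bound at an integer near `3 U` (module ElimU, here a hypothesis).
-/
open Polynomial

namespace Pool.Agent.Lib.MP_524521_nt.RA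

/-- the rescaled polynomial `∑ U^(A-k) p_k X^k` -/
noncomputable def rsc {m : ℕ} (U A : ℕ) (p : Polynomial (G m)) : Polynomial (G m) :=
  ∑ k ∈ Finset.range (A + 1), Polynomial.monomial k (MvPolynomial.C ((U : ℤ) ^ (A - k)) * p.coeff k)

theorem coeff_rsc {m : ℕ} (U A : ℕ) (p : Polynomial (G m)) (hp : p.natDegree ≤ A) (k : ℕ) :
    (rsc U A p).coeff k = MvPolynomial.C ((U : ℤ) ^ (A - k)) * p.coeff k := by
  unfold rsc
  rw [Polynomial.finsetSum_coeff]
  simp only [Polynomial.coeff_monomial]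
  by_cases hk : k < A + 1
  · rw [Finset.sum_ite_eq' , if_pos (Finset.mem_range.mpr hk)]
  · rw [Finset.sum_ite_eq', if_neg (fun h => hk (Finset.mem_range.mp h)),
      Polynomial.coeff_eq_zero_of_natDegree_lt (by omega : p.natDegree < k), mul_zero]

theorem natDegree_rsc {m : ℕ} (U A : ℕ) (p : Polynomial (G m)) (hp : p.natDegree ≤ A) :
    (rsc U A p).natDegree ≤ A := by
  rw [Polynomial.natDegree_le_iff_coeff_eq_zero]
  intro k hk
  rw [coeff_rsc U A p hp, Polynomial.coeff_eq_zero_of_natDegree_lt (by omega : p.natDegree < k), mul_zero]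

theorem rsc_ne_zero {m : ℕ} (U A : ℕ) (hU : 1 ≤ U) (p : Polynomial (G m)) (hp : p.natDegree ≤ A)
    (h0 : p ≠ 0) : rsc U A p ≠ 0 := by
  intro h
  apply h0
  ext1 k
  have h1 := coeff_rsc U A p hp k
  rw [h, Polynomial.coeff_zero] at h1
  rw [Polynomial.coeff_zero]
  rcases mul_eq_zero.1 h1.symm with h2 | h2
  · rw [MvPolynomial.C_eq_zero] at h2
    have : (0:ℤ) < (U : ℤ) ^ (A - k) := by
      have : (0:ℤ) < U := by exact_mod_cast hU
      positivity
    omega
  · exact h2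

theorem totalDegree_rsc {m : ℕ} (U A E : ℕ) (p : Polynomial (G m)) (hp : p.natDegree ≤ A)
    (hE : ∀ k, (p.coeff k).totalDegree ≤ E) (k : ℕ) : ((rsc U A p).coeff k).totalDegree ≤ E := by
  rw [coeff_rsc U A p hp]
  refine (MvPolynomial.totalDegree_mul _ _).trans ?_
  rw [MvPolynomial.totalDegree_C, zero_add]
  exact hE k

theorem N1_rsc {m : ℕ} (U A : ℕ) (hU : 1 ≤ U) (p : Polynomial (G m)) (hp : p.natDegree ≤ A) (k : ℕ) :
    N1 ((rsc U A p).coeff k) ≤ U ^ A * N1 (p.coeff k) := by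
  rw [coeff_rsc U A p hp]
  refine (N1_mul _ _).trans (Nat.mul_le_mul_right _ ?_)
  rw [N1_C, Int.natAbs_pow, Int.natAbs_natCast]
  exact Nat.pow_le_pow_right hU (Nat.sub_le _ _)

theorem evg_eq_sum' {m : ℕ} (g : Fin m → ℂ → ℂ) (z : ℂ) (p : Polynomial (G m)) (A : ℕ)
    (hp : p.natDegree ≤ A) :
    evg g z p = ∑ k ∈ Finset.range (A + 1), MvPolynomial.aeval (fun j => g j z) (p.coeff k) * z ^ k := by
  rw [evg_eq_sum]
  apply Finset.sum_subset
  · intro k hk
    rw [Finset.mem_range] at *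
    omega
  · intro k _ hk
    rw [Finset.mem_range] at hk
    rw [Polynomial.coeff_eq_zero_of_natDegree_lt (by omega : p.natDegree < k), map_zero, zero_mul]

theorem evg_rsc {m : ℕ} (g : Fin m → ℂ → ℂ) (U A : ℕ) (hU : 1 ≤ U) (p : Polynomial (G m))
    (hp : p.natDegree ≤ A) (M : ℂ) :
    evg g M (rsc U A p) = (U : ℂ) ^ A * evg (fun j z => g j ((U : ℂ) * z)) (M / U) p := by
  have hU0 : (U : ℂ) ≠ 0 := by
    have : U ≠ 0 := by omega
    exact_mod_cast this
  rw [evg_eq_sum' g M _ A (natDegree_rsc U A p hp), evg_eq_sum' _ _ p A hp, Finset.mul_sum]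
  apply Finset.sum_congr rfl
  intro k hk
  rw [Finset.mem_range] at hk
  rw [coeff_rsc U A p hp, map_mul]
  have e1 : (U : ℂ) * (M / U) = M := by field_simp
  have e2 : (fun j => g j ((U : ℂ) * (M / U))) = fun j => g j M := by
    funext j; rw [e1]
  simp only [e1]
  have e3 : (MvPolynomial.aeval (fun j => g j M)) (MvPolynomial.C ((U : ℤ) ^ (A - k)) : G m) = (U : ℂ) ^ (A - k) := by
    rw [MvPolynomial.aeval_C]
    simp
  have e4 : (U : ℂ) ^ A * (M / U) ^ k = (U : ℂ) ^ (A - k) * M ^ k := by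
    have : (U : ℂ) ^ A = (U : ℂ) ^ (A - k) * (U : ℂ) ^ k := by
      rw [← pow_add]; congr 1; omega
    rw [this, div_pow]
    field_simp
  rw [e3]
  linear_combination (-(MvPolynomial.aeval (fun j => g j M)) (p.coeff k)) * e4

/-- the number part -/
theorem low_U_of (m : ℕ)
    (hel : ∀ (A E m₀ ν : ℕ) (p : Polynomial (G m)), (E + 1) ^ m ≤ ν → 1 ≤ m₀ → p ≠ 0 → p.natDegree ≤ A →
      (∀ k, (p.coeff k).totalDegree ≤ E) →
      ∃ M : ℕ, m₀ ≤ M ∧ M ≤ m₀ + ν * (A + ν * ((m + 1) * E)) ∧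
        ∀ N : ℕ, 1 ≤ N → (∀ i ≤ ν, N1 (p.eval (((M + i : ℕ) : ℤ) : G m)) ≤ N) →
          ∃ i ≤ ν, 1 / ((ν * ν.factorial * ((M + ν) ^ ((m + 1) * E * ν) * N) ^ (ν + 1) : ℕ) : ℝ) ≤
            ‖evg (ht m) ((M + i : ℕ) : ℂ) p‖) :
    ∃ e : ℕ, 1 ≤ e ∧ ∀ (U A E : ℕ) (h : ℝ), 1 ≤ U → 1 ≤ A → 1 ≤ h → Real.log U ≤ h →
      ∀ p : Polynomial (G m), p ≠ 0 → p.natDegree ≤ A → (∀ k, (p.coeff k).totalDegree ≤ E) →
        (∀ k, (N1 (p.coeff k) : ℝ) ≤ Real.exp h) →
        ∃ M : ℕ, 3 * U ≤ M ∧ (M : ℝ) ≤ U * (e * (A + E + h)) ^ e ∧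
          Real.exp (-(e * (A + E + h)) ^ e) ≤ ‖evg (fun j z => ht m j ((U : ℂ) * z)) ((M : ℂ) / U) p‖ := by
  -- the functions of `S`
  set fn : ℕ → ℕ → ℝ := fun S _ => ((S : ℝ) + 1) ^ m with hfn
  set fb : ℕ → ℕ → ℝ := fun S w => 3 + fn S w * (S + fn S w * (((m : ℝ) + 1) * S)) + fn S w with hfb
  set fN : ℕ → ℕ → ℝ := fun S w => (S + 1) + ((S + 1) * S + 1) + S * (S + fb S w) with hfN
  set fL : ℕ → ℕ → ℝ := fun S w => (S : ℝ) ^ 2 + fn S w + fn S w ^ 2 +
    (fn S w + 1) * (((m : ℝ) + 1) * S * fn S w * (S + fb S w) + fN S w) with hfL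
  have c : ∀ r : ℝ, 0 ≤ r → PB fun _ _ => r := fun r hr => PB.const hr
  have S' : PB fun A _ => (A : ℝ) := PB.varA
  have Pn : PB fn := (S'.add (c 1 (by norm_num))).pow m
  have Pb : PB fb := ((c 3 (by norm_num)).add (Pn.mul (S'.add (Pn.mul ((c ((m : ℝ) + 1) (by positivity)).mul S'))))).add Pn
  have PN : PB fN := ((S'.add (c 1 (by norm_num))).add (((S'.add (c 1 (by norm_num))).mul S').add (c 1 (by norm_num)))).add
    (S'.mul (S'.add Pb))
  have PL : PB fL := (((S'.pow 2).add Pn).add (Pn.pow 2)).add ((Pn.add (c 1 (by norm_num))).mul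
    (((((c ((m : ℝ) + 1) (by positivity)).mul S').mul Pn).mul (S'.add Pb)).add PN))
  obtain ⟨eb, heb, hPb⟩ := Pb
  obtain ⟨eL, heL, hPL⟩ := PL
  refine ⟨2 * eb + 2 * eL, by omega, ?_⟩
  intro U A E h hU hA hh hUh p hp hpA hpE hpN
  set s : ℝ := A + E + h with hs
  set S : ℕ := A + E + ⌈h⌉₊ with hS
  have hA1 : (1:ℝ) ≤ A := by exact_mod_cast hA
  have hE0 : (0:ℝ) ≤ E := Nat.cast_nonneg _
  have hU1 : (1:ℝ) ≤ U := by exact_mod_cast hU
  have hs2 : 2 ≤ s := by rw [hs]; linarith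
  have hSs : (S : ℝ) ≤ 2 * s := by
    rw [hS, hs]; push_cast
    have := (Nat.ceil_lt_add_one (by linarith : (0:ℝ) ≤ h)).le
    linarith
  have hAS : (A : ℝ) ≤ S := by rw [hS]; exact_mod_cast (by omega : A ≤ A + E + ⌈h⌉₊)
  have hES : (E : ℝ) ≤ S := by rw [hS]; exact_mod_cast (by omega : E ≤ A + E + ⌈h⌉₊)
  have hhS : h ≤ S := by
    refine (Nat.le_ceil h).trans ?_
    rw [hS]; exact_mod_cast (by omega : ⌈h⌉₊ ≤ A + E + ⌈h⌉₊)
  have hS1 : 1 ≤ S := by omega
  have hS1' : (1:ℝ) ≤ S := by exact_mod_cast hS1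
  -- from `S` to `s`
  have hconv : ∀ e' : ℕ, 1 ≤ e' → 2 * e' ≤ 2 * eb + 2 * eL →
      ((e' : ℝ) * S * ((1 : ℕ) : ℝ)) ^ e' ≤ (((2 * eb + 2 * eL : ℕ) : ℝ) * s) ^ (2 * eb + 2 * eL) := by
    intro e' he' hle
    have h1 : (e' : ℝ) * S * ((1 : ℕ) : ℝ) ≤ ((2 * eb + 2 * eL : ℕ) : ℝ) * s := by
      have h2 : ((2 * e' : ℕ) : ℝ) ≤ ((2 * eb + 2 * eL : ℕ) : ℝ) := by exact_mod_cast hle
      push_cast at h2 ⊢
      calc (e' : ℝ) * S * 1 ≤ e' * (2 * s) := by rw [mul_one]; gcongr
        _ = (2 * e') * s := by ring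
        _ ≤ (2 * eb + 2 * eL) * s := by gcongr
    have h3 : (1:ℝ) ≤ ((2 * eb + 2 * eL : ℕ) : ℝ) * s := by
      have : (1:ℝ) ≤ ((2 * eb + 2 * eL : ℕ) : ℝ) := by exact_mod_cast (by omega : 1 ≤ 2 * eb + 2 * eL)
      exact one_le_mul_of_one_le_of_one_le this (by linarith)
    calc ((e' : ℝ) * S * ((1 : ℕ) : ℝ)) ^ e' ≤ (((2 * eb + 2 * eL : ℕ) : ℝ) * s) ^ e' := by gcongr
      _ ≤ _ := pow_le_pow_right₀ h3 (by omega)
  have hbS := (hPb S 1 hS1 le_rfl).2.trans (hconv eb heb (by omega))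
  have hLS := (hPL S 1 hS1 le_rfl).2.trans (hconv eL heL (by omega))
  have hb0 := (hPb S 1 hS1 le_rfl).1
  set b : ℝ := fb S 1 with hb
  set n : ℝ := fn S 1 with hn
  have hn1 : 1 ≤ n := by rw [hn, hfn]; exact one_le_pow₀ (by linarith)
  have hbe : b = 3 + n * (S + n * (((m : ℝ) + 1) * S)) + n := by rw [hb, hfb]
  have hb3 : 3 ≤ b := by
    have h1 : 0 ≤ n * (S + n * (((m : ℝ) + 1) * S)) := by positivity
    rw [hbe]; linarith
  -- the point
  set ν : ℕ := (E + 1) ^ m with hν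
  have hνn : (ν : ℝ) ≤ n := by
    rw [hν, hn, hfn]; push_cast
    gcongr
  have hν1 : 1 ≤ ν := Nat.one_le_pow _ _ (by omega)
  have hν1' : (1:ℝ) ≤ ν := by exact_mod_cast hν1
  obtain ⟨M, hM1, hM2, hMN⟩ := hel A E (3 * U) ν (rsc U A p) le_rfl (by omega) (rsc_ne_zero U A hU p hpA hp)
    (natDegree_rsc U A p hpA) (totalDegree_rsc U A E p hpA hpE)
  have hMν : ((M + ν : ℕ) : ℝ) ≤ U * b := by
    have h1 : ((M + ν : ℕ) : ℝ) ≤ 3 * U + ν * (A + ν * ((m + 1) * E)) + ν := by
      have : M + ν ≤ 3 * U + ν * (A + ν * ((m + 1) * E)) + ν := by omega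
      exact_mod_cast this
    have h2 : (ν : ℝ) * (A + ν * ((m + 1) * E)) ≤ n * (S + n * (((m : ℝ) + 1) * S)) := by gcongr
    have h3 : (0:ℝ) ≤ n * (S + n * (((m : ℝ) + 1) * S)) := by positivity
    have h4 : n * (S + n * (((m : ℝ) + 1) * S)) + n ≤ U * (n * (S + n * (((m : ℝ) + 1) * S)) + n) :=
      le_mul_of_one_le_left (by linarith) hU1
    calc ((M + ν : ℕ) : ℝ) ≤ 3 * U + (n * (S + n * (((m : ℝ) + 1) * S)) + n) := by linarith
      _ ≤ 3 * U + U * (n * (S + n * (((m : ℝ) + 1) * S)) + n) := by linarith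
      _ = U * b := by rw [hbe]; ring
  have hMpos : (1:ℝ) ≤ ((M + ν : ℕ) : ℝ) := by exact_mod_cast (by omega : 1 ≤ M + ν)
  have hlogM : Real.log ((M + ν : ℕ) : ℝ) ≤ S + b := by
    calc Real.log ((M + ν : ℕ) : ℝ) ≤ Real.log (U * b) := Real.log_le_log (by linarith) hMν
      _ = Real.log U + Real.log b := Real.log_mul (by linarith) (by linarith)
      _ ≤ S + b := add_le_add (hUh.trans hhS) (log_le_self' (by linarith))
  -- the norms
  set Y : ℕ := ⌈Real.exp ((A + 1) * h)⌉₊ with hY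
  have hY1 : 1 ≤ Y := by rw [hY, Nat.one_le_ceil_iff]; exact Real.exp_pos _
  have hYc : ∀ k, N1 ((rsc U A p).coeff k) ≤ Y := by
    intro k
    have h1 : (N1 ((rsc U A p).coeff k) : ℝ) ≤ (U : ℝ) ^ A * N1 (p.coeff k) := by
      exact_mod_cast N1_rsc U A hU p hpA k
    have h2 : (U : ℝ) ≤ Real.exp h := by
      rw [← Real.log_le_iff_le_exp (by linarith)]; exact hUh
    have h3 : (N1 ((rsc U A p).coeff k) : ℝ) ≤ Real.exp ((A + 1) * h) := by
      calc (N1 ((rsc U A p).coeff k) : ℝ) ≤ (U : ℝ) ^ A * N1 (p.coeff k) := h1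
        _ ≤ Real.exp h ^ A * Real.exp h := by gcongr; exact hpN k
        _ = Real.exp ((A + 1) * h) := by rw [← Real.exp_nat_mul, ← Real.exp_add]; congr 1; ring
    have h4 := h3.trans (Nat.le_ceil _)
    rw [← hY] at h4
    exact_mod_cast h4
  have hYe : Real.log (Y : ℝ) ≤ (S + 1) * S + 1 := by
    have h0 : (1:ℝ) ≤ Real.exp ((A + 1) * h) := Real.one_le_exp (by positivity)
    have h1 : (Y : ℝ) ≤ Real.exp ((A + 1) * h + 1) := by
      have h2 : (Y : ℝ) ≤ Real.exp ((A + 1) * h) + 1 := (Nat.ceil_lt_add_one (Real.exp_pos _).le).le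
      have h3 : (2:ℝ) ≤ Real.exp 1 := by
        have := Real.add_one_le_exp (1:ℝ); linarith
      rw [Real.exp_add]
      have h4 : Real.exp ((A + 1) * h) * 2 ≤ Real.exp ((A + 1) * h) * Real.exp 1 :=
        mul_le_mul_of_nonneg_left h3 (Real.exp_pos _).le
      linarith
    have hYpos : (0:ℝ) < Y := by exact_mod_cast hY1
    have h5 : Real.log (Y : ℝ) ≤ (A + 1) * h + 1 := by
      rw [Real.log_le_iff_le_exp hYpos]; exact h1
    have h6 : ((A : ℝ) + 1) * h ≤ (S + 1) * S := by gcongr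
    linarith
  set N : ℕ := (A + 1) * Y * (M + ν) ^ A with hN
  have hN1 : 1 ≤ N := by
    rw [hN]; exact Nat.mul_pos (Nat.mul_pos (by omega) hY1) (pow_pos (by omega) _)
  obtain ⟨i, hi, hlow⟩ := hMN N hN1 (by
    intro i hi
    refine (N1_eval_int_le (rsc U A p) A Y (M + i) (by omega) (natDegree_rsc U A p hpA) hYc).trans ?_
    rw [hN]
    exact Nat.mul_le_mul_left _ (Nat.pow_le_pow_left (by omega) _))
  have hlogN : Real.log (N : ℝ) ≤ (S + 1) + ((S + 1) * S + 1) + S * (S + b) := by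
    have hYpos : (0:ℝ) < Y := by exact_mod_cast hY1
    have h1 : (N : ℝ) = ((A : ℝ) + 1) * Y * ((M + ν : ℕ) : ℝ) ^ A := by rw [hN]; push_cast; ring
    rw [h1, Real.log_mul (by positivity) (by positivity), Real.log_mul (by positivity) (by positivity), Real.log_pow]
    have h2 : Real.log ((A : ℝ) + 1) ≤ S + 1 := (log_le_self' (by linarith)).trans (by linarith)
    have h3 : (A : ℝ) * Real.log ((M + ν : ℕ) : ℝ) ≤ S * (S + b) := by
      have : 0 ≤ Real.log ((M + ν : ℕ) : ℝ) := Real.log_nonneg hMpos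
      gcongr
    linarith
  refine ⟨M + i, by omega, ?_, ?_⟩
  · have h1 : ((M + i : ℕ) : ℝ) ≤ ((M + ν : ℕ) : ℝ) := by exact_mod_cast (by omega : M + i ≤ M + ν)
    refine h1.trans (hMν.trans ?_)
    gcongr
  · have hev := evg_rsc (ht m) U A hU p hpA (((M + i : ℕ) : ℂ))
    rw [hev, norm_mul, norm_pow, Complex.norm_natCast] at hlow
    set Dn : ℕ := ν * ν.factorial * ((M + ν) ^ ((m + 1) * E * ν) * N) ^ (ν + 1) with hDn
    have hDpos : (0:ℝ) < (Dn : ℝ) := by
      have : 0 < Dn := by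
        rw [hDn]
        have h1 := Nat.factorial_pos ν
        have h2 : 0 < M + ν := by omega
        positivity
      exact_mod_cast this
    have hlogD : A * Real.log U + Real.log (Dn : ℝ) ≤ fL S 1 := by
      have hfac : (0:ℝ) < ν.factorial := by exact_mod_cast Nat.factorial_pos ν
      have hNpos : (0:ℝ) < N := by exact_mod_cast hN1
      have h1 : (Dn : ℝ) = ν * ν.factorial * (((M + ν : ℕ) : ℝ) ^ ((m + 1) * E * ν) * N) ^ (ν + 1) := by
        rw [hDn]; push_cast; ring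
      have hMp : (0:ℝ) < ((M + ν : ℕ) : ℝ) := by linarith
      rw [h1, Real.log_mul (by positivity) (by positivity), Real.log_mul (by positivity) (by positivity),
        Real.log_pow, Real.log_mul (by positivity) (by positivity), Real.log_pow]
      have h2 : Real.log (ν : ℝ) ≤ n := (log_le_self' hν1').trans hνn
      have h3 : Real.log (ν.factorial : ℝ) ≤ n ^ 2 := (log_fact_le ν).trans (by gcongr)
      have h4 : (A : ℝ) * Real.log U ≤ (S : ℝ) ^ 2 := by
        have : 0 ≤ Real.log (U : ℝ) := Real.log_nonneg hU1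
        calc (A : ℝ) * Real.log U ≤ S * S := by
              gcongr
              exact hUh.trans hhS
          _ = (S : ℝ) ^ 2 := by ring
      have hlM0 : 0 ≤ Real.log ((M + ν : ℕ) : ℝ) := Real.log_nonneg hMpos
      have hlN0 : 0 ≤ Real.log (N : ℝ) := Real.log_nonneg (by exact_mod_cast hN1)
      have h5 : ((((m + 1) * E * ν : ℕ) : ℝ)) * Real.log ((M + ν : ℕ) : ℝ) ≤
          ((m : ℝ) + 1) * S * n * (S + b) := by
        have hc : (((m + 1) * E * ν : ℕ) : ℝ) ≤ ((m : ℝ) + 1) * S * n := by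
          push_cast
          gcongr
        exact mul_le_mul hc hlogM hlM0 (by positivity)
      have h6 : (((ν + 1 : ℕ) : ℝ)) * ((((m + 1) * E * ν : ℕ) : ℝ) * Real.log ((M + ν : ℕ) : ℝ) + Real.log (N : ℝ)) ≤
          (n + 1) * (((m : ℝ) + 1) * S * n * (S + b) + ((S + 1) + ((S + 1) * S + 1) + S * (S + b))) := by
        have h7 : ((ν + 1 : ℕ) : ℝ) ≤ n + 1 := by push_cast; linarith
        have h8 : 0 ≤ (((m + 1) * E * ν : ℕ) : ℝ) * Real.log ((M + ν : ℕ) : ℝ) + Real.log (N : ℝ) := by positivity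
        exact mul_le_mul h7 (add_le_add h5 hlogN) h8 (by linarith)
      have h9 : fL S 1 = (S : ℝ) ^ 2 + n + n ^ 2 + (n + 1) * (((m : ℝ) + 1) * S * n * (S + b) +
          ((S + 1) + ((S + 1) * S + 1) + S * (S + b))) := by
        rw [hfL]
      rw [h9]
      linarith
    have hUpos : (0:ℝ) < (U : ℝ) ^ A := by positivity
    have h10 : Real.exp (-(fL S 1)) ≤ ‖evg (fun j z => ht m j ((U : ℂ) * z)) (((M + i : ℕ) : ℂ) / U) p‖ := by
      have h11 : 1 / ((U : ℝ) ^ A * Dn) ≤ ‖evg (fun j z => ht m j ((U : ℂ) * z)) (((M + i : ℕ) : ℂ) / U) p‖ := by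
        rw [one_div, mul_inv, ← one_div (Dn : ℝ)]
        calc ((U : ℝ) ^ A)⁻¹ * (1 / (Dn : ℝ)) ≤ ((U : ℝ) ^ A)⁻¹ * ((U : ℝ) ^ A *
              ‖evg (fun j z => ht m j ((U : ℂ) * z)) (((M + i : ℕ) : ℂ) / U) p‖) := by
              gcongr
          _ = _ := by rw [← mul_assoc, inv_mul_cancel₀ hUpos.ne', one_mul]
      refine le_trans ?_ h11
      rw [Real.exp_neg, one_div]
      apply inv_anti₀ (by positivity)
      rw [← Real.log_le_iff_le_exp (by positivity), Real.log_mul (by positivity) (by positivity), Real.log_pow]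
      exact hlogD
    refine le_trans ?_ h10
    apply Real.exp_le_exp.2
    linarith

end Pool.Agent.Lib.MP_524521_nt.RA
end

section
/-!
# The zero estimate for the Hurwitz zeta functions, uniform in the degree and in the interval
(from a lower bound at one point)
-/
open Polynomial

namespace Pool.Agent.Lib.MP_524521_nt.RA

/-- the lower bound at one point `M / U` -/
def LowU (m : ℕ) : Prop := ∃ e : ℕ, 1 ≤ e ∧ ∀ (U A E : ℕ) (h : ℝ), 1 ≤ U → 1 ≤ A → 1 ≤ h →
    Real.log U ≤ h → ∀ p : Polynomial (G m), p ≠ 0 → p.natDegree ≤ A →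
    (∀ k, (p.coeff k).totalDegree ≤ E) → (∀ k, (N1 (p.coeff k) : ℝ) ≤ Real.exp h) →
    ∃ M : ℕ, 3 * U ≤ M ∧ (M : ℝ) ≤ U * (e * (A + E + h)) ^ e ∧
      Real.exp (-(e * (A + E + h)) ^ e) ≤
        ‖evg (fun j z => ht m j ((U : ℂ) * z)) ((M : ℂ) / U) p‖

theorem re_natCast_mul {U : ℕ} (z : ℂ) : ((U : ℂ) * z).re = U * z.re := by
  simp

theorem zuc_of_low (m : ℕ) (hlow : LowU m) : ∃ C : ℕ, 1 ≤ C ∧ ∀ U : ℕ, 1 ≤ U →
    ZUC (fun j z => ht m j ((U : ℂ) * z)) 1 2 C (Real.log U) := by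
  classical
  obtain ⟨e, he, hlowU⟩ := hlow
  obtain ⟨Z, hZ, hbdd⟩ := ht_bdd m (1 / 2) (by norm_num)
  have he1 : (1 : ℝ) ≤ e := by exact_mod_cast he
  obtain ⟨C₀, hC₀⟩ := exists_nat_ge (171 * (Z + 5) * (e : ℝ) ^ (3 * e))
  refine ⟨C₀ + 3 * e + 1, by omega, ?_⟩
  set C : ℕ := C₀ + 3 * e + 1 with hCdef
  intro U hU A E h δ hA hh hUh hδ hδ1 p hp hpA hpE hpN Q hQ hQδ hQs
  set g : Fin m → ℂ → ℂ := fun j z => ht m j ((U : ℂ) * z) with hg
  set S : ℝ := A + E + h with hS
  have hA1 : (1 : ℝ) ≤ A := by exact_mod_cast hA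
  have hE0 : (0 : ℝ) ≤ E := Nat.cast_nonneg _
  have hS2 : 2 ≤ S := by rw [hS]; linarith
  have hUR : (1 : ℝ) ≤ U := by exact_mod_cast hU
  have hU0 : (0 : ℝ) < U := by linarith
  have hUC : (U : ℂ) ≠ 0 := by
    exact_mod_cast (by omega : U ≠ 0)
  obtain ⟨M, hM1, hM2, hM3⟩ := hlowU U A E h hU hA hh hUh p hp hpA hpE hpN
  set P : ℝ := (e * S) ^ e with hP
  have heS : 2 ≤ (e : ℝ) * S := by nlinarith
  have hP2 : 2 ≤ P := by
    rw [hP]
    calc (2 : ℝ) ≤ e * S := heS
      _ ≤ (e * S) ^ e := le_self_pow₀ (by linarith) (by omega)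
  -- the main constant
  have hCS : 171 * (Z + 5) * S * P ^ 3 ≤ (C * S) ^ C := by
    have hC1 : (1 : ℝ) ≤ C := by exact_mod_cast (by omega : 1 ≤ C)
    have h1 : 171 * (Z + 5) * (e : ℝ) ^ (3 * e) ≤ C := by
      refine hC₀.trans ?_
      exact_mod_cast (by omega : C₀ ≤ C)
    have h2 : P ^ 3 = (e : ℝ) ^ (3 * e) * S ^ (3 * e) := by
      rw [hP, ← pow_mul, mul_pow, mul_comm e 3]
    calc 171 * (Z + 5) * S * P ^ 3 = (171 * (Z + 5) * (e : ℝ) ^ (3 * e)) * S ^ (3 * e + 1) := by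
          rw [h2]; ring
      _ ≤ C * S ^ (3 * e + 1) := mul_le_mul_of_nonneg_right h1 (by positivity)
      _ ≤ (C : ℝ) ^ C * S ^ C := by
          apply mul_le_mul
          · exact le_self_pow₀ hC1 (by omega)
          · exact pow_le_pow_right₀ (by linarith) (by omega)
          · positivity
          · positivity
      _ = (C * S) ^ C := (mul_pow _ _ _).symm
  set Λ : ℝ := (Z + 5) * S * P with hΛ
  have hΛP : P ≤ Λ := by
    rw [hΛ]
    have : 1 ≤ (Z + 5) * S := one_le_mul_of_one_le_of_one_le (by linarith) (by linarith)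
    nlinarith
  have hΛ1 : 1 ≤ Λ := by linarith
  -- the centre
  set M₁ : ℝ := (M : ℝ) / U + 1 with hM₁
  have hMU : (3 : ℝ) ≤ (M : ℝ) / U := by
    rw [le_div_iff₀ hU0]
    exact_mod_cast hM1
  have hM₁4 : 4 ≤ M₁ := by rw [hM₁]; linarith
  have hM₁P : M₁ ≤ 2 * P := by
    have : (M : ℝ) / U ≤ P := by
      rw [div_le_iff₀ hU0, mul_comm]
      exact hM2
    rw [hM₁]; linarith
  set f : ℂ → ℂ := fun z => evg g (z - 1) p with hf
  have hfd : DifferentiableOn ℂ f {z | 1 < z.re} := by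
    have h1 : DifferentiableOn ℂ (fun z => evg g z p) {z | 0 < z.re} := by
      refine differentiableOn_evg g _ (fun j => ?_) p
      have h2 : DifferentiableOn ℂ (fun z : ℂ => (U : ℂ) * z) {z | 0 < z.re} :=
        (differentiable_id.const_mul _).differentiableOn
      have h3 : DifferentiableOn ℂ (ht m j) {z | 0 < z.re} := hz_diff _ (by omega)
      refine h3.comp h2 (fun z hz => ?_)
      simp only [Set.mem_ofPred_eq] at hz ⊢
      rw [re_natCast_mul z]; positivity
    have h2 : DifferentiableOn ℂ (fun z : ℂ => z - 1) {z | 1 < z.re} :=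
      (differentiable_id.sub_const 1).differentiableOn
    exact h1.comp h2 (fun z hz => by
      simp only [Set.mem_ofPred_eq, Complex.sub_re, Complex.one_re] at hz ⊢; linarith)
  have hsup : ∀ z ∈ Metric.closedBall (M₁ : ℂ) (M₁ - (1 + 2) / 2), ‖f z‖ ≤ Real.exp Λ := by
    intro z hz
    rw [Metric.mem_closedBall, dist_eq_norm] at hz
    have hre : 1 / 2 ≤ (z - 1).re := by
      have h1 : |(z - M₁).re| ≤ ‖z - M₁‖ := Complex.abs_re_le_norm _
      have h2 := neg_abs_le (z - M₁).re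
      simp only [Complex.sub_re, Complex.ofReal_re, Complex.one_re] at h1 h2 ⊢
      linarith
    have hnm : ‖z - 1‖ ≤ 2 * M₁ := by
      have h1 : ‖z - 1‖ ≤ ‖z - M₁‖ + ‖(M₁ : ℂ) - 1‖ := by
        have : z - 1 = (z - M₁) + ((M₁ : ℂ) - 1) := by ring
        rw [this]; exact norm_add_le _ _
      have h2 : ‖(M₁ : ℂ) - 1‖ = M₁ - 1 := by
        have : (M₁ : ℂ) - 1 = ((M₁ - 1 : ℝ) : ℂ) := by push_cast; ring
        rw [this, Complex.norm_real, Real.norm_of_nonneg (by linarith)]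
      rw [h2] at h1
      linarith
    have h3 := norm_evg_le g (z - 1) Z (2 * M₁) (Real.exp h) hZ (by linarith)
      (fun j => hbdd _ (by
        rw [re_natCast_mul (z - 1)]
        nlinarith) j) hnm p A E hpA hpE hpN
    refine h3.trans ?_
    have e1 : ((A : ℝ) + 1) ≤ Real.exp A := Real.add_one_le_exp _
    have e2 : Z ^ E ≤ Real.exp (E * Z) := by
      calc Z ^ E ≤ Real.exp Z ^ E :=
            pow_le_pow_left₀ (by linarith) (by have := Real.add_one_le_exp Z; linarith) _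
        _ = Real.exp (E * Z) := by rw [← Real.exp_nat_mul]
    have e3 : (2 * M₁) ^ A ≤ Real.exp (A * (4 * P)) := by
      calc (2 * M₁) ^ A ≤ Real.exp (4 * P) ^ A := by
            apply pow_le_pow_left₀ (by linarith)
            have := Real.add_one_le_exp (4 * P)
            linarith
        _ = Real.exp (A * (4 * P)) := by rw [← Real.exp_nat_mul]
    calc ((A : ℝ) + 1) * Real.exp h * Z ^ E * (2 * M₁) ^ A
        ≤ Real.exp A * Real.exp h * Real.exp (E * Z) * Real.exp (A * (4 * P)) := by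
          gcongr
      _ = Real.exp (A + h + E * Z + A * (4 * P)) := by
          rw [← Real.exp_add, ← Real.exp_add, ← Real.exp_add]
      _ ≤ Real.exp Λ := by
          apply Real.exp_le_exp.2
          have f1 : (A : ℝ) + h ≤ S := by rw [hS]; linarith
          have f2 : (E : ℝ) * Z ≤ S * Z := mul_le_mul_of_nonneg_right (by rw [hS]; linarith) (by linarith)
          have f3 : (A : ℝ) * (4 * P) ≤ S * (4 * P) :=
            mul_le_mul_of_nonneg_right (by rw [hS]; linarith) (by linarith)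
          have f4 : S * 1 ≤ S * P := mul_le_mul_of_nonneg_left (by linarith) (by linarith)
          have f5 : S * Z * 1 ≤ S * Z * P := mul_le_mul_of_nonneg_left (by linarith) (by positivity)
          have f6 : Λ = S * P + S * Z * P + S * (4 * P) := by rw [hΛ]; ring
          rw [f6]
          linarith
  have hlow3 : Real.exp (-Λ) ≤ ‖f M₁‖ := by
    have h1 : (M₁ : ℂ) - 1 = (M : ℂ) / U := by rw [hM₁]; push_cast; ring
    rw [hf]; simp only; rw [h1]
    refine le_trans ?_ hM3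
    exact Real.exp_le_exp.2 (neg_le_neg hΛP)
  -- the number of points
  by_contra hcard
  push Not at hcard
  set q : ℕ := ⌈2 * M₁ * (2 * Λ + 1)⌉₊ with hq
  have hS0 : 0 ≤ S := by linarith
  have hΛ0 : 0 ≤ Λ := by linarith
  have hP0 : 0 ≤ P := by linarith
  have hqle : (q : ℝ) ≤ 13 * (P * Λ) := by
    have h1 : (q : ℝ) ≤ 2 * M₁ * (2 * Λ + 1) + 1 :=
      (Nat.ceil_lt_add_one (by positivity)).le
    have h2 : 2 * M₁ * (2 * Λ + 1) ≤ 2 * (2 * P) * (3 * Λ) := by
      apply mul_le_mul _ (by linarith) (by linarith) (by positivity)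
      linarith
    have h3 : 1 ≤ P * Λ := one_le_mul_of_one_le_of_one_le (by linarith) hΛ1
    linarith
  have hq1 : 1 ≤ q := by
    rw [hq, Nat.one_le_ceil_iff]; positivity
  have hqC : (q : ℝ) ≤ (C * S) ^ C := by
    refine hqle.trans (le_trans ?_ hCS)
    have h1 : 13 * (P * Λ) = 13 * (Z + 5) * S * P ^ 2 * 1 := by rw [hΛ]; ring
    have h2 : 171 * (Z + 5) * S * P ^ 3 = 171 * (Z + 5) * S * P ^ 2 * P := by ring
    rw [h1, h2]
    have h3 : 0 ≤ (Z + 5) * S * P ^ 2 := by positivity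
    nlinarith
  have hqQ : q ≤ Q.card := by
    have : (q : ℝ) < Q.card := lt_of_le_of_lt hqC hcard
    exact_mod_cast this.le
  obtain ⟨Q₁, hQ₁, hQ₁c⟩ := Finset.exists_subset_card_eq hqQ
  set Q₂ : Finset ℝ := Q₁.image (fun x => x + 1) with hQ₂
  have hQ₂c : Q₂.card = q := by
    rw [hQ₂, Finset.card_image_of_injective _ (fun x y h => by simpa using h), hQ₁c]
  set ℓ : ℝ := Real.log (2 / δ) with hℓ
  have hℓ1 : 1 ≤ 2 * ℓ := by
    have h1 : Real.log 2 ≤ ℓ := by
      rw [hℓ]; apply Real.log_le_log (by norm_num)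
      rw [le_div_iff₀ hδ]; linarith
    have := Real.log_two_gt_d9
    linarith
  set κ : ℝ := Real.exp (-((C * S) ^ C * ℓ)) with hκ
  -- the upper bound in `few_small`
  have hUb : κ < Real.exp (-Λ) * (δ / (2 * M₁)) ^ q / (4 * q) := by
    have hq0r : (0 : ℝ) < q := by exact_mod_cast hq1
    have hδM : 0 < δ / (2 * M₁) := by positivity
    have hlogδ : Real.log (δ / (2 * M₁)) = -(ℓ + Real.log M₁) := by
      rw [hℓ, Real.log_div hδ.ne' (by positivity), Real.log_div (by norm_num) hδ.ne',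
        Real.log_mul (by norm_num) (by linarith)]
      ring
    have h1 : (δ / (2 * M₁)) ^ q = Real.exp (-(q * (ℓ + Real.log M₁))) := by
      rw [← Real.exp_log hδM, ← Real.exp_nat_mul, hlogδ]
      congr 1; ring
    have h2 : (4 : ℝ) * q < Real.exp (4 * q) := by
      have := Real.add_one_le_exp (4 * (q : ℝ)); linarith
    have h3 : Real.exp (-(4 * (q : ℝ))) < 1 / (4 * q) := by
      rw [Real.exp_neg, ← one_div]
      exact one_div_lt_one_div_of_lt (by positivity) h2
    have hlogM : Real.log M₁ ≤ 2 * P := by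
      have := Real.log_le_sub_one_of_pos (by linarith : 0 < M₁); linarith
    have hℓ0 : 0 ≤ ℓ := by linarith
    have h4 : Λ + q * (ℓ + Real.log M₁) + 4 * q ≤ (C * S) ^ C * ℓ := by
      have e1 : Real.log M₁ ≤ 4 * P * ℓ := by
        calc Real.log M₁ ≤ 2 * P * 1 := by linarith
          _ ≤ 2 * P * (2 * ℓ) := mul_le_mul_of_nonneg_left hℓ1 (by linarith)
          _ = 4 * P * ℓ := by ring
      have e2 : (q : ℝ) * (ℓ + Real.log M₁) ≤ 13 * (P * Λ) * ((1 + 4 * P) * ℓ) := by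
        apply mul_le_mul hqle _ _ (by positivity)
        · linarith
        · have : 0 ≤ Real.log M₁ := Real.log_nonneg (by linarith)
          linarith
      have e3 : 4 * (q : ℝ) ≤ 13 * (P * Λ) * (8 * ℓ) := by
        calc 4 * (q : ℝ) ≤ 4 * (13 * (P * Λ)) * 1 := by linarith
          _ ≤ 4 * (13 * (P * Λ)) * (2 * ℓ) := mul_le_mul_of_nonneg_left hℓ1 (by positivity)
          _ = 13 * (P * Λ) * (8 * ℓ) := by ring
      have e4 : Λ ≤ Λ * (2 * ℓ) := by nlinarith
      have e5 : Λ + q * (ℓ + Real.log M₁) + 4 * q ≤ (2 * Λ + 13 * (P * Λ) * (9 + 4 * P)) * ℓ := by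
        have : (2 * Λ + 13 * (P * Λ) * (9 + 4 * P)) * ℓ =
          Λ * (2 * ℓ) + 13 * (P * Λ) * ((1 + 4 * P) * ℓ) + 13 * (P * Λ) * (8 * ℓ) := by ring
        rw [this]
        linarith
      refine e5.trans (mul_le_mul_of_nonneg_right (le_trans ?_ hCS) hℓ0)
      have e6 : 2 * Λ + 13 * (P * Λ) * (9 + 4 * P) = (Z + 5) * S * (2 * P + 117 * P ^ 2 + 52 * P ^ 3) := by
        rw [hΛ]; ring
      have e7 : 171 * (Z + 5) * S * P ^ 3 = (Z + 5) * S * (171 * P ^ 3) := by ring
      rw [e6, e7]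
      apply mul_le_mul_of_nonneg_left _ (by positivity)
      have e8 : 2 * P ^ 2 ≤ P ^ 3 := by
        have : P ^ 3 = P * P ^ 2 := by ring
        rw [this]
        exact mul_le_mul_of_nonneg_right hP2 (by positivity)
      have e9 : 4 * P ≤ P ^ 3 := by nlinarith
      linarith
    calc κ ≤ Real.exp (-(Λ + q * (ℓ + Real.log M₁) + 4 * q)) := by
          rw [hκ]; apply Real.exp_le_exp.2; linarith
      _ = Real.exp (-Λ) * Real.exp (-(q * (ℓ + Real.log M₁))) * Real.exp (-(4 * (q : ℝ))) := by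
          rw [← Real.exp_add, ← Real.exp_add]; ring_nf
      _ < Real.exp (-Λ) * Real.exp (-(q * (ℓ + Real.log M₁))) * (1 / (4 * q)) :=
          mul_lt_mul_of_pos_left h3 (by positivity)
      _ = Real.exp (-Λ) * (δ / (2 * M₁)) ^ q / (4 * q) := by rw [h1]; ring
  obtain ⟨δ', hδ'1, hδ'2⟩ := exists_between hUb
  obtain ⟨x, hx, hxδ⟩ := few_small (a := 2) (b := 3) (M := M₁) (Λ := Λ) (τ := δ)
    (δ := δ') (by norm_num) (by norm_num) (by linarith) hΛ1 f hfd hsup hlow3 hδ hδ1 Q₂ (by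
      intro x hx
      obtain ⟨y, hy, rfl⟩ := Finset.mem_image.1 hx
      have := hQ y (hQ₁ hy)
      constructor <;> linarith [this.1, this.2]) (by
      intro x hx y hy hxy
      obtain ⟨x', hx', rfl⟩ := Finset.mem_image.1 hx
      obtain ⟨y', hy', rfl⟩ := Finset.mem_image.1 hy
      have h1 := hQδ x' (hQ₁ hx') y' (hQ₁ hy') (fun h => hxy (by rw [h]))
      have : x' + 1 - (y' + 1) = x' - y' := by ring
      rw [this]; exact h1) (by
      rw [hQ₂c, hq]
      have : 2 * M₁ * (2 * Λ + 1) / (2 - 1) = 2 * M₁ * (2 * Λ + 1) := by norm_num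
      rw [this]
      exact Nat.le_ceil _) (by rw [hQ₂c]; exact hδ'2)
  obtain ⟨y, hy, rfl⟩ := Finset.mem_image.1 hx
  have h1 := hQs y (hQ₁ hy)
  have h2 : f ((y + 1 : ℝ) : ℂ) = evg g y p := by
    rw [hf]; simp only; congr 2; push_cast; ring
  rw [h2] at hxδ
  linarith

end Pool.Agent.Lib.MP_524521_nt.RA
end

section
/-! An analytic function which is bounded on a disc and not too small at its centre (a complex
number) is not too small at one of many separated real points near the centre. -/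
open Complex Metric ComplexConjugate

namespace Pool.Agent.Lib.MP_524521_nt.RA

theorem few_disc {R Λ τ δ : ℝ} {c : ℂ} (hR : 0 < R) (hR1 : R ≤ 1) (hΛ : 1 ≤ Λ)
    (f : ℂ → ℂ) {V : Set ℂ} (hV : IsOpen V) (hRV : closedBall c R ⊆ V)
    (hf : DifferentiableOn ℂ f V)
    (hsup : ∀ z ∈ closedBall c R, ‖f z‖ ≤ Real.exp Λ)
    (hlow : Real.exp (-Λ) ≤ ‖f c‖) (hτ : 0 < τ) (hτ1 : τ ≤ 1)
    (Q : Finset ℝ) (hQ : ∀ x ∈ Q, ‖(x : ℂ) - c‖ ≤ R / 2)
    (hQτ : ∀ x ∈ Q, ∀ y ∈ Q, x ≠ y → τ ≤ |x - y|)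
    (hq : 4 * (2 * Λ + 1) ≤ Q.card)
    (hδ : δ < Real.exp (-Λ) * (τ / 2) ^ Q.card / (4 * Q.card)) :
    ∃ x ∈ Q, δ ≤ ‖f x‖ := by
  classical
  by_contra hcon
  push Not at hcon
  have hqpos' : (0 : ℝ) < Q.card := by linarith
  have hqpos : 0 < Q.card := by exact_mod_cast hqpos'
  -- interpolation
  set E : ℂ → ℂ := fun z => ∑ x ∈ Q, f x * ∏ l ∈ Q.erase x, ((z - l) / ((x : ℂ) - l)) with hE
  have hEbound : ∀ z : ℂ, ‖z - c‖ ≤ R → ‖E z‖ ≤ Real.exp (-Λ) / 4 := by
    intro z hz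
    have hterm : ∀ x ∈ Q, ‖f x * ∏ l ∈ Q.erase x, ((z - l) / ((x : ℂ) - l))‖ ≤
        δ * (2 / τ) ^ (Q.card - 1) := by
      intro x hx
      rw [norm_mul]
      have h1 : ‖∏ l ∈ Q.erase x, ((z - l) / ((x : ℂ) - l))‖ ≤ (2 / τ) ^ (Q.card - 1) := by
        rw [norm_prod, ← Finset.card_erase_of_mem hx, ← Finset.prod_const]
        apply Finset.prod_le_prod
        · intro l _
          exact norm_nonneg _
        intro l hl
        rw [Finset.mem_erase] at hl
        rw [norm_div]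
        have hl2 := hQ l hl.2
        have h3 : ‖z - l‖ ≤ 2 := by
          calc ‖z - l‖ = ‖(z - c) + (c - l)‖ := by ring_nf
            _ ≤ ‖z - c‖ + ‖c - l‖ := norm_add_le _ _
            _ ≤ R + R / 2 := by
                apply add_le_add hz
                rw [norm_sub_rev]
                exact hl2
            _ ≤ 2 := by linarith
        have h4 : τ ≤ ‖(x : ℂ) - l‖ := by
          rw [← Complex.ofReal_sub, Complex.norm_real, Real.norm_eq_abs]
          exact hQτ x hx l hl.2 (fun h => hl.1 h.symm)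
        exact div_le_div₀ (by positivity) h3 hτ h4
      exact mul_le_mul (hcon x hx).le h1 (norm_nonneg _)
        (le_trans (norm_nonneg _) (hcon x hx).le)
    have hsum : ‖E z‖ ≤ Q.card * (δ * (2 / τ) ^ (Q.card - 1)) := by
      simp only [hE]
      refine (norm_sum_le _ _).trans ?_
      refine (Finset.sum_le_card_nsmul _ _ _ hterm).trans ?_
      rw [nsmul_eq_mul]
    refine hsum.trans ?_
    have hpow : (0 : ℝ) < (2 / τ) ^ (Q.card - 1) := by positivity
    have h5 : (Q.card : ℝ) * (δ * (2 / τ) ^ (Q.card - 1)) ≤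
        Q.card * ((Real.exp (-Λ) * (τ / 2) ^ Q.card / (4 * Q.card)) *
          (2 / τ) ^ (Q.card - 1)) := by
      apply mul_le_mul_of_nonneg_left _ hqpos'.le
      apply mul_le_mul_of_nonneg_right hδ.le hpow.le
    refine h5.trans ?_
    have h6 : (τ / 2) ^ Q.card * (2 / τ) ^ (Q.card - 1) = τ / 2 := by
      obtain ⟨k, hk⟩ : ∃ k, Q.card = k + 1 := ⟨Q.card - 1, by omega⟩
      rw [hk, Nat.add_sub_cancel, pow_succ, mul_right_comm, ← mul_pow]
      have : τ / 2 * (2 / τ) = 1 := by field_simp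
      rw [this, one_pow, one_mul]
    have h7 : (Q.card : ℝ) * ((Real.exp (-Λ) * (τ / 2) ^ Q.card / (4 * Q.card)) *
          (2 / τ) ^ (Q.card - 1)) = Real.exp (-Λ) / 4 * (τ / 2) := by
      calc (Q.card : ℝ) * ((Real.exp (-Λ) * (τ / 2) ^ Q.card / (4 * Q.card)) *
          (2 / τ) ^ (Q.card - 1)) = ((Q.card : ℝ) / Q.card) * (Real.exp (-Λ) / 4 *
          ((τ / 2) ^ Q.card * (2 / τ) ^ (Q.card - 1))) := by ring
        _ = _ := by rw [h6, div_self hqpos'.ne', one_mul]
    rw [h7]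
    have h9 : 0 ≤ Real.exp (-Λ) / 4 := by positivity
    nlinarith
  set F : ℂ → ℂ := fun z => f z - E z with hFdef
  have hEd : Differentiable ℂ E := by
    simp only [hE]
    apply Differentiable.fun_sum
    intro x _
    apply Differentiable.const_mul
    apply Differentiable.fun_finsetProd
    intro l _
    exact (differentiable_id.sub_const _).div_const _
  have hFd : DifferentiableOn ℂ F V := hf.sub hEd.differentiableOn
  have hFK : ∀ z, ‖z - c‖ = R → ‖F z‖ ≤ Real.exp Λ + Real.exp (-Λ) / 4 := by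
    intro z hz
    refine (norm_sub_le _ _).trans ?_
    apply add_le_add
    · apply hsup
      rw [mem_closedBall, dist_eq_norm, hz]
    · exact hEbound z hz.le
  have hEx : ∀ x ∈ Q, E x = f x := by
    intro x hx
    simp only [hE]
    rw [Finset.sum_eq_single x]
    · rw [Finset.prod_eq_one, mul_one]
      intro l hl
      rw [Finset.mem_erase] at hl
      apply div_self
      rw [sub_ne_zero]
      intro h
      exact hl.1 (by exact_mod_cast h.symm)
    · intro y hy hyx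
      have : ∏ l ∈ Q.erase y, (((x : ℂ) - l) / ((y : ℂ) - l)) = 0 := by
        apply Finset.prod_eq_zero (i := x)
        · rw [Finset.mem_erase]
          exact ⟨fun h => hyx h.symm, hx⟩
        · simp
      rw [this, mul_zero]
    · intro h
      exact absurd hx h
  have hinj : Set.InjOn (fun x : ℝ => (x : ℂ)) Q := by
    intro x _ y _ h
    exact Complex.ofReal_injective h
  have hB := blaschke (c := c) hR hV hRV (Q.image (fun x : ℝ => (x : ℂ))) (by
      intro z hz
      rw [Finset.mem_image] at hz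
      obtain ⟨x, hx, rfl⟩ := hz
      rw [mem_ball, dist_eq_norm]
      have := hQ x hx
      linarith) F hFd hFK (by
      intro z hz
      rw [Finset.mem_image] at hz
      obtain ⟨x, hx, rfl⟩ := hz
      simp only [hFdef]
      rw [hEx x hx, sub_self])
  rw [Finset.prod_image hinj] at hB
  have hprod : ∏ x ∈ Q, (‖(x : ℂ) - c‖ / R) ≤ Real.exp (-(2 * Λ + 1)) := by
    have h1 : ∏ x ∈ Q, (‖(x : ℂ) - c‖ / R) ≤ (Real.exp (-(1 / 4))) ^ Q.card := by
      rw [← Finset.prod_const]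
      apply Finset.prod_le_prod
      · intro x hx
        positivity
      · intro x hx
        have h2 : ‖(x : ℂ) - c‖ / R ≤ 1 / 2 := by
          rw [div_le_iff₀ hR]
          have := hQ x hx
          linarith
        refine h2.trans ?_
        have := Real.add_one_le_exp (-(1 / 4 : ℝ))
        linarith
    refine h1.trans ?_
    rw [← Real.exp_nat_mul]
    apply Real.exp_le_exp.2
    linarith
  have hfM : Real.exp (-Λ) ≤ ‖F c‖ + Real.exp (-Λ) / 4 := by
    have h1 : ‖f c‖ ≤ ‖F c‖ + ‖E c‖ := by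
      have : f c = F c + E c := by simp [hFdef]
      rw [this]
      exact norm_add_le _ _
    have h2 : ‖E c‖ ≤ Real.exp (-Λ) / 4 := hEbound c (by simpa using hR.le)
    linarith
  have hB2 : ‖F c‖ ≤ (Real.exp Λ + Real.exp (-Λ) / 4) * Real.exp (-(2 * Λ + 1)) := by
    refine hB.trans ?_
    apply mul_le_mul_of_nonneg_left hprod
    positivity
  have h10 : (Real.exp Λ + Real.exp (-Λ) / 4) * Real.exp (-(2 * Λ + 1)) ≤
      5 / 4 * (Real.exp (-Λ) * Real.exp (-1)) := by
    have e1 : Real.exp Λ * Real.exp (-(2 * Λ + 1)) = Real.exp (-Λ) * Real.exp (-1) := by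
      rw [← Real.exp_add, ← Real.exp_add]
      ring_nf
    have e2 : Real.exp (-(2 * Λ + 1)) ≤ Real.exp (-1) := by
      apply Real.exp_le_exp.2
      linarith
    have e3 : 0 < Real.exp (-Λ) := Real.exp_pos _
    nlinarith
  have h11 : Real.exp (-1) < 2 / 5 := by
    have h12 : (5 : ℝ) / 2 < Real.exp 1 := by
      have := Real.exp_one_gt_d9
      linarith
    rw [Real.exp_neg]
    rw [inv_lt_comm₀ (Real.exp_pos _) (by norm_num)]
    norm_num
    linarith
  have e3 : 0 < Real.exp (-Λ) := Real.exp_pos _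
  nlinarith

end Pool.Agent.Lib.MP_524521_nt.RA
end
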