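import Mathlib

/-!
# Asymptotic expansions in `1 / x` with rational coefficients

The real functions `x ↦ ∑ n, (x + n)^(-k)`, `k ≥ 2`, have asymptotic expansions in powers of `1 / x`
with rational coefficients.
-/

open Polynomial

namespace Pool.Agent.Lib.MP_524521_nt.RA.As

/-- `1 / (x (x + 1) ⋯ (x + j - 1))` -/
noncomputable def pj (j : ℕ) (x : ℝ) : ℝ := (∏ i ∈ Finset.range j, (x + i))⁻¹

theorem prod_pos {x : ℝ} (hx : 0 < x) (j : ℕ) : 0 < ∏ i ∈ Finset.range j, (x + i) :=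
  Finset.prod_pos fun i _ => by positivity

theorem pj_pos {x : ℝ} (hx : 0 < x) (j : ℕ) : 0 < pj j x := inv_pos.2 (prod_pos hx j)

theorem pj_zero (x : ℝ) : pj 0 x = 1 := by simp [pj]

theorem pj_one (x : ℝ) : pj 1 x = 1 / x := by simp [pj]

theorem pj_eq {x : ℝ} (hx : 0 < x) (j : ℕ) : pj j x = (x + j) * pj (j + 1) x := by
  have h1 := (prod_pos hx j).ne'
  have h2 : x + j ≠ 0 := by positivity
  unfold pj
  rw [Finset.prod_range_succ]
  field_simp

theorem pj_shift {x : ℝ} (hx : 0 < x) (j : ℕ) : pj j (x + 1) = x * pj (j + 1) x := by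
  have h1 := (prod_pos (x := x + 1) (by linarith) j).ne'
  unfold pj
  rw [Finset.prod_range_succ']
  have h3 : ∏ k ∈ Finset.range j, (x + ((k + 1 : ℕ) : ℝ)) = ∏ i ∈ Finset.range j, (x + 1 + i) := by
    apply Finset.prod_congr rfl
    intro i _
    push_cast; ring
  rw [h3]
  field_simp
  simp

theorem pj_sub {x : ℝ} (hx : 0 < x) (j : ℕ) : pj j x - pj j (x + 1) = j * pj (j + 1) x := by
  rw [pj_shift hx, pj_eq hx]; ring

theorem pj_div {x : ℝ} (hx : 0 < x) (j i : ℕ) :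
    pj j x / x ^ (i + 1) = pj (j + 1) x / x ^ i + j * (pj (j + 1) x / x ^ (i + 1)) := by
  rw [pj_eq hx]
  field_simp
  ring

theorem pj_le {x : ℝ} (hx : 0 < x) (j : ℕ) : pj j x ≤ 1 / x ^ j := by
  unfold pj
  rw [one_div]
  apply inv_anti₀ (by positivity)
  calc x ^ j = ∏ _i ∈ Finset.range j, x := by simp
    _ ≤ ∏ i ∈ Finset.range j, (x + i) := by
        apply Finset.prod_le_prod
        · intro i _; exact hx.le
        · intro i _
          have : (0 : ℝ) ≤ i := Nat.cast_nonneg i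
          linarith

theorem pj_le_one {x : ℝ} (hx : 1 ≤ x) (j : ℕ) : pj j x ≤ 1 := by
  refine (pj_le (by linarith) j).trans ?_
  rw [div_le_one (by positivity)]
  exact one_le_pow₀ hx

/-- `f` is a rational combination of the `pj j`, `2 ≤ j ≤ N`, up to `O(x^(-N-1))` -/
def VN (N : ℕ) (f : ℝ → ℝ) : Prop :=
  ∃ (a : ℕ → ℚ) (C : ℝ), 0 ≤ C ∧ ∀ x : ℝ, 1 ≤ x →
    |f x - ∑ j ∈ Finset.Icc 2 N, (a j : ℝ) * pj j x| ≤ C / x ^ (N + 1)

theorem VN.add {N : ℕ} {f g : ℝ → ℝ} (hf : VN N f) (hg : VN N g) : VN N (fun x => f x + g x) := by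
  obtain ⟨a, C, hC, h⟩ := hf
  obtain ⟨b, C', hC', h'⟩ := hg
  refine ⟨fun j => a j + b j, C + C', by linarith, fun x hx => ?_⟩
  have h1 : ∑ j ∈ Finset.Icc 2 N, (((a j + b j : ℚ)) : ℝ) * pj j x =
      (∑ j ∈ Finset.Icc 2 N, (a j : ℝ) * pj j x) + ∑ j ∈ Finset.Icc 2 N, (b j : ℝ) * pj j x := by
    rw [← Finset.sum_add_distrib]
    apply Finset.sum_congr rfl
    intro j _
    push_cast; ring
  rw [h1, add_div]
  refine le_trans ?_ (add_le_add (h x hx) (h' x hx))
  rw [show f x + g x - ((∑ j ∈ Finset.Icc 2 N, (a j : ℝ) * pj j x) +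
      ∑ j ∈ Finset.Icc 2 N, (b j : ℝ) * pj j x) =
      (f x - ∑ j ∈ Finset.Icc 2 N, (a j : ℝ) * pj j x) +
      (g x - ∑ j ∈ Finset.Icc 2 N, (b j : ℝ) * pj j x) by ring]
  exact abs_add_le _ _

theorem VN.const_mul {N : ℕ} {f : ℝ → ℝ} (hf : VN N f) (c : ℕ) : VN N (fun x => c * f x) := by
  obtain ⟨a, C, hC, h⟩ := hf
  refine ⟨fun j => c * a j, c * C, by positivity, fun x hx => ?_⟩
  have h1 : ∑ j ∈ Finset.Icc 2 N, (((c * a j : ℚ)) : ℝ) * pj j x =
      c * ∑ j ∈ Finset.Icc 2 N, (a j : ℝ) * pj j x := by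
    rw [Finset.mul_sum]
    apply Finset.sum_congr rfl
    intro j _
    push_cast; ring
  rw [h1, ← mul_sub, abs_mul, abs_of_nonneg (Nat.cast_nonneg c : (0:ℝ) ≤ c), mul_div_assoc]
  exact mul_le_mul_of_nonneg_left (h x hx) (Nat.cast_nonneg c)

theorem VN.congr {N : ℕ} {f g : ℝ → ℝ} (hf : VN N f) (h : ∀ x : ℝ, 1 ≤ x → g x = f x) :
    VN N g := by
  obtain ⟨a, C, hC, h'⟩ := hf
  exact ⟨a, C, hC, fun x hx => by rw [h x hx]; exact h' x hx⟩

theorem VN_pj (N : ℕ) : ∀ d j i : ℕ, N + 1 - j ≤ d → 2 ≤ i + j →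
    VN N (fun x => pj j x / x ^ i) := by
  intro d
  induction d with
  | zero =>
    intro j i hd _
    have hj : N + 1 ≤ j := by omega
    refine ⟨fun _ => 0, 1, by norm_num, fun x hx => ?_⟩
    have hx0 : 0 < x := by linarith
    simp only [Rat.cast_zero, zero_mul, Finset.sum_const_zero, sub_zero]
    rw [abs_of_nonneg (by have := pj_pos hx0 j; positivity)]
    calc pj j x / x ^ i ≤ (1 / x ^ j) / x ^ i := by
          have := pj_le hx0 j
          gcongr
      _ = 1 / x ^ (j + i) := by rw [div_div, ← pow_add]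
      _ ≤ 1 / x ^ (N + 1) := by
          apply one_div_le_one_div_of_le (by positivity)
          exact pow_le_pow_right₀ hx (by omega)
  | succ d ih =>
    intro j i hd hij
    rcases Nat.lt_or_ge N j with hj | hj
    · exact ih j i (by omega) hij
    rcases i with _ | i
    · refine ⟨fun l => if l = j then 1 else 0, 0, le_rfl, fun x hx => ?_⟩
      have h1 : ∑ l ∈ Finset.Icc 2 N, (((if l = j then 1 else 0 : ℚ)) : ℝ) * pj l x = pj j x := by
        rw [Finset.sum_eq_single j]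
        · simp
        · intro l _ hl; simp [hl]
        · intro h; exact absurd (Finset.mem_Icc.2 ⟨by omega, hj⟩) h
      rw [h1]; simp
    · have h1 := ih (j + 1) i (by omega) (by omega)
      have h2 := (ih (j + 1) (i + 1) (by omega) (by omega)).const_mul j
      exact (h1.add h2).congr fun x hx => pj_div (by linarith) j i

theorem VN_pow (N k : ℕ) (hk : 2 ≤ k) : VN N (fun x => 1 / x ^ k) := by
  refine (VN_pj N (N + 1) 1 (k - 1) (by omega) (by omega)).congr fun x hx => ?_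
  have hx0 : (0:ℝ) < x := by linarith
  rw [pj_one, div_div, ← pow_succ']
  congr 2
  omega

theorem pj_tendsto {x : ℝ} (hx : 1 ≤ x) {j : ℕ} (hj : 1 ≤ j) :
    Filter.Tendsto (fun n : ℕ => pj j (x + n)) Filter.atTop (nhds 0) := by
  have h1 : Filter.Tendsto (fun n : ℕ => 1 / ((n : ℝ) + 1)) Filter.atTop (nhds 0) :=
    tendsto_one_div_add_atTop_nhds_zero_nat
  refine squeeze_zero (fun n => (pj_pos (by positivity) j).le) (fun n => ?_) h1
  have h0 : (0:ℝ) ≤ n := Nat.cast_nonneg n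
  have hy : 1 ≤ x + n := by linarith
  refine (pj_le (by linarith) j).trans ?_
  apply one_div_le_one_div_of_le (by positivity)
  calc (n : ℝ) + 1 ≤ x + n := by linarith
    _ = (x + n) ^ 1 := (pow_one _).symm
    _ ≤ (x + n) ^ j := pow_le_pow_right₀ hy hj

theorem pj_hasSum {x : ℝ} (hx : 1 ≤ x) {j : ℕ} (hj : 1 ≤ j) :
    HasSum (fun n : ℕ => pj (j + 1) (x + n)) (pj j x / j) := by
  have hj0 : (0:ℝ) < j := by exact_mod_cast hj
  rw [hasSum_iff_tendsto_nat_of_nonneg (fun n => (pj_pos (by positivity) _).le)]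
  have h1 : ∀ N : ℕ, ∑ n ∈ Finset.range N, pj (j + 1) (x + n) =
      (pj j x - pj j (x + N)) / j := by
    intro N
    induction N with
    | zero => simp
    | succ N ih =>
      have h2 := pj_sub (x := x + N) (by positivity) j
      rw [Finset.sum_range_succ, ih]
      push_cast
      rw [← add_assoc, eq_div_iff hj0.ne', add_mul, div_mul_cancel₀ _ hj0.ne']
      linarith
  simp only [h1]
  have h3 := ((pj_tendsto hx hj).const_sub (pj j x)).div_const (j : ℝ)
  simpa using h3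

/-- the tail of an error term -/
theorem tail_bound {R : ℝ → ℝ} {C : ℝ} (hC : 0 ≤ C) (N : ℕ) (hN : 1 ≤ N)
    (hR : ∀ x : ℝ, 1 ≤ x → |R x| ≤ C / x ^ (N + 1)) {x : ℝ} (hx : 1 ≤ x) :
    Summable (fun n : ℕ => R (x + n)) ∧ |∑' n : ℕ, R (x + n)| ≤ (2 * C) / x ^ N := by
  have hx0 : 0 < x := by linarith
  have h2 := pj_hasSum hx (j := 1) le_rfl
  have hb : ∀ n : ℕ, ‖R (x + n)‖ ≤ (2 * C / x ^ (N - 1)) * pj (1 + 1) (x + n) := by
    intro n
    have h0 : (0:ℝ) ≤ n := Nat.cast_nonneg n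
    have hy : 1 ≤ x + n := by linarith
    have hy0 : 0 < x + n := by linarith
    rw [Real.norm_eq_abs]
    refine (hR _ hy).trans ?_
    have h3 : pj (1 + 1) (x + n) = 1 / ((x + n) * (x + n + 1)) := by
      simp [pj, Finset.prod_range_succ]
    rw [h3, div_mul_div_comm, mul_one]
    rw [div_le_div_iff₀ (by positivity) (by positivity)]
    have h4 : x ^ (N - 1) ≤ (x + n) ^ (N - 1) := by gcongr; linarith
    have h5 : (x + n) ^ (N + 1) = (x + n) ^ (N - 1) * ((x + n) * (x + n)) := by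
      rw [← pow_two, ← pow_add]; congr 1; omega
    rw [h5]
    have h6 : (x + n) * (x + n + 1) ≤ 2 * ((x + n) * (x + n)) := by nlinarith
    calc C * (x ^ (N - 1) * ((x + n) * (x + n + 1)))
        ≤ C * ((x + n) ^ (N - 1) * (2 * ((x + n) * (x + n)))) := by gcongr
      _ = 2 * C * ((x + n) ^ (N - 1) * ((x + n) * (x + n))) := by ring
  have hsum := h2.summable.mul_left (2 * C / x ^ (N - 1))
  refine ⟨Summable.of_norm_bounded hsum hb, ?_⟩
  have h7 := tsum_of_norm_bounded (h2.mul_left (2 * C / x ^ (N - 1))) hb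
  rw [Real.norm_eq_abs] at h7
  refine h7.trans (le_of_eq ?_)
  rw [pj_one]
  have h8 : x ^ N = x ^ (N - 1) * x := by rw [← pow_succ]; congr 1; omega
  rw [h8]
  field_simp
  simp

/-- sum of the absolute values of the coefficients -/
noncomputable def nq (q : ℚ[X]) : ℝ := ∑ n ∈ Finset.range (q.natDegree + 1), |(q.coeff n : ℝ)|

theorem nq_nonneg (q : ℚ[X]) : 0 ≤ nq q := Finset.sum_nonneg fun _ _ => abs_nonneg _

theorem aeval_eq (q : ℚ[X]) (u : ℝ) :
    aeval u q = ∑ n ∈ Finset.range (q.natDegree + 1), (q.coeff n : ℝ) * u ^ n := by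
  rw [aeval_eq_sum_range]
  apply Finset.sum_congr rfl
  intro n _
  rw [Rat.smul_def]

theorem abs_aeval_le (q : ℚ[X]) {x : ℝ} (hx : 1 ≤ x) : |aeval (1 / x) q| ≤ nq q := by
  rw [aeval_eq]
  refine (Finset.abs_sum_le_sum_abs _ _).trans (Finset.sum_le_sum fun n _ => ?_)
  rw [abs_mul]
  have h1 : |(1 / x) ^ n| ≤ 1 := by
    rw [abs_of_nonneg (by positivity)]
    apply pow_le_one₀ (by positivity)
    rw [div_le_one (by linarith)]; exact hx
  exact mul_le_of_le_one_right (abs_nonneg _) h1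

/-- `f` has an asymptotic expansion in `1 / x` with rational coefficients -/
def HasAs (f : ℝ → ℝ) : Prop :=
  ∀ N : ℕ, ∃ (q : ℚ[X]) (C : ℝ), 0 ≤ C ∧ ∀ x : ℝ, 1 ≤ x → |f x - aeval (1 / x) q| ≤ C / x ^ N

theorem HasAs.const (c : ℚ) : HasAs (fun _ => (c : ℝ)) := fun N =>
  ⟨Polynomial.C c, 0, le_rfl, fun x hx => by simp⟩

theorem HasAs.add {f g : ℝ → ℝ} (hf : HasAs f) (hg : HasAs g) : HasAs (fun x => f x + g x) := by
  intro N
  obtain ⟨p, C, hC, h⟩ := hf N
  obtain ⟨q, C', hC', h'⟩ := hg N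
  refine ⟨p + q, C + C', by linarith, fun x hx => ?_⟩
  rw [map_add, add_div, show f x + g x - (aeval (1 / x) p + aeval (1 / x) q) =
    (f x - aeval (1 / x) p) + (g x - aeval (1 / x) q) by ring]
  exact (abs_add_le _ _).trans (add_le_add (h x hx) (h' x hx))

theorem HasAs.sum {ι : Type*} (s : Finset ι) {f : ι → ℝ → ℝ} (h : ∀ i ∈ s, HasAs (f i)) :
    HasAs (fun x => ∑ i ∈ s, f i x) := by
  classical
  induction s using Finset.induction_on with
  | empty => simpa using HasAs.const 0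
  | insert a s ha ih =>
    simp only [Finset.sum_insert ha]
    exact (h a (Finset.mem_insert_self a s)).add
      (ih fun i hi => h i (Finset.mem_insert_of_mem hi))

theorem HasAs.mul {f g : ℝ → ℝ} (hf : HasAs f) (hg : HasAs g) : HasAs (fun x => f x * g x) := by
  intro N
  obtain ⟨p, C, hC, h⟩ := hf N
  obtain ⟨q, C', hC', h'⟩ := hg N
  refine ⟨p * q, C * (nq q + C') + nq p * C', by have := nq_nonneg p; have := nq_nonneg q; positivity,
    fun x hx => ?_⟩
  have hx0 : 0 < x := by linarith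
  have hxN : 1 ≤ x ^ N := one_le_pow₀ hx
  have e1 := h x hx
  have e2 := h' x hx
  have e3 := abs_aeval_le p hx
  have e4 := abs_aeval_le q hx
  have e5 : |g x| ≤ nq q + C' := by
    have h1 : C' / x ^ N ≤ C' := div_le_self hC' hxN
    calc |g x| = |(g x - aeval (1 / x) q) + aeval (1 / x) q| := by ring_nf
      _ ≤ |g x - aeval (1 / x) q| + |aeval (1 / x) q| := abs_add_le _ _
      _ ≤ nq q + C' := by linarith
  rw [map_mul, show f x * g x - aeval (1 / x) p * aeval (1 / x) q =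
    (f x - aeval (1 / x) p) * g x + aeval (1 / x) p * (g x - aeval (1 / x) q) by ring]
  calc |(f x - aeval (1 / x) p) * g x + aeval (1 / x) p * (g x - aeval (1 / x) q)|
      ≤ |f x - aeval (1 / x) p| * |g x| + |aeval (1 / x) p| * |g x - aeval (1 / x) q| := by
        rw [← abs_mul, ← abs_mul]; exact abs_add_le _ _
    _ ≤ (C / x ^ N) * (nq q + C') + nq p * (C' / x ^ N) := by
        have h0 : 0 ≤ C / x ^ N := by positivity
        have h1 := nq_nonneg p
        apply add_le_add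
        · exact mul_le_mul e1 e5 (abs_nonneg _) h0
        · exact mul_le_mul e3 e2 (abs_nonneg _) h1
    _ = (C * (nq q + C') + nq p * C') / x ^ N := by ring

theorem HasAs.pow {f : ℝ → ℝ} (hf : HasAs f) (n : ℕ) : HasAs (fun x => f x ^ n) := by
  induction n with
  | zero => simpa using HasAs.const 1
  | succ n ih => simp only [pow_succ]; exact ih.mul hf

theorem HasAs.prod {ι : Type*} (s : Finset ι) {f : ι → ℝ → ℝ} (h : ∀ i ∈ s, HasAs (f i)) :
    HasAs (fun x => ∏ i ∈ s, f i x) := by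
  classical
  induction s using Finset.induction_on with
  | empty => simpa using HasAs.const 1
  | insert a s ha ih =>
    simp only [Finset.prod_insert ha]
    exact (h a (Finset.mem_insert_self a s)).mul
      (ih fun i hi => h i (Finset.mem_insert_of_mem hi))

theorem HasAs.inv_add (i : ℕ) : HasAs (fun x => (x + i)⁻¹) := by
  intro N
  refine ⟨∑ l ∈ Finset.range N, Polynomial.C ((-(i : ℚ)) ^ l) * X ^ (l + 1), (i : ℝ) ^ N,
    by positivity, fun x hx => ?_⟩
  have hx0 : 0 < x := by linarith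
  have hi : (0:ℝ) ≤ i := Nat.cast_nonneg i
  have hxi : 0 < x + i := by linarith
  rw [map_sum]
  simp only [map_mul, map_pow, aeval_X, aeval_C, map_neg]
  have e1 : ∀ l : ℕ, ((-(algebraMap ℚ ℝ (i : ℚ))) ^ l) * (1 / x) ^ (l + 1) =
      (1 / x) * (-(i : ℝ) / x) ^ l := by
    intro l
    rw [show algebraMap ℚ ℝ (i : ℚ) = (i : ℝ) by simp, div_pow, div_pow, pow_succ]
    field_simp
    ring
  simp only [e1]
  rw [← Finset.mul_sum]
  have hne : -(i : ℝ) / x ≠ 1 := by
    intro h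
    rw [div_eq_one_iff_eq hx0.ne'] at h
    linarith
  rw [geom_sum_eq hne]
  have e2 : -(i : ℝ) / x - 1 = -((x + i) / x) := by field_simp; ring
  have e3 : (x + i)⁻¹ - 1 / x * (((-(i : ℝ) / x) ^ N - 1) / (-(i : ℝ) / x - 1)) =
      (x + i)⁻¹ * (-(i : ℝ) / x) ^ N := by
    rw [e2]
    field_simp
    ring
  rw [e3, abs_mul, abs_pow, abs_div, abs_neg, abs_of_nonneg hi, abs_of_pos hx0, div_pow]
  rw [abs_of_pos (inv_pos.2 hxi)]
  have h1 : (x + i)⁻¹ ≤ 1 := inv_le_one_of_one_le₀ (by linarith)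
  exact mul_le_of_le_one_left (by positivity) h1

theorem HasAs_pj (j : ℕ) : HasAs (pj j) := by
  have h1 := HasAs.prod (Finset.range j) (f := fun (i : ℕ) (x : ℝ) => (x + (i : ℝ))⁻¹)
    (fun i _ => HasAs.inv_add i)
  have h2 : pj j = fun x : ℝ => ∏ i ∈ Finset.range j, (x + (i : ℝ))⁻¹ := by
    funext x
    unfold pj
    rw [← Finset.prod_inv_distrib]
  rw [h2]; exact h1

theorem HasAs.of_near {f : ℝ → ℝ}
    (h : ∀ N : ℕ, ∃ (g : ℝ → ℝ) (C : ℝ), HasAs g ∧ 0 ≤ C ∧ ∀ x : ℝ, 1 ≤ x → |f x - g x| ≤ C / x ^ N) :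
    HasAs f := by
  intro N
  obtain ⟨g, C, hg, hC, h1⟩ := h N
  obtain ⟨q, C', hC', h2⟩ := hg N
  refine ⟨q, C + C', by linarith, fun x hx => ?_⟩
  rw [add_div, show f x - aeval (1 / x) q = (f x - g x) + (g x - aeval (1 / x) q) by ring]
  exact (abs_add_le _ _).trans (add_le_add (h1 x hx) (h2 x hx))

theorem HasAs_zeta (k : ℕ) (hk : 2 ≤ k) : HasAs (fun x => ∑' n : ℕ, 1 / (x + n) ^ k) := by
  apply HasAs.of_near
  intro N
  obtain ⟨a, C, hC, h⟩ := VN_pow (N + 1) k hk
  refine ⟨fun x => ∑ j ∈ Finset.Icc 2 (N + 1), (a j : ℝ) * ((((1 : ℚ) / ((j - 1 : ℕ) : ℚ) : ℚ) : ℝ) *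
    pj (j - 1) x), 2 * C, ?_, by positivity, fun x hx => ?_⟩
  · apply HasAs.sum
    intro j _
    exact (HasAs.const (a j)).mul ((HasAs.const _).mul (HasAs_pj (j - 1)))
  · set R : ℝ → ℝ := fun y => 1 / y ^ k - ∑ j ∈ Finset.Icc 2 (N + 1), (a j : ℝ) * pj j y with hR
    obtain ⟨hs, ht⟩ := tail_bound (R := R) hC (N + 1) (by omega) h hx
    have h1 : ∀ j ∈ Finset.Icc 2 (N + 1), HasSum (fun n : ℕ => (a j : ℝ) * pj j (x + n))
        ((a j : ℝ) * ((((1 : ℚ) / ((j - 1 : ℕ) : ℚ) : ℚ) : ℝ) * pj (j - 1) x)) := by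
      intro j hj
      have hj2 := (Finset.mem_Icc.1 hj).1
      have h2 := pj_hasSum hx (j := j - 1) (by omega)
      have h3 : j - 1 + 1 = j := by omega
      rw [h3] at h2
      have h4 := h2.mul_left (a j : ℝ)
      have h8 : (a j : ℝ) * (pj (j - 1) x / ((j - 1 : ℕ) : ℝ)) =
          (a j : ℝ) * ((((1 : ℚ) / ((j - 1 : ℕ) : ℚ) : ℚ) : ℝ) * pj (j - 1) x) := by
        rw [Rat.cast_div, Rat.cast_one, Rat.cast_natCast]
        ring
      rw [← h8]
      exact h4
    have h5 := hasSum_sum h1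
    have h6 := h5.add hs.hasSum
    have h7 : (fun n : ℕ => ∑ j ∈ Finset.Icc 2 (N + 1), (a j : ℝ) * pj j (x + n) + R (x + n)) =
        fun n : ℕ => 1 / (x + n) ^ k := by
      funext n
      simp only [hR]
      exact add_sub_cancel _ _
    rw [h7] at h6
    rw [h6.tsum_eq, add_sub_cancel_left]
    refine ht.trans ?_
    have hx0 : 0 < x := by linarith
    apply div_le_div_of_nonneg_left (by positivity) (by positivity)
    exact pow_le_pow_right₀ hx (by omega)

end Pool.Agent.Lib.MP_524521_nt.RA.As
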