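import Mathlib
import Pool.Agent.Lib.MP_524521_nt.RA.Level2
import Pool.Agent.Lib.MP_524521_nt.RA.AlgPoly
import Pool.Agent.Lib.MP_524521_nt.RA.Cost2
import Pool.Agent.Lib.MP_524521_nt.RA.ZUDef

section
/-! The choice of the degree `w ^ 4` and of `θ = 1 / w ^ 2` in the polylog version. -/
namespace Pool.Agent.Lib.MP_524521_nt.RA

/-- With `Δ = w ^ 4`, `nn = (Δ + 1) ^ p`, `θ = 1 / w ^ 2`, `η = θ / (128 l)` and a constant number
`J` of levels, `θ ^ J nn < 1` and `nn ^ J < (1 + η) ^ Δ` as soon as `w ≥ c l`. -/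
theorem choice (p : ℕ) : ∃ J c : ℕ, 1 ≤ J ∧ 1 ≤ c ∧ ∀ (w : ℕ) (l : ℝ), 1 ≤ l → c * l ≤ w →
    (1 / (w : ℝ) ^ 2) ^ J * (((w ^ 4 + 1) ^ p : ℕ) : ℝ) < 1 ∧
      (((w ^ 4 + 1) ^ p : ℕ) : ℝ) ^ J < (1 + (1 / (w : ℝ) ^ 2) / (128 * l)) ^ (w ^ 4) := by
  set J := 3 * p + 1 with hJ
  set c := 2048 * J * p + 2 with hc
  refine ⟨J, c, by omega, Nat.le_add_left _ _, ?_⟩
  intro w l hl hw
  have hcr : (c : ℝ) = 2048 * J * p + 2 := by rw [hc]; push_cast; ring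
  have hJp : (0 : ℝ) ≤ 2048 * J * p := by positivity
  have hw2 : (2 : ℝ) ≤ w := by nlinarith
  have hw2' : 2 ≤ w := by exact_mod_cast hw2
  have hw0 : (0 : ℝ) < w := by linarith
  constructor
  · have h1 : (1 / (w : ℝ) ^ 2) ^ J = 1 / ((w ^ (2 * J) : ℕ) : ℝ) := by
      rw [one_div_pow, ← pow_mul]; push_cast; rfl
    have h0 : (0 : ℝ) < ((w ^ (2 * J) : ℕ) : ℝ) := by
      have : 0 < w ^ (2 * J) := Nat.pow_pos (by omega)
      exact_mod_cast this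
    rw [h1, one_div, inv_mul_lt_one₀ h0]
    have h2 : (w ^ 4 + 1) ^ p < w ^ (2 * J) := by
      have h3 : w ^ 4 + 1 ≤ 2 * w ^ 4 := by
        have : 1 ≤ w ^ 4 := Nat.one_le_pow _ _ (by omega)
        omega
      have h4 : 2 ^ p < w ^ (2 * p + 2) :=
        calc 2 ^ p < 2 ^ (2 * p + 2) := Nat.pow_lt_pow_right (by norm_num) (by omega)
          _ ≤ w ^ (2 * p + 2) := Nat.pow_le_pow_left hw2' _
      have h5 : 0 < w ^ (4 * p) := Nat.pow_pos (by omega)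
      calc (w ^ 4 + 1) ^ p ≤ (2 * w ^ 4) ^ p := Nat.pow_le_pow_left h3 _
        _ = 2 ^ p * w ^ (4 * p) := by rw [mul_pow, ← pow_mul]
        _ < w ^ (2 * p + 2) * w ^ (4 * p) := Nat.mul_lt_mul_of_pos_right h4 h5
        _ = w ^ (2 * J) := by rw [← pow_add]; congr 1; omega
    exact_mod_cast h2
  · set η := (1 / (w : ℝ) ^ 2) / (128 * l) with hη
    have hl0 : 0 < l := by linarith
    have hη0 : 0 < η := by positivity
    have hη1 : η ≤ 1 := by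
      rw [hη, div_le_one (by positivity), div_le_iff₀ (by positivity)]
      have : (1 : ℝ) ≤ (w : ℝ) ^ 2 := one_le_pow₀ (by linarith)
      nlinarith
    have hlog1 : η / 2 ≤ Real.log (1 + η) := by
      have h1 : 1 - (1 + η)⁻¹ ≤ Real.log (1 + η) := Real.one_sub_inv_le_log_of_pos (by linarith)
      have h2 : η / 2 ≤ 1 - (1 + η)⁻¹ := by
        have h3 : 1 - (1 + η)⁻¹ = η / (1 + η) := by field_simp; ring
        rw [h3]
        exact div_le_div_of_nonneg_left hη0.le (by linarith) (by linarith)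
      linarith
    have hlog2 : Real.log ((w : ℝ) ^ 4 + 1) ≤ 8 * w := by
      have h1 : (w : ℝ) ^ 4 + 1 ≤ (2 * w) ^ 4 := by
        have h2 : (2 * (w : ℝ)) ^ 4 = 16 * (w : ℝ) ^ 4 := by ring
        have h3 : (1 : ℝ) ≤ (w : ℝ) ^ 4 := one_le_pow₀ (by linarith)
        rw [h2]; linarith
      calc Real.log ((w : ℝ) ^ 4 + 1) ≤ Real.log ((2 * (w : ℝ)) ^ 4) :=
            Real.log_le_log (by positivity) h1
        _ = 4 * Real.log (2 * w) := by rw [Real.log_pow]; norm_num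
        _ ≤ 4 * (2 * w - 1) := by
            have := Real.log_le_sub_one_of_pos (show 0 < 2 * (w : ℝ) by linarith)
            linarith
        _ ≤ 8 * w := by linarith
    have hgoal : (J : ℝ) * (p * Real.log ((w : ℝ) ^ 4 + 1)) <
        ((w ^ 4 : ℕ) : ℝ) * Real.log (1 + η) := by
      have h1 : (J : ℝ) * (p * Real.log ((w : ℝ) ^ 4 + 1)) ≤ J * (p * (8 * w)) := by gcongr
      have h2 : ((w ^ 4 : ℕ) : ℝ) * (η / 2) ≤ ((w ^ 4 : ℕ) : ℝ) * Real.log (1 + η) := by gcongr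
      have h3 : ((w ^ 4 : ℕ) : ℝ) * (η / 2) = (w : ℝ) ^ 2 / (256 * l) := by
        rw [hη]; push_cast; field_simp; ring
      have h4 : (J : ℝ) * (p * (8 * w)) < (w : ℝ) ^ 2 / (256 * l) := by
        rw [lt_div_iff₀ (by positivity)]
        have h5 : (J : ℝ) * (p * (8 * w)) * (256 * l) = w * ((2048 * J * p) * l) := by ring
        rw [h5, pow_two]
        apply mul_lt_mul_of_pos_left _ hw0
        rw [hcr] at hw
        nlinarith
      linarith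
    have hL0 : 0 < (((w ^ 4 + 1) ^ p : ℕ) : ℝ) ^ J := by positivity
    have hR0 : 0 < (1 + η) ^ (w ^ 4) := by positivity
    rw [← Real.log_lt_log_iff hL0 hR0, Real.log_pow, Real.log_pow]
    push_cast
    rw [Real.log_pow]
    push_cast at hgoal
    exact hgoal

end Pool.Agent.Lib.MP_524521_nt.RA
end

section
/-! The local theorem, with a number of exceptions polynomial in `log (T H)`. -/
open Polynomial

namespace Pool.Agent.Lib.MP_524521_nt.RA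

/-- the levels of the degree in `s` -/
def lev2 (e w : ℕ) : ℕ → ℕ
  | 0 => 1
  | k + 1 => (e * lev2 e w k * w) ^ e

theorem lev2_pos {e w : ℕ} (he : 1 ≤ e) (hw : 1 ≤ w) (k : ℕ) : 1 ≤ lev2 e w k := by
  induction k with
  | zero => simp [lev2]
  | succ k ih =>
    simp only [lev2]
    exact Nat.one_le_pow _ _ (Nat.mul_pos (Nat.mul_pos he ih) hw)

theorem lev2_le_succ {e w : ℕ} (he : 1 ≤ e) (hw : 1 ≤ w) (k : ℕ) :
    lev2 e w k ≤ lev2 e w (k + 1) := by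
  have h1 : lev2 e w k ≤ e * lev2 e w k * w := by
    calc lev2 e w k = 1 * lev2 e w k * 1 := by ring
      _ ≤ e * lev2 e w k * w := by gcongr
  simp only [lev2]
  exact h1.trans (Nat.le_self_pow (by omega) _)

theorem lev2_mono {e w : ℕ} (he : 1 ≤ e) (hw : 1 ≤ w) : Monotone (lev2 e w) :=
  monotone_nat_of_le_succ (lev2_le_succ he hw)

theorem lev2_bound (e : ℕ) (he : 1 ≤ e) (k : ℕ) : ∃ C : ℕ, 1 ≤ C ∧ ∀ w : ℕ, 1 ≤ w →
    lev2 e w k ≤ (e * w) ^ C := by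
  induction k with
  | zero => exact ⟨1, le_rfl, fun w hw => by
      simp only [lev2, pow_one]; exact Nat.mul_pos he hw⟩
  | succ k ih =>
    obtain ⟨C, hC, h⟩ := ih
    refine ⟨(C + 1) * e, Nat.mul_pos (by omega) he, fun w hw => ?_⟩
    simp only [lev2]
    rw [pow_mul]
    apply Nat.pow_le_pow_left
    calc e * lev2 e w k * w = lev2 e w k * (e * w) := by ring
      _ ≤ (e * w) ^ C * (e * w) := Nat.mul_le_mul_right _ (h w hw)
      _ = (e * w) ^ (C + 1) := by ring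

/-- the final bound, in terms of the parameter `w` -/
theorem fin_bound (p e : ℕ) (he : 1 ≤ e) (k : ℕ) : ∃ C : ℕ, 1 ≤ C ∧ ∀ w : ℕ, 1 ≤ w →
    2 * ((w ^ 4 + 1) ^ p * lev2 e w k + 1) ^ 2 ≤ (C * w) ^ C := by
  obtain ⟨C, hC, h⟩ := lev2_bound e he k
  refine ⟨2 * e + (2 * (5 * p + C + 1) + 1), by omega, fun w hw => ?_⟩
  set u := 2 * e * w with hu
  have hu2 : 2 ≤ u := by
    have := Nat.mul_pos he hw
    have h2 : u = 2 * (e * w) := by rw [hu]; ring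
    omega
  have hu1 : 1 ≤ u := by omega
  have hwu : w ≤ u := by
    calc w = 1 * w := by ring
      _ ≤ 2 * e * w := Nat.mul_le_mul_right _ (by omega)
  have h1 : w ^ 4 + 1 ≤ u ^ 5 := by
    have h2 : w ^ 4 ≤ u ^ 4 := Nat.pow_le_pow_left hwu 4
    have h3 : 1 ≤ u ^ 4 := Nat.one_le_pow _ _ hu1
    calc w ^ 4 + 1 ≤ u ^ 4 * 2 := by omega
      _ ≤ u ^ 4 * u := Nat.mul_le_mul_left _ hu2
      _ = u ^ 5 := by ring
  have h4 : lev2 e w k ≤ u ^ C := by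
    refine (h w hw).trans (Nat.pow_le_pow_left ?_ C)
    rw [hu]
    nlinarith
  have h5 : (w ^ 4 + 1) ^ p * lev2 e w k + 1 ≤ u ^ (5 * p + C + 1) := by
    have h6 : (w ^ 4 + 1) ^ p * lev2 e w k ≤ u ^ (5 * p + C) := by
      calc (w ^ 4 + 1) ^ p * lev2 e w k ≤ (u ^ 5) ^ p * u ^ C :=
            Nat.mul_le_mul (Nat.pow_le_pow_left h1 p) h4
        _ = u ^ (5 * p + C) := by rw [← pow_mul, ← pow_add]
    have h7 : 1 ≤ u ^ (5 * p + C) := Nat.one_le_pow _ _ hu1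
    calc (w ^ 4 + 1) ^ p * lev2 e w k + 1 ≤ u ^ (5 * p + C) * 2 := by omega
      _ ≤ u ^ (5 * p + C) * u := Nat.mul_le_mul_left _ hu2
      _ = u ^ (5 * p + C + 1) := by ring
  calc 2 * ((w ^ 4 + 1) ^ p * lev2 e w k + 1) ^ 2 ≤ u * (u ^ (5 * p + C + 1)) ^ 2 :=
        Nat.mul_le_mul hu2 (Nat.pow_le_pow_left h5 2)
    _ = u ^ (2 * (5 * p + C + 1) + 1) := by rw [← pow_mul, ← pow_succ']; congr 1; ring
    _ ≤ ((2 * e + (2 * (5 * p + C + 1) + 1)) * w) ^ (2 * (5 * p + C + 1) + 1) := by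
        apply Nat.pow_le_pow_left
        rw [hu]
        exact Nat.mul_le_mul_right _ (by omega)
    _ ≤ ((2 * e + (2 * (5 * p + C + 1) + 1)) * w) ^ (2 * e + (2 * (5 * p + C + 1) + 1)) := by
        apply Nat.pow_le_pow_right _ (by omega)
        exact Nat.mul_pos (by omega) hw

theorem quarter_le : (1 : ℝ) / 4 ≤ Real.exp (-1) := by
  rw [Real.exp_neg, one_div]
  apply inv_anti₀ (Real.exp_pos 1)
  have := Real.exp_one_lt_d9
  linarith

theorem exp_neg_two_le : Real.exp (-2) ≤ (1 : ℝ) / 4 := by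
  have h1 : (2 : ℝ) ≤ Real.exp 1 := by
    have := Real.add_one_le_exp (1 : ℝ)
    linarith
  have h2 : Real.exp 2 = Real.exp 1 * Real.exp 1 := by rw [← Real.exp_add]; norm_num
  rw [Real.exp_neg, one_div]
  apply inv_anti₀ (by norm_num)
  rw [h2]
  nlinarith

open Classical in
theorem interval_poly (m D Cz : ℕ) {a b ρ Z₀ : ℝ} (hρ : 0 < ρ) (hZ₀ : 1 ≤ Z₀) (hCz : 1 ≤ Cz) :
    ∃ C : ℕ, 1 ≤ C ∧ ∀ (g : Fin m → ℂ → ℂ),
      (∀ x : ℝ, a ≤ x → x ≤ b → ∀ j, DifferentiableOn ℂ (g j) (Metric.ball (x : ℂ) (2 * ρ))) →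
      (∀ x : ℝ, a ≤ x → x ≤ b → ∀ z ∈ Metric.closedBall (x : ℂ) ρ, ∀ j, ‖g j z‖ ≤ Z₀) →
      ∀ (T H : ℕ) (Lg : ℝ), 1 ≤ H → 1 ≤ Lg → (C : ℝ) ≤ Real.log T →
      Real.log T ≤ Lg → Real.log H ≤ Lg → ZUC g a b Cz (Real.log T) → ∀ S : Finset ℚ,
      (∀ s ∈ S, a ≤ s ∧ s ≤ b ∧ s.den ≤ T ∧
        ∃ P : G m, P ≠ 0 ∧ P.totalDegree ≤ D ∧ (∀ d, (P.coeff d).natAbs ≤ H) ∧
          ‖MvPolynomial.aeval (fun j => g j s) P‖ < Real.exp (-(C * Lg) ^ C)) →
      (∀ s ∈ S, ∀ s' ∈ S, |(s : ℝ) - s'| ≤ ρ / 4) →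
      (S.card : ℝ) ≤ (C * Lg) ^ C := by
  set p := Fintype.card (Gam m D) with hp
  obtain ⟨J, c, hJ1, hc1, hchoice⟩ := choice p
  set bb := ⌈|a| + |b| + 1⌉₊ with hbb
  have hbbr : |a| + |b| + 1 ≤ (bb : ℝ) := Nat.le_ceil _
  have hbb1 : (1:ℝ) ≤ bb := by
    have h1 := abs_nonneg a
    have h2 := abs_nonneg b
    linarith
  have hbb1' : 1 ≤ bb := by exact_mod_cast hbb1
  set R := |a| + |b| + ρ + 1 with hR
  have hR1 : 1 ≤ R := by
    have h1 := abs_nonneg a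
    have h2 := abs_nonneg b
    rw [hR]; linarith
  obtain ⟨e, he, hcost⟩ := level_costs2 p D Cz bb Z₀ R hCz hbb1' hZ₀ hR1
  obtain ⟨C₁, hC₁, hfin⟩ := fin_bound p e he J
  set c0 := ⌈11 + Real.log R⌉₊ with hc0
  have hc0r : 11 + Real.log R ≤ (c0 : ℝ) := Nat.le_ceil _
  have hlogR : 0 ≤ Real.log R := Real.log_nonneg hR1
  refine ⟨C₁ * (c + 1) + c0, by have := Nat.mul_pos hC₁ (by omega : 0 < c + 1); omega, ?_⟩
  set C := C₁ * (c + 1) + c0 with hC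
  intro g hg hgb T H Lg hH hLg hTC hTL hHL hZ' S hS hSd
  by_contra hcon
  push Not at hcon
  set l := Real.log T with hl
  have hc0C : (c0 : ℝ) ≤ C := by exact_mod_cast (by omega : c0 ≤ C)
  have hl11 : 11 + Real.log R ≤ l := by linarith
  have hl1 : 1 ≤ l := by linarith
  have hl0 : 0 < l := by linarith
  have hl10 : 10 ≤ l := by linarith
  have hT1 : 1 ≤ T := by
    rcases Nat.eq_zero_or_pos T with h | h
    · exfalso
      rw [hl, h] at hl1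
      simp at hl1
      linarith
    · exact h
  have hTr : (1:ℝ) ≤ T := by exact_mod_cast hT1
  have hT0 : (0:ℝ) < T := by linarith
  -- the parameter `w`
  set w := ⌈(c : ℝ) * Lg⌉₊ with hw
  have hcr : (1:ℝ) ≤ c := by exact_mod_cast hc1
  have hcw : (c : ℝ) * Lg ≤ w := Nat.le_ceil _
  have hLw : Lg ≤ w := by nlinarith
  have hw1r : (1:ℝ) ≤ w := by linarith
  have hw1 : 1 ≤ w := by exact_mod_cast hw1r
  have hwup : (w : ℝ) ≤ (c + 1) * Lg := by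
    have h1 : (w : ℝ) < c * Lg + 1 := Nat.ceil_lt_add_one (by positivity)
    nlinarith
  set nn := (w ^ 4 + 1) ^ p with hnn
  have hnn1 : 1 ≤ nn := Nat.one_le_pow _ _ (by omega)
  have hnnr : (1:ℝ) ≤ nn := by exact_mod_cast hnn1
  obtain ⟨hch1, hch2⟩ := hchoice w l hl1 (by nlinarith)
  set θ := 1 / (w : ℝ) ^ 2 with hθ
  have hθ0 : 0 < θ := by rw [hθ]; positivity
  set η := θ / (128 * l) with hη
  have hη0 : 0 < η := by positivity
  have hηθ : η / θ = (1 / l) / 128 := by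
    rw [hη]; field_simp
  -- the bound of the levels
  have hbig : 2 * (nn * lev2 e w J + 1) ^ 2 ≤ (C₁ * w) ^ C₁ := hfin w hw1
  have hC1CL : (((C₁ * w) ^ C₁ : ℕ) : ℝ) ≤ (C * Lg) ^ C := by
    have h1 : ((C₁ : ℝ) * w) ≤ ((C₁ * (c + 1) : ℕ) : ℝ) * Lg := by
      push_cast
      have : (0:ℝ) ≤ C₁ := Nat.cast_nonneg _
      calc (C₁ : ℝ) * w ≤ C₁ * ((c + 1) * Lg) := by gcongr
        _ = C₁ * (c + 1) * Lg := by ring
    have h2 : C₁ ≤ C₁ * (c + 1) := Nat.le_mul_of_pos_right _ (by omega)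
    have h3 : (1:ℝ) ≤ ((C₁ * (c + 1) : ℕ) : ℝ) * Lg := by
      have : (1:ℝ) ≤ ((C₁ * (c + 1) : ℕ) : ℝ) := by
        exact_mod_cast Nat.mul_pos hC₁ (by omega : 0 < c + 1)
      nlinarith
    push_cast
    calc ((C₁ : ℝ) * w) ^ C₁ ≤ (((C₁ * (c + 1) : ℕ) : ℝ) * Lg) ^ C₁ := by
          gcongr
      _ ≤ (((C₁ * (c + 1) : ℕ) : ℝ) * Lg) ^ (C₁ * (c + 1)) := pow_le_pow_right₀ h3 h2
      _ ≤ (C * Lg) ^ C := pow_le_pow_aux (Nat.mul_pos hC₁ (by omega)) (by omega) hLg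
  set Nmax := nn * lev2 e w J + 1 with hNmax
  have hNmax1 : 1 ≤ Nmax := by omega
  have hNmaxr : 2 * (Nmax : ℝ) ^ 2 ≤ (C * Lg) ^ C := by
    refine le_trans ?_ hC1CL
    exact_mod_cast hbig
  have hNmaxr1 : (1:ℝ) ≤ Nmax := by exact_mod_cast hNmax1
  have hNmaxr2 : (Nmax : ℝ) ≤ (C * Lg) ^ C := by nlinarith
  -- the data of the points
  have hex1 : ∀ i : S, ∃ P : G m, P ≠ 0 ∧ P.totalDegree ≤ D ∧ (∀ d, (P.coeff d).natAbs ≤ H) ∧
      ‖MvPolynomial.aeval (fun j => g j ((i : ℚ) : ℂ)) P‖ < Real.exp (-(C * Lg) ^ C) :=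
    fun i => (hS i.1 i.2).2.2.2
  choose P hP0 hPD hPH hPv using hex1
  let cc : S → Gam m D → ℤ := fun i γ => (P i).coeff γ.1
  have hdeg : ∀ i : S, ∀ d ∈ (P i).support, d.degree ≤ D := by
    intro i d hd
    have h1 := MvPolynomial.le_totalDegree hd
    exact le_trans h1 (hPD i)
  have hc : ∀ i, cc i ≠ 0 := by
    intro i h0
    obtain ⟨d, hd⟩ := MvPolynomial.ne_zero_iff.1 (hP0 i)
    have h1 := congrFun h0 ⟨d, hdeg i d (MvPolynomial.mem_support_iff.2 hd)⟩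
    exact hd h1
  have hcH : ∀ i γ, (cc i γ).natAbs ≤ H := fun i γ => hPH i _
  have hcardS : Fintype.card S = S.card := Fintype.card_coe S
  have hcard : nn * lev2 e w J < Fintype.card S := by
    rw [hcardS]
    have h1 : (Nmax : ℝ) < S.card := by linarith
    have h2 : Nmax < S.card := by exact_mod_cast h1
    omega
  have hnum : ∀ i : S, (i : ℚ).num.natAbs ≤ bb * T := fun i =>
    num_bound (hS i.1 i.2).1 (hS i.1 i.2).2.1 hbbr (hS i.1 i.2).2.2.1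
  have hden : ∀ i : S, (i : ℚ).den ≤ bb * T := by
    intro i
    have h3 := (hS i.1 i.2).2.2.1
    calc (i : ℚ).den ≤ 1 * T := by omega
      _ ≤ bb * T := Nat.mul_le_mul_right _ hbb1'
  -- the costs at all levels
  set δz := 1 / (T : ℝ) ^ 2 with hδz
  have hδz0 : 0 < δz := by positivity
  have hδz1 : δz ≤ 1 := by
    rw [hδz, div_le_one (by positivity)]
    exact one_le_pow₀ hTr
  have hlog2δ : 0 ≤ Real.log (2 / δz) := by
    apply Real.log_nonneg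
    rw [le_div_iff₀ hδz0]; linarith
  have hall : ∀ A : ℕ, 1 ≤ A → ∃ Y hz d0 qz st : ℝ, 1 ≤ Y ∧
      ((((nn * A + 1) * nn).factorial * ((bb * T) ^ (nn * A + 1) * H ^ (w ^ 4)) ^
        ((nn * A + 1) * nn) : ℕ) : ℝ) ≤ Y ∧
      (p : ℝ) ≤ Y ∧ 1 ≤ hz ∧ l ≤ hz ∧
      nn.factorial * (((nn * A + 1 : ℕ) + 1) * Y) ^ nn ≤ Real.exp hz ∧
      qz = (Cz * ((nn * (nn * A + 1) : ℕ) + (nn * D : ℕ) + hz)) ^ Cz ∧
      d0 = qz * Real.log (2 / δz) ∧
      Real.exp st = (2 * nn + 1) * ((nn + 1) * nn.factorial *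
        Ent (nn * A + 1) D Y Z₀ R ^ (nn + 1)) ∧
      1 ≤ ((nn : ℝ) + 1) * nn.factorial * Ent (nn * A + 1) D Y Z₀ R ^ (nn + 1) ∧
      0 ≤ d0 ∧ 0 ≤ qz ∧ 0 ≤ st ∧
      ((nn : ℝ) + 2) + d0 + qz + (w : ℝ) ^ 4 * w + nn * A + st ≤ (((e * A * w) ^ e : ℕ) : ℝ) := by
    intro A hA
    obtain ⟨Y, hz, hY1, hXY, hpY, hz1, hlz, hdetY, hsum⟩ :=
      hcost A T H w hA hT1 hH hw1 (by linarith) (by linarith) nn (nn * A + 1) hnn rfl
    have hE1 := one_le_Ent (nn * A + 1) D hY1 hZ₀ hR1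
    set E := Ent (nn * A + 1) D Y Z₀ R with hE
    have hW11 : 1 ≤ ((nn : ℝ) + 1) * nn.factorial * E ^ (nn + 1) := by
      have h1 : (1:ℝ) ≤ nn.factorial := by exact_mod_cast Nat.factorial_pos nn
      have h2 : (1:ℝ) ≤ E ^ (nn + 1) := one_le_pow₀ hE1
      exact one_le_mul_of_one_le_of_one_le (one_le_mul_of_one_le_of_one_le (by linarith) h1) h2
    have h2nW : 1 ≤ (2 * (nn:ℝ) + 1) * (((nn : ℝ) + 1) * nn.factorial * E ^ (nn + 1)) :=
      one_le_mul_of_one_le_of_one_le (by linarith) hW11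
    have hqz0 : (0:ℝ) ≤ (Cz * ((nn * (nn * A + 1) : ℕ) + (nn * D : ℕ) + hz)) ^ Cz := by
      have : (0:ℝ) ≤ ((nn * (nn * A + 1) : ℕ) : ℝ) + (nn * D : ℕ) + hz := by positivity
      positivity
    refine ⟨Y, hz, _, _, _, hY1, hXY, hpY, hz1, hlz, hdetY, rfl, rfl,
      Real.exp_log (by linarith), hW11,
      mul_nonneg hqz0 hlog2δ, hqz0, Real.log_nonneg h2nW, ?_⟩
    push_cast at hsum ⊢
    exact hsum
  have hA'2 : ∀ k, nn * lev2 e w k + 1 ≤ lev2 e w (k + 1) := by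
    intro k
    obtain ⟨Y, hz, d0, qz, st, _, _, _, _, _, _, _, _, _, _, hd0, hqz0, hst0, hsum⟩ :=
      hall (lev2 e w k) (lev2_pos he hw1 k)
    have hw0 : (0:ℝ) ≤ (w : ℝ) ^ 4 * w := by positivity
    have h1 : ((nn * lev2 e w k + 1 : ℕ) : ℝ) ≤ ((lev2 e w (k + 1) : ℕ) : ℝ) := by
      simp only [lev2]
      refine le_trans ?_ hsum
      push_cast
      linarith
    exact_mod_cast h1
  obtain ⟨k, hk, B, hB, r', Pp, Θ₁, Θ₂, hPpd, hPpc, hPpv, h2pos, hfree, hli, hη'⟩ :=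
    algebra_poly m (fun γ : Gam m D => γ.1) Subtype.val_injective (fun i : S => (i : ℚ))
      Subtype.val_injective cc hc η θ hη0 hθ0 (w ^ 4) J nn (fun B hB => card_sym_le hB)
      hch1 hch2 (lev2 e w) (fun k => nn * lev2 e w k + 1) (fun k => lev2 e w (k + 1))
      (lev2_le_succ he hw1) (fun k => Nat.lt_succ_self _) hA'2 (fun k => le_rfl)
      (fun k => lev2_pos he hw1 (k + 1)) hcard (bb * T) H
      (by have := Nat.mul_le_mul hbb1' hT1; omega) hH hnum hden hcH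
  rw [hηθ] at hη'
  set A := lev2 e w k with hA
  have hA1 : 1 ≤ A := lev2_pos he hw1 k
  have hlevk : lev2 e w (k + 1) ≤ lev2 e w J := lev2_mono he hw1 (by omega)
  obtain ⟨Y, hz, d0, qz, st, hY1, hXBY, hΓY, hz1, hlz, hdetY, hqz, hd0, hexpst, hW11, hd00, hqz0,
    hst0, hsum⟩ := hall A hA1
  set A'' := lev2 e w (k + 1) with hA''
  have hA''eq : (e * A * w) ^ e = A'' := by simp only [hA'', hA, lev2]
  rw [hA''eq] at hsum
  set Ap := nn * A + 1 with hAp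
  obtain ⟨gs, hgs, hdet⟩ := exists_minor _ hli
  set v := vrow (fun γ : Gam m D => γ.1) Pp Θ₁ with hv
  have hdet' : (sq v gs).det ≠ 0 := hdet
  have hSymn : Fintype.card (Sym (Gam m D) (B + 1)) ≤ nn := card_sym_le hB
  have hcardκ : Fintype.card (Fin r' ⊕ Θ₁) ≤ nn :=
    (Fintype.card_le_of_injective gs hgs).trans hSymn
  obtain ⟨hd1, hd2, hd3⟩ := det_coeff_bounds (sq v gs) nn Ap D Y hY1 hcardκ
    (fun i j => vrow_natDegree _ Pp Θ₁ hPpd i (gs j))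
    (fun i j k => vrow_totalDegree _ Pp Θ₁ (fun γ => γ.2) i (gs j) k)
    (fun i j k => vrow_N1 _ Pp Θ₁ hPpc hXBY hΓY i (gs j) k)
  set thr := Real.exp (-d0) with hthr
  set bad : Finset S := Finset.univ.filter
    (fun i => ‖evg g ((i : ℚ) : ℂ) (sq v gs).det‖ ≤ thr) with hbad
  have hq0 : (bad.card : ℝ) ≤ qz := by
    have hinj : Function.Injective (fun i : S => (((i : ℚ)) : ℝ)) :=
      fun x y hxy => Subtype.ext (Rat.cast_injective (α := ℝ) hxy)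
    have h1 := hZ' (nn * Ap) (nn * D) hz δz
      (by have := Nat.mul_le_mul hnn1 (by omega : 1 ≤ Ap); omega) hz1 hlz hδz0 hδz1
      (sq v gs).det hdet' hd1 hd2 (fun k => (hd3 k).trans hdetY)
      (bad.image (fun i : S => (((i : ℚ)) : ℝ))) ?_ ?_ ?_
    · rw [Finset.card_image_of_injective _ hinj] at h1
      rw [hqz]
      exact h1
    · intro x hx
      obtain ⟨i, _, rfl⟩ := Finset.mem_image.1 hx
      exact ⟨(hS i.1 i.2).1, (hS i.1 i.2).2.1⟩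
    · intro x hx y hy hxy
      obtain ⟨i, _, rfl⟩ := Finset.mem_image.1 hx
      obtain ⟨j, _, rfl⟩ := Finset.mem_image.1 hy
      apply rat_sep _ _ T (hS i.1 i.2).2.2.1 (hS j.1 j.2).2.2.1
      intro h; apply hxy; rw [h]
    · intro x hx
      obtain ⟨i, hi, rfl⟩ := Finset.mem_image.1 hx
      rw [Complex.ofReal_ratCast]
      have h2 := (Finset.mem_filter.1 hi).2
      rw [hthr, hd0, hqz] at h2
      exact h2
  have hw0 : (0:ℝ) ≤ (w : ℝ) ^ 4 * w := by positivity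
  have hnA0 : (0:ℝ) ≤ (nn : ℝ) * A := by positivity
  have hqA : bad.card ≤ A'' := by
    have : (bad.card : ℝ) ≤ A'' := by linarith
    exact_mod_cast this
  set A' := A'' - bad.card with hA'
  have hA'r : (A' : ℝ) = A'' - bad.card := by rw [hA', Nat.cast_sub hqA]
  have hA'big : (nn + 2 : ℝ) + d0 + (w : ℝ) ^ 4 * w + st ≤ A' := by rw [hA'r]; linarith
  have hA'0 : (0:ℝ) ≤ A' := Nat.cast_nonneg _
  have hA'l : (A' : ℝ) ≤ A' * l := by nlinarith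
  have hA'nn : A' * nn ≤ Nmax := by
    calc A' * nn ≤ lev2 e w J * nn := Nat.mul_le_mul_right _ (by omega)
      _ ≤ Nmax := by rw [hNmax, Nat.mul_comm]; omega
  set W1 := ((nn : ℝ) + 1) * nn.factorial * Ent Ap D Y Z₀ R ^ (nn + 1) with hW1
  -- one center
  have hSne : 0 < S.card := by omega
  obtain ⟨s0, hs0⟩ := Finset.card_pos.1 hSne
  set ξ := Real.exp (-(C * Lg) ^ C) with hξ
  have hM : ∀ i : S, ∃ Mi : ℕ, 1 ≤ Mi ∧ Mi ≤ H ∧ (∀ γ, (cc i γ).natAbs ≤ Mi) ∧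
      ∃ γ, (cc i γ).natAbs = Mi := fun i => exists_max (cc i) (hc i) H (hcH i)
  choose M hM1 hMH hMc hMex using hM
  have hrρ : ρ / 4 / ρ = 1 / 4 := by field_simp
  refine level_false2 g (s₀ := ((s0 : ℚ) : ℂ)) (r := ρ / 4) (ρ := ρ) (R' := 2 * ρ) (Z₀ := Z₀)
    (R := R) (by positivity) (by linarith) (by linarith) ?_ hZ₀ ?_ hR1 ?_
    (fun γ : Gam m D => γ.1) (D := D) (fun γ => γ.2)
    (fun i : S => (i : ℚ)) (T := T) (H := H) hT1 ?_ (fun i => (hS i.1 i.2).2.2.1) cc M hM1 hMH hMc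
    hMex (ξ := ξ) (Real.exp_pos _).le ?_ (A := Ap)
    (X := (Ap * nn).factorial * ((bb * T) ^ Ap * H ^ (w ^ 4)) ^ (Ap * nn)) (Y := Y) Pp hPpd
    hPpc hXBY hY1 hΓY hPpv Θ₁ Θ₂ h2pos (A' := A') (qb := bad.card)
    (by rw [hA', Nat.sub_add_cancel hqA]; exact hfree) gs hgs bad le_rfl (δ := thr)
    (Real.exp_pos _) ?_ ?_ (n := nn) hSymn (ε := 1 / l) (η := (1 / l) / 128) (l := l)
    (by positivity) ?_ rfl ?_ hl hl10 ?_ ?_ ?_ ?_ ?_ ?_ ?_
  · -- differentiable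
    have h := hg (s0 : ℝ) (hS s0 hs0).1 (hS s0 hs0).2.1
    rw [Complex.ofReal_ratCast] at h
    exact h
  · have h := hgb (s0 : ℝ) (hS s0 hs0).1 (hS s0 hs0).2.1
    rw [Complex.ofReal_ratCast] at h
    exact h
  · intro z hz'
    exact norm_center (hS s0 hs0).1 (hS s0 hs0).2.1 hz'
  · intro i
    have h := hSd i.1 i.2 s0 hs0
    rw [norm_ratCast_sub]
    exact h
  · intro i
    have h1 := aeval_eq_sum (fun γ : Gam m D => γ.1) Subtype.val_injective (P i)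
      (fun d hd => ⟨⟨d, hdeg i d hd⟩, rfl⟩) (fun j => g j ((i : ℚ) : ℂ))
    have h2 : ∑ γ : Gam m D, MvPolynomial.aeval (fun j => g j ((i : ℚ) : ℂ))
        (MvPolynomial.monomial γ.1 (1 : ℤ) : G m) * (cc i γ : ℂ) =
        MvPolynomial.aeval (fun j => g j ((i : ℚ) : ℂ)) (P i) := h1.symm
    rw [h2]
    exact (hPv i).le
  · intro i hi
    have h1 : ¬ ‖evg g ((i : ℚ) : ℂ) (sq v gs).det‖ ≤ thr := by
      intro h
      exact hi (Finset.mem_filter.2 ⟨Finset.mem_univ _, h⟩)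
    exact (not_le.1 h1).le
  · have h1 : bad.card < (Finset.univ : Finset S).card := by
      rw [Finset.card_univ]
      have h2 : lev2 e w J ≤ nn * lev2 e w J := Nat.le_mul_of_pos_left _ hnn1
      omega
    obtain ⟨i, _, hi⟩ := Finset.exists_mem_notMem_of_card_lt_card h1
    exact ⟨i, hi⟩
  · -- ε ≤ 1
    rw [div_le_one hl0]; exact hl1
  · -- hh'
    have e1 := card_compl_range gs hgs
    rw [Fintype.card_sum, Fintype.card_fin, Fintype.card_coe, Nat.cast_add] at e1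
    have e2 : (Fintype.card (Sym (Gam m D) (B + 1)) : ℝ) - (r' + Θ₁.card) ≤
        (1 / l) / 128 * Θ₂.card := by
      linarith
    rw [← e1] at e2
    convert e2
  · -- I1
    have : ((nn + 2 : ℕ) : ℝ) ≤ A' := by push_cast; linarith
    exact_mod_cast this
  · -- I2
    rw [hthr]
    apply Real.exp_le_exp.2
    linarith
  · -- I3
    refine I3_fact (B₀ := w ^ 4) (Lg := (w : ℝ)) hH hB (by linarith) ?_ hl1
    push_cast
    linarith
  · -- I4
    exact I4_fact (by linarith) hexpst (by linarith) (by linarith)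
  · -- I5
    rw [hrρ]
    have : 1 / l * l = 1 := by field_simp
    rw [this]
    exact quarter_le
  · -- I6
    rw [hrρ]
    have h1 : Real.exp (-2) ^ ((A' * nn) ^ 2) ≤ ((1:ℝ) / 4) ^ ((A' * nn) ^ 2) := by
      have := exp_neg_two_le
      have h0 := Real.exp_pos (-2)
      gcongr
    refine le_trans ?_ h1
    rw [← Real.exp_nat_mul]
    apply Real.exp_le_exp.2
    have h2 : (((A' * nn) ^ 2 : ℕ) : ℝ) ≤ (Nmax : ℝ) ^ 2 := by
      exact_mod_cast Nat.pow_le_pow_left hA'nn 2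
    linarith
  · -- I7
    refine I7_fact hnnr hW11 hexpst (A' := (A' : ℝ)) (by linarith) ?_
    have h4 : A' ≤ A' * nn := Nat.le_mul_of_pos_right _ hnn1
    have h5 : (A' : ℝ) ≤ Nmax := by exact_mod_cast h4.trans hA'nn
    linarith

theorem card_cells (S : Finset ℚ) {a b κ X : ℝ} (hκ : 0 < κ) (hS : ∀ s ∈ S, a ≤ s ∧ (s : ℝ) ≤ b)
    (h : ∀ S' ⊆ S, (∀ s ∈ S', ∀ s' ∈ S', |(s : ℝ) - s'| ≤ κ) → (S'.card : ℝ) ≤ X) :
    (S.card : ℝ) ≤ ((⌊(b - a) / κ⌋₊ + 1 : ℕ) : ℝ) * X := by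
  classical
  set f : ℚ → ℕ := fun s => ⌊((s : ℝ) - a) / κ⌋₊ with hf
  have hmaps : ∀ s ∈ S, f s ∈ Finset.range (⌊(b - a) / κ⌋₊ + 1) := by
    intro s hs
    rw [Finset.mem_range, Nat.lt_succ_iff]
    apply Nat.floor_le_floor
    have := (hS s hs).2
    gcongr
  rw [Finset.card_eq_sum_card_fiberwise hmaps, Nat.cast_sum]
  calc ∑ i ∈ Finset.range (⌊(b - a) / κ⌋₊ + 1), (((S.filter fun s => f s = i).card : ℕ) : ℝ)
      ≤ ∑ _i ∈ Finset.range (⌊(b - a) / κ⌋₊ + 1), X := by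
        apply Finset.sum_le_sum
        intro i _
        apply h _ (Finset.filter_subset _ _)
        intro s hs s' hs'
        obtain ⟨hs1, hs2⟩ := Finset.mem_filter.1 hs
        obtain ⟨hs1', hs2'⟩ := Finset.mem_filter.1 hs'
        have h0 : 0 ≤ ((s : ℝ) - a) / κ := div_nonneg (by linarith [(hS s hs1).1]) hκ.le
        have h0' : 0 ≤ ((s' : ℝ) - a) / κ := div_nonneg (by linarith [(hS s' hs1').1]) hκ.le
        have e1 := Nat.floor_le h0
        have e2 := Nat.lt_floor_add_one (((s : ℝ) - a) / κ)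
        have e1' := Nat.floor_le h0'
        have e2' := Nat.lt_floor_add_one (((s' : ℝ) - a) / κ)
        have f1 : ⌊((s : ℝ) - a) / κ⌋₊ = i := hs2
        have f2 : ⌊((s' : ℝ) - a) / κ⌋₊ = i := hs2'
        rw [f1] at e1 e2
        rw [f2] at e1' e2'
        have h1 : |((s : ℝ) - a) / κ - ((s' : ℝ) - a) / κ| ≤ 1 := by
          rw [abs_le]; constructor <;> linarith
        have h2 : (s : ℝ) - s' = κ * (((s : ℝ) - a) / κ - ((s' : ℝ) - a) / κ) := by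
          field_simp; ring
        rw [h2, abs_mul, abs_of_pos hκ]
        nlinarith
    _ = ((⌊(b - a) / κ⌋₊ + 1 : ℕ) : ℝ) * X := by
        rw [Finset.sum_const, Finset.card_range, nsmul_eq_mul]

theorem local_poly (m D Cz : ℕ) {a b ρ Z₀ : ℝ} (hρ : 0 < ρ) (hZ₀ : 1 ≤ Z₀) (hCz : 1 ≤ Cz) :
    ∃ C : ℕ, 1 ≤ C ∧ ∀ g : Fin m → ℂ → ℂ,
      (∀ x : ℝ, a ≤ x → x ≤ b → ∀ j, DifferentiableOn ℂ (g j) (Metric.ball (x : ℂ) (2 * ρ))) →
      (∀ x : ℝ, a ≤ x → x ≤ b → ∀ z ∈ Metric.closedBall (x : ℂ) ρ, ∀ j, ‖g j z‖ ≤ Z₀) →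
      ∀ T H : ℕ, 2 ≤ T → 2 ≤ H → ZUC g a b Cz (Real.log T) → ∀ (S : Finset ℚ),
      (∀ s ∈ S, a ≤ s ∧ s ≤ b ∧ s.den ≤ T ∧
        ∃ P : G m, P ≠ 0 ∧ P.totalDegree ≤ D ∧ (∀ d, (P.coeff d).natAbs ≤ H) ∧
          ‖MvPolynomial.aeval (fun j => g j s) P‖ < Real.exp (-(C * Real.log (T * H)) ^ C)) →
      (S.card : ℝ) ≤ (C * Real.log (T * H)) ^ C := by
  classical
  obtain ⟨C₁, hC₁, h₁⟩ := interval_poly m D Cz (a := a) (b := b) (lt_min hρ one_pos) hZ₀ hCz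
  obtain ⟨C₂, hC₂⟩ := rat_card a b ⌈Real.exp C₁⌉₊
  set κ := min ρ 1 / 4 with hκ
  have hκ0 : 0 < κ := by
    have : 0 < min ρ 1 := lt_min hρ one_pos
    rw [hκ]; positivity
  set K := ⌊(b - a) / κ⌋₊ + 1 with hK
  refine ⟨C₁ + K + C₂, by omega, ?_⟩
  intro g hg hgb T H hT hH hZ S hS
  have hTr : (2:ℝ) ≤ T := by exact_mod_cast hT
  have hHr : (2:ℝ) ≤ H := by exact_mod_cast hH
  have hlogT : 0 ≤ Real.log T := Real.log_nonneg (by linarith)
  have hlogH : 0 ≤ Real.log H := Real.log_nonneg (by linarith)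
  have hLg : Real.log (T * H) = Real.log T + Real.log H :=
    Real.log_mul (by linarith) (by linarith)
  have hLg1 : 1 ≤ Real.log (T * H) := by
    have h4 : (4:ℝ) ≤ T * H := by nlinarith
    have h5 : Real.log 4 ≤ Real.log (T * H) := Real.log_le_log (by norm_num) h4
    have h6 : Real.log 4 = 2 * Real.log 2 := by
      rw [show (4:ℝ) = 2 ^ 2 by norm_num, Real.log_pow]; norm_num
    have := Real.log_two_gt_d9
    linarith
  set Lg := Real.log (T * H) with hLgdef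
  have hC1r : (1:ℝ) ≤ C₁ := by exact_mod_cast hC₁
  have hC2r : (0:ℝ) ≤ C₂ := Nat.cast_nonneg _
  have hKr : (1:ℝ) ≤ K := by exact_mod_cast (by omega : 1 ≤ K)
  have hmono : ((C₁ : ℝ) * Lg) ^ C₁ ≤ (((C₁ + K + C₂ : ℕ) : ℝ) * Lg) ^ (C₁ + K + C₂) :=
    pow_le_pow_aux hC₁ (by omega) hLg1
  set C := C₁ + K + C₂ with hC
  have hCr : (C : ℝ) = C₁ + K + C₂ := by rw [hC]; push_cast; ring
  have hCL1 : (1:ℝ) ≤ (C : ℝ) * Lg := by
    have : (1:ℝ) ≤ C := by rw [hCr]; linarith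
    nlinarith
  by_cases hTC : (C₁ : ℝ) ≤ Real.log T
  · have hcells := card_cells S (a := a) (b := b) (κ := κ) (X := ((C₁ : ℝ) * Lg) ^ C₁) hκ0
      (fun s hs => ⟨(hS s hs).1, (hS s hs).2.1⟩) (by
        intro S' hS' hd
        refine h₁ g (fun x h1 h2 j => (hg x h1 h2 j).mono (Metric.ball_subset_ball (by
            have := min_le_left ρ 1; linarith)))
          (fun x h1 h2 z hz j => hgb x h1 h2 z
            (Metric.closedBall_subset_closedBall (min_le_left ρ 1) hz) j)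
          T H Lg (by omega) hLg1 hTC (by linarith) (by linarith) hZ S' ?_ hd
        intro s hs
        obtain ⟨h1, h2, h4, P, h5, h6, h7, h8⟩ := hS s (hS' hs)
        refine ⟨h1, h2, h4, P, h5, h6, h7, h8.trans_le ?_⟩
        apply Real.exp_le_exp.2
        linarith)
    refine hcells.trans ?_
    have h1 : (K : ℝ) ≤ (C : ℝ) * Lg := by
      have : (K : ℝ) ≤ C := by rw [hCr]; linarith
      nlinarith
    have h2 : ((C₁ : ℝ) * Lg) ^ C₁ ≤ ((C : ℝ) * Lg) ^ C₁ := by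
      have : (C₁ : ℝ) ≤ C := by rw [hCr]; linarith
      gcongr
    calc (K : ℝ) * ((C₁ : ℝ) * Lg) ^ C₁ ≤ ((C : ℝ) * Lg) * ((C : ℝ) * Lg) ^ C₁ :=
          mul_le_mul h1 h2 (by positivity) (by linarith)
      _ = ((C : ℝ) * Lg) ^ (C₁ + 1) := by ring
      _ ≤ ((C : ℝ) * Lg) ^ C := pow_le_pow_right₀ hCL1 (by omega)
  · push Not at hTC
    have hTle : T ≤ ⌈Real.exp C₁⌉₊ := by
      have h1 : (T : ℝ) < Real.exp C₁ := by
        rwa [← Real.log_lt_iff_lt_exp (by linarith)]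
      have h2 : (T : ℝ) ≤ ⌈Real.exp C₁⌉₊ := h1.le.trans (Nat.le_ceil _)
      exact_mod_cast h2
    have h3 : S.card ≤ C₂ := hC₂ S fun s hs =>
      ⟨(hS s hs).1, (hS s hs).2.1, (hS s hs).2.2.1.trans hTle⟩
    have h4 : (S.card : ℝ) ≤ C₂ := by exact_mod_cast h3
    have h5 : (C : ℝ) * Lg ≤ ((C : ℝ) * Lg) ^ C := le_self_pow₀ hCL1 (by omega)
    have h6 : (C₂ : ℝ) ≤ (C : ℝ) * Lg := by
      have : (C₂ : ℝ) ≤ C := by rw [hCr]; linarith
      nlinarith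
    linarith

end Pool.Agent.Lib.MP_524521_nt.RA
end
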