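import Pool.Agent.Lib.MP_524521_nt.RA.Elim
import Pool.Agent.Lib.MP_524521_nt.RA.Cramer

/-!
# Elimination by shifts, uniform in the degree

Instead of a chain of doubling steps: one Cramer step in the span of the iterated shifts.
-/

open Polynomial

namespace Pool.Agent.Lib.MP_524521_nt.RA

open MonomialOrder (degLex)
open scoped MonomialOrder

variable {m : ℕ}

/-- the iterated shifts -/
noncomputable def Rj (L : ℕ) (R : Gx m) : ℕ → Gx m
  | 0 => R
  | j + 1 => sE L (Rj L R j)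

theorem totalDegree_sE {L E : ℕ} {R : Gx m} (h : R.totalDegree ≤ E) :
    (sE L R).totalDegree ≤ E :=
  (MvPolynomial.degLex_totalDegree_monotone (degree_sE_le R)).trans h

theorem totalDegree_Rj {L E : ℕ} {R : Gx m} (h : R.totalDegree ≤ E) (j : ℕ) :
    (Rj L R j).totalDegree ≤ E := by
  induction j with
  | zero => exact h
  | succ j ih => exact totalDegree_sE ih

theorem DB_Rj {L E A : ℕ} (hL : L = (m + 1) * E) {R : Gx m} (h : R.totalDegree ≤ E)
    (hA : DB A R) (j : ℕ) : DB (A + j * L) (Rj L R j) := by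
  induction j with
  | zero => simpa [Rj] using hA
  | succ j ih =>
    have h1 := DB_sE (L := L) ih (by rw [hL]; exact wt_le (totalDegree_Rj h j))
    refine h1.mono ?_
    rw [Nat.succ_mul]
    omega

theorem N1_Rj {L E : ℕ} (hL : L = (m + 1) * E) {R : Gx m} (h : R.totalDegree ≤ E) (j : ℕ) :
    ∀ n : ℕ, N1 (sp ((n : ℕ) : ℤ) (Rj L R j)) ≤
      (n + j) ^ (L * j) * N1 (sp ((n + j : ℕ) : ℤ) R) := by
  induction j with
  | zero => intro n; simp [Rj]
  | succ j ih =>
    intro n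
    have h1 := N1_sp_sE (L := L) (R := Rj L R j) (by rw [hL]; exact wt_le (totalDegree_Rj h j)) n
    have h2 := ih (n + 1)
    have h3 : ((n : ℤ) + 1) = ((n + 1 : ℕ) : ℤ) := by push_cast; ring
    rw [h3] at h1
    calc N1 (sp ((n : ℕ) : ℤ) (Rj L R (j + 1))) ≤
        (n + 1) ^ L * N1 (sp ((n + 1 : ℕ) : ℤ) (Rj L R j)) := h1
      _ ≤ (n + 1) ^ L * ((n + 1 + j) ^ (L * j) * N1 (sp ((n + 1 + j : ℕ) : ℤ) R)) :=
          Nat.mul_le_mul_left _ h2
      _ ≤ (n + (j + 1)) ^ L * ((n + (j + 1)) ^ (L * j) * N1 (sp ((n + (j + 1) : ℕ) : ℤ) R)) := by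
          have e : n + 1 + j = n + (j + 1) := by ring
          rw [e]
          exact Nat.mul_le_mul_right _ (Nat.pow_le_pow_left (by omega) _)
      _ = _ := by
          rw [Nat.mul_succ, pow_add]
          ring

theorem ev_Rj {L E : ℕ} (hL : L = (m + 1) * E) {R : Gx m} (h : R.totalDegree ≤ E)
    {g : Fin m → ℂ → ℂ} (hg : FE g) (j : ℕ) :
    ∀ n : ℕ, 1 ≤ n → ‖ev (n : ℂ) (fun k => g k (n : ℂ)) (Rj L R j)‖ ≤
      ((n + j : ℕ) : ℝ) ^ (L * j) *
        ‖ev ((n + j : ℕ) : ℂ) (fun k => g k ((n + j : ℕ) : ℂ)) R‖ := by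
  induction j with
  | zero => intro n _; simp [Rj]
  | succ j ih =>
    intro n hn
    have hz : (n : ℂ) ≠ 0 := by exact_mod_cast (by omega : n ≠ 0)
    have h1 := ev_sE (L := L) (R := Rj L R j) (by rw [hL]; exact wt_le (totalDegree_Rj h j))
      (n : ℂ) (fun k => g k (n : ℂ)) hz
    have h2 : (fun k => g k (n : ℂ) - ((n : ℂ)⁻¹) ^ ((k : ℕ) + 2)) =
        fun k => g k ((n + 1 : ℕ) : ℂ) := by
      funext k
      rw [← hg k n hn]
      push_cast
      rfl
    have h3 : (n : ℂ) + 1 = ((n + 1 : ℕ) : ℂ) := by push_cast; rfl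
    rw [h2, h3] at h1
    have h4 := ih (n + 1) (by omega)
    have e : n + 1 + j = n + (j + 1) := by ring
    rw [e] at h4
    show ‖ev (n : ℂ) (fun k => g k (n : ℂ)) (sE L (Rj L R j))‖ ≤ _
    rw [h1, norm_mul, norm_pow, Complex.norm_natCast]
    calc (n : ℝ) ^ L * ‖ev ((n + 1 : ℕ) : ℂ) (fun k => g k ((n + 1 : ℕ) : ℂ)) (Rj L R j)‖
        ≤ ((n + (j + 1) : ℕ) : ℝ) ^ L * (((n + (j + 1) : ℕ) : ℝ) ^ (L * j) *
          ‖ev ((n + (j + 1) : ℕ) : ℂ) (fun k => g k ((n + (j + 1) : ℕ) : ℂ)) R‖) := by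
          apply mul_le_mul _ h4 (norm_nonneg _) (by positivity)
          apply pow_le_pow_left₀ (by positivity)
          exact_mod_cast (by omega : n ≤ n + (j + 1))
      _ = _ := by
          rw [Nat.mul_succ, pow_add]
          ring

/-! ### the stable span -/

/-- the span of the shifts -/
noncomputable def WW (L : ℕ) (R : Gx m) (J : ℕ) :
    Submodule (RatFunc ℚ) (MvPolynomial (Fin m) (RatFunc ℚ)) :=
  Submodule.span (RatFunc ℚ) (Set.range fun j : Fin J => MvPolynomial.map phi (Rj L R j))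

theorem TT_Rj {L E : ℕ} (hL : L = (m + 1) * E) {R : Gx m} (h : R.totalDegree ≤ E) (j : ℕ) :
    TT sh RatFunc.X (MvPolynomial.map phi (Rj L R j)) =
      ((RatFunc.X : RatFunc ℚ) ^ L)⁻¹ • MvPolynomial.map phi (Rj L R (j + 1)) := by
  have h1 := map_sE (L := L) (R := Rj L R j) (by rw [hL]; exact wt_le (totalDegree_Rj h j))
  have h2 : Rj L R (j + 1) = sE L (Rj L R j) := rfl
  have hx : (RatFunc.X : RatFunc ℚ) ^ L ≠ 0 := pow_ne_zero _ RatFunc.X_ne_zero
  rw [h2, h1, MvPolynomial.smul_eq_C_mul, ← mul_assoc, ← MvPolynomial.C_mul, inv_mul_cancel₀ hx,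
    MvPolynomial.C_1, one_mul]

theorem WW_stable {L E : ℕ} (hL : L = (m + 1) * E) {R : Gx m} (h : R.totalDegree ≤ E) (J : ℕ)
    (hJ : MvPolynomial.map phi (Rj L R J) ∈ WW L R J) :
    ∀ U ∈ WW L R J, TT sh RatFunc.X U ∈ WW L R J := by
  intro U hU
  unfold WW at hU
  induction hU using Submodule.span_induction with
  | mem U hU =>
    obtain ⟨j, rfl⟩ := hU
    simp only
    rw [TT_Rj hL h]
    apply Submodule.smul_mem
    by_cases hj : (j : ℕ) + 1 < J
    · exact Submodule.subset_span ⟨⟨(j : ℕ) + 1, hj⟩, rfl⟩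
    · have : (j : ℕ) + 1 = J := by
        have := j.2
        omega
      rw [this]
      exact hJ
  | zero => rw [map_zero]; exact Submodule.zero_mem _
  | add x y _ _ hx hy => rw [map_add]; exact Submodule.add_mem _ hx hy
  | smul a x _ hx =>
    rw [MvPolynomial.smul_eq_C_mul, map_mul, TT_C, ← MvPolynomial.smul_eq_C_mul]
    exact Submodule.smul_mem _ _ hx

theorem WW_coeff {L E : ℕ} {R : Gx m} (h : R.totalDegree ≤ E) (J : ℕ) :
    ∀ U ∈ WW L R J, ∀ γ : Fin m →₀ ℕ, E < γ.degree → U.coeff γ = 0 := by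
  intro U hU
  unfold WW at hU
  induction hU using Submodule.span_induction with
  | mem U hU =>
    obtain ⟨j, rfl⟩ := hU
    intro γ hγ
    simp only
    rw [MvPolynomial.coeff_map]
    have h1 : (Rj L R j).coeff γ = 0 := by
      by_contra h0
      have h2 := MvPolynomial.le_totalDegree (MvPolynomial.mem_support_iff.2 h0)
      have h3 := totalDegree_Rj (L := L) h j
      have h4 : Finsupp.degree γ = γ.sum fun _ e => e := rfl
      omega
    rw [h1, map_zero]
  | zero => intro γ _; simp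
  | add x y _ _ hx hy => intro γ hγ; rw [MvPolynomial.coeff_add, hx γ hγ, hy γ hγ, add_zero]
  | smul a x _ hx => intro γ hγ; rw [MvPolynomial.coeff_smul, hx γ hγ, smul_zero]

/-- a shift stable span contains the constants -/
theorem one_mem_WW {L E : ℕ} (hL : L = (m + 1) * E) {R : Gx m} (hR : R ≠ 0)
    (h : R.totalDegree ≤ E) (J : ℕ) (hJ1 : 1 ≤ J)
    (hJ : MvPolynomial.map phi (Rj L R J) ∈ WW L R J) :
    (1 : MvPolynomial (Fin m) (RatFunc ℚ)) ∈ WW L R J := by
  classical
  have hne : ∃ n, ∃ R' : Gx m, R' ≠ 0 ∧ MvPolynomial.map phi R' ∈ WW L R J ∧ rkx E R' = n :=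
    ⟨_, R, hR, Submodule.subset_span ⟨⟨0, hJ1⟩, rfl⟩, rfl⟩
  obtain ⟨R', hR'0, hR'W, hR'n⟩ := Nat.find_spec hne
  have hmin : ∀ S : Gx m, S ≠ 0 → MvPolynomial.map phi S ∈ WW L R J → rkx E R' ≤ rkx E S := by
    intro S hS hSW
    rw [hR'n]
    exact Nat.find_min' hne ⟨S, hS, hSW, rfl⟩
  have htd : ∀ S : Gx m, MvPolynomial.map phi S ∈ WW L R J → S.totalDegree ≤ E := by
    intro S hSW
    unfold MvPolynomial.totalDegree
    refine Finset.sup_le fun γ hγ => ?_
    by_contra hlt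
    push Not at hlt
    have h1 := WW_coeff h J _ hSW γ hlt
    rw [MvPolynomial.coeff_map] at h1
    exact MvPolynomial.mem_support_iff.1 hγ (phi_injective (h1.trans (map_zero phi).symm))
  have hwt' : ∀ γ ∈ R'.support, wt γ ≤ L := by rw [hL]; exact wt_le (htd R' hR'W)
  have hred : red L R' = 0 := by
    by_contra h0
    have hW : MvPolynomial.map phi (red L R') ∈ WW L R J := by
      unfold red
      rw [map_sub, map_mul, map_mul, MvPolynomial.map_C, MvPolynomial.map_C, map_sE hwt',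
        ← MvPolynomial.smul_eq_C_mul, ← MvPolynomial.smul_eq_C_mul, ← MvPolynomial.smul_eq_C_mul]
      apply Submodule.sub_mem
      · exact Submodule.smul_mem _ _ (Submodule.smul_mem _ _ (WW_stable hL h J hJ _ hR'W))
      · exact Submodule.smul_mem _ _ hR'W
    have h1 := hmin _ h0 hW
    have h2 := rkx_lt (E := E) (degree_red_lt hR'0 hwt' h0) (htd _ hW)
    omega
  have hC := eq_C_of_red_eq_zero hR'0 hwt' hred
  have hlc : phi (lc R') ≠ 0 := by
    intro h0
    have h1 : lc R' = 0 := phi_injective (h0.trans (map_zero phi).symm)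
    rw [h1, map_zero] at hC
    exact hR'0 hC
  rw [hC, MvPolynomial.map_C] at hR'W
  have h1 := Submodule.smul_mem _ (phi (lc R'))⁻¹ hR'W
  rw [MvPolynomial.smul_eq_C_mul, ← MvPolynomial.C_mul, inv_mul_cancel₀ hlc,
    MvPolynomial.C_1] at h1
  exact h1

/-! ### the Cramer step -/

/-- the coefficient vector of a polynomial -/
noncomputable def cf (m E : ℕ) :
    MvPolynomial (Fin m) (RatFunc ℚ) →ₗ[RatFunc ℚ] (mons m E → RatFunc ℚ) :=
  LinearMap.pi fun γ => MvPolynomial.lcoeff (RatFunc ℚ) γ.1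

theorem cf_apply {E : ℕ} (P : MvPolynomial (Fin m) (RatFunc ℚ)) (γ : mons m E) :
    cf m E P γ = P.coeff γ.1 := rfl

theorem eq_zero_of_cf {E : ℕ} (P : MvPolynomial (Fin m) (RatFunc ℚ))
    (h : ∀ γ : Fin m →₀ ℕ, E < γ.degree → P.coeff γ = 0) (h0 : cf m E P = 0) : P = 0 := by
  ext γ
  rw [MvPolynomial.coeff_zero]
  by_cases hγ : γ.degree ≤ E
  · exact congrFun h0 ⟨γ, mem_mons.2 hγ⟩
  · exact h γ (not_le.1 hγ)

/-- the first dependence -/
theorem exists_first {L E : ℕ} {R : Gx m} (hR : R ≠ 0) (h : R.totalDegree ≤ E) :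
    ∃ J : ℕ, 1 ≤ J ∧ J ≤ (mons m E).card ∧
      LinearIndependent (RatFunc ℚ)
        (fun j : Fin J => cf m E (MvPolynomial.map phi (Rj L R j))) ∧
      MvPolynomial.map phi (Rj L R J) ∈ WW L R J := by
  classical
  set v : ℕ → (mons m E → RatFunc ℚ) := fun j => cf m E (MvPolynomial.map phi (Rj L R j)) with hv
  have hfin : ∀ n, LinearIndependent (RatFunc ℚ) (fun j : Fin n => v j) → n ≤ (mons m E).card := by
    intro n hn
    have := hn.fintype_card_le_finrank
    simpa using this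
  have hex : ∃ n, ¬ LinearIndependent (RatFunc ℚ) (fun j : Fin (n + 1) => v j) := by
    refine ⟨(mons m E).card, fun hn => ?_⟩
    have := hfin _ hn
    omega
  obtain ⟨J, hJ1, hJ2⟩ : ∃ J, ¬ LinearIndependent (RatFunc ℚ) (fun j : Fin (J + 1) => v j) ∧
      LinearIndependent (RatFunc ℚ) (fun j : Fin J => v j) := by
    refine ⟨Nat.find hex, Nat.find_spec hex, ?_⟩
    rcases Nat.eq_zero_or_pos (Nat.find hex) with h0 | h0
    · rw [h0]
      exact linearIndependent_empty_type
    · have := Nat.find_min hex (Nat.sub_lt h0 one_pos)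
      rw [not_not] at this
      have e : Nat.find hex - 1 + 1 = Nat.find hex := by omega
      rw [e] at this
      exact this
  have hspan : v J ∈ Submodule.span (RatFunc ℚ) (Set.range fun j : Fin J => v j) := by
    by_contra hns
    apply hJ1
    rw [linearIndependent_finSucc']
    refine ⟨?_, ?_⟩
    · exact hJ2
    · exact hns
  have hmem : MvPolynomial.map phi (Rj L R J) ∈ WW L R J := by
    obtain ⟨c, hc⟩ := (Submodule.mem_span_range_iff_exists_fun (RatFunc ℚ)).1 hspan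
    have h1 : MvPolynomial.map phi (Rj L R J) -
        ∑ j : Fin J, c j • MvPolynomial.map phi (Rj L R j) = 0 := by
      apply eq_zero_of_cf (E := E)
      · intro γ hγ
        have hz : ∀ j : ℕ, (MvPolynomial.map phi (Rj L R j)).coeff γ = 0 := by
          intro j
          rw [MvPolynomial.coeff_map]
          have h1 : (Rj L R j).coeff γ = 0 := by
            by_contra h0
            have h2 := MvPolynomial.le_totalDegree (MvPolynomial.mem_support_iff.2 h0)
            have h3 := totalDegree_Rj (L := L) h j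
            have h4 : Finsupp.degree γ = γ.sum fun _ e => e := rfl
            omega
          rw [h1, map_zero]
        rw [MvPolynomial.coeff_sub, MvPolynomial.coeff_sum, hz, zero_sub, neg_eq_zero]
        refine Finset.sum_eq_zero fun j _ => ?_
        rw [MvPolynomial.coeff_smul, hz, smul_zero]
      · rw [map_sub, map_sum, sub_eq_zero]
        simp only [map_smul]
        exact hc.symm
    rw [sub_eq_zero.1 h1]
    exact Submodule.sum_mem _ fun j _ => Submodule.smul_mem _ _ (Submodule.subset_span ⟨j, rfl⟩)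
  refine ⟨J, ?_, hfin J hJ2, hJ2, hmem⟩
  by_contra h0
  have h1 : J = 0 := by omega
  subst h1
  apply hR
  have h2 : MvPolynomial.map phi (Rj L R 0) = 0 := by
    have : WW L R 0 = ⊥ := by
      unfold WW
      rw [Set.range_eq_empty, Submodule.span_empty]
    rw [this] at hmem
    exact (Submodule.mem_bot _).1 hmem
  exact MvPolynomial.map_injective phi phi_injective (by rw [map_zero]; exact h2)

/-- the relation over `ℤ[X]` -/
theorem cramer_Rj {L E : ℕ} (hL : L = (m + 1) * E) {R : Gx m} (hR : R ≠ 0)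
    (h : R.totalDegree ≤ E) :
    ∃ (J : ℕ) (g : Fin J → (Fin m →₀ ℕ)), J ≤ (mons m E).card ∧
      (Matrix.of fun (i j : Fin J) => (Rj L R i).coeff (g j)).det ≠ 0 ∧
      MvPolynomial.C (Matrix.of fun (i j : Fin J) => (Rj L R i).coeff (g j)).det =
        ∑ i : Fin J, MvPolynomial.C ((Matrix.of fun (i j : Fin J) =>
          (Rj L R i).coeff (g j)).updateRow i (fun j => (1 : Gx m).coeff (g j))).det * Rj L R i := by
  classical
  obtain ⟨J, hJ1, hJν, hli, hmem⟩ := exists_first (L := L) hR h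
  have hone := one_mem_WW hL hR h J hJ1 hmem
  obtain ⟨g, hg, hdet⟩ := exists_minor_field _ hli
  refine ⟨J, fun j => (g j).1, hJν, ?_, ?_⟩
  · intro h0
    apply hdet
    have e : (Matrix.of fun (i j : Fin J) => cf m E (MvPolynomial.map phi (Rj L R i)) (g j)) =
        phi.mapMatrix (Matrix.of fun (i j : Fin J) => (Rj L R i).coeff (g j).1) := by
      ext i j
      simp only [Matrix.of_apply, RingHom.mapMatrix_apply, Matrix.map_apply]
      rw [cf_apply, MvPolynomial.coeff_map]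
    rw [e, ← RingHom.map_det, h0, map_zero]
  · unfold WW at hone
    obtain ⟨c, hc⟩ := (Submodule.mem_span_range_iff_exists_fun (RatFunc ℚ)).1 hone
    have hc' : ∑ j : Fin J, c j • cf m E (MvPolynomial.map phi (Rj L R j)) = cf m E 1 := by
      rw [← hc, map_sum]
      simp only [map_smul]
    have h1 := cramer_rel (fun j : Fin J => cf m E (MvPolynomial.map phi (Rj L R j)))
      (cf m E 1) g hdet (fun j => - c j) 1 one_ne_zero (by
        simp only [one_smul, neg_smul, Finset.sum_neg_distrib]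
        rw [hc', add_neg_cancel])
    have e1 : (Matrix.of fun (i j : Fin J) => cf m E (MvPolynomial.map phi (Rj L R i)) (g j)) =
        phi.mapMatrix (Matrix.of fun (i j : Fin J) => (Rj L R i).coeff (g j).1) := by
      ext i j
      simp only [Matrix.of_apply, RingHom.mapMatrix_apply, Matrix.map_apply]
      rw [cf_apply, MvPolynomial.coeff_map]
    have e2 : ∀ i : Fin J, ((Matrix.of fun (i j : Fin J) =>
        cf m E (MvPolynomial.map phi (Rj L R i)) (g j)).updateRow i
          (fun j => cf m E 1 (g j))) =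
        phi.mapMatrix ((Matrix.of fun (i j : Fin J) => (Rj L R i).coeff (g j).1).updateRow i
          (fun j => (1 : Gx m).coeff (g j).1)) := by
      intro i
      ext i' j
      simp only [RingHom.mapMatrix_apply, Matrix.map_apply]
      by_cases hi : i' = i
      · subst hi
        rw [Matrix.updateRow_self, Matrix.updateRow_self, cf_apply]
        have : (1 : MvPolynomial (Fin m) (RatFunc ℚ)) = MvPolynomial.map phi (1 : Gx m) := by
          rw [map_one]
        rw [this, MvPolynomial.coeff_map]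
      · rw [Matrix.updateRow_ne hi, Matrix.updateRow_ne hi]
        simp only [Matrix.of_apply]
        rw [cf_apply, MvPolynomial.coeff_map]
    simp only [e2] at h1
    rw [e1] at h1
    simp only [← RingHom.map_det] at h1
    apply MvPolynomial.map_injective phi phi_injective
    rw [MvPolynomial.map_C, map_sum]
    simp only [map_mul, MvPolynomial.map_C]
    rw [← sub_eq_zero]
    apply eq_zero_of_cf (E := E)
    · intro γ hγ
      have hz : ∀ j : ℕ, (MvPolynomial.map phi (Rj L R j)).coeff γ = 0 := by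
        intro j
        rw [MvPolynomial.coeff_map]
        have h1 : (Rj L R j).coeff γ = 0 := by
          by_contra h0
          have h2 := MvPolynomial.le_totalDegree (MvPolynomial.mem_support_iff.2 h0)
          have h3 := totalDegree_Rj (L := L) h j
          have h4 : Finsupp.degree γ = γ.sum fun _ e => e := rfl
          omega
        rw [h1, map_zero]
      have hγ0 : γ ≠ 0 := by
        rintro rfl
        simp at hγ
      rw [MvPolynomial.coeff_sub, MvPolynomial.coeff_C, if_neg (Ne.symm hγ0), zero_sub,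
        neg_eq_zero, MvPolynomial.coeff_sum]
      refine Finset.sum_eq_zero fun j _ => ?_
      rw [MvPolynomial.coeff_C_mul, hz, mul_zero]
    · rw [map_sub, map_sum, sub_eq_zero]
      simp only [← MvPolynomial.smul_eq_C_mul, map_smul]
      rw [← h1]
      have : (MvPolynomial.C (phi (Matrix.of fun (i j : Fin J) => (Rj L R i).coeff (g j).1).det) :
          MvPolynomial (Fin m) (RatFunc ℚ)) =
          phi (Matrix.of fun (i j : Fin J) => (Rj L R i).coeff (g j).1).det • 1 := by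
        rw [MvPolynomial.smul_eq_C_mul, mul_one]
      rw [this, map_smul]

theorem det_eval_le {J : ℕ} (T : Matrix (Fin J) (Fin J) ℤ[X]) (M Y : ℕ)
    (hT : ∀ i j, ((T i j).eval (M : ℤ)).natAbs ≤ Y) :
    (T.det.eval (M : ℤ)).natAbs ≤ J.factorial * Y ^ J := by
  have h1 : T.det.eval (M : ℤ) = (T.map (fun p => p.eval (M : ℤ))).det := by
    have := RingHom.map_det (evalRingHom (M : ℤ)) T
    rw [coe_evalRingHom] at this
    rw [this]
    rfl
  have h2 := Matrix.det_le (A := T.map (fun p => p.eval (M : ℤ))) (abv := AbsoluteValue.abs)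
    (x := (Y : ℤ)) (by
      intro i j
      rw [Matrix.map_apply, AbsoluteValue.abs_apply, Int.abs_eq_natAbs]
      exact_mod_cast hT i j)
  rw [h1]
  rw [AbsoluteValue.abs_apply, Int.abs_eq_natAbs, Fintype.card_fin, nsmul_eq_mul] at h2
  exact_mod_cast h2

/-- elimination, with all bounds explicit in the degree -/
theorem elimU {L E A ν : ℕ} (hL : L = (m + 1) * E) (hν : (mons m E).card ≤ ν) {R : Gx m}
    (hR : R ≠ 0) (h : R.totalDegree ≤ E) (hA : DB A R) :
    ∃ q : ℤ[X], q ≠ 0 ∧ q.natDegree ≤ ν * (A + ν * L) ∧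
      ∀ g, FE g → ∀ (M N : ℕ) (B : ℝ), 1 ≤ M → 1 ≤ N →
        (∀ i ≤ ν, N1 (sp ((M + i : ℕ) : ℤ) R) ≤ N) →
        (∀ i ≤ ν, ‖ev ((M + i : ℕ) : ℂ) (fun k => g k ((M + i : ℕ) : ℂ)) R‖ ≤ B) →
        ((q.eval (M : ℤ)).natAbs : ℝ) ≤
          ((ν * ν.factorial * ((M + ν) ^ (L * ν) * N) ^ (ν + 1) : ℕ) : ℝ) * B := by
  classical
  obtain ⟨J, g, hJ, hdet, hrel⟩ := cramer_Rj hL hR h
  have hJν : J ≤ ν := hJ.trans hν
  refine ⟨_, hdet, ?_, ?_⟩
  · refine (natDegree_det_le _ (A + ν * L) fun i j => ?_).trans ?_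
    · rw [Matrix.of_apply]
      refine (DB_Rj hL h hA i (g j)).trans ?_
      have : (i : ℕ) ≤ ν := i.2.le.trans hJν
      have := Nat.mul_le_mul_right L this
      omega
    · rw [Fintype.card_fin]
      exact Nat.mul_le_mul_right _ hJν
  intro f hf M N B hM hN hNb hB
  obtain ⟨Y, hY⟩ : ∃ Y, Y = (M + ν) ^ (L * ν) * N := ⟨_, rfl⟩
  have hMν : 1 ≤ (M + ν) ^ (L * ν) := Nat.one_le_pow _ _ (by omega)
  have hY1 : 1 ≤ Y := by rw [hY]; exact Nat.mul_pos hMν hN
  have hB0 : 0 ≤ B := (norm_nonneg _).trans (hB 0 (Nat.zero_le _))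
  have hpow : ∀ i ≤ ν, (M + i) ^ (L * i) ≤ (M + ν) ^ (L * ν) := by
    intro i hi
    exact (Nat.pow_le_pow_left (by omega) _).trans
      (Nat.pow_le_pow_right (by omega) (Nat.mul_le_mul_left _ hi))
  have hentry : ∀ i ≤ ν, ∀ γ, (((Rj L R i).coeff γ).eval (M : ℤ)).natAbs ≤ Y := by
    intro i hi γ
    refine (natAbs_le_N1 (M : ℤ) (Rj L R i) γ).trans ((N1_Rj hL h i M).trans ?_)
    rw [hY]
    exact Nat.mul_le_mul (hpow i hi) (hNb i hi)
  have hx : ∀ i : Fin J, (((Matrix.of fun (i j : Fin J) =>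
          (Rj L R i).coeff (g j)).updateRow i (fun j => (1 : Gx m).coeff (g j))).det.eval
          (M : ℤ)).natAbs ≤ ν.factorial * Y ^ ν := by
    intro i
    refine (det_eval_le _ M Y ?_).trans ?_
    · intro i' j
      by_cases hi : i' = i
      · subst hi
        rw [Matrix.updateRow_self, MvPolynomial.coeff_one]
        split_ifs
        · simpa using hY1
        · simp
      · rw [Matrix.updateRow_ne hi, Matrix.of_apply]
        exact hentry _ (i'.2.le.trans hJν) _
    · exact Nat.mul_le_mul (Nat.factorial_le hJν) (Nat.pow_le_pow_right hY1 hJν)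
  have hval : ∀ i ≤ ν, ‖ev (M : ℂ) (fun k => f k (M : ℂ)) (Rj L R i)‖ ≤
      (((M + ν) ^ (L * ν) : ℕ) : ℝ) * B := by
    intro i hi
    refine (ev_Rj hL h hf i M hM).trans ?_
    have h1 : (((M + i : ℕ) : ℝ) ^ (L * i)) ≤ (((M + ν) ^ (L * ν) : ℕ) : ℝ) := by
      exact_mod_cast hpow i hi
    exact mul_le_mul h1 (hB i hi) (norm_nonneg _) (Nat.cast_nonneg _)
  have h1 := congrArg (ev (M : ℂ) (fun k => f k (M : ℂ))) hrel
  rw [ev_C, aeval_nat, map_sum] at h1
  have h2 : ‖((((Matrix.of fun (i j : Fin J) => (Rj L R i).coeff (g j)).det.eval (M : ℤ) : ℤ)) :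
      ℂ)‖ ≤ ∑ _i : Fin J, ((ν.factorial * Y ^ ν : ℕ) : ℝ) *
        ((((M + ν) ^ (L * ν) : ℕ) : ℝ) * B) := by
    rw [h1]
    refine (norm_sum_le _ _).trans (Finset.sum_le_sum fun i _ => ?_)
    rw [map_mul, ev_C, aeval_nat, norm_mul]
    refine mul_le_mul ?_ (hval i (i.2.le.trans hJν)) (norm_nonneg _) (Nat.cast_nonneg _)
    rw [Complex.norm_intCast, ← Int.cast_abs, Int.abs_eq_natAbs, Int.cast_natCast]
    exact_mod_cast hx i
  rw [Complex.norm_intCast, ← Int.cast_abs, Int.abs_eq_natAbs, Int.cast_natCast] at h2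
  refine h2.trans ?_
  rw [Finset.sum_const, Finset.card_univ, Fintype.card_fin, nsmul_eq_mul]
  have h3 : J * ((ν.factorial * Y ^ ν) * ((M + ν) ^ (L * ν))) ≤
      ν * ν.factorial * ((M + ν) ^ (L * ν) * N) ^ (ν + 1) := by
    rw [← hY]
    have h4 : (M + ν) ^ (L * ν) ≤ Y := by
      rw [hY]
      exact Nat.le_mul_of_pos_right _ hN
    calc J * ((ν.factorial * Y ^ ν) * ((M + ν) ^ (L * ν)))
        ≤ ν * ((ν.factorial * Y ^ ν) * Y) := Nat.mul_le_mul hJν (Nat.mul_le_mul_left _ h4)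
      _ = ν * ν.factorial * Y ^ (ν + 1) := by ring
  have h5 : ((J * ((ν.factorial * Y ^ ν) * ((M + ν) ^ (L * ν))) : ℕ) : ℝ) ≤
      ((ν * ν.factorial * ((M + ν) ^ (L * ν) * N) ^ (ν + 1) : ℕ) : ℝ) := by exact_mod_cast h3
  calc (J : ℝ) * (((ν.factorial * Y ^ ν : ℕ) : ℝ) * ((((M + ν) ^ (L * ν) : ℕ) : ℝ) * B))
      = ((J * ((ν.factorial * Y ^ ν) * ((M + ν) ^ (L * ν))) : ℕ) : ℝ) * B := by
        push_cast; ring
    _ ≤ _ := mul_le_mul_of_nonneg_right h5 hB0

theorem card_mons_le (m E : ℕ) : (mons m E).card ≤ (E + 1) ^ m := by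
  classical
  have h1 : (mons m E) ⊆ (Finset.univ : Finset (Fin m → Fin (E + 1))).image
      (fun f => Finsupp.equivFunOnFinite.symm (fun i => ((f i : Fin (E + 1)) : ℕ))) := by
    intro γ hγ
    rw [mem_mons] at hγ
    rw [Finset.mem_image]
    refine ⟨fun i => ⟨γ i, ?_⟩, Finset.mem_univ _, ?_⟩
    · have := Finsupp.le_degree i γ
      omega
    · ext i
      simp
  refine (Finset.card_le_card h1).trans (Finset.card_image_le.trans ?_)
  simp

/-- the lower bound at an integer, explicit in the degree -/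
theorem elim_lower_U (m A E m₀ ν : ℕ) (p : Polynomial (G m)) (hν : (E + 1) ^ m ≤ ν)
    (hm₀ : 1 ≤ m₀) (hp : p ≠ 0) (hA : p.natDegree ≤ A)
    (hE : ∀ k, (p.coeff k).totalDegree ≤ E) :
    ∃ M : ℕ, m₀ ≤ M ∧ M ≤ m₀ + ν * (A + ν * ((m + 1) * E)) ∧
      ∀ N : ℕ, 1 ≤ N → (∀ i ≤ ν, N1 (p.eval (((M + i : ℕ) : ℤ) : G m)) ≤ N) →
        ∃ i ≤ ν, 1 / ((ν * ν.factorial * ((M + ν) ^ ((m + 1) * E * ν) * N) ^ (ν + 1) : ℕ) : ℝ) ≤
          ‖evg (ht m) ((M + i : ℕ) : ℂ) p‖ := by
  obtain ⟨q, hq0, hqd, hq⟩ := elimU (L := (m + 1) * E) rfl ((card_mons_le m E).trans hν)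
    (cv_ne_zero hp) (totalDegree_cv hE) (DB_cv hA)
  obtain ⟨M, hM1, hM2, hM3⟩ := exists_not_root q hq0 _ m₀ hqd
  refine ⟨M, hM1, hM2, fun N hN hNb => ?_⟩
  by_contra hcon
  push Not at hcon
  have hν1 : 1 ≤ ν := (Nat.one_le_pow _ _ (Nat.succ_pos E)).trans hν
  set Y : ℝ := ((ν * ν.factorial * ((M + ν) ^ ((m + 1) * E * ν) * N) ^ (ν + 1) : ℕ) : ℝ) with hY
  have hYpos : 0 < Y := by
    rw [hY]
    have : 0 < ν * ν.factorial * ((M + ν) ^ ((m + 1) * E * ν) * N) ^ (ν + 1) := by
      have h1 : 0 < (M + ν) ^ ((m + 1) * E * ν) := pow_pos (by omega) _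
      have h2 : 0 < ν.factorial := Nat.factorial_pos ν
      positivity
    exact_mod_cast this
  obtain ⟨B, hB1, hB2⟩ : ∃ B : ℝ, B < 1 / Y ∧ ∀ i ≤ ν, ‖evg (ht m) ((M + i : ℕ) : ℂ) p‖ ≤ B := by
    obtain ⟨i₀, hi₀, hmax⟩ := Finset.exists_max_image (Finset.range (ν + 1))
      (fun i => ‖evg (ht m) ((M + i : ℕ) : ℂ) p‖) ⟨0, by simp⟩
    refine ⟨_, hcon i₀ (by simpa [Nat.lt_succ_iff] using hi₀), fun i hi => ?_⟩
    exact hmax i (by simpa [Nat.lt_succ_iff] using hi)
  have h1 := hq (ht m) (FE_ht m) M N B (by omega) hN (fun i hi => by rw [sp_cv]; exact hNb i hi)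
    (fun i hi => by rw [ev_cv]; exact hB2 i hi)
  have h2 : (1 : ℝ) ≤ ((q.eval (M : ℤ)).natAbs : ℝ) := by
    exact_mod_cast Int.natAbs_pos.2 hM3
  have h3 : Y * B < 1 := by
    calc Y * B < Y * (1 / Y) := mul_lt_mul_of_pos_left hB1 hYpos
      _ = 1 := mul_one_div_cancel hYpos.ne'
  linarith

end Pool.Agent.Lib.MP_524521_nt.RA
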