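import Pool.Agent.Lib.MP_524521_nt.RA.FewC
import Pool.Agent.Lib.MP_524521_nt.RA.ElimU

/-! The number part of the uniform zero estimate (helper27). -/

open Polynomial

namespace Pool.Agent.Lib.MP_524521_nt.RA

theorem low_U (m : ℕ) : ∃ e : ℕ, 1 ≤ e ∧ ∀ (U A E : ℕ) (h : ℝ), 1 ≤ U → 1 ≤ A → 1 ≤ h →
    Real.log U ≤ h → ∀ p : Polynomial (G m), p ≠ 0 → p.natDegree ≤ A →
      (∀ k, (p.coeff k).totalDegree ≤ E) → (∀ k, (N1 (p.coeff k) : ℝ) ≤ Real.exp h) →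
      ∃ M : ℕ, 3 * U ≤ M ∧ (M : ℝ) ≤ U * (e * (A + E + h)) ^ e ∧
        Real.exp (-(e * (A + E + h)) ^ e) ≤
          ‖evg (fun j z => ht m j ((U : ℂ) * z)) ((M : ℂ) / U) p‖ :=
  low_U_of m fun A E m₀ ν p h1 h2 h3 h4 h5 => elim_lower_U m A E m₀ ν p h1 h2 h3 h4 h5

end Pool.Agent.Lib.MP_524521_nt.RA
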