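import Pool.Agent.Lib.MP_524521_nt.RA.FewC
import Pool.Agent.Lib.MP_524521_nt.RA.LowU

/-! The uniform zero estimate for the Hurwitz zeta functions. -/

namespace Pool.Agent.Lib.MP_524521_nt.RA

theorem zuc_ht (m : ℕ) : ∃ C : ℕ, 1 ≤ C ∧ ∀ U : ℕ, 1 ≤ U →
    ZUC (fun j z => ht m j ((U : ℂ) * z)) 1 2 C (Real.log U) :=
  zuc_of_low m (low_U m)

end Pool.Agent.Lib.MP_524521_nt.RA
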