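import Mathlib
import Pool.Agent.Lib.MP_524521_nt.RA.LocalPoly
import Pool.Agent.Lib.MP_524521_nt.RA.ZUht
import Pool.Agent.Lib.MP_524521_nt.RA.FewC

/-!
# All positive rationals of bounded height

Dyadic windows, and the shift by one.
-/

open MvPolynomial

namespace Pool.Agent.Lib.MP_524521_nt.RA

/-- the statement for all rationals `≥ 1` of height at most `T` -/
def WinHt (m D C : ℕ) : Prop :=
  ∀ T H : ℕ, 2 ≤ T → 2 ≤ H → ∀ S : Finset ℚ,
    (∀ s ∈ S, 1 ≤ s ∧ s.num ≤ T ∧ s.den ≤ T ∧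
      ∃ P : G m, P ≠ 0 ∧ P.totalDegree ≤ D ∧ (∀ d, (P.coeff d).natAbs ≤ H) ∧
        ‖MvPolynomial.aeval (fun j => ht m j (s : ℂ)) P‖ < Real.exp (-(C * Real.log (T * H)) ^ C)) →
    (S.card : ℝ) ≤ (C * Real.log (T * H)) ^ C

theorem ZUC.mono_h {m : ℕ} {g : Fin m → ℂ → ℂ} {a b : ℝ} {C : ℕ} {h₀ h₁ : ℝ}
    (hg : ZUC g a b C h₀) (h : h₀ ≤ h₁) : ZUC g a b C h₁ := by
  intro A E hh δ hA hh1 hh2
  exact hg A E hh δ hA hh1 (h.trans hh2)

/-- the dyadic index of a rational `≥ 1` -/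
theorem dyadic (s : ℚ) (hs : 1 ≤ s) (T : ℕ) (hn : s.num ≤ T) :
    ∃ k : ℕ, k ≤ Nat.log 2 T ∧ (2 : ℚ) ^ k ≤ s ∧ s ≤ 2 * 2 ^ k := by
  have hf1 : 1 ≤ ⌊s⌋₊ := Nat.le_floor (by simpa using hs)
  have hs0 : 0 ≤ s := by linarith
  have hfT : ⌊s⌋₊ ≤ T := by
    have h1 : (⌊s⌋₊ : ℚ) ≤ s := Nat.floor_le hs0
    have h2 : s ≤ s.num := by
      have h3 : s * s.den = s.num := Rat.mul_den_eq_num s
      have h4 : (1 : ℚ) ≤ s.den := by exact_mod_cast s.den_pos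
      nlinarith
    have h5 : (s.num : ℚ) ≤ T := by exact_mod_cast hn
    have h6 : (⌊s⌋₊ : ℚ) ≤ T := by linarith
    exact_mod_cast h6
  refine ⟨Nat.log 2 ⌊s⌋₊, Nat.log_mono_right hfT, ?_, ?_⟩
  · have h1 : 2 ^ Nat.log 2 ⌊s⌋₊ ≤ ⌊s⌋₊ := Nat.pow_log_le_self 2 (by omega)
    have h2 : ((2 ^ Nat.log 2 ⌊s⌋₊ : ℕ) : ℚ) ≤ ⌊s⌋₊ := by exact_mod_cast h1
    push_cast at h2
    exact h2.trans (Nat.floor_le hs0)
  · have h1 : ⌊s⌋₊ < 2 ^ (Nat.log 2 ⌊s⌋₊).succ := Nat.lt_pow_succ_log_self (by norm_num) _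
    have h2 : ((⌊s⌋₊ + 1 : ℕ) : ℚ) ≤ ((2 ^ (Nat.log 2 ⌊s⌋₊).succ : ℕ) : ℚ) := by exact_mod_cast h1
    have h3 : s < ⌊s⌋₊ + 1 := Nat.lt_floor_add_one s
    push_cast at h2
    rw [pow_succ] at h2
    linarith

theorem winHt (m D : ℕ) : ∃ C : ℕ, 1 ≤ C ∧ WinHt m D C := by
  classical
  obtain ⟨Cz, hCz, hZ⟩ := zuc_ht m
  obtain ⟨Z₀, hZ₀, hbd⟩ := ht_bdd m (1 / 2) (by norm_num)
  obtain ⟨C, hC, hloc⟩ := local_poly m D Cz (a := 1) (b := 2) (ρ := 1 / 4)
    (Z₀ := Z₀) (by norm_num) hZ₀ hCz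
  refine ⟨2 * C + 4, by omega, ?_⟩
  intro T H hT hH S hS
  have hTr : (2 : ℝ) ≤ T := by exact_mod_cast hT
  have hHr : (2 : ℝ) ≤ H := by exact_mod_cast hH
  set ℓ := Real.log (T * H) with hℓ
  have hℓ1 : 1 ≤ ℓ := by
    have h1 : Real.log 4 ≤ ℓ := Real.log_le_log (by norm_num) (by nlinarith)
    have h2 : Real.log 4 = 2 * Real.log 2 := by
      rw [show (4 : ℝ) = 2 ^ 2 by norm_num, Real.log_pow]; norm_num
    have := Real.log_two_gt_d9
    linarith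
  have hlogT0 : 0 ≤ Real.log T := Real.log_nonneg (by linarith)
  have hlogH0 : 0 ≤ Real.log H := Real.log_nonneg (by linarith)
  have hℓ' : ℓ = Real.log T + Real.log H := Real.log_mul (by linarith) (by linarith)
  have hCr : (1 : ℝ) ≤ C := by exact_mod_cast hC
  -- parameters for the local theorem
  have hT2 : 2 ≤ T ^ 2 := by nlinarith
  have hlog2 : Real.log (((T ^ 2 : ℕ) : ℝ) * H) ≤ 2 * ℓ := by
    push_cast
    rw [Real.log_mul (by positivity) (by linarith), Real.log_pow, hℓ']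
    push_cast
    linarith
  have hlog2' : 0 ≤ Real.log (((T ^ 2 : ℕ) : ℝ) * H) := by
    apply Real.log_nonneg
    have : (1 : ℝ) ≤ ((T ^ 2 : ℕ) : ℝ) := by exact_mod_cast (by omega : 1 ≤ T ^ 2)
    nlinarith
  have hB1 : (C * Real.log (((T ^ 2 : ℕ) : ℝ) * H)) ^ C ≤ (2 * C * ℓ) ^ C := by
    refine pow_le_pow_left₀ (by positivity) ?_ _
    calc C * Real.log (((T ^ 2 : ℕ) : ℝ) * H) ≤ C * (2 * ℓ) := by gcongr
      _ = 2 * C * ℓ := by ring
  have hC2 : ((2 * C + 4 : ℕ) : ℝ) = 2 * C + 4 := by push_cast; ring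
  have hbase : 2 * C * ℓ ≤ (2 * C + 4 : ℕ) * ℓ := by rw [hC2]; nlinarith
  have hbase1 : 1 ≤ ((2 * C + 4 : ℕ) : ℝ) * ℓ := by rw [hC2]; nlinarith
  have hB2 : (2 * C * ℓ) ^ C * (4 * ℓ) ≤ (((2 * C + 4 : ℕ) : ℝ) * ℓ) ^ (2 * C + 4) := by
    calc (2 * C * ℓ) ^ C * (4 * ℓ) ≤ (((2 * C + 4 : ℕ) : ℝ) * ℓ) ^ C * (((2 * C + 4 : ℕ) : ℝ) * ℓ) := by
          apply mul_le_mul _ _ (by positivity) (by positivity)
          · exact pow_le_pow_left₀ (by positivity) hbase _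
          · rw [hC2]; nlinarith
      _ = (((2 * C + 4 : ℕ) : ℝ) * ℓ) ^ (C + 1) := (pow_succ _ _).symm
      _ ≤ _ := pow_le_pow_right₀ hbase1 (by omega)
  have hB3 : (2 * C * ℓ) ^ C ≤ (((2 * C + 4 : ℕ) : ℝ) * ℓ) ^ (2 * C + 4) := by
    refine le_trans ?_ hB2
    have : 0 ≤ (2 * C * ℓ) ^ C := by positivity
    nlinarith
  -- the windows
  let W : ℕ → Finset ℚ := fun k => S.filter fun s => (2 : ℚ) ^ k ≤ s ∧ s ≤ 2 * 2 ^ k
  have hcover : S ⊆ (Finset.range (Nat.log 2 T + 1)).biUnion W := by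
    intro s hs
    obtain ⟨k, hk, h1, h2⟩ := dyadic s (hS s hs).1 T (hS s hs).2.1
    exact Finset.mem_biUnion.2 ⟨k, Finset.mem_range.2 (by omega), Finset.mem_filter.2 ⟨hs, h1, h2⟩⟩
  have hWk : ∀ k ∈ Finset.range (Nat.log 2 T + 1), ((W k).card : ℝ) ≤ (2 * C * ℓ) ^ C := by
    intro k hk
    have hkT : 2 ^ k ≤ T := by
      have h1 : k ≤ Nat.log 2 T := by have := Finset.mem_range.1 hk; omega
      exact (Nat.pow_le_pow_right (by norm_num) h1).trans (Nat.pow_log_le_self 2 (by omega))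
    have hU1 : 1 ≤ 2 ^ k := Nat.one_le_two_pow
    have hU1r : (1 : ℝ) ≤ ((2 ^ k : ℕ) : ℝ) := by exact_mod_cast hU1
    have hUq : (0 : ℚ) < ((2 ^ k : ℕ) : ℚ) := by exact_mod_cast hU1
    refine le_trans ?_ hB1
    have hinj : Function.Injective fun s : ℚ => s / ((2 ^ k : ℕ) : ℚ) := by
      intro x y h
      exact (div_left_inj' hUq.ne').1 h
    rw [← Finset.card_image_of_injective (W k) hinj]
    refine hloc (fun j z => ht m j (((2 ^ k : ℕ) : ℂ) * z)) ?_ ?_ (T ^ 2) H hT2 hH ?_ _ ?_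
    · -- differentiable
      intro x hx1 _ j
      refine (hz_diff _ (by omega)).comp ((differentiable_id.const_mul _).differentiableOn) ?_
      intro z hz
      rw [Metric.mem_ball, dist_eq_norm] at hz
      have h1 : |(z - x).re| ≤ ‖z - x‖ := Complex.abs_re_le_norm _
      have h2 := neg_abs_le (z - x).re
      simp only [Complex.sub_re, Complex.ofReal_re] at h1 h2
      have h3 : 0 < z.re := by linarith
      show 0 < (((2 ^ k : ℕ) : ℂ) * z).re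
      rw [← Complex.ofReal_natCast, Complex.re_ofReal_mul]
      positivity
    · -- bounded
      intro x hx1 _ z hz j
      apply hbd
      rw [Metric.mem_closedBall, dist_eq_norm] at hz
      have h1 : |(z - x).re| ≤ ‖z - x‖ := Complex.abs_re_le_norm _
      have h2 := neg_abs_le (z - x).re
      simp only [Complex.sub_re, Complex.ofReal_re] at h1 h2
      have h3 : 1 / 2 ≤ z.re := by linarith
      rw [← Complex.ofReal_natCast, Complex.re_ofReal_mul]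
      nlinarith
    · -- zero estimate
      refine (hZ (2 ^ k) hU1).mono_h ?_
      apply Real.log_le_log (by linarith)
      have h1 : 2 ^ k ≤ T ^ 2 := hkT.trans (by nlinarith)
      exact_mod_cast h1
    · -- the points
      intro s hs
      obtain ⟨x, hx, rfl⟩ := Finset.mem_image.1 hs
      obtain ⟨hxS, hx1, hx2⟩ := Finset.mem_filter.1 hx
      obtain ⟨h1, h2, h3, P, hP0, hPD, hPH, hPs⟩ := hS x hxS
      have hx1r : ((2 ^ k : ℕ) : ℝ) ≤ x := by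
        have : (((2 : ℚ) ^ k : ℚ) : ℝ) ≤ x := by exact_mod_cast hx1
        push_cast at this ⊢
        exact this
      have hx2r : (x : ℝ) ≤ 2 * ((2 ^ k : ℕ) : ℝ) := by
        have : (x : ℝ) ≤ ((2 * (2 : ℚ) ^ k : ℚ) : ℝ) := by exact_mod_cast hx2
        push_cast at this ⊢
        exact this
      have hU0 : (0 : ℝ) < ((2 ^ k : ℕ) : ℝ) := by linarith
      refine ⟨?_, ?_, ?_, P, hP0, hPD, hPH, ?_⟩
      · rw [Rat.cast_div, Rat.cast_natCast, le_div_iff₀ hU0]; linarith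
      · rw [Rat.cast_div, Rat.cast_natCast, div_le_iff₀ hU0]; linarith
      · have h5 : (x / ((2 ^ k : ℕ) : ℚ)).den ∣ x.den * 2 ^ k := by
          have h6 : x / ((2 ^ k : ℕ) : ℚ) = Rat.divInt x.num ((x.den * 2 ^ k : ℕ) : ℤ) := by
            rw [Rat.divInt_eq_div]
            push_cast
            conv_lhs => rw [← Rat.num_div_den x]
            rw [div_div]
          have h7 := Rat.den_dvd x.num ((x.den * 2 ^ k : ℕ) : ℤ)
          rw [← h6] at h7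
          exact_mod_cast h7
        have h8 : 0 < x.den * 2 ^ k := Nat.mul_pos x.den_pos (by positivity)
        calc _ ≤ x.den * 2 ^ k := Nat.le_of_dvd h8 h5
          _ ≤ T * T := Nat.mul_le_mul h3 hkT
          _ = T ^ 2 := by ring
      · have h5 : (fun j => ht m j (((2 ^ k : ℕ) : ℂ) * ((x / ((2 ^ k : ℕ) : ℚ) : ℚ) : ℂ))) =
            fun j => ht m j (x : ℂ) := by
          funext j
          congr 1
          rw [Rat.cast_div, Rat.cast_natCast, mul_div_cancel₀]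
          exact_mod_cast (by omega : 2 ^ k ≠ 0)
        rw [h5]
        refine hPs.trans_le (Real.exp_le_exp.2 ?_)
        have := hB1.trans hB3
        linarith
  have hlog2T : ((Nat.log 2 T : ℕ) : ℝ) + 1 ≤ 4 * ℓ := by
    have h1 : 2 ^ Nat.log 2 T ≤ T := Nat.pow_log_le_self 2 (by omega)
    have h2 : ((2 : ℝ)) ^ Nat.log 2 T ≤ T := by exact_mod_cast h1
    have h3 : (Nat.log 2 T : ℝ) * Real.log 2 ≤ Real.log T := by
      rw [← Real.log_pow]
      exact Real.log_le_log (by positivity) h2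
    have h4 := Real.log_two_gt_d9
    have h5 : (0 : ℝ) ≤ Nat.log 2 T := Nat.cast_nonneg _
    nlinarith
  calc (S.card : ℝ) ≤ (((Finset.range (Nat.log 2 T + 1)).biUnion W).card : ℝ) := by
        exact_mod_cast Finset.card_le_card hcover
    _ ≤ ∑ k ∈ Finset.range (Nat.log 2 T + 1), ((W k).card : ℝ) := by
        exact_mod_cast Finset.card_biUnion_le
    _ ≤ ∑ _k ∈ Finset.range (Nat.log 2 T + 1), (2 * C * ℓ) ^ C := Finset.sum_le_sum hWk
    _ = (Nat.log 2 T + 1) * (2 * C * ℓ) ^ C := by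
        rw [Finset.sum_const, Finset.card_range, nsmul_eq_mul]
        push_cast
        ring
    _ ≤ (2 * C * ℓ) ^ C * (4 * ℓ) := by
        rw [mul_comm]
        exact mul_le_mul_of_nonneg_left hlog2T (by positivity)
    _ ≤ _ := hB2

/-- the shift by one -/
theorem halfP (m D C₀ : ℕ) (hC₀ : 1 ≤ C₀) (h : WinHt m D C₀) :
    ∃ C : ℕ, ∀ T H : ℕ, 2 ≤ T → 2 ≤ H → ∀ S : Finset ℚ,
    (∀ x ∈ S, 0 < x ∧ x.num ≤ T ∧ x.den ≤ T ∧
      ∃ P : G m, P ≠ 0 ∧ P.totalDegree ≤ D ∧ (∀ d, (P.coeff d).natAbs ≤ H) ∧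
        ‖MvPolynomial.aeval (fun j => ht m j (x : ℂ)) P‖ < Real.exp (-Real.log (T * H) ^ C)) →
    (S.card : ℝ) ≤ Real.log (T * H) ^ C := by
  classical
  obtain ⟨w, hw⟩ : ∃ w, w = (m + 1) * D := ⟨_, rfl⟩
  obtain ⟨ν, hν⟩ : ∃ ν, ν = (mons m D).card := ⟨_, rfl⟩
  obtain ⟨c₁, hc₁⟩ : ∃ c₁, c₁ = 2 * w + ν + 2 := ⟨_, rfl⟩
  have hν1 : 1 ≤ ν := hν ▸ one_le_card_mons m D
  obtain ⟨C₂, hC₂⟩ := pow_unbounded_of_one_lt (2 * ((C₀ : ℝ) * c₁) ^ C₀) (by norm_num : (1 : ℝ) < 1.3)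
  refine ⟨C₀ + C₂, fun T H hT hH S hS => ?_⟩
  -- `ℓ = log (T H)`
  obtain ⟨ℓ, hℓ⟩ : ∃ ℓ, ℓ = Real.log (T * H) := ⟨_, rfl⟩
  have hT' : (2 : ℝ) ≤ T := by exact_mod_cast hT
  have hH' : (2 : ℝ) ≤ H := by exact_mod_cast hH
  have hℓ1 : 1.3 ≤ ℓ := by
    have h1 : Real.log 4 ≤ ℓ := by
      rw [hℓ]
      exact Real.log_le_log (by norm_num) (by nlinarith)
    have h2 : Real.log 4 = 2 * Real.log 2 := by
      rw [show (4 : ℝ) = 2 ^ 2 by norm_num, Real.log_pow]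
      norm_num
    have := Real.log_two_gt_d9
    linarith
  have hℓT : Real.log T ≤ ℓ := by
    rw [hℓ]
    exact Real.log_le_log (by linarith) (by nlinarith)
  have hlogT : 0 ≤ Real.log T := Real.log_nonneg (by linarith)
  have hlog2 : Real.log 2 ≤ 1 := by
    have := Real.log_two_lt_d9
    linarith
  -- the new height
  obtain ⟨H', hH'def⟩ : ∃ H', H' = ν * H * (2 * T) ^ w := ⟨_, rfl⟩
  have hbT : 1 ≤ (2 * T) ^ w := Nat.one_le_pow _ _ (by omega)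
  have hH2 : 2 ≤ H' := by
    rw [hH'def]
    calc 2 ≤ H := hH
      _ = 1 * H * 1 := by ring
      _ ≤ ν * H * (2 * T) ^ w := Nat.mul_le_mul (Nat.mul_le_mul_right _ hν1) hbT
  have hlogbT : Real.log (((2 * T : ℕ) : ℕ) : ℝ) ≤ 1 + Real.log T := by
    rw [Nat.cast_mul, Real.log_mul (by norm_num) (by linarith)]
    push_cast
    linarith
  have hwl : (w : ℝ) * Real.log (((2 * T : ℕ) : ℕ) : ℝ) ≤ 2 * w * ℓ := by
    have h1 : (w : ℝ) * Real.log (((2 * T : ℕ) : ℕ) : ℝ) ≤ w * (1 + ℓ) :=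
      mul_le_mul_of_nonneg_left (hlogbT.trans (by linarith)) (Nat.cast_nonneg _)
    have h2 : (0 : ℝ) ≤ w * (ℓ - 1) := mul_nonneg (Nat.cast_nonneg _) (by linarith)
    nlinarith
  have h2T : (0 : ℝ) < (((2 * T : ℕ) : ℕ) : ℝ) := by
    have : 0 < 2 * T := by omega
    exact_mod_cast this
  have hlog : Real.log (((2 * T : ℕ) : ℝ) * H') ≤ c₁ * ℓ := by
    have e1 : ((2 * T : ℕ) : ℝ) * H' = (T * H : ℝ) * 2 * ν * (((2 * T : ℕ) : ℕ) : ℝ) ^ w := by
      rw [hH'def]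
      push_cast
      ring
    have hνpos : (0 : ℝ) < ν := by exact_mod_cast hν1
    rw [e1, Real.log_mul (by positivity) (by positivity), Real.log_mul (by positivity) hνpos.ne',
      Real.log_mul (by positivity) (by norm_num), Real.log_pow, ← hℓ]
    have h1 := Real.log_le_self (x := (ν : ℝ)) hνpos.le
    have h3 : (c₁ : ℝ) = 2 * w + ν + 2 := by
      rw [hc₁]
      push_cast
      ring
    rw [h3]
    have h5 : (0 : ℝ) ≤ ν * (ℓ - 1) := mul_nonneg hνpos.le (by linarith)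
    nlinarith
  have hlog0 : 0 ≤ Real.log (((2 * T : ℕ) : ℝ) * H') := Real.log_nonneg (by
    have h1 : (2 : ℝ) ≤ H' := by exact_mod_cast hH2
    have h2 : (1 : ℝ) ≤ ((2 * T : ℕ) : ℝ) := by exact_mod_cast (by omega : 1 ≤ 2 * T)
    nlinarith)
  have hc₁1 : (1 : ℝ) ≤ c₁ := by
    rw [hc₁]
    push_cast
    have : (0 : ℝ) ≤ w := by positivity
    have : (0 : ℝ) ≤ ν := by positivity
    linarith
  have hC₀' : (1 : ℝ) ≤ C₀ := by exact_mod_cast hC₀
  have hbase : c₁ * ℓ ≤ C₀ * c₁ * ℓ := by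
    nlinarith [mul_nonneg (by linarith : (0:ℝ) ≤ c₁) (by linarith : (0:ℝ) ≤ ℓ)]
  have hbig : 2 * (C₀ * c₁ * ℓ) ^ C₀ ≤ ℓ ^ (C₀ + C₂) := by
    have h1 : (1.3 : ℝ) ^ C₂ ≤ ℓ ^ C₂ := pow_le_pow_left₀ (by norm_num) hℓ1 _
    calc 2 * (C₀ * c₁ * ℓ) ^ C₀ = (2 * ((C₀ : ℝ) * c₁) ^ C₀) * ℓ ^ C₀ := by
          rw [mul_pow]
          ring
      _ ≤ ℓ ^ C₂ * ℓ ^ C₀ := by
          refine mul_le_mul_of_nonneg_right (hC₂.le.trans h1) (by positivity)
      _ = ℓ ^ (C₀ + C₂) := by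
          rw [← pow_add, add_comm]
  have hself : c₁ * ℓ ≤ (C₀ * c₁ * ℓ) ^ C₀ := by
    have h1 : (1 : ℝ) ≤ C₀ * c₁ * ℓ := by nlinarith
    exact hbase.trans (le_self_pow₀ h1 (by omega))
  have hpow : (C₀ * Real.log (((2 * T : ℕ) : ℝ) * H')) ^ C₀ ≤ (C₀ * c₁ * ℓ) ^ C₀ := by
    refine pow_le_pow_left₀ (by positivity) ?_ _
    rw [mul_assoc]
    exact mul_le_mul_of_nonneg_left hlog (by positivity)
  -- the translated points
  have hkey := h (2 * T) H' (by omega) hH2 (S.image fun x => x + 1) ?_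
  · rw [Finset.card_image_of_injective _ (add_left_injective 1)] at hkey
    refine hkey.trans (hpow.trans ?_)
    rw [← hℓ]
    have : (0 : ℝ) ≤ (C₀ * c₁ * ℓ) ^ C₀ := by positivity
    linarith
  intro s hs
  obtain ⟨x, hx, rfl⟩ := Finset.mem_image.1 hs
  obtain ⟨hx0, hxn, hxT, P, hP0, hPD, hPH, hPs⟩ := hS x hx
  have hden : (x + 1).den = x.den := by
    simp
  have hnum1 : (x + 1).num = x.num + x.den := by
    have h1 : ((x + 1).num : ℚ) = (x + 1) * (x + 1).den := (Rat.mul_den_eq_num _).symm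
    have h2 : (x.num : ℚ) = x * x.den := (Rat.mul_den_eq_num _).symm
    have h3 : (((x + 1).num : ℤ) : ℚ) = ((x.num + x.den : ℤ) : ℚ) := by
      rw [h1, hden]
      push_cast
      rw [h2]
      ring
    exact_mod_cast h3
  have hnum : 0 < x.num := Rat.num_pos.2 hx0
  obtain ⟨a, ha⟩ : ∃ a, a = x.num.toNat := ⟨_, rfl⟩
  have ha0 : a ≠ 0 := by omega
  have haT : a ≤ T := by omega
  have hsum : a + x.den ≤ 2 * T := by omega
  have hwP : ∀ γ ∈ P.support, wt γ ≤ w := by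
    rw [hw]
    exact wt_le' hPD
  refine ⟨?_, ?_, ?_, trn a x.den w P, trn_ne_zero ha0 hP0 hwP, totalDegree_trn hPD, ?_, ?_⟩
  · linarith
  · rw [hnum1]
    push_cast
    omega
  · rw [hden]
    omega
  · intro d
    refine (natAbs_coeff_le _ d).trans ((N1_trn hwP).trans ?_)
    rw [hH'def, hν]
    exact Nat.mul_le_mul (N1_le_card hPD hPH) (Nat.pow_le_pow_left hsum _)
  · have h1 : aeval (fun j => ht m j (((x + 1 : ℚ)) : ℂ)) (trn a x.den w P) =
        (a : ℂ) ^ w * aeval (fun j => ht m j (x : ℂ)) P := by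
      rw [aeval_trn ha0 hwP]
      congr 2
      congr 1
      funext k
      rw [ha, ← ht_add_one m k x hx0]
      push_cast
      rfl
    rw [h1, norm_mul, norm_pow, Complex.norm_natCast]
    have h2 : (a : ℝ) ^ w ≤ Real.exp (c₁ * ℓ) := by
      have h3 : (a : ℝ) ≤ (((2 * T : ℕ) : ℕ) : ℝ) := by
        exact_mod_cast (by omega : a ≤ 2 * T)
      calc (a : ℝ) ^ w ≤ (((2 * T : ℕ) : ℕ) : ℝ) ^ w := pow_le_pow_left₀ (Nat.cast_nonneg _) h3 _
        _ = Real.exp (w * Real.log (((2 * T : ℕ) : ℕ) : ℝ)) := by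
            rw [Real.exp_nat_mul, Real.exp_log h2T]
        _ ≤ Real.exp (c₁ * ℓ) := by
            refine Real.exp_le_exp.2 (hwl.trans ?_)
            have h5 : (c₁ : ℝ) = 2 * w + ν + 2 := by
              rw [hc₁]
              push_cast
              ring
            rw [h5]
            have h7 : (0 : ℝ) ≤ ν * ℓ := mul_nonneg (by positivity) (by linarith)
            nlinarith
    calc (a : ℝ) ^ w * ‖aeval (fun j => ht m j (x : ℂ)) P‖
        < Real.exp (c₁ * ℓ) * Real.exp (-ℓ ^ (C₀ + C₂)) := by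
          have h3 : ‖aeval (fun j => ht m j (x : ℂ)) P‖ < Real.exp (-ℓ ^ (C₀ + C₂)) := by
            rw [hℓ]
            exact hPs
          exact mul_lt_mul_of_le_of_lt_of_nonneg_of_pos h2 h3 (norm_nonneg _) (Real.exp_pos _)
      _ = Real.exp (c₁ * ℓ - ℓ ^ (C₀ + C₂)) := by rw [← Real.exp_add]; ring_nf
      _ ≤ Real.exp (-(C₀ * Real.log (((2 * T : ℕ) : ℝ) * H')) ^ C₀) := by
          refine Real.exp_le_exp.2 ?_
          linarith

/-- all but `(log TH)^C` of the positive rationals of height at most `T` -/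
theorem final_poly (m D : ℕ) :
    ∃ C : ℕ, ∀ T H : ℕ, 2 ≤ T → 2 ≤ H →
      {x : ℚ | 0 < x ∧ x.num ≤ T ∧ x.den ≤ T ∧
        ∃ P : MvPolynomial (Fin m) ℤ, P ≠ 0 ∧ P.totalDegree ≤ D ∧ (∀ e, |P.coeff e| ≤ H) ∧
          |MvPolynomial.aeval (fun j : Fin m => hzr (j + 2) x) P| <
            Real.exp (-Real.log (T * H) ^ C)}.encard ≤
      (⌊Real.log (T * H) ^ C⌋₊ : ℕ∞) := by
  classical
  obtain ⟨C₀, hC₀, h0⟩ := winHt m D
  obtain ⟨C, hC⟩ := halfP m D C₀ hC₀ h0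
  refine ⟨C, fun T H hT hH => ?_⟩
  by_contra hcon
  push Not at hcon
  obtain ⟨s, hs, hsc⟩ := Set.exists_subset_encard_eq (Order.add_one_le_of_lt hcon)
  have hsc : s.encard = ((⌊Real.log (T * H) ^ C⌋₊ + 1 : ℕ) : ℕ∞) := by
    rw [hsc]; push_cast; rfl
  have hfin : s.Finite := Set.finite_of_encard_eq_coe hsc
  have h2 := hC T H hT hH hfin.toFinset (by
    intro x hx
    obtain ⟨h1, h2, h3, P, hP, hPD, hPH, hPs⟩ := hs (hfin.mem_toFinset.1 hx)
    refine ⟨h1, h2, h3, P, hP, hPD, fun d => ?_, ?_⟩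
    · have := hPH d
      rw [Int.abs_eq_natAbs] at this
      exact_mod_cast this
    · have h5 := norm_aeval_ht_eq (m := m) (x : ℝ) P
      rw [Complex.ofReal_ratCast] at h5
      rw [h5]
      exact hPs)
  have h3 : hfin.toFinset.card = ⌊Real.log (T * H) ^ C⌋₊ + 1 := by
    rw [hfin.encard_eq_coe_toFinset_card] at hsc
    exact_mod_cast hsc
  rw [h3] at h2
  have h4 := Nat.le_floor h2
  omega

end Pool.Agent.Lib.MP_524521_nt.RA
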