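import Mathlib
import Pool.Agent.Lib.MP_524521_nt.RA.Asym
import Pool.Agent.Lib.MP_524521_nt.RA.ElimU

/-!
# Values at large real arguments

For `x ≥ C H` every nonzero integer polynomial of degree `≤ D` and height `≤ H` in the Hurwitz zeta
values at `x` is at least `x^(-C)` in absolute value.
-/

open Polynomial

namespace Pool.Agent.Lib.MP_524521_nt.RA

open As

/-- the exponents of degree `≤ D` -/
noncomputable def MM (m D : ℕ) : Finset (Fin m →₀ ℕ) :=
  (Finsupp.finite_of_degree_le D : {d : Fin m →₀ ℕ | d.degree ≤ D}.Finite).toFinset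

theorem mem_MM {m D : ℕ} {d : Fin m →₀ ℕ} : d ∈ MM m D ↔ d.degree ≤ D := by
  simp [MM]

/-- a monomial in the Hurwitz zeta values -/
noncomputable def gx (m : ℕ) (d : Fin m →₀ ℕ) (x : ℝ) : ℝ :=
  ∏ i : Fin m, (∑' n : ℕ, 1 / (x + n) ^ ((i : ℕ) + 2)) ^ (d i)

theorem HasAs_gx (m : ℕ) (d : Fin m →₀ ℕ) : HasAs (gx m d) :=
  HasAs.prod _ (fun i _ => (HasAs_zeta _ (by omega)).pow _)

theorem norm_aeval_ht {m D : ℕ} (P : G m) (hP : P.totalDegree ≤ D) (x : ℝ) :
    ‖MvPolynomial.aeval (fun j => ht m j (x : ℂ)) P‖ =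
      |∑ d ∈ MM m D, ((P.coeff d : ℤ) : ℝ) * gx m d x| := by
  have h1 : MvPolynomial.aeval (fun j => ht m j (x : ℂ)) P =
      ((∑ d ∈ MM m D, ((P.coeff d : ℤ) : ℝ) * gx m d x : ℝ) : ℂ) := by
    rw [MvPolynomial.aeval_def, MvPolynomial.eval₂_eq']
    have h2 : P.support ⊆ MM m D := fun d hd =>
      mem_MM.2 ((MvPolynomial.le_totalDegree hd).trans hP)
    rw [← Finset.sum_subset h2 (fun d _ hd => by
      rw [MvPolynomial.notMem_support_iff.1 hd]; simp)]
    push_cast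
    apply Finset.sum_congr rfl
    intro d _
    congr 1
    unfold gx
    push_cast
    apply Finset.prod_congr rfl
    intro i _
    rw [ht, hz_real]
    push_cast
    rfl
  rw [h1, Complex.norm_real, Real.norm_eq_abs]

theorem den_common {ι : Type*} (s : Finset ι) (q : ι → ℚ[X]) (N : ℕ) :
    ∃ q0 : ℕ, 1 ≤ q0 ∧ ∀ i ∈ s, ∀ n < N, ∃ z : ℤ, (q0 : ℚ) * (q i).coeff n = z := by
  refine ⟨∏ i ∈ s, ∏ n ∈ Finset.range N, ((q i).coeff n).den,
    Finset.prod_pos fun i _ => Finset.prod_pos fun n _ => ((q i).coeff n).den_pos, ?_⟩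
  intro i hi n hn
  have h1 : ((q i).coeff n).den ∣ ∏ i ∈ s, ∏ n ∈ Finset.range N, ((q i).coeff n).den :=
    (Finset.dvd_prod_of_mem (fun n => ((q i).coeff n).den) (Finset.mem_range.2 hn)).trans
      (Finset.dvd_prod_of_mem (fun i => ∏ n ∈ Finset.range N, ((q i).coeff n).den) hi)
  obtain ⟨t, ht⟩ := h1
  refine ⟨t * ((q i).coeff n).num, ?_⟩
  rw [ht]
  push_cast
  have h2 := Rat.mul_den_eq_num ((q i).coeff n)
  linear_combination (t : ℚ) * h2

theorem abs_aeval_le_of_coeff {q : ℚ[X]} {N : ℕ} (h : ∀ j < N, q.coeff j = 0) {x : ℝ}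
    (hx : 1 ≤ x) : |aeval (1 / x) q| ≤ nq q / x ^ N := by
  have hx0 : 0 < x := by linarith
  rw [aeval_eq, nq, Finset.sum_div]
  refine (Finset.abs_sum_le_sum_abs _ _).trans (Finset.sum_le_sum fun n _ => ?_)
  rcases Nat.lt_or_ge n N with hn | hn
  · rw [h n hn]; simp
  · rw [abs_mul, abs_of_nonneg (by positivity : 0 ≤ (1 / x) ^ n), one_div_pow,
      div_eq_mul_one_div _ (x ^ N)]
    apply mul_le_mul_of_nonneg_left _ (abs_nonneg _)
    apply one_div_le_one_div_of_le (by positivity)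
    exact pow_le_pow_right₀ hx hn

theorem sum_coeff_le (q : ℚ[X]) (K : ℕ) : ∑ n ∈ Finset.range K, |(q.coeff n : ℝ)| ≤ nq q := by
  unfold nq
  rcases Nat.lt_or_ge q.natDegree K with h | h
  · refine le_of_eq (Finset.sum_subset (Finset.range_mono (by omega)) ?_).symm
    intro n _ hn
    rw [Finset.mem_range, not_lt] at hn
    rw [Polynomial.coeff_eq_zero_of_natDegree_lt (by omega)]; simp
  · exact Finset.sum_le_sum_of_subset_of_nonneg (Finset.range_mono (by omega))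
      fun _ _ _ => abs_nonneg _

theorem evg_C {m : ℕ} (g : Fin m → ℂ → ℂ) (z : ℂ) (P : G m) :
    evg g z (Polynomial.C P) = MvPolynomial.aeval (fun j => g j z) P := by
  simp [evg]

/-- some polynomial values are not too small -/
theorem not_small {m D : ℕ} (P : G m) (hP : P ≠ 0) (hPD : P.totalDegree ≤ D) (K : ℝ) (N : ℕ)
    (hN : ((m + 1) * D * (D + 1) ^ m) * ((D + 1) ^ m + 1) < N)
    (h : ∀ x : ℝ, 1 ≤ x → ‖MvPolynomial.aeval (fun j => ht m j (x : ℂ)) P‖ ≤ K / x ^ N) :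
    False := by
  set ν := (D + 1) ^ m with hν
  set e := (m + 1) * D * ν with he
  set N' := N1 P + 1 with hN'
  have hν1 : 1 ≤ ν := Nat.one_le_pow _ _ (Nat.succ_pos D)
  set B : ℝ := K * (ν * ν.factorial * (2 ^ e * N') ^ (ν + 1) : ℕ) with hB
  have hK : 0 ≤ K := by
    have := h 1 le_rfl
    rw [one_pow, div_one] at this
    exact (norm_nonneg _).trans this
  obtain ⟨M, hM1, _, hM3⟩ := elim_lower_U m 0 D (⌈B⌉₊ + 1 + ν) ν (Polynomial.C P) le_rfl
    (by omega) (by simpa using hP) (by simp) (by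
      intro k
      rw [Polynomial.coeff_C]
      split_ifs
      · exact hPD
      · simp)
  obtain ⟨i, hi, hlow⟩ := hM3 N' (by omega) (by
    intro i _
    rw [Polynomial.eval_C]
    omega)
  rw [evg_C] at hlow
  have hMpos : 1 ≤ M := by omega
  have hMr : (1:ℝ) ≤ M := by exact_mod_cast hMpos
  have hMi : (1:ℝ) ≤ ((M + i : ℕ) : ℝ) := by push_cast; have : (0:ℝ) ≤ i := Nat.cast_nonneg i; linarith
  have h1 := h ((M + i : ℕ) : ℝ) hMi
  have h2 : (((M + i : ℕ) : ℝ) : ℂ) = ((M + i : ℕ) : ℂ) := by push_cast; rfl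
  rw [h2] at h1
  have h3 := hlow.trans h1
  have hposd : 0 < (ν * ν.factorial * ((M + ν) ^ ((m + 1) * D * ν) * N') ^ (ν + 1) : ℕ) := by
    have := Nat.factorial_pos ν
    positivity
  have hposr : (0:ℝ) < ((ν * ν.factorial * ((M + ν) ^ ((m + 1) * D * ν) * N') ^ (ν + 1) : ℕ) : ℝ) := by
    exact_mod_cast hposd
  rw [div_le_div_iff₀ hposr (by positivity), one_mul] at h3
  -- M ^ N ≤ K * ...
  have h4 : (M : ℝ) ^ N ≤ ((M + i : ℕ) : ℝ) ^ N := by
    gcongr
    exact Nat.le_add_right _ _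
  have h5 : ν * ν.factorial * ((M + ν) ^ ((m + 1) * D * ν) * N') ^ (ν + 1) ≤
      (ν * ν.factorial * (2 ^ e * N') ^ (ν + 1)) * M ^ (e * (ν + 1)) := by
    have h6 : (M + ν) ^ e ≤ 2 ^ e * M ^ e := by
      rw [← mul_pow]
      apply Nat.pow_le_pow_left; omega
    calc ν * ν.factorial * ((M + ν) ^ e * N') ^ (ν + 1)
        ≤ ν * ν.factorial * ((2 ^ e * M ^ e) * N') ^ (ν + 1) := by gcongr
      _ = (ν * ν.factorial * (2 ^ e * N') ^ (ν + 1)) * M ^ (e * (ν + 1)) := by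
          rw [pow_mul]; ring_nf
  have h7 : (M : ℝ) ^ N ≤ B * M ^ (e * (ν + 1)) := by
    refine (h4.trans h3).trans ?_
    rw [hB]
    have h8 : ((ν * ν.factorial * ((M + ν) ^ ((m + 1) * D * ν) * N') ^ (ν + 1) : ℕ) : ℝ) ≤
        (((ν * ν.factorial * (2 ^ e * N') ^ (ν + 1)) * M ^ (e * (ν + 1)) : ℕ) : ℝ) := by
      exact_mod_cast h5
    calc K * ((ν * ν.factorial * ((M + ν) ^ ((m + 1) * D * ν) * N') ^ (ν + 1) : ℕ) : ℝ)
        ≤ K * (((ν * ν.factorial * (2 ^ e * N') ^ (ν + 1)) * M ^ (e * (ν + 1)) : ℕ) : ℝ) := by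
          gcongr
      _ = _ := by rw [Nat.cast_mul, Nat.cast_pow]; ring
  have h9 : (M : ℝ) ^ (e * (ν + 1)) * M ≤ M ^ N := by
    rw [← pow_succ]
    exact pow_le_pow_right₀ hMr (by omega)
  have h10 : (M : ℝ) ≤ B := by
    have h11 : 0 < (M : ℝ) ^ (e * (ν + 1)) := by positivity
    have h12 : (M : ℝ) ^ (e * (ν + 1)) * M ≤ (M : ℝ) ^ (e * (ν + 1)) * B := by
      linarith [h9.trans h7]
    exact le_of_mul_le_mul_left h12 h11
  have h13 : B ≤ ⌈B⌉₊ := Nat.le_ceil B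
  have h14 : ((⌈B⌉₊ + 1 + ν : ℕ) : ℝ) ≤ M := by exact_mod_cast hM1
  push_cast at h14
  have : (0:ℝ) ≤ ν := Nat.cast_nonneg ν
  linarith

/-- every nonzero integer polynomial of degree `≤ D` and height `≤ H` in the Hurwitz zeta values at
`x ≥ C H` is at least `x^(-C)` in absolute value -/
theorem large_x (m D : ℕ) : ∃ C : ℕ, 1 ≤ C ∧ ∀ H : ℕ, 1 ≤ H → ∀ x : ℝ, (C : ℝ) * H ≤ x →
    ∀ P : G m, P ≠ 0 → P.totalDegree ≤ D → (∀ d, (P.coeff d).natAbs ≤ H) →
      1 / x ^ C ≤ ‖MvPolynomial.aeval (fun j => ht m j (x : ℂ)) P‖ := by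
  classical
  set N := ((m + 1) * D * (D + 1) ^ m) * ((D + 1) ^ m + 1) + 1 with hN
  choose q Cd hCd hq using fun d : Fin m →₀ ℕ => HasAs_gx m d N
  obtain ⟨q0, hq0, hden⟩ := den_common (MM m D) q N
  set Ct : ℝ := ∑ d ∈ MM m D, Cd d with hCt
  set Nt : ℝ := ∑ d ∈ MM m D, nq (q d) with hNt
  have hCt0 : 0 ≤ Ct := Finset.sum_nonneg fun d _ => hCd d
  have hNt0 : 0 ≤ Nt := Finset.sum_nonneg fun d _ => nq_nonneg _
  obtain ⟨C0, hC0⟩ : ∃ C0 : ℕ, 2 * (q0 : ℝ) * (Ct + Nt) ≤ C0 := exists_nat_ge _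
  set C := C0 + 2 * q0 + N + 1 with hC
  have hCr : 2 * (q0 : ℝ) * (Ct + Nt) ≤ C := by
    have h2 : (C0 : ℝ) ≤ C := by exact_mod_cast (by omega : C0 ≤ C)
    linarith
  have hCq : (2 * q0 : ℝ) ≤ C := by exact_mod_cast (by omega : 2 * q0 ≤ C)
  refine ⟨C, by omega, ?_⟩
  intro H hH x hx P hP hPD hPH
  have hHr : (1:ℝ) ≤ H := by exact_mod_cast hH
  have hC1 : (1:ℝ) ≤ C := by exact_mod_cast (by omega : 1 ≤ C)
  have hCx : (C : ℝ) ≤ x := by nlinarith
  have hx1 : 1 ≤ x := by linarith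
  have hx0 : 0 < x := by linarith
  have hPHr : ∀ d, |((P.coeff d : ℤ) : ℝ)| ≤ H := by
    intro d
    have h1 : (((P.coeff d).natAbs : ℕ) : ℝ) ≤ H := by exact_mod_cast hPH d
    rwa [Nat.cast_natAbs, Int.cast_abs] at h1
  -- the truncated expansion
  set Q : ℚ[X] := ∑ d ∈ MM m D, Polynomial.C ((P.coeff d : ℤ) : ℚ) * q d with hQ
  have hQae : ∀ y : ℝ, aeval (1 / y) Q =
      ∑ d ∈ MM m D, ((P.coeff d : ℤ) : ℝ) * aeval (1 / y) (q d) := by
    intro y
    rw [hQ, map_sum]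
    apply Finset.sum_congr rfl
    intro d _
    rw [map_mul, aeval_C]
    simp
  have hnear : ∀ y : ℝ, 1 ≤ y → |(∑ d ∈ MM m D, ((P.coeff d : ℤ) : ℝ) * gx m d y) -
      aeval (1 / y) Q| ≤ (H * Ct) / y ^ N := by
    intro y hy
    rw [hQae, ← Finset.sum_sub_distrib]
    calc |∑ d ∈ MM m D, (((P.coeff d : ℤ) : ℝ) * gx m d y -
          ((P.coeff d : ℤ) : ℝ) * aeval (1 / y) (q d))|
        ≤ ∑ d ∈ MM m D, |((P.coeff d : ℤ) : ℝ) * gx m d y -
          ((P.coeff d : ℤ) : ℝ) * aeval (1 / y) (q d)| := Finset.abs_sum_le_sum_abs _ _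
      _ ≤ ∑ d ∈ MM m D, H * (Cd d / y ^ N) := by
          apply Finset.sum_le_sum
          intro d _
          rw [← mul_sub, abs_mul]
          exact mul_le_mul (hPHr d) (hq d y hy) (abs_nonneg _) (by positivity)
      _ = (H * Ct) / y ^ N := by
          rw [hCt, Finset.mul_sum, Finset.sum_div]
          apply Finset.sum_congr rfl
          intro d _
          ring
  -- some early coefficient does not vanish
  have hex : ∃ j < N, Q.coeff j ≠ 0 := by
    by_contra hcon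
    push Not at hcon
    apply not_small P hP hPD (nq Q + H * Ct) N (by omega)
    intro y hy
    rw [norm_aeval_ht P hPD]
    have h1 := hnear y hy
    have h2 := abs_aeval_le_of_coeff hcon hy
    rw [add_div]
    calc |∑ d ∈ MM m D, ((P.coeff d : ℤ) : ℝ) * gx m d y|
        = |aeval (1 / y) Q + ((∑ d ∈ MM m D, ((P.coeff d : ℤ) : ℝ) * gx m d y) -
          aeval (1 / y) Q)| := by ring_nf
      _ ≤ |aeval (1 / y) Q| + |(∑ d ∈ MM m D, ((P.coeff d : ℤ) : ℝ) * gx m d y) -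
          aeval (1 / y) Q| := abs_add_le _ _
      _ ≤ _ := add_le_add h2 h1
  obtain ⟨j, ⟨hjN, hj0⟩, hjmin⟩ : ∃ j, (j < N ∧ Q.coeff j ≠ 0) ∧ ∀ i < j, Q.coeff i = 0 := by
    refine ⟨Nat.find hex, Nat.find_spec hex, fun i hi => ?_⟩
    by_contra h
    exact Nat.find_min hex hi ⟨by have := (Nat.find_spec hex).1; omega, h⟩
  -- it is not small
  have hcj : ∀ n, Q.coeff n = ∑ d ∈ MM m D, ((P.coeff d : ℤ) : ℚ) * (q d).coeff n := by
    intro n
    rw [hQ, Polynomial.finsetSum_coeff]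
    apply Finset.sum_congr rfl
    intro d _
    rw [Polynomial.coeff_C_mul]
  have hlow : 1 / (q0 : ℝ) ≤ |(Q.coeff j : ℝ)| := by
    have h1 : ∃ z : ℤ, (q0 : ℚ) * Q.coeff j = z := by
      choose! z hz using fun d (hd : d ∈ MM m D) => hden d hd j hjN
      refine ⟨∑ d ∈ MM m D, P.coeff d * z d, ?_⟩
      rw [hcj, Finset.mul_sum]
      push_cast
      apply Finset.sum_congr rfl
      intro d hd
      rw [← hz d hd]; ring
    obtain ⟨z, hz⟩ := h1
    have hq0q : (q0 : ℚ) ≠ 0 := by exact_mod_cast (by omega : q0 ≠ 0)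
    have hz0 : z ≠ 0 := by
      intro h
      rw [h, Int.cast_zero, mul_eq_zero] at hz
      rcases hz with h | h
      · exact hq0q h
      · exact hj0 h
    have hz1 : (1:ℝ) ≤ |(z : ℝ)| := by exact_mod_cast Int.one_le_abs hz0
    have hzr : (q0 : ℝ) * (Q.coeff j : ℝ) = z := by exact_mod_cast hz
    have hq0r : (0:ℝ) < q0 := by exact_mod_cast hq0
    rw [← hzr, abs_mul, abs_of_pos hq0r] at hz1
    rw [div_le_iff₀ hq0r]
    linarith
  -- the rest of the truncated expansion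
  have hrest : |aeval (1 / x) Q - (Q.coeff j : ℝ) * (1 / x) ^ j| ≤ (H * Nt) / x ^ (j + 1) := by
    have h1 : aeval (1 / x) Q - (Q.coeff j : ℝ) * (1 / x) ^ j =
        aeval (1 / x) (Q - Polynomial.C (Q.coeff j) * X ^ j) := by
      rw [map_sub, map_mul, map_pow, aeval_X, aeval_C]
      simp
    rw [h1]
    set Q' := Q - Polynomial.C (Q.coeff j) * X ^ j with hQ'
    have hc' : ∀ n, Q'.coeff n = if n = j then 0 else Q.coeff n := by
      intro n
      rw [hQ', Polynomial.coeff_sub, Polynomial.coeff_C_mul_X_pow]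
      split_ifs with h
      · rw [h]; ring
      · ring
    have h2 : ∀ n < j + 1, Q'.coeff n = 0 := by
      intro n hn
      rw [hc']
      split_ifs with h
      · rfl
      · exact hjmin n (by omega)
    refine (abs_aeval_le_of_coeff h2 hx1).trans ?_
    apply div_le_div_of_nonneg_right _ (by positivity)
    calc nq Q' ≤ ∑ n ∈ Finset.range (Q'.natDegree + 1),
          ∑ d ∈ MM m D, (H : ℝ) * |((q d).coeff n : ℝ)| := by
          apply Finset.sum_le_sum
          intro n _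
          rw [hc']
          have h3 : |((Q.coeff n : ℚ) : ℝ)| ≤ ∑ d ∈ MM m D, (H : ℝ) * |((q d).coeff n : ℝ)| := by
            rw [hcj]
            push_cast
            refine (Finset.abs_sum_le_sum_abs _ _).trans (Finset.sum_le_sum fun d _ => ?_)
            rw [abs_mul]
            exact mul_le_mul_of_nonneg_right (hPHr d) (abs_nonneg _)
          split_ifs
          · rw [Rat.cast_zero, abs_zero]
            exact (abs_nonneg _).trans h3
          · exact h3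
      _ = ∑ d ∈ MM m D, (H : ℝ) * ∑ n ∈ Finset.range (Q'.natDegree + 1), |((q d).coeff n : ℝ)| := by
          rw [Finset.sum_comm]
          apply Finset.sum_congr rfl
          intro d _
          rw [Finset.mul_sum]
      _ ≤ ∑ d ∈ MM m D, (H : ℝ) * nq (q d) := by
          apply Finset.sum_le_sum
          intro d _
          exact mul_le_mul_of_nonneg_left (sum_coeff_le _ _) (by positivity)
      _ = H * Nt := by rw [hNt, Finset.mul_sum]
  rw [norm_aeval_ht P hPD]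
  have h1 := hnear x hx1
  have hq0r : (0:ℝ) < q0 := by exact_mod_cast hq0
  have hmain : 1 / (q0 : ℝ) / x ^ j ≤ |(Q.coeff j : ℝ) * (1 / x) ^ j| := by
    rw [abs_mul, abs_of_nonneg (by positivity : 0 ≤ (1 / x) ^ j), one_div_pow,
      div_eq_mul_one_div _ (x ^ j)]
    apply mul_le_mul_of_nonneg_right hlow (by positivity)
  have hN1 : (H * Ct) / x ^ N ≤ (H * Ct) / x ^ (j + 1) := by
    apply div_le_div_of_nonneg_left (by positivity) (by positivity)
    exact pow_le_pow_right₀ hx1 (by omega)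
  have hsmall : (H * Ct) / x ^ (j + 1) + (H * Nt) / x ^ (j + 1) ≤ 1 / (2 * (q0 : ℝ)) / x ^ j := by
    rw [← add_div, div_div, div_le_div_iff₀ (by positivity) (by positivity), pow_succ]
    have h2 : 2 * (q0 : ℝ) * (H * Ct + H * Nt) ≤ x := by
      calc 2 * (q0 : ℝ) * (H * Ct + H * Nt) = (2 * (q0 : ℝ) * (Ct + Nt)) * H := by ring
        _ ≤ C * H := by gcongr
        _ ≤ x := hx
    have h3 : 0 < x ^ j := by positivity
    calc (H * Ct + H * Nt) * (2 * q0 * x ^ j) = (2 * (q0 : ℝ) * (H * Ct + H * Nt)) * x ^ j := by ring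
      _ ≤ x * x ^ j := by gcongr
      _ = 1 * (x ^ j * x) := by ring
  have hfinal : 1 / (2 * (q0 : ℝ)) / x ^ j ≤ |∑ d ∈ MM m D, ((P.coeff d : ℤ) : ℝ) * gx m d x| := by
    have h2 : |(Q.coeff j : ℝ) * (1 / x) ^ j| ≤
        |∑ d ∈ MM m D, ((P.coeff d : ℤ) : ℝ) * gx m d x| +
        |(∑ d ∈ MM m D, ((P.coeff d : ℤ) : ℝ) * gx m d x) - aeval (1 / x) Q| +
        |aeval (1 / x) Q - (Q.coeff j : ℝ) * (1 / x) ^ j| := by
      set a := ∑ d ∈ MM m D, ((P.coeff d : ℤ) : ℝ) * gx m d x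
      set b := aeval (1 / x) Q
      set c := (Q.coeff j : ℝ) * (1 / x) ^ j
      have e1 : c = a + -(a - b) + -(b - c) := by ring
      calc |c| = |a + -(a - b) + -(b - c)| := by rw [← e1]
        _ ≤ |a + -(a - b)| + |-(b - c)| := abs_add_le _ _
        _ ≤ |a| + |-(a - b)| + |-(b - c)| := by
            have := abs_add_le a (-(a - b)); linarith
        _ = |a| + |a - b| + |b - c| := by rw [abs_neg, abs_neg]
    have h3 : 1 / (q0 : ℝ) / x ^ j = 1 / (2 * (q0 : ℝ)) / x ^ j + 1 / (2 * (q0 : ℝ)) / x ^ j := by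
      field_simp; norm_num
    linarith
  refine le_trans ?_ hfinal
  rw [div_div]
  apply one_div_le_one_div_of_le (by positivity)
  have h4 : (2 * (q0 : ℝ)) ≤ x := by linarith
  calc 2 * (q0 : ℝ) * x ^ j ≤ x * x ^ j := by gcongr
    _ = x ^ (j + 1) := by ring
    _ ≤ x ^ C := pow_le_pow_right₀ hx1 (by omega)

end Pool.Agent.Lib.MP_524521_nt.RA
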