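import Mathlib
import Pool.Agent.Lib.MP_524521_nt.RA.FinalP
import Pool.Agent.Lib.MP_524521_nt.RA.LargeX

section
/-! From the finset form with `(C * L) ^ C` to the `encard` form with `L ^ C`. -/
namespace Pool.Agent.Lib.MP_524521_nt.RA

theorem exists_log_pow (C : ℕ) :
    ∃ C' : ℕ, 1 ≤ C' ∧ ∀ L : ℝ, Real.log 4 ≤ L → (C * L) ^ C ≤ L ^ C' := by
  have h4 : 1 < Real.log 4 := by
    rw [show (4 : ℝ) = 2 ^ 2 by norm_num, Real.log_pow]
    have := Real.log_two_gt_d9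
    push_cast
    linarith
  obtain ⟨n, hn⟩ := pow_unbounded_of_one_lt ((C : ℝ) ^ C) h4
  refine ⟨C + n + 1, by omega, fun L hL => ?_⟩
  have hL1 : 1 ≤ L := by linarith
  have hL0 : 0 ≤ L := by linarith
  calc (C * L) ^ C = (C : ℝ) ^ C * L ^ C := mul_pow _ _ _
    _ ≤ Real.log 4 ^ n * L ^ C := by
        gcongr
    _ ≤ L ^ n * L ^ C := by
        gcongr
    _ = L ^ (C + n) := by rw [← pow_add, add_comm]
    _ ≤ L ^ (C + n + 1) := pow_le_pow_right₀ hL1 (by omega)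

theorem log_four_le {T H : ℕ} (hT : 2 ≤ T) (hH : 2 ≤ H) : Real.log 4 ≤ Real.log (T * H) := by
  have h1 : (2 : ℝ) ≤ T := by exact_mod_cast hT
  have h2 : (2 : ℝ) ≤ H := by exact_mod_cast hH
  exact Real.log_le_log (by norm_num) (by nlinarith)

theorem encard_le_floor {α : Type*} {X : Set α} {B : ℝ}
    (h : ∀ S : Finset α, (S : Set α) ⊆ X → (S.card : ℝ) ≤ B) : X.encard ≤ (⌊B⌋₊ : ℕ∞) := by
  by_contra hc
  push Not at hc
  have h1 : ((⌊B⌋₊ + 1 : ℕ) : ℕ∞) ≤ X.encard := by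
    push_cast
    exact Order.add_one_le_of_lt hc
  obtain ⟨Y, hY, hYc⟩ := Set.exists_subset_encard_eq h1
  have hfin : Y.Finite := Set.finite_of_encard_eq_coe hYc
  have h2 := h hfin.toFinset (by simpa using hY)
  have h3 : hfin.toFinset.card = ⌊B⌋₊ + 1 := by
    rw [hfin.encard_eq_coe_toFinset_card] at hYc
    exact_mod_cast hYc
  rw [h3] at h2
  have h4 := Nat.lt_floor_add_one B
  push_cast at h2
  linarith

/-- `(P.coeff d).natAbs ≤ H` from `|P.coeff d| ≤ H` -/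
theorem natAbs_le_of_abs_le {z : ℤ} {H : ℕ} (h : |z| ≤ (H : ℤ)) : z.natAbs ≤ H := by
  rw [Int.abs_eq_natAbs] at h
  exact_mod_cast h

end Pool.Agent.Lib.MP_524521_nt.RA
end

section
/-!
# All positive rationals with bounded denominator

No bound on the numerator; in particular the tails of the zeta series.
-/
open MvPolynomial

namespace Pool.Agent.Lib.MP_524521_nt.RA

/-- all but `(log TH)^C` of the positive rationals with denominator at most `T` -/
theorem final_q (m D : ℕ) :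
    ∃ C : ℕ, ∀ T H : ℕ, 2 ≤ T → 2 ≤ H →
      {x : ℚ | 0 < x ∧ x.den ≤ T ∧
        ∃ P : MvPolynomial (Fin m) ℤ, P ≠ 0 ∧ P.totalDegree ≤ D ∧ (∀ e, |P.coeff e| ≤ H) ∧
          |MvPolynomial.aeval (fun j : Fin m => hzr (j + 2) x) P| <
            Real.exp (-Real.log (T * H * (x + 1)) ^ C)}.encard ≤
      (⌊Real.log (T * H) ^ C⌋₊ : ℕ∞) := by
  obtain ⟨C₁, hC₁, h₁⟩ := large_x m D
  obtain ⟨C₂, h₂⟩ := final_poly m D
  obtain ⟨C, hC, hpow⟩ := exists_log_pow (C₁ + 2 + C₂)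
  refine ⟨C, fun T H hT hH => ?_⟩
  have hTr : (2 : ℝ) ≤ T := by exact_mod_cast hT
  have hHr : (2 : ℝ) ≤ H := by exact_mod_cast hH
  have hC₁r : (1 : ℝ) ≤ C₁ := by exact_mod_cast hC₁
  have hL4 := log_four_le hT hH
  have h4 : 1 < Real.log 4 := by
    rw [show (4 : ℝ) = 2 ^ 2 by norm_num, Real.log_pow]
    have := Real.log_two_gt_d9
    push_cast
    linarith
  obtain ⟨L, hL⟩ : ∃ L, L = Real.log (T * H) := ⟨_, rfl⟩
  rw [← hL] at hL4 ⊢
  have hL1 : 1 ≤ L := by linarith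
  -- comparison of the powers
  have hcmp : ∀ M : ℝ, Real.log 4 ≤ M → ∀ a : ℝ, 0 ≤ a → a ≤ (C₁ + 2 : ℕ) →
      ∀ k : ℕ, k ≤ C₁ + 2 + C₂ → (a * M) ^ k ≤ M ^ C := by
    intro M hM a ha0 ha k hk
    refine le_trans ?_ (hpow M hM)
    have hb1 : 1 ≤ ((C₁ + 2 + C₂ : ℕ) : ℝ) * M := by
      have : (1 : ℝ) ≤ ((C₁ + 2 + C₂ : ℕ) : ℝ) := by exact_mod_cast (by omega : 1 ≤ C₁ + 2 + C₂)
      nlinarith
    have hb2 : a * M ≤ ((C₁ + 2 + C₂ : ℕ) : ℝ) * M := by
      have : ((C₁ + 2 : ℕ) : ℝ) ≤ ((C₁ + 2 + C₂ : ℕ) : ℝ) := by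
        exact_mod_cast (by omega : C₁ + 2 ≤ C₁ + 2 + C₂)
      apply mul_le_mul_of_nonneg_right (by linarith) (by linarith)
    calc (a * M) ^ k ≤ (((C₁ + 2 + C₂ : ℕ) : ℝ) * M) ^ k :=
          pow_le_pow_left₀ (mul_nonneg ha0 (by linarith)) hb2 _
      _ ≤ _ := pow_le_pow_right₀ hb1 hk
  -- the new bound for the height of `x`
  obtain ⟨T', hT'⟩ : ∃ T', T' = C₁ * H * T := ⟨_, rfl⟩
  have hT'2 : 2 ≤ T' := by
    rw [hT']
    calc 2 = 1 * 1 * 2 := rfl
      _ ≤ C₁ * H * T := by gcongr; omega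
  have hT'T : T ≤ T' := by
    rw [hT']
    calc T = 1 * 1 * T := by ring
      _ ≤ C₁ * H * T := by gcongr; omega
  have hlog' : Real.log (T' * H) ≤ (C₁ + 2 : ℕ) * L := by
    have e1 : (T' : ℝ) * H = C₁ * (H * (T * H)) := by rw [hT']; push_cast; ring
    rw [e1, Real.log_mul (by positivity) (by positivity), Real.log_mul (by positivity)
      (by positivity), ← hL]
    have h5 : Real.log C₁ ≤ C₁ := Real.log_le_self (by linarith)
    have h6 : Real.log H ≤ L := by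
      rw [hL]
      exact Real.log_le_log (by linarith) (by nlinarith)
    have h7 : (C₁ : ℝ) ≤ C₁ * L := by nlinarith
    push_cast
    nlinarith
  have hlog'0 : 0 ≤ Real.log (T' * H) := by
    apply Real.log_nonneg
    have : (2 : ℝ) ≤ T' := by exact_mod_cast hT'2
    nlinarith
  have hpow' : Real.log (T' * H) ^ C₂ ≤ L ^ C := by
    refine le_trans (pow_le_pow_left₀ hlog'0 hlog' _) ?_
    exact hcmp L hL4 _ (Nat.cast_nonneg _) le_rfl _ (by omega)
  have hsub : {x : ℚ | 0 < x ∧ x.den ≤ T ∧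
        ∃ P : MvPolynomial (Fin m) ℤ, P ≠ 0 ∧ P.totalDegree ≤ D ∧ (∀ e, |P.coeff e| ≤ H) ∧
          |MvPolynomial.aeval (fun j : Fin m => hzr (j + 2) x) P| <
            Real.exp (-Real.log (T * H * (x + 1)) ^ C)} ⊆
      {x : ℚ | 0 < x ∧ x.num ≤ T' ∧ x.den ≤ T' ∧
        ∃ P : MvPolynomial (Fin m) ℤ, P ≠ 0 ∧ P.totalDegree ≤ D ∧ (∀ e, |P.coeff e| ≤ H) ∧
          |MvPolynomial.aeval (fun j : Fin m => hzr (j + 2) x) P| <
            Real.exp (-Real.log (T' * H) ^ C₂)} := by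
    rintro x ⟨hx0, hxd, P, hP0, hPD, hPH, hPs⟩
    have hx0r : (0 : ℝ) < x := by exact_mod_cast hx0
    have hTHx : (T : ℝ) * H ≤ T * H * (x + 1) := by
      have : (0 : ℝ) ≤ T * H := by positivity
      nlinarith
    have hLx : L ≤ Real.log (T * H * (x + 1)) := by
      rw [hL]
      exact Real.log_le_log (by positivity) hTHx
    have hxsmall : (x : ℝ) < C₁ * H := by
      by_contra hcon
      push Not at hcon
      have h5 := h₁ H (by omega) x hcon P hP0 hPD (fun d => natAbs_le_of_abs_le (hPH d))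
      rw [norm_aeval_ht_eq] at h5
      have h6 := h5.trans_lt hPs
      have hx1 : (1 : ℝ) ≤ x := by nlinarith
      have h7 : 1 / (x : ℝ) ^ C₁ = Real.exp (-(C₁ * Real.log x)) := by
        rw [Real.exp_neg, Real.exp_nat_mul, Real.exp_log (by linarith), one_div]
      rw [h7, Real.exp_lt_exp, neg_lt_neg_iff] at h6
      have h8 : Real.log x ≤ Real.log (T * H * (x + 1)) := by
        apply Real.log_le_log (by linarith)
        have : (1 : ℝ) ≤ T * H := by nlinarith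
        nlinarith
      have h9 := hcmp (Real.log (T * H * (x + 1))) (by linarith) C₁ (by linarith)
        (by push_cast; linarith) 1 (by omega)
      rw [pow_one] at h9
      have h10 : (C₁ : ℝ) * Real.log x ≤ C₁ * Real.log (T * H * (x + 1)) := by gcongr
      linarith
    refine ⟨hx0, ?_, hxd.trans hT'T, P, hP0, hPD, hPH, hPs.trans_le ?_⟩
    · have h5 : ((x.num : ℤ) : ℝ) = x * x.den := by exact_mod_cast (Rat.mul_den_eq_num x).symm
      have h6 : ((x.den : ℕ) : ℝ) ≤ T := by exact_mod_cast hxd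
      have h7 : ((x.num : ℤ) : ℝ) ≤ ((T' : ℕ) : ℝ) := by
        rw [h5, hT']
        push_cast
        exact mul_le_mul hxsmall.le h6 (Nat.cast_nonneg _) (by positivity)
      exact_mod_cast h7
    · apply Real.exp_le_exp.2
      apply neg_le_neg
      refine hpow'.trans ?_
      exact pow_le_pow_left₀ (by linarith) hLx _
  refine (Set.encard_le_encard hsub).trans ((h₂ T' H hT'2 hH).trans ?_)
  exact_mod_cast Nat.floor_le_floor hpow'

/-- the `n`-th tail `∑ j > n, 1 / j ^ k` of the series of `ζ(k)` -/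
noncomputable def tail (k n : ℕ) : ℝ :=
  (∑' j : ℕ, 1 / ((j : ℝ) + 1) ^ k) - ∑ j ∈ Finset.range n, 1 / ((j : ℝ) + 1) ^ k

theorem tail_eq (k n : ℕ) (hk : 2 ≤ k) : tail k n = hzr k (n + 1) := by
  have hs : Summable fun j : ℕ => 1 / ((j : ℝ) + 1) ^ k := by
    have h1 := (summable_nat_add_iff 1).2 (Real.summable_one_div_nat_pow.2 (by omega : 1 < k))
    simpa using h1
  rw [tail, ← hs.sum_add_tsum_nat_add n, add_sub_cancel_left, hzr]
  congr 1
  funext j
  push_cast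
  ring_nf

/-- the rationals and the tails, with the same constant -/
theorem final_qt (m D : ℕ) :
    ∃ C : ℕ, (∀ T H : ℕ, 2 ≤ T → 2 ≤ H →
      {x : ℚ | 0 < x ∧ x.den ≤ T ∧
        ∃ P : MvPolynomial (Fin m) ℤ, P ≠ 0 ∧ P.totalDegree ≤ D ∧ (∀ e, |P.coeff e| ≤ H) ∧
          |MvPolynomial.aeval (fun j : Fin m => hzr (j + 2) x) P| <
            Real.exp (-Real.log (T * H * (x + 1)) ^ C)}.encard ≤
      (⌊Real.log (T * H) ^ C⌋₊ : ℕ∞)) ∧
    ∀ H : ℕ, 2 ≤ H →
      {n : ℕ | ∃ P : MvPolynomial (Fin m) ℤ, P ≠ 0 ∧ P.totalDegree ≤ D ∧ (∀ e, |P.coeff e| ≤ H) ∧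
          |MvPolynomial.aeval (fun j : Fin m => tail (j + 2) n) P| <
            Real.exp (-Real.log (2 * H * (n + 2)) ^ C)}.encard ≤
      (⌊Real.log (2 * H) ^ C⌋₊ : ℕ∞) := by
  obtain ⟨C, hC⟩ := final_q m D
  refine ⟨C, hC, fun H hH => ?_⟩
  have h := hC 2 H le_rfl hH
  have hinj : Function.Injective (fun n : ℕ => ((n : ℚ) + 1)) := by
    intro a b hab
    have : (a : ℚ) = b := by simpa using hab
    exact_mod_cast this
  push_cast at h
  refine le_trans ?_ h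
  rw [← hinj.encard_image]
  apply Set.encard_le_encard
  rintro x ⟨n, ⟨P, hP0, hPD, hPH, hPs⟩, rfl⟩
  have hden : ((n : ℚ) + 1).den = 1 := by
    have : ((n : ℚ) + 1) = ((n + 1 : ℕ) : ℚ) := by push_cast; ring
    rw [this]; exact Rat.den_natCast _
  refine ⟨by positivity, by show ((n : ℚ) + 1).den ≤ 2; omega, P, hP0, hPD, hPH, ?_⟩
  have e1 : (fun j : Fin m => hzr (j + 2) (((n : ℚ) + 1 : ℚ) : ℝ)) =
      fun j : Fin m => tail (j + 2) n := by
    funext j
    rw [tail_eq _ _ (by omega)]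
    push_cast
    rfl
  show |MvPolynomial.aeval (fun j : Fin m => hzr (j + 2) (((n : ℚ) + 1 : ℚ) : ℝ)) P| < _
  rw [e1]
  have e2 : ((((n : ℚ) + 1 : ℚ) : ℝ) + 1) = n + 2 := by push_cast; ring
  rw [e2]
  exact hPs

end Pool.Agent.Lib.MP_524521_nt.RA
end
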