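import Mathlib
import Pool.Agent.Lib.MP_524521_nt.RA.Elim

/-!
# Polylogarithms: definitions

The variable `y_j`, `j < m`, stands for `Li_(m-j)` (so `y_(m-1) = Li_1`), and `th` is the derivation
`x (1 - x) d/dx`: `th y_j = (1 - x) y_(j+1)`, `th y_(m-1) = x`.
-/

open Polynomial

namespace Pool.Agent.Lib.MP_524521_nt.RA

/-- `Li_k(z)`, `‖z‖ < 1` -/
noncomputable def pl (k : ℕ) (z : ℂ) : ℂ := ∑' n : ℕ, z ^ (n + 1) / ((n : ℂ) + 1) ^ k

/-- the family `Li_m, ..., Li_1` -/
noncomputable def lf (m : ℕ) (j : Fin m) (z : ℂ) : ℂ := pl (m - (j : ℕ)) z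

/-- the derivation `x (1 - x) d/dx` on polynomials in `x` -/
noncomputable def dl {k : Type} [CommRing k] (a : k[X]) : k[X] := X * (1 - X) * derivative a

/-- `th y_j` -/
noncomputable def nx (k : Type) [CommRing k] {m : ℕ} (j : Fin m) : MvPolynomial (Fin m) k[X] :=
  if h : (j : ℕ) + 1 < m then MvPolynomial.C (1 - X) * MvPolynomial.X ⟨(j : ℕ) + 1, h⟩
  else MvPolynomial.C X

/-- the derivation `dl` on the coefficients -/
noncomputable def cD {k : Type} [CommRing k] {m : ℕ} (R : MvPolynomial (Fin m) k[X]) :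
    MvPolynomial (Fin m) k[X] :=
  ∑ γ ∈ R.support, MvPolynomial.monomial γ (dl (R.coeff γ))

/-- the derivation `x (1 - x) d/dx` on polynomials in `x` and the polylogarithms -/
noncomputable def th {k : Type} [CommRing k] {m : ℕ} (R : MvPolynomial (Fin m) k[X]) :
    MvPolynomial (Fin m) k[X] :=
  cD R + MvPolynomial.mkDerivation k[X] (nx k) R

/-- total l1 norm -/
noncomputable def NT {m : ℕ} (R : Gx m) : ℕ :=
  ∑ γ ∈ R.support, ∑ i ∈ (R.coeff γ).support, ((R.coeff γ).coeff i).natAbs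

end Pool.Agent.Lib.MP_524521_nt.RA
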