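import Mathlib
import Pool.Agent.Lib.MP_524521_nt.RA.LiDefs
import Pool.Agent.Lib.MP_524521_nt.RA.ElimU
import Pool.Agent.Lib.MP_524521_nt.RA.Cost2

section
/-!
# Polylogarithms: analysis

Derivatives and bounds of `Li_k(z)` in the unit disc, the windows, and the derivation `th`.
-/
open Polynomial

namespace Pool.Agent.Lib.MP_524521_nt.RA

variable {m : ℕ}

/-! ### the functions -/

theorem pl_hasDerivAt (k : ℕ) (z : ℂ) (hz : ‖z‖ < 1) :
    HasDerivAt (pl (k + 1)) (∑' n : ℕ, z ^ n / ((n : ℂ) + 1) ^ k) z := by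
  obtain ⟨r, hr1, hr2⟩ := exists_between hz
  have hr0 : 0 ≤ r := (norm_nonneg z).trans hr1.le
  have hzt : z ∈ Metric.ball (0 : ℂ) r := by simpa using hr1
  have hn1 : ∀ n : ℕ, ((n : ℂ) + 1) ≠ 0 := fun n => Nat.cast_add_one_ne_zero n
  have hn2 : ∀ n : ℕ, (1 : ℝ) ≤ ‖(n : ℂ) + 1‖ := by
    intro n
    have : (n : ℂ) + 1 = ((n + 1 : ℕ) : ℂ) := by push_cast; rfl
    rw [this, Complex.norm_natCast]
    exact_mod_cast Nat.succ_le_succ (Nat.zero_le n)
  unfold pl
  refine hasDerivAt_tsum_of_isPreconnected (u := fun n : ℕ => r ^ n)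
    (g := fun (n : ℕ) (z : ℂ) => z ^ (n + 1) / ((n : ℂ) + 1) ^ (k + 1))
    (g' := fun (n : ℕ) (z : ℂ) => z ^ n / ((n : ℂ) + 1) ^ k)
    (t := Metric.ball (0 : ℂ) r) (y₀ := 0)
    (summable_geometric_of_lt_one hr0 hr2) Metric.isOpen_ball
    (convex_ball (0 : ℂ) r).isPreconnected ?_ ?_ ?_ ?_ hzt
  · intro n y _
    have h1 := ((hasDerivAt_pow (n + 1) y).div_const (((n : ℂ) + 1) ^ (k + 1)))
    refine h1.congr_deriv ?_
    rw [div_eq_div_iff (pow_ne_zero _ (hn1 n)) (pow_ne_zero _ (hn1 n))]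
    push_cast
    ring
  · intro n y hy
    have hy' : ‖y‖ ≤ r := by simpa using (Metric.mem_ball.1 hy).le
    rw [norm_div, norm_pow, norm_pow]
    rw [div_le_iff₀ (by have := hn2 n; positivity)]
    calc ‖y‖ ^ n ≤ r ^ n := pow_le_pow_left₀ (norm_nonneg _) hy' _
      _ = r ^ n * 1 := (mul_one _).symm
      _ ≤ r ^ n * ‖(n : ℂ) + 1‖ ^ k :=
        mul_le_mul_of_nonneg_left (one_le_pow₀ (hn2 n)) (pow_nonneg hr0 _)
  · simpa using lt_of_le_of_lt (norm_nonneg z) hr1
  · simp only [ne_eq, Nat.add_eq_zero_iff, one_ne_zero, and_false, not_false_eq_true, zero_pow,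
      zero_div]
    exact summable_zero

theorem pl_diffOn (k : ℕ) (hk : 1 ≤ k) : DifferentiableOn ℂ (pl k) (Metric.ball (0 : ℂ) 1) := by
  intro z hz
  obtain ⟨k', rfl⟩ : ∃ k', k = k' + 1 := ⟨k - 1, by omega⟩
  exact (pl_hasDerivAt k' z (by simpa using hz)).differentiableAt.differentiableWithinAt

/-- `z d/dz Li_(k+1) = Li_k` -/
theorem pl_theta (k : ℕ) (z : ℂ) : z * ∑' n : ℕ, z ^ n / ((n : ℂ) + 1) ^ k = pl k z := by
  unfold pl
  rw [← tsum_mul_left]
  refine tsum_congr fun n => ?_
  rw [pow_succ']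
  ring

/-- `(1 - z) d/dz Li_1 = 1` -/
theorem pl_one (z : ℂ) (hz : ‖z‖ < 1) : (1 - z) * ∑' n : ℕ, z ^ n / ((n : ℂ) + 1) ^ 0 = 1 := by
  have h1 : ∑' n : ℕ, z ^ n / ((n : ℂ) + 1) ^ 0 = (1 - z)⁻¹ := by
    rw [← tsum_geometric_of_norm_lt_one hz]
    refine tsum_congr fun n => ?_
    rw [pow_zero, div_one]
  rw [h1]
  refine mul_inv_cancel₀ ?_
  intro h0
  have : z = 1 := (sub_eq_zero.1 h0).symm
  rw [this] at hz
  simp at hz

/-- `|Li_k(z)| ≤ 1 / (1 - |z|)` -/
theorem pl_bdd_lt (k : ℕ) (z : ℂ) (hz : ‖z‖ < 1) : ‖pl k z‖ ≤ 1 / (1 - ‖z‖) := by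
  have hn2 : ∀ n : ℕ, (1 : ℝ) ≤ ‖(n : ℂ) + 1‖ := by
    intro n
    have : (n : ℂ) + 1 = ((n + 1 : ℕ) : ℂ) := by push_cast; rfl
    rw [this, Complex.norm_natCast]
    exact_mod_cast Nat.succ_le_succ (Nat.zero_le n)
  have h1 : ∀ n : ℕ, ‖z ^ (n + 1) / ((n : ℂ) + 1) ^ k‖ ≤ ‖z‖ ^ n := by
    intro n
    rw [norm_div, norm_pow, norm_pow, div_le_iff₀ (by have := hn2 n; positivity)]
    calc ‖z‖ ^ (n + 1) ≤ ‖z‖ ^ n := pow_le_pow_of_le_one (norm_nonneg _) hz.le (Nat.le_succ n)
      _ = ‖z‖ ^ n * 1 := (mul_one _).symm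
      _ ≤ ‖z‖ ^ n * ‖(n : ℂ) + 1‖ ^ k :=
        mul_le_mul_of_nonneg_left (one_le_pow₀ (hn2 n)) (pow_nonneg (norm_nonneg _) _)
  have h2 := tsum_of_norm_bounded (hasSum_geometric_of_lt_one (norm_nonneg z) hz) h1
  rw [one_div]
  exact h2

/-- `|Li_k(z)| ≤ 2` for `k ≥ 2`, `|z| ≤ 1` -/
theorem pl_bdd (k : ℕ) (hk : 2 ≤ k) (z : ℂ) (hz : ‖z‖ ≤ 1) : ‖pl k z‖ ≤ 2 := by
  have hn3 : ∀ n : ℕ, ‖(n : ℂ) + 1‖ = (n : ℝ) + 1 := by
    intro n
    have : (n : ℂ) + 1 = ((n + 1 : ℕ) : ℂ) := by push_cast; rfl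
    rw [this, Complex.norm_natCast]
    push_cast; rfl
  have hsum : HasSum (fun n : ℕ => 1 / ((n : ℝ) + 1) ^ 2) (Real.pi ^ 2 / 6) := by
    have h1 := hasSum_zeta_two
    rw [← hasSum_nat_add_iff' 1] at h1
    simpa using h1
  have h1 : ∀ n : ℕ, ‖z ^ (n + 1) / ((n : ℂ) + 1) ^ k‖ ≤ 1 / ((n : ℝ) + 1) ^ 2 := by
    intro n
    have hn : (1 : ℝ) ≤ (n : ℝ) + 1 := by
      have : (0 : ℝ) ≤ n := Nat.cast_nonneg n
      linarith
    rw [norm_div, norm_pow, norm_pow, hn3]
    apply div_le_div₀ zero_le_one (pow_le_one₀ (norm_nonneg _) hz) (by positivity)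
    exact pow_le_pow_right₀ hn hk
  have h2 := tsum_of_norm_bounded hsum h1
  refine h2.trans ?_
  have h3 : Real.pi < 3.15 := Real.pi_lt_d2
  have h4 := Real.pi_pos
  nlinarith

/-! ### the windows -/

/-- the family on a window: `Li_(m+1-j)(z₀ + σ s / U)`, `j < m` -/
noncomputable def lw (m : ℕ) (U : ℕ) (z₀ σ : ℤ) (j : Fin m) (s : ℂ) : ℂ :=
  pl (m + 1 - (j : ℕ)) ((z₀ : ℂ) + σ * s / U)

/-- the four kinds of windows -/
def Kind (z₀ σ : ℤ) : Prop :=
  (z₀ = 0 ∧ σ = 1) ∨ (z₀ = 0 ∧ σ = -1) ∨ (z₀ = 1 ∧ σ = -1) ∨ (z₀ = -1 ∧ σ = 1)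

/-- the window lies in the disc of radius `1 - ρ / U` -/
theorem window_norm (U : ℕ) (hU : 4 ≤ U) (z₀ σ : ℤ) (hk : Kind z₀ σ) (x : ℝ) (h1 : 1 ≤ x)
    (h2 : x ≤ 2) (z : ℂ) (_ : ‖z - x‖ ≤ 1 / 2) :
    ‖(z₀ : ℂ) + σ * z / U‖ ≤ 1 - (1 / 2 - ‖z - x‖) / U := by
  have hUr : (4 : ℝ) ≤ U := by exact_mod_cast hU
  have hU0 : (0 : ℝ) < U := by linarith
  have hUc : (U : ℂ) ≠ 0 := by
    have : U ≠ 0 := by omega
    exact_mod_cast this
  have hnz : 0 ≤ ‖z - x‖ := norm_nonneg _
  -- the norm of `z`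
  have hznorm : ‖z‖ ≤ 2 + ‖z - x‖ := by
    have h3 : ‖z‖ ≤ ‖z - x‖ + ‖(x : ℂ)‖ := by
      have := norm_add_le (z - x) (x : ℂ)
      simpa using this
    rw [Complex.norm_real, Real.norm_of_nonneg (by linarith)] at h3
    linarith
  have key0 : ‖z / U‖ ≤ 1 - (1 / 2 - ‖z - x‖) / U := by
    rw [norm_div, Complex.norm_natCast, div_le_iff₀ hU0, sub_mul, one_mul,
      div_mul_cancel₀ _ hU0.ne']
    linarith
  have key1 : ‖1 - z / U‖ ≤ 1 - (1 / 2 - ‖z - x‖) / U := by
    have h3 : (1 : ℂ) - z / U = ((1 - x / U : ℝ) : ℂ) - (z - x) / U := by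
      push_cast
      ring
    rw [h3]
    refine (norm_sub_le _ _).trans ?_
    have hxU : x / U ≤ 1 := by
      rw [div_le_one hU0]; linarith
    rw [Complex.norm_real, Real.norm_of_nonneg (by linarith), norm_div, Complex.norm_natCast]
    have h4 : (1 / 2 - ‖z - x‖) / U = (1 / 2) / U - ‖z - x‖ / U := sub_div _ _ _
    have h5 : (1 / 2 : ℝ) / U ≤ x / U := div_le_div_of_nonneg_right (by linarith) hU0.le
    rw [h4]
    linarith
  rcases hk with ⟨rfl, rfl⟩ | ⟨rfl, rfl⟩ | ⟨rfl, rfl⟩ | ⟨rfl, rfl⟩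
  · simpa using key0
  · have : ((0 : ℤ) : ℂ) + ((-1 : ℤ) : ℂ) * z / U = -(z / U) := by push_cast; ring
    rw [this, norm_neg]
    exact key0
  · have : ((1 : ℤ) : ℂ) + ((-1 : ℤ) : ℂ) * z / U = 1 - z / U := by push_cast; ring
    rw [this]
    exact key1
  · have : ((-1 : ℤ) : ℂ) + ((1 : ℤ) : ℂ) * z / U = -(1 - z / U) := by push_cast; ring
    rw [this, norm_neg]
    exact key1

theorem lw_diff (m U : ℕ) (hU : 4 ≤ U) (z₀ σ : ℤ) (hk : Kind z₀ σ) (x : ℝ) (h1 : 1 ≤ x)
    (h2 : x ≤ 2) (j : Fin m) :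
    DifferentiableOn ℂ (lw m U z₀ σ j) (Metric.ball (x : ℂ) (2 * (1 / 4))) := by
  unfold lw
  refine (pl_diffOn (m + 1 - (j : ℕ)) (by omega)).comp ?_ ?_
  · have : Differentiable ℂ (fun s : ℂ => (z₀ : ℂ) + σ * s / U) := by fun_prop
    exact this.differentiableOn
  · intro z hz
    rw [Metric.mem_ball, dist_eq_norm] at hz
    have hz' : ‖z - x‖ < 1 / 2 := by linarith
    rw [mem_ball_zero_iff]
    refine (window_norm U hU z₀ σ hk x h1 h2 z hz'.le).trans_lt ?_
    have hU0 : (0 : ℝ) < U := by exact_mod_cast (by omega : 0 < U)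
    have : 0 < (1 / 2 - ‖z - x‖) / U := div_pos (by linarith) hU0
    linarith

theorem lw_bdd (m U : ℕ) (hU : 4 ≤ U) (z₀ σ : ℤ) (hk : Kind z₀ σ) (x : ℝ) (h1 : 1 ≤ x)
    (h2 : x ≤ 2) (z : ℂ) (hz : z ∈ Metric.closedBall (x : ℂ) (1 / 4)) (j : Fin m) :
    ‖lw m U z₀ σ j z‖ ≤ 2 := by
  unfold lw
  refine pl_bdd _ (by omega) _ ?_
  rw [Metric.mem_closedBall, dist_eq_norm] at hz
  refine (window_norm U hU z₀ σ hk x h1 h2 z (by linarith)).trans ?_
  have hU0 : (0 : ℝ) < U := by exact_mod_cast (by omega : 0 < U)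
  have : 0 ≤ (1 / 2 - ‖z - x‖) / U := div_nonneg (by linarith) hU0.le
  linarith

/-! ### the derivation -/

theorem coeff_cD_int (R : Gx m) (γ : Fin m →₀ ℕ) : (cD R).coeff γ = dl (R.coeff γ) := by
  classical
  unfold cD
  rw [MvPolynomial.coeff_sum]
  simp only [MvPolynomial.coeff_monomial]
  rw [Finset.sum_ite_eq']
  split_ifs with h
  · rfl
  · rw [MvPolynomial.notMem_support_iff.1 h]
    simp [dl]

theorem cD_add_int (R S : Gx m) : cD (R + S) = cD R + cD S := by
  ext1 γ
  rw [MvPolynomial.coeff_add, coeff_cD_int, coeff_cD_int, coeff_cD_int, MvPolynomial.coeff_add]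
  simp [dl, mul_add]

theorem cD_mul_X_int (R : Gx m) (j : Fin m) :
    cD (R * MvPolynomial.X j) = cD R * MvPolynomial.X j := by
  classical
  ext1 γ
  rw [coeff_cD_int, MvPolynomial.coeff_mul_X', MvPolynomial.coeff_mul_X', coeff_cD_int]
  split_ifs
  · rfl
  · simp [dl]

theorem cD_C_int (a : ℤ[X]) : cD (MvPolynomial.C a : Gx m) = MvPolynomial.C (dl a) := by
  classical
  ext1 γ
  rw [coeff_cD_int, MvPolynomial.coeff_C, MvPolynomial.coeff_C]
  split_ifs
  · rfl
  · simp [dl]

/-- the value of `nx j` at the polylogarithms is `z (1 - z)` times the derivative of `lf m j` -/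
theorem lf_hasDerivAt (j : Fin m) (z : ℂ) (hz : ‖z‖ < 1) :
    ∃ D : ℂ, HasDerivAt (lf m j) D z ∧ z * (1 - z) * D = ev z (fun i => lf m i z) (nx ℤ j) := by
  obtain ⟨k, hk⟩ : ∃ k, m - (j : ℕ) = k + 1 := ⟨m - (j : ℕ) - 1, by have := j.2; omega⟩
  have h1 := pl_hasDerivAt k z hz
  refine ⟨∑' n : ℕ, z ^ n / ((n : ℂ) + 1) ^ k, ?_, ?_⟩
  · have : lf m j = pl (k + 1) := by
      funext w
      unfold lf
      rw [hk]
    rw [this]
    exact h1
  · unfold nx
    by_cases hj : (j : ℕ) + 1 < m
    · rw [dif_pos hj, map_mul, ev_C, ev_X]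
      have h2 : lf m ⟨(j : ℕ) + 1, hj⟩ z = pl k z := by
        unfold lf
        congr 1
        simp only
        omega
      rw [h2, ← pl_theta k z]
      simp only [map_sub, map_one, aeval_X]
      ring
    · rw [dif_neg hj, ev_C, aeval_X]
      have hk0 : k = 0 := by
        have := j.2
        omega
      subst hk0
      have h3 := pl_one z hz
      rw [mul_assoc, h3, mul_one]

/-- `z (1 - z) d/dz` of the value of `R` is the value of `th R` -/
theorem ev_th (R : Gx m) (z : ℂ) (hz : ‖z‖ < 1) :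
    ∃ D : ℂ, HasDerivAt (fun w => ev w (fun j => lf m j w) R) D z ∧
      z * (1 - z) * D = ev z (fun j => lf m j z) (th R) := by
  induction R using MvPolynomial.induction_on with
  | C a =>
    refine ⟨aeval z (derivative a), ?_, ?_⟩
    · simp only [ev_C]
      exact Polynomial.hasDerivAt_aeval a z
    · unfold th
      rw [cD_C_int, MvPolynomial.derivation_C, add_zero, ev_C]
      simp only [dl, map_mul, map_sub, map_one, aeval_X]
  | add R S hR hS =>
    obtain ⟨D₁, h1, h2⟩ := hR
    obtain ⟨D₂, h3, h4⟩ := hS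
    refine ⟨D₁ + D₂, ?_, ?_⟩
    · simp only [map_add]
      exact h1.add h3
    · have : th (R + S) = th R + th S := by
        unfold th
        rw [cD_add_int, map_add]
        ring
      rw [this, map_add, ← h2, ← h4]
      ring
  | mul_X R j hR =>
    obtain ⟨D₁, h1, h2⟩ := hR
    obtain ⟨D₂, h3, h4⟩ := lf_hasDerivAt j z hz
    refine ⟨D₁ * lf m j z + ev z (fun i => lf m i z) R * D₂, ?_, ?_⟩
    · simp only [map_mul, ev_X]
      exact h1.mul h3
    · have : th (R * MvPolynomial.X j) = th R * MvPolynomial.X j + R * nx ℤ j := by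
        unfold th
        rw [cD_mul_X_int, Derivation.leibniz, MvPolynomial.mkDerivation_X, smul_eq_mul,
          smul_eq_mul]
        ring
      rw [this, map_add, map_mul, map_mul, ev_X, ← h2, ← h4]
      ring

end Pool.Agent.Lib.MP_524521_nt.RA
end

section
/-! Cauchy's estimate for the iterates of the derivation `th`. -/
open Polynomial

namespace Pool.Agent.Lib.MP_524521_nt.RA

variable {m : ℕ}

/-- the value of `R` at the polylogarithms -/
noncomputable def vl (R : Gx m) (w : ℂ) : ℂ := ev w (fun j => lf m j w) R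

theorem vl_diffOn (R : Gx m) : DifferentiableOn ℂ (vl R) (Metric.ball (0 : ℂ) 1) := by
  intro z hz
  obtain ⟨D, h1, _⟩ := ev_th R z (by simpa using hz)
  exact h1.differentiableAt.differentiableWithinAt

theorem vl_th (R : Gx m) (z : ℂ) (hz : ‖z‖ < 1) : vl (th R) z = z * (1 - z) * deriv (vl R) z := by
  obtain ⟨D, h1, h2⟩ := ev_th R z hz
  have h3 : deriv (vl R) z = D := h1.deriv
  rw [h3]
  exact h2.symm

/-- one step -/
theorem vl_th_le (R : Gx m) (z : ℂ) (δ : ℝ) (hδ : 0 < δ) (hz : ‖z‖ + δ < 1) (B : ℝ)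
    (hB : ∀ w ∈ Metric.closedBall z δ, ‖vl R w‖ ≤ B) : ‖vl (th R) z‖ ≤ 2 / δ * B := by
  have hz1 : ‖z‖ < 1 := by linarith
  have hsub : Metric.closedBall z δ ⊆ Metric.ball (0 : ℂ) 1 := by
    intro w hw
    rw [Metric.mem_closedBall, dist_eq_norm] at hw
    rw [mem_ball_zero_iff]
    have : ‖w‖ ≤ ‖w - z‖ + ‖z‖ := by
      have := norm_add_le (w - z) z
      simpa using this
    linarith
  have hd : DiffContOnCl ℂ (vl R) (Metric.ball z δ) := by
    apply DifferentiableOn.diffContOnCl
    rw [closure_ball z hδ.ne']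
    exact (vl_diffOn R).mono hsub
  have h1 := Complex.norm_deriv_le_of_forall_mem_sphere_norm_le hδ hd
    (fun w hw => hB w (Metric.sphere_subset_closedBall hw))
  rw [vl_th R z hz1, norm_mul, norm_mul]
  have h2 : ‖(1 : ℂ) - z‖ ≤ 2 := by
    refine (norm_sub_le _ _).trans ?_
    rw [norm_one]
    linarith
  have hB0 : 0 ≤ B := (norm_nonneg _).trans (hB z (Metric.mem_closedBall_self hδ.le))
  calc ‖z‖ * ‖1 - z‖ * ‖deriv (vl R) z‖ ≤ 1 * 2 * (B / δ) := by
        apply mul_le_mul _ h1 (norm_nonneg _) (by norm_num)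
        exact mul_le_mul hz1.le h2 (norm_nonneg _) (by norm_num)
    _ = 2 / δ * B := by ring

/-- all iterates at the centre -/
theorem cauchy_th (R : Gx m) (z : ℂ) (r : ℝ) (ν : ℕ) (hr : 0 < r) (hz : ‖z‖ + r < 1)
    (hν : 1 ≤ ν) (B : ℝ) (hB : ∀ w ∈ Metric.closedBall z r, ‖vl R w‖ ≤ B) :
    ∀ i ≤ ν, ‖vl (th^[i] R) z‖ ≤ (2 * ν / r) ^ ν * B := by
  have hνr : (1 : ℝ) ≤ ν := by exact_mod_cast hν
  have hν0 : (0 : ℝ) < ν := by linarith
  have hB0 : 0 ≤ B := (norm_nonneg _).trans (hB z (Metric.mem_closedBall_self hr.le))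
  have hr1 : r ≤ 1 := by have := norm_nonneg z; linarith
  have hbase : 1 ≤ 2 * ν / r := by
    rw [le_div_iff₀ hr]
    linarith
  have key : ∀ i ≤ ν, ∀ w ∈ Metric.closedBall z (r * (ν - i) / ν),
      ‖vl (th^[i] R) w‖ ≤ (2 * ν / r) ^ i * B := by
    intro i
    induction i with
    | zero =>
      intro _ w hw
      have : r * ((ν : ℝ) - (0 : ℕ)) / ν = r := by
        push_cast
        field_simp
        ring
      rw [this] at hw
      simpa using hB w hw
    | succ i ih =>
      intro hi w hw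
      rw [Function.iterate_succ_apply']
      have hδ : 0 < r / ν := div_pos hr hν0
      rw [Metric.mem_closedBall, dist_eq_norm] at hw
      have e1 : r * ((ν : ℝ) - ((i + 1 : ℕ) : ℝ)) / ν = r * ((ν : ℝ) - i) / ν - r / ν := by
        push_cast
        ring
      have e2 : r * ((ν : ℝ) - i) / ν ≤ r := by
        rw [div_le_iff₀ hν0]
        have : (0 : ℝ) ≤ i := Nat.cast_nonneg i
        nlinarith
      rw [e1] at hw
      have hw1 : ‖w‖ ≤ ‖w - z‖ + ‖z‖ := by
        have := norm_add_le (w - z) z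
        simpa using this
      have h1 := vl_th_le (th^[i] R) w (r / ν) hδ (by linarith) ((2 * ν / r) ^ i * B) (by
        intro u hu
        apply ih (by omega)
        rw [Metric.mem_closedBall, dist_eq_norm] at hu ⊢
        have : ‖u - z‖ ≤ ‖u - w‖ + ‖w - z‖ := by
          have := norm_add_le (u - w) (w - z)
          simpa using this
        linarith)
      refine h1.trans (le_of_eq ?_)
      rw [pow_succ]
      field_simp
  intro i hi
  have h1 := key i hi z (by
    apply Metric.mem_closedBall_self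
    have : (i : ℝ) ≤ ν := by exact_mod_cast hi
    apply div_nonneg _ hν0.le
    apply mul_nonneg hr.le
    linarith)
  refine h1.trans (mul_le_mul_of_nonneg_right (pow_le_pow_right₀ hbase hi) hB0)

end Pool.Agent.Lib.MP_524521_nt.RA
end

section
/-! Polylogarithms: the one variable lemma. -/
open Polynomial

namespace Pool.Agent.Lib.MP_524521_nt.RA

section ring

variable {k : Type} [CommRing k]

theorem dl_zero : dl (0 : k[X]) = 0 := by simp [dl]

theorem dl_add (a b : k[X]) : dl (a + b) = dl a + dl b := by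
  unfold dl; rw [derivative_add]; ring

theorem dl_mul (a b : k[X]) : dl (a * b) = dl a * b + a * dl b := by
  unfold dl; rw [derivative_mul]; ring

theorem dl_C (a : k) : dl (C a : k[X]) = 0 := by simp [dl]

theorem dl_map {k' : Type} [CommRing k'] (f : k →+* k') (a : k[X]) :
    dl (a.map f) = (dl a).map f := by
  unfold dl
  rw [derivative_map]
  simp

end ring

variable {k : Type} [Field k] [CharZero k]

/-- no zero of the denominator at a zero `r` of `x (1 - x)` -/
theorem eval_ne_zero_of_rel {c u W s : k[X]} {r : k} (hc : c ≠ 0) (hs : s.eval r ≠ 0)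
    (hcu : IsCoprime c u)
    (h : c * ((X - C r) * s * derivative u) - (X - C r) * s * derivative c * u = c ^ 2 * W) :
    c.eval r ≠ 0 := by
  intro h0
  obtain ⟨d, hd, hnd⟩ := exists_eq_pow_rootMultiplicity_mul_and_not_dvd c hc r
  have hroot : 0 < c.rootMultiplicity r := by
    rw [rootMultiplicity_pos hc]
    exact h0
  obtain ⟨n, hn⟩ : ∃ n, c.rootMultiplicity r = n + 1 := ⟨c.rootMultiplicity r - 1, by omega⟩
  rw [hn] at hd
  have hd0 : d.eval r ≠ 0 := by
    intro h1
    exact hnd (dvd_iff_isRoot.2 h1)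
  have hu0 : u.eval r ≠ 0 := by
    intro h1
    obtain ⟨a, b, hab⟩ := hcu
    have h2 := congrArg (eval r) hab
    rw [eval_add, eval_mul, eval_mul, h0, h1] at h2
    simp at h2
  have hder : derivative c = (X - C r) ^ n * (C ((n : k) + 1) * d + (X - C r) * derivative d) := by
    rw [hd, derivative_mul, derivative_X_sub_C_pow]
    simp only [Nat.add_sub_cancel, map_add, map_natCast, map_one, Nat.cast_add, Nat.cast_one]
    ring
  have hp : ((X - C r : k[X]) ^ (n + 1)) ≠ 0 := pow_ne_zero _ (X_sub_C_ne_zero r)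
  have h3 : (X - C r) ^ (n + 1) * (d * ((X - C r) * s * derivative u) -
      s * (C ((n : k) + 1) * d + (X - C r) * derivative d) * u) =
      (X - C r) ^ (n + 1) * ((X - C r) ^ (n + 1) * d ^ 2 * W) := by
    have h4 := h
    rw [hder] at h4
    rw [hd] at h4
    linear_combination h4
  have h4 := mul_left_cancel₀ hp h3
  have h5 := congrArg (eval r) h4
  simp only [eval_sub, eval_mul, eval_add, eval_pow, eval_X, eval_C, sub_self, zero_mul, mul_zero,
    zero_sub, add_zero, ne_eq, Nat.succ_ne_zero, not_false_eq_true, zero_pow] at h5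
  have h6 : ((n : k) + 1) ≠ 0 := by exact_mod_cast Nat.succ_ne_zero n
  rw [neg_eq_zero] at h5
  exact (mul_ne_zero (mul_ne_zero hs (mul_ne_zero h6 hd0)) hu0) h5

/-- `θ (u / c) = a (1 - x) + b x` has only constant solutions `u / c`, and then `a = b = 0` -/
theorem base_rel {c u : k[X]} (hc : c ≠ 0) (a b : k)
    (h : c * dl u - dl c * u = c ^ 2 * (C a * (1 - X) + C b * X)) :
    a = 0 ∧ b = 0 ∧ ∃ q : k, u = c * C q := by
  classical
  set g := EuclideanDomain.gcd c u with hg
  have hg0 : g ≠ 0 := by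
    intro h0
    exact hc (EuclideanDomain.gcd_eq_zero_iff.1 h0).1
  obtain ⟨c₁, hc₁⟩ := EuclideanDomain.gcd_dvd_left c u
  obtain ⟨u₁, hu₁⟩ := EuclideanDomain.gcd_dvd_right c u
  rw [← hg] at hc₁ hu₁
  have hc₁0 : c₁ ≠ 0 := by
    rintro rfl
    exact hc (by rw [hc₁, mul_zero])
  have hcop : IsCoprime c₁ u₁ := by
    have h1 := EuclideanDomain.gcd_eq_gcd_ab c u
    rw [← hg] at h1
    refine ⟨EuclideanDomain.gcdA c u, EuclideanDomain.gcdB c u, mul_left_cancel₀ hg0 ?_⟩
    calc g * (EuclideanDomain.gcdA c u * c₁ + EuclideanDomain.gcdB c u * u₁) =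
        (g * c₁) * EuclideanDomain.gcdA c u + (g * u₁) * EuclideanDomain.gcdB c u := by ring
      _ = g * 1 := by rw [← hc₁, ← hu₁, mul_one]; exact h1.symm
  set W : k[X] := C a * (1 - X) + C b * X with hW
  have h1 : c₁ * dl u₁ - dl c₁ * u₁ = c₁ ^ 2 * W := by
    have h2 := h
    rw [hc₁, hu₁, dl_mul, dl_mul] at h2
    have h3 : g ^ 2 * (c₁ * dl u₁ - dl c₁ * u₁) = g ^ 2 * (c₁ ^ 2 * W) := by
      linear_combination h2
    exact mul_left_cancel₀ (pow_ne_zero 2 hg0) h3
  have e0 : c₁.eval 0 ≠ 0 := by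
    refine eval_ne_zero_of_rel (s := 1 - X) (W := W) hc₁0 (by simp) hcop ?_
    rw [← h1]
    unfold dl
    rw [map_zero, sub_zero]
  have e1 : c₁.eval 1 ≠ 0 := by
    refine eval_ne_zero_of_rel (s := -X) (W := W) hc₁0 (by simp) hcop ?_
    rw [← h1]
    unfold dl
    rw [map_one]
    ring
  have ha : a = 0 := by
    have h2 := congrArg (eval 0) h1
    unfold dl at h2
    simp only [hW, eval_sub, eval_mul, eval_add, eval_pow, eval_X, eval_C, eval_one, zero_mul,
      mul_zero, sub_zero, mul_one, add_zero, sub_self] at h2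
    rcases mul_eq_zero.1 h2.symm with h3 | h3
    · exact absurd h3 (pow_ne_zero _ e0)
    · exact h3
  have hb : b = 0 := by
    have h2 := congrArg (eval 1) h1
    unfold dl at h2
    simp only [hW, eval_sub, eval_mul, eval_add, eval_pow, eval_X, eval_C, eval_one, zero_mul,
      mul_zero, mul_one, zero_add, sub_self] at h2
    rcases mul_eq_zero.1 h2.symm with h3 | h3
    · exact absurd h3 (pow_ne_zero _ e1)
    · exact h3
  refine ⟨ha, hb, ?_⟩
  have hW0 : W = 0 := by rw [hW, ha, hb]; simp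
  rw [hW0, mul_zero] at h1
  have h2 : (X * (1 - X)) * wronskian c₁ u₁ = 0 := by
    rw [← h1]
    unfold dl wronskian
    ring
  have hx : (X * (1 - X) : k[X]) ≠ 0 := by
    apply mul_ne_zero X_ne_zero
    intro h3
    have := congrArg (eval 0) h3
    simp at this
  have h3 : wronskian c₁ u₁ = 0 := (mul_eq_zero.1 h2).resolve_left hx
  obtain ⟨h4, h5⟩ := hcop.wronskian_eq_zero_iff.1 h3
  have h6 := derivative_eq_zero.1 h4
  have h7 := derivative_eq_zero.1 h5
  rw [natDegree_eq_zero] at h6 h7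
  obtain ⟨x, hx1⟩ := h6
  obtain ⟨y, hy1⟩ := h7
  have hx0 : x ≠ 0 := by
    rintro rfl
    rw [map_zero] at hx1
    exact hc₁0 hx1.symm
  refine ⟨y / x, ?_⟩
  rw [hu₁, hc₁, ← hx1, ← hy1, mul_assoc, ← C_mul, mul_div_cancel₀ _ hx0]

end Pool.Agent.Lib.MP_524521_nt.RA
end

section
/-! Polylogarithms: the derivation `th`. -/
open Polynomial

namespace Pool.Agent.Lib.MP_524521_nt.RA

open MonomialOrder (degLex)
open scoped MonomialOrder

section general

variable {k : Type} [CommRing k] {m : ℕ}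

theorem coeff_cD (R : MvPolynomial (Fin m) k[X]) (γ : Fin m →₀ ℕ) :
    (cD R).coeff γ = dl (R.coeff γ) := by
  classical
  unfold cD
  rw [MvPolynomial.coeff_sum]
  simp only [MvPolynomial.coeff_monomial]
  rw [Finset.sum_ite_eq']
  split_ifs with h
  · rfl
  · rw [MvPolynomial.notMem_support_iff.1 h, dl_zero]

theorem cD_add (R S : MvPolynomial (Fin m) k[X]) : cD (R + S) = cD R + cD S := by
  ext1 γ
  rw [MvPolynomial.coeff_add, coeff_cD, coeff_cD, coeff_cD, MvPolynomial.coeff_add, dl_add]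

theorem cD_C_mul (a : k[X]) (R : MvPolynomial (Fin m) k[X]) :
    cD (MvPolynomial.C a * R) = MvPolynomial.C (dl a) * R + MvPolynomial.C a * cD R := by
  ext1 γ
  rw [coeff_cD, MvPolynomial.coeff_add, MvPolynomial.coeff_C_mul, MvPolynomial.coeff_C_mul,
    MvPolynomial.coeff_C_mul, coeff_cD, dl_mul]

theorem cD_C (a : k[X]) :
    cD (MvPolynomial.C a : MvPolynomial (Fin m) k[X]) = MvPolynomial.C (dl a) := by
  classical
  ext1 γ
  rw [coeff_cD, MvPolynomial.coeff_C, MvPolynomial.coeff_C]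
  split_ifs
  · rfl
  · exact dl_zero

theorem cD_mul_X (R : MvPolynomial (Fin m) k[X]) (j : Fin m) :
    cD (R * MvPolynomial.X j) = cD R * MvPolynomial.X j := by
  classical
  ext1 γ
  rw [coeff_cD, MvPolynomial.coeff_mul_X', MvPolynomial.coeff_mul_X']
  split_ifs
  · rw [coeff_cD]
  · exact dl_zero

theorem th_add' (R S : MvPolynomial (Fin m) k[X]) : th (R + S) = th R + th S := by
  unfold th
  rw [cD_add, map_add]
  ring

theorem th_zero' : th (0 : MvPolynomial (Fin m) k[X]) = 0 := by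
  have h := th_add' (0 : MvPolynomial (Fin m) k[X]) 0
  rw [add_zero] at h
  exact (left_eq_add.1 h)

theorem th_neg' (R : MvPolynomial (Fin m) k[X]) : th (-R) = -th R := by
  have h := th_add' R (-R)
  rw [add_neg_cancel, th_zero'] at h
  exact (neg_eq_of_add_eq_zero_right h.symm).symm

theorem th_sub' (R S : MvPolynomial (Fin m) k[X]) : th (R - S) = th R - th S := by
  rw [sub_eq_add_neg, th_add', th_neg', sub_eq_add_neg]

theorem th_C' (a : k[X]) :
    th (MvPolynomial.C a : MvPolynomial (Fin m) k[X]) = MvPolynomial.C (dl a) := by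
  unfold th
  rw [cD_C, MvPolynomial.derivation_C, add_zero]

theorem th_C_mul' (a : k[X]) (R : MvPolynomial (Fin m) k[X]) :
    th (MvPolynomial.C a * R) = MvPolynomial.C (dl a) * R + MvPolynomial.C a * th R := by
  unfold th
  have h : MvPolynomial.mkDerivation k[X] (nx k) (MvPolynomial.C a * R) =
      MvPolynomial.C a * MvPolynomial.mkDerivation k[X] (nx k) R := by
    rw [← MvPolynomial.smul_eq_C_mul, Derivation.map_smul, MvPolynomial.smul_eq_C_mul]
  rw [cD_C_mul, h]
  ring

theorem th_mul_X (R : MvPolynomial (Fin m) k[X]) (j : Fin m) :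
    th (R * MvPolynomial.X j) = th R * MvPolynomial.X j + R * nx k j := by
  unfold th
  rw [cD_mul_X, Derivation.leibniz, MvPolynomial.mkDerivation_X, smul_eq_mul, smul_eq_mul]
  ring

theorem th_X (j : Fin m) :
    th (MvPolynomial.X j : MvPolynomial (Fin m) k[X]) = nx k j := by
  have h := th_mul_X (k := k) 1 j
  have h1 : th (1 : MvPolynomial (Fin m) k[X]) = 0 := by
    have := th_C' (k := k) (m := m) 1
    rw [MvPolynomial.C_1] at this
    rw [this]
    have h2 : dl (1 : k[X]) = 0 := by simp [dl]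
    rw [h2, map_zero]
  rwa [one_mul, h1, zero_mul, zero_add, one_mul] at h

/-! change of rings -/

theorem map_cD {k' : Type} [CommRing k'] (f : k →+* k') (R : MvPolynomial (Fin m) k[X]) :
    MvPolynomial.map (Polynomial.mapRingHom f) (cD R) =
      cD (MvPolynomial.map (Polynomial.mapRingHom f) R) := by
  ext1 γ
  rw [MvPolynomial.coeff_map, coeff_cD, coeff_cD, MvPolynomial.coeff_map, coe_mapRingHom, dl_map]

theorem map_nx {k' : Type} [CommRing k'] (f : k →+* k') (j : Fin m) :
    MvPolynomial.map (Polynomial.mapRingHom f) (nx k j) = nx k' j := by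
  unfold nx
  split_ifs
  · rw [map_mul, MvPolynomial.map_C, MvPolynomial.map_X]
    simp
  · rw [MvPolynomial.map_C]
    simp

theorem map_th {k' : Type} [CommRing k'] (f : k →+* k') (R : MvPolynomial (Fin m) k[X]) :
    MvPolynomial.map (Polynomial.mapRingHom f) (th R) =
      th (MvPolynomial.map (Polynomial.mapRingHom f) R) := by
  induction R using MvPolynomial.induction_on with
  | C a =>
    rw [th_C', MvPolynomial.map_C, MvPolynomial.map_C, th_C', coe_mapRingHom, dl_map]
  | add p q hp hq => rw [th_add', map_add, hp, hq, map_add, th_add']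
  | mul_X p j hp =>
    rw [th_mul_X, map_add, map_mul, map_mul, hp, map_mul, MvPolynomial.map_X, th_mul_X, map_nx]

/-! degrees -/

theorem sub_single_add {γ : Fin m →₀ ℕ} {i : Fin m} (h : i ∈ γ.support) :
    γ - Finsupp.single i 1 + Finsupp.single i 1 = γ := by
  apply tsub_add_cancel_of_le
  rw [Finsupp.single_le_iff]
  exact Nat.one_le_iff_ne_zero.2 (Finsupp.mem_support_iff.1 h)

theorem mkD_lt (γ : Fin m →₀ ℕ) (a : k[X]) (β : Fin m →₀ ℕ)
    (hβ : (MvPolynomial.mkDerivation k[X] (nx k) (MvPolynomial.monomial γ a)).coeff β ≠ 0) :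
    β ≺[degLex] γ := by
  classical
  rw [MvPolynomial.mkDerivation_monomial, MvPolynomial.coeff_smul, Finsupp.sum,
    MvPolynomial.coeff_sum] at hβ
  obtain ⟨i, hi, hne⟩ : ∃ i ∈ γ.support, ((MvPolynomial.monomial (γ - Finsupp.single i 1))
      ((γ i : ℕ) : k[X]) • nx k i).coeff β ≠ 0 := by
    by_contra hcon
    push Not at hcon
    apply hβ
    rw [Finset.sum_eq_zero hcon, smul_zero]
  have hγ := sub_single_add hi
  rw [smul_eq_mul] at hne
  unfold nx at hne
  split_ifs at hne with h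
  · have h1 : (MvPolynomial.monomial (γ - Finsupp.single i 1)) ((γ i : ℕ) : k[X]) *
        (MvPolynomial.C (1 - X) * MvPolynomial.X ⟨(i : ℕ) + 1, h⟩) =
        MvPolynomial.monomial (γ - Finsupp.single i 1 + Finsupp.single ⟨(i : ℕ) + 1, h⟩ 1)
          (((γ i : ℕ) : k[X]) * (1 - X)) := by
      rw [MvPolynomial.X, MvPolynomial.C_mul_monomial, MvPolynomial.monomial_mul, mul_one]
    rw [h1, MvPolynomial.coeff_monomial] at hne
    have h2 : γ - Finsupp.single i 1 + Finsupp.single ⟨(i : ℕ) + 1, h⟩ 1 = β := by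
      by_contra h3
      rw [if_neg h3] at hne
      exact hne rfl
    rw [← h2]
    conv_rhs => rw [← hγ]
    rw [map_add, map_add]
    apply add_lt_add_right
    rw [MonomialOrder.degLex_single_lt_iff]
    rw [Fin.lt_def]
    simp
  · have h1 : (MvPolynomial.monomial (γ - Finsupp.single i 1)) ((γ i : ℕ) : k[X]) *
        (MvPolynomial.C X) =
        MvPolynomial.monomial (γ - Finsupp.single i 1) (((γ i : ℕ) : k[X]) * X) := by
      rw [mul_comm, MvPolynomial.C_mul_monomial, mul_comm]
    rw [h1, MvPolynomial.coeff_monomial] at hne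
    have h2 : γ - Finsupp.single i 1 = β := by
      by_contra h3
      rw [if_neg h3] at hne
      exact hne rfl
    rw [← h2]
    conv_rhs => rw [← hγ]
    rw [map_add]
    apply lt_add_of_pos_right
    rw [MonomialOrder.toSyn_lt_iff_ne_zero]
    simp

theorem mkD_coeff_lt (R : MvPolynomial (Fin m) k[X]) (β : Fin m →₀ ℕ)
    (hβ : (MvPolynomial.mkDerivation k[X] (nx k) R).coeff β ≠ 0) :
    β ≺[degLex] degLex.degree R := by
  classical
  rw [← MvPolynomial.support_sum_monomial_coeff R, map_sum, MvPolynomial.coeff_sum] at hβ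
  obtain ⟨γ, hγ, hne⟩ := Finset.exists_ne_zero_of_sum_ne_zero hβ
  exact (mkD_lt γ _ β hne).trans_le (MonomialOrder.le_degree hγ)

theorem degree_th_le' (R : MvPolynomial (Fin m) k[X]) :
    degLex.degree (th R) ≼[degLex] degLex.degree R := by
  rw [MonomialOrder.degree_le_iff]
  intro β hβ
  rw [MvPolynomial.mem_support_iff] at hβ
  unfold th at hβ
  rw [MvPolynomial.coeff_add] at hβ
  by_cases h : (MvPolynomial.mkDerivation k[X] (nx k) R).coeff β = 0
  · rw [h, add_zero, coeff_cD] at hβ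
    apply MonomialOrder.le_degree
    rw [MvPolynomial.mem_support_iff]
    intro h0
    rw [h0, dl_zero] at hβ
    exact hβ rfl
  · exact (mkD_coeff_lt R β h).le

theorem coeff_th' (R : MvPolynomial (Fin m) k[X]) :
    (th R).coeff (degLex.degree R) = dl (degLex.leadingCoeff R) := by
  unfold th
  rw [MvPolynomial.coeff_add, coeff_cD]
  have h : (MvPolynomial.mkDerivation k[X] (nx k) R).coeff (degLex.degree R) = 0 := by
    by_contra h
    exact lt_irrefl _ (mkD_coeff_lt R _ h)
  rw [h, add_zero]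
  rfl

end general

/-! ### the statements over `ℤ` -/

variable {m : ℕ}

theorem th_add (R S : Gx m) : th (R + S) = th R + th S := th_add' R S

theorem th_C_mul (a : ℤ[X]) (R : Gx m) :
    th (MvPolynomial.C a * R) = MvPolynomial.C (dl a) * R + MvPolynomial.C a * th R :=
  th_C_mul' a R

theorem degree_th_le (R : Gx m) : degLex.degree (th R) ≼[degLex] degLex.degree R :=
  degree_th_le' R

theorem coeff_th {R : Gx m} (_hR : R ≠ 0) : (th R).coeff (degLex.degree R) = dl (lc R) :=
  coeff_th' R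

theorem natDegree_dl_le {A : ℕ} {a : ℤ[X]} (h : a.natDegree ≤ A) : (dl a).natDegree ≤ A + 1 := by
  unfold dl
  rcases Nat.eq_zero_or_pos a.natDegree with h0 | h0
  · rw [natDegree_eq_zero] at h0
    obtain ⟨x, rfl⟩ := h0
    simp
  · have h1 : ((X : ℤ[X]) * (1 - X)).natDegree ≤ 2 := by
      refine natDegree_mul_le.trans ?_
      have h2 : (1 - X : ℤ[X]).natDegree ≤ 1 := by
        refine (natDegree_sub_le _ _).trans ?_
        simp
      have h3 : (X : ℤ[X]).natDegree ≤ 1 := natDegree_X_le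
      omega
    have h2 := natDegree_derivative_le a
    refine natDegree_mul_le.trans ?_
    omega

theorem DB_nx (j : Fin m) : DB 1 (nx ℤ j : Gx m) := by
  unfold nx
  split_ifs with h
  · have h1 : DB 1 (MvPolynomial.C (1 - X) : Gx m) := by
      refine (DB_C _).mono ?_
      refine (natDegree_sub_le _ _).trans ?_
      simp
    have h2 : DB 0 (MvPolynomial.X ⟨(j : ℕ) + 1, h⟩ : Gx m) := by
      classical
      intro γ
      rw [MvPolynomial.coeff_X]
      split_ifs <;> simp
    simpa using h1.mul h2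
  · exact (DB_C _).mono (by simp)

theorem DB_th {A : ℕ} {R : Gx m} (h : DB A R) : DB (A + 1) (th R) := by
  classical
  unfold th
  refine DB.add ?_ ?_
  · intro γ
    rw [coeff_cD]
    exact natDegree_dl_le (h γ)
  · rw [← MvPolynomial.support_sum_monomial_coeff R, map_sum]
    refine DB.sum _ _ fun γ _ => ?_
    rw [MvPolynomial.mkDerivation_monomial, MvPolynomial.smul_eq_C_mul]
    have h1 : DB 1 (γ.sum fun i n => (MvPolynomial.monomial (γ - Finsupp.single i 1))
        ((n : ℕ) : ℤ[X]) • (nx ℤ i : Gx m)) := by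
      refine DB.sum _ _ fun i _ => ?_
      simp only [smul_eq_mul]
      have h2 : DB 0 ((MvPolynomial.monomial (γ - Finsupp.single i 1)) ((γ i : ℕ) : ℤ[X]) : Gx m) := by
        intro β
        rw [MvPolynomial.coeff_monomial]
        split_ifs <;> simp
      simpa using h2.mul (DB_nx i)
    exact ((DB_C _).mul h1).mono (Nat.add_le_add_right (h γ) 1)

/-! ### the constants -/

section const

variable {k : Type} [Field k] [CharZero k]

omit [CharZero k] in
theorem pderiv_nx (i j : Fin m) : MvPolynomial.pderiv i (nx k j) =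
    if (j : ℕ) + 1 = i then MvPolynomial.C (1 - X) else 0 := by
  classical
  unfold nx
  split_ifs with h h1 h1
  · rw [MvPolynomial.pderiv_C_mul]
    have : (⟨(j : ℕ) + 1, h⟩ : Fin m) = i := Fin.ext h1
    rw [this, MvPolynomial.pderiv_X_self, mul_one]
  · rw [MvPolynomial.pderiv_C_mul, MvPolynomial.pderiv_X_of_ne, mul_zero]
    intro h2
    exact h1 (congrArg Fin.val h2)
  · exact absurd h1 (by have := i.2; omega)
  · exact MvPolynomial.pderiv_C

omit [CharZero k] in
theorem pderiv_th (i : Fin m) (R : MvPolynomial (Fin m) k[X]) :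
    MvPolynomial.pderiv i (th R) = th (MvPolynomial.pderiv i R) +
      ∑ j : Fin m, (if (j : ℕ) + 1 = i then MvPolynomial.C (1 - X) * MvPolynomial.pderiv j R
        else 0) := by
  classical
  induction R using MvPolynomial.induction_on with
  | C a =>
    rw [th_C', MvPolynomial.pderiv_C, MvPolynomial.pderiv_C, th_zero', zero_add]
    symm
    refine Finset.sum_eq_zero fun j _ => ?_
    rw [MvPolynomial.pderiv_C, mul_zero]
    simp
  | add p q hp hq =>
    rw [th_add', map_add, hp, hq, map_add, th_add']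
    have : ∀ j : Fin m, (if (j : ℕ) + 1 = i then (MvPolynomial.C (1 - X) *
        MvPolynomial.pderiv j (p + q) : MvPolynomial (Fin m) k[X]) else 0) =
        (if (j : ℕ) + 1 = i then MvPolynomial.C (1 - X) * MvPolynomial.pderiv j p else 0) +
        (if (j : ℕ) + 1 = i then MvPolynomial.C (1 - X) * MvPolynomial.pderiv j q else 0) := by
      intro j
      split_ifs
      · rw [map_add, mul_add]
      · rw [add_zero]
    simp only [this, Finset.sum_add_distrib]
    ring
  | mul_X p l hp =>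
    rw [th_mul_X, map_add, MvPolynomial.pderiv_mul, MvPolynomial.pderiv_mul, hp,
      MvPolynomial.pderiv_mul, th_add', th_mul_X, pderiv_nx]
    have h1 : th (p * MvPolynomial.pderiv i (MvPolynomial.X l)) =
        th p * MvPolynomial.pderiv i (MvPolynomial.X l) := by
      rw [MvPolynomial.pderiv_X]
      by_cases h : i = l
      · subst h; simp
      · rw [Pi.single_eq_of_ne' h, mul_zero, mul_zero, th_zero']
    rw [h1]
    have h2 : ∀ j : Fin m, (if (j : ℕ) + 1 = i then (MvPolynomial.C (1 - X) *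
        MvPolynomial.pderiv j (p * MvPolynomial.X l) : MvPolynomial (Fin m) k[X]) else 0) =
        (if (j : ℕ) + 1 = i then MvPolynomial.C (1 - X) * MvPolynomial.pderiv j p else 0) *
          MvPolynomial.X l +
        (if j = l then (if (j : ℕ) + 1 = i then p * MvPolynomial.C (1 - X) else 0) else 0) := by
      intro j
      rw [MvPolynomial.pderiv_mul, MvPolynomial.pderiv_X]
      by_cases h : j = l
      · subst h
        rw [if_pos rfl, Pi.single_eq_same]
        split_ifs
        · ring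
        · ring
      · rw [if_neg h, Pi.single_eq_of_ne' h]
        split_ifs
        · ring
        · ring
    simp only [h2, Finset.sum_add_distrib, ← Finset.sum_mul, Finset.sum_ite_eq', Finset.mem_univ,
      if_true]
    have h3 : (if (l : ℕ) + 1 = i then p * MvPolynomial.C (1 - X) else 0) =
        p * (if (l : ℕ) + 1 = i then MvPolynomial.C (1 - X) else 0) := by
      split_ifs
      · rfl
      · rw [mul_zero]
    rw [h3]
    ring

omit [CharZero k] in
theorem totalDegree_pderiv_le (i : Fin m) {n : ℕ} {u : MvPolynomial (Fin m) k[X]}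
    (hu : u.totalDegree ≤ n + 1) : (MvPolynomial.pderiv i u).totalDegree ≤ n := by
  classical
  unfold MvPolynomial.totalDegree
  refine Finset.sup_le fun γ hγ => ?_
  rw [MvPolynomial.mem_support_iff] at hγ
  have h1 : u.coeff (γ + Finsupp.single i 1) ≠ 0 := by
    intro h0
    apply hγ
    rw [MvPolynomial.coeff_pderiv, h0, zero_mul]
  have h2 := MvPolynomial.le_totalDegree (MvPolynomial.mem_support_iff.2 h1)
  have h3 : ((γ + Finsupp.single i 1).sum fun _ e => e) = (γ.sum fun _ e => e) + 1 := by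
    rw [Finsupp.sum_add_index' (fun _ => rfl) (fun _ _ _ => rfl)]
    simp
  omega

theorem eq_C_of_pderiv_eq_zero (v : MvPolynomial (Fin m) k[X])
    (h : ∀ i, MvPolynomial.pderiv i v = 0) : v = MvPolynomial.C (v.coeff 0) := by
  classical
  ext1 d
  rw [MvPolynomial.coeff_C]
  split_ifs with hd
  · rw [hd]
  · obtain ⟨i, hi⟩ : ∃ i, d i ≠ 0 := by
      by_contra hcon
      push Not at hcon
      exact hd (Finsupp.ext fun i => (hcon i).symm)
    have h1 := congrArg (MvPolynomial.coeff (d - Finsupp.single i 1)) (h i)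
    rw [MvPolynomial.coeff_pderiv, MvPolynomial.coeff_zero,
      sub_single_add (Finsupp.mem_support_iff.2 hi)] at h1
    have h2 : (((d - Finsupp.single i 1 : Fin m →₀ ℕ) i : ℕ) : k[X]) + 1 ≠ 0 :=
      Nat.cast_add_one_ne_zero _
    exact (mul_eq_zero.1 h1).resolve_right h2

/-- a quotient `u / c` with `θ (u / c) = a (1 - x)` is a constant -/
theorem const_rel : ∀ (n : ℕ) (u : MvPolynomial (Fin m) k[X]) (c : k[X]) (a : k), c ≠ 0 →
    u.totalDegree ≤ n → MvPolynomial.C c * th u - MvPolynomial.C (dl c) * u =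
      MvPolynomial.C (c ^ 2 * (C a * (1 - X))) → a = 0 ∧ ∃ q : k, u = MvPolynomial.C (c * C q) := by
  classical
  intro n
  induction n with
  | zero =>
    intro u c a hc hu h
    obtain ⟨u₀, rfl⟩ : ∃ u₀, u = MvPolynomial.C u₀ :=
      ⟨_, MvPolynomial.totalDegree_eq_zero_iff_eq_C.1 (Nat.le_zero.1 hu)⟩
    rw [th_C', ← MvPolynomial.C_mul, ← MvPolynomial.C_mul, ← MvPolynomial.C_sub] at h
    have h1 := MvPolynomial.C_injective _ _ h
    obtain ⟨ha, -, q, hq⟩ := base_rel (c := c) (u := u₀) hc a 0 (by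
      rw [h1, map_zero, zero_mul, add_zero])
    exact ⟨ha, q, by rw [hq]⟩
  | succ n ih =>
    intro u c a hc hu h
    -- the relation for the derivatives
    have hrel : ∀ i : Fin m, MvPolynomial.C c * th (MvPolynomial.pderiv i u) -
        MvPolynomial.C (dl c) * MvPolynomial.pderiv i u = - (MvPolynomial.C c *
          ∑ j : Fin m, (if (j : ℕ) + 1 = i then
            MvPolynomial.C (1 - X) * MvPolynomial.pderiv j u else 0)) := by
      intro i
      have h1 := congrArg (MvPolynomial.pderiv i) h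
      rw [map_sub, MvPolynomial.pderiv_C_mul, MvPolynomial.pderiv_C_mul, MvPolynomial.pderiv_C,
        pderiv_th] at h1
      linear_combination h1
    have key : ∀ (l : ℕ) (i : Fin m), (i : ℕ) = l →
        (∃ q : k, MvPolynomial.pderiv i u = MvPolynomial.C (c * C q)) ∧
        ∀ j : Fin m, (j : ℕ) + 1 = i → MvPolynomial.pderiv j u = 0 := by
      intro l
      induction l with
      | zero =>
        intro i hi
        have h1 := hrel i
        rw [Finset.sum_eq_zero (fun j _ => if_neg (by omega)), mul_zero, neg_zero] at h1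
        obtain ⟨-, q, hq⟩ := ih (MvPolynomial.pderiv i u) c 0 hc (totalDegree_pderiv_le i hu) (by
          rw [h1, map_zero, zero_mul, mul_zero, map_zero])
        exact ⟨⟨q, hq⟩, fun j hj => absurd hj (by omega)⟩
      | succ l ihl =>
        intro i hi
        set j₀ : Fin m := ⟨l, by have := i.2; omega⟩ with hj₀
        obtain ⟨⟨q₀, hq₀⟩, -⟩ := ihl j₀ rfl
        have h1 := hrel i
        have h2 : (∑ j : Fin m, (if (j : ℕ) + 1 = i then
            MvPolynomial.C (1 - X) * MvPolynomial.pderiv j u else 0)) =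
            MvPolynomial.C (1 - X) * MvPolynomial.pderiv j₀ u := by
          rw [Finset.sum_eq_single j₀]
          · rw [if_pos (by rw [hi])]
          · intro j _ hj
            apply if_neg
            intro h3
            apply hj
            apply Fin.ext
            rw [hj₀]
            simp only
            omega
          · intro h3
            exact absurd (Finset.mem_univ _) h3
        rw [h2, hq₀, ← MvPolynomial.C_mul, ← MvPolynomial.C_mul, ← MvPolynomial.C_neg] at h1
        obtain ⟨ha, q, hq⟩ := ih (MvPolynomial.pderiv i u) c (-q₀) hc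
          (totalDegree_pderiv_le i hu) (by
            rw [h1]
            congr 1
            rw [map_neg]
            ring)
        rw [neg_eq_zero] at ha
        refine ⟨⟨q, hq⟩, fun j hj => ?_⟩
        have h3 : j = j₀ := by
          apply Fin.ext
          rw [hj₀]
          simp only
          omega
        rw [h3, hq₀, ha, map_zero, mul_zero, map_zero]
    have hq1 : ∀ i : Fin m, ∃ q : k, MvPolynomial.pderiv i u = MvPolynomial.C (c * C q) :=
      fun i => (key i i rfl).1
    choose q hq using hq1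
    have hq0 : ∀ i : Fin m, (i : ℕ) + 1 < m → q i = 0 := by
      intro i hi
      have h1 := (key ((i : ℕ) + 1) ⟨(i : ℕ) + 1, hi⟩ rfl).2 i rfl
      rw [hq i] at h1
      have h2 := MvPolynomial.C_eq_zero.1 h1
      have h3 := (mul_eq_zero.1 h2).resolve_left hc
      exact C_eq_zero.1 h3
    -- the shape of `u`
    set v := u - ∑ i, MvPolynomial.C (c * C (q i)) * MvPolynomial.X i with hv
    have hv0 : v = MvPolynomial.C (v.coeff 0) := by
      refine eq_C_of_pderiv_eq_zero v fun i => ?_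
      rw [hv, map_sub, map_sum, hq i, Finset.sum_eq_single i]
      · rw [MvPolynomial.pderiv_C_mul, MvPolynomial.pderiv_X_self, mul_one, sub_self]
      · intro j _ hj
        rw [MvPolynomial.pderiv_C_mul, MvPolynomial.pderiv_X_of_ne hj, mul_zero]
      · intro h3
        exact absurd (Finset.mem_univ _) h3
    set v₀ := v.coeff 0 with hv₀
    have hu1 : u = ∑ i, MvPolynomial.C (c * C (q i)) * MvPolynomial.X i + MvPolynomial.C v₀ := by
      rw [← hv0, hv]
      ring
    have hsum : ∀ (s : Finset (Fin m)), th (∑ i ∈ s, MvPolynomial.C (c * C (q i)) *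
        MvPolynomial.X i) = ∑ i ∈ s, (MvPolynomial.C (dl c * C (q i)) * MvPolynomial.X i +
          MvPolynomial.C (c * C (q i) * X)) := by
      intro s
      induction s using Finset.induction_on with
      | empty => simp [th_zero']
      | insert i s hi ihs =>
        rw [Finset.sum_insert hi, Finset.sum_insert hi, th_add', ihs]
        congr 1
        rw [th_mul_X, th_C']
        have h1 : dl (c * C (q i)) = dl c * C (q i) := by
          rw [dl_mul, dl_C, mul_zero, add_zero]
        rw [h1]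
        congr 1
        unfold nx
        split_ifs with h2
        · rw [hq0 i h2]
          simp
        · rw [← MvPolynomial.C_mul]
    have h1 := h
    rw [hu1, th_add', hsum, th_C'] at h1
    have h2 : MvPolynomial.C (c * dl v₀ - dl c * v₀ + c ^ 2 * (C (∑ i, q i) * X)) =
        (MvPolynomial.C (c ^ 2 * (C a * (1 - X))) : MvPolynomial (Fin m) k[X]) := by
      rw [← h1, MvPolynomial.C_add, MvPolynomial.C_sub, mul_add, mul_add, Finset.sum_add_distrib,
        mul_add, Finset.mul_sum, Finset.mul_sum, Finset.mul_sum]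
      have e1 : ∑ i : Fin m, (MvPolynomial.C c * (MvPolynomial.C (dl c * C (q i)) *
          MvPolynomial.X i) : MvPolynomial (Fin m) k[X]) =
          ∑ i : Fin m, MvPolynomial.C (dl c) * (MvPolynomial.C (c * C (q i)) *
            MvPolynomial.X i) := by
        refine Finset.sum_congr rfl fun i _ => ?_
        rw [← mul_assoc, ← mul_assoc, ← MvPolynomial.C_mul, ← MvPolynomial.C_mul]
        congr 2
        ring
      have e2 : ∑ i : Fin m, (MvPolynomial.C c * MvPolynomial.C (c * C (q i) * X) :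
          MvPolynomial (Fin m) k[X]) = MvPolynomial.C (c ^ 2 * (C (∑ i, q i) * X)) := by
        rw [map_sum, Finset.sum_mul, Finset.mul_sum, map_sum]
        refine Finset.sum_congr rfl fun i _ => ?_
        rw [← MvPolynomial.C_mul]
        congr 1
        ring
      rw [e1, e2, ← MvPolynomial.C_mul, ← MvPolynomial.C_mul]
      ring
    have h3 := MvPolynomial.C_injective _ _ h2
    obtain ⟨ha, hb, q', hq'⟩ := base_rel (c := c) (u := v₀) hc a (-∑ i, q i) (by
      rw [map_neg]
      linear_combination h3)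
    rw [neg_eq_zero] at hb
    have hqz : ∀ i, q i = 0 := by
      intro i
      by_cases hi : (i : ℕ) + 1 < m
      · exact hq0 i hi
      · rw [← hb]
        symm
        apply Finset.sum_eq_single i
        · intro j _ hj
          apply hq0
          have h4 : (j : ℕ) ≠ i := fun h5 => hj (Fin.ext h5)
          have := i.2
          have := j.2
          omega
        · intro h5
          exact absurd (Finset.mem_univ _) h5
    refine ⟨ha, q', ?_⟩
    rw [hu1, hq', Finset.sum_eq_zero (fun i _ => by rw [hqz i]; simp), zero_add]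

end const

/-- the only constants of the derivation are the constants -/
theorem eq_C_of_th {R : Gx m} (hR : R ≠ 0)
    (h : MvPolynomial.C (lc R) * th R = MvPolynomial.C (dl (lc R)) * R) :
    R = MvPolynomial.C (lc R) := by
  classical
  have hinj : Function.Injective (Polynomial.mapRingHom (Int.castRingHom ℚ)) :=
    Polynomial.map_injective _ Int.cast_injective
  have hlc : lc R ≠ 0 := (MonomialOrder.leadingCoeff_ne_zero_iff (m := degLex)).2 hR
  have hc : Polynomial.mapRingHom (Int.castRingHom ℚ) (lc R) ≠ 0 := by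
    intro h0
    exact hlc (hinj (h0.trans (map_zero _).symm))
  have h1 := congrArg (MvPolynomial.map (Polynomial.mapRingHom (Int.castRingHom ℚ))) h
  rw [map_mul, map_mul, MvPolynomial.map_C, MvPolynomial.map_C, map_th] at h1
  have h2 : Polynomial.mapRingHom (Int.castRingHom ℚ) (dl (lc R)) =
      dl (Polynomial.mapRingHom (Int.castRingHom ℚ) (lc R)) := by
    rw [coe_mapRingHom, dl_map]
  rw [h2] at h1
  obtain ⟨-, q, hq⟩ := const_rel _ (MvPolynomial.map (Polynomial.mapRingHom (Int.castRingHom ℚ)) R)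
    (Polynomial.mapRingHom (Int.castRingHom ℚ) (lc R)) 0 hc le_rfl (by
      rw [h1, sub_self, map_zero, zero_mul, mul_zero, map_zero])
  have h8 : R = MvPolynomial.C (R.coeff 0) := by
    ext1 γ
    rw [MvPolynomial.coeff_C]
    split_ifs with h
    · rw [h]
    · apply hinj
      rw [← MvPolynomial.coeff_map, hq, MvPolynomial.coeff_C, if_neg h, map_zero]
  have h9 : lc R = R.coeff 0 := by
    unfold lc
    rw [h8]
    simp
  rw [h9]
  exact h8

end Pool.Agent.Lib.MP_524521_nt.RA
end

section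
/-!
# The total l1 norm and the derivation `th`
-/
open Polynomial

namespace Pool.Agent.Lib.MP_524521_nt.RA

variable {m : ℕ}

/-- the l1 norm of an integer polynomial in one variable -/
noncomputable def lp (p : ℤ[X]) : ℕ := ∑ i ∈ p.support, (p.coeff i).natAbs

theorem lp_eq_sum (p : ℤ[X]) (S : Finset ℕ) (hS : p.support ⊆ S) :
    lp p = ∑ i ∈ S, (p.coeff i).natAbs := by
  unfold lp
  refine Finset.sum_subset hS fun d _ hd => ?_
  rw [Polynomial.notMem_support_iff.mp hd]
  rfl

theorem lp_zero : lp 0 = 0 := by simp [lp]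

theorem lp_add (p q : ℤ[X]) : lp (p + q) ≤ lp p + lp q := by
  classical
  rw [lp_eq_sum (p + q) (p.support ∪ q.support) Polynomial.support_add,
    lp_eq_sum p (p.support ∪ q.support) Finset.subset_union_left,
    lp_eq_sum q (p.support ∪ q.support) Finset.subset_union_right, ← Finset.sum_add_distrib]
  refine Finset.sum_le_sum fun d _ => ?_
  rw [Polynomial.coeff_add]
  exact Int.natAbs_add_le _ _

theorem lp_sum {ι : Type*} (s : Finset ι) (f : ι → ℤ[X]) :
    lp (∑ i ∈ s, f i) ≤ ∑ i ∈ s, lp (f i) := by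
  classical
  induction s using Finset.induction_on with
  | empty => simp [lp_zero]
  | insert a s ha ih =>
      rw [Finset.sum_insert ha, Finset.sum_insert ha]
      exact (lp_add _ _).trans (by omega)

theorem lp_monomial (n : ℕ) (c : ℤ) : lp (Polynomial.monomial n c) = c.natAbs := by
  classical
  rw [lp_eq_sum _ {n} (Polynomial.support_monomial_subset n c)]
  simp

theorem lp_one : lp 1 = 1 := by
  have : (1 : ℤ[X]) = Polynomial.monomial 0 1 := rfl
  rw [this, lp_monomial]
  rfl

theorem lp_X : lp X = 1 := by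
  rw [← Polynomial.monomial_one_one_eq_X, lp_monomial]
  rfl

theorem lp_neg (p : ℤ[X]) : lp (-p) = lp p := by
  unfold lp
  rw [Polynomial.support_neg]
  refine Finset.sum_congr rfl fun d _ => ?_
  rw [Polynomial.coeff_neg, Int.natAbs_neg]

theorem lp_mul_monomial (p : ℤ[X]) (n : ℕ) (c : ℤ) :
    lp (p * Polynomial.monomial n c) ≤ lp p * c.natAbs := by
  classical
  have h1 : p * Polynomial.monomial n c =
      ∑ i ∈ p.support, Polynomial.monomial (i + n) (p.coeff i * c) := by
    conv_lhs => rw [Polynomial.as_sum_support p, Finset.sum_mul]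
    exact Finset.sum_congr rfl fun i _ => by rw [Polynomial.monomial_mul_monomial]
  rw [h1]
  refine (lp_sum _ _).trans ?_
  unfold lp
  rw [Finset.sum_mul]
  refine Finset.sum_le_sum fun i _ => ?_
  have := lp_monomial (i + n) (p.coeff i * c)
  unfold lp at this
  rw [this, Int.natAbs_mul]

theorem lp_mul (p q : ℤ[X]) : lp (p * q) ≤ lp p * lp q := by
  classical
  conv_lhs => rw [Polynomial.as_sum_support q, Finset.mul_sum]
  refine (lp_sum _ _).trans ?_
  have : lp p * lp q = ∑ d ∈ q.support, lp p * (q.coeff d).natAbs := by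
    rw [← Finset.mul_sum]; rfl
  rw [this]
  exact Finset.sum_le_sum fun d _ => lp_mul_monomial _ _ _

theorem lp_one_sub_X : lp (1 - X) ≤ 2 := by
  rw [sub_eq_add_neg]
  refine (lp_add _ _).trans ?_
  rw [lp_one, lp_neg, lp_X]

theorem lp_derivative (p : ℤ[X]) (A : ℕ) (hA : p.natDegree ≤ A) : lp (derivative p) ≤ A * lp p := by
  classical
  conv_lhs => rw [Polynomial.as_sum_support p]
  rw [Polynomial.derivative_sum]
  refine (lp_sum _ _).trans ?_
  unfold lp
  rw [Finset.mul_sum]
  refine Finset.sum_le_sum fun i hi => ?_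
  rw [Polynomial.derivative_monomial]
  have h1 := lp_monomial (i - 1) (p.coeff i * (i : ℤ))
  unfold lp at h1
  rw [h1, Int.natAbs_mul, Int.natAbs_natCast, mul_comm]
  exact Nat.mul_le_mul_right _ ((Polynomial.le_natDegree_of_mem_supp i hi).trans hA)

theorem lp_dl (p : ℤ[X]) (A : ℕ) (hA : p.natDegree ≤ A) : lp (dl p) ≤ 2 * A * lp p := by
  unfold dl
  have h1 := lp_mul (X * (1 - X)) (derivative p)
  have h2 := lp_mul X (1 - X : ℤ[X])
  have h3 := lp_one_sub_X
  have h4 := lp_derivative p A hA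
  rw [lp_X, one_mul] at h2
  calc lp (X * (1 - X) * derivative p) ≤ lp (X * (1 - X)) * lp (derivative p) := h1
    _ ≤ 2 * (A * lp p) := Nat.mul_le_mul (h2.trans h3) h4
    _ = 2 * A * lp p := by ring

/-- value in the unit disc -/
theorem norm_aeval_le_lp (p : ℤ[X]) (z : ℂ) (hz : ‖z‖ ≤ 1) : ‖aeval z p‖ ≤ lp p := by
  rw [Polynomial.aeval_eq_sum_range' (n := p.natDegree + 1) (Nat.lt_succ_self _)]
  refine (norm_sum_le _ _).trans ?_
  rw [lp_eq_sum p (Finset.range (p.natDegree + 1)) Polynomial.supp_subset_range_natDegree_succ]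
  push_cast
  refine Finset.sum_le_sum fun i _ => ?_
  rw [norm_smul, norm_pow]
  have h1 : ‖p.coeff i‖ = |((p.coeff i : ℤ) : ℝ)| := rfl
  rw [h1]
  calc |((p.coeff i : ℤ) : ℝ)| * ‖z‖ ^ i ≤ |((p.coeff i : ℤ) : ℝ)| * 1 :=
        mul_le_mul_of_nonneg_left (pow_le_one₀ (norm_nonneg _) hz) (abs_nonneg _)
    _ = (((p.coeff i).natAbs : ℕ) : ℝ) := by rw [mul_one, Nat.cast_natAbs, Int.cast_abs]

/-! ### the norm on `Gx m` -/

theorem NT_eq (R : Gx m) : NT R = ∑ γ ∈ R.support, lp (R.coeff γ) := rfl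

theorem NT_eq_sum (R : Gx m) (S : Finset (Fin m →₀ ℕ)) (hS : R.support ⊆ S) :
    NT R = ∑ γ ∈ S, lp (R.coeff γ) := by
  rw [NT_eq]
  refine Finset.sum_subset hS fun d _ hd => ?_
  rw [MvPolynomial.notMem_support_iff.mp hd, lp_zero]

theorem NT_zero : NT (0 : Gx m) = 0 := by simp [NT]

theorem NT_add (p q : Gx m) : NT (p + q) ≤ NT p + NT q := by
  classical
  rw [NT_eq_sum (p + q) (p.support ∪ q.support) MvPolynomial.support_add,
    NT_eq_sum p (p.support ∪ q.support) Finset.subset_union_left,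
    NT_eq_sum q (p.support ∪ q.support) Finset.subset_union_right, ← Finset.sum_add_distrib]
  refine Finset.sum_le_sum fun d _ => ?_
  rw [MvPolynomial.coeff_add]
  exact lp_add _ _

theorem NT_sum {ι : Type*} (s : Finset ι) (f : ι → Gx m) :
    NT (∑ i ∈ s, f i) ≤ ∑ i ∈ s, NT (f i) := by
  classical
  induction s using Finset.induction_on with
  | empty => simp [NT_zero]
  | insert a s ha ih =>
      rw [Finset.sum_insert ha, Finset.sum_insert ha]
      exact (NT_add _ _).trans (by omega)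

theorem NT_monomial (γ : Fin m →₀ ℕ) (p : ℤ[X]) : NT (MvPolynomial.monomial γ p : Gx m) = lp p := by
  classical
  rw [NT_eq_sum _ {γ} MvPolynomial.support_monomial_subset]
  simp

theorem NT_mul_monomial (R : Gx m) (γ : Fin m →₀ ℕ) (p : ℤ[X]) :
    NT (R * MvPolynomial.monomial γ p) ≤ NT R * lp p := by
  classical
  have h1 : R * MvPolynomial.monomial γ p =
      ∑ δ ∈ R.support, MvPolynomial.monomial (δ + γ) (R.coeff δ * p) := by
    conv_lhs => rw [MvPolynomial.as_sum R, Finset.sum_mul]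
    exact Finset.sum_congr rfl fun δ _ => by rw [MvPolynomial.monomial_mul]
  rw [h1]
  refine (NT_sum _ _).trans ?_
  rw [NT_eq R, Finset.sum_mul]
  refine Finset.sum_le_sum fun δ _ => ?_
  rw [NT_monomial]
  exact lp_mul _ _

theorem NT_mul (R S : Gx m) : NT (R * S) ≤ NT R * NT S := by
  classical
  conv_lhs => rw [MvPolynomial.as_sum S, Finset.mul_sum]
  refine (NT_sum _ _).trans ?_
  rw [NT_eq S, Finset.mul_sum]
  exact Finset.sum_le_sum fun d _ => NT_mul_monomial _ _ _

theorem NT_C (p : ℤ[X]) : NT (MvPolynomial.C p : Gx m) = lp p := NT_monomial 0 p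

theorem NT_X (k : Fin m) : NT (MvPolynomial.X k : Gx m) = 1 := by
  have := NT_monomial (m := m) (Finsupp.single k 1) 1
  rw [lp_one] at this
  exact this

theorem lp_le_NT (R : Gx m) (γ : Fin m →₀ ℕ) : lp (R.coeff γ) ≤ NT R := by
  by_cases h : γ ∈ R.support
  · rw [NT_eq]
    exact Finset.single_le_sum (f := fun γ => lp (R.coeff γ)) (fun _ _ => Nat.zero_le _) h
  · rw [MvPolynomial.notMem_support_iff.1 h, lp_zero]
    exact Nat.zero_le _

theorem NT_nx (j : Fin m) : NT (nx ℤ j) ≤ 2 := by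
  unfold nx
  split_ifs with h
  · refine (NT_mul _ _).trans ?_
    rw [NT_C, NT_X, mul_one]
    exact lp_one_sub_X
  · rw [NT_C, lp_X]
    norm_num

theorem NT_cD {A : ℕ} {R : Gx m} (hA : DB A R) : NT (cD R) ≤ 2 * A * NT R := by
  unfold cD
  refine (NT_sum _ _).trans ?_
  rw [NT_eq R, Finset.mul_sum]
  refine Finset.sum_le_sum fun γ _ => ?_
  rw [NT_monomial]
  exact lp_dl _ _ (hA γ)

theorem NT_mkD {E : ℕ} {R : Gx m} (hE : R.totalDegree ≤ E) :
    NT (MvPolynomial.mkDerivation ℤ[X] (nx ℤ) R) ≤ 2 * E * NT R := by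
  classical
  conv_lhs => rw [MvPolynomial.as_sum R, map_sum]
  refine (NT_sum _ _).trans ?_
  rw [NT_eq R, Finset.mul_sum]
  refine Finset.sum_le_sum fun γ hγ => ?_
  rw [MvPolynomial.mkDerivation_monomial, MvPolynomial.smul_eq_C_mul]
  refine (NT_mul _ _).trans ?_
  rw [NT_C, mul_comm]
  refine Nat.mul_le_mul_right _ ?_
  unfold Finsupp.sum
  refine (NT_sum _ _).trans ?_
  have h1 : ∀ k ∈ γ.support, NT ((MvPolynomial.monomial (γ - Finsupp.single k 1))
      ((γ k : ℕ) : ℤ[X]) • nx ℤ k) ≤ 2 * γ k := by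
    intro k _
    rw [smul_eq_mul]
    refine (NT_mul _ _).trans ?_
    rw [NT_monomial]
    have h2 : lp ((γ k : ℕ) : ℤ[X]) = γ k := by
      have h3 : ((γ k : ℕ) : ℤ[X]) = Polynomial.monomial 0 ((γ k : ℕ) : ℤ) := by
        rw [Polynomial.monomial_zero_left]
        simp
      rw [h3, lp_monomial, Int.natAbs_natCast]
    rw [h2, mul_comm]
    exact Nat.mul_le_mul_right _ (NT_nx k)
  refine (Finset.sum_le_sum h1).trans ?_
  rw [← Finset.mul_sum]
  refine Nat.mul_le_mul_left _ ?_
  exact (MvPolynomial.le_totalDegree hγ).trans hE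

theorem NT_th {A E : ℕ} {R : Gx m} (hA : DB A R) (hE : R.totalDegree ≤ E) :
    NT (th R) ≤ 2 * (A + E) * NT R := by
  unfold th
  refine (NT_add _ _).trans ?_
  calc NT (cD R) + NT (MvPolynomial.mkDerivation ℤ[X] (nx ℤ) R)
      ≤ 2 * A * NT R + 2 * E * NT R := Nat.add_le_add (NT_cD hA) (NT_mkD hE)
    _ = 2 * (A + E) * NT R := by ring

end Pool.Agent.Lib.MP_524521_nt.RA
end

section
/-!
# Elimination for the polylogarithms

One Cramer step in the span of the iterates of the derivation `th`.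
-/
open Polynomial

namespace Pool.Agent.Lib.MP_524521_nt.RA

open MonomialOrder (degLex)
open scoped MonomialOrder

variable {m : ℕ}

/-! ### iterates -/

theorem totalDegree_th {E : ℕ} {R : Gx m} (h : R.totalDegree ≤ E) : (th R).totalDegree ≤ E :=
  (MvPolynomial.degLex_totalDegree_monotone (degree_th_le R)).trans h

theorem totalDegree_thi {E : ℕ} {R : Gx m} (h : R.totalDegree ≤ E) (j : ℕ) :
    (th^[j] R).totalDegree ≤ E := by
  induction j with
  | zero => exact h
  | succ j ih =>
    rw [Function.iterate_succ_apply']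
    exact totalDegree_th ih

theorem DB_thi {A : ℕ} {R : Gx m} (hA : DB A R) (j : ℕ) : DB (A + j) (th^[j] R) := by
  induction j with
  | zero => simpa using hA
  | succ j ih =>
    rw [Function.iterate_succ_apply']
    exact DB_th ih

theorem NT_thi {A E : ℕ} {R : Gx m} (hA : DB A R) (h : R.totalDegree ≤ E) (ν : ℕ) :
    ∀ j ≤ ν, NT (th^[j] R) ≤ (2 * (A + E + ν)) ^ j * NT R := by
  intro j
  induction j with
  | zero => intro _; simp
  | succ j ih =>
    intro hj
    rw [Function.iterate_succ_apply']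
    refine (NT_th (DB_thi hA j) (totalDegree_thi h j)).trans ?_
    calc 2 * (A + j + E) * NT (th^[j] R)
        ≤ 2 * (A + E + ν) * ((2 * (A + E + ν)) ^ j * NT R) := by
          refine Nat.mul_le_mul ?_ (ih (by omega))
          omega
      _ = _ := by rw [pow_succ]; ring

theorem th_zero : th (0 : Gx m) = 0 := by
  have h := th_add (0 : Gx m) 0
  rw [add_zero] at h
  exact left_eq_add.mp h

theorem th_sum {ι : Type*} (s : Finset ι) (f : ι → Gx m) :
    th (∑ i ∈ s, f i) = ∑ i ∈ s, th (f i) := by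
  classical
  induction s using Finset.induction_on with
  | empty => simp [th_zero]
  | insert a s ha ih =>
    rw [Finset.sum_insert ha, Finset.sum_insert ha, th_add, ih]

/-! ### one reduction step -/

/-- `lc(R) th R - dl(lc R) R` -/
noncomputable def redT (R : Gx m) : Gx m :=
  MvPolynomial.C (lc R) * th R - MvPolynomial.C (dl (lc R)) * R

theorem degree_redT_lt {R : Gx m} (hR : R ≠ 0) (h : redT R ≠ 0) :
    degLex.degree (redT R) ≺[degLex] degLex.degree R := by
  have h1 : degLex.degree (redT R) ≼[degLex] degLex.degree R := by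
    unfold redT
    refine MonomialOrder.degree_sub_le.trans (sup_le ?_ ?_)
    · refine MonomialOrder.degree_mul_le.trans ?_
      rw [MonomialOrder.degree_C, zero_add]
      exact degree_th_le R
    · refine MonomialOrder.degree_mul_le.trans ?_
      rw [MonomialOrder.degree_C, zero_add]
  refine lt_of_le_of_ne h1 fun he => ?_
  have he' := degLex.toSyn.injective he
  have h2 : (redT R).coeff (degLex.degree (redT R)) ≠ 0 :=
    (MonomialOrder.coeff_degree_ne_zero_iff (m := degLex)).2 h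
  rw [he'] at h2
  apply h2
  unfold redT
  rw [MvPolynomial.coeff_sub, MvPolynomial.coeff_C_mul, MvPolynomial.coeff_C_mul, coeff_th hR]
  change lc R * dl (lc R) - dl (lc R) * lc R = 0
  ring

/-! ### common denominators -/

theorem exists_int_mul (P : ℚ[X]) : ∃ (n : ℤ) (P' : ℤ[X]), n ≠ 0 ∧
    C (n : ℚ) * P = P'.map (Int.castRingHom ℚ) := by
  induction P using Polynomial.induction_on' with
  | add P Q hP hQ =>
    obtain ⟨n, P', hn, h1⟩ := hP
    obtain ⟨k, Q', hk, h2⟩ := hQ
    refine ⟨n * k, C k * P' + C n * Q', mul_ne_zero hn hk, ?_⟩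
    rw [Polynomial.map_add, Polynomial.map_mul, Polynomial.map_mul, Polynomial.map_C,
      Polynomial.map_C, ← h1, ← h2]
    push_cast
    rw [C_mul]
    simp only [eq_intCast]
    ring
  | monomial n a =>
    refine ⟨a.den, Polynomial.monomial n a.num, by exact_mod_cast a.den_nz, ?_⟩
    rw [Polynomial.map_monomial, Polynomial.C_mul_monomial]
    congr 1
    have := Rat.mul_den_eq_num a
    rw [eq_intCast, ← this]
    push_cast
    ring

theorem exists_phi_div (c : RatFunc ℚ) : ∃ a b : ℤ[X], b ≠ 0 ∧ phi b * c = phi a := by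
  obtain ⟨P, Q, hQ, -, rfl⟩ := exists_PQ c
  obtain ⟨n, P', hn, h1⟩ := exists_int_mul P
  obtain ⟨k, Q', hk, h2⟩ := exists_int_mul Q
  have hA := RatFunc.algebraMap_ne_zero hQ
  refine ⟨C k * P', C n * Q', ?_, ?_⟩
  · refine mul_ne_zero (by simpa using hn) ?_
    rintro rfl
    rw [Polynomial.map_zero] at h2
    rcases mul_eq_zero.mp h2 with h3 | h3
    · exact hk (by simpa using h3)
    · exact hQ h3
  · have e1 : phi P' = algebraMap ℚ[X] (RatFunc ℚ) (C (n : ℚ) * P) := by
      rw [h1]; rfl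
    have e2 : phi Q' = algebraMap ℚ[X] (RatFunc ℚ) (C (k : ℚ) * Q) := by
      rw [h2]; rfl
    have e3 : ∀ n : ℤ, phi (C n) = algebraMap ℚ[X] (RatFunc ℚ) (C (n : ℚ)) := by
      intro n
      simp [phi]
    rw [map_mul, map_mul, e1, e2, e3, e3, map_mul, map_mul]
    field_simp

theorem exists_common {J : ℕ} (c : Fin J → RatFunc ℚ) :
    ∃ (b : ℤ[X]) (a : Fin J → ℤ[X]), b ≠ 0 ∧ ∀ j, phi b * c j = phi (a j) := by
  classical
  choose a b hb hab using fun j => exists_phi_div (c j)
  refine ⟨∏ j, b j, fun j => (∏ i ∈ Finset.univ.erase j, b i) * a j,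
    Finset.prod_ne_zero_iff.2 fun j _ => hb j, fun j => ?_⟩
  rw [← Finset.prod_erase_mul _ _ (Finset.mem_univ j), map_mul, mul_assoc, hab, map_mul]

/-! ### the stable span -/

/-- the span of the iterates -/
noncomputable def WT (R : Gx m) (J : ℕ) :
    Submodule (RatFunc ℚ) (MvPolynomial (Fin m) (RatFunc ℚ)) :=
  Submodule.span (RatFunc ℚ) (Set.range fun j : Fin J => MvPolynomial.map phi (th^[j] R))

theorem WT_stable {R : Gx m} (J : ℕ) (hJ : MvPolynomial.map phi (th^[J] R) ∈ WT R J) (S : Gx m)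
    (hS : MvPolynomial.map phi S ∈ WT R J) : MvPolynomial.map phi (th S) ∈ WT R J := by
  classical
  obtain ⟨c, hc⟩ := (Submodule.mem_span_range_iff_exists_fun (RatFunc ℚ)).1 hS
  obtain ⟨b, a, hb, hab⟩ := exists_common c
  have hb' : phi b ≠ 0 := fun h => hb (phi_injective (h.trans (map_zero phi).symm))
  have h1 : MvPolynomial.C b * S = ∑ j : Fin J, MvPolynomial.C (a j) * th^[j] R := by
    apply MvPolynomial.map_injective phi phi_injective
    rw [map_mul, map_sum, MvPolynomial.map_C, ← hc, Finset.mul_sum]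
    refine Finset.sum_congr rfl fun j _ => ?_
    rw [map_mul, MvPolynomial.map_C, ← hab, MvPolynomial.smul_eq_C_mul, ← mul_assoc,
      MvPolynomial.C_mul]
  have h2 := congrArg th h1
  rw [th_C_mul, th_sum] at h2
  have h3 := congrArg (MvPolynomial.map phi) h2
  rw [map_add, map_mul, map_mul, MvPolynomial.map_C, MvPolynomial.map_C, map_sum,
    ← MvPolynomial.smul_eq_C_mul, ← MvPolynomial.smul_eq_C_mul] at h3
  have hnext : ∀ j : Fin J, MvPolynomial.map phi (th^[(j : ℕ) + 1] R) ∈ WT R J := by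
    intro j
    by_cases hj : (j : ℕ) + 1 < J
    · exact Submodule.subset_span ⟨⟨(j : ℕ) + 1, hj⟩, rfl⟩
    · have : (j : ℕ) + 1 = J := by
        have := j.2
        omega
      rw [this]
      exact hJ
  have h4 : phi b • MvPolynomial.map phi (th S) ∈ WT R J := by
    have h5 : phi b • MvPolynomial.map phi (th S) =
        (∑ j : Fin J, MvPolynomial.map phi (th (MvPolynomial.C (a j) * th^[j] R))) -
          phi (dl b) • MvPolynomial.map phi S := by
      rw [← h3]
      ring
    rw [h5]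
    apply Submodule.sub_mem
    · refine Submodule.sum_mem _ fun j _ => ?_
      rw [th_C_mul, map_add, map_mul, map_mul, MvPolynomial.map_C, MvPolynomial.map_C,
        ← MvPolynomial.smul_eq_C_mul, ← MvPolynomial.smul_eq_C_mul]
      apply Submodule.add_mem
      · exact Submodule.smul_mem _ _ (Submodule.subset_span ⟨j, rfl⟩)
      · apply Submodule.smul_mem
        have := hnext j
        rwa [Function.iterate_succ_apply'] at this
    · exact Submodule.smul_mem _ _ hS
  have h5 := Submodule.smul_mem _ (phi b)⁻¹ h4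
  rwa [smul_smul, inv_mul_cancel₀ hb', one_smul] at h5

theorem WT_coeff {E : ℕ} {R : Gx m} (h : R.totalDegree ≤ E) (J : ℕ) :
    ∀ U ∈ WT R J, ∀ γ : Fin m →₀ ℕ, E < γ.degree → U.coeff γ = 0 := by
  intro U hU
  unfold WT at hU
  induction hU using Submodule.span_induction with
  | mem U hU =>
    obtain ⟨j, rfl⟩ := hU
    intro γ hγ
    simp only
    rw [MvPolynomial.coeff_map]
    have h1 : (th^[(j : ℕ)] R).coeff γ = 0 := by
      by_contra h0
      have h2 := MvPolynomial.le_totalDegree (MvPolynomial.mem_support_iff.2 h0)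
      have h3 := totalDegree_thi h j
      have h4 : Finsupp.degree γ = γ.sum fun _ e => e := rfl
      omega
    rw [h1, map_zero]
  | zero => intro γ _; simp
  | add x y _ _ hx hy => intro γ hγ; rw [MvPolynomial.coeff_add, hx γ hγ, hy γ hγ, add_zero]
  | smul a x _ hx => intro γ hγ; rw [MvPolynomial.coeff_smul, hx γ hγ, smul_zero]

/-- a stable span contains the constants -/
theorem one_mem_WT {E : ℕ} {R : Gx m} (hR : R ≠ 0)
    (h : R.totalDegree ≤ E) (J : ℕ) (hJ1 : 1 ≤ J)
    (hJ : MvPolynomial.map phi (th^[J] R) ∈ WT R J) :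
    (1 : MvPolynomial (Fin m) (RatFunc ℚ)) ∈ WT R J := by
  classical
  have hne : ∃ n, ∃ R' : Gx m, R' ≠ 0 ∧ MvPolynomial.map phi R' ∈ WT R J ∧ rkx E R' = n :=
    ⟨_, R, hR, Submodule.subset_span ⟨⟨0, hJ1⟩, rfl⟩, rfl⟩
  obtain ⟨R', hR'0, hR'W, hR'n⟩ := Nat.find_spec hne
  have hmin : ∀ S : Gx m, S ≠ 0 → MvPolynomial.map phi S ∈ WT R J → rkx E R' ≤ rkx E S := by
    intro S hS hSW
    rw [hR'n]
    exact Nat.find_min' hne ⟨S, hS, hSW, rfl⟩
  have htd : ∀ S : Gx m, MvPolynomial.map phi S ∈ WT R J → S.totalDegree ≤ E := by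
    intro S hSW
    unfold MvPolynomial.totalDegree
    refine Finset.sup_le fun γ hγ => ?_
    by_contra hlt
    push Not at hlt
    have h1 := WT_coeff h J _ hSW γ hlt
    rw [MvPolynomial.coeff_map] at h1
    exact MvPolynomial.mem_support_iff.1 hγ (phi_injective (h1.trans (map_zero phi).symm))
  have hred : redT R' = 0 := by
    by_contra h0
    have hW : MvPolynomial.map phi (redT R') ∈ WT R J := by
      unfold redT
      rw [map_sub, map_mul, map_mul, MvPolynomial.map_C, MvPolynomial.map_C,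
        ← MvPolynomial.smul_eq_C_mul, ← MvPolynomial.smul_eq_C_mul]
      apply Submodule.sub_mem
      · exact Submodule.smul_mem _ _ (WT_stable J hJ _ hR'W)
      · exact Submodule.smul_mem _ _ hR'W
    have h1 := hmin _ h0 hW
    have h2 := rkx_lt (E := E) (degree_redT_lt hR'0 h0) (htd _ hW)
    omega
  have hC := eq_C_of_th hR'0 (sub_eq_zero.1 hred)
  have hlc : phi (lc R') ≠ 0 := by
    intro h0
    have h1 : lc R' = 0 := phi_injective (h0.trans (map_zero phi).symm)
    rw [h1, map_zero] at hC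
    exact hR'0 hC
  rw [hC, MvPolynomial.map_C] at hR'W
  have h1 := Submodule.smul_mem _ (phi (lc R'))⁻¹ hR'W
  rw [MvPolynomial.smul_eq_C_mul, ← MvPolynomial.C_mul, inv_mul_cancel₀ hlc,
    MvPolynomial.C_1] at h1
  exact h1

/-! ### the Cramer step -/

/-- the first dependence -/
theorem exists_firstT {E : ℕ} {R : Gx m} (hR : R ≠ 0) (h : R.totalDegree ≤ E) :
    ∃ J : ℕ, 1 ≤ J ∧ J ≤ (mons m E).card ∧
      LinearIndependent (RatFunc ℚ)
        (fun j : Fin J => cf m E (MvPolynomial.map phi (th^[j] R))) ∧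
      MvPolynomial.map phi (th^[J] R) ∈ WT R J := by
  classical
  set v : ℕ → (mons m E → RatFunc ℚ) := fun j => cf m E (MvPolynomial.map phi (th^[j] R)) with hv
  have hfin : ∀ n, LinearIndependent (RatFunc ℚ) (fun j : Fin n => v j) → n ≤ (mons m E).card := by
    intro n hn
    have := hn.fintype_card_le_finrank
    simpa using this
  have hex : ∃ n, ¬ LinearIndependent (RatFunc ℚ) (fun j : Fin (n + 1) => v j) := by
    refine ⟨(mons m E).card, fun hn => ?_⟩
    have := hfin _ hn
    omega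
  obtain ⟨J, hJ1, hJ2⟩ : ∃ J, ¬ LinearIndependent (RatFunc ℚ) (fun j : Fin (J + 1) => v j) ∧
      LinearIndependent (RatFunc ℚ) (fun j : Fin J => v j) := by
    refine ⟨Nat.find hex, Nat.find_spec hex, ?_⟩
    rcases Nat.eq_zero_or_pos (Nat.find hex) with h0 | h0
    · rw [h0]
      exact linearIndependent_empty_type
    · have := Nat.find_min hex (Nat.sub_lt h0 one_pos)
      rw [not_not] at this
      have e : Nat.find hex - 1 + 1 = Nat.find hex := by omega
      rw [e] at this
      exact this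
  have hspan : v J ∈ Submodule.span (RatFunc ℚ) (Set.range fun j : Fin J => v j) := by
    by_contra hns
    apply hJ1
    rw [linearIndependent_finSucc']
    refine ⟨?_, ?_⟩
    · exact hJ2
    · exact hns
  have hmem : MvPolynomial.map phi (th^[J] R) ∈ WT R J := by
    obtain ⟨c, hc⟩ := (Submodule.mem_span_range_iff_exists_fun (RatFunc ℚ)).1 hspan
    have h1 : MvPolynomial.map phi (th^[J] R) -
        ∑ j : Fin J, c j • MvPolynomial.map phi (th^[j] R) = 0 := by
      apply eq_zero_of_cf (E := E)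
      · intro γ hγ
        have hz : ∀ j : ℕ, (MvPolynomial.map phi (th^[j] R)).coeff γ = 0 := by
          intro j
          rw [MvPolynomial.coeff_map]
          have h1 : (th^[j] R).coeff γ = 0 := by
            by_contra h0
            have h2 := MvPolynomial.le_totalDegree (MvPolynomial.mem_support_iff.2 h0)
            have h3 := totalDegree_thi h j
            have h4 : Finsupp.degree γ = γ.sum fun _ e => e := rfl
            omega
          rw [h1, map_zero]
        rw [MvPolynomial.coeff_sub, MvPolynomial.coeff_sum, hz, zero_sub, neg_eq_zero]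
        refine Finset.sum_eq_zero fun j _ => ?_
        rw [MvPolynomial.coeff_smul, hz, smul_zero]
      · rw [map_sub, map_sum, sub_eq_zero]
        simp only [map_smul]
        exact hc.symm
    rw [sub_eq_zero.1 h1]
    exact Submodule.sum_mem _ fun j _ => Submodule.smul_mem _ _ (Submodule.subset_span ⟨j, rfl⟩)
  refine ⟨J, ?_, hfin J hJ2, hJ2, hmem⟩
  by_contra h0
  have h1 : J = 0 := by omega
  subst h1
  apply hR
  have h2 : MvPolynomial.map phi R = 0 := by
    have : WT R 0 = ⊥ := by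
      unfold WT
      rw [Set.range_eq_empty, Submodule.span_empty]
    rw [this] at hmem
    exact (Submodule.mem_bot _).1 hmem
  exact MvPolynomial.map_injective phi phi_injective (by rw [map_zero]; exact h2)

/-- the relation over `ℤ[X]` -/
theorem cramer_th {E : ℕ} {R : Gx m} (hR : R ≠ 0) (h : R.totalDegree ≤ E) :
    ∃ (J : ℕ) (g : Fin J → (Fin m →₀ ℕ)), J ≤ (mons m E).card ∧
      (Matrix.of fun (i j : Fin J) => (th^[i] R).coeff (g j)).det ≠ 0 ∧
      MvPolynomial.C (Matrix.of fun (i j : Fin J) => (th^[i] R).coeff (g j)).det =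
        ∑ i : Fin J, MvPolynomial.C ((Matrix.of fun (i j : Fin J) =>
          (th^[i] R).coeff (g j)).updateRow i (fun j => (1 : Gx m).coeff (g j))).det *
            th^[i] R := by
  classical
  obtain ⟨J, hJ1, hJν, hli, hmem⟩ := exists_firstT hR h
  have hone := one_mem_WT hR h J hJ1 hmem
  obtain ⟨g, hg, hdet⟩ := exists_minor_field _ hli
  refine ⟨J, fun j => (g j).1, hJν, ?_, ?_⟩
  · intro h0
    apply hdet
    have e : (Matrix.of fun (i j : Fin J) => cf m E (MvPolynomial.map phi (th^[i] R)) (g j)) =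
        phi.mapMatrix (Matrix.of fun (i j : Fin J) => (th^[i] R).coeff (g j).1) := by
      ext i j
      simp only [Matrix.of_apply, RingHom.mapMatrix_apply, Matrix.map_apply]
      rw [cf_apply, MvPolynomial.coeff_map]
    rw [e, ← RingHom.map_det, h0, map_zero]
  · unfold WT at hone
    obtain ⟨c, hc⟩ := (Submodule.mem_span_range_iff_exists_fun (RatFunc ℚ)).1 hone
    have hc' : ∑ j : Fin J, c j • cf m E (MvPolynomial.map phi (th^[j] R)) = cf m E 1 := by
      rw [← hc, map_sum]
      simp only [map_smul]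
    have h1 := cramer_rel (fun j : Fin J => cf m E (MvPolynomial.map phi (th^[j] R)))
      (cf m E 1) g hdet (fun j => - c j) 1 one_ne_zero (by
        simp only [one_smul, neg_smul, Finset.sum_neg_distrib]
        rw [hc', add_neg_cancel])
    have e1 : (Matrix.of fun (i j : Fin J) => cf m E (MvPolynomial.map phi (th^[i] R)) (g j)) =
        phi.mapMatrix (Matrix.of fun (i j : Fin J) => (th^[i] R).coeff (g j).1) := by
      ext i j
      simp only [Matrix.of_apply, RingHom.mapMatrix_apply, Matrix.map_apply]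
      rw [cf_apply, MvPolynomial.coeff_map]
    have e2 : ∀ i : Fin J, ((Matrix.of fun (i j : Fin J) =>
        cf m E (MvPolynomial.map phi (th^[i] R)) (g j)).updateRow i
          (fun j => cf m E 1 (g j))) =
        phi.mapMatrix ((Matrix.of fun (i j : Fin J) => (th^[i] R).coeff (g j).1).updateRow i
          (fun j => (1 : Gx m).coeff (g j).1)) := by
      intro i
      ext i' j
      simp only [RingHom.mapMatrix_apply, Matrix.map_apply]
      by_cases hi : i' = i
      · subst hi
        rw [Matrix.updateRow_self, Matrix.updateRow_self, cf_apply]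
        have : (1 : MvPolynomial (Fin m) (RatFunc ℚ)) = MvPolynomial.map phi (1 : Gx m) := by
          rw [map_one]
        rw [this, MvPolynomial.coeff_map]
      · rw [Matrix.updateRow_ne hi, Matrix.updateRow_ne hi]
        simp only [Matrix.of_apply]
        rw [cf_apply, MvPolynomial.coeff_map]
    simp only [e2] at h1
    rw [e1] at h1
    simp only [← RingHom.map_det] at h1
    apply MvPolynomial.map_injective phi phi_injective
    rw [MvPolynomial.map_C, map_sum]
    simp only [map_mul, MvPolynomial.map_C]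
    rw [← sub_eq_zero]
    apply eq_zero_of_cf (E := E)
    · intro γ hγ
      have hz : ∀ j : ℕ, (MvPolynomial.map phi (th^[j] R)).coeff γ = 0 := by
        intro j
        rw [MvPolynomial.coeff_map]
        have h1 : (th^[j] R).coeff γ = 0 := by
          by_contra h0
          have h2 := MvPolynomial.le_totalDegree (MvPolynomial.mem_support_iff.2 h0)
          have h3 := totalDegree_thi h j
          have h4 : Finsupp.degree γ = γ.sum fun _ e => e := rfl
          omega
        rw [h1, map_zero]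
      have hγ0 : γ ≠ 0 := by
        rintro rfl
        simp at hγ
      rw [MvPolynomial.coeff_sub, MvPolynomial.coeff_C, if_neg (Ne.symm hγ0), zero_sub,
        neg_eq_zero, MvPolynomial.coeff_sum]
      refine Finset.sum_eq_zero fun j _ => ?_
      rw [MvPolynomial.coeff_C_mul, hz, mul_zero]
    · rw [map_sub, map_sum, sub_eq_zero]
      simp only [← MvPolynomial.smul_eq_C_mul, map_smul]
      rw [← h1]
      have : (MvPolynomial.C (phi (Matrix.of fun (i j : Fin J) => (th^[i] R).coeff (g j).1).det) :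
          MvPolynomial (Fin m) (RatFunc ℚ)) =
          phi (Matrix.of fun (i j : Fin J) => (th^[i] R).coeff (g j).1).det • 1 := by
        rw [MvPolynomial.smul_eq_C_mul, mul_one]
      rw [this, map_smul]

theorem norm_aeval_det_le {J : ℕ} (T : Matrix (Fin J) (Fin J) ℤ[X]) (z : ℂ) (Y : ℝ)
    (hT : ∀ i j, ‖aeval z (T i j)‖ ≤ Y) :
    ‖aeval z T.det‖ ≤ (J.factorial : ℝ) * Y ^ J := by
  classical
  rw [Matrix.det_apply', map_sum]
  refine (norm_sum_le _ _).trans ?_
  have h1 : ∀ σ ∈ (Finset.univ : Finset (Equiv.Perm (Fin J))),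
      ‖aeval z (((Equiv.Perm.sign σ : ℤ) : ℤ[X]) * ∏ i, T (σ i) i)‖ ≤ Y ^ J := by
    intro σ _
    rw [map_mul, norm_mul, map_prod, norm_prod]
    have h2 : ‖aeval z (((Equiv.Perm.sign σ : ℤ) : ℤ[X]))‖ = 1 := by
      rcases Int.units_eq_one_or (Equiv.Perm.sign σ) with h | h
      · rw [h]; simp
      · rw [h]; simp
    rw [h2, one_mul]
    calc ∏ i, ‖aeval z (T (σ i) i)‖ ≤ ∏ _i : Fin J, Y :=
          Finset.prod_le_prod (fun i _ => norm_nonneg _) fun i _ => hT _ _
      _ = Y ^ J := by simp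
  refine (Finset.sum_le_sum h1).trans ?_
  rw [Finset.sum_const, Finset.card_univ, Fintype.card_perm, Fintype.card_fin, nsmul_eq_mul]

/-- elimination: from the values of the iterates at one point -/
theorem elimLi {E A ν : ℕ} (hν : (mons m E).card ≤ ν) {R : Gx m}
    (hR : R ≠ 0) (h : R.totalDegree ≤ E) (hA : DB A R) :
    ∃ q : ℤ[X], q ≠ 0 ∧ q.natDegree ≤ ν * (A + ν) ∧
      ∀ (z : ℂ) (y : Fin m → ℂ) (N : ℕ) (B : ℝ), ‖z‖ ≤ 1 → 1 ≤ N → NT R ≤ N →
        (∀ i < ν, ‖ev z y (th^[i] R)‖ ≤ B) →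
        ‖aeval z q‖ ≤ ((ν * ν.factorial * ((2 * (A + E + ν)) ^ ν * N) ^ ν : ℕ) : ℝ) * B := by
  classical
  obtain ⟨J, g, hJ, hdet, hrel⟩ := cramer_th hR h
  have hJν : J ≤ ν := hJ.trans hν
  have hν1 : 1 ≤ ν := by
    refine le_trans ?_ hν
    rw [Nat.one_le_iff_ne_zero, Finset.card_ne_zero]
    exact ⟨0, mem_mons.2 (by simp)⟩
  refine ⟨_, hdet, ?_, ?_⟩
  · refine (natDegree_det_le _ (A + ν) fun i j => ?_).trans ?_
    · rw [Matrix.of_apply]
      refine (DB_thi hA i (g j)).trans ?_
      have : (i : ℕ) ≤ ν := i.2.le.trans hJν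
      omega
    · rw [Fintype.card_fin]
      exact Nat.mul_le_mul_right _ hJν
  intro z y N B hz hN hNb hB
  obtain ⟨Y, hY⟩ : ∃ Y, Y = (2 * (A + E + ν)) ^ ν * N := ⟨_, rfl⟩
  have hMν : 1 ≤ (2 * (A + E + ν)) ^ ν := Nat.one_le_pow _ _ (by omega)
  have hY1 : 1 ≤ Y := by rw [hY]; exact Nat.mul_pos hMν hN
  have hB0 : 0 ≤ B := (norm_nonneg _).trans (hB 0 (by omega))
  have hentry : ∀ i ≤ ν, ∀ γ, ‖aeval z ((th^[i] R).coeff γ)‖ ≤ Y := by
    intro i hi γ
    refine (norm_aeval_le_lp _ z hz).trans ?_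
    have h1 := (lp_le_NT (th^[i] R) γ).trans (NT_thi hA h ν i hi)
    have h2 : (2 * (A + E + ν)) ^ i * NT R ≤ Y := by
      rw [hY]
      exact Nat.mul_le_mul (Nat.pow_le_pow_right (by omega) hi) hNb
    exact_mod_cast h1.trans h2
  have hx : ∀ i : Fin J, ‖aeval z ((Matrix.of fun (i j : Fin J) =>
          (th^[i] R).coeff (g j)).updateRow i (fun j => (1 : Gx m).coeff (g j))).det‖ ≤
          ((ν.factorial * Y ^ ν : ℕ) : ℝ) := by
    intro i
    refine (norm_aeval_det_le _ z (Y : ℝ) ?_).trans ?_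
    · intro i' j
      by_cases hi : i' = i
      · subst hi
        rw [Matrix.updateRow_self, MvPolynomial.coeff_one]
        have h1 : (1 : ℝ) ≤ Y := by exact_mod_cast hY1
        split_ifs
        · simpa using h1
        · simp
      · rw [Matrix.updateRow_ne hi, Matrix.of_apply]
        exact hentry _ (i'.2.le.trans hJν) _
    · have h1 : J.factorial * Y ^ J ≤ ν.factorial * Y ^ ν :=
        Nat.mul_le_mul (Nat.factorial_le hJν) (Nat.pow_le_pow_right hY1 hJν)
      exact_mod_cast h1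
  have h1 := congrArg (ev z y) hrel
  rw [ev_C, map_sum] at h1
  rw [h1]
  refine (norm_sum_le _ _).trans ?_
  have h2 : ∀ i ∈ (Finset.univ : Finset (Fin J)), ‖ev z y (MvPolynomial.C ((Matrix.of
      fun (i j : Fin J) => (th^[i] R).coeff (g j)).updateRow i
        (fun j => (1 : Gx m).coeff (g j))).det * th^[i] R)‖ ≤
      ((ν.factorial * Y ^ ν : ℕ) : ℝ) * B := by
    intro i _
    rw [map_mul, ev_C, norm_mul]
    exact mul_le_mul (hx i) (hB i (lt_of_lt_of_le i.2 hJν)) (norm_nonneg _) (Nat.cast_nonneg _)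
  refine (Finset.sum_le_sum h2).trans ?_
  rw [Finset.sum_const, Finset.card_univ, Fintype.card_fin, nsmul_eq_mul, ← mul_assoc, ← hY]
  refine mul_le_mul_of_nonneg_right ?_ hB0
  have h3 : J * (ν.factorial * Y ^ ν) ≤ ν * ν.factorial * Y ^ ν := by
    rw [mul_assoc]
    exact Nat.mul_le_mul_right _ hJν
  exact_mod_cast h3

end Pool.Agent.Lib.MP_524521_nt.RA
end

section
/-!
# The lower bound near a rational point of a window
-/
set_option autoImplicit false

open Polynomial

namespace Pool.Agent.Lib.MP_524521_nt.RA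

variable {m : ℕ}

/-! ### the substitution `x ↦ a x + b`, with one more variable -/

/-- an integer linear polynomial -/
noncomputable def lli (a b : ℤ) : ℤ[X] := C a * X + C b

/-- substitution `x ↦ a x + b`, with one more variable -/
noncomputable def tw (a b : ℤ) : Gx m →+* Gx (m + 1) :=
  (MvPolynomial.rename (R := ℤ[X]) (Fin.castSucc : Fin m → Fin (m + 1))).toRingHom.comp
    (MvPolynomial.map (Polynomial.compRingHom (lli a b)))

theorem tw_apply (a b : ℤ) (R : Gx m) : tw a b R =
    MvPolynomial.rename Fin.castSucc (MvPolynomial.map (Polynomial.compRingHom (lli a b)) R) := rfl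

theorem ev_tw (a b : ℤ) (z : ℂ) (y : Fin (m + 1) → ℂ) (R : Gx m) :
    ev z y (tw a b R) = ev ((a : ℂ) * z + b) (fun k => y (Fin.castSucc k)) R := by
  have h : (ev z y).comp (tw a b) = ev ((a : ℂ) * z + b) (fun k : Fin m => y (Fin.castSucc k)) := by
    refine MvPolynomial.ringHom_ext ?_ ?_
    · intro p
      rw [RingHom.comp_apply, tw_apply, MvPolynomial.map_C, MvPolynomial.rename_C, ev_C, ev_C,
        coe_compRingHom_apply, aeval_comp]
      congr 2
      simp [lli]
    · intro k
      rw [RingHom.comp_apply, tw_apply, MvPolynomial.map_X, MvPolynomial.rename_X, ev_X, ev_X]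
  exact congrArg (fun f => f R) h

theorem comp_lli_injective {a b : ℤ} (ha : a ≠ 0) :
    Function.Injective (Polynomial.compRingHom (lli a b)) := by
  rw [injective_iff_map_eq_zero]
  intro p hp
  rw [coe_compRingHom_apply, comp_eq_zero_iff] at hp
  rcases hp with hp | ⟨_, hp⟩
  · exact hp
  · exfalso
    have h1 := congrArg (fun q => q.coeff 1) hp
    simp only [lli, coeff_add, coeff_C_mul, coeff_X_one, mul_one, coeff_C_succ, add_zero] at h1
    exact ha h1

theorem tw_ne_zero {a b : ℤ} (ha : a ≠ 0) {R : Gx m} (hR : R ≠ 0) : tw a b R ≠ 0 := by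
  intro h
  apply hR
  rw [tw_apply] at h
  have h1 := MvPolynomial.rename_injective _ (Fin.castSucc_injective m)
    (h.trans (map_zero (MvPolynomial.rename (R := ℤ[X]) Fin.castSucc)).symm)
  exact MvPolynomial.map_injective _ (comp_lli_injective ha) (h1.trans (map_zero _).symm)

theorem totalDegree_tw (a b : ℤ) {R : Gx m} {E : ℕ} (h : R.totalDegree ≤ E) :
    (tw a b R).totalDegree ≤ E := by
  rw [tw_apply]
  refine (MvPolynomial.totalDegree_rename_le _ _).trans (le_trans ?_ h)
  unfold MvPolynomial.totalDegree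
  exact Finset.sup_mono (MvPolynomial.support_map_subset _ _)

theorem DB_tw (a b : ℤ) {R : Gx m} {A : ℕ} (h : DB A R) : DB A (tw a b R) := by
  intro γ
  rw [tw_apply]
  by_cases hγ : ∃ u : Fin m →₀ ℕ, u.mapDomain Fin.castSucc = γ
  · obtain ⟨u, rfl⟩ := hγ
    rw [MvPolynomial.coeff_rename_mapDomain _ (Fin.castSucc_injective m), MvPolynomial.coeff_map,
      coe_compRingHom_apply]
    refine natDegree_comp_le.trans ?_
    have h1 : (lli a b).natDegree ≤ 1 := natDegree_linear_le
    calc (R.coeff u).natDegree * (lli a b).natDegree ≤ A * 1 := Nat.mul_le_mul (h u) h1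
      _ = A := mul_one _
  · rw [MvPolynomial.coeff_rename_eq_zero _ _ _ (fun u hu => absurd ⟨u, hu⟩ hγ)]
    simp

theorem lp_lli (a b : ℤ) : lp (lli a b) ≤ a.natAbs + b.natAbs := by
  unfold lli
  refine (lp_add _ _).trans ?_
  have h1 : (C a * X : ℤ[X]) = Polynomial.monomial 1 a := by
    rw [← Polynomial.C_mul_X_eq_monomial]
  have h2 : (C b : ℤ[X]) = Polynomial.monomial 0 b := by rw [Polynomial.monomial_zero_left]
  rw [h1, h2, lp_monomial, lp_monomial]

theorem lp_pow_le (p : ℤ[X]) (n : ℕ) : lp (p ^ n) ≤ lp p ^ n := by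
  induction n with
  | zero => rw [pow_zero, pow_zero, lp_one]
  | succ n ih =>
    rw [pow_succ, pow_succ]
    exact (lp_mul _ _).trans (Nat.mul_le_mul_right _ ih)

theorem lp_comp_le (q L : ℤ[X]) (A c : ℕ) (hq : q.natDegree ≤ A) (hL : lp L ≤ c) (hc : 1 ≤ c) :
    lp (q.comp L) ≤ lp q * c ^ A := by
  classical
  rw [comp, eval₂_eq_sum, Polynomial.sum]
  refine (lp_sum _ _).trans ?_
  unfold lp
  rw [Finset.sum_mul]
  refine Finset.sum_le_sum fun i hi => ?_
  have h1 : lp (C (q.coeff i) * L ^ i) ≤ (q.coeff i).natAbs * c ^ A := by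
    refine (lp_mul _ _).trans (Nat.mul_le_mul ?_ ?_)
    · rw [← Polynomial.monomial_zero_left, lp_monomial]
    · refine (lp_pow_le _ _).trans ((Nat.pow_le_pow_left hL _).trans ?_)
      exact Nat.pow_le_pow_right hc ((le_natDegree_of_mem_supp i hi).trans hq)
  exact h1

theorem NT_rename_le (R : Gx m) :
    NT (MvPolynomial.rename (Fin.castSucc : Fin m → Fin (m + 1)) R) ≤ NT R := by
  classical
  conv_lhs => rw [MvPolynomial.as_sum R, map_sum]
  refine (NT_sum _ _).trans ?_
  rw [NT_eq R]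
  refine Finset.sum_le_sum fun γ _ => ?_
  rw [MvPolynomial.rename_monomial, NT_monomial]

theorem NT_map_comp_le (a b : ℤ) {R : Gx m} {A : ℕ} (h : DB A R) (hc : 1 ≤ a.natAbs + b.natAbs) :
    NT (MvPolynomial.map (Polynomial.compRingHom (lli a b)) R) ≤
      NT R * (a.natAbs + b.natAbs) ^ A := by
  classical
  conv_lhs => rw [MvPolynomial.as_sum R, map_sum]
  refine (NT_sum _ _).trans ?_
  rw [NT_eq R, Finset.sum_mul]
  refine Finset.sum_le_sum fun γ _ => ?_
  rw [MvPolynomial.map_monomial, NT_monomial, coe_compRingHom_apply]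
  exact lp_comp_le _ _ A _ (h γ) (lp_lli a b) hc

theorem NT_tw (a b : ℤ) {R : Gx m} {A : ℕ} (h : DB A R) (hc : 1 ≤ a.natAbs + b.natAbs) :
    NT (tw a b R) ≤ NT R * (a.natAbs + b.natAbs) ^ A := by
  rw [tw_apply]
  exact (NT_rename_le _).trans (NT_map_comp_le a b h hc)

theorem NT_map_C_le (g : G m) :
    NT (MvPolynomial.map (Polynomial.C : ℤ →+* ℤ[X]) g) ≤ N1 g := by
  classical
  conv_lhs => rw [MvPolynomial.as_sum g, map_sum]
  refine (NT_sum _ _).trans ?_
  unfold N1
  refine Finset.sum_le_sum fun γ _ => ?_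
  rw [MvPolynomial.map_monomial, NT_monomial, ← Polynomial.monomial_zero_left, lp_monomial]

theorem NT_cv (p : Polynomial (G m)) (A Y : ℕ) (hp : p.natDegree ≤ A)
    (hY : ∀ k, N1 (p.coeff k) ≤ Y) : NT (cv p) ≤ (A + 1) * Y := by
  unfold cv
  rw [coe_eval₂RingHom, eval₂_eq_sum_range' _ (Nat.lt_succ_of_le hp)]
  refine (NT_sum _ _).trans ?_
  calc ∑ k ∈ Finset.range (A + 1), NT (MvPolynomial.map (Polynomial.C : ℤ →+* ℤ[X]) (p.coeff k) *
        (MvPolynomial.C X : Gx m) ^ k) ≤ ∑ _k ∈ Finset.range (A + 1), Y := by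
        refine Finset.sum_le_sum fun k _ => (NT_mul _ _).trans ?_
        have h1 : NT ((MvPolynomial.C X : Gx m) ^ k) = 1 := by
          rw [← map_pow, NT_C, Polynomial.X_pow_eq_monomial, lp_monomial]
          rfl
        rw [h1, mul_one]
        exact (NT_map_C_le _).trans (hY k)
    _ = (A + 1) * Y := by rw [Finset.sum_const, Finset.card_range, smul_eq_mul]

/-! ### a rational point -/

/-- among `d + 1` rational points there is one where the polynomial is not small -/
theorem exists_point {q : ℤ[X]} (hq : q ≠ 0) (d : ℕ) (hd : q.natDegree ≤ d) (b : ℕ) (hb : 1 ≤ b)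
    (a : ℕ → ℤ) (ha : ∀ i j, a i = a j → i = j) :
    ∃ i ≤ d, 1 / (b : ℝ) ^ d ≤ ‖aeval (((a i : ℝ) / b : ℝ) : ℂ) q‖ := by
  have hb0 : (0 : ℝ) < b := by exact_mod_cast hb
  have hinjZ : Function.Injective (algebraMap ℤ ℝ) := RingHom.injective_int _
  obtain ⟨i, hi, hne⟩ : ∃ i ≤ d, eval ((a i : ℝ) / (b : ℝ)) (q.map (algebraMap ℤ ℝ)) ≠ 0 := by
    by_contra hcon
    push Not at hcon
    have h1 : q.map (algebraMap ℤ ℝ) = 0 := by
      refine eq_zero_of_natDegree_lt_card_of_eval_eq_zero (ι := Fin (d + 1)) _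
        (f := fun i => (a i : ℝ) / b) ?_ (fun i => hcon i (Nat.lt_succ_iff.1 i.2)) ?_
      · intro i j hij
        have h2 : (a i : ℝ) = a j := by
          have h3 : (a i : ℝ) / b = (a j : ℝ) / b := hij
          exact (div_left_inj' hb0.ne').1 h3
        exact Fin.ext (ha _ _ (by exact_mod_cast h2))
      · rw [Fintype.card_fin]
        exact lt_of_le_of_lt (natDegree_map_le.trans hd) (Nat.lt_succ_self d)
    exact hq (Polynomial.map_injective _ hinjZ (h1.trans (Polynomial.map_zero _).symm))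
  refine ⟨i, hi, ?_⟩
  have hbz : (0 : ℤ) < b := by exact_mod_cast hb
  have h1 := one_le_pow_mul_abs_eval_div (K := ℝ) (f := q) (a := a i) (b := b) hbz
    (by push_cast; exact hne)
  push_cast at h1
  have h2 : ‖aeval (((a i : ℝ) / b : ℝ) : ℂ) q‖ =
      |eval ((a i : ℝ) / (b : ℝ)) (q.map (algebraMap ℤ ℝ))| := by
    have h3 : aeval (((a i : ℝ) / b : ℝ) : ℂ) q = ((aeval ((a i : ℝ) / (b : ℝ)) q : ℝ) : ℂ) :=
      aeval_algebraMap_apply ℂ ((a i : ℝ) / (b : ℝ)) q
    rw [h3, Complex.norm_real, Real.norm_eq_abs, eval_map_algebraMap]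
  rw [h2, div_le_iff₀ (by positivity), mul_comm]
  refine h1.trans (mul_le_mul_of_nonneg_right ?_ (abs_nonneg _))
  exact pow_le_pow_right₀ (by exact_mod_cast hb) hd

theorem Kind.sq {z₀ σ : ℤ} (h : Kind z₀ σ) : σ * σ = 1 := by
  rcases h with h | h | h | h <;> rw [h.2] <;> norm_num

theorem Kind.abs_le {z₀ σ : ℤ} (h : Kind z₀ σ) : z₀.natAbs ≤ 1 := by
  rcases h with h | h | h | h <;> rw [h.1] <;> norm_num

theorem Kind.abs_one {z₀ σ : ℤ} (h : Kind z₀ σ) : σ.natAbs = 1 := by
  rcases h with h | h | h | h <;> rw [h.2] <;> norm_num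

/-- the value at a point of the window -/
theorem vl_tw {U : ℕ} (hU : 1 ≤ U) {z₀ σ : ℤ} (hσ : σ * σ = 1) (w : ℂ) (p : Polynomial (G m)) :
    vl (tw (σ * U) (-(σ * U * z₀)) (cv p)) w =
      evg (lw m U z₀ σ) ((σ : ℂ) * U * w - σ * U * z₀) p := by
  have hU0 : (U : ℂ) ≠ 0 := by exact_mod_cast (by omega : U ≠ 0)
  have hσc : (σ : ℂ) * σ = 1 := by exact_mod_cast hσ
  rw [vl, ev_tw]
  have h1 : (((σ * U : ℤ) : ℂ)) * w + ((-(σ * U * z₀) : ℤ) : ℂ) =
      (σ : ℂ) * U * w - σ * U * z₀ := by
    push_cast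
    ring
  have h2 : (fun k : Fin m => lf (m + 1) (Fin.castSucc k) w) =
      fun k => lw m U z₀ σ k ((σ : ℂ) * U * w - σ * U * z₀) := by
    funext k
    have h3 : (z₀ : ℂ) + σ * ((σ : ℂ) * U * w - σ * U * z₀) / U = w := by
      have h4 : (σ : ℂ) * ((σ : ℂ) * U * w - σ * U * z₀) = (w - z₀) * U := by
        linear_combination ((U : ℂ) * w - U * z₀) * hσc
      rw [h4, mul_div_cancel_right₀ _ hU0]
      ring
    rw [lw, h3]
    rfl
  rw [h1, h2, ev_cv]

/-- the number part of the zero estimate for polylogarithms: in every one of 16 sub-windows there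
is a complex point where the function is not small -/
theorem low_li (m : ℕ) : ∃ e : ℕ, 1 ≤ e ∧ ∀ (U : ℕ) (z₀ σ : ℤ) (A E : ℕ) (h : ℝ), 4 ≤ U →
    Kind z₀ σ → 1 ≤ A → 1 ≤ h → Real.log U ≤ h → ∀ p : Polynomial (G m), p ≠ 0 →
    p.natDegree ≤ A → (∀ k, (p.coeff k).totalDegree ≤ E) →
    (∀ k, (N1 (p.coeff k) : ℝ) ≤ Real.exp h) → ∀ l : ℕ, l < 16 →
    ∃ c : ℂ, ‖c - ((1 + (2 * (l : ℝ) + 1) / 32 : ℝ) : ℂ)‖ ≤ 1 / 16 ∧
      Real.exp (-(e * (A + E + h)) ^ e) ≤ ‖evg (lw m U z₀ σ) c p‖ := by
  -- the functions of `S`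
  set fn : ℕ → ℕ → ℝ := fun S _ => ((S : ℝ) + 1) ^ (m + 1) with hfn
  set fd : ℕ → ℕ → ℝ := fun S w => fn S w * (S + fn S w) with hfd
  set fL : ℕ → ℕ → ℝ := fun S w => fd S w * (16 + (fd S w + 1) + S) +
    (fn S w + fn S w ^ 2 + fn S w * (fn S w * (2 * (S + fn S w)) +
      ((S + 1) + (S + 1) + S * (S + 1)))) + fn S w * (64 + S + fn S w) with hfL
  have c : ∀ r : ℝ, 0 ≤ r → PB fun _ _ => r := fun r hr => PB.const hr
  have S' : PB fun A _ => (A : ℝ) := PB.varA
  have Pn : PB fn := (S'.add (c 1 (by norm_num))).pow (m + 1)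
  have Pd : PB fd := Pn.mul (S'.add Pn)
  have S1 : PB fun A _ => (A : ℝ) + 1 := S'.add (c 1 (by norm_num))
  have PL : PB fL := ((Pd.mul (((c 16 (by norm_num)).add (Pd.add (c 1 (by norm_num)))).add S')).add
    ((Pn.add (Pn.pow 2)).add (Pn.mul ((Pn.mul ((c 2 (by norm_num)).mul (S'.add Pn))).add
      ((S1.add S1).add (S'.mul S1)))))).add (Pn.mul (((c 64 (by norm_num)).add S').add Pn))
  obtain ⟨eL, heL, hPL⟩ := PL
  refine ⟨2 * eL, by omega, ?_⟩
  intro U z₀ σ A E h hU hk hA hh hUh p hp hpA hpE hpN l hl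
  set s : ℝ := A + E + h with hs
  set S : ℕ := A + E + ⌈h⌉₊ with hS
  have hA1 : (1:ℝ) ≤ A := by exact_mod_cast hA
  have hE0 : (0:ℝ) ≤ E := Nat.cast_nonneg _
  have hU4 : (4:ℝ) ≤ U := by exact_mod_cast hU
  have hU0 : (0:ℝ) < U := by linarith
  have hs2 : 2 ≤ s := by rw [hs]; linarith
  have hSs : (S : ℝ) ≤ 2 * s := by
    rw [hS, hs]; push_cast
    have := (Nat.ceil_lt_add_one (by linarith : (0:ℝ) ≤ h)).le
    linarith
  have hAS : (A : ℝ) ≤ S := by rw [hS]; exact_mod_cast (by omega : A ≤ A + E + ⌈h⌉₊)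
  have hAES : (A : ℝ) + E ≤ S := by rw [hS]; exact_mod_cast (by omega : A + E ≤ A + E + ⌈h⌉₊)
  have hES : (E : ℝ) ≤ S := by rw [hS]; exact_mod_cast (by omega : E ≤ A + E + ⌈h⌉₊)
  have hhS : h ≤ S := by
    refine (Nat.le_ceil h).trans ?_
    rw [hS]; exact_mod_cast (by omega : ⌈h⌉₊ ≤ A + E + ⌈h⌉₊)
  have hS1 : 1 ≤ S := by omega
  have hS1' : (1:ℝ) ≤ S := by exact_mod_cast hS1
  have hLS : fL S 1 ≤ (((2 * eL : ℕ) : ℝ) * s) ^ (2 * eL) := by
    refine (hPL S 1 hS1 le_rfl).2.trans ?_
    have h1 : (eL : ℝ) * S * ((1 : ℕ) : ℝ) ≤ ((2 * eL : ℕ) : ℝ) * s := by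
      push_cast
      calc (eL : ℝ) * S * 1 ≤ eL * (2 * s) := by rw [mul_one]; gcongr
        _ = 2 * eL * s := by ring
    have h3 : (1:ℝ) ≤ ((2 * eL : ℕ) : ℝ) * s := by
      have : (1:ℝ) ≤ ((2 * eL : ℕ) : ℝ) := by exact_mod_cast (by omega : 1 ≤ 2 * eL)
      exact one_le_mul_of_one_le_of_one_le this (by linarith)
    calc ((eL : ℝ) * S * ((1 : ℕ) : ℝ)) ^ eL ≤ (((2 * eL : ℕ) : ℝ) * s) ^ eL := by gcongr
      _ ≤ _ := pow_le_pow_right₀ h3 (by omega)
  set n : ℝ := fn S 1 with hn
  have hn1 : 1 ≤ n := by rw [hn, hfn]; exact one_le_pow₀ (by linarith)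
  -- the polynomial `q`
  set ν : ℕ := (E + 1) ^ (m + 1) with hν
  have hνn : (ν : ℝ) ≤ n := by
    rw [hν, hn, hfn]; push_cast
    gcongr
  have hν1 : 1 ≤ ν := Nat.one_le_pow _ _ (by omega)
  have hν1' : (1:ℝ) ≤ ν := by exact_mod_cast hν1
  have hσ := hk.sq
  have hσ0 : σ ≠ 0 := by
    rintro rfl
    norm_num at hσ
  have ha0 : σ * (U : ℤ) ≠ 0 := mul_ne_zero hσ0 (by exact_mod_cast (by omega : U ≠ 0))
  set R : Gx (m + 1) := tw (σ * U) (-(σ * U * z₀)) (cv p) with hR
  have hR0 : R ≠ 0 := tw_ne_zero ha0 (cv_ne_zero hp)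
  have hRE : R.totalDegree ≤ E := totalDegree_tw _ _ (totalDegree_cv hpE)
  have hRA : DB A R := DB_tw _ _ (DB_cv hpA)
  set Y : ℕ := ⌈Real.exp h⌉₊ with hY
  have hY1 : 1 ≤ Y := by rw [hY, Nat.one_le_ceil_iff]; exact Real.exp_pos _
  have hYc : ∀ k, N1 (p.coeff k) ≤ Y := by
    intro k
    have h1 := (hpN k).trans (Nat.le_ceil _)
    rw [← hY] at h1
    exact_mod_cast h1
  have hab1 : (σ * (U : ℤ)).natAbs = U := by
    rw [Int.natAbs_mul, hk.abs_one, one_mul, Int.natAbs_natCast]
  have hab2 : (-(σ * (U : ℤ) * z₀)).natAbs ≤ U := by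
    rw [Int.natAbs_neg, Int.natAbs_mul, hab1]
    calc U * z₀.natAbs ≤ U * 1 := Nat.mul_le_mul_left _ hk.abs_le
      _ = U := mul_one _
  set N : ℕ := (A + 1) * Y * (2 * U) ^ A with hN
  have hRN : NT R ≤ N := by
    refine (NT_tw _ _ (DB_cv hpA) (by omega)).trans ?_
    rw [hN]
    exact Nat.mul_le_mul (NT_cv p A Y hpA hYc) (Nat.pow_le_pow_left (by omega) _)
  have hN1 : 1 ≤ N := by
    rw [hN]; exact Nat.mul_pos (Nat.mul_pos (by omega) hY1) (pow_pos (by omega) _)
  obtain ⟨q, hq0, hqd, hq⟩ := elimLi (card_mons_le (m + 1) E) hR0 hRE hRA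
  -- the rational point
  set d : ℕ := ν * (A + ν) with hd
  set b : ℕ := 16 * (d + 1) * U with hb
  have hb1 : 1 ≤ b := by rw [hb]; exact Nat.mul_pos (by omega) (by omega)
  obtain ⟨i, hi, hlow⟩ := exists_point hq0 d hqd b hb1
    (fun i => z₀ * b + σ * (16 * (d + 1) + l * (d + 1) + i)) (by
      intro i j hij
      have h1 : σ * (16 * ((d : ℤ) + 1) + l * (d + 1) + i) = σ * (16 * (d + 1) + l * (d + 1) + j) := by
        linarith
      have h2 := mul_left_cancel₀ hσ0 h1
      have h3 : (i : ℤ) = j := by linarith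
      exact_mod_cast h3)
  set t : ℝ := 1 + l / 16 + i / (16 * (d + 1)) with ht
  have hd0 : (0:ℝ) < (d : ℝ) + 1 := by positivity
  have hl16 : (l : ℝ) ≤ 15 := by exact_mod_cast (by omega : l ≤ 15)
  have hl0 : (0:ℝ) ≤ l := Nat.cast_nonneg _
  have hid : (i : ℝ) / (16 * (d + 1)) ≤ 1 / 16 := by
    rw [div_le_div_iff₀ (by positivity) (by norm_num)]
    have : (i : ℝ) ≤ d := by exact_mod_cast hi
    linarith
  have hid0 : 0 ≤ (i : ℝ) / (16 * (d + 1)) := by positivity
  have ht1 : 1 ≤ t := by rw [ht]; linarith [div_nonneg hl0 (by norm_num : (0:ℝ) ≤ 16)]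
  have ht2 : t ≤ 2 := by rw [ht]; linarith
  set zs : ℂ := (z₀ : ℂ) + σ * (t : ℂ) / U with hzs
  have hUc : (U : ℂ) ≠ 0 := by exact_mod_cast (by omega : U ≠ 0)
  have hzeq : ((((z₀ * b + σ * (16 * (d + 1) + l * (d + 1) + i) : ℤ) : ℝ) / b : ℝ) : ℂ) = zs := by
    have hdc : ((d : ℂ) + 1) ≠ 0 := by exact_mod_cast (by omega : d + 1 ≠ 0)
    rw [hzs, ht, hb]
    push_cast
    field_simp
  rw [hzeq] at hlow
  have hzn : ‖zs‖ ≤ 1 - (1 / 2) / U := by
    have h1 := window_norm U hU z₀ σ hk t ht1 ht2 (t : ℂ) (by simp)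
    simpa using h1
  -- the disc
  set r : ℝ := 1 / (32 * U) with hr
  have hr0 : 0 < r := by rw [hr]; positivity
  have hzr : ‖zs‖ + r < 1 := by
    have h1 : r = (1 / 32) / U := by rw [hr]; field_simp
    have h2 : (1 / 32 : ℝ) / U < (1 / 2) / U := by gcongr; norm_num
    rw [h1]; linarith
  have hsub : Metric.closedBall zs r ⊆ Metric.ball (0 : ℂ) 1 := by
    intro w hw
    rw [Metric.mem_closedBall, dist_eq_norm] at hw
    rw [mem_ball_zero_iff]
    have h1 : ‖w‖ ≤ ‖w - zs‖ + ‖zs‖ := by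
      have := norm_add_le (w - zs) zs
      rwa [sub_add_cancel] at this
    linarith
  obtain ⟨w, hw, hmax⟩ := (isCompact_closedBall zs r).exists_isMaxOn
    ⟨zs, Metric.mem_closedBall_self hr0.le⟩ ((vl_diffOn R).continuousOn.mono hsub).norm
  have hmax' : ∀ w' ∈ Metric.closedBall zs r, ‖vl R w'‖ ≤ ‖vl R w‖ := fun w' hw' => hmax hw'
  have hcau := cauchy_th R zs r ν hr0 hzr hν1 _ hmax'
  have hr' : 2 * (ν : ℝ) / r = 64 * U * ν := by
    rw [hr]; field_simp; ring
  rw [hr'] at hcau
  have hqz := hq zs (fun j => lf (m + 1) j zs) N ((64 * U * ν) ^ ν * ‖vl R w‖)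
    (by have : 0 ≤ (1 / 2 : ℝ) / U := by positivity
        linarith) hN1 hRN (fun i hi => hcau i hi.le)
  have hval : vl R w = evg (lw m U z₀ σ) ((σ : ℂ) * U * w - σ * U * z₀) p :=
    vl_tw (by omega) hσ w p
  refine ⟨(σ : ℂ) * U * w - σ * U * z₀, ?_, ?_⟩
  · -- the distance
    have hσc : (σ : ℂ) * σ = 1 := by exact_mod_cast hσ
    have h1 : (σ : ℂ) * U * w - σ * U * z₀ - t = σ * U * (w - zs) := by
      rw [hzs]
      have h2 : (σ : ℂ) * U * (σ * (t : ℂ) / U) = t := by
        rw [mul_div_assoc', mul_comm ((σ : ℂ) * U) (σ * (t : ℂ)),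
          show (σ : ℂ) * t * (σ * U) = (σ * σ) * t * U by ring, hσc, one_mul,
          mul_div_cancel_right₀ _ hUc]
      linear_combination h2
    have hσn : ‖(σ : ℂ)‖ = 1 := by
      rcases Int.natAbs_eq_natAbs_iff.1 (hk.abs_one.trans (Int.natAbs_one).symm) with h | h <;>
        rw [h] <;> simp
    have h2 : ‖(σ : ℂ) * U * w - σ * U * z₀ - t‖ ≤ 1 / 32 := by
      rw [h1, norm_mul, norm_mul, hσn, one_mul, Complex.norm_natCast]
      rw [Metric.mem_closedBall, dist_eq_norm] at hw
      calc (U : ℝ) * ‖w - zs‖ ≤ U * r := by gcongr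
        _ = 1 / 32 := by rw [hr]; field_simp
    have h3 : ‖(t : ℂ) - ((1 + (2 * (l : ℝ) + 1) / 32 : ℝ) : ℂ)‖ ≤ 1 / 32 := by
      rw [← Complex.ofReal_sub, Complex.norm_real, Real.norm_eq_abs, abs_le]
      constructor
      · rw [ht]; linarith
      · rw [ht]; linarith
    calc _ = ‖((σ : ℂ) * U * w - σ * U * z₀ - t) +
          ((t : ℂ) - ((1 + (2 * (l : ℝ) + 1) / 32 : ℝ) : ℂ))‖ := by congr 1; ring
      _ ≤ 1 / 32 + 1 / 32 := (norm_add_le _ _).trans (add_le_add h2 h3)
      _ = 1 / 16 := by norm_num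
  · rw [← hval]
    set K : ℕ := ν * ν.factorial * ((2 * (A + E + ν)) ^ ν * N) ^ ν with hK
    have hK1 : 1 ≤ K := by
      rw [hK]
      have h1 := Nat.factorial_pos ν
      exact Nat.mul_pos (Nat.mul_pos hν1 h1) (pow_pos (Nat.mul_pos (pow_pos (by omega) _) hN1) _)
    have hKr : (0:ℝ) < K := by exact_mod_cast hK1
    have hbr : (0:ℝ) < b := by exact_mod_cast hb1
    have h64 : (0:ℝ) < 64 * U * ν := by positivity
    have hDn : 1 / ((b : ℝ) ^ d * K * (64 * U * ν) ^ ν) ≤ ‖vl R w‖ := by
      rw [div_le_iff₀ (by positivity)]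
      have h1 := hlow.trans hqz
      rw [div_le_iff₀ (by positivity)] at h1
      calc (1:ℝ) ≤ K * ((64 * U * ν) ^ ν * ‖vl R w‖) * (b : ℝ) ^ d := h1
        _ = _ := by ring
    refine le_trans ?_ hDn
    rw [Real.exp_neg, one_div]
    apply inv_anti₀ (by positivity)
    rw [← Real.log_le_iff_le_exp (by positivity)]
    refine le_trans ?_ hLS
    rw [Real.log_mul (by positivity) (by positivity), Real.log_mul (by positivity) (by positivity),
      Real.log_pow, Real.log_pow]
    have hUS : Real.log U ≤ S := hUh.trans hhS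
    have hlU0 : 0 ≤ Real.log U := Real.log_nonneg (by linarith)
    have hdn : (d : ℝ) ≤ fd S 1 := by
      rw [hd, hfd]; push_cast
      gcongr
    have hfd0 : 0 ≤ fd S 1 := (Nat.cast_nonneg d).trans hdn
    have e1 : (d : ℝ) * Real.log b ≤ fd S 1 * (16 + (fd S 1 + 1) + S) := by
      have h1 : (b : ℝ) = 16 * (d + 1) * U := by rw [hb]; push_cast; ring
      have h2 : Real.log b ≤ 16 + (fd S 1 + 1) + S := by
        rw [h1, Real.log_mul (by positivity) (by positivity), Real.log_mul (by norm_num) (by positivity)]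
        have h3 := log_le_self' (by norm_num : (1:ℝ) ≤ 16)
        have h4 : Real.log ((d : ℝ) + 1) ≤ d + 1 := log_le_self' (by
          have : (0:ℝ) ≤ d := Nat.cast_nonneg _
          linarith)
        linarith
      have h3 : 0 ≤ Real.log b := Real.log_nonneg (by exact_mod_cast hb1)
      exact mul_le_mul hdn h2 h3 hfd0
    have e2 : Real.log (K : ℝ) ≤ n + n ^ 2 + n * (n * (2 * (S + n)) +
        ((S + 1) + (S + 1) + S * (S + 1))) := by
      have hfac : (0:ℝ) < ν.factorial := by exact_mod_cast Nat.factorial_pos ν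
      have hNpos : (0:ℝ) < N := by exact_mod_cast hN1
      have hAE : (1:ℝ) ≤ 2 * (A + E + ν) := by linarith
      have h1 : (K : ℝ) = ν * ν.factorial * ((2 * (A + E + ν)) ^ ν * N) ^ ν := by
        rw [hK]; push_cast; ring
      rw [h1, Real.log_mul (by positivity) (by positivity), Real.log_mul (by positivity) (by positivity),
        Real.log_pow, Real.log_mul (by positivity) (by positivity), Real.log_pow]
      have h2 : Real.log (ν : ℝ) ≤ n := (log_le_self' hν1').trans hνn
      have h3 : Real.log (ν.factorial : ℝ) ≤ n ^ 2 := (log_fact_le ν).trans (by gcongr)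
      have h4 : Real.log (2 * ((A : ℝ) + E + ν)) ≤ 2 * (S + n) :=
        (log_le_self' hAE).trans (by linarith)
      have h4' : 0 ≤ Real.log (2 * ((A : ℝ) + E + ν)) := Real.log_nonneg hAE
      have h5 : Real.log (N : ℝ) ≤ (S + 1) + (S + 1) + S * (S + 1) := by
        have hYpos : (0:ℝ) < Y := by exact_mod_cast hY1
        have h6 : (N : ℝ) = ((A : ℝ) + 1) * Y * (2 * U) ^ A := by rw [hN]; push_cast; ring
        rw [h6, Real.log_mul (by positivity) (by positivity), Real.log_mul (by positivity) (by positivity),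
          Real.log_pow]
        have h7 : Real.log ((A : ℝ) + 1) ≤ S + 1 := (log_le_self' (by linarith)).trans (by linarith)
        have h8 : Real.log (Y : ℝ) ≤ S + 1 := by
          have h9 : (Y : ℝ) ≤ Real.exp (h + 1) := by
            have h10 : (Y : ℝ) ≤ Real.exp h + 1 := (Nat.ceil_lt_add_one (Real.exp_pos _).le).le
            have h11 : (2:ℝ) ≤ Real.exp 1 := by
              have := Real.add_one_le_exp (1:ℝ); linarith
            have h12 : (1:ℝ) ≤ Real.exp h := Real.one_le_exp (by linarith)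
            rw [Real.exp_add]
            have h13 : Real.exp h * 2 ≤ Real.exp h * Real.exp 1 :=
              mul_le_mul_of_nonneg_left h11 (Real.exp_pos _).le
            linarith
          have h14 : Real.log (Y : ℝ) ≤ h + 1 := by
            rw [Real.log_le_iff_le_exp hYpos]; exact h9
          linarith
        have h15 : Real.log (2 * (U : ℝ)) ≤ S + 1 := by
          rw [Real.log_mul (by norm_num) (by positivity)]
          have := Real.log_two_lt_d9
          linarith
        have h16 : 0 ≤ Real.log (2 * (U : ℝ)) := Real.log_nonneg (by linarith)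
        have h17 : (A : ℝ) * Real.log (2 * (U : ℝ)) ≤ S * (S + 1) := by gcongr
        linarith
      have h5' : 0 ≤ Real.log (N : ℝ) := Real.log_nonneg (by exact_mod_cast hN1)
      have h6 : (ν : ℝ) * ((ν : ℝ) * Real.log (2 * ((A : ℝ) + E + ν)) + Real.log (N : ℝ)) ≤
          n * (n * (2 * (S + n)) + ((S + 1) + (S + 1) + S * (S + 1))) := by
        gcongr
      linarith
    have e3 : (ν : ℝ) * Real.log (64 * U * ν) ≤ n * (64 + S + n) := by
      have h1 : Real.log (64 * (U : ℝ) * ν) ≤ 64 + S + n := by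
        rw [Real.log_mul (by positivity) (by positivity), Real.log_mul (by norm_num) (by positivity)]
        have h3 := log_le_self' (by norm_num : (1:ℝ) ≤ 64)
        have h4 := (log_le_self' hν1').trans hνn
        linarith
      have h2 : 0 ≤ Real.log (64 * (U : ℝ) * ν) := Real.log_nonneg (by nlinarith)
      gcongr
    have e4 : fL S 1 = fd S 1 * (16 + (fd S 1 + 1) + S) +
        (n + n ^ 2 + n * (n * (2 * (S + n)) + ((S + 1) + (S + 1) + S * (S + 1)))) +
        n * (64 + S + n) := by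
      rw [hfL]
    rw [e4]
    linarith

end Pool.Agent.Lib.MP_524521_nt.RA
end
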