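import Pool.Agent.Lib.MP_524521_nt.RA.Norm
import Pool.Agent.Lib.MP_524521_nt.RA.Eval
import Pool.Agent.Lib.MP_524521_nt.RA.FewC
import Pool.Agent.Lib.MP_524521_nt.RA.LowLi
import Pool.Agent.Lib.MP_524521_nt.RA.ZUDef
import Pool.Agent.Lib.MP_524521_nt.RA.LocalPoly
import Pool.Agent.Lib.MP_524521_nt.RA.FinalP
import Pool.Agent.Lib.MP_524521_nt.RA.FinalQ

section
/-!
# The zero estimate for polylogarithms on a window (from a lower bound at some points)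
-/
open Polynomial

namespace Pool.Agent.Lib.MP_524521_nt.RA

/-- the lower bound at one point near each of sixteen centres -/
def LowLi (m : ℕ) : Prop := ∃ e : ℕ, 1 ≤ e ∧ ∀ (U : ℕ) (z₀ σ : ℤ) (A E : ℕ) (h : ℝ), 4 ≤ U →
    Kind z₀ σ → 1 ≤ A → 1 ≤ h → Real.log U ≤ h →
    ∀ p : Polynomial (G m), p ≠ 0 → p.natDegree ≤ A →
    (∀ k, (p.coeff k).totalDegree ≤ E) → (∀ k, (N1 (p.coeff k) : ℝ) ≤ Real.exp h) →
    ∀ l : ℕ, l < 16 → ∃ c : ℂ, ‖c - ((1 + (2 * l + 1) / 32 : ℝ) : ℂ)‖ ≤ 1 / 16 ∧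
      Real.exp (-(e * (A + E + h)) ^ e) ≤ ‖evg (lw m U z₀ σ) c p‖

theorem zuc_of_lowLi (m : ℕ) (hlow : LowLi m) : ∃ C : ℕ, 1 ≤ C ∧ ∀ (U : ℕ) (z₀ σ : ℤ), 4 ≤ U →
    Kind z₀ σ → ZUC (lw m U z₀ σ) 1 2 C (Real.log U) := by
  classical
  obtain ⟨e, he, hlowU⟩ := hlow
  have he1 : (1 : ℝ) ≤ e := by exact_mod_cast he
  refine ⟨832 * e ^ e + e, by omega, ?_⟩
  set C : ℕ := 832 * e ^ e + e with hCdef
  intro U z₀ σ hU hk A E h δ hA hh hUh hδ hδ1 p hp hpA hpE hpN Q hQ hQδ hQs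
  set g : Fin m → ℂ → ℂ := lw m U z₀ σ with hg
  set S : ℝ := A + E + h with hS
  have hA1 : (1 : ℝ) ≤ A := by exact_mod_cast hA
  have hE0 : (0 : ℝ) ≤ E := Nat.cast_nonneg _
  have hS2 : 2 ≤ S := by rw [hS]; linarith
  have hU0 : (0 : ℝ) < U := by exact_mod_cast (by omega : 0 < U)
  set P : ℝ := (e * S) ^ e with hP
  have heS : S ≤ (e : ℝ) * S := by nlinarith
  have hPS : S ≤ P := by
    rw [hP]
    calc S ≤ e * S := heS
      _ ≤ (e * S) ^ e := le_self_pow₀ (by linarith) (by omega)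
  have hCS : 832 * P ≤ (C * S) ^ C := by
    have hC1 : (1 : ℝ) ≤ C := by exact_mod_cast (by omega : 1 ≤ C)
    have h1 : 832 * (e : ℝ) ^ e ≤ C := by
      exact_mod_cast (by omega : 832 * e ^ e ≤ C)
    calc 832 * P = (832 * (e : ℝ) ^ e) * S ^ e := by
          rw [hP, mul_pow]; ring
      _ ≤ C * S ^ e := mul_le_mul_of_nonneg_right h1 (by positivity)
      _ ≤ (C : ℝ) ^ C * S ^ C := by
          apply mul_le_mul
          · exact le_self_pow₀ hC1 (by omega)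
          · exact pow_le_pow_right₀ (by linarith) (by omega)
          · positivity
          · positivity
      _ = (C * S) ^ C := (mul_pow _ _ _).symm
  set Λ : ℝ := 4 * P with hΛ
  have hΛ1 : 1 ≤ Λ := by linarith
  by_contra hcard
  push Not at hcard
  set q : ℕ := ⌈4 * (2 * Λ + 1)⌉₊ with hq
  have hqle : (q : ℝ) ≤ 13 * Λ := by
    have h1 : (q : ℝ) ≤ 4 * (2 * Λ + 1) + 1 := (Nat.ceil_lt_add_one (by positivity)).le
    linarith
  have hq1 : 1 ≤ q := by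
    rw [hq, Nat.one_le_ceil_iff]; positivity
  -- a window with many points
  have h16 : 16 * q < Q.card := by
    have : (16 * q : ℝ) < Q.card := by
      refine lt_of_le_of_lt ?_ hcard
      refine le_trans ?_ hCS
      linarith
    exact_mod_cast this
  have hmaps : ∀ x ∈ Q, min 15 ⌊16 * (x - 1)⌋₊ ∈ Finset.range 16 := by
    intro x _
    rw [Finset.mem_range]
    omega
  obtain ⟨l, hl, hlq⟩ := Finset.exists_lt_card_fiber_of_mul_lt_card_of_maps_to hmaps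
    (n := q) (by simpa using h16)
  rw [Finset.mem_range] at hl
  obtain ⟨Q₁, hQ₁, hQ₁c⟩ := Finset.exists_subset_card_eq hlq.le
  set μ : ℝ := 1 + (2 * l + 1) / 32 with hμ
  have hl0 : (0 : ℝ) ≤ l := Nat.cast_nonneg _
  have hl15 : (l : ℝ) ≤ 15 := by exact_mod_cast (by omega : l ≤ 15)
  have hμ1 : 1 ≤ μ := by rw [hμ]; linarith
  have hμ2 : μ ≤ 2 := by rw [hμ]; linarith
  -- the points lie near the centre
  have hnear : ∀ x ∈ Q₁, |x - μ| ≤ 1 / 32 := by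
    intro x hx
    have h1 := Finset.mem_filter.1 (hQ₁ hx)
    have h2 := hQ x h1.1
    have h3 : min 15 ⌊16 * (x - 1)⌋₊ = l := h1.2
    have h4 : (⌊16 * (x - 1)⌋₊ : ℝ) ≤ 16 * (x - 1) := Nat.floor_le (by linarith [h2.1])
    have h5 : 16 * (x - 1) < ⌊16 * (x - 1)⌋₊ + 1 := Nat.lt_floor_add_one _
    rcases le_or_gt ⌊16 * (x - 1)⌋₊ 15 with h6 | h6
    · have h7 : ⌊16 * (x - 1)⌋₊ = l := by omega
      rw [h7] at h4 h5
      rw [abs_le, hμ]
      constructor <;> linarith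
    · have h7 : l = 15 := by omega
      have h8 : (16 : ℝ) ≤ ⌊16 * (x - 1)⌋₊ := by exact_mod_cast (by omega : 16 ≤ ⌊16 * (x - 1)⌋₊)
      have h9 : x = 2 := by linarith [h2.2]
      rw [abs_le, hμ, h7, h9]
      constructor <;> norm_num
  obtain ⟨c, hc, hc2⟩ := hlowU U z₀ σ A E h hU hk hA hh hUh p hp hpA hpE hpN l hl
  have hcμ : ‖c - (μ : ℂ)‖ ≤ 1 / 16 := hc
  set f : ℂ → ℂ := fun z => evg g z p with hf
  have hfd : DifferentiableOn ℂ f (Metric.ball (μ : ℂ) (2 * (1 / 4))) :=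
    differentiableOn_evg g _ (fun j => lw_diff m U hU z₀ σ hk μ hμ1 hμ2 j) p
  have hdist : ∀ z ∈ Metric.closedBall c (1 / 4), ‖z - (μ : ℂ)‖ ≤ 5 / 16 := by
    intro z hz
    rw [Metric.mem_closedBall, dist_eq_norm] at hz
    have h1 : z - (μ : ℂ) = (z - c) + (c - μ) := by ring
    rw [h1]
    refine (norm_add_le _ _).trans ?_
    linarith
  have hsub : Metric.closedBall c (1 / 4) ⊆ Metric.ball (μ : ℂ) (2 * (1 / 4)) := by
    intro z hz
    rw [Metric.mem_ball, dist_eq_norm]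
    have := hdist z hz
    linarith
  have hsup : ∀ z ∈ Metric.closedBall c (1 / 4), ‖f z‖ ≤ Real.exp Λ := by
    intro z hz
    have h1 := hdist z hz
    have hnm : ‖z‖ ≤ 3 := by
      have h2 : ‖z‖ ≤ ‖z - μ‖ + ‖(μ : ℂ)‖ := by
        have := norm_add_le (z - μ) (μ : ℂ)
        simpa using this
      rw [Complex.norm_real, Real.norm_of_nonneg (by linarith)] at h2
      linarith
    have hb : ∀ j, ‖g j z‖ ≤ 2 := by
      intro j
      rw [hg]
      unfold lw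
      refine pl_bdd _ (by omega) _ ?_
      refine (window_norm U hU z₀ σ hk μ hμ1 hμ2 z (by linarith)).trans ?_
      have : 0 ≤ (1 / 2 - ‖z - μ‖) / U := div_nonneg (by linarith) hU0.le
      linarith
    have h3 := norm_evg_le g z 2 3 (Real.exp h) (by norm_num) (by norm_num) hb hnm p A E hpA hpE hpN
    refine h3.trans ?_
    have e1 : ((A : ℝ) + 1) ≤ Real.exp A := Real.add_one_le_exp _
    have e2 : (2 : ℝ) ^ E ≤ Real.exp E := by
      calc (2 : ℝ) ^ E ≤ Real.exp 1 ^ E :=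
            pow_le_pow_left₀ (by norm_num) (by have := Real.add_one_le_exp 1; linarith) _
        _ = Real.exp E := by rw [← Real.exp_nat_mul, mul_one]
    have e3 : (3 : ℝ) ^ A ≤ Real.exp (A * 2) := by
      calc (3 : ℝ) ^ A ≤ Real.exp 2 ^ A :=
            pow_le_pow_left₀ (by norm_num) (by have := Real.add_one_le_exp 2; linarith) _
        _ = Real.exp (A * 2) := by rw [← Real.exp_nat_mul]
    calc ((A : ℝ) + 1) * Real.exp h * 2 ^ E * 3 ^ A
        ≤ Real.exp A * Real.exp h * Real.exp E * Real.exp (A * 2) := by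
          gcongr
      _ = Real.exp (A + h + E + A * 2) := by
          rw [← Real.exp_add, ← Real.exp_add, ← Real.exp_add]
      _ ≤ Real.exp Λ := by
          apply Real.exp_le_exp.2
          have f1 : (A : ℝ) ≤ S := by rw [hS]; linarith
          rw [hΛ]
          have f2 : (A : ℝ) + h + E = S := by rw [hS]; ring
          linarith
  have hlow3 : Real.exp (-Λ) ≤ ‖f c‖ := by
    refine le_trans ?_ hc2
    exact Real.exp_le_exp.2 (neg_le_neg (by rw [hΛ]; linarith))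
  set ℓ : ℝ := Real.log (2 / δ) with hℓ
  have hℓ1 : 1 ≤ 2 * ℓ := by
    have h1 : Real.log 2 ≤ ℓ := by
      rw [hℓ]; apply Real.log_le_log (by norm_num)
      rw [le_div_iff₀ hδ]; linarith
    have := Real.log_two_gt_d9
    linarith
  set κ : ℝ := Real.exp (-((C * S) ^ C * ℓ)) with hκ
  have hUb : κ < Real.exp (-Λ) * (δ / 2) ^ q / (4 * q) := by
    have hq0r : (0 : ℝ) < q := by exact_mod_cast hq1
    have hδM : 0 < δ / 2 := by positivity
    have hlogδ : Real.log (δ / 2) = -ℓ := by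
      rw [hℓ, Real.log_div hδ.ne' (by norm_num), Real.log_div (by norm_num) hδ.ne']
      ring
    have h1 : (δ / 2) ^ q = Real.exp (-(q * ℓ)) := by
      rw [← Real.exp_log hδM, ← Real.exp_nat_mul, hlogδ]
      congr 1; ring
    have h2 : (4 : ℝ) * q < Real.exp (4 * q) := by
      have := Real.add_one_le_exp (4 * (q : ℝ)); linarith
    have h3 : Real.exp (-(4 * (q : ℝ))) < 1 / (4 * q) := by
      rw [Real.exp_neg, ← one_div]
      exact one_div_lt_one_div_of_lt (by positivity) h2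
    have hℓ0 : 0 ≤ ℓ := by linarith
    have hΛ0 : 0 ≤ Λ := by linarith
    have h4 : Λ + q * ℓ + 4 * q ≤ (C * S) ^ C * ℓ := by
      have e2 : (q : ℝ) * ℓ ≤ 13 * Λ * ℓ := mul_le_mul_of_nonneg_right hqle hℓ0
      have e3 : 4 * (q : ℝ) ≤ 104 * Λ * ℓ := by
        calc 4 * (q : ℝ) ≤ 52 * Λ * 1 := by linarith
          _ ≤ 52 * Λ * (2 * ℓ) := mul_le_mul_of_nonneg_left hℓ1 (by positivity)
          _ = 104 * Λ * ℓ := by ring
      have e4 : Λ ≤ 2 * Λ * ℓ := by nlinarith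
      have e5 : 119 * Λ * ℓ ≤ (C * S) ^ C * ℓ := by
        apply mul_le_mul_of_nonneg_right _ hℓ0
        refine le_trans ?_ hCS
        rw [hΛ]; linarith
      have e6 : 119 * Λ * ℓ = 2 * Λ * ℓ + 13 * Λ * ℓ + 104 * Λ * ℓ := by ring
      linarith
    calc κ ≤ Real.exp (-(Λ + q * ℓ + 4 * q)) := by
          rw [hκ]; apply Real.exp_le_exp.2; linarith
      _ = Real.exp (-Λ) * Real.exp (-(q * ℓ)) * Real.exp (-(4 * (q : ℝ))) := by
          rw [← Real.exp_add, ← Real.exp_add]; ring_nf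
      _ < Real.exp (-Λ) * Real.exp (-(q * ℓ)) * (1 / (4 * q)) :=
          mul_lt_mul_of_pos_left h3 (by positivity)
      _ = Real.exp (-Λ) * (δ / 2) ^ q / (4 * q) := by rw [h1]; ring
  obtain ⟨δ', hδ'1, hδ'2⟩ := exists_between hUb
  obtain ⟨x, hx, hxδ⟩ := few_disc (R := 1 / 4) (Λ := Λ) (τ := δ) (δ := δ') (c := c)
    (by norm_num) (by norm_num) hΛ1 f Metric.isOpen_ball hsub hfd hsup hlow3 hδ hδ1 Q₁ (by
      intro x hx
      have h1 := hnear x hx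
      have h2 : (x : ℂ) - c = ((x - μ : ℝ) : ℂ) - (c - μ) := by push_cast; ring
      rw [h2]
      refine (norm_sub_le _ _).trans ?_
      rw [Complex.norm_real, Real.norm_eq_abs]
      linarith) (by
      intro x hx y hy hxy
      exact hQδ x (Finset.mem_filter.1 (hQ₁ hx)).1 y (Finset.mem_filter.1 (hQ₁ hy)).1 hxy) (by
      rw [hQ₁c, hq]
      exact Nat.le_ceil _) (by rw [hQ₁c]; exact hδ'2)
  have h1 := hQs x (Finset.mem_filter.1 (hQ₁ hx)).1
  have h2 : f (x : ℂ) = evg g x p := rfl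
  rw [h2] at hxδ
  linarith

end Pool.Agent.Lib.MP_524521_nt.RA
end

section
/-!
# Polylogarithms at all rationals of bounded denominator

Dyadic windows at the points `0`, `1` and `-1`.
-/
set_option autoImplicit false

open MvPolynomial

namespace Pool.Agent.Lib.MP_524521_nt.RA

/-- the zero estimate on the windows -/
theorem zuc_li (m : ℕ) : ∃ C : ℕ, 1 ≤ C ∧ ∀ (U : ℕ) (z₀ σ : ℤ), 4 ≤ U → Kind z₀ σ →
    ZUC (lw m U z₀ σ) 1 2 C (Real.log U) := zuc_of_lowLi m (low_li m)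

/-- the real polylogarithm -/
noncomputable def plr (k : ℕ) (x : ℝ) : ℝ := ∑' n : ℕ, x ^ (n + 1) / ((n : ℝ) + 1) ^ k

theorem pl_ofReal (k : ℕ) (x : ℝ) : pl k (x : ℂ) = (plr k x : ℂ) := by
  rw [pl, plr, Complex.ofReal_tsum]
  congr 1
  funext n
  push_cast
  rfl

theorem norm_aeval_pl_eq {m : ℕ} (x : ℝ) (P : G m) :
    ‖MvPolynomial.aeval (fun j : Fin m => pl ((j : ℕ) + 2) (x : ℂ)) P‖ =
      |MvPolynomial.aeval (fun j : Fin m => plr ((j : ℕ) + 2) x) P| := by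
  have h1 : (fun j : Fin m => pl ((j : ℕ) + 2) (x : ℂ)) =
      fun j : Fin m => Complex.ofRealHom (plr ((j : ℕ) + 2) x) := by
    funext j
    exact pl_ofReal _ _
  have h2 := MvPolynomial.hom_eval₂ P (algebraMap ℤ ℝ) Complex.ofRealHom
    (fun j : Fin m => plr ((j : ℕ) + 2) x)
  rw [Complex.ofRealHom_eq_coe] at h2
  have h3 : MvPolynomial.aeval (fun j : Fin m => pl ((j : ℕ) + 2) (x : ℂ)) P =
      ((MvPolynomial.aeval (fun j : Fin m => plr ((j : ℕ) + 2) x) P : ℝ) : ℂ) := by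
    rw [h1, MvPolynomial.aeval_def, MvPolynomial.aeval_def, h2]
    congr 1
  rw [h3, Complex.norm_real, Real.norm_eq_abs]

theorem coeff_rev_le {m : ℕ} (P : G m) (H : ℕ) (h : ∀ d, (P.coeff d).natAbs ≤ H)
    (d : Fin m →₀ ℕ) : ((MvPolynomial.rename Fin.rev P).coeff d).natAbs ≤ H := by
  have h1 : d = Finsupp.mapDomain Fin.rev (Finsupp.mapDomain Fin.rev d) := by
    rw [← Finsupp.mapDomain_comp, Fin.rev_involutive.comp_self, Finsupp.mapDomain_id]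
  rw [h1, MvPolynomial.coeff_rename_mapDomain _ Fin.rev_injective]
  exact h _

/-- the value in the window -/
theorem aeval_lw {m : ℕ} (U : ℕ) (hU : 0 < U) (z₀ σ : ℤ) (hσ : σ * σ = 1) (z : ℂ) (P : G m) :
    MvPolynomial.aeval (fun j => lw m U z₀ σ j ((σ : ℂ) * (z - z₀) * U))
      (MvPolynomial.rename Fin.rev P) =
    MvPolynomial.aeval (fun j : Fin m => pl ((j : ℕ) + 2) z) P := by
  rw [MvPolynomial.aeval_rename]
  congr 2
  funext j
  have h1 : ((σ : ℂ) * σ) = 1 := by exact_mod_cast hσ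
  have h2 : (U : ℂ) ≠ 0 := by exact_mod_cast hU.ne'
  have h3 : m + 1 - ((Fin.rev j : Fin m) : ℕ) = (j : ℕ) + 2 := by
    rw [Fin.val_rev]
    have := j.2
    omega
  have h4 : (z₀ : ℂ) + σ * ((σ : ℂ) * (z - z₀) * U) / U = z := by
    rw [← mul_assoc, ← mul_assoc, h1, one_mul, mul_div_assoc, div_self h2, mul_one]
    ring
  simp only [Function.comp_apply, lw]
  rw [h3, h4]

/-- the nearest end point -/
theorem exists_kind (z : ℚ) (h0 : z ≠ 0) (h1 : |z| < 1) : ∃ z₀ σ : ℤ, Kind z₀ σ ∧ σ * σ = 1 ∧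
    0 < (σ : ℚ) * (z - z₀) ∧ (σ : ℚ) * (z - z₀) ≤ 1 / 2 := by
  rw [abs_lt] at h1
  rcases lt_or_gt_of_ne h0 with h | h
  · rcases le_or_gt (-1 / 2) z with h2 | h2
    · refine ⟨0, -1, Or.inr (Or.inl ⟨rfl, rfl⟩), by norm_num, ?_, ?_⟩ <;> push_cast <;> linarith
    · refine ⟨-1, 1, Or.inr (Or.inr (Or.inr ⟨rfl, rfl⟩)), by norm_num, ?_, ?_⟩ <;> push_cast <;>
        linarith
  · rcases le_or_gt z (1 / 2) with h2 | h2
    · refine ⟨0, 1, Or.inl ⟨rfl, rfl⟩, by norm_num, ?_, ?_⟩ <;> push_cast <;> linarith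
    · refine ⟨1, -1, Or.inr (Or.inr (Or.inl ⟨rfl, rfl⟩)), by norm_num, ?_, ?_⟩ <;> push_cast <;>
        linarith

/-- the denominators do not grow -/
theorem den_window (z : ℚ) (z₀ σ : ℤ) (U : ℕ) : ((σ : ℚ) * (z - z₀) * U).den ≤ z.den := by
  have h1 : (σ : ℚ) * (z - z₀) * U = Rat.divInt (σ * (z.num - z₀ * z.den) * U) (z.den : ℤ) := by
    rw [Rat.divInt_eq_div]
    have h2 : (z.den : ℚ) ≠ 0 := by exact_mod_cast z.den_nz
    have h3 : z * z.den = z.num := Rat.mul_den_eq_num z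
    rw [eq_div_iff (by exact_mod_cast h2)]
    push_cast
    rw [← h3]
    ring
  have h4 := Rat.den_dvd (σ * (z.num - z₀ * z.den) * U) (z.den : ℤ)
  rw [← h1] at h4
  exact Nat.le_of_dvd z.den_pos (by exact_mod_cast h4)

/-- the dyadic index of a small positive rational -/
theorem dyadic_small (d : ℚ) (h0 : 0 < d) (h1 : d ≤ 1 / 2) (T : ℕ) (hT : d.den ≤ T) :
    ∃ k : ℕ, 2 ≤ k ∧ k ≤ Nat.log 2 T + 1 ∧ 1 ≤ d * ((2 ^ k : ℕ) : ℚ) ∧
      d * ((2 ^ k : ℕ) : ℚ) ≤ 2 := by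
  have hinv : 2 ≤ 1 / d := by
    rw [le_div_iff₀ h0]; linarith
  have hn2 : 2 ≤ ⌊1 / d⌋₊ := Nat.le_floor (by exact_mod_cast hinv)
  have hnT : ⌊1 / d⌋₊ ≤ T := by
    have h2 : (⌊1 / d⌋₊ : ℚ) ≤ 1 / d := Nat.floor_le (by positivity)
    have h3 : 1 / d ≤ d.den := by
      rw [div_le_iff₀ h0, mul_comm, Rat.mul_den_eq_num]
      have : 0 < d.num := Rat.num_pos.2 h0
      exact_mod_cast this
    have h4 : (⌊1 / d⌋₊ : ℚ) ≤ (d.den : ℚ) := h2.trans h3
    have h5 : ⌊1 / d⌋₊ ≤ d.den := by exact_mod_cast h4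
    exact h5.trans hT
  refine ⟨Nat.log 2 ⌊1 / d⌋₊ + 1, ?_, ?_, ?_, ?_⟩
  · have : 1 ≤ Nat.log 2 ⌊1 / d⌋₊ := Nat.log_pos (by norm_num) hn2
    omega
  · have := Nat.log_mono_right (b := 2) hnT
    omega
  · have h2 : ⌊1 / d⌋₊ < 2 ^ (Nat.log 2 ⌊1 / d⌋₊ + 1) := Nat.lt_pow_succ_log_self (by norm_num) _
    have h3 : ((⌊1 / d⌋₊ + 1 : ℕ) : ℚ) ≤ ((2 ^ (Nat.log 2 ⌊1 / d⌋₊ + 1) : ℕ) : ℚ) := by
      exact_mod_cast h2
    have h4 : 1 / d < ⌊1 / d⌋₊ + 1 := Nat.lt_floor_add_one _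
    push_cast at h3 ⊢
    have h5 : 1 / d ≤ 2 ^ (Nat.log 2 ⌊1 / d⌋₊ + 1) := by linarith
    rw [div_le_iff₀ h0] at h5
    linarith
  · have h2 : 2 ^ Nat.log 2 ⌊1 / d⌋₊ ≤ ⌊1 / d⌋₊ := Nat.pow_log_le_self 2 (by omega)
    have h3 : ((2 ^ Nat.log 2 ⌊1 / d⌋₊ : ℕ) : ℚ) ≤ ⌊1 / d⌋₊ := by exact_mod_cast h2
    have h4 : (⌊1 / d⌋₊ : ℚ) ≤ 1 / d := Nat.floor_le (by positivity)
    push_cast at h3 ⊢
    have h5 : 2 ^ Nat.log 2 ⌊1 / d⌋₊ ≤ 1 / d := by linarith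
    rw [le_div_iff₀ h0] at h5
    rw [pow_succ]
    linarith

/-- the finset form -/
theorem li_finset (m D : ℕ) : ∃ C : ℕ, ∀ T H : ℕ, 2 ≤ T → 2 ≤ H → ∀ S : Finset ℚ,
    (∀ z ∈ S, z ≠ 0 ∧ |z| ≤ 1 ∧ z.den ≤ T ∧
      ∃ P : G m, P ≠ 0 ∧ P.totalDegree ≤ D ∧ (∀ d, (P.coeff d).natAbs ≤ H) ∧
        ‖MvPolynomial.aeval (fun j : Fin m => pl ((j : ℕ) + 2) (z : ℂ)) P‖ <
          Real.exp (-Real.log (T * H) ^ C)) →
    (S.card : ℝ) ≤ Real.log (T * H) ^ C := by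
  classical
  obtain ⟨Cz, hCz, hZ⟩ := zuc_li m
  obtain ⟨C, hC, hloc⟩ := local_poly m D Cz (a := 1) (b := 2) (ρ := 1 / 4)
    (Z₀ := 2) (by norm_num) (by norm_num) hCz
  obtain ⟨C', hC', hlp⟩ := exists_log_pow (2 * C + 22)
  refine ⟨C', ?_⟩
  intro T H hT hH S hS
  have hTr : (2 : ℝ) ≤ T := by exact_mod_cast hT
  have hHr : (2 : ℝ) ≤ H := by exact_mod_cast hH
  have hℓ4 := log_four_le hT hH
  have hfin := hlp _ hℓ4
  set ℓ := Real.log (T * H) with hℓ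
  have hℓ1 : 1 ≤ ℓ := by
    have h2 : Real.log 4 = 2 * Real.log 2 := by
      rw [show (4 : ℝ) = 2 ^ 2 by norm_num, Real.log_pow]; norm_num
    have := Real.log_two_gt_d9
    linarith
  have hlogT0 : 0 ≤ Real.log T := Real.log_nonneg (by linarith)
  have hlogH0 : 0 ≤ Real.log H := Real.log_nonneg (by linarith)
  have hℓ' : ℓ = Real.log T + Real.log H := Real.log_mul (by linarith) (by linarith)
  have hCr : (1 : ℝ) ≤ C := by exact_mod_cast hC
  have hT2 : 2 ≤ T ^ 2 := by nlinarith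
  have hlog2 : Real.log (((T ^ 2 : ℕ) : ℝ) * H) ≤ 2 * ℓ := by
    push_cast
    rw [Real.log_mul (by positivity) (by linarith), Real.log_pow, hℓ']
    push_cast
    linarith
  have hlog2' : 0 ≤ Real.log (((T ^ 2 : ℕ) : ℝ) * H) := by
    apply Real.log_nonneg
    have : (1 : ℝ) ≤ ((T ^ 2 : ℕ) : ℝ) := by exact_mod_cast (by omega : 1 ≤ T ^ 2)
    nlinarith
  have hB1 : (C * Real.log (((T ^ 2 : ℕ) : ℝ) * H)) ^ C ≤ (2 * C * ℓ) ^ C := by
    refine pow_le_pow_left₀ (by positivity) ?_ _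
    calc C * Real.log (((T ^ 2 : ℕ) : ℝ) * H) ≤ C * (2 * ℓ) := by gcongr
      _ = 2 * C * ℓ := by ring
  have hB0 : 1 ≤ (2 * C * ℓ) ^ C := by
    apply one_le_pow₀
    nlinarith
  have hC2 : ((2 * C + 22 : ℕ) : ℝ) = 2 * C + 22 := by push_cast; ring
  have hbase : 2 * C * ℓ ≤ ((2 * C + 22 : ℕ) : ℝ) * ℓ := by rw [hC2]; nlinarith
  have hbase1 : 1 ≤ ((2 * C + 22 : ℕ) : ℝ) * ℓ := by rw [hC2]; nlinarith
  have hB2 : (2 * C * ℓ) ^ C * (22 * ℓ) ≤ ℓ ^ C' := by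
    refine le_trans ?_ hfin
    calc (2 * C * ℓ) ^ C * (22 * ℓ) ≤
          (((2 * C + 22 : ℕ) : ℝ) * ℓ) ^ C * (((2 * C + 22 : ℕ) : ℝ) * ℓ) := by
          apply mul_le_mul _ _ (by positivity) (by positivity)
          · exact pow_le_pow_left₀ (by positivity) hbase _
          · rw [hC2]; nlinarith
      _ = (((2 * C + 22 : ℕ) : ℝ) * ℓ) ^ (C + 1) := (pow_succ _ _).symm
      _ ≤ _ := pow_le_pow_right₀ hbase1 (by omega)
  have hB3 : (2 * C * ℓ) ^ C ≤ ℓ ^ C' := by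
    refine le_trans ?_ hB2
    nlinarith
  -- the windows
  let KS : Finset (ℤ × ℤ) := {(0, 1), (0, -1), (1, -1), (-1, 1)}
  have hKS : ∀ p : ℤ × ℤ, p ∈ KS ↔ Kind p.1 p.2 := by
    rintro ⟨p, q⟩
    simp only [KS, Finset.mem_insert, Finset.mem_singleton, Prod.mk.injEq, Kind]
  have hKSc : KS.card ≤ 4 := Finset.card_le_four
  let W : (ℤ × ℤ) × ℕ → Finset ℚ := fun p => S.filter fun z =>
    1 ≤ (p.1.2 : ℚ) * (z - p.1.1) * ((2 ^ p.2 : ℕ) : ℚ) ∧
      (p.1.2 : ℚ) * (z - p.1.1) * ((2 ^ p.2 : ℕ) : ℚ) ≤ 2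
  let IX : Finset ((ℤ × ℤ) × ℕ) := KS ×ˢ (Finset.Icc 2 (Nat.log 2 T + 1))
  have hcover : S ⊆ {1, -1} ∪ IX.biUnion W := by
    intro z hz
    obtain ⟨h0, h1, h2, _⟩ := hS z hz
    rcases eq_or_ne |z| 1 with h3 | h3
    · refine Finset.mem_union_left _ ?_
      rcases (abs_eq (by norm_num : (0 : ℚ) ≤ 1)).1 h3 with h4 | h4 <;> simp [h4]
    · refine Finset.mem_union_right _ ?_
      obtain ⟨z₀, σ, hk, hσ, hd0, hd1⟩ := exists_kind z h0 (lt_of_le_of_ne h1 h3)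
      have hden : ((σ : ℚ) * (z - z₀)).den ≤ T := by
        have := den_window z z₀ σ 1
        rw [Nat.cast_one, mul_one] at this
        exact this.trans h2
      obtain ⟨k, hk1, hk2, hk3, hk4⟩ := dyadic_small _ hd0 hd1 T hden
      refine Finset.mem_biUnion.2 ⟨((z₀, σ), k), ?_, Finset.mem_filter.2 ⟨hz, hk3, hk4⟩⟩
      exact Finset.mem_product.2 ⟨(hKS _).2 hk, Finset.mem_Icc.2 ⟨hk1, hk2⟩⟩
  have hWk : ∀ p ∈ IX, ((W p).card : ℝ) ≤ (2 * C * ℓ) ^ C := by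
    rintro ⟨⟨z₀, σ⟩, k⟩ hp
    obtain ⟨hp1, hp2⟩ := Finset.mem_product.1 hp
    have hkind : Kind z₀ σ := (hKS _).1 hp1
    obtain ⟨hk1, hk2⟩ := Finset.mem_Icc.1 hp2
    simp only at hk1 hk2
    have hσ : σ * σ = 1 := by
      rcases hkind with h | h | h | h <;> rw [h.2] <;> norm_num
    have hσ0 : (σ : ℚ) ≠ 0 := by
      intro h
      have h' : σ = 0 := by exact_mod_cast h
      rw [h'] at hσ
      norm_num at hσ
    have hU4 : 4 ≤ 2 ^ k := by
      calc 4 = 2 ^ 2 := by norm_num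
        _ ≤ 2 ^ k := Nat.pow_le_pow_right (by norm_num) hk1
    have hUT : 2 ^ k ≤ T ^ 2 := by
      calc 2 ^ k ≤ 2 ^ (Nat.log 2 T + 1) := Nat.pow_le_pow_right (by norm_num) hk2
        _ = 2 ^ Nat.log 2 T * 2 := pow_succ _ _
        _ ≤ T * T := Nat.mul_le_mul (Nat.pow_log_le_self 2 (by omega)) hT
        _ = T ^ 2 := by ring
    have hUq : ((2 ^ k : ℕ) : ℚ) ≠ 0 := by exact_mod_cast (by omega : 2 ^ k ≠ 0)
    refine le_trans ?_ hB1
    have hinj : Function.Injective fun z : ℚ => (σ : ℚ) * (z - z₀) * ((2 ^ k : ℕ) : ℚ) := by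
      intro x y h
      have h1 := mul_right_cancel₀ hUq h
      have h2 := mul_left_cancel₀ hσ0 h1
      linarith
    rw [← Finset.card_image_of_injective (W ((z₀, σ), k)) hinj]
    refine hloc (lw m (2 ^ k) z₀ σ) ?_ ?_ (T ^ 2) H hT2 hH ?_ _ ?_
    · exact fun x hx1 hx2 j => lw_diff m (2 ^ k) hU4 z₀ σ hkind x hx1 hx2 j
    · exact fun x hx1 hx2 z hz j => lw_bdd m (2 ^ k) hU4 z₀ σ hkind x hx1 hx2 z hz j
    · refine (hZ (2 ^ k) z₀ σ hU4 hkind).mono_h ?_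
      apply Real.log_le_log
      · exact_mod_cast (by omega : 0 < 2 ^ k)
      · exact_mod_cast hUT
    · intro s hs
      obtain ⟨z, hz, rfl⟩ := Finset.mem_image.1 hs
      obtain ⟨hzS, hz1, hz2⟩ := Finset.mem_filter.1 hz
      obtain ⟨h0, h1, h2, P, hP0, hPD, hPH, hPs⟩ := hS z hzS
      simp only at hz1 hz2
      refine ⟨by exact_mod_cast hz1, by exact_mod_cast hz2, ?_, MvPolynomial.rename Fin.rev P, ?_,
        (MvPolynomial.totalDegree_rename_le _ _).trans hPD, coeff_rev_le P H hPH, ?_⟩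
      · exact (den_window z z₀ σ (2 ^ k)).trans (h2.trans (by nlinarith))
      · intro h
        exact hP0 (MvPolynomial.rename_injective _ Fin.rev_injective (by rw [h, map_zero]))
      · have h3 := aeval_lw (2 ^ k) (by omega) z₀ σ hσ (z : ℂ) P
        have h4 : (((σ : ℚ) * (z - z₀) * ((2 ^ k : ℕ) : ℚ) : ℚ) : ℂ) =
            (σ : ℂ) * ((z : ℂ) - z₀) * ((2 ^ k : ℕ) : ℂ) := by
          push_cast
          ring
        rw [h4, h3]
        refine hPs.trans_le (Real.exp_le_exp.2 ?_)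
        have := hB1.trans hB3
        linarith
  have hlog2T : ((Nat.log 2 T : ℕ) : ℝ) ≤ 2 * ℓ := by
    have h1 : 2 ^ Nat.log 2 T ≤ T := Nat.pow_log_le_self 2 (by omega)
    have h2 : ((2 : ℝ)) ^ Nat.log 2 T ≤ T := by exact_mod_cast h1
    have h3 : (Nat.log 2 T : ℝ) * Real.log 2 ≤ Real.log T := by
      rw [← Real.log_pow]
      exact Real.log_le_log (by positivity) h2
    have h4 := Real.log_two_gt_d9
    have h5 : (0 : ℝ) ≤ Nat.log 2 T := Nat.cast_nonneg _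
    nlinarith
  have hIX : (IX.card : ℝ) ≤ 8 * ℓ := by
    have h1 : IX.card ≤ 4 * Nat.log 2 T := by
      rw [Finset.card_product, Nat.card_Icc]
      exact Nat.mul_le_mul hKSc (by omega)
    have h2 : (IX.card : ℝ) ≤ 4 * (Nat.log 2 T : ℕ) := by exact_mod_cast h1
    linarith
  have hpos : 0 ≤ (2 * C * ℓ) ^ C := by positivity
  calc (S.card : ℝ) ≤ (({1, -1} ∪ IX.biUnion W : Finset ℚ).card : ℝ) := by
        exact_mod_cast Finset.card_le_card hcover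
    _ ≤ (({1, -1} : Finset ℚ).card : ℝ) + ((IX.biUnion W).card : ℝ) := by
        exact_mod_cast Finset.card_union_le _ _
    _ ≤ 2 + ∑ p ∈ IX, ((W p).card : ℝ) := by
        apply add_le_add
        · exact_mod_cast Finset.card_le_two
        · exact_mod_cast Finset.card_biUnion_le
    _ ≤ 2 + ∑ _p ∈ IX, (2 * C * ℓ) ^ C := by
        gcongr with p hp
        exact hWk p hp
    _ = 2 + IX.card * (2 * C * ℓ) ^ C := by
        rw [Finset.sum_const, nsmul_eq_mul]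
    _ ≤ 2 + 8 * ℓ * (2 * C * ℓ) ^ C := by gcongr
    _ ≤ (2 * C * ℓ) ^ C * (22 * ℓ) := by nlinarith
    _ ≤ _ := hB2

/-- all but `(log TH)^C` of the rationals `0 < |z| ≤ 1` with denominator at most `T` -/
theorem final_li (m D : ℕ) : ∃ C : ℕ, ∀ T H : ℕ, 2 ≤ T → 2 ≤ H →
    {z : ℚ | z ≠ 0 ∧ |z| ≤ 1 ∧ z.den ≤ T ∧
      ∃ P : MvPolynomial (Fin m) ℤ, P ≠ 0 ∧ P.totalDegree ≤ D ∧ (∀ e, |P.coeff e| ≤ H) ∧
        |MvPolynomial.aeval (fun j : Fin m =>
            (∑' n : ℕ, (z : ℝ) ^ (n + 1) / ((n : ℝ) + 1) ^ ((j : ℕ) + 2))) P| <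
          Real.exp (-Real.log (T * H) ^ C)}.encard ≤ (⌊Real.log (T * H) ^ C⌋₊ : ℕ∞) := by
  obtain ⟨C, hC⟩ := li_finset m D
  refine ⟨C, fun T H hT hH => encard_le_floor fun S hS => hC T H hT hH S fun z hz => ?_⟩
  obtain ⟨h1, h2, h3, P, hP, hPD, hPH, hPs⟩ := hS hz
  refine ⟨h1, h2, h3, P, hP, hPD, fun d => natAbs_le_of_abs_le (hPH d), ?_⟩
  have h5 := norm_aeval_pl_eq (m := m) (z : ℝ) P
  rw [Complex.ofReal_ratCast] at h5
  rw [h5]
  exact hPs

end Pool.Agent.Lib.MP_524521_nt.RA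
end
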